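import Pool.Agent.MP_8e2770_co.H72.Euler
import Pool.Agent.MP_8e2770_co.H89.Wrap

/-!
Avoiding affine hyperplanes by a point of the cube under a Hall type condition.
-/

namespace Pool.Agent.MP_d1f1f3_co.H2

open MvPolynomial Finset Pool.Agent.MP_8e2770_co Pool.Agent.MP_8e2770_co.H72

noncomputable section

namespace AA

/-- A common element of all tight sets. -/
lemma exists_common {ι J : Type} [Fintype ι] [DecidableEq ι] [Fintype J] [DecidableEq J]
    [Nonempty J] (r : J → ι → Prop) [∀ j i, Decidable (r j i)]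
    (h : ∀ s : Finset J, s.Nonempty → 2 * #s ≤ #(univ.filter fun i => ∃ j ∈ s, r j i) + 1) :
    ∃ j0 : J, ∀ s : Finset J,
      2 * #s ≤ #(univ.filter fun i => ∃ j ∈ s, r j i) + if j0 ∈ s then 1 else 0 := by
  let N : Finset J → Finset ι := fun s => univ.filter fun i => ∃ j ∈ s, r j i
  have hU : ∀ s t, N (s ∪ t) = N s ∪ N t := fun s t => by
    ext i
    simp only [N, mem_filter, mem_univ, true_and, mem_union]
    constructor
    · rintro ⟨j, hj | hj, hr⟩
      exacts [Or.inl ⟨j, hj, hr⟩, Or.inr ⟨j, hj, hr⟩]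
    · rintro (⟨j, hj, hr⟩ | ⟨j, hj, hr⟩)
      exacts [⟨j, Or.inl hj, hr⟩, ⟨j, Or.inr hj, hr⟩]
  have hI : ∀ s t, N (s ∩ t) ⊆ N s ∩ N t := fun s t i => by
    simp only [N, mem_filter, mem_univ, true_and, mem_inter]
    rintro ⟨j, hj, hr⟩
    exact ⟨⟨j, hj.1, hr⟩, j, hj.2, hr⟩
  change ∀ s : Finset J, s.Nonempty → 2 * #s ≤ #(N s) + 1 at h
  change ∃ j0 : J, ∀ s : Finset J, 2 * #s ≤ #(N s) + if j0 ∈ s then 1 else 0
  by_cases hT : ∃ s : Finset J, #(N s) < 2 * #s
  · obtain ⟨s, hs, hmin⟩ := exists_min_image (univ.filter fun s : Finset J => #(N s) < 2 * #s)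
      card (by obtain ⟨s, hs⟩ := hT; exact ⟨s, by simpa using hs⟩)
    have hs' : #(N s) < 2 * #s := by simpa using hs
    obtain ⟨j0, hj0⟩ : s.Nonempty := card_pos.1 (by omega)
    refine ⟨j0, fun t => ?_⟩
    split_ifs with ht
    · exact h t ⟨j0, ht⟩
    · by_contra hlt
      have h1 := h (s ∪ t) ⟨j0, mem_union_left _ hj0⟩
      have h2 := card_union_add_card_inter s t
      have h3 := card_union_add_card_inter (N s) (N t)
      have h4 := card_le_card (hI s t)
      rw [hU] at h1
      have h5 := hmin (s ∩ t) (by simp only [mem_filter, mem_univ, true_and]; omega)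
      have h6 : s ∩ t = s := eq_of_subset_of_card_le inter_subset_left h5
      exact ht (mem_inter.1 (h6.symm ▸ hj0)).2
  · push Not at hT
    exact ⟨Classical.arbitrary J, fun s => (hT s).trans (Nat.le_add_right _ _)⟩

variable {K : Type} [Field K] {n : ℕ} {J : Type} [Fintype J] [DecidableEq J]

/-- The coordinate forms and the rows. -/
def ar (A : J → Fin n → K) : Fin n ⊕ J → Fin n → K := Sum.elim (fun i => Pi.single i 1) A

/-- The weights. -/
def wt (n : ℕ) (j0 : J) : Fin n ⊕ J → ℤ := Sum.elim (fun _ => -1) fun j => if j = j0 then 1 else 2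

/-- The form `dx / x`. -/
def vl (A : J → Fin n → K) : Om K n := ((List.ofFn Sum.inl).map (om (ar A))).prod

open Classical in
theorem euler (A : J → Fin n → K) (j0 : J) (hh : ∀ e, ar A e ≠ 0)
    (hs : ∀ s : Finset J,
      2 * #s ≤ #(univ.filter fun i => ∃ j ∈ s, A j i ≠ 0) + if j0 ∈ s then 1 else 0)
    (t : K) (ht : Function.Injective fun m : ℤ => t ^ m)
    (hchar : ∀ s : ℕ, 1 ≤ s → s ≤ 2 * Fintype.card J → (s : K) ≠ 0) :
    ∃ g ∈ Gs (ar A) univ, ∃ η, vl A = mono (ar A) (wt n j0) • g + d η := by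
  have cols : LinearIndependent K fun i : Fin n => (Pi.single i 1 : Fin n → K) := by
    have := (Pi.basisFun K (Fin n)).linearIndependent
    rwa [show (Pi.basisFun K (Fin n) : Fin n → Fin n → K) = fun i => Pi.single i 1 from
      funext fun i => by simp] at this
  have hw : ∀ S : Finset (Fin n ⊕ J), ∑ e ∈ S, wt n j0 e =
      2 * (#S.toRight : ℤ) - (if j0 ∈ S.toRight then 1 else 0) - #S.toLeft := fun S => by
    have e : ∀ j, (if j = j0 then 1 else 2 : ℤ) = 2 - if j = j0 then 1 else 0 := fun j => by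
      split_ifs <;> norm_num
    simp only [sum_sum_eq_sum_toLeft_add_sum_toRight, wt, Sum.elim_inl, Sum.elim_inr, e,
      sum_sub_distrib, sum_const, sum_ite_eq', nsmul_eq_mul]
    ring
  let ρ : Finset (Fin n ⊕ J) → ℤ := fun S =>
    if ∃ j ∈ S.toRight, ∃ i ∉ S.toLeft, A j i ≠ 0 then 1 else 0
  let m : Finset (Fin n ⊕ J) → ℤ := fun S => min (∑ e ∈ S, wt n j0 e) (ρ S)
  have hm : ∀ c : Finset (Finset (Fin n ⊕ J)), ∀ S ∈ c, m S ≤ ∑ e ∈ S, wt n j0 e :=
    fun _ S _ => min_le_left _ _
  have anti : ∀ m, Antitone (Fw (ar A) m) := fun m c c' hc =>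
    Sp_mono (fun u hu S hS => hu S (hc hS)) subset_rfl
  refine zigzag (ar A) hh t ht (wt n j0) d d_d LinearMap.id (fun _ => rfl) _ (Fw (ar A) m)
    (anti _) (anti _) (fun c => Fw_anti (hm c)) (fun c x => d_mem_Sp hh) (fun c x => d_mem_Sp hh)
    (fun c hc => acyc_path hh hc (hm c) fun S _ => Or.inr fun s h3 h4 => ?_) (fun c _ x hx => hx)
    (vl A) (fun c hc => ?_) (d_om_list _)
  · have h1 : #S.toRight ≤ Fintype.card J := card_le_univ _
    have h5 : 1 ≤ s := by
      simp only [m, ρ] at h3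
      split_ifs at h3 with b
      · omega
      · push Not at b
        have h6 := hs S.toRight
        have h7 : #(univ.filter fun i => ∃ j ∈ S.toRight, A j i ≠ 0) ≤ #S.toLeft :=
          card_le_card fun i hi => by
            obtain ⟨j, hj, hne⟩ := (mem_filter.1 hi).2
            exact by_contra fun hi' => hne (b j hj i hi')
        rw [hw] at h3 h4
        split_ifs at h3 h4 h6 <;> omega
    rw [hw] at h4
    lift s to ℕ using by omega
    refine Int.cast_natCast (R := K) s ▸ hchar s (by omega) ?_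
    split_ifs at h4 <;> omega
  · obtain ⟨B, hB, h1, h2⟩ := exists_adapted (K := K) (ar A) c hc
    obtain ⟨g, hg, e⟩ := top_form hh hB (List.ofFn fun i => Pi.single i 1)
      (List.forall_mem_ofFn_iff.2 fun i => h1 (Sum.inl i)) (by simp)
    have e1 : vl A = mono (ar A) (Sum.elim (fun _ => -1) fun _ => 0) •
        ((List.ofFn fun i => (Pi.single i 1 : Fin n → K)).map dv).prod := by
      rw [vl, om_list, List.map_ofFn, List.map_ofFn, List.map_ofFn, List.prod_ofFn, mono,
        Fintype.prod_sum_type]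
      simp [ar, Function.comp_def]
    rw [e1, e, smul_smul, ← mono_add hh]
    refine mem_Sp (fun S hS => (min_le_right _ _).trans ?_) hg
    have li : LinearIndepOn K (ar A) (S.toLeft.map Function.Embedding.inl : Finset (Fin n ⊕ J)) := by
      rw [coe_map]
      exact LinearIndepOn.image_of_comp _ _ (cols.linearIndepOn _)
    have sub : ∀ e ∈ (S.toLeft.map Function.Embedding.inl : Finset (Fin n ⊕ J)), e ∈ S :=
      fun e he => by
        obtain ⟨i, hi, rfl⟩ := mem_map.1 he
        simpa using hi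
    have c1 : #S.toLeft + ρ S ≤ #(B ∩ S) := by
      simp only [ρ]
      split_ifs with b
      · obtain ⟨j, hj, i, hi, hne⟩ := b
        have hj' : Sum.inr j ∉ (S.toLeft.map Function.Embedding.inl : Finset (Fin n ⊕ J)) := by
          simp
        have c2 := card_le_of_span (K := K) (h := ar A)
          (T := insert (Sum.inr j) (S.toLeft.map Function.Embedding.inl)) (T' := B ∩ S) (by
            rw [coe_insert]
            refine LinearIndepOn.insert li fun hsp => hne ?_
            refine Submodule.span_le.2 (?_ : _ ⊆ (LinearMap.ker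
              (LinearMap.proj i : (Fin n → K) →ₗ[K] K) : Set (Fin n → K))) hsp
            rintro _ ⟨e, he, rfl⟩
            obtain ⟨i', hi', rfl⟩ := mem_map.1 he
            have : i ≠ i' := fun e => hi (e ▸ hi')
            simp [ar, this])
          fun e he => h2 S hS e (by
            rcases mem_insert.1 he with rfl | he
            · simpa using hj
            · exact sub e he)
        rw [card_insert_of_notMem hj', card_map] at c2
        exact_mod_cast c2
      · have c2 := card_le_of_span (K := K) (h := ar A) (T' := B ∩ S) li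
          fun e he => h2 S hS e (sub e he)
        rw [card_map] at c2
        simpa using c2
    simp only [Pi.add_apply, sum_add_distrib]
    rw [sum_sum_eq_sum_toLeft_add_sum_toRight S (Sum.elim _ _), sum_boole, filter_mem_eq_inter,
      inter_comm S B]
    simp only [Sum.elim_inl, Sum.elim_inr, sum_const, smul_zero, nsmul_eq_mul]
    omega

theorem no_pole (A : J → Fin n → K) (j0 : J) (hh : ∀ e, ar A e ≠ 0)
    (H : ∃ g ∈ Gs (ar A) univ, ∃ η, vl A = mono (ar A) (wt n j0) • g + d η) :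
    ∃ g ∈ Gs (ar A) (univ.erase (Sum.inr j0)), ∃ η, vl A = mono (ar A) (wt n j0) • g + d η := by
  obtain ⟨g, hg, η, H⟩ := H
  rw [← insert_erase (mem_univ (Sum.inr j0 : Fin n ⊕ J))] at hg
  obtain ⟨a, ha, b, hb, rfl⟩ := H89.exists_of_mem_Gs_insert _ hg
  refine ⟨a - (∑ e ∈ univ.erase (Sum.inr j0), (wt n j0 e : K) • om (ar A) e) * b - d b,
    sub_mem (sub_mem ha (mul_mem (sum_mem fun e he =>
      Subalgebra.smul_mem _ (om_mem_Gs he) _) hb)) (d_mem_Gs hb),
    η + mono (ar A) (wt n j0) • b, ?_⟩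
  rw [H, map_add, d_smul, df_mono hh, ← add_sum_erase _ _ (mem_univ (Sum.inr j0))]
  have : (wt n j0 (Sum.inr j0) : K) = 1 := by simp [wt]
  rw [this, one_smul, smul_mul_assoc, add_mul]
  simp only [smul_add, smul_sub]
  abel

theorem residue (p : ℕ) [Fact p.Prime] [CharP K p] (A : J → Fin n → K) (j0 : J)
    (hh : ∀ e, ar A e ≠ 0)
    (H : ∃ g ∈ Gs (ar A) (univ.erase (Sum.inr j0)), ∃ η,
      vl A = mono (ar A) (wt n j0) • g + d η) :
    ∃ β : Fin n →₀ ℕ, (∀ i, β i ≤ 1) ∧ coeff β (∏ j, lin (A j)) ≠ 0 := by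
  obtain ⟨g, hg, η, H⟩ := H
  obtain ⟨φ, hφ⟩ := H89.exists_top (K := K) (n := n)
  obtain ⟨G, hG⟩ := H89.top_of_mem_Gs _ (H89.prod_smul_mem_Gs _ hg) φ
  obtain ⟨f, hf⟩ := H89.top_d φ η
  obtain ⟨⟨b, hb0⟩, hb⟩ := IsLocalization.exist_integer_multiples_of_finite
    (nonZeroDivisors (MvPolynomial (Fin n) K)) f
  choose u hu using hb
  set P : MvPolynomial (Fin n) K := ∏ i, X i with hP
  set Q : MvPolynomial (Fin n) K := ∏ j, lin (A j) with hQ
  have hP0 : pol P ≠ 0 := by
    rw [hP, map_prod, prod_ne_zero_iff]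
    exact fun i _ h0 => X_ne_zero i (pol_injective (h0.trans (map_zero _).symm))
  have hQ0 : pol Q ≠ 0 := by
    rw [hQ, map_prod, prod_ne_zero_iff]
    exact fun j _ => L_ne_zero (hh (Sum.inr j))
  have hL0 : L (A j0) ≠ 0 := L_ne_zero (hh (Sum.inr j0))
  have h1 : H89.top φ (vl A) = (pol P)⁻¹ := by
    have : vl A = (pol P)⁻¹ • cst (List.ofFn fun i =>
        ExteriorAlgebra.ι K (Pi.single i (1 : K) : Fin n → K)).prod := by
      rw [vl, List.map_ofFn, map_list_prod, List.map_ofFn, hP, map_prod, ← prod_inv_distrib,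
        ← H89.prod_ofFn_smul]
      simp only [om, ar, Sum.elim_inl, H72.L_apply, lin_single, Function.comp_def]
      rfl
    rw [this, H89.top_smul_cst, hφ, one_smul]
  have h2 : mono (ar A) (wt n j0) * L (A j0) = (pol P)⁻¹ * pol Q ^ 2 := by
    have e : mono (ar A) (wt n j0 + Pi.single (Sum.inr j0) 1) =
        mono (ar A) (wt n j0) * L (A j0) := by
      rw [mono_add hh, mono_single, zpow_one]
      rfl
    have e' : wt n j0 + Pi.single (Sum.inr j0) 1 =
        Sum.elim (fun _ => -((1 : ℕ) : ℤ)) fun _ => ((2 : ℕ) : ℤ) := by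
      ext (i | j)
      · simp [wt]
      · by_cases a : j = j0 <;> simp [wt, a]
    rw [← e, e']
    simp only [mono, Fintype.prod_sum_type, ar, Sum.elim_inl, Sum.elim_inr, H72.L_apply,
      lin_single, zpow_neg, zpow_natCast, hP, hQ, map_prod, prod_pow, prod_inv_distrib, pow_one]
  have h3 : pol P * pol Q * H89.top φ g = L (A j0) * pol G := by
    have e : L (A j0) * ∏ e ∈ univ.erase (Sum.inr j0), L (ar A e) = pol P * pol Q := by
      have := mul_prod_erase univ (fun e => L (ar A e)) (mem_univ (Sum.inr j0 : Fin n ⊕ J))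
      refine Eq.trans this ?_
      simp only [Fintype.prod_sum_type, ar, Sum.elim_inl, Sum.elim_inr, H72.L_apply, lin_single,
        hP, hQ, map_prod]
    rw [← hG, map_smul, smul_eq_mul, ← mul_assoc, e]
  have h4 := congrArg (H89.top φ) H
  rw [h1, map_add, map_smul, hf, smul_eq_mul, (eq_div_iff hL0).2 h2,
    (eq_inv_mul_iff_mul_eq₀ (mul_ne_zero hP0 hQ0)).2 h3] at h4
  obtain ⟨q, rfl⟩ : ∃ q, p = q + 1 := ⟨p - 1, by have := (Fact.out : p.Prime).pos; omega⟩
  have hc : CharP (FF K n) (q + 1) := charP_of_injective_algebraMap (algebraMap K _).injective _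
  have h5 : b ^ (q + 1) * (P ^ (2 * q) * (P ^ 1 - Q * G)) =
      ∑ i, pderiv i ((b * P ^ 2) ^ q * P ^ 2 * u i) := by
    apply pol_injective
    have : ∀ i, pol (pderiv i ((b * P ^ 2) ^ q * P ^ 2 * u i)) =
        pol (b * P ^ 2) ^ (q + 1) * D i (f i) := fun i => by
      have e1 : pol (u i) = pol b * f i := (hu i).trans (Algebra.smul_def _ _)
      have e2 : pol ((b * P ^ 2) ^ q * P ^ 2 * u i) = pol (b * P ^ 2) ^ (q + 1) * f i := by
        simp only [map_mul, map_pow, e1]; ring
      rw [← D_pol, e2, Derivation.leibniz, Derivation.leibniz_pow, ← Nat.cast_smul_eq_nsmul (FF K n),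
        CharP.cast_eq_zero]
      simp
    rw [map_sum]
    simp only [this]
    rw [← mul_sum, ← sub_eq_iff_eq_add'.2 h4]
    simp only [map_mul, map_pow, map_sub]
    field_simp
    ring
  have hPm : ∀ j : ℕ, P ^ j = monomial (Finsupp.equivFunOnFinite.symm fun _ => j) 1 := fun j => by
    rw [monomial_eq, Finsupp.prod_fintype _ _ (by simp), hP, ← prod_pow]
    simp
  have h6 := H89.cartier (q + 1) (nonZeroDivisors.ne_zero hb0) _ h5
    (Finsupp.equivFunOnFinite.symm (fun _ => 2 * q) +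
      Finsupp.equivFunOnFinite.symm fun _ => 1) (fun i => by
        have := CharP.cast_eq_zero K (q + 1)
        simp only [Finsupp.coe_add, Pi.add_apply, Finsupp.equivFunOnFinite_symm_apply_apply]
        push_cast at this ⊢
        linear_combination (2 : K) * this)
  rw [hPm, coeff_monomial_mul, hPm, one_mul, coeff_sub, coeff_monomial, if_pos rfl, sub_eq_zero,
    coeff_mul] at h6
  obtain ⟨⟨β, γ⟩, h7, h8⟩ := exists_ne_zero_of_sum_ne_zero (h6 ▸ one_ne_zero)
  refine ⟨β, fun i => ?_, left_ne_zero_of_mul h8⟩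
  have := congrArg (fun s => s i) (HasAntidiagonal.mem_antidiagonal.1 h7)
  simp only [Finsupp.coe_add, Pi.add_apply, Finsupp.equivFunOnFinite_symm_apply_apply] at this
  omega

omit [DecidableEq J] in
theorem point (A : J → Fin n → K) (c : J → K) {β : Fin n →₀ ℕ} (h1 : ∀ i, β i ≤ 1)
    (h2 : coeff β (∏ j, lin (A j)) ≠ 0) :
    ∃ x : Fin n → K, (∀ i, x i = 0 ∨ x i = 1) ∧ ∀ j, c j + ∑ i, A j i * x i ≠ 0 := by
  classical
  obtain ⟨a1, a2⟩ := H89.coeff_prod_sub univ (fun j => lin (A j))
    (fun j => (H89.lin_isHomogeneous _).totalDegree_le) fun j => -c j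
  have a3 : #(univ : Finset J) = β.degree := by
    have := (IsHomogeneous.prod univ (fun j => lin (A j)) (fun _ => 1)
      fun j _ => H89.lin_isHomogeneous (A j)) h2
    rw [Finsupp.degree_eq_weight_one]
    exact Eq.trans (by simp) this.symm
  have a4 := a2 β a3.le
  rw [coeff_sub, sub_eq_zero] at a4
  rw [← a4] at h2
  obtain ⟨x, hx, hx'⟩ := combinatorial_nullstellensatz_exists_eval_nonzero _ β h2
    (le_antisymm (a1.trans a3.le) (le_totalDegree (mem_support_iff.2 h2))) (fun _ => {0, 1})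
    fun i => by have := h1 i; rw [card_pair zero_ne_one]; omega
  refine ⟨x, fun i => by simpa using hx i, fun j hj => hx' ?_⟩
  rw [map_prod]
  refine prod_eq_zero (mem_univ j) ?_
  rw [← hj, add_comm]
  simp [lin_apply]

theorem avoid_fin (A : J → Fin n → ℤ) (c : J → ℤ)
    (h : ∀ s : Finset J, s.Nonempty → 2 * #s ≤ #(univ.filter fun i => ∃ j ∈ s, A j i ≠ 0) + 1) :
    ∃ x : Fin n → ℤ, (∀ i, x i = 0 ∨ x i = 1) ∧ ∀ j, c j + ∑ i, A j i * x i ≠ 0 := by
  classical
  rcases isEmpty_or_nonempty J with hJ | hJ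
  · exact ⟨0, fun _ => Or.inl rfl, fun j => hJ.elim j⟩
  obtain ⟨j0, hs⟩ := exists_common (fun j i => A j i ≠ 0) h
  obtain ⟨p, hp, pp⟩ := Nat.exists_infinite_primes
    (2 * Fintype.card J + ∑ j, ∑ i, (A j i).natAbs + 1)
  have : Fact p.Prime := ⟨pp⟩
  have hc : CharP (RatFunc (ZMod p)) p :=
    charP_of_injective_algebraMap (algebraMap (ZMod p) _).injective p
  have hA : ∀ j i, ((A j i : ℤ) : RatFunc (ZMod p)) ≠ 0 ↔ A j i ≠ 0 := fun j i => by
    refine ⟨fun h1 h2 => h1 (by rw [h2, Int.cast_zero]), fun h1 h2 => ?_⟩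
    rw [CharP.intCast_eq_zero_iff _ p, Int.natCast_dvd] at h2
    have h3 := Nat.le_of_dvd (Int.natAbs_pos.2 h1) h2
    have h4 : (A j i).natAbs ≤ ∑ i, (A j i).natAbs :=
      single_le_sum (f := fun i => (A j i).natAbs) (fun _ _ => Nat.zero_le _) (mem_univ i)
    have h5 : ∑ i, (A j i).natAbs ≤ ∑ j, ∑ i, (A j i).natAbs :=
      single_le_sum (f := fun j => ∑ i, (A j i).natAbs) (fun _ _ => Nat.zero_le _) (mem_univ j)
    omega
  let A' : J → Fin n → RatFunc (ZMod p) := fun j i => A j i
  have hh : ∀ e, ar A' e ≠ 0 := by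
    rintro (i | j) h0
    · simpa [ar] using congrFun h0 i
    · have h1 := h {j} (singleton_nonempty j)
      obtain ⟨i, hi⟩ : (univ.filter fun i => ∃ j' ∈ ({j} : Finset J), A j' i ≠ 0).Nonempty :=
        card_pos.1 (by rw [card_singleton] at h1; omega)
      obtain ⟨j', hj', hne⟩ := (mem_filter.1 hi).2
      rw [mem_singleton.1 hj'] at hne
      exact (hA j i).2 hne (congrFun h0 i)
  obtain ⟨β, h1, h2⟩ := residue p A' j0 hh (no_pole A' j0 hh (euler A' j0 hh (fun s => by
    refine (hs s).trans (Nat.add_le_add_right (card_le_card fun i hi => ?_) _)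
    obtain ⟨j, hj, hne⟩ := (mem_filter.1 hi).2
    exact mem_filter.2 ⟨mem_univ _, j, hj, (hA j i).2 hne⟩) RatFunc.X H89.zpow_X_injective
    fun s h1 h2 h3 => by
      rw [CharP.cast_eq_zero_iff _ p] at h3
      have := Nat.le_of_dvd h1 h3
      omega))
  obtain ⟨x, hx, hx'⟩ := point A' (fun j => c j) h1 h2
  refine ⟨fun i => if x i = 0 then 0 else 1, fun i => by
    dsimp only
    split_ifs <;> simp, fun j hj => hx' j ?_⟩
  have h3 := congrArg (Int.cast : ℤ → RatFunc (ZMod p)) hj
  push_cast at h3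
  rw [← h3]
  refine congrArg _ (sum_congr rfl fun i _ => congrArg _ ?_)
  rcases hx i with a | a <;> simp [a]

end AA

/-- Affine forms whose supports satisfy a Hall type condition have a common non-zero on the cube. -/
theorem avoid {ι J : Type} [Fintype ι] [DecidableEq ι] [Fintype J] [DecidableEq J]
    (A : J → ι → ℤ) (c : J → ℤ)
    (h : ∀ s : Finset J, s.Nonempty →
      2 * s.card ≤ (Finset.univ.filter fun i => ∃ j ∈ s, A j i ≠ 0).card + 1) :
    ∃ x : ι → ℤ, (∀ i, x i = 0 ∨ x i = 1) ∧ ∀ j, c j + ∑ i, A j i * x i ≠ 0 := by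
  let e := Fintype.equivFin ι
  obtain ⟨x, hx, hx'⟩ := AA.avoid_fin (fun j i => A j (e.symm i)) c fun s hs =>
    (h s hs).trans (Nat.add_le_add_right (card_le_card_of_injOn e (fun i hi => by
      simpa using hi) e.injective.injOn) 1)
  refine ⟨fun i => x (e i), fun i => hx _, fun j hj => hx' j ?_⟩
  rw [← hj, ← e.sum_comp]
  simp

end

end Pool.Agent.MP_d1f1f3_co.H2
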