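import Pool.Agent.MP_d1f1f3_co.H2.Spec4

/-!
Basic facts on good states.
-/

namespace Pool.Agent.MP_d1f1f3_co.H2

open Finset Relation H47
open scoped Classical

noncomputable section

namespace Bas

variable {V : Type} [Fintype V]

theorem Fc_comm {G : SimpleGraph V} {κ : V → ZMod 2} {v w : V} : Fc G κ v w ↔ Fc G κ w v := by
  simp only [Fc, G.adj_comm v w, eq_comm (a := κ v), and_left_comm]

theorem Hc_comm {G : SimpleGraph V} {κ : V → ZMod 2} {v w : V} : Hc G κ v w ↔ Hc G κ w v := by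
  simp only [Hc, G.adj_comm v w, ne_comm (a := κ v), and_left_comm]

theorem nFc {G : SimpleGraph V} {κ : V → ZMod 2} (v : V) : ¬Fc G κ v v := fun h => h.1.ne rfl

theorem nHc {G : SimpleGraph V} {κ : V → ZMod 2} (v : V) : ¬Hc G κ v v := fun h => h.1.ne rfl

theorem nFH {G : SimpleGraph V} {κ : V → ZMod 2} {v w : V} (h : Hc G κ v w) : ¬Fc G κ v w :=
  fun h' => h.2.2.2 h'.2.2.2

omit [Fintype V] in
theorem cp2 {x y : V} (h : x ≠ y) (p : V → Prop) :
    (#(({x, y} : Finset V).filter p) : ℤ) = (if p x then 1 else 0) + if p y then 1 else 0 := by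
  rw [card_filter, sum_pair h]
  push_cast
  rfl

variable {s : Sg V} {κ : V → ZMod 2}

theorem memQ {v : V} : v ∈ s.Q κ ↔ Co s.G v ∧ s.t κ v < 0 := by simp [Sg.Q]

theorem Dl_one (v : V) : s.Dl κ {v} = 2 * s.t κ v + 1 := by
  simp [Sg.Dl, Dl, filter_singleton, nFc, nHc]

theorem Dl_two {x y : V} (h : x ≠ y) : s.Dl κ {x, y} = 2 * s.t κ x + 2 * s.t κ y + 2 +
    2 * (if Fc s.G κ x y then 1 else 0) - 2 * if Hc s.G κ x y then 1 else 0 := by
  rw [Sg.Dl, Dl, sum_pair h]
  simp only [cp2 h, nFc, nHc, if_false, Fc_comm (v := y), Hc_comm (v := y), Nat.cast_zero,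
    sum_const_zero]
  ring

theorem low (h : s.TH κ) {v : V} (hv : Co s.G v) : -1 ≤ s.t κ v := by
  have := h {v} (by simpa using hv)
  rw [Dl_one] at this
  omega

theorem tQ (h : s.TH κ) {v : V} (hv : v ∈ s.Q κ) : s.t κ v = -1 := by
  have := low h (memQ.1 hv).1
  have := (memQ.1 hv).2
  omega

theorem two (h : s.TH κ) {x y : V} (hx : Co s.G x) (hy : Co s.G y) : -1 ≤ s.Dl κ {x, y} :=
  h {x, y} (by simp [hx, hy])

theorem clq (h : s.TH κ) {x y : V} (hx : x ∈ s.Q κ) (hy : y ∈ s.Q κ) (e : x ≠ y) :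
    Fc s.G κ x y := by
  have := two h (memQ.1 hx).1 (memQ.1 hy).1
  rw [Dl_two e, tQ h hx, tQ h hy] at this
  by_contra hn
  rw [if_neg hn] at this
  split_ifs at this <;> omega

theorem don (h : s.TH κ) {x g : V} (hx : x ∈ s.Q κ) (hg : Hc s.G κ g x) : 1 ≤ s.t κ g := by
  have := two h hg.2.1 hg.2.2.1
  rw [Dl_two hg.1.ne, tQ h hx, if_pos hg, if_neg (nFH hg)] at this
  omega

theorem sum (h : s.Ok) {v : V} (hv : Co s.G v) :
    df s.G κ v + dh s.G κ v + (if v = s.ρ then 1 else 0) = dg s.G v := by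
  have hz : ∀ w, s.G.Adj v w → ¬Co s.G w → w = s.z := fun w a hw => by
    have h1 : 0 < dg s.G w := card_pos.2 ⟨v, by simpa [N] using a.symm⟩
    have h2 := h.deg w
    exact h.leaf w (by unfold Co at hw; omega)
  have e : (if v = s.ρ then 1 else 0) = #(univ.filter fun w => s.G.Adj v w ∧ ¬Co s.G w) := by
    rcases h.root with ⟨hN, -⟩ | ⟨h1, h2, -⟩
    · have hm : ∀ w, s.G.Adj s.z w ↔ w = s.ρ := fun w => by
        simpa [N] using Finset.ext_iff.1 hN w
      split_ifs with e
      · symm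
        rw [card_eq_one]
        refine ⟨s.z, eq_singleton_iff_unique_mem.2 ⟨?_, fun w hw => ?_⟩⟩
        · simp [((hm v).2 e).symm, Co, dg, hN]
        · exact hz w (mem_filter.1 hw).2.1 (mem_filter.1 hw).2.2
      · symm
        rw [card_eq_zero, filter_eq_empty_iff]
        rintro w - ⟨a, hw⟩
        exact e ((hm v).1 (hz w a hw ▸ a.symm))
    · have h0 := h.iso
      rw [if_neg (by rintro rfl; rw [Co, h2] at hv; omega)]
      symm
      rw [card_eq_zero, filter_eq_empty_iff]
      rintro w - ⟨a, hw⟩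
      have h3 : 0 < dg s.G w := card_pos.2 ⟨v, by simpa [N] using a.symm⟩
      rw [hz w a hw, h1] at h3
      omega
  rw [e, df, dh, dg, N]
  simp only [card_filter, ← sum_add_distrib]
  refine sum_congr rfl fun w _ => ?_
  by_cases a : s.G.Adj v w <;> by_cases b : Co s.G w <;> by_cases c : κ v = κ w <;>
    simp [Fc, Hc, a, b, c, hv]

end Bas

open Bas

theorem bas : SBas := fun hF V _ s j κ ho hs => by
  have th := hs.2.1
  have fl : ∀ x y, x ≠ y → Co s.G x → Co s.G y → x ≠ s.ρ → y ≠ s.ρ →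
      (s.Dl κ {x, y} = 0 → s.St j (flp κ {x, y})) ∧
      (s.t (flp κ {x, y}) x = -1 - s.t κ x - (if Fc s.G κ x y then 1 else 0) +
        if Hc s.G κ x y then 1 else 0) ∧
      (s.t (flp κ {x, y}) y = -1 - s.t κ y - (if Fc s.G κ x y then 1 else 0) +
        if Hc s.G κ x y then 1 else 0) ∧
      ∀ v, Co s.G v → v ≠ x → v ≠ y → s.t (flp κ {x, y}) v = s.t κ v +
        ((if Fc s.G κ v x then 1 else 0) + if Fc s.G κ v y then 1 else 0) -
        ((if Hc s.G κ v x then 1 else 0) + if Hc s.G κ v y then 1 else 0) :=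
    fun x y e hx hy rx ry => by
      obtain ⟨h1, h2⟩ := hF V s κ {x, y} ho (by simp [hx, hy])
      refine ⟨h2 j hs (by simp [rx.symm, ry.symm]), ?_, ?_, fun v hv a b => ?_⟩
      · rw [h1 x hx, if_pos (by simp), if_neg rx, cp2 e, cp2 e, if_neg (nFc x),
          if_neg (nHc x)]
        ring
      · rw [h1 y hy, if_pos (by simp), if_neg ry, cp2 e, cp2 e, if_neg (nFc y),
          if_neg (nHc y)]
        simp only [Fc_comm (v := y), Hc_comm (v := y)]
        ring
      · rw [h1 v hv, if_neg (by simp [a, b]), cp2 e, cp2 e]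
  refine ⟨fun v => low th, fun x hx y hy => clq th hx hy, fun x hx g => don th hx,
    fun v => sum ho, fun x hx y hy e rx ry => ?_, fun x hx v hv rx rv hc => ?_, fun x hx rx => ?_⟩
  · obtain ⟨h1, h2, h3, h4⟩ := fl x y e (memQ.1 hx).1 (memQ.1 hy).1 rx ry
    have f := clq th hx hy e
    have g : ¬Hc s.G κ x y := fun g => nFH g f
    rw [Dl_two e, tQ th hx, tQ th hy, if_pos f, if_neg g] at h1
    rw [tQ th hx, if_pos f, if_neg g] at h2
    rw [tQ th hy, if_pos f, if_neg g] at h3
    refine ⟨h1 (by norm_num), Finset.ext fun v => ?_⟩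
    simp only [memQ, mem_insert, Cm, mem_filter, mem_univ, true_and]
    by_cases a : v = x
    · subst a
      simp [h2, (memQ.1 hx).1]
    by_cases b : v = y
    · subst b
      simp [h3, (memQ.1 hy).1]
    simp only [a, b, false_or]
    refine ⟨fun ⟨hv, ht⟩ => ?_, fun ⟨⟨p, q⟩, r⟩ => ⟨p.2.1, ?_⟩⟩
    · rw [h4 v hv a b] at ht
      by_cases m : v ∈ s.Q κ
      · have p := clq th m hx a
        have q := clq th m hy b
        rw [tQ th m, if_pos p, if_pos q, if_neg fun g => nFH g p, if_neg fun g => nFH g q] at ht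
        omega
      · have m' : 0 ≤ s.t κ v := not_lt.1 fun l => m (memQ.2 ⟨hv, l⟩)
        have p := don th hx (g := v)
        have q := don th hy (g := v)
        by_cases c : Hc s.G κ v x <;> by_cases d : Hc s.G κ v y <;>
          simp only [c, d, if_true, if_false, true_and, forall_const] at ht p q ⊢ <;>
          split_ifs at ht <;> omega
    · rw [h4 v p.2.1 a b, r, if_pos p, if_pos q, if_neg (nFH p), if_neg (nFH q)]
      norm_num
  · have tx := tQ th hx
    have e : x ≠ v := by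
      rintro rfl
      omega
    obtain ⟨h1, h2, h3, -⟩ := fl x v e (memQ.1 hx).1 hv rx rv
    rw [Dl_two e] at h1
    rw [memQ, memQ, h2, h3]
    rcases hc with ⟨t0, na⟩ | ⟨t1, g⟩
    · have f : ¬Fc s.G κ x v := fun f => na f.1
      have g : ¬Hc s.G κ x v := fun f => na f.1
      rw [tx, t0, if_neg f, if_neg g] at h1 ⊢
      exact ⟨h1 (by norm_num), ⟨hv, by norm_num⟩, fun h => by simpa using h.2⟩
    · have g' := Hc_comm.1 g
      rw [tx, t1, if_pos g', if_neg (nFH g')] at h1 ⊢
      exact ⟨h1 (by norm_num), ⟨hv, by norm_num⟩, fun h => by simpa using h.2⟩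
  · have tx := tQ th hx
    have hc := (memQ.1 hx).1
    have sm := sum (κ := κ) ho hc
    rw [if_neg rx] at sm
    rw [Sg.t, if_neg fun u => rx u.1, tau] at tx
    refine ⟨dg s.G x / 2, ?_⟩
    by_cases w : Wv s.G κ x
    · rw [if_pos w] at tx
      have ev := Nat.even_iff.1 w.2.1
      have z : ∀ a b : ZMod 2, a ≠ b → a = b + 1 := by decide
      exact Or.inr (Or.inr ⟨by omega, z _ _ w.2.2, by omega, by omega⟩)
    · rw [if_neg w] at tx
      rcases Nat.even_or_odd (dg s.G x) with ev | od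
      · have k : κ x = (dg s.G x / 2 : ℕ) := by
          by_contra k
          exact w ⟨by unfold Co at hc; unfold K; omega, ev, k⟩
        have ev' := Nat.even_iff.1 ev
        exact Or.inr (Or.inl ⟨by omega, k, by omega, by omega⟩)
      · have od' := Nat.odd_iff.1 od
        exact Or.inl ⟨by omega, by omega, by omega⟩

end

end Pool.Agent.MP_d1f1f3_co.H2
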