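import Pool.Agent.MP_d1f1f3_co.H2.Spec
import Pool.Agent.MP_d1f1f3_co.H47.Blev

/-!
The levels of the colours, for chains with alternating signs.
-/

namespace Pool.Agent.MP_d1f1f3_co.H2

open Finset Relation H47 H47.Blev
open scoped Classical

noncomputable section

namespace BlevA

variable {V : Type} {G : SimpleGraph V} {E : V → V → Prop} {Y : V → Prop} {i o : V → V}

lemma no_pred {c s : V × V} (h : Nxt Y i o c s) : ¬Start E Y o s := by
  obtain ⟨h1, -, rfl⟩ := h
  exact fun hs => hs.2 ⟨h1, rfl⟩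

lemma st_uniq {s s' : V × V} {e e' : (V × V) × ZMod 2} (h : ReflTransGen (Nx2 Y i o) (s, 0) e)
    (h' : ReflTransGen (Nx2 Y i o) (s', 0) e') (he : e.1 = e'.1) (hs : Start E Y o s)
    (hs' : Start E Y o s') : s = s' ∧ e.2 = e'.2 := by
  induction h generalizing e' with
  | refl =>
    rcases h'.cases_tail with rfl | ⟨c, -, h⟩
    · exact ⟨he, rfl⟩
    · exact absurd hs (no_pred ((show s = e'.1 from he) ▸ h.1))
  | tail h1 h2 ih =>
    rcases h'.cases_tail with rfl | ⟨c, h3, h4⟩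
    · exact absurd hs' (no_pred ((show _ = s' from he) ▸ h2.1))
    · obtain ⟨a, b⟩ := ih h3 (nxt_inj h2.1 (he ▸ h4.1))
      exact ⟨a, by rw [h2.2, h4.2, b]⟩

lemma en_uniq {s e e' : (V × V) × ZMod 2} (h : ReflTransGen (Nx2 Y i o) s e)
    (h' : ReflTransGen (Nx2 Y i o) s e') (he : Last Y i e.1) (he' : Last Y i e'.1) : e = e' := by
  have U : Relator.RightUnique (Nx2 Y i o) := fun _ _ _ a b =>
    Prod.ext (a.1.2.2.trans b.1.2.2.symm) (a.2.trans b.2.symm)
  have k : ∀ e e', ReflTransGen (Nx2 Y i o) e e' → Last Y i e.1 → e = e' := fun e e' h he =>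
    h.cases_head.resolve_right fun ⟨c, h, _⟩ => he ⟨h.1.1, h.1.2.1⟩
  exact (ReflTransGen.total_of_right_unique U h h').elim (k _ _ · he) fun a => (k _ _ a he').symm

variable [Fintype V]

lemma st_ex (H : Chs G E Y i o) (e : V × V) : ∃ g : (V × V) × ZMod 2, E e.1 e.2 →
    Start E Y o g.1 ∧ ReflTransGen (Nx2 Y i o) (g.1, 0) (e, g.2) := by
  have : Std.Irrefl (TransGen (Nxt Y i o)) := ⟨H.acyc⟩
  induction e using (Finite.wellFounded_of_trans_of_irrefl (TransGen (Nxt Y i o))).induction with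
  | _ e ih =>
    by_cases h : Y e.1 ∧ e.2 = o e.1
    · have n : Nxt Y i o (i e.1, e.1) e := ⟨h.1, rfl, Prod.ext rfl h.2⟩
      obtain ⟨g, hg⟩ := ih _ (.single n)
      obtain ⟨a, b⟩ := hg (H.arc _ h.1).1
      exact ⟨(g.1, g.2 + 1), fun _ => ⟨a, b.tail ⟨n, rfl⟩⟩⟩
    · exact ⟨(e, 0), fun a => ⟨⟨a, h⟩, .refl⟩⟩

lemma en_ex (H : Chs G E Y i o) (e : V × V) : ∀ π, E e.1 e.2 → ∃ f : (V × V) × ZMod 2,
    ReflTransGen (Nx2 Y i o) (e, π) f ∧ Last Y i f.1 ∧ E f.1.1 f.1.2 := by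
  have : Std.Irrefl (Function.swap (TransGen (Nxt Y i o))) := ⟨H.acyc⟩
  induction e using
    (Finite.wellFounded_of_trans_of_irrefl (Function.swap (TransGen (Nxt Y i o)))).induction with
  | _ e ih =>
    intro π he
    by_cases h : Y e.2 ∧ e.1 = i e.2
    · have n : Nxt Y i o e (e.2, o e.2) := ⟨h.1, h.2, rfl⟩
      obtain ⟨f, a, b⟩ := ih _ (.single n) (π + 1) (H.arc _ h.1).2
      exact ⟨f, a.head ⟨n, rfl⟩, b⟩
    · exact ⟨_, .refl, h, he⟩

lemma side (P : V → Prop) (T : V → ℤ) (y q : Prop) (a b : V) (d : ℤ) (ha : y → P a)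
    (hb : q → P b ∧ ¬(y ∧ b = a) ∧ T b = d)
    (h : ∀ x, P x → ¬(y ∧ x = a) → ¬(q ∧ x = b) → T x = 0) :
    ∑ x, (if P x then T x else 0) = (if y then T a else 0) + if q then d else 0 := by
  have : ∀ x, (if P x then T x else 0) =
      (if x = a then (if y then T a else 0) else 0) + if x = b then (if q then d else 0) else 0 :=
    fun x => by
      have := h x
      grind
  simp only [this, sum_add_distrib, sum_ite_eq', mem_univ, if_true]

/-- The sign of a parity. -/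
def sn (π : ZMod 2) : ℤ := if π = 0 then 1 else -1

/-- The coefficient of the variable `s` in the sum at `v`. -/
def co (G : SimpleGraph V) (E : V → V → Prop) (g : V × V → (V × V) × ZMod 2) (v : V) (s : V × V) :
    ℤ := ∑ w ∈ N G v, bb E (fun e => if (g e).1 = s then sn (g e).2 else 0) v w

variable {g : V × V → (V × V) × ZMod 2}
  (hg : ∀ e : V × V, E e.1 e.2 →
    Start E Y o (g e).1 ∧ ReflTransGen (Nx2 Y i o) ((g e).1, 0) (e, (g e).2))

include hg

omit [Fintype V] in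
lemma g_eq {s e : V × V} {π : ZMod 2} (he : E e.1 e.2) (hs : Start E Y o s)
    (h : ReflTransGen (Nx2 Y i o) (s, 0) (e, π)) : g e = (s, π) :=
  have := st_uniq (hg e he).2 h rfl (hg e he).1 hs
  Prod.ext this.1 this.2

omit [Fintype V] in
lemma g_nxt (H : Chs G E Y i o) {v : V} (hv : Y v) :
    g (v, o v) = ((g (i v, v)).1, (g (i v, v)).2 + 1) :=
  have a := hg (i v, v) (H.arc v hv).1
  g_eq hg (H.arc v hv).2 a.1 (a.2.tail ⟨⟨hv, rfl, rfl⟩, rfl⟩)

lemma co_spec (H : Chs G E Y i o) {s : V × V} (hs : Start E Y o s) (hr : ¬Vr Y i o s) :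
    ∃ (w : V) (δ : ℤ), (∀ v, co G E g v s = (if s.1 = v then 1 else 0) + if w = v then δ else 0) ∧
      ((δ = 1 ∧ Vd Y i o s w) ∨ (δ = -1 ∧ w ≠ s.1)) := by
  obtain ⟨⟨e, π⟩, e1, e2, e3⟩ := en_ex H s 0 hs.1
  refine ⟨e.2, sn π, fun v => ?_, ?_⟩
  · have k : ∀ f : V × V → ℤ, ∑ w ∈ N G v, bb E f v w =
        ∑ w, (if E v w then f (v, w) else 0) + ∑ w, if E w v then f (w, v) else 0 := fun f => by
      rw [N, sum_filter, ← sum_add_distrib]
      refine sum_congr rfl fun w _ => ?_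
      have h1 := H.adj v w
      have h2 := fun a => (H.adj w v a).symm
      have h3 := H.ori v w
      rw [bb]
      grind
    rw [co, k, side (E v) _ (Y v) (s.1 = v) (o v) s.2 1 (fun a => (H.arc v a).2) ?_ ?_,
      side (E · v) _ (Y v) (e.2 = v) (i v) e.1 (sn π) (fun a => (H.arc v a).1) ?_ ?_]
    · by_cases y : Y v
      · have : ∀ π, sn (π + 1) = -sn π := by decide
        simp only [if_pos y, g_nxt hg H y, this]
        split_ifs <;> ring
      · simp [y]
    · rintro rfl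
      exact ⟨e3, e2, by simp [g_eq hg e3 hs e1]⟩
    · refine fun x a b c => if_neg fun d => c ?_
      have := en_uniq (e := ((x, v), _)) (d ▸ (hg (x, v) a).2) e1 b e2
      simp [← show (x, v) = e from congrArg Prod.fst this]
    · rintro rfl
      exact ⟨hs.1, hs.2, by simp [g_eq hg hs.1 hs .refl, sn]⟩
    · refine fun x a b c => if_neg fun d => c ?_
      simp [← d, g_eq hg (e := (v, x)) a ⟨a, b⟩ .refl]
  · rcases (by decide : ∀ π : ZMod 2, π = 0 ∨ π = 1) π with rfl | rfl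
    · exact Or.inl ⟨rfl, e, ⟨e1, e2⟩, rfl⟩
    · exact Or.inr ⟨rfl, fun a => hr ⟨e, ⟨e1, e2⟩, a⟩⟩

omit hg

omit [Fintype V] in
lemma occ2 {C : V → ℤ} {u w : V} {δ : ℤ}
    (hC : ∀ v, C v = (if u = v then 1 else 0) + if w = v then δ else 0)
    (hδ : δ = 1 ∨ (δ = -1 ∧ w ≠ u)) {j : V × V}
    (h : 2 * (C j.1 - if j.1 = j.2 then 0 else C j.2) = 0) :
    (In u j → δ = 1 ∧ (j = (u, w) ∨ j = (w, u)) ∧ u ≠ w) ∧ (In w j → In u j) := by
  obtain ⟨a, b⟩ := j
  simp only [hC, In, Prod.mk.injEq] at h ⊢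
  grind

lemma count1 {κ : V → ZMod 2} {U : Finset V} (H : Chs G E Y i o) (S : Finset (V × V))
    (X : Finset V) (hS : ∀ j ∈ S, (E j.1 j.2 ∧ Fc G κ j.1 j.2) ∨ (j.1 = j.2 ∧ j.1 ∈ U))
    (hX : ∀ j ∈ S, ∀ v, In v j → v ∈ X) :
    2 * #S + fct G κ X ≤ ∑ v ∈ X, (df G κ v + if v ∈ U then 2 else 0) := by
  set S' := S.filter fun j => j.1 ≠ j.2 with hS'
  have hF : ∀ j ∈ S', E j.1 j.2 ∧ Fc G κ j.1 j.2 := fun j hj =>
    (hS j (mem_filter.1 hj).1).resolve_right fun h => (mem_filter.1 hj).2 h.1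
  have h1 : S' ∪ S'.image Prod.swap ⊆
      univ.filter fun e : V × V => e.1 ∈ X ∧ (Fc G κ e.1 e.2 ∧ e.2 ∈ X) := by
    intro e he
    rcases mem_union.1 he with he | he
    · exact mem_filter.2 ⟨mem_univ _, hX e (mem_filter.1 he).1 _ (Or.inl rfl), (hF e he).2,
        hX e (mem_filter.1 he).1 _ (Or.inr rfl)⟩
    · obtain ⟨f, hf, rfl⟩ := mem_image.1 he
      have := (hF f hf).2
      exact mem_filter.2 ⟨mem_univ _, hX f (mem_filter.1 hf).1 _ (Or.inr rfl),
        ⟨this.1.symm, this.2.2.1, this.2.1, this.2.2.2.symm⟩,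
        hX f (mem_filter.1 hf).1 _ (Or.inl rfl)⟩
  have h2 : Disjoint S' (S'.image Prod.swap) := by
    refine disjoint_left.2 fun e he he' => ?_
    obtain ⟨f, hf, rfl⟩ := mem_image.1 he'
    exact (H.ori _ _ (hF f hf).2.1).1 (hF f hf).1 (hF _ he).1
  have h3 := card_le_card h1
  rw [card_union_of_disjoint h2, card_image_of_injective _ Prod.swap_injective,
    card_fib X fun v w => Fc G κ v w ∧ w ∈ X] at h3
  have h4 : ∑ v ∈ X, #(univ.filter fun w => Fc G κ v w ∧ w ∈ X) + fct G κ X =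
      ∑ v ∈ X, df G κ v := by
    rw [fct, ← sum_add_distrib]
    refine sum_congr rfl fun v _ => ?_
    rw [df, ← card_filter_add_card_filter_not (s := univ.filter fun w => Fc G κ v w) (· ∈ X),
      filter_filter, filter_filter]
  have h5 := card_filter_add_card_filter_not (s := S) fun j => j.1 ≠ j.2
  have h6 : #(S.filter fun j => ¬j.1 ≠ j.2) ≤ #(X.filter (· ∈ U)) :=
    card_le_card_of_injOn Prod.fst (fun j hj => by
      obtain ⟨a, b⟩ := mem_filter.1 (mem_coe.1 hj)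
      exact mem_coe.2 (mem_filter.2 ⟨hX j a _ (Or.inl rfl),
        ((hS j a).resolve_left fun c => b c.2.1.ne).2⟩)) fun j hj j' hj' e => Prod.ext e (by
      rw [← not_not.1 (mem_filter.1 (mem_coe.1 hj)).2, ← not_not.1 (mem_filter.1 (mem_coe.1 hj')).2,
        e])
  rw [sum_add_distrib, ← sum_filter, sum_const, smul_eq_mul]
  rw [← hS'] at h5
  omega

omit [Fintype V] in
lemma ind_le (v₀ : Option V) (X : Finset V) :
    ind v₀ X ≤ ∑ v ∈ X, if v₀ = some v then 1 else 0 := by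
  rw [ind]
  split_ifs with h
  · obtain ⟨v, h1, h2⟩ := h
    exact (if_pos h2).ge.trans (single_le_sum (f := fun v => if v₀ = some v then 1 else 0)
      (fun _ _ => Nat.zero_le _) h1)
  · exact Nat.zero_le _

lemma hall {κ : V → ZMod 2} {U : Finset V} {v₀ : Option V} {Tk : V → Finset V}
    (H : Chs G E Y i o) (hU : ∀ v ∈ U, Co G v) (T : Tok G κ Y i o U v₀ Tk) (M : V × V → V × V → ℤ)
    (hM : ∀ u, ∀ b ∈ Tk u, ∃ w, ∀ j, M j (u, b) = 0 →
      (In u j → Vd Y i o (u, b) w ∧ (j = (u, w) ∨ j = (w, u)) ∧ u ≠ w) ∧ (In w j → In u j))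
    (S : Finset (V × V)) (hS : ∀ j ∈ S, (E j.1 j.2 ∧ Fc G κ j.1 j.2) ∨ (j.1 = j.2 ∧ j.1 ∈ U)) :
    2 * #S ≤ #(univ.filter fun s => ∃ j ∈ S, M j s ≠ 0) + 1 := by
  let φ : V → ℕ := fun v =>
    #(univ.filter fun b => ∃ j ∈ S, M j (v, b) ≠ 0) + if v₀ = some v then 1 else 0
  have a0 : ∑ v, φ v ≤ #(univ.filter fun s => ∃ j ∈ S, M j s ≠ 0) + 1 := by
    rw [sum_add_distrib]
    refine add_le_add ?_ (by cases v₀ <;> simp)
    simp only [card_filter, Fintype.sum_prod_type, le_refl]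
  let iso : V × V → Prop := fun j => j.1 ≠ j.2 ∧ ∀ j' ∈ S, ∀ x, In x j → In x j' → j' = j
  set X := univ.filter fun v => ∃ j ∈ S, ¬iso j ∧ In v j with hX
  have mX : ∀ v, v ∈ X ↔ ∃ j ∈ S, ¬iso j ∧ In v j := fun v => by simp [hX]
  have c0 := card_filter_add_card_filter_not (s := S) iso
  have c1 := count1 H (S.filter fun j => ¬iso j) X (fun j hj => hS j (mem_filter.1 hj).1)
    fun j hj v h => (mX v).2 ⟨j, (mem_filter.1 hj).1, (mem_filter.1 hj).2, h⟩
  have c2 := T.h1 X fun v hv => by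
    obtain ⟨j, j1, -, j3⟩ := (mX v).1 hv
    rcases hS j j1 with a | a <;> rcases j3 with rfl | rfl
    exacts [a.2.2.1, a.2.2.2.1, hU _ a.2, a.1 ▸ hU _ a.2]
  have c3 : ∑ v ∈ X, #(Tk v) + ind v₀ X ≤ ∑ v ∈ X, φ v := by
    rw [sum_add_distrib]
    refine add_le_add (sum_le_sum fun u hu => card_le_card fun b hb =>
      mem_filter.2 ⟨mem_univ _, ?_⟩) (ind_le _ _)
    by_contra! h
    obtain ⟨j, j1, j2, j3⟩ := (mX u).1 hu
    obtain ⟨w, hw⟩ := hM u b hb
    obtain ⟨-, a, ne⟩ := (hw j (h j j1)).1 j3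
    have k : ∀ j ∈ S, j = (u, w) ∨ j = (w, u) → E j.1 j.2 ∧ G.Adj j.1 j.2 := fun j hj c =>
      ((hS j hj).resolve_right fun d => by
        rcases c with rfl | rfl
        exacts [ne d.1, ne d.1.symm]).imp_right (·.1)
    refine j2 ⟨(k j j1 a).2.ne, fun j' k1 x x1 x2 => ?_⟩
    have h8 : In u j' := by
      have : x = u ∨ x = w := by
        rcases a with rfl | rfl
        exacts [x1, x1.symm]
      rcases this with rfl | rfl
      exacts [x2, (hw j' (h j' k1)).2 x2]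
    have b := ((hw j' (h j' k1)).1 h8).2.1
    have a1 := k j j1 a
    have a2 := k j' k1 b
    rcases a with rfl | rfl <;> rcases b with rfl | rfl
    exacts [rfl, absurd a2.1 ((H.ori _ _ a1.2).1 a1.1), absurd a2.1 ((H.ori _ _ a1.2).1 a1.1), rfl]
  have c4 : ∀ j ∈ S.filter iso, 2 ≤ ∑ v ∈ {j.1, j.2}, φ v := fun j hj => by
    obtain ⟨j1, j2⟩ := mem_filter.1 hj
    have k : ∀ u w, u ≠ w → j = (u, w) ∨ j = (w, u) →
        #((Tk u).filter fun b => ¬Vd Y i o (u, b) w) ≤
          #(univ.filter fun b => ∃ j ∈ S, M j (u, b) ≠ 0) := fun u w ne c =>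
      card_le_card fun b hb => mem_filter.2 ⟨mem_univ _, j, j1, fun h => by
        obtain ⟨w', hw⟩ := hM u b (mem_filter.1 hb).1
        obtain ⟨a, d, -⟩ := (hw j h).1 (by rcases c with rfl | rfl <;> simp [In])
        obtain rfl : w' = w := by grind
        exact (mem_filter.1 hb).2 a⟩
    have := T.h2 _ _ ((hS j j1).resolve_right fun a => j2.1 a.1).2
    have h1 := ind_le v₀ {j.1, j.2}
    have h2 := k _ _ j2.1 (Or.inl rfl)
    have h3 := k _ _ j2.1.symm (Or.inr rfl)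
    rw [sum_add_distrib, sum_pair j2.1]
    omega
  have c5 := card_nsmul_le_sum _ _ _ c4
  rw [← sum_biUnion fun j hj j' hj' ne => disjoint_left.2 fun x x1 x2 =>
    ne ((mem_filter.1 (mem_coe.1 hj)).2.2 j' (mem_filter.1 (mem_coe.1 hj')).1 x
      (by simpa [In] using x1) (by simpa [In] using x2)).symm, smul_eq_mul] at c5
  have c6 := sum_le_sum_of_subset (f := φ)
    (subset_univ (X ∪ (S.filter iso).biUnion fun j => {j.1, j.2}))
  rw [sum_union (disjoint_left.2 fun x x1 x2 => by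
    obtain ⟨j, hj, x2⟩ := mem_biUnion.1 x2
    obtain ⟨j', k1, k2, k3⟩ := (mX x).1 x1
    exact k2 ((mem_filter.1 hj).2.2 j' k1 x (by simpa [In] using x2) k3 ▸ (mem_filter.1 hj).2))]
    at c6
  omega

end BlevA

open BlevA in
theorem blev2 : SBlev2 := by
  intro V _ G κ E Y i o U v₀ Tk Cs lev cs τ' H hU hC hT T
  choose g hg using st_ex H
  let be : (V × V → ℤ) → V × V → ℤ := fun x e =>
    if (g e).2 = 0 then (if Cs (g e).1 then lev (g e).1 else x (g e).1)
      else 1 - if Cs (g e).1 then lev (g e).1 else x (g e).1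
  let val : (V × V → ℤ) → V → ℤ := fun x v => cs v + 2 * ∑ w ∈ N G v, bb E (be x) v w
  have hval : ∀ x v, val x v =
      val 0 v + 2 * ∑ s, (if Cs s then 0 else BlevA.co G E g v s) * x s := fun x v => by
    have k : ∀ e, be x e = be 0 e +
        ∑ s, (if Cs s then 0 else if (g e).1 = s then sn (g e).2 else 0) * x s := fun e => by
      rw [sum_eq_single (g e).1 (fun s _ hs => by simp [hs.symm]) (by simp)]
      simp only [be, sn, Pi.zero_apply]
      split_ifs <;> ring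
    have : ∀ s, (if Cs s then 0 else BlevA.co G E g v s) * x s = ∑ w ∈ N G v, bb E
        (fun e => (if Cs s then 0 else if (g e).1 = s then sn (g e).2 else 0) * x s) v w :=
      fun s => by
        split_ifs
        · simp [bb]
        · simp only [BlevA.co, bb, sum_mul, ite_mul, zero_mul]
    simp only [val, this]
    rw [sum_comm, add_assoc, ← mul_add, ← sum_add_distrib]
    congr 2
    refine sum_congr rfl fun w _ => ?_
    simp only [bb]
    split_ifs
    exacts [k _, k _, by simp]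
  obtain ⟨x, h1, h2⟩ := avoid2 (fun j => (E j.1 j.2 ∧ Fc G κ j.1 j.2) ∨ (j.1 = j.2 ∧ j.1 ∈ U))
    (fun j s => 2 * ((if Cs s then 0 else BlevA.co G E g j.1 s) -
      if j.1 = j.2 then 0 else if Cs s then 0 else BlevA.co G E g j.2 s))
    (fun j => val 0 j.1 - if j.1 = j.2 then τ' j.1 else val 0 j.2) fun S hS => by
      convert hall H hU T _ (fun u b hb => ?_) S hS
      obtain ⟨t1, t2, t3, t4⟩ := hT u b hb
      obtain ⟨w, δ, k1, k2⟩ := co_spec hg H ⟨t1, t2⟩ t4
      refine ⟨w, fun j hj => ?_⟩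
      simp only [if_neg t3] at hj
      exact (occ2 k1 (k2.imp_left (·.1)) hj).imp_left fun a b => (a b).imp_left fun c =>
        (k2.resolve_right fun d => by omega).2
  have h3 : ∀ u w, E u w → Fc G κ u w → val x u ≠ val x w := fun u w a b e =>
    h2 (u, w) (Or.inl ⟨a, b⟩) (by
      rw [hval x u, hval x w] at e
      simp only [if_neg b.1.ne, mul_assoc, sub_mul, ← mul_sum, sum_sub_distrib]
      linarith)
  have h4 : ∀ e, E e.1 e.2 → (if Cs (g e).1 then lev (g e).1 else x (g e).1) = 0 ∨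
      (if Cs (g e).1 then lev (g e).1 else x (g e).1) = 1 := fun e _ => by
    split_ifs with a
    exacts [(hC _ a).2.2, h1 _]
  have as : ∀ u w, E u w → ¬E w u := fun u w a => (H.ori u w (H.adj u w a)).1 a
  refine ⟨bb E (be x), fun u w => ?_, fun u w => ?_, fun s hs => ?_, fun v hv => ?_,
    fun u w huw => ?_, fun v hv e => h2 (v, v) (Or.inr ⟨rfl, hv⟩) ?_⟩
  · rw [bb, bb]
    split_ifs with a b
    · exact absurd b (as _ _ a)
    all_goals rfl
  · have k : ∀ e, E e.1 e.2 → be x e = 0 ∨ be x e = 1 := fun e a => by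
      have := h4 e a
      simp only [be]
      generalize (if Cs (g e).1 then lev (g e).1 else x (g e).1) = t at this
      split_ifs <;> omega
    rw [bb]
    split_ifs with a b
    exacts [k _ a, k _ b, Or.inl rfl]
  · obtain ⟨a, b, -⟩ := hC s hs
    simp [bb, a, be, g_eq hg a ⟨a, b⟩ .refl, hs]
  · obtain ⟨a, b⟩ := H.arc v hv
    have := h4 (i v, v) a
    simp only [bb, if_neg (as _ _ a), if_pos a, if_pos b, be, g_nxt hg H hv]
    generalize (if Cs (g (i v, v)).1 then lev (g (i v, v)).1 else x (g (i v, v)).1) = t at this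
    rcases (by decide : ∀ π : ZMod 2, (π = 0 ∧ π + 1 ≠ 0) ∨ (π ≠ 0 ∧ π + 1 = 0)) (g (i v, v)).2
      with c | c
    · rw [if_pos c.1, if_neg c.2]
      omega
    · rw [if_neg c.1, if_pos c.2]
      omega
  · by_cases a : E u w
    · exact h3 u w a huw
    · exact (h3 w u (not_not.1 fun b => a ((H.ori u w huw.1).2 b))
        ⟨huw.1.symm, huw.2.2.1, huw.2.1, huw.2.2.2.symm⟩).symm
  · have := hval x v
    simp only [if_true, sub_zero, mul_assoc, ← mul_sum]
    simp only [val] at this ⊢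
    linarith

end

end Pool.Agent.MP_d1f1f3_co.H2
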