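import Pool.Agent.MP_d1f1f3_co.H2.Spec4

/-!
The root vertex is a donor of degree four that sees two vertices in debt.
-/

namespace Pool.Agent.MP_d1f1f3_co.H2

open Finset Relation H47
open scoped Classical

noncomputable section

namespace Br

variable {V : Type} [Fintype V] {s : Sg V} {κ : V → ZMod 2}

lemma hc_symm {G : SimpleGraph V} {u w : V} (h : Hc G κ u w) : Hc G κ w u :=
  ⟨h.1.symm, h.2.2.1, h.2.1, h.2.2.2.symm⟩

/-- Separated neighbours. -/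
def HN (s : Sg V) (κ : V → ZMod 2) (v : V) : Finset V := univ.filter fun w => Hc s.G κ v w

lemma mem_HN {v w : V} : w ∈ HN s κ v ↔ Hc s.G κ w v := by
  simp only [HN, mem_filter, mem_univ, true_and]
  exact ⟨hc_symm, hc_symm⟩

lemma card_HN (v : V) : #(HN s κ v) = dh s.G κ v := rfl

lemma mem_Cm {u v g : V} : g ∈ Cm s.G κ u v ↔ Hc s.G κ g u ∧ Hc s.G κ g v := by
  simp [Cm]

lemma trail (hE : SEnum) (Q₀ : Finset V) (C : V → V → Finset V) {a b : V} (ha : a ∈ Q₀)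
    (hb : b ∈ Q₀) (hab : a ≠ b) (hsub : Q₀ ⊆ s.Q κ) (hcard : #Q₀ + 1 = #(s.Q κ))
    (hρ : s.ρ ∉ s.Q κ) (hN : s.NBa κ)
    (hC : ∀ u ∈ Q₀, ∀ v ∈ Q₀, u ≠ v → #Q₀ ≤ #(C u v) + 1 ∧ C u v ⊆ Cm s.G κ u v ∧ s.ρ ∉ C u v)
    (h0 : Hc s.G κ s.ρ a) (hd : #Q₀ ≤ dh s.G κ a)
    (hb' : Odd (dg s.G b) ∨ #Q₀ ≤ #((HN s κ b).erase s.ρ)) : s.T2 κ ∨ s.T3 κ := by
  obtain ⟨x, u, x1, xm, hmem, hxi, hui, huC, u0, hS⟩ :=
    hE V Q₀ C a b s.ρ ha hb hab fun u hu v hv huv => (hC u hu v hv huv).1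
  have hpos : 0 < #Q₀ := card_pos.2 ⟨a, ha⟩
  have hin : ∀ i, 1 ≤ i → i < #Q₀ → x i ∈ Q₀ ∧ x (i + 1) ∈ Q₀ ∧ x i ≠ x (i + 1) := by
    intro i h1 h2
    refine ⟨hmem i h1 h2.le, hmem (i + 1) (by omega) h2, fun e => ?_⟩
    have := hxi i (i + 1) h1 h2.le (by omega) h2 e
    omega
  have hcm : ∀ i, 1 ≤ i → i < #Q₀ → u i ∈ Cm s.G κ (x i) (x (i + 1)) ∧ s.ρ ≠ u i := by
    intro i h1 h2
    obtain ⟨a1, a2, a3⟩ := hin i h1 h2
    obtain ⟨-, b2, b3⟩ := hC _ a1 _ a2 a3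
    exact ⟨b2 (huC i h1 h2), fun e => b3 (e ▸ huC i h1 h2)⟩
  have htr : ∀ u' : ℕ → V, (∀ i, i < #Q₀ → u' i = u i) → s.Trl κ #Q₀ x u' := by
    intro u' hu'
    refine ⟨fun i h1 h2 => hsub (hmem i h1 h2), hxi, fun i k h1 h2 h3 h4 e => ?_,
      fun i h1 h2 => ?_, fun i h1 h2 d4 k0 d1 => ?_⟩
    · rw [hu' i h2, hu' k h4] at e
      exact hui i k h1 h2 h3 h4 e
    · rw [hu' i h2]
      exact mem_Cm.1 (hcm i h1 h2).1
    · rw [hu' i h2] at d4 k0 d1
      obtain ⟨a1, a2, a3⟩ := hin i h1 h2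
      exact absurd ⟨d4, k0, d1⟩
        (hN _ (hsub a1) _ (hsub a2) a3 _ (hcm i h1 h2).1 (hcm i h1 h2).2.symm)
  rcases hb' with ho | hs
  · refine Or.inr ⟨#Q₀, x, u, hcard, htr u fun _ _ => rfl, ?_, fun i h1 h2 => ?_, ?_, ?_, ?_⟩
    · rw [u0, x1]; exact h0
    · rw [u0]; exact (hcm i h1 h2).2
    · rw [x1]; exact hd
    · rw [xm]; exact ho
    · rw [xm]; exact fun e => hρ (e ▸ hsub hb)
  · obtain ⟨g, hg, hg'⟩ := hS _ hs
    obtain ⟨g1, g2⟩ := mem_erase.1 hg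
    have hu' : ∀ i, i < #Q₀ → Function.update u #Q₀ g i = u i := fun i hi =>
      Function.update_of_ne hi.ne _ _
    refine Or.inl ⟨#Q₀, x, Function.update u #Q₀ g, hcard, htr _ hu',
      fun i h1 h2 e => hρ (e ▸ hsub (hmem i h1 h2)), ?_, ?_, fun i h1 h2 => ?_, ?_, ?_, ?_⟩
    · rw [hu' 0 hpos, u0, x1]; exact h0
    · rw [Function.update_self, xm]; exact mem_HN.1 g2
    · rw [hu' 0 hpos, u0, hu' i h2, Function.update_self]
      exact ⟨(hcm i h1 h2).2, hg' i h1 h2⟩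
    · rw [x1]; exact hd
    · rw [xm]; exact hs.trans card_erase_le
    · rw [hu' 0 hpos, u0, Function.update_self]
      exact fun e => absurd e.symm g1

end Br

open Br in
theorem br : SBr := by
  rintro ⟨⟨-, hB⟩, -, -, hE⟩ V _ s j κ hs hst h3 hM hρ hN ⟨⟨d4, k0, d1⟩, x, hx, x', hx', hxx, hc⟩
  have bas := hB V s j κ hs hst
  obtain ⟨c1, c2⟩ := mem_Cm.1 hc
  have hne : ∀ v ∈ s.Q κ, v ≠ s.ρ := fun v hv e => hρ (e ▸ hv)
  have hHρ : ∀ v, Hc s.G κ s.ρ v → v = x ∨ v = x' := by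
    intro v hv
    have h1 := bas.sum s.ρ c1.2.1
    rw [if_pos rfl] at h1
    have h2 : ({x, x'} : Finset V) = HN s κ s.ρ := by
      refine eq_of_subset_of_card_le (fun w hw => ?_) ?_
      · rcases mem_insert.1 hw with rfl | hw
        · exact mem_HN.2 (hc_symm c1)
        · rw [mem_singleton.1 hw]; exact mem_HN.2 (hc_symm c2)
      · rw [card_pair hxx, card_HN]; omega
    have h4 : v ∈ ({x, x'} : Finset V) := h2 ▸ mem_HN.2 (hc_symm hv)
    simpa using h4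
  have hcm : ∀ u ∈ s.Q κ, ∀ v ∈ s.Q κ, u ≠ v → s.ρ ∉ Cm s.G κ u v →
      #(s.Q κ) ≤ #(Cm s.G κ u v) + 2 := by
    intro u hu v hv huv h
    obtain ⟨p1, p2⟩ := bas.pf u hu v hv huv (hne u hu) (hne v hv)
    rcases hM _ p1 with h1 | ⟨-, h1⟩
    · rw [p2] at h1
      have a1 := card_insert_le u (insert v ((Cm s.G κ u v).filter fun g => s.t κ g = 1))
      have a2 := card_insert_le v ((Cm s.G κ u v).filter fun g => s.t κ g = 1)
      have a3 := card_filter_le (Cm s.G κ u v) fun g => s.t κ g = 1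
      omega
    · rw [p2] at h1
      rcases mem_insert.1 h1 with e | h1
      · exact absurd e.symm (hne u hu)
      · rcases mem_insert.1 h1 with e | h1
        · exact absurd e.symm (hne v hv)
        · exact absurd (mem_filter.1 h1).1 h
  have hcl : ∀ v ∈ s.Q κ, κ v = 1 := by
    have h1 : ∀ a : ZMod 2, 0 ≠ a → a = 1 := by decide
    have h2 : κ x = 1 := h1 _ (k0 ▸ c1.2.2.2)
    intro v hv
    by_cases e : x = v
    · exact e ▸ h2
    · exact (bas.clq x hx v hv e).2.2.2 ▸ h2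
  obtain ⟨y, hy, hyx⟩ : ∃ y ∈ s.Q κ, y ∉ ({x, x'} : Finset V) :=
    exists_mem_notMem_of_card_lt_card (lt_of_le_of_lt card_le_two h3)
  have hyx1 : y ≠ x := fun e => hyx (by simp [e])
  have hyx2 : y ≠ x' := fun e => hyx (by simp [e])
  have hρy : s.ρ ∉ HN s κ y := fun h => (hHρ y (mem_HN.1 h)).elim hyx1 hyx2
  have hsy : ∀ v, Cm s.G κ y v ⊆ HN s κ y := fun v g hg => mem_HN.2 (mem_Cm.1 hg).1
  have hdh : ∀ v ∈ s.Q κ, Hc s.G κ s.ρ v → v ≠ y → #(s.Q κ) ≤ dh s.G κ v + 1 := by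
    intro v hv h hvy
    have h1 : s.ρ ∉ Cm s.G κ y v := fun h => hρy (hsy v h)
    have h2 := hcm y hy v hv hvy.symm h1
    have h4 : insert s.ρ (Cm s.G κ y v) ⊆ HN s κ v := by
      intro g hg
      rcases mem_insert.1 hg with rfl | hg
      · exact mem_HN.2 h
      · exact mem_HN.2 (mem_Cm.1 hg).2
    have h5 := card_le_card h4
    rw [card_insert_of_notMem h1, card_HN] at h5
    omega
  refine ⟨κ, hst, h3, Or.inr ?_⟩
  by_cases hy1 : Odd (dg s.G y) ∨ #(s.Q κ) ≤ dh s.G κ y + 1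
  · have hcard := card_erase_add_one hx'
    refine trail hE ((s.Q κ).erase x') (Cm s.G κ) (mem_erase.2 ⟨hxx, hx⟩) (mem_erase.2 ⟨hyx2, hy⟩)
      hyx1.symm (erase_subset _ _) hcard hρ hN (fun u hu v hv huv => ?_) c1 ?_ ?_
    · obtain ⟨u1, u2⟩ := mem_erase.1 hu
      obtain ⟨v1, v2⟩ := mem_erase.1 hv
      have h1 : s.ρ ∉ Cm s.G κ u v := fun h => huv
        (((hHρ u (mem_Cm.1 h).1).resolve_right u1).trans
          ((hHρ v (mem_Cm.1 h).2).resolve_right v1).symm)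
      have := hcm u u2 v v2 huv h1
      exact ⟨by omega, subset_rfl, h1⟩
    · have := hdh x hx c1 hyx1.symm
      omega
    · refine hy1.imp id fun h => ?_
      rw [erase_eq_of_notMem hρy, card_HN]
      omega
  · rw [not_or, not_le] at hy1
    obtain ⟨hy1, hy2⟩ := hy1
    have hcard := card_erase_add_one hy
    have hD : ∀ v ∈ s.Q κ, v ≠ y → Cm s.G κ y v = HN s κ y := by
      intro v hv hvy
      have := hcm y hy v hv hvy.symm fun h => hρy (hsy v h)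
      exact eq_of_subset_of_card_le (hsy v) (by rw [card_HN]; omega)
    have hq : #(s.Q κ) = dh s.G κ y + 2 := by
      have := hcm y hy x hx hyx1 fun h => hρy (hsy x h)
      rw [hD x hx hyx1.symm, card_HN] at this
      omega
    refine trail hE ((s.Q κ).erase y) (fun _ _ => HN s κ y) (mem_erase.2 ⟨hyx1.symm, hx⟩)
      (mem_erase.2 ⟨hyx2.symm, hx'⟩) hxx (erase_subset _ _) hcard hρ hN
      (fun u hu v hv huv => ⟨by rw [card_HN]; omega, fun g hg => ?_, hρy⟩) c1 ?_ ?_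
    · obtain ⟨u1, u2⟩ := mem_erase.1 hu
      obtain ⟨v1, v2⟩ := mem_erase.1 hv
      exact mem_Cm.2 ⟨(mem_Cm.1 (hD u u2 u1 ▸ hg : g ∈ Cm s.G κ y u)).2,
        (mem_Cm.1 (hD v v2 v1 ▸ hg : g ∈ Cm s.G κ y v)).2⟩
    · have := hdh x hx c1 hyx1.symm
      omega
    · by_cases ho : Odd (dg s.G x')
      · exact Or.inl ho
      right
      have hdf : #((s.Q κ).erase y) ≤ df s.G κ y := card_le_card fun v hv =>
        mem_filter.2 ⟨mem_univ _, bas.clq y hy v (mem_erase.1 hv).2 (mem_erase.1 hv).1.symm⟩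
      have e1 : Even (dh s.G κ y) := by
        obtain ⟨k, h | h | h⟩ := bas.typ y hy (hne y hy)
        · exact absurd ⟨k, h.1⟩ hy1
        · obtain ⟨l, hl⟩ := ZMod.natCast_eq_one_iff_odd.1 (h.2.1.symm.trans (hcl y hy))
          exact ⟨l, by omega⟩
        · omega
      have e2 : Even (dh s.G κ x') := by
        obtain ⟨k, h | h | h⟩ := bas.typ x' hx' (hne x' hx')
        · exact absurd ⟨k, h.1⟩ ho
        · obtain ⟨l, hl⟩ := ZMod.natCast_eq_one_iff_odd.1 (h.2.1.symm.trans (hcl x' hx'))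
          exact ⟨l, by omega⟩
        · have h1 : (k : ZMod 2) = 0 := by
            have := h.2.1.symm.trans (hcl x' hx')
            simpa using this
          rw [h.2.2.2]
          exact ZMod.natCast_eq_zero_iff_even.1 h1
      have h1 := hdh x' hx' c2 hyx2.symm
      have h2 := card_erase_add_one (mem_HN.2 c2)
      rw [card_HN] at h2
      obtain ⟨l, hl⟩ := e1
      obtain ⟨l', hl'⟩ := e2
      omega

end

end Pool.Agent.MP_d1f1f3_co.H2
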