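import Pool.Agent.MP_d1f1f3_co.H2.Spec4

/-!
The minimum is attained without the root vertex.
-/

namespace Pool.Agent.MP_d1f1f3_co.H2

open Finset H47
open scoped Classical

namespace Ca

variable {V : Type} [Fintype V] {s : Sg V} {j : ZMod 2} {κ : V → ZMod 2} {D : Finset V}

theorem co {x : V} (h : x ∈ s.Q κ) : Co s.G x := (mem_filter.1 h).2.1

theorem mem_Cm {G : SimpleGraph V} {u v g : V} : g ∈ Cm G κ u v ↔ Hc G κ g u ∧ Hc G κ g v := by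
  simp [Cm]

theorem z01 : ∀ a b : ZMod 2, a ≠ b → b = 0 → a = 1 := by decide

theorem z1 : ∀ a : ZMod 2, a ≠ 1 → a = 0 := by decide

omit [Fintype V] in
theorem flp_in {A : Finset V} {v : V} (h : v ∈ A) : flp κ A v = κ v + 1 := if_pos h

omit [Fintype V] in
theorem flp_out {A : Finset V} {v : V} (h : v ∉ A) : flp κ A v = κ v := if_neg h

theorem n4 (B : s.Bas j κ) {x : V} (hx : x ∈ s.Q κ) (hρ : x ≠ s.ρ) (h4 : dg s.G x = 4)
    (h0 : κ x = 0) : dh s.G κ x = 1 ∧ df s.G κ x = 3 := by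
  obtain ⟨k, h | h | h⟩ := B.typ x hx hρ
  · omega
  · omega
  · obtain rfl : k = 2 := by omega
    exact absurd (h0.symm.trans h.2.1) (by decide)

theorem one (B : s.Bas j κ) {x : V} (hx : x ∈ s.Q κ) (hρ : x ≠ s.ρ) (h1 : dh s.G κ x = 1) :
    dg s.G x = 3 ∨ (dg s.G x = 4 ∧ κ x = 0) := by
  have h3 : 3 ≤ dg s.G x := co hx
  obtain ⟨k, h | h | h⟩ := B.typ x hx hρ
  · omega
  · obtain rfl : k = 2 := by omega
    exact .inr ⟨h.1, h.2.1⟩
  · omega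

theorem don (Z : s.Zs j κ D) {x g : V} (hx : x ∈ s.Q κ) (hg : g ∈ D) : Hc s.G κ g x := by
  obtain ⟨y, hy, hyx⟩ := exists_mem_ne (show 1 < #(s.Q κ) by have := Z.three; omega) x
  exact (mem_Cm.1 (Z.cm x hx y hy hyx.symm ▸ hg)).1

theorem le_dh (Z : s.Zs j κ D) {x : V} (hx : x ∈ s.Q κ) : #D ≤ dh s.G κ x :=
  card_le_card fun _ hg => have h := don Z hx hg
    mem_filter.2 ⟨mem_univ _, h.1.symm, h.2.2.1, h.2.1, h.2.2.2.symm⟩

theorem red (T : Tl3) (h1 : SBr) (h2 : SHs) (h3 : SZn) (ok : s.Ok) (st : s.St j κ)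
    (q : 3 ≤ #(s.Q κ)) (mn : s.Mn j #(s.Q κ)) (nr : s.ρ ∉ s.Q κ) (nb : s.NBa κ) :
    s.Trs j ∨ ∃ D, s.Zs j κ D ∧ ∀ x ∈ s.Q κ, dh s.G κ x = #D := by
  by_cases br : s.Br κ
  · exact .inl (h1 T V s j κ ok st q mn nr nb br)
  rcases h2 T V s j κ ok st q mn nr nb br with h | ⟨D, Z, ho⟩
  · exact .inl h
  by_cases hout : ∃ a ∈ s.Q κ, #D < dh s.G κ a
  swap
  · push Not at hout
    exact .inr ⟨D, Z, fun x hx => (hout x hx).antisymm (le_dh Z hx)⟩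
  obtain ⟨a, ha, hD⟩ := hout
  have e := card_erase_of_mem ha
  obtain ⟨u, hu, v, hv, huv⟩ := one_lt_card.1 (show 1 < #((s.Q κ).erase a) by omega)
  obtain ⟨u1, u2⟩ := mem_erase.1 hu
  obtain ⟨v1, v2⟩ := mem_erase.1 hv
  refine .inl (h3 T V s j κ D u v ok Z u2 v2 huv (ho a ha u u2 u1.symm hD).1
    (ho a ha v v2 v1.symm hD).1 (ho a ha u u2 u1.symm hD).2 fun g hg gu gv h4 h0 => ?_)
  have a1 := (n4 (T.1.2 V s j κ ok st) hg (ne_of_mem_of_not_mem hg nr) h4 h0).1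
  have a2 := le_dh Z hg
  have a3 := Z.card
  by_cases ga : g = a
  · subst ga
    omega
  have := two_lt_card.2 ⟨u, hu, v, hv, g, mem_erase.2 ⟨ga, hg⟩, huv, gu.symm, gv.symm⟩
  omega

omit [Fintype V] in
theorem third {Q : Finset V} (h : #Q = 3) {a u : V} (ha : a ∈ Q) (hu : u ∈ Q) (hau : a ≠ u) :
    ∃ v ∈ Q, a ≠ v ∧ u ≠ v ∧ ∀ g ∈ Q, g = a ∨ g = u ∨ g = v := by
  have h1 : u ∈ Q.erase a := mem_erase.2 ⟨hau.symm, hu⟩
  obtain ⟨v, hv⟩ := card_eq_one.1 (show #((Q.erase a).erase u) = 1 by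
    rw [card_erase_of_mem h1, card_erase_of_mem ha, h])
  have h2 : ∀ g, g ≠ u ∧ g ≠ a ∧ g ∈ Q ↔ g = v := fun g => by
    rw [← mem_erase, ← mem_erase, hv, mem_singleton]
  obtain ⟨b1, b2, b3⟩ := (h2 v).2 rfl
  refine ⟨v, b3, b2.symm, b1.symm, fun g hg => ?_⟩
  by_contra hn
  push Not at hn
  exact hn.2.2 ((h2 g).1 ⟨hn.2.1, hn.1, hg⟩)

theorem k4h (B : s.Bas j κ) (Z : s.Zs j κ D) (h : ∀ x ∈ s.Q κ, dg s.G x = 3) : K4h s.G := by
  obtain ⟨a, ha, b, hb, c, hc, ab, ac, bc⟩ := two_lt_card.1 Z.three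
  obtain ⟨d, hd⟩ := card_pos.1 (show 0 < #D by have := Z.three; have := Z.card; omega)
  exact ⟨a, b, c, d, (B.clq a ha b hb ab).1, (B.clq a ha c hc ac).1, (B.clq b hb c hc bc).1,
    (don Z ha hd).1.symm, (don Z hb hd).1.symm, (don Z hc hd).1.symm, h a ha, h b hb, h c hc⟩

/-- States with three vertices in debt, of class one. -/
def A1 (s : Sg V) (j : ZMod 2) (κ : V → ZMod 2) : Prop :=
  s.St j κ ∧ s.ρ ∉ s.Q κ ∧ #(s.Q κ) = 3 ∧ ∀ x ∈ s.Q κ, κ x = 1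

/-- The vertices of degree four and class zero. -/
noncomputable def psi (s : Sg V) (κ : V → ZMod 2) : Finset V :=
  univ.filter fun v => dg s.G v = 4 ∧ κ v = 0

theorem swap (T : Tl3) (ok : s.Ok) (mn : s.Mn j 3) (A : A1 s j κ)
    (hm : ∀ κ', A1 s j κ' → #(psi s κ) ≤ #(psi s κ')) {x y g : V} (hx : x ∈ s.Q κ)
    (hy : y ∈ s.Q κ) (xy : x ≠ y) (hg : g ∈ Cm s.G κ x y) (gρ : g ≠ s.ρ) (h : s.N41 κ g) :
    dg s.G x = 4 ∧ ∃ w ∈ s.Q κ, w ≠ x ∧ w ≠ y ∧ Hc s.G κ g w := by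
  obtain ⟨st, nr, -, c1⟩ := A
  obtain ⟨-, w, hw, wx, wy, gw, st', hQ⟩ := T.2.1 T.1 V s j κ 3 x y g ok st le_rfl mn hx hy xy
    (ne_of_mem_of_not_mem hx nr) (ne_of_mem_of_not_mem hy nr) hg gρ h
  refine ⟨by_contra fun h4 => ?_, w, hw, wx, wy, gw⟩
  have gy := (mem_Cm.1 hg).2.1.ne
  have e : flp κ {x, g} g = 1 := by rw [flp_in (by simp), h.2.1, zero_add]
  refine (hm _ ⟨st', ?_, ?_, ?_⟩).not_gt (card_lt_card ⟨fun v hv => ?_, fun hs => ?_⟩)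
  · simp only [hQ, mem_insert, mem_singleton, not_or]
    exact ⟨gρ.symm, (ne_of_mem_of_not_mem hy nr).symm, (ne_of_mem_of_not_mem hw nr).symm⟩
  · exact hQ ▸ card_eq_three.2 ⟨g, y, w, gy, gw.1.ne, wy.symm, rfl⟩
  · simp only [hQ, mem_insert, mem_singleton]
    rintro v (rfl | rfl | rfl)
    · exact e
    · rw [flp_out (by simp [xy.symm, gy.symm]), c1 v hy]
    · rw [flp_out (by simp [wx, gw.1.ne.symm]), c1 v hw]
  · obtain ⟨-, a1, a2⟩ := mem_filter.1 hv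
    refine mem_filter.2 ⟨mem_univ _, a1, ?_⟩
    by_cases vg : v = g
    · exact vg ▸ h.2.1
    · rwa [flp_out (by simp [vg, show v ≠ x from fun e => h4 (e ▸ a1)])] at a2
  · have := (mem_filter.1 (hs (mem_filter.2 ⟨mem_univ g, h.1, h.2.1⟩))).2.2
    exact one_ne_zero (e.symm.trans this)

theorem cls1 (T : Tl3) (h1 : SBr) (h2 : SHs) (h3 : SZn) (ok : s.Ok) (mn : s.Mn j 3)
    (hA : ∃ κ, A1 s j κ) : s.Fin3 j := by
  obtain ⟨κ, A, hm⟩ := exists_min_image (univ.filter (A1 s j)) (fun κ => #(psi s κ))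
    (let ⟨κ, h⟩ := hA; ⟨κ, mem_filter.2 ⟨mem_univ _, h⟩⟩)
  replace A := (mem_filter.1 A).2
  replace hm : ∀ κ', A1 s j κ' → #(psi s κ) ≤ #(psi s κ') := fun κ' h =>
    hm κ' (mem_filter.2 ⟨mem_univ _, h⟩)
  have B := T.1.2 V s j κ ok A.1
  by_cases nb : s.NBa κ
  · rcases red T h1 h2 h3 ok A.1 A.2.2.1.ge (A.2.2.1 ▸ mn) A.2.1 nb with h | ⟨D, Z, hD⟩
    · exact .inl h
    refine .inr (.inl (k4h B Z fun x hx => ?_))
    have a1 := Z.card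
    have a2 := A.2.2.1
    refine (one B hx (ne_of_mem_of_not_mem hx A.2.1) (by rw [hD x hx]; omega)).resolve_right
      fun h => one_ne_zero ((A.2.2.2 x hx).symm.trans h.2)
  simp only [Sg.NBa, not_forall, not_not] at nb
  obtain ⟨x, hx, y, hy, xy, g, hg, gρ, h⟩ := nb
  obtain ⟨gx, gy⟩ := mem_Cm.1 hg
  obtain ⟨a1, w, hw, wx, wy, gw⟩ := swap T ok mn A hm hx hy xy hg gρ h
  have a2 := (swap T ok mn A hm hy hx xy.symm (mem_Cm.2 ⟨gy, gx⟩) gρ h).1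
  have a3 := (swap T ok mn A hm hw hx wx (mem_Cm.2 ⟨gw, gx⟩) gρ h).1
  exact .inr (.inr (.inl ⟨x, y, w, g, (B.clq x hx y hy xy).1, (B.clq x hx w hw wx.symm).1,
    (B.clq y hy w hw wy.symm).1, gx.1.symm, gy.1.symm, gw.1.symm, a1, a2, a3, h.1.ge,
    h.1.le.trans (by norm_num)⟩))

theorem pf (B : s.Bas j κ) (Z : s.Zs j κ D) {u v : V} (hu : u ∈ s.Q κ) (hv : v ∈ s.Q κ)
    (uv : u ≠ v) : s.St j (flp κ {u, v}) ∧ s.Q (flp κ {u, v}) = insert u (insert v D) := by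
  have := B.pf u hu v hv uv (ne_of_mem_of_not_mem hu Z.nr) (ne_of_mem_of_not_mem hv Z.nr)
  rwa [Z.cm u hu v hv uv, filter_true_of_mem Z.one] at this

/-- An outside neighbour of the vertex that is kept has positive slack. -/
theorem slack (T : Tl3) (ok : s.Ok) (mn : s.Mn j 3) (hA : ∀ κ, ¬A1 s j κ) (Z : s.Zs j κ D)
    (hρ : s.ρ ∈ D) (c0 : ∀ x ∈ s.Q κ, κ x = 0) {g u v w : V} (hg : g ∈ s.Q κ) (hu : u ∈ s.Q κ)
    (hv : v ∈ s.Q κ) (gu : g ≠ u) (uv : u ≠ v) (gw : Fc s.G κ g w) (hw : w ∉ s.Q κ)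
    (h1 : df s.G (flp κ {u, v}) w = 1) (wu : ¬s.G.Adj w u) (wv : ¬s.G.Adj w v) :
    1 ≤ s.t κ w := by
  have B := T.1.2 V s j κ ok Z.st
  have cw := gw.2.2.1
  have w0 : κ w = 0 := gw.2.2.2.symm.trans (c0 g hg)
  have ρ1 := (don Z hg hρ).2.2.2
  have wρ : w ≠ s.ρ := fun e => ρ1 (e ▸ gw.2.2.2.symm)
  have t0 : 0 ≤ s.t κ w := not_lt.1 fun h => hw (mem_filter.2 ⟨mem_univ _, cw, h⟩)
  by_contra hn
  replace t0 : s.t κ w = 0 := by omega
  have wo : w ∉ ({u, v} : Finset V) := by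
    simp [(ne_of_mem_of_not_mem hu hw).symm, (ne_of_mem_of_not_mem hv hw).symm]
  have ρo : s.ρ ∉ ({u, v} : Finset V) := by
    simp [(ne_of_mem_of_not_mem hu Z.nr).symm, (ne_of_mem_of_not_mem hv Z.nr).symm]
  have t1 : s.t (flp κ {u, v}) w = 0 := by
    rw [(T.1.1 V s κ {u, v} ok (by simp [co hu, co hv])).1 w cw, if_neg wo, t0,
      filter_false_of_mem, filter_false_of_mem]
    · rfl
    all_goals
      simp only [mem_insert, mem_singleton]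
      rintro x (rfl | rfl) h
      exacts [wu h.1, wv h.1]
  have d3 : dg s.G w = 3 := by
    have a1 : 3 ≤ dg s.G w := cw
    rw [Sg.t, if_neg fun h => wρ h.1, h1, tau] at t1
    split_ifs at t1 with h
    · obtain ⟨-, ⟨k, hk⟩, a2⟩ := h
      rw [flp_out wo, w0, show dg s.G w / 2 = 2 by omega] at a2
      exact absurd a2 (by decide)
    · omega
  obtain ⟨st, q1, -⟩ := B.sw u hu w cw (ne_of_mem_of_not_mem hu Z.nr) wρ
    (.inl ⟨t0, fun h => wu h.symm⟩)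
  have B' := T.1.2 V s j _ ok st
  have w1 : flp κ {u, w} w = 1 := by rw [flp_in (by simp), w0, zero_add]
  have c1 : ∀ x ∈ s.Q (flp κ {u, w}), flp κ {u, w} x = 1 := fun x hx => by
    by_cases e : x = w
    · exact e ▸ w1
    · exact (B'.clq x hx w q1 e).2.2.2.trans w1
  by_cases q2 : s.ρ ∈ s.Q (flp κ {u, w})
  · obtain ⟨st', q3⟩ := pf B Z hu hv uv
    have := (T.1.2 V s j _ ok st').don s.ρ (by simp [q3, hρ]) w
      ⟨(B'.clq w q1 _ q2 wρ).1, cw, co q2, by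
        rw [flp_out wo, flp_out ρo, ← gw.2.2.2]
        exact ρ1.symm⟩
    omega
  refine hA _ ⟨st, q2, le_antisymm ?_ ((mn _ st).resolve_right fun h => q2 h.2), c1⟩
  have a1 : s.Q (flp κ {u, w}) ⊆ insert w ((N s.G w).erase g) := fun x hx => by
    by_cases e : x = w
    · exact e ▸ mem_insert_self _ _
    refine mem_insert_of_mem (mem_erase.2 ⟨?_, mem_filter.2 ⟨mem_univ _,
      (B'.clq x hx w q1 e).1.symm⟩⟩)
    rintro rfl
    have := c1 x hx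
    rw [flp_out (by simp [gu, e]), c0 x hg] at this
    exact zero_ne_one this
  refine (card_le_card a1).trans ((card_insert_le _ _).trans ?_)
  rw [card_erase_of_mem (show g ∈ N s.G w from mem_filter.2 ⟨mem_univ _, gw.1.symm⟩)]
  exact (show dg s.G w - 1 + 1 ≤ 3 by omega)

theorem cls0 (T : Tl3) (h1 : SBr) (h2 : SHs) (h3 : SZn) (ok : s.Ok) (mn : s.Mn j 3)
    (hA : ∀ κ, ¬A1 s j κ) (st : s.St j κ) (nr : s.ρ ∉ s.Q κ) (q : #(s.Q κ) = 3) : s.Fin3 j := by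
  have B := T.1.2 V s j κ ok st
  have c0 : ∀ x ∈ s.Q κ, κ x = 0 := fun x hx => z1 _ fun e => hA κ ⟨st, nr, q, fun y hy => by
    by_cases h : y = x
    · exact h ▸ e
    · exact (B.clq y hy x hx h).2.2.2.trans e⟩
  rcases red T h1 h2 h3 ok st q.ge (q ▸ mn) nr (fun x hx y _ _ g hg _ h =>
    (mem_Cm.1 hg).1.2.2.2 (h.2.1.trans (c0 x hx).symm)) with h | ⟨D, Z, hD⟩
  · exact .inl h
  have d1 : #D = 1 := by have := Z.card; omega
  have ty := fun x hx => one B hx (ne_of_mem_of_not_mem hx nr) ((hD x hx).trans d1)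
  by_cases a3 : ∀ x ∈ s.Q κ, dg s.G x = 3
  · exact .inr (.inl (k4h B Z a3))
  left
  push Not at a3
  obtain ⟨b, hb, b3⟩ := a3
  have b4 := ((ty b hb).resolve_left b3).1
  by_cases a4 : ∃ a ∈ s.Q κ, dg s.G a = 3
  · obtain ⟨a, ha, a3⟩ := a4
    obtain ⟨v, hv, -, bv, hQ⟩ := third q ha hb fun e => b3 (e ▸ a3)
    refine h3 T V s j κ D b v ok Z hb hv bv (hD b hb) (hD v hv) (b4 ▸ by decide)
      fun g hg gu gv h4 => ?_
    obtain rfl := ((hQ g hg).resolve_right (not_or.2 ⟨gu, gv⟩))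
    omega
  push Not at a4
  replace a4 : ∀ x ∈ s.Q κ, dg s.G x = 4 := fun x hx => ((ty x hx).resolve_left (a4 x hx)).1
  obtain ⟨a, ha, ab⟩ := exists_mem_ne (show 1 < #(s.Q κ) by omega) b
  obtain ⟨c, hc, ac, bc, hQ⟩ := third q ha hb ab
  have hρ : s.ρ ∈ D := by
    by_contra hn
    obtain ⟨d, rfl⟩ := card_eq_one.1 d1
    obtain ⟨st', q3⟩ := pf B Z ha hb ab
    have da := don Z ha (mem_singleton_self d)
    have db := don Z hb (mem_singleton_self d)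
    refine hA _ ⟨st', ?_, q3 ▸ card_eq_three.2 ⟨a, b, d, ab, da.1.ne', db.1.ne', rfl⟩, ?_⟩
    · simp only [q3, mem_insert, not_or]
      exact ⟨(ne_of_mem_of_not_mem ha nr).symm, (ne_of_mem_of_not_mem hb nr).symm, hn⟩
    · simp only [q3, mem_insert, mem_singleton]
      rintro v (rfl | rfl | rfl)
      · rw [flp_in (by simp), c0 v ha, zero_add]
      · rw [flp_in (by simp), c0 v hb, zero_add]
      · rw [flp_out (by simp [da.1.ne, db.1.ne])]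
        exact z01 _ _ da.2.2.2 (c0 a ha)
  have fc : ∀ x ∈ s.Q κ, ∀ y ∈ s.Q κ, ∀ w, Fc s.G κ x w → s.G.Adj w y → Fc s.G κ y w :=
    fun x hx y hy w h e => ⟨e.symm, co hy, h.2.2.1, ((c0 y hy).trans (c0 x hx).symm).trans h.2.2.2⟩
  have uq : ∀ x ∈ s.Q κ, ∀ w w', Fc s.G κ x w → w ∉ s.Q κ → Fc s.G κ x w' → w' ∉ s.Q κ →
      w = w' := fun x hx w w' f1 n1 f2 n2 => by
    by_contra e
    have e1 : insert w (insert w' ((s.Q κ).erase x)) ⊆ univ.filter fun y => Fc s.G κ x y := by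
      simp only [insert_subset_iff, mem_filter, mem_univ, true_and]
      exact ⟨f1, f2, fun y hy => mem_filter.2 ⟨mem_univ _,
        B.clq x hx y (mem_of_mem_erase hy) (ne_of_mem_erase hy).symm⟩⟩
    have e2 := card_le_card e1
    rw [card_insert_of_notMem (by simp [e, n1]), card_insert_of_notMem (by simp [n2]),
      card_erase_of_mem hx, q] at e2
    have e3 := (n4 B hx (ne_of_mem_of_not_mem hx nr) (a4 x hx) (c0 x hx)).2
    rw [df] at e3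
    omega
  have key : ∀ g ∈ s.Q κ, ∀ u ∈ s.Q κ, ∀ v ∈ s.Q κ, u ≠ v →
      (∀ x ∈ s.Q κ, x = g ∨ x = u ∨ x = v) →
      (∀ w, Fc s.G κ g w → w ∉ s.Q κ → (s.G.Adj w u ↔ s.G.Adj w v)) → s.Trs j := by
    intro g hg u hu v hv uv hQ h
    refine h3 T V s j κ D u v ok Z hu hv uv (hD u hu) (hD v hv) (a4 u hu ▸ by decide)
      fun x hx xu xv _ _ w f1 n1 e => ?_
    obtain rfl := ((hQ x hx).resolve_right (not_or.2 ⟨xu, xv⟩))
    by_cases wu : s.G.Adj w u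
    · exact .inr ⟨wu, (h w f1 n1).1 wu⟩
    have wv := mt (h w f1 n1).2 wu
    exact .inl ⟨slack T ok mn hA Z hρ c0 hx hu hv xu uv f1 n1 e wu wv, wu, wv⟩
  have far : ∀ x ∈ s.Q κ, ∀ y ∈ s.Q κ, ∀ z w, Fc s.G κ x w → s.G.Adj w y → w ∉ s.Q κ →
      ¬s.G.Adj w z → z ∈ s.Q κ → ∀ w', Fc s.G κ z w' → w' ∉ s.Q κ →
      (s.G.Adj w' x ↔ s.G.Adj w' y) := fun x hx y hy z w f1 e n1 n2 hz w' f2 n3 =>
    iff_of_false
      (fun h => n2 (uq x hx w w' f1 n1 (fc z hz x hx w' f2 h) n3 ▸ f2.1.symm))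
      fun h => n2 (uq y hy w w' (fc x hx y hy w f1 e) n1 (fc z hz y hy w' f2 h) n3 ▸ f2.1.symm)
  by_cases e1 : ∃ w, Fc s.G κ a w ∧ w ∉ s.Q κ ∧ s.G.Adj w b ∧ ¬s.G.Adj w c
  · obtain ⟨w, f1, n1, e, n2⟩ := e1
    exact key c hc a ha b hb ab (fun x hx => by have := hQ x hx; tauto)
      (far a ha b hb c w f1 e n1 n2 hc)
  by_cases e2 : ∃ w, Fc s.G κ a w ∧ w ∉ s.Q κ ∧ s.G.Adj w c ∧ ¬s.G.Adj w b
  · obtain ⟨w, f1, n1, e, n2⟩ := e2
    exact key b hb a ha c hc ac (fun x hx => by have := hQ x hx; tauto)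
      (far a ha c hc b w f1 e n1 n2 hb)
  push Not at e1 e2
  exact key a ha b hb c hc bc hQ fun w f1 n1 => ⟨e1 w f1 n1, e2 w f1 n1⟩

end Ca

open Ca in
theorem ca : SCa := by
  rintro T h1 h2 h3 h4 V _ s j m ok ⟨m3, mn, κ, st, nr, rfl⟩
  rcases m3.eq_or_lt with q | q
  · rw [← q] at mn
    by_cases hA : ∃ κ, A1 s j κ
    · exact cls1 T h1 h2 h3 ok mn hA
    · exact cls0 T h1 h2 h3 ok mn (not_exists.1 hA) st nr q.symm
  rcases red T h1 h2 h3 ok st m3 mn nr (fun x hx y hy xy g hg gρ h => q.ne' (T.2.1 T.1 V s j κ _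
    x y g ok st m3 mn hx hy xy (ne_of_mem_of_not_mem hx nr) (ne_of_mem_of_not_mem hy nr) hg gρ
    h).1) with h | ⟨D, Z, hD⟩
  · exact .inl h
  by_cases he : ∃ u ∈ s.Q κ, Even (dg s.G u)
  · obtain ⟨u, hu, he⟩ := he
    obtain ⟨v, hv, vu⟩ := exists_mem_ne (show 1 < #(s.Q κ) by omega) u
    refine .inl (h3 T V s j κ D u v ok Z hu hv vu.symm (hD u hu) (hD v hv) he
      fun g hg _ _ g4 g0 => ?_)
    have a1 := (n4 (T.1.2 V s j κ ok st) hg (ne_of_mem_of_not_mem hg nr) g4 g0).1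
    have a2 := hD g hg
    have a3 := Z.card
    omega
  · exact h4 T V s j κ D ok Z q fun x hx =>
      ⟨hD x hx, Nat.not_even_iff_odd.1 fun h => he ⟨x, hx, h⟩⟩

end Pool.Agent.MP_d1f1f3_co.H2
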