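import Pool.Agent.MP_d1f1f3_co.H2.Spec4

/-!
Row CB: the minimum is attained only with the root vertex.
-/

namespace Pool.Agent.MP_d1f1f3_co.H2

open Finset Relation H47
open scoped Classical

namespace Cb

variable {V : Type} [Fintype V] {s : Sg V} {j : ZMod 2} {m : ℕ} {κ : V → ZMod 2}

/-- The number of vertices of degree four and class zero. -/
noncomputable def psi (s : Sg V) (κ : V → ZMod 2) : ℕ :=
  #(univ.filter fun v => dg s.G v = 4 ∧ κ v = 0)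

theorem mem_Cm {u v g : V} : g ∈ Cm s.G κ u v ↔ Hc s.G κ g u ∧ Hc s.G κ g v := by
  simp [Cm]

theorem Hc_symm {u v : V} (h : Hc s.G κ u v) : Hc s.G κ v u :=
  ⟨h.1.symm, h.2.2.1, h.2.1, h.2.2.2.symm⟩

theorem Cm_sub (u v : V) : Cm s.G κ u v ⊆ univ.filter fun w => Hc s.G κ u w := fun _ hg =>
  mem_filter.2 ⟨mem_univ _, Hc_symm (mem_Cm.1 hg).1⟩

theorem big (hb : s.Bas j κ) (hC : s.CB j m) (hρ : s.ρ ∈ s.Q κ) {u v : V} (hu : u ∈ s.Q κ)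
    (hv : v ∈ s.Q κ) (huv : u ≠ v) (h1 : u ≠ s.ρ) (h2 : v ≠ s.ρ) :
    m ≤ #((Cm s.G κ u v).filter fun g => s.t κ g = 1) + 1 := by
  obtain ⟨h3, h4⟩ := hb.pf u hu v hv huv h1 h2
  have h5 := hC.2.2.1 _ h3 (by
    rw [h4]
    simp only [mem_insert, mem_filter, not_or]
    refine ⟨h1.symm, h2.symm, fun h => ?_⟩
    have := (mem_filter.1 hρ).2.2
    omega)
  rw [h4] at h5
  have h6 := card_insert_le u (insert v ((Cm s.G κ u v).filter fun g => s.t κ g = 1))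
  have h7 := card_insert_le v ((Cm s.G κ u v).filter fun g => s.t κ g = 1)
  omega

theorem four (T : Tl3) (hs : s.Ok) (hC : s.CB j m) (hκ : s.St j κ) (hρ : s.ρ ∈ s.Q κ)
    (hm : #(s.Q κ) = m)
    (hmin : ∀ κ', s.St j κ' ∧ s.ρ ∈ s.Q κ' ∧ #(s.Q κ') = m → psi s κ ≤ psi s κ') {x y g : V}
    (hx : x ∈ s.Q κ) (hy : y ∈ s.Q κ) (hxy : x ≠ y) (h1 : x ≠ s.ρ) (h2 : y ≠ s.ρ)
    (hg : g ∈ Cm s.G κ x y) (hN : s.N41 κ g) : m = 3 ∧ dg s.G x = 4 := by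
  have hb := T.1.2 V s j κ hs hκ
  have hgx := (mem_Cm.1 hg).1
  have hgρ : g ≠ s.ρ := fun h => hgx.2.2.2 (h ▸ (hb.clq _ hρ x hx h1.symm).2.2.2)
  obtain ⟨h3, w, hw, hwx, hwy, -, h4, h5⟩ :=
    T.2.1 T.1 V s j κ m x y g hs hκ hC.1 hC.2.1 hx hy hxy h1 h2 hg hgρ hN
  refine ⟨h3, ?_⟩
  have h6 : ({x, y, s.ρ} : Finset V) = s.Q κ := by
    refine eq_of_subset_of_card_le (fun v hv => ?_) ?_
    · simp only [mem_insert, mem_singleton] at hv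
      rcases hv with rfl | rfl | rfl <;> assumption
    · rw [hm, h3, card_eq_three.2 ⟨x, y, s.ρ, hxy, h1, h2, rfl⟩]
  have h7 : w = s.ρ := by
    rw [← h6] at hw
    simpa [hwx, hwy] using hw
  subst h7
  have h8 := hmin _ ⟨h4, by simp [h5], by
    rw [h5, h3]
    exact card_eq_three.2 ⟨g, y, s.ρ, (mem_Cm.1 hg).2.1.ne, hgρ, h2, rfl⟩⟩
  by_contra hne
  have h9 : flp κ {x, g} g ≠ 0 := by simp [flp, hN.2.1]
  refine absurd h8 (not_le.2 (card_lt_card ⟨fun v hv => ?_, fun h => ?_⟩))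
  · obtain ⟨-, h10, h11⟩ := mem_filter.1 hv
    have h12 : v ≠ x := fun h => hne (h ▸ h10)
    have h13 : v ≠ g := fun h => h9 (h ▸ h11)
    exact mem_filter.2 ⟨mem_univ _, h10, by simpa [flp, h12, h13] using h11⟩
  · exact h9 (mem_filter.1 (h (mem_filter.2 ⟨mem_univ _, hN.1, hN.2.1⟩))).2.2

theorem donor (T : Tl3) (hs : s.Ok) (hC : s.CB j m) (hκ : s.St j κ) (hρ : s.ρ ∈ s.Q κ)
    (hm : #(s.Q κ) = m)
    (hmin : ∀ κ', s.St j κ' ∧ s.ρ ∈ s.Q κ' ∧ #(s.Q κ') = m → psi s κ ≤ psi s κ')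
    (hK : ¬K4b s.G) {x y g : V} (hx : x ∈ s.Q κ) (hy : y ∈ s.Q κ) (hxy : x ≠ y) (h1 : x ≠ s.ρ)
    (h2 : y ≠ s.ρ) (hg : g ∈ Cm s.G κ x y) (S : Set V) : s.Nbi κ S g := by
  intro g1 g2 g3 w hw hw1
  refine (hK ?_).elim
  have hb := T.1.2 V s j κ hs hκ
  obtain ⟨hgx, hgy⟩ := mem_Cm.1 hg
  obtain ⟨h3, hx4⟩ := four T hs hC hκ hρ hm hmin hx hy hxy h1 h2 hg ⟨g1, g2, g3⟩
  obtain ⟨-, hy4⟩ := four T hs hC hκ hρ hm hmin hy hx hxy.symm h2 h1 (mem_Cm.2 ⟨hgy, hgx⟩)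
    ⟨g1, g2, g3⟩
  have h4 : dh s.G κ x = 2 := by
    obtain ⟨k, h | h | h⟩ := hb.typ x hx h1
    · omega
    · obtain rfl : k = 2 := by omega
      exact absurd (g2.trans (h.2.1.trans (by decide)).symm) hgx.2.2.2
    · omega
  have h5 := big hb hC hρ hx hy hxy h1 h2
  have h6 : (Cm s.G κ x y).filter (fun g => s.t κ g = 1) = univ.filter fun w => Hc s.G κ x w :=
    eq_of_subset_of_card_le ((filter_subset _ _).trans (Cm_sub x y)) (by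
      have : #(univ.filter fun w => Hc s.G κ x w) = 2 := h4
      omega)
  have h7 : g ∈ (Cm s.G κ x y).filter fun g => s.t κ g = 1 := h6 ▸ Cm_sub x y hg
  obtain ⟨w', hw', hne⟩ := exists_mem_ne
    (s := (Cm s.G κ x y).filter fun g => s.t κ g = 1) (by omega) g
  obtain ⟨h8, h9⟩ := hb.pf x hx y hy hxy h1 h2
  obtain ⟨h10, h11⟩ := mem_filter.1 hw'
  obtain ⟨hwx, hwy⟩ := mem_Cm.1 h10
  have h12 := (T.1.2 V s j _ hs h8).clq g (by rw [h9]; exact mem_insert_of_mem (mem_insert_of_mem h7))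
    w' (by rw [h9]; exact mem_insert_of_mem (mem_insert_of_mem hw')) hne.symm
  have h13 : Fc s.G κ g w' := ⟨h12.1, h12.2.1, h12.2.2.1, by
    simpa [flp, hgx.1.ne, hgy.1.ne, hwx.1.ne, hwy.1.ne] using h12.2.2.2⟩
  obtain rfl : w = w' := card_le_one.1 (le_of_eq g3) _ (mem_filter.2 ⟨mem_univ _, hw⟩) _
    (mem_filter.2 ⟨mem_univ _, h13⟩)
  have h14 : ¬s.Ur κ w := fun h => by
    have := (mem_filter.1 hρ).2.2
    rw [← h.1] at this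
    omega
  refine ⟨x, y, g, w, (hb.clq x hx y hy hxy).1, hgx.1.symm, hgy.1.symm, hwx.1.symm, hwy.1.symm,
    hw.1, hx4, hy4, g1, ?_⟩
  rw [Sg.t, if_neg h14, hw1, tau] at h11
  split_ifs at h11 with h
  · obtain ⟨k, hk⟩ := h.2.1
    omega
  · omega

end Cb

theorem cb : SCb := by
  intro T V _ s j m hs hC
  by_cases hK : K4b s.G
  · exact Or.inr (Or.inr (Or.inl hK))
  obtain ⟨κ, ⟨hκ, hρ, hm⟩, hmin⟩ := Set.exists_min_image
    {κ | s.St j κ ∧ s.ρ ∈ s.Q κ ∧ #(s.Q κ) = m} (Cb.psi s) (Set.toFinite _) hC.2.2.2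
  have hb := T.1.2 V s j κ hs hκ
  have h3 := hC.1
  have hQ : #((s.Q κ).erase s.ρ) + 1 = m := by rw [card_erase_add_one hρ, hm]
  have hB : ∀ u ∈ (s.Q κ).erase s.ρ, ∀ v ∈ (s.Q κ).erase s.ρ, u ≠ v →
      #((s.Q κ).erase s.ρ) ≤ #(Cm s.G κ u v) := fun u hu v hv huv => by
    have h1 := Cb.big hb hC hρ (mem_of_mem_erase hu) (mem_of_mem_erase hv) huv (ne_of_mem_erase hu)
      (ne_of_mem_erase hv)
    have h2 := card_filter_le (Cm s.G κ u v) fun g => s.t κ g = 1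
    omega
  have hD : ∀ u ∈ (s.Q κ).erase s.ρ, ∀ v ∈ (s.Q κ).erase s.ρ, u ≠ v → ∀ g ∈ Cm s.G κ u v, ∀ S,
      s.Nbi κ S g := fun u hu v hv huv g hg S =>
    Cb.donor T hs hC hκ hρ hm hmin hK (mem_of_mem_erase hu) (mem_of_mem_erase hv) huv
      (ne_of_mem_erase hu) (ne_of_mem_erase hv) hg S
  obtain ⟨a, ha, b, hb', hab⟩ := one_lt_card.1 (show 1 < #((s.Q κ).erase s.ρ) by omega)
  obtain ⟨x, u, x1, xM, xm, xi, ui, uc, -, hS⟩ := T.2.2.2 V _ (Cm s.G κ) a b a ha hb' hab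
    fun u hu v hv huv => (hB u hu v hv huv).trans (Nat.le_succ _)
  obtain ⟨g, hg, hgu⟩ := hS _ (hB a ha b hb' hab)
  generalize hM : #((s.Q κ).erase s.ρ) = M at *
  let u' : ℕ → V := fun i => if 1 ≤ i ∧ i < M then u i else g
  have e1 : ∀ i, 1 ≤ i → i < M → u' i = u i := fun i h1 h2 => if_pos ⟨h1, h2⟩
  have e0 : u' 0 = g := if_neg (by omega)
  have eM : u' M = g := if_neg (by omega)
  refine Or.inl ⟨κ, hκ, by omega, Or.inr (Or.inl ⟨M, x, u', by omega,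
    ⟨fun i h1 h2 => mem_of_mem_erase (xm i h1 h2), xi, fun i k h1 h2 h3 h4 h => ?_,
      fun i h1 h2 => ?_, fun i h1 h2 => ?_⟩, fun i h1 h2 => ne_of_mem_erase (xm i h1 h2),
    ?_, ?_, fun i h1 h2 => ?_, ?_, ?_, fun _ => ?_⟩)⟩
  · rw [e1 i h1 h2, e1 k h3 h4] at h
    exact ui i k h1 h2 h3 h4 h
  · rw [e1 i h1 h2]
    exact Cb.mem_Cm.1 (uc i h1 h2)
  · rw [e1 i h1 h2]
    refine hD _ (xm i h1 h2.le) _ (xm (i + 1) (by omega) h2) (fun h => ?_) _ (uc i h1 h2) _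
    have := xi i (i + 1) h1 h2.le (by omega) h2 h
    omega
  · rw [e0, x1]
    exact (Cb.mem_Cm.1 hg).1
  · rw [eM, xM]
    exact (Cb.mem_Cm.1 hg).2
  · rw [e0, eM, e1 i h1 h2]
    exact ⟨hgu i h1 h2, hgu i h1 h2⟩
  · rw [x1]
    exact (hB a ha b hb' hab).trans (card_le_card (Cb.Cm_sub a b))
  · rw [xM]
    exact (hB b hb' a ha hab.symm).trans (card_le_card (Cb.Cm_sub b a))
  · rw [e0]
    exact hD a ha b hb' hab g hg _

end Pool.Agent.MP_d1f1f3_co.H2
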