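import Pool.Agent.MP_d1f1f3_co.H2.Cj1

/-!
From certificates to designs.
-/

namespace Pool.Agent.MP_d1f1f3_co.H2

open Finset Relation H47
open scoped Classical

noncomputable section

namespace Cj

variable {V : Type} [Fintype V] {s : Sg V} {κ : V → ZMod 2} {D : V → V → Prop} {e : Sg.Cd V}
  {u v w : V}

theorem co_root (hs : s.Ok) (h : s.Re) : Co s.G s.ρ := by
  rcases hs.root with a | a
  · exact a.2
  · exact absurd (a.1.trans a.2.1.symm) h.ne

theorem fx0 (v : V) : (s.cx κ D).fx (des s κ D e) v = 0 := by simp [Cx.fx, des]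

theorem ig_of (hD : s.Ob D) (h : s.Cj κ D e) (hy : (s.cx κ D).Yc v)
    (hg : (s.cx κ D).Gn (des s κ D e) v) : (s.ig κ D e v).Nonempty := by
  by_cases a : (s.cx κ D).Neg v
  · exact (rule a hy hg.1 hg.2.1).1
  rcases pin_t h v with b | b
  swap
  · exact (b.2.2 a hy).1
  have c := ri_split hD h v
  have d := fo_fi (κ := κ) hD v
  rw [← card_pos]
  rcases hy with hy | hy
  · obtain ⟨k, k1, k2, k3, k4, k5⟩ := w_deg hD hy
    have f : ¬tau s.G κ v < df s.G κ v := fun x => a ⟨hy.1, x⟩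
    omega
  · obtain ⟨k, k1, k2, k3, k4, k5⟩ := t_deg hD hy
    have f : ¬tau s.G κ v < df s.G κ v := fun x => a ⟨hy.1, x⟩
    by_cases g : 2 ≤ df s.G κ v
    · have := card_pos.mpr ((h.loc v hy.1).n1 g)
      omega
    by_cases g' : dg s.G v = 3 ∧ df s.G κ v = 1
    · have := card_eq_zero.mpr ((h.loc v hy.1).n3b hy g'.1 g'.2)
      omega
    omega

theorem pij (hD : s.Ob D) (h : s.Cj κ D e) (hv : v ∈ s.Pi κ D e) (hp : s.pin e v = 1) :
    s.ig κ D e v = ∅ := by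
  obtain ⟨a, b, -, c⟩ := mem_Pi.mp hv
  refine c.elim id fun c => by_contra fun k => ?_
  have d := card_pos.mpr (nonempty_iff_ne_empty.mpr k)
  have f := ri_split hD h v
  have g := fo_fi (κ := κ) hD v
  have n := neg_df h a
  have c1 := c.1
  rcases b with b | b
  · obtain ⟨k, k1, k2, k3, k4, k5⟩ := w_deg hD b
    omega
  · obtain ⟨k, k1, k2, k3, k4, k5⟩ := t_deg hD b
    omega

theorem pw (hD : s.Ob D) (h : s.Cj κ D e) (hw : (s.cx κ D).Wc v) (hg : (s.cx κ D).Gn (des s κ D e) v) :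
    #((s.cx κ D).Ri v \ (s.cx κ D).Ig (des s κ D e) v) + #(Out D v \ (s.cx κ D).Og (des s κ D e) v) <
      dg s.G v / 2 := by
  have a := card_sdiff_add_card_eq_card (show (s.cx κ D).Ig (des s κ D e) v ⊆ (s.cx κ D).Ri v from
    filter_subset _ _)
  have b := card_sdiff_add_card_eq_card (show (s.cx κ D).Og (des s κ D e) v ⊆ Out D v from
    filter_subset _ _)
  have c := out_split h v
  have d := card_pos.mpr (ig_of hD h (Or.inl hw) hg)
  have f := ri_split hD h v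
  have g := fo_fi (κ := κ) hD v
  have i := congrArg card (ig_eq (κ := κ) (e := e) hD v)
  have p1 := pout_t h v
  have p2 : s.pin e v = 0 ∨ s.t κ v ≤ 0 := (pin_t h v).imp_right fun x => x.2.1
  have t1 := t_le (s := s) (κ := κ) v
  obtain ⟨k, k1, k2, k3, k4, k5⟩ := w_deg hD hw
  omega

theorem og_ne (hD : s.Ob D) (h : s.Cj κ D e) (hw : (s.cx κ D).To v) :
    ((s.cx κ D).Og (des s κ D e) v).Nonempty := by
  have c := out_split h v
  have p := h.po v
  obtain ⟨k, k1, k2, k3, k4, k5⟩ := t_deg hD hw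
  exact card_pos.mp (by omega)

theorem pt (hD : s.Ob D) (h : s.Cj κ D e) (hw : (s.cx κ D).To v) :
    2 ≤ #((s.cx κ D).Og (des s κ D e) v) ∨ (s.cx κ D).Ri v ⊆ (s.cx κ D).Ig (des s κ D e) v := by
  have c := out_split h v
  have f := ri_split hD h v
  have g := fo_fi (κ := κ) hD v
  have i := congrArg card (ig_eq (κ := κ) (e := e) hD v)
  have p1 := pout_t h v
  have p2 : s.pin e v = 0 ∨ s.t κ v ≤ 0 := (pin_t h v).imp_right fun x => x.2.1
  have t1 := t_le (s := s) (κ := κ) v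
  obtain ⟨k, k1, k2, k3, k4, k5⟩ := t_deg hD hw
  by_cases a : 2 ≤ #((s.cx κ D).Og (des s κ D e) v)
  · exact Or.inl a
  · exact Or.inr (eq_of_subset_of_card_le (show (s.cx κ D).Ig (des s κ D e) v ⊆ (s.cx κ D).Ri v from
      filter_subset _ _) (by omega)).ge

theorem ec_of (hD : s.Ob D) (k : (s.cx κ D).Ecf (des s κ D e) u w) : s.Ec κ u w := by
  obtain ⟨a1, a2, a3, a4, a5, B, b1, b2, b3⟩ := k
  have c : ∀ y ∈ B, κ y = 1 := fun y hy => class_W (b2 y hy).1.1.2 (b2 y hy).1.2.1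
  have n : ∀ y ∈ B, ∀ y' ∈ B, ¬D y y' := fun y hy y' hy' k => by
    have : y' ∈ (s.cx κ D).Fo y := mem_Fo.mpr ⟨k, hD.adj _ _ k, (b2 y hy).1.1.1, (b2 y' hy').1.1.1,
      (c y hy).trans (c y' hy').symm⟩
    rw [(b2 y hy).1.2.2.2] at this
    exact notMem_empty _ this
  exact ⟨a1, a2, a3, a4, a5, B, b1, fun y hy => ⟨(b2 y hy).1.2.1, c y hy, (b2 y hy).1.2.2.1,
    (b2 y hy).2.1, (b2 y hy).2.2, fun y' hy' k => n y hy y' hy' ((hD.ori _ _ k).mpr (n y' hy' y hy))⟩, b3⟩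

theorem ec_symm (k : s.Ec κ u w) : s.Ec κ w u := by
  obtain ⟨a1, a2, a3, a4, a5, B, b1, b2, b3⟩ := k
  exact ⟨a2, a1, a4, a3, a5.symm, B, b1, fun y hy => ⟨(b2 y hy).1, (b2 y hy).2.1, (b2 y hy).2.2.1,
    (b2 y hy).2.2.2.2.1, (b2 y hy).2.2.2.1, (b2 y hy).2.2.2.2.2⟩, by rwa [Finset.insert_comm]⟩

theorem k2 (h : s.Cj κ D e) (hw : w ∈ (s.cx κ D).Fo u) (h1 : df s.G κ u = 1) (h2 : df s.G κ w = 1)
    (hy : ¬(s.cx κ D).Yc u) :
    (1 ≤ (s.cx κ D).y1 (des s κ D e) u ∧ s.t κ u + 1 ≤ (s.cx κ D).y1 (des s κ D e) u) ∨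
    (1 ≤ (s.cx κ D).y1 (des s κ D e) w ∧ s.t κ w + 1 ≤ (s.cx κ D).y1 (des s κ D e) w) ∨
    ((¬True ∨ κ u = 1) ∧ 1 ≤ (s.cx κ D).y1 (des s κ D e) u + (s.cx κ D).y1 (des s κ D e) w + ind e.v₀ {w}) ∨
    (True ∧ κ u = 0 ∧ (3 ≤ s.t κ u ∨ (1 ≤ s.t κ u ∧ s.pout e u = 0 ∧ (0 : ℕ) = 0) ∨
      (1 ≤ s.t κ w ∧ s.t κ w ≤ (s.cx κ D).y1 (des s κ D e) w) ∨ (w ∈ (des s κ D e).Sf ∧ 2 ≤ s.t κ w))) := by
  obtain ⟨k, k1, k2, k3, k4⟩ := even_N h hw h1 (by omega) hy
  have cw : Co s.G w := (mem_Fo.mp hw).2.2.2.1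
  have a1 := y1_eq (s := s) (κ := κ) (D := D) (e := e) u
  have a2 := y1_eq (s := s) (κ := κ) (D := D) (e := e) w
  have b1 := pout_t h u
  have b2 := pout_t h w
  have c1 := tau_pos (κ := κ) cw
  have c2 := t_le (s := s) (κ := κ) w
  have c3 := t_low h.th cw
  rcases k4 with ⟨k4, k5⟩ | ⟨k4, k5⟩
  swap
  · exact Or.inr (Or.inr (Or.inl ⟨Or.inr k4, by omega⟩))
  by_cases U : s.Ur κ u
  · have := t_U U
    exact Or.inl (by omega)
  have d := t_N U
  by_cases k6 : 4 ≤ k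
  · exact Or.inr (Or.inr (Or.inr ⟨trivial, k4, Or.inl (by omega)⟩))
  rcases b1 with b1 | b1
  · exact Or.inr (Or.inr (Or.inr ⟨trivial, k4, Or.inr (Or.inl ⟨by omega, b1, rfl⟩)⟩))
  rcases h.nb u w hw h1 h2 (by omega) k4 b1.1 with f | f | f
  · exact Or.inr (Or.inr (Or.inr ⟨trivial, k4, Or.inr (Or.inr (Or.inl (by omega)))⟩))
  · rcases b2 with b2 | b2
    · exact Or.inr (Or.inr (Or.inr ⟨trivial, k4, Or.inr (Or.inr (Or.inl (by omega)))⟩))
    · exact Or.inr (Or.inr (Or.inr ⟨trivial, k4, Or.inr (Or.inr (Or.inr ⟨mem_Sf.mpr (Or.inr b2.1), f⟩))⟩))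
  · have := t_U f
    exact Or.inr (Or.inl (by omega))

theorem k3 (hD : s.Ob D) (h : s.Cj κ D e) (hw : w ∈ (s.cx κ D).Fo u) (h1 : df s.G κ u = 1)
    (hp : w ∈ s.Pi κ D e) (h3 : s.pin e w = 1) (h2 : df s.G κ w = 2)
    (hy : ¬(s.cx κ D).Yc u ∨ (s.cx κ D).Ub (des s κ D e) u) :
    1 ≤ (s.cx κ D).y1 (des s κ D e) u - (s.cx κ D).Rb (des s κ D e) u := by
  rcases hy with hy | hy
  swap
  · have a := neg_df h (ub_neg hy).1
    have b := tau_pos (κ := κ) (ub_neg hy).1.1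
    have c : tau (s.cx κ D).G κ u = tau s.G κ u := rfl
    omega
  obtain ⟨k, k1, k2, k3, k4⟩ := even_N h hw h1 (by omega) hy
  obtain ⟨a, b, -⟩ := mem_Pi.mp hp
  have n := neg_df h a
  obtain ⟨f1, f2⟩ := mem_Fo.mp hw
  have c : κ u = 1 := by
    rcases b with b | b
    · obtain ⟨m, m1, m2, m3, m4, m5⟩ := w_deg hD b
      exact f2.2.2.2.trans (class_W b.2 (show dg s.G w = 4 by omega))
    · obtain ⟨m, m1, m2, m3, m4, m5⟩ := t_deg hD b
      have f := ri_split hD h w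
      have g : 0 < #((s.cx κ D).Fi w) := card_pos.mpr ⟨u, mem_Fi.mpr ⟨f1, fc_symm f2⟩⟩
      omega
  have d : k % 2 = 1 := by
    rcases k4 with k4 | k4
    · exact absurd (k4.1.symm.trans c) (by decide)
    · exact k4.2
  have p := h.po u
  rw [rb_one c, y1_eq]
  omega

theorem term_eq (v : V) : (s.cx κ D).y1 (des s κ D e) v - (if v ∈ (des s κ D e).U then 2 else 0) =
    s.t κ v + s.pin e v - s.pout e v := by
  rw [y1_eq]
  by_cases a : s.Ur κ v
  · rw [if_pos (mem_U.mpr a), t_U a]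
    ring
  · rw [if_neg (mt mem_U.mp a), t_N a]
    ring

omit [Fintype V] in
theorem sum_ind (o : Option V) (X : Finset V) :
    ∑ v ∈ X, (if o = some v then (1 : ℤ) else 0) = ind o X := by
  unfold ind
  split_ifs with a
  · obtain ⟨v, hv, rfl⟩ := a
    simp [hv]
  · rw [Nat.cast_zero]
    exact sum_eq_zero fun v hv => if_neg fun k => a ⟨v, hv, k⟩

theorem hl (h : s.Cj κ D e) (X : Finset V) (hX : ∀ v ∈ X, Co s.G v) (n : V → ℕ)
    (hn : s.Pi κ D e = ∅ → ∀ v w, Fc s.G κ v w → w ∉ X → 0 < n v) :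
    0 ≤ ∑ v ∈ X, ((s.cx κ D).y1 (des s κ D e) v - (if v ∈ (des s κ D e).U then 2 else 0) -
      (s.cx κ D).Rb (des s κ D e) v + n v) + ind e.v₀ X := by
  simp only [term_eq]
  set f : V → ℤ := fun v => s.t κ v + s.pin e v - s.pout e v - (s.cx κ D).Rb (des s κ D e) v + n v
    with hf
  have a : ∀ v ∈ X, 0 ≤ s.t κ v + s.pin e v - s.pout e v - (s.cx κ D).Rb (des s κ D e) v +
      (if e.v₀ = some v then (1 : ℤ) else 0) + if e.big = some v then (1 : ℤ) else 0 := fun v hv => by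
    obtain ⟨b1, b2⟩ := slack h (hX v hv)
    split_ifs with c1 c2 c2
    · omega
    · omega
    · omega
    · have := b2 c1 c2
      omega
  have key : ind e.big X ≤ ∑ v ∈ X, (f v + (if e.v₀ = some v then (1 : ℤ) else 0) +
      if e.big = some v then (1 : ℤ) else 0) := by
    have nn : ∀ v ∈ X, 0 ≤ f v + (if e.v₀ = some v then (1 : ℤ) else 0) +
        if e.big = some v then (1 : ℤ) else 0 := fun v hv => by
      have := a v hv
      simp only [hf]
      omega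
    unfold ind
    split_ifs with c
    swap
    · simpa using sum_nonneg nn
    obtain ⟨b, hb, e1⟩ := c
    obtain ⟨-, -, -, -, -, g1, -, g2⟩ := h.bg b e1
    obtain ⟨v, hv, k⟩ : ∃ v ∈ X, 1 ≤ f v + (if e.v₀ = some v then (1 : ℤ) else 0) +
        if e.big = some v then (1 : ℤ) else 0 := by
      by_cases cl : ∀ v ∈ X, ∀ w, Fc s.G κ v w → w ∈ X
      · obtain ⟨v, hv, k⟩ := g2 X hb cl
        refine ⟨v, hv, ?_⟩
        have i1 : 0 ≤ (if e.v₀ = some v then (1 : ℤ) else 0) := by split_ifs <;> omega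
        have i2 : 0 ≤ (if e.big = some v then (1 : ℤ) else 0) := by split_ifs <;> omega
        have p1 := pout_t h v
        have p2 : s.pin e v = 0 ∨ s.t κ v ≤ 0 := (pin_t h v).imp_right fun x => x.2.1
        simp only [hf]
        rcases rb_le (s := s) (κ := κ) (D := D) (e := e) v with r | ⟨r1, r2, r3⟩
        · rcases k with k | k
          · have := h.sx v k
            omega
          · omega
        · rcases k with k | k
          · have := h.sx v k
            have := r3 (Or.inl k)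
            omega
          · omega
      · push Not at cl
        obtain ⟨v, hv, w, w1, w2⟩ := cl
        refine ⟨v, hv, ?_⟩
        have := a v hv
        have p := hn g1 v w w1 w2
        simp only [hf]
        omega
    exact (Nat.cast_one.le.trans k).trans (single_le_sum nn hv)
  rw [sum_add_distrib, sum_add_distrib, sum_ind, sum_ind] at key
  linarith

theorem ok (hs : s.Ok) (hD : s.Ob D) (h : s.Cj κ D e) : (s.cx κ D).Ok (des s κ D e) where
  t1 := fun v _ => by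
    have := t_le (s := s) (κ := κ) v
    change s.t κ v + df s.G κ v + ∑ _w : V, ((0 : ℕ) : ℤ) ≤ tau s.G κ v
    simp only [Nat.cast_zero, sum_const_zero]
    omega
  sym := fun _ _ => rfl
  sdiag := fun _ => rfl
  th := fun _ => h.th
  nj := fun k => absurd trivial k
  c1 := fun v hv => (h.loc v hv).n1
  pa := fun a ha => ⟨(h.pa a ha).1, (h.pa a ha).2.1, fun _ => mem_Sf.mpr (Or.inr (le_antisymm (h.po _)
    (card_pos.mpr ⟨a, mem_filter.mpr ⟨ha, rfl⟩⟩)))⟩
  po := h.po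
  fa := fun _ ha => absurd ha (notMem_empty _)
  uc := fun v hv => by
    obtain ⟨rfl, a, -⟩ := mem_U.mp hv
    exact co_root hs a
  pi2 := h.p2
  pi := fun v hv => ⟨(mem_Pi.mp hv).2.1, (neg_df h (mem_Pi.mp hv).1).2, fx0 v,
    fun k => (mem_Pi.mp hv).2.2.1 (ub_neg k).2⟩
  pij := fun _ v hv => ⟨(h.fi v hv).1, (mem_Pi.mp hv).1, (h.fi v hv).2.1, h.pn v, fun k =>
    ⟨(ig_eq hD v).trans (pij hD h hv k), (h.fi v hv).2.2 k,
      fun a => absurd ((h.v0 v a).2.symm.trans k) zero_ne_one⟩⟩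
  pir := fun k => absurd trivial k
  pw := fun _ a b => pw hD h a b
  pt := fun v a b => ⟨(ig_eq hD v).symm ▸ ig_of hD h (Or.inr a) b, og_ne hD h a, pt hD h a⟩
  ub := fun k => ⟨k.1, k.2.1, fun _ => ⟨(neg_df h k.2).2, fx0 _⟩, og_ne hD h, Or.inr (Or.inl (by
    have a := neg_df h k.2
    have b : 1 ≤ tau s.G κ s.ρ := tau_pos k.2.1
    change df s.G κ s.ρ ≠ 1
    omega))⟩
  r2 := fun v ⟨a1, a2, _, _, w, w1, w2⟩ => by
    refine (pin_t h v).elim id fun b => ?_
    have c1 : df s.G κ v = 1 := a2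
    have c2 : 1 ≤ tau s.G κ v := tau_pos (mem_Fo.mp w1).2.2.1
    have c3 := ((b.2.2 (fun k => by have := (neg_iff.mp k).2; omega) a1).2.resolve_left
      (not_not.mpr c1)) w w1
    have c4 : df s.G κ w = 1 ∨ s.pin e w = 1 := w2.imp_right fun x => x.2.2
    omega
  ng := fun _ _ a b c d => (rule a b c d).2
  hv := fun _ => h.hv
  sf := fun _ p hp => by
    have a := mem_Sf.mp hp
    have b : Co s.G p ∧ 1 ≤ s.t κ p := a.elim (fun k => ⟨(h.sx p k).1, (h.sx p k).2.1⟩) fun k =>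
      ((pout_t h p).resolve_left (by omega)).2
    exact ⟨b.1, b.2, fun k y y1 y2 => ((h.sf p a k).2 y y1 y2).imp_right (ub_of y1)⟩
  ne := fun _ p w a k => a.elim (fun b => (h.sf p (mem_Sf.mp b) k.2.2.1).1 w (ec_of hD k))
    fun b => (h.sf w (mem_Sf.mp b) k.2.2.2.1).1 p (ec_symm (ec_of hD k))
  yb := fun v _ => by
    have a := term_eq (s := s) (κ := κ) (D := D) (e := e) v
    rw [y1_eq] at a
    rw [fx0]
    change s.t κ v + _ + _ + (df s.G κ v : ℤ) ≤ tau s.G κ v + _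
    omega
  x0 := fun v hv a b => by
    have c := (slack h hv).2 a b
    have d := t_le (s := s) (κ := κ) v
    rw [y1_eq]
    omega
  x1 := fun _ v a => by
    have hv := (mem_Q.mp (h.v0 v a).1).1
    have c := (slack h hv).1
    have d := t_le (s := s) (κ := κ) v
    refine ⟨hv, ?_⟩
    rw [y1_eq]
    omega
  bg := fun b a => by
    obtain ⟨g1, g2, g3, g4, g5, g6, g7, -⟩ := h.bg b a
    have hv := (mem_Q.mp g1).1
    have c := (slack h hv).1
    have d := t_le (s := s) (κ := κ) b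
    refine ⟨trivial, hv, g2, g3, ?_, g4, g5, Or.inr g7, fun x hx => ?_⟩
    · rw [y1_eq]
      omega
    · exact absurd (g6 ▸ hx : x ∈ (∅ : Finset V)) (notMem_empty _)
  k2 := fun _ _ a b c d _ => k2 h a b c d
  k3 := fun _ _ a b c d f g => k3 hD h a b c d f g
  hl := fun X hX => hl h X hX _ fun g v w w1 w2 => card_pos.mpr ⟨w, mem_filter.mpr ⟨mem_univ _, w1, w2,
    fun k => absurd (g ▸ k.2.1 : v ∈ (∅ : Finset V)) (notMem_empty _)⟩⟩
  rt := fun a b => by
    rcases hs.root with c | c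
    · exact absurd (mem_filter.mp (c.1.symm ▸ mem_singleton_self _ : s.ρ ∈ N s.G s.z)).2 a
    · have d : 2 ≤ dg s.G s.ρ := b.1
      rw [c.2.1, hs.iso] at d
      omega
  st := fun k => k.elim

end Cj

theorem cj : SCj := fun _ _ s κ D e hs hD h =>
  ⟨Cj.des s κ D e, Cj.ok hs hD h, rfl, fun a => Cj.mem_U.mpr a⟩

end

end Pool.Agent.MP_d1f1f3_co.H2
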