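import Pool.Agent.MP_d1f1f3_co.H2.Spec3

/-!
From certificates to designs: the design and the counting lemmas.
-/

namespace Pool.Agent.MP_d1f1f3_co.H2

open Finset Relation H47
open scoped Classical

noncomputable section

namespace Cj

variable {V : Type} [Fintype V]

/-- The design of a certificate. -/
def des (s : Sg V) (κ : V → ZMod 2) (D : V → V → Prop) (e : Sg.Cd V) : Ds V where
  t := s.t κ
  sF := fun _ _ => 0
  U := univ.filter (s.Ur κ)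
  P := e.P
  Fx := ∅
  Pi := s.Pi κ D e
  oc := e.oc
  v₀ := e.v₀
  big := e.big
  J := True
  Sf := univ.filter fun p => p ∈ e.Sx ∨ s.pout e p = 1
  ub := s.Re ∧ (s.cx κ D).Neg s.ρ
  st := False
  e₁ := (s.ρ, s.ρ)
  e₂ := (s.ρ, s.ρ)

variable {s : Sg V} {κ : V → ZMod 2} {D : V → V → Prop} {e : Sg.Cd V} {u v w : V}

theorem z2 (a : ZMod 2) : a = 0 ∨ a = 1 := by
  revert a
  decide

theorem fc_symm {G : SimpleGraph V} (h : Fc G κ u w) : Fc G κ w u :=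
  ⟨h.1.symm, h.2.2.1, h.2.1, h.2.2.2.symm⟩

theorem t_U (h : s.Ur κ v) : s.t κ v = tau s.G κ v - df s.G κ v - 2 := by rw [Sg.t, if_pos h]

theorem t_N (h : ¬s.Ur κ v) : s.t κ v = tau s.G κ v - df s.G κ v := by rw [Sg.t, if_neg h, sub_zero]

theorem t_le (v : V) : s.t κ v ≤ tau s.G κ v - df s.G κ v := by
  by_cases h : s.Ur κ v
  · rw [t_U h]
    omega
  · exact (t_N h).le

theorem t_low (h : s.TH κ) (hv : Co s.G v) : -1 ≤ s.t κ v := by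
  have a := h {v} (by simpa using hv)
  have b : ¬Fc s.G κ v v := fun k => k.1.ne rfl
  have c : ¬Hc s.G κ v v := fun k => k.1.ne rfl
  simp only [Sg.Dl, H2.Dl, sum_singleton, filter_singleton, if_neg b, if_neg c, card_empty,
    Nat.cast_zero] at a
  omega

theorem tau_W {G : SimpleGraph V} (h : Wv G κ v) : tau G κ v = ((dg G v / 2 : ℕ) : ℤ) - 1 := by
  rw [tau, if_pos h]

theorem tau_N {G : SimpleGraph V} (h : ¬Wv G κ v) : tau G κ v = ((dg G v / 2 : ℕ) : ℤ) := by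
  rw [tau, if_neg h, sub_zero]

theorem tau_O {G : SimpleGraph V} (h : Odd (dg G v)) : tau G κ v = ((dg G v / 2 : ℕ) : ℤ) :=
  tau_N fun k => (Nat.not_even_iff_odd.mpr h) k.2.1

theorem tau_pos {G : SimpleGraph V} (hv : Co G v) : 1 ≤ tau G κ v := by
  unfold Co at hv
  by_cases h : Wv G κ v
  · obtain ⟨k, hk⟩ := h.2.1
    rw [tau_W h]
    omega
  · rw [tau_N h]
    omega

theorem coK {G : SimpleGraph V} (hv : Co G v) : K G v := by
  unfold Co at hv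
  unfold K
  omega

theorem class_N {G : SimpleGraph V} (hv : Co G v) (he : Even (dg G v)) (h : ¬Wv G κ v) :
    (κ v = 0 ∧ (dg G v / 2) % 2 = 0) ∨ (κ v = 1 ∧ (dg G v / 2) % 2 = 1) := by
  have a : κ v = ((dg G v / 2 : ℕ) : ZMod 2) := by_contra fun k => h ⟨coK hv, he, k⟩
  rcases Nat.mod_two_eq_zero_or_one (dg G v / 2) with b | b
  · exact Or.inl ⟨a.trans ((ZMod.natCast_eq_zero_iff_even).mpr (Nat.even_iff.mpr b)), b⟩
  · exact Or.inr ⟨a.trans ((ZMod.natCast_eq_one_iff_odd).mpr (Nat.odd_iff.mpr b)), b⟩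

theorem class_W {G : SimpleGraph V} (h : Wv G κ v) (h4 : dg G v = 4) : κ v = 1 := by
  have a := h.2.2
  rw [h4] at a
  exact (z2 (κ v)).resolve_left fun k => a (k.trans (by decide))

theorem ri_out (hD : s.Ob D) (v : V) : #((s.cx κ D).Ri v) + #(Out D v) = dg s.G v := by
  rw [dg, ← card_filter_add_card_filter_not (s := N s.G v) (fun w => D v w), add_comm]
  congr 2
  · ext w
    simp only [Out, N, mem_filter, mem_univ, true_and]
    exact ⟨fun a => ⟨hD.adj _ _ a, a⟩, fun a => a.2⟩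
  · ext w
    simp only [Cx.Ri, Sg.cx, N, mem_filter, mem_univ, true_and]
    exact ⟨fun a => ⟨a.2, (hD.ori _ _ a.2.symm).mp a.1⟩, fun a => ⟨(hD.ori _ _ a.1.symm).mpr a.2, a.1⟩⟩

theorem fo_fi (hD : s.Ob D) (v : V) : #((s.cx κ D).Fo v) + #((s.cx κ D).Fi v) = df s.G κ v := by
  rw [df, ← card_filter_add_card_filter_not (s := univ.filter fun w => Fc s.G κ v w) (fun w => D v w)]
  congr 2
  · ext w
    simp only [Cx.Fo, Sg.cx, mem_filter, mem_univ, true_and]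
    exact and_comm
  · ext w
    simp only [Cx.Fi, Sg.cx, mem_filter, mem_univ, true_and]
    exact ⟨fun a => ⟨a.2, (hD.ori _ _ a.2.1.symm).mp a.1⟩, fun a => ⟨(hD.ori _ _ a.1.1.symm).mpr a.2, a.1⟩⟩

theorem ig_eq (hD : s.Ob D) (v : V) : (s.cx κ D).Ig (des s κ D e) v = s.ig κ D e v := by
  ext w
  simp only [Cx.Ig, Cx.Ri, Sg.ig, Sg.cx, des, mem_filter, mem_univ, true_and]
  exact ⟨fun a => ⟨a.1.1, a.2⟩, fun a => ⟨⟨a.1, (hD.adj _ _ a.1).symm⟩, a.2⟩⟩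

theorem pin_card (v : V) : s.pin e v = #(univ.filter fun a => (a, v) ∈ e.P) := by
  refine card_nbij' (fun a => a.1) (fun a => (a, v)) ?_ ?_ ?_ ?_
  · rintro ⟨a, b⟩ h
    obtain ⟨h1, rfl⟩ := mem_filter.mp h
    exact mem_filter.mpr ⟨mem_univ _, h1⟩
  · intro a h
    exact mem_filter.mpr ⟨(mem_filter.mp h).2, rfl⟩
  · rintro ⟨a, b⟩ h
    obtain ⟨-, rfl⟩ := mem_filter.mp h
    rfl
  · intro a _
    rfl

theorem pout_card (v : V) : s.pout e v = #(univ.filter fun b => (v, b) ∈ e.P) := by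
  refine card_nbij' (fun a => a.2) (fun b => (v, b)) ?_ ?_ ?_ ?_
  · rintro ⟨a, b⟩ h
    obtain ⟨h1, rfl⟩ := mem_filter.mp h
    exact mem_filter.mpr ⟨mem_univ _, h1⟩
  · intro a h
    exact mem_filter.mpr ⟨(mem_filter.mp h).2, rfl⟩
  · rintro ⟨a, b⟩ h
    obtain ⟨-, rfl⟩ := mem_filter.mp h
    rfl
  · intro a _
    rfl

theorem ri_split (hD : s.Ob D) (h : s.Cj κ D e) (v : V) :
    #((s.cx κ D).Ri v) = #((s.cx κ D).Fi v) + #(s.ig κ D e v) + s.pin e v := by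
  rw [← card_filter_add_card_filter_not (s := (s.cx κ D).Ri v) (fun w => Fc s.G κ v w),
    ← card_filter_add_card_filter_not (s := ((s.cx κ D).Ri v).filter fun w => ¬Fc s.G κ v w)
      (fun w => (w, v) ∉ e.P), pin_card, add_assoc]
  congr 1
  · congr 1
    ext w
    simp only [Cx.Fi, Cx.Ri, Sg.cx, mem_filter, mem_univ, true_and]
    exact ⟨fun a => ⟨a.1.1, a.2⟩, fun a => ⟨⟨a.1, a.2.1⟩, a.2⟩⟩
  congr 2
  · ext w
    simp only [Sg.ig, Cx.Ri, Sg.cx, mem_filter, mem_univ, true_and]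
    exact ⟨fun a => ⟨a.1.1.1, a.1.2, a.2⟩, fun a => ⟨⟨⟨a.1, (hD.adj _ _ a.1).symm⟩, a.2.1⟩, a.2.2⟩⟩
  · ext w
    simp only [Cx.Ri, Sg.cx, mem_filter, mem_univ, true_and, not_not]
    exact ⟨fun a => a.2, fun a => ⟨⟨⟨(h.pa _ a).1, (h.pa _ a).2.1.1.symm⟩,
      fun k => (h.pa _ a).2.1.2.2.2 k.2.2.2.symm⟩, a⟩⟩

theorem out_split (h : s.Cj κ D e) (v : V) :
    #((s.cx κ D).Og (des s κ D e) v) + s.pout e v = #(Out D v) := by
  rw [← card_filter_add_card_filter_not (s := Out D v) (fun w => (v, w) ∉ e.P), pout_card]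
  congr 2
  · ext w
    simp [Cx.Og, Sg.cx, des]
  · ext w
    simp only [Out, mem_filter, mem_univ, true_and, not_not]
    exact ⟨fun a => ⟨(h.pa _ a).1, a⟩, fun a => a.2⟩

theorem pout_t (h : s.Cj κ D e) (v : V) : s.pout e v = 0 ∨ (s.pout e v = 1 ∧ Co s.G v ∧ 1 ≤ s.t κ v) := by
  rcases Nat.eq_zero_or_pos (s.pout e v) with a | a
  · exact Or.inl a
  · obtain ⟨x, hx⟩ := card_pos.mp a
    obtain ⟨h1, rfl⟩ := mem_filter.mp hx
    exact Or.inr ⟨le_antisymm (h.po _) a, (h.pa x h1).2.1.2.1, (h.pa x h1).2.2.1⟩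

theorem pin_t (h : s.Cj κ D e) (v : V) : s.pin e v = 0 ∨ (s.pin e v = 1 ∧ s.t κ v ≤ 0 ∧
    (¬(s.cx κ D).Neg v → (s.cx κ D).Yc v → (s.ig κ D e v).Nonempty ∧
      (df s.G κ v ≠ 1 ∨ ∀ w ∈ (s.cx κ D).Fo v, 2 ≤ df s.G κ w ∧ s.pin e w = 0))) := by
  rcases Nat.eq_zero_or_pos (s.pin e v) with a | a
  · exact Or.inl a
  · obtain ⟨x, hx⟩ := card_pos.mp a
    obtain ⟨h1, rfl⟩ := mem_filter.mp hx
    exact Or.inr ⟨le_antisymm (h.pn _) a, (h.pa x h1).2.2.2, h.hd x h1⟩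

theorem neg_iff : (s.cx κ D).Neg v ↔ Co s.G v ∧ tau s.G κ v < df s.G κ v := Iff.rfl

theorem neg_df (h : s.Cj κ D e) (hv : (s.cx κ D).Neg v) :
    (df s.G κ v : ℤ) = tau s.G κ v + 1 ∧ s.pout e v = 0 := by
  have a := t_low h.th hv.1
  have b := t_le (s := s) (κ := κ) v
  have c := (neg_iff.mp hv).2
  have d := pout_t h v
  omega

theorem y1_eq (v : V) : (s.cx κ D).y1 (des s κ D e) v =
    tau s.G κ v - df s.G κ v + s.pin e v - s.pout e v := by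
  have : (s.cx κ D).fx (des s κ D e) v = 0 := by simp [Cx.fx, des]
  rw [Cx.y1, this, Nat.cast_zero, sub_zero]
  rfl

theorem mem_Sf : v ∈ (des s κ D e).Sf ↔ v ∈ e.Sx ∨ s.pout e v = 1 := by simp [des]

theorem mem_U : v ∈ (des s κ D e).U ↔ s.Ur κ v := by simp [des]

theorem rb_one (h : κ v = 1) : (s.cx κ D).Rb (des s κ D e) v = 0 := if_pos (Or.inr (Or.inl h))

theorem rb_le (v : V) : (s.t κ v ≤ 0 ∧ (s.cx κ D).Rb (des s κ D e) v = 0) ∨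
    (1 ≤ s.t κ v ∧ (s.cx κ D).Rb (des s κ D e) v ≤ s.t κ v ∧
      (v ∈ e.Sx ∨ s.pout e v = 1 → (s.cx κ D).Rb (des s κ D e) v ≤ s.t κ v - 1)) := by
  by_cases a : s.t κ v ≤ 0
  · exact Or.inl ⟨a, if_pos (Or.inr (Or.inr a))⟩
  have e1 : (des s κ D e).t v = s.t κ v := rfl
  refine Or.inr ⟨by omega, ?_, fun b => ?_⟩
  · unfold Cx.Rb
    split_ifs <;> omega
  · unfold Cx.Rb
    rw [if_pos (mem_Sf.mpr b)]
    split_ifs <;> omega

theorem mem_Q : v ∈ s.Q κ ↔ Co s.G v ∧ s.t κ v < 0 := by simp [Sg.Q]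

theorem slack (h : s.Cj κ D e) (hv : Co s.G v) :
    -1 ≤ s.t κ v + s.pin e v - s.pout e v - (s.cx κ D).Rb (des s κ D e) v ∧
    (e.v₀ ≠ some v → e.big ≠ some v →
      0 ≤ s.t κ v + s.pin e v - s.pout e v - (s.cx κ D).Rb (des s κ D e) v) := by
  have a := t_low h.th hv
  have b := pout_t h v
  rcases rb_le (s := s) (κ := κ) (D := D) (e := e) v with c | ⟨c1, c2, c3⟩
  · refine ⟨by omega, fun k1 k2 => ?_⟩
    by_cases d : s.t κ v < 0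
    · have := ((h.mem v (mem_Q.mpr ⟨hv, d⟩)).resolve_right fun k => k.elim k1 k2)
      omega
    · omega
  · rcases b with b | b
    · exact ⟨by omega, fun _ _ => by omega⟩
    · have := c3 (Or.inr b.1)
      exact ⟨by omega, fun _ _ => by omega⟩

theorem mem_Pi : v ∈ s.Pi κ D e ↔ (s.cx κ D).Neg v ∧ (s.cx κ D).Yc v ∧
    ¬(v = s.ρ ∧ s.Re) ∧ (s.ig κ D e v = ∅ ∨ (#((s.cx κ D).Fo v) ≤ 1 ∧
      ¬(e.v₀ = some v ∧ (κ v = 1 → ∀ w ∈ (s.cx κ D).Fo v, 2 ≤ df s.G κ w)))) := by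
  rw [Sg.Pi, mem_filter]
  exact and_iff_right (mem_univ _)

theorem ub_of (hv : (s.cx κ D).Neg v) (k : v = s.ρ ∧ s.Re) : (s.cx κ D).Ub (des s κ D e) v := by
  obtain ⟨rfl, k⟩ := k
  exact ⟨⟨k, hv⟩, rfl⟩

theorem ub_neg (k : (s.cx κ D).Ub (des s κ D e) v) : (s.cx κ D).Neg v ∧ v = s.ρ ∧ s.Re := by
  obtain ⟨⟨k1, k2⟩, k3⟩ := k
  obtain rfl : v = s.ρ := k3
  exact ⟨k2, rfl, k1⟩

theorem rule (hn : (s.cx κ D).Neg v) (hy : (s.cx κ D).Yc v) (h1 : v ∉ s.Pi κ D e)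
    (h2 : ¬(s.cx κ D).Ub (des s κ D e) v) : (s.ig κ D e v).Nonempty ∧ (2 ≤ #((s.cx κ D).Fo v) ∨
      (e.v₀ = some v ∧ (κ v = 1 → ∀ w ∈ (s.cx κ D).Fo v, 2 ≤ df s.G κ w))) := by
  have a := not_or.mp fun k => h1 (mem_Pi.mpr ⟨hn, hy, fun b => h2 (ub_of hn b), k⟩)
  refine ⟨nonempty_iff_ne_empty.mpr a.1, ?_⟩
  by_cases b : #((s.cx κ D).Fo v) ≤ 1
  · exact Or.inr (by_contra fun k => a.2 ⟨b, k⟩)
  · exact Or.inl (by omega)

theorem w_deg (hD : s.Ob D) (hv : (s.cx κ D).Wc v) : ∃ k : ℕ, dg s.G v = 2 * k ∧ 2 ≤ k ∧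
    tau s.G κ v = k - 1 ∧ #(Out D v) = k ∧ #((s.cx κ D).Ri v) = k := by
  have a : 3 ≤ dg s.G v := hv.1
  have b : Wv s.G κ v := hv.2
  have c := hD.smooth v b.1
  have d := ri_out (κ := κ) hD v
  have f := tau_W b
  obtain ⟨k, hk⟩ := b.2.1
  exact ⟨k, by omega, by omega, by omega, by omega, by omega⟩

theorem t_deg (hD : s.Ob D) (hv : (s.cx κ D).To v) : ∃ k : ℕ, dg s.G v = 2 * k + 1 ∧ 1 ≤ k ∧
    tau s.G κ v = k ∧ #(Out D v) = k + 1 ∧ #((s.cx κ D).Ri v) = k := by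
  have a : 3 ≤ dg s.G v := hv.1
  have b : Odd (dg s.G v) := hv.2.1
  have c : #(Out D v) = (dg s.G v + 1) / 2 := hv.2.2
  have d := ri_out (κ := κ) hD v
  have f := tau_O (κ := κ) b
  obtain ⟨k, hk⟩ := b
  exact ⟨k, by omega, by omega, by omega, by omega, by omega⟩

theorem mem_Fo : w ∈ (s.cx κ D).Fo u ↔ D u w ∧ Fc s.G κ u w := by simp [Cx.Fo, Sg.cx]

theorem mem_Fi : w ∈ (s.cx κ D).Fi u ↔ D w u ∧ Fc s.G κ u w := by simp [Cx.Fi, Sg.cx]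

theorem even_N (h : s.Cj κ D e) (hw : w ∈ (s.cx κ D).Fo u) (h1 : df s.G κ u = 1) (h2 : df s.G κ w ≤ 2)
    (hy : ¬(s.cx κ D).Yc u) : ∃ k : ℕ, dg s.G u = 2 * k ∧ 2 ≤ k ∧ tau s.G κ u = k ∧
      ((κ u = 0 ∧ k % 2 = 0) ∨ (κ u = 1 ∧ k % 2 = 1)) := by
  have c : Co s.G u := (mem_Fo.mp hw).2.2.1
  have a : Even (dg s.G u) := Nat.not_odd_iff_even.mp fun k =>
    hy (Or.inr ((h.loc u c).n3a k h1 w hw h2))
  have b : ¬Wv s.G κ u := fun k => hy (Or.inl ⟨c, k⟩)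
  have d := class_N c a b
  have f := tau_N b
  obtain ⟨k, hk⟩ := a
  unfold Co at c
  rw [show dg s.G u / 2 = k by omega] at d f
  exact ⟨k, by omega, by omega, f, d⟩

end Cj

end

end Pool.Agent.MP_d1f1f3_co.H2
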