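import Pool.Agent.MP_d1f1f3_co.H2.Spec

/-! The exchange argument for returning chains. -/

namespace Pool.Agent.MP_d1f1f3_co.H2

open Finset Relation H47 Function
open scoped Classical

noncomputable section

namespace ExchA

/-- Lists of arcs with labels, and the main arcs. -/
structure Cf (V X L : Type) where
  Bf : V → Prop
  loc : V → L
  I : V → Finset X
  O : V → Finset X
  α : X → Option L
  ω : X → Option L
  p : V → X
  q : V → X

namespace Cf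

variable {V X L : Type} (c : Cf V X L) (l : L)

/-- All arcs reversed. -/
def rev : Cf V X L := ⟨c.Bf, c.loc, c.O, c.I, c.ω, c.α, c.q, c.p⟩

/-- Other main arcs. -/
def set (p q : V → X) : Cf V X L := ⟨c.Bf, c.loc, c.I, c.O, c.α, c.ω, p, q⟩

/-- The switch. -/
def sw (y : V) (d : X) : Cf V X L := c.set c.p (update c.q y d)

def Nx (e f : X) : Prop := ∃ y, c.Bf y ∧ e = c.p y ∧ f = c.q y

abbrev P : X → X → Prop := ReflTransGen c.Nx

/-- First arcs. -/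
def Fr (s : X) : Prop := ∀ y, c.Bf y → s ≠ c.q y

/-- The chain starts at `l`. -/
def A (x : X) : Prop := ∃ s, c.Fr s ∧ c.P s x ∧ c.α s = some l

structure Hf : Prop where
  inj : ∀ y y' x, c.Bf y → c.Bf y' → x ∈ c.O y → x ∈ c.O y' → y = y'
  lab : ∀ y x, c.Bf y → x ∈ c.O y → c.α x = some (c.loc y)
  nf : ∀ y x, c.Bf y → x ∈ c.O y → c.ω x ≠ some (c.loc y)
  mem : ∀ y, c.Bf y → c.q y ∈ c.O y

def Ok : Prop := c.Hf ∧ c.rev.Hf ∧ ∀ e, ¬TransGen c.Nx e e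

def Gd (y : V) : Prop := c.Bf y ∧ c.loc y ≠ l

def Root (y : V) : Prop := c.Gd l y ∧ c.A l (c.p y) ∧ c.rev.A l (c.q y)

def Esc (y : V) : Prop := ∃ x, (x ∈ c.O y ∨ x ∈ c.I y) ∧ ¬c.A l x ∧ ¬c.rev.A l x

def Hs (y y' : V) : Prop := ∃ x ∈ c.O y, x ≠ c.q y ∧ c.P x (c.p y')

def Step (y y' : V) : Prop := c.Gd l y' ∧ (c.Hs y y' ∨ c.rev.Hs y y')

def Bad : ℕ → V → Prop
  | 0, y => c.Esc l y
  | k + 1, y => ∃ y', c.Step l y y' ∧ Bad k y'

inductive Dp : V → Prop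
  | root {y : V} : c.Root l y → Dp y
  | step {y y' : V} : Dp y → c.Step l y y' → Dp y'

variable {c l} {x x' z s s' e d : X} {y y' : V}

theorem Nx.rev (h : c.Nx x z) : c.rev.Nx z x := let ⟨y, a, b, d⟩ := h; ⟨y, a, d, b⟩

theorem p_rev (h : c.P x z) : c.rev.P z x := by
  induction h with
  | refl => exact .refl
  | tail _ q ih => exact .head q.rev ih

theorem p_rev' (h : c.rev.P x z) : c.P z x := p_rev (c := c.rev) h

theorem t_rev (h : TransGen c.Nx x z) : TransGen c.rev.Nx z x := by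
  induction h with
  | single q => exact .single q.rev
  | tail _ q ih => exact .head q.rev ih

theorem Ok.rev (h : c.Ok) : c.rev.Ok := ⟨h.2.1, h.1, fun e k => h.2.2 e (t_rev (c := c.rev) k)⟩

theorem sw_self : (c.sw y d).q y = d := by simp [sw, set]

theorem sw_ne (d : X) (h : y' ≠ y) : (c.sw y d).q y' = c.q y' := by simp [sw, set, h]

theorem Root.rev (h : c.Root l y) : c.rev.Root l y := ⟨h.1, h.2.2, h.2.1⟩

theorem Step.rev (h : c.Step l y y') : c.rev.Step l y y' := ⟨h.1, h.2.symm⟩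

theorem Bad.rev {k : ℕ} (h : c.Bad l k y) : c.rev.Bad l k y := by
  induction k generalizing y with
  | zero => exact let ⟨x, a, b, d⟩ := h; ⟨x, a.symm, d, b⟩
  | succ k ih => exact let ⟨y', a, b⟩ := h; ⟨y', a.rev, ih b⟩

theorem Dp.rev (h : c.Dp l y) : c.rev.Dp l y := by
  induction h with
  | root h => exact .root h.rev
  | step _ h ih => exact .step ih h.rev

theorem Dp.gd (h : c.Dp l y) : c.Gd l y := by
  cases h with
  | root h => exact h.1
  | step _ h => exact h.1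

theorem pq (h : c.Bf y) : c.P (c.p y) (c.q y) := .single ⟨y, h, rfl, rfl⟩

theorem Fr.eq (hs : c.Fr s) (h : c.P x s) : x = s := by
  rcases h.cases_tail with h | ⟨_, -, y, a, -, b⟩
  · exact h.symm
  · exact (hs y a b).elim

theorem tot (h : c.Hf) (a : c.P x z) (b : c.P x' z) : c.P x x' ∨ c.P x' x := by
  refine (ReflTransGen.total_of_right_unique ?_ (p_rev a) (p_rev b)).symm.imp
    (p_rev (c := c.rev)) (p_rev (c := c.rev))
  rintro _ _ _ ⟨y, a, rfl, rfl⟩ ⟨y', b, e, rfl⟩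
  rw [h.inj y y' _ a b (h.mem y a) (e ▸ h.mem y' b : c.rev.p y ∈ c.O y')]

theorem uniq (h : c.Hf) (hs : c.Fr s) (hs' : c.Fr s') (a : c.P s x) (b : c.P s' x) : s = s' :=
  (tot h a b).elim hs'.eq fun k => (hs.eq k).symm

theorem A.fwd (h : c.A l x) (a : c.P x z) : c.A l z := let ⟨s, b, d, e⟩ := h; ⟨s, b, d.trans a, e⟩

theorem A.back (h : c.A l z) (H : c.Ok) (a : c.P x z) : c.A l x :=
  let ⟨s, b, d, e⟩ := h
  ⟨s, b, (tot H.1 d a).elim id fun k => b.eq k ▸ .refl, e⟩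

theorem wfwd (H : c.Ok) (h : c.rev.A l x) (a : c.P x z) : c.rev.A l z := h.back H.rev (p_rev a)

theorem wback (h : c.rev.A l z) (a : c.P x z) : c.rev.A l x := h.fwd (p_rev a)

theorem alt_fr (h : c.Hf) (hy : c.Bf y) (hd : d ∈ c.O y) (hn : d ≠ c.q y) : c.Fr d :=
  fun y' b e => hn (h.inj y y' d hy b hd (e ▸ h.mem y' b) ▸ e)

theorem lab_ne (h : c.Hf) (hy : c.Gd l y) (hd : d ∈ c.O y) : c.α d ≠ some l := fun e =>
  hy.2 (Option.some.inj ((h.lab y d hy.1 hd).symm.trans e))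

theorem alt_na (h : c.Hf) (hy : c.Gd l y) (hd : d ∈ c.O y) (hn : d ≠ c.q y) : ¬c.A l d :=
  fun ⟨_, a, b, e⟩ => lab_ne h hy hd (uniq h a (alt_fr h hy.1 hd hn) b .refl ▸ e)

theorem acyc (H : c.Ok) (hy : c.Bf y) : ¬c.P (c.q y) (c.p y) := fun h =>
  H.2.2 _ (.head' ⟨y, hy, rfl, rfl⟩ h)

/-- A path into a main arc passes through its predecessor. -/
theorem pred (h : c.Hf) (hy : c.Bf y) (a : c.P x (c.q y)) (hn : x ≠ c.q y) : c.P x (c.p y) := by
  rcases a.cases_tail with a | ⟨_, a, y', b, rfl, e⟩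
  · exact (hn a.symm).elim
  · rwa [h.inj y y' _ hy b (h.mem y hy) (e ▸ h.mem y' b)]

theorem nx_sw (h : (c.sw y d).Nx x z) : c.Nx x z ∨ (x = c.p y ∧ z = d) := by
  obtain ⟨y', a, b, e⟩ := h
  by_cases k : y' = y
  · subst k
    exact .inr ⟨b, e.trans sw_self⟩
  · exact .inl ⟨y', a, b, e.trans (sw_ne d k)⟩

theorem p_sw (h : (c.sw y d).P x z) : c.P x z ∨ (c.P x (c.p y) ∧ c.P d z) := by
  induction h with
  | refl => exact .inl .refl
  | tail _ q ih =>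
    rcases nx_sw q with q | ⟨rfl, rfl⟩
    · exact ih.imp (·.tail q) fun k => ⟨k.1, k.2.tail q⟩
    · exact .inr ⟨ih.elim id (·.1), .refl⟩

theorem keep (y : V) (d : X) (h : c.P x z) (k : ¬(c.P x (c.p y) ∧ c.P (c.q y) z)) :
    (c.sw y d).P x z := by
  induction h with
  | refl => exact .refl
  | tail a q ih =>
    refine (ih fun b => k ⟨b.1, b.2.tail q⟩).tail ?_
    obtain ⟨y', b, rfl, rfl⟩ := q
    refine ⟨y', b, rfl, (sw_ne d ?_).symm⟩
    rintro rfl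
    exact k ⟨a, .refl⟩

theorem fr_sw (h : (c.sw y d).Fr s) (k : s ≠ c.q y) : c.Fr s := fun y' b e =>
  h y' b (e.trans (sw_ne d fun k' : y' = y => k (k' ▸ e)).symm)

section Sw

variable (H : c.Ok) (hy : c.Root l y) (hd : d ∈ c.O y) (hn : d ≠ c.q y)
include H hy hd hn

theorem nodp : ¬c.P d (c.p y) := fun h => alt_na H.1 hy.1 hd hn (hy.2.1.back H h)

theorem ok_sw : (c.sw y d).Ok := by
  refine ⟨⟨H.1.inj, H.1.lab, H.1.nf, fun y' b => ?_⟩, ⟨H.2.1.inj, H.2.1.lab, H.2.1.nf, H.2.1.mem⟩,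
    fun e k => ?_⟩
  · change update c.q y d y' ∈ c.O y'
    by_cases k : y' = y
    · rwa [k, update_self]
    · rw [update_of_ne k]
      exact H.1.mem y' b
  · obtain ⟨f, a, b⟩ := TransGen.head'_iff.1 k
    rcases nx_sw a with a | ⟨rfl, rfl⟩ <;> rcases p_sw b with b | b
    · exact H.2.2 e (.head' a b)
    · exact nodp H hy hd hn (b.2.trans (.head a b.1))
    · exact nodp H hy hd hn b
    · exact nodp H hy hd hn b.1

omit hd hn in
theorem esc_sw (hw : c.rev.A l d) (h : c.Esc l y') : (c.sw y d).Esc l y' := by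
  obtain ⟨x, m, a, b⟩ := h
  refine ⟨x, m, fun ⟨s, u, v, w⟩ => ?_, fun ⟨e, u, v, w⟩ => ?_⟩
  · rcases p_sw v with v | v
    · exact a ⟨s, fr_sw u fun k => lab_ne H.1 hy.1 (H.1.mem y hy.1.1) (k ▸ w), v, w⟩
    · exact b (wfwd H hw v.2)
  · rcases p_sw (p_rev' v) with v | v
    · exact b ⟨e, u, p_rev v, w⟩
    · exact a (hy.2.1.back H v.1)

theorem root_sw (hw : c.rev.A l d) (g : c.Gd l y') (h : c.P d (c.p y')) : (c.sw y d).Root l y' := by
  have n := nodp H hy hd hn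
  obtain ⟨s, u, v, w⟩ := hy.2.1
  obtain ⟨e, u', v', w'⟩ := wfwd H hw (h.trans (pq g.1))
  refine ⟨g, ⟨s, fun z b k => ?_, ((keep y d v fun k => acyc H hy.1.1 k.2).tail
    ⟨y, hy.1.1, rfl, sw_self.symm⟩).trans (keep y d h fun k => n k.1), w⟩, e, u', ?_, w'⟩
  · by_cases k' : z = y
    · subst k'
      exact lab_ne H.1 hy.1 hd (k.trans sw_self ▸ w)
    · exact u z b (k.trans (sw_ne d k'))
  · rw [sw_ne d fun k : y' = y => n (k ▸ h)]
    exact p_rev (keep y d (p_rev v') fun k => n ((h.trans (pq g.1)).trans k.1))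

omit hd hn in
theorem bad_sw (hw : c.rev.A l d) {k : ℕ} (ih : ∀ j ≤ k, ∀ y, c.Root l y → ¬c.Bad l j y)
    (h : c.Bad l k y') : (c.sw y d).Bad l k y' := by
  induction k generalizing y' with
  | zero => exact esc_sw H hy hw h
  | succ k ik =>
    have n1 : y' ≠ y := fun e => ih _ le_rfl y hy (e ▸ h)
    obtain ⟨z, ⟨g, a⟩, b⟩ := h
    have n2 : ¬c.Root l z := fun r => ih k k.le_succ z r b
    have t := pq hy.1.1
    have t' := pq g.1
    refine ⟨z, ⟨g, a.imp (fun ⟨x, u, v, w⟩ => ⟨x, u, ?_, keep y d w fun e => n2 ⟨g,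
      hy.2.1.fwd (t.trans e.2), wfwd H hy.2.2 (e.2.trans t')⟩⟩) fun ⟨x, u, v, w⟩ => ⟨x, u, v, ?_⟩⟩,
      ik (fun j e => ih j (e.trans k.le_succ)) b⟩
    · rwa [sw_ne d n1]
    · rw [show (c.sw y d).rev.p z = c.q z from sw_ne d fun e : z = y => n2 (e ▸ hy)]
      exact p_rev (keep y d (p_rev w) fun e => n2 ⟨g, hy.2.1.back H (t'.trans e.1),
        wback hy.2.2 (e.1.trans t)⟩)

end Sw

variable [Fintype X]

variable (c l) in
/-- First arcs of the returning chains. -/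
def R : Finset X := univ.filter fun s => c.Fr s ∧ ¬c.rev.Fr s ∧ c.α s = some l ∧ c.rev.A l s

theorem mem_R : s ∈ c.R l ↔ c.Fr s ∧ ¬c.rev.Fr s ∧ c.α s = some l ∧ c.rev.A l s :=
  mem_filter.trans (and_iff_right (mem_univ _))

theorem R_le (H : c.Ok) : #(c.R l) ≤ #(c.rev.R l) := by
  refine card_le_card_of_forall_subsingleton c.P (fun s hs => ?_) fun e _ s a s' b =>
    uniq H.1 (mem_R.1 a.1).1 (mem_R.1 b.1).1 a.2 b.2
  obtain ⟨a, b, w, e, u, v, w'⟩ := mem_R.1 hs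
  exact ⟨e, mem_R.2 ⟨u, fun k => b (Fr.eq (c := c) k (p_rev v) ▸ u), w', s, a, p_rev v, w⟩, p_rev v⟩

theorem R_rev (H : c.Ok) : #(c.rev.R l) = #(c.R l) := le_antisymm (R_le H.rev) (R_le H)

theorem R_sw (H : c.Ok) (hy : c.Root l y) (l' : L) : (c.sw y d).R l' ⊆ c.R l' := fun s hs => by
  obtain ⟨a, b, w, e, u, v, w'⟩ := mem_R.1 hs
  obtain ⟨s₀, u0, v0, w0⟩ := hy.2.1
  obtain ⟨e₀, u1, v1, w1⟩ := hy.2.2
  have v := p_sw (p_rev' v)
  have f : c.Fr s := fr_sw a fun k => by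
    subst k
    rcases v with v | v
    · rw [uniq H.2.1 u u1 (p_rev v) v1] at w'
      exact lab_ne H.1 hy.1 (H.1.mem y hy.1.1) (w.trans (w'.symm.trans w1))
    · exact acyc H hy.1.1 v.1
  refine mem_R.2 ⟨f, b, w, v.elim (fun v => ⟨e, u, p_rev v, w'⟩) fun v => ?_⟩
  rw [uniq H.1 f u0 v.1 v0] at w
  exact Option.some.inj (w0.symm.trans w) ▸ wback hy.2.2 (v.1.trans (pq hy.1.1))

theorem R_lt (H : c.Ok) (hy : c.Root l y) (hd : d ∈ c.O y) (hn : d ≠ c.q y) (hw : ¬c.rev.A l d) :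
    #((c.sw y d).R l) < #(c.R l) := by
  obtain ⟨s, u, v, w⟩ := hy.2.1
  refine card_lt_card ((ssubset_iff_of_subset (R_sw H hy l)).2 ⟨s, mem_R.2 ⟨u, fun k =>
    k y hy.1.1 (k.eq (p_rev v)).symm, w, wback hy.2.2 (v.trans (pq hy.1.1))⟩, fun k => ?_⟩)
  obtain ⟨e, a, b, g⟩ := wfwd (ok_sw H hy hd hn) (mem_R.1 k).2.2.2
    ((keep y d v fun k => acyc H hy.1.1 k.2).tail ⟨y, hy.1.1, rfl, sw_self.symm⟩)
  exact hw ⟨e, a, p_rev ((p_sw (p_rev' b)).elim id (·.2)), g⟩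

variable [Fintype L] {sp : L → ℕ}

variable (c sp) in
/-- The excess. -/
def Phi : ℕ := ∑ l, (#(c.R l) - sp l)

variable (c sp l) in
/-- A state of least excess with too many returns to `l`. -/
def Mn : Prop :=
  c.Ok ∧ (∀ p q, (c.set p q).Ok → c.Phi sp ≤ (c.set p q).Phi sp) ∧ sp l < #(c.R l)

theorem Phi_rev (H : c.Ok) : c.rev.Phi sp = c.Phi sp := by simp only [Phi, R_rev H]

theorem Mn.rev (h : c.Mn l sp) : c.rev.Mn l sp :=
  ⟨h.1.rev, fun p q k => (Phi_rev h.1).trans_le ((h.2.1 q p k.rev).trans_eq (Phi_rev k)),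
    (R_rev h.1).symm ▸ h.2.2⟩

theorem Mn.sw (h : c.Mn l sp) (hy : c.Root l y) (hd : d ∈ c.O y) (hn : d ≠ c.q y) :
    (c.sw y d).Mn l sp ∧ c.rev.A l d := by
  have a : ∀ l' ∈ univ, #((c.sw y d).R l') - sp l' ≤ #(c.R l') - sp l' := fun l' _ =>
    Nat.sub_le_sub_right (card_le_card (R_sw h.1 hy l')) _
  have o := ok_sw h.1 hy hd hn
  have b : ¬#((c.sw y d).R l) - sp l < #(c.R l) - sp l := fun k =>
    (h.2.1 _ _ o).not_gt (sum_lt_sum a ⟨l, mem_univ l, k⟩)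
  have e := h.2.2
  refine ⟨⟨o, fun p q k => (sum_le_sum a).trans (h.2.1 p q k), by omega⟩, by_contra fun k => ?_⟩
  have := R_lt h.1 hy hd hn k
  omega

theorem no_bad (k : ℕ) : ∀ c : Cf V X L, c.Mn l sp → ∀ y, c.Root l y → ¬c.Bad l k y := by
  induction k using Nat.strong_induction_on with
  | _ k ih =>
    rcases k with _ | k
    · have key : ∀ c : Cf V X L, c.Mn l sp → ∀ y, c.Root l y → ∀ x ∈ c.O y, c.rev.A l x :=
        fun c h y hy x hx => by_contra fun k => k (h.sw hy hx fun e => k (e ▸ hy.2.2)).2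
      rintro c h y hy ⟨x, m | m, a, b⟩
      · exact b (key c h y hy x m)
      · exact a (key c.rev h.rev y hy.rev x m)
    · have key : ∀ c : Cf V X L, c.Mn l sp → ∀ y, c.Root l y → ∀ z, c.Gd l z → c.Hs y z →
          ¬c.Bad l k z := fun c h y hy z g ⟨x, u, v, w⟩ b =>
        have t := h.sw hy u v
        ih k k.lt_succ_self _ t.1 z (root_sw h.1 hy u v t.2 g w)
          (bad_sw h.1 hy t.2 (fun j e => ih j (Nat.lt_succ_of_le e) c h) b)
      rintro c h y hy ⟨z, ⟨g, m | m⟩, b⟩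
      · exact key c h y hy z g m b
      · exact key c.rev h.rev y hy.rev z g m b.rev

theorem Mn.alt (h : c.Mn l sp) (hy : c.Dp l y) (hd : d ∈ c.O y) (hn : d ≠ c.q y) :
    c.rev.A l d := by
  have : ∀ k, ¬c.Bad l k y := by
    clear hd hn
    induction hy with
    | root r => exact fun k => no_bad k c h _ r
    | step _ a ih => exact fun k b => ih (k + 1) ⟨_, a, b⟩
  exact by_contra fun k => this 0 ⟨d, .inl hd, alt_na h.1.1 hy.gd hd hn, k⟩

theorem Mn.clo (h : c.Mn l sp) (hy : c.Dp l y) (hx : x ∈ c.O y) :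
    c.ω x = some l ∨ ∃ y', c.Dp l y' ∧ x ∈ c.I y' := by
  have H := h.1
  have t := pq hy.gd.1
  by_cases f : c.rev.Fr x
  · have W : c.rev.A l x → c.ω x = some l := fun ⟨e, a, b, w⟩ => uniq H.2.1 a f b .refl ▸ w
    by_cases n : x = c.q y
    swap
    · exact .inl (W (h.alt hy hx n))
    subst n
    cases hy with
    | root r => exact .inl (W r.2.2)
    | step a b =>
      rcases b.2 with ⟨x, u, v, w⟩ | ⟨x, u, v, w⟩
      · exact .inl (W (wfwd H (h.alt a u v) (w.trans t)))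
      · exact .inr ⟨_, a, f.eq w ▸ u⟩
  simp only [Fr, not_forall, not_not] at f
  obtain ⟨b, hb, e⟩ := f
  change x = c.p b at e
  have m : x ∈ c.I b := e ▸ H.2.1.mem b hb
  refine or_iff_not_imp_left.2 fun k => ⟨b, ?_, m⟩
  have g : c.Gd l b := ⟨hb, fun k' => k (k' ▸ H.2.1.lab b x hb m)⟩
  by_cases n : x = c.q y
  swap
  · exact .step hy ⟨g, .inl ⟨x, hx, n, e ▸ .refl⟩⟩
  rw [e] at n
  cases hy with
  | root r => exact .root ⟨g, n ▸ r.2.1.fwd t, wfwd H (n ▸ r.2.2) (pq hb)⟩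
  | step a s =>
    refine .step a ⟨g, s.2.imp (fun ⟨x, u, v, w⟩ => ⟨x, u, v, n ▸ w.trans t⟩)
      fun ⟨x, u, v, w⟩ => ⟨x, u, v, pred H.2.1 hb (show c.rev.P x (c.p b) from n ▸ w)
        (alt_fr H.2.1 a.gd.1 u v b hb)⟩⟩

theorem Mn.cnt (h : c.Mn l sp) {B : Finset V} (hB : ∀ y, y ∈ B ↔ c.Dp l y) :
    ∑ y ∈ B, #(c.O y) + #(c.R l) ≤ ∑ y ∈ B, #((c.O y).filter fun x => c.ω x = some l) + #B := by
  have H := h.1
  have g : ∀ y ∈ B, c.Gd l y := fun y m => ((hB y).1 m).gd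
  have a : #(c.R l ∪ B.biUnion fun y => (c.O y).erase (c.q y)) ≤
      #(B.biUnion fun y => (c.O y).filter fun x => c.ω x = some l) := by
    have key : ∀ s ∈ c.R l ∪ B.biUnion fun y => (c.O y).erase (c.q y), c.Fr s ∧ c.rev.A l s ∧
        (c.rev.Fr s → ∃ y ∈ B, s ∈ c.O y) ∧ ∀ y, c.Gd l y → c.P s (c.p y) → c.Dp l y := by
      intro s hs
      rcases mem_union.1 hs with m | m
      · obtain ⟨u, v, w, t⟩ := mem_R.1 m
        exact ⟨u, t, fun k => (v k).elim, fun y k r =>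
          .root ⟨k, ⟨s, u, r, w⟩, wfwd H t (r.trans (pq k.1))⟩⟩
      · obtain ⟨y, m, u⟩ := mem_biUnion.1 m
        rw [mem_erase] at u
        exact ⟨alt_fr H.1 (g y m).1 u.2 u.1, h.alt ((hB y).1 m) u.2 u.1, fun _ => ⟨y, m, u.2⟩,
          fun z k r => .step ((hB y).1 m) ⟨k, .inl ⟨s, u.2, u.1, r⟩⟩⟩
    refine card_le_card_of_forall_subsingleton c.P (fun s hs => ?_) fun e _ s a s' b =>
      uniq H.1 (key s a.1).1 (key s' b.1).1 a.2 b.2
    obtain ⟨-, ⟨e, u, v, w⟩, k1, k2⟩ := key s hs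
    refine ⟨e, ?_, p_rev v⟩
    simp only [mem_biUnion, mem_filter]
    rcases (p_rev v).cases_tail with rfl | ⟨_, r, y, b, rfl, rfl⟩
    · exact let ⟨y, m, t⟩ := k1 u; ⟨y, m, t, w⟩
    · exact ⟨y, (hB y).2 (k2 y ⟨b, fun k => H.1.nf y _ b (H.1.mem y b) (k ▸ w)⟩ r), H.1.mem y b, w⟩
  rw [card_union_of_disjoint, card_biUnion] at a
  · have b : ∑ y ∈ B, #(c.O y) = ∑ y ∈ B, #((c.O y).erase (c.q y)) + #B := by
      rw [card_eq_sum_ones B, ← sum_add_distrib]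
      exact sum_congr rfl fun y m => (card_erase_add_one (H.1.mem y (g y m).1)).symm
    have := a.trans card_biUnion_le
    omega
  · exact fun y m y' m' n => disjoint_left.2 fun x u v =>
      n (H.1.inj y y' x (g y m).1 (g y' m').1 (mem_of_mem_erase u) (mem_of_mem_erase v))
  · refine disjoint_left.2 fun x u v => ?_
    obtain ⟨y, m, v⟩ := mem_biUnion.1 v
    exact lab_ne H.1 (g y m) (mem_of_mem_erase v) (mem_R.1 u).2.2.1

theorem main (H : c.Ok) (hs : ∀ p q l, (c.set p q).Mn l sp → False) :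
    ∃ p q, (c.set p q).Ok ∧ ∀ l, #((c.set p q).R l) ≤ sp l := by
  obtain ⟨u, a, b⟩ := (measure fun u : (V → X) × (V → X) => (c.set u.1 u.2).Phi sp).wf.has_min
    {u | (c.set u.1 u.2).Ok} ⟨(c.p, c.q), H⟩
  exact ⟨u.1, u.2, a, fun l => not_lt.1 fun k =>
    hs _ _ l ⟨a, fun p q o => not_lt.1 (b (p, q) o), k⟩⟩

end Cf

end ExchA

open ExchA in
theorem exch : SExch := by
  intro V L _ _ E Bf Li Lo α ω loc sp i₀ o₀ h hs
  let c : Cf V (V × V) L := ⟨Bf, loc, fun y => (Li y).image fun a => (a, y),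
    fun y => (Lo y).image fun b => (y, b), α, ω, fun y => (i₀ y, y), fun y => (y, o₀ y)⟩
  have mI : ∀ y x, x ∈ c.I y ↔ x.1 ∈ Li y ∧ x.2 = y := fun y x => mem_image.trans
    ⟨fun ⟨a, u, v⟩ => v ▸ ⟨u, rfl⟩, fun k => ⟨x.1, k.1, k.2 ▸ rfl⟩⟩
  have mO : ∀ y x, x ∈ c.O y ↔ x.2 ∈ Lo y ∧ x.1 = y := fun y x => mem_image.trans
    ⟨fun ⟨a, u, v⟩ => v ▸ ⟨u, rfl⟩, fun k => ⟨x.2, k.1, k.2 ▸ rfl⟩⟩
  have nx : ∀ p q : V → V × V, (∀ y, Bf y → (p y).2 = y ∧ (q y).1 = y) →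
      Nxt Bf (fun y => (p y).1) (fun y => (q y).2) = (c.set p q).Nx := fun p q k => by
    funext e f
    refine propext ⟨fun ⟨a, b, d⟩ => ⟨e.2, a, Prod.ext b (k _ a).1.symm,
      d.trans (Prod.ext (k _ a).2.symm rfl)⟩, ?_⟩
    rintro ⟨y, a, rfl, rfl⟩
    change Bf (p y).2 ∧ (p y).1 = (p (p y).2).1 ∧ q y = ((p y).2, (q (p y).2).2)
    rw [(k y a).1]
    exact ⟨a, rfl, Prod.ext (k y a).2 rfl⟩
  have H : c.Ok := by
    refine ⟨⟨fun y y' x _ _ a b => ((mO _ _).1 a).2.symm.trans ((mO _ _).1 b).2, fun y x a b => ?_,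
      fun y x a b => ?_, fun y a => (mO _ _).2 ⟨(h.mem y a).2, rfl⟩⟩,
      ⟨fun y y' x _ _ a b => ((mI _ _).1 a).2.symm.trans ((mI _ _).1 b).2, fun y x a b => ?_,
      fun y x a b k => ?_, fun y a => (mI _ _).2 ⟨(h.mem y a).1, rfl⟩⟩,
      fun e k => h.acyc e ((nx c.p c.q fun _ _ => ⟨rfl, rfl⟩).symm ▸ k :)⟩
    · obtain ⟨b, rfl⟩ := (mO _ _).1 b
      exact (h.out _ a _ b).2
    · obtain ⟨b, rfl⟩ := (mO _ _).1 b
      exact h.nf x _ (h.out _ a _ b).1 (h.out _ a _ b).2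
    · obtain ⟨b, rfl⟩ := (mI _ _).1 b
      exact (h.inn _ a _ b).2
    · obtain ⟨b, rfl⟩ := (mI _ _).1 b
      exact h.nf x _ (h.inn _ a _ b).1 k (h.inn _ a _ b).2
  obtain ⟨p, q, o, b⟩ := Cf.main (sp := sp) H fun p q l m => by
    have hB : ∀ y, y ∈ univ.filter ((c.set p q).Dp l) ↔ (c.set p q).Dp l y := by simp
    have i1 : ∀ y : V, Injective fun a : V => (a, y) := fun y _ _ e => congrArg Prod.fst e
    have i2 : ∀ y : V, Injective fun a : V => (y, a) := fun y _ _ e => congrArg Prod.snd e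
    refine m.2.2.not_ge (hs l _ _ ⟨fun y a => ((hB y).1 a).gd, fun y a b u => ?_, fun y a b u => ?_,
      ?_, ?_⟩)
    · refine (m.clo ((hB y).1 a) ((mO y (y, b)).2 ⟨u, rfl⟩)).imp_right fun ⟨z, v, w⟩ => ?_
      obtain ⟨w, rfl⟩ := (mI _ _).1 w
      exact ⟨(hB _).2 v, w⟩
    · refine (m.rev.clo ((hB y).1 a).rev ((mI y (b, y)).2 ⟨u, rfl⟩)).imp_right fun ⟨z, v, w⟩ => ?_
      obtain ⟨w, rfl⟩ := (mO _ _).1 w
      exact ⟨(hB _).2 v.rev, w⟩
    · have := m.cnt hB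
      simpa only [Cf.set, c, filter_image, card_image_of_injective _ (i2 _)] using this
    · have := m.rev.cnt fun y => (hB y).trans ⟨Cf.Dp.rev, Cf.Dp.rev (c := (c.set p q).rev)⟩
      rw [Cf.R_rev m.1] at this
      simpa only [Cf.rev, Cf.set, c, filter_image, card_image_of_injective _ (i1 _)] using this
  have m1 := fun y a => (mI y _).1 (o.2.1.mem y a)
  have m2 := fun y a => (mO y _).1 (o.1.mem y a)
  have e := nx p q fun y a => ⟨(m1 y a).2, (m2 y a).2⟩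
  refine ⟨fun y => (p y).1, fun y => (q y).2, fun y a => ⟨(m1 y a).1, (m2 y a).1⟩, e ▸ o.2.2,
    fun l => le_trans (card_le_card fun s hs => ?_) (b l)⟩
  obtain ⟨s1, s2, s3, f, f1, f2, f3⟩ := (mem_filter.1 hs).2
  rw [e] at f1
  refine Cf.mem_R.2 ⟨?_, fun k => h.nf s l s1 s3 (k.eq (Cf.p_rev f1) ▸ f3), s3, f, ?_,
    Cf.p_rev f1, f3⟩
  · rintro y a rfl
    exact s2 (by rw [(m2 y a).2]; exact ⟨a, rfl⟩)
  · rintro y a rfl
    exact f2 (by rw [(m1 y a).2]; exact ⟨a, rfl⟩)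

end

end Pool.Agent.MP_d1f1f3_co.H2
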