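import Pool.Agent.MP_d1f1f3_co.H2.Spec3
import Pool.Agent.MP_d1f1f3_co.H47.Frame
import Pool.Agent.MP_d1f1f3_co.H47.Asm0

/-!
From a state, an orientation and a design to the colouring.
-/

namespace Pool.Agent.MP_d1f1f3_co.H2

open Finset Relation H47 H47.Frame
open scoped Classical

namespace Fin1

variable {V : Type} [Fintype V]

theorem co_K {G : SimpleGraph V} {v : V} (h : Co G v) : K G v := le_trans (by norm_num) h

/-- The colouring given by the frame. -/
theorem frame (h1 : SGen) (h2 : SBlev2) (c : Cx V) (d : Ds V) {γ τ : ℕ} (hγ1 : 1 ≤ γ)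
    (hγ4 : γ ≤ 4) (hO : Ori c.G c.A c.z c.ρ) (hP : Par c.G c.A c.z c.ρ c.κ γ) (hd : c.Ok d)
    (hF : d.Fx = ∅) (hU : c.G.Adj c.z c.ρ → c.κ c.ρ = τ → c.ρ ∈ d.U)
    (hC : ∀ v, K c.G v → Co c.G v) (hK : ∀ u w, c.G.Adj u w → K c.G u ∨ K c.G w) :
    Goal c.G c.z c.ρ γ τ := by
  obtain ⟨a, E, Y, i, o, S⟩ := h1 V c d γ hO hP hd
  have hz : ¬Co c.G c.z := fun h => hO.kz (co_K h)
  obtain ⟨b, bs, b01, bρ, bio, bF, bτ⟩ := h2 V c.G c.κ E Y i o d.U d.v₀
    (fun v => if Co c.G v then Tks E Y i o v else ∅) (fun s => s = (c.z, c.ρ) ∧ c.G.Adj c.z c.ρ)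
    (fun _ => ((γ - 1) / 2 : ℕ)) (fun v => ∑ w ∈ N c.G v, if a v w = 1 then 1 else 2) (fun _ => τ)
    S.chs hd.uc
    (by
      rintro _ ⟨rfl, h⟩
      exact ⟨(S.eA _ _ h (Or.inl hz)).2 (Or.inl ⟨hO.root, by simp [hF]⟩),
        fun k => hz ((S.yc _ k.1).1.elim (·.1) (·.1)), by omega⟩)
    (fun v x hx => by
      split_ifs at hx with hv
      · obtain ⟨k1, k2, k3⟩ := (mem_filter.1 hx).2
        exact ⟨k1, k2, fun k => hz ((show v = c.z from congrArg Prod.fst k.1) ▸ hv), k3⟩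
      · exact absurd hx (notMem_empty _))
    ⟨fun X hX => (S.tok.h1 X hX).trans_eq (by
        rw [sum_congr rfl fun v hv => congrArg card (if_pos (hX v hv))]),
      fun u w h => by simpa only [if_pos h.2.1, if_pos h.2.2.1] using S.tok.h2 u w h⟩
  set e : V → V → ℕ := fun u w => col (a u w) (b u w) with he
  have cs : ∀ u w, e u w = e w u := fun u w => by simp only [he, S.sym u w, bs u w]
  have cr : ∀ u w, 1 ≤ e u w ∧ e u w ≤ 4 := fun u w => col_range _ (b01 u w)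
  have sI : ∀ v, (sg c.G e v : ℤ) =
      (∑ w ∈ N c.G v, if a v w = 1 then 1 else 2) + 2 * ∑ w ∈ N c.G v, b v w := fun v => by
    rw [sg, Nat.cast_sum, mul_sum, ← sum_add_distrib]
    exact sum_congr rfl fun w _ => col_int _ (b01 v w)
  have sP : ∀ v, K c.G v → (sg c.G e v : ZMod 2) = c.κ v := fun v hv => by
    rw [sg, Nat.cast_sum, ← S.sum v hv]
    exact sum_congr rfl fun w _ => col_cast _ _
  refine ⟨e, ⟨cs, fun u w _ => cr u w, fun u w h q => ?_, fun u α => ?_⟩,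
    fun h => ⟨?_, fun q => ?_⟩⟩
  · by_cases hu : K c.G u
    · by_cases hw : K c.G w
      · refine bF u w ⟨h, hC u hu, hC w hw, by rw [← sP u hu, ← sP w hw, q]⟩ ?_
        rw [← sI, ← sI, q]
      · exact (leaf cs (fun u w => (cr u w).1) h.symm hw hu).ne' q
    · exact (leaf cs (fun u w => (cr u w).1) h hu ((hK u w h).resolve_left hu)).ne q
  · by_cases hu : K c.G u
    · have hs : ((N c.G u).filter fun w => e u w = α) ⊆ (N c.G u).filter fun w => a u w = α :=
        fun w hw => mem_filter.2 ⟨(mem_filter.1 hw).1, by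
          rw [← (mem_filter.1 hw).2]
          exact (col_cast _ _).symm⟩
      rcases S.qm u (hC u hu) α with h | ⟨hy, e1, e2, h⟩
      · exact (card_le_card hs).trans h
      · refine Nat.le_of_lt_succ ((card_lt_card ⟨hs, fun h' => ?_⟩).trans_eq h)
        have f1 := (mem_filter.1 (h' (mem_filter.2
          ⟨mem_N.2 (S.chs.adj _ _ (S.chs.arc u hy).1).symm, e1⟩))).2
        have f2 := (mem_filter.1 (h' (mem_filter.2
          ⟨mem_N.2 (S.chs.adj _ _ (S.chs.arc u hy).2), e2⟩))).2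
        have g1 := col_int (a u (i u)) (b01 u (i u))
        have g2 := col_int (a u (o u)) (b01 u (o u))
        simp only [he] at f1 f2
        rw [f1, e1] at g1
        rw [f2, e2] at g2
        have := bio u hy
        omega
    · have := card_filter_le (N c.G u) fun w => e u w = α
      unfold K at hu
      unfold dg at hu ⊢
      omega
  · simp only [he, S.root h, bρ _ ⟨rfl, h⟩]
    exact col_root hγ1 hγ4
  · refine bτ _ (hU h (by rw [← sP _ hO.kr, q])) ?_
    rw [← sI, q]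

/-- The context with a virtual root arc. -/
def vr (c : Cx V) (r : V) : Cx V := ⟨c.G, fun u w => c.A u w ∨ (u = c.z ∧ w = r), c.z, r, c.κ⟩

theorem move {c : Cx V} {d : Ds V} {r : V} (hz : dg c.G c.z = 0) (h : c.Ok d)
    (hr : Wv c.G c.κ r → Co c.G r ∧ c.Gn d r ∧ (c.Ig d r).Nonempty ∧ 2 ≤ #(c.Og d r)) :
    (vr c r).Ok d := by
  have na : ∀ w, ¬c.G.Adj c.z w := fun w k => by
    have := Asm0.one_le k
    omega
  have nu : ¬d.ub := fun k => na _ (h.ub k).1
  have nc : ∀ v, Co c.G v → v ≠ c.z := fun v k q => by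
    rw [q, Co, hz] at k
    omega
  have e1 : (vr c r).Fo = c.Fo := funext fun v => filter_congr fun w _ =>
    and_congr_left fun k => or_iff_left fun q => nc v k.2.1 q.1
  have e2 : (vr c r).Fi = c.Fi := funext fun v => filter_congr fun w _ =>
    and_congr_left fun k => or_iff_left fun q => nc w k.2.2.1 q.1
  have e3 : (vr c r).Ri = c.Ri := funext fun v => filter_congr fun w _ =>
    and_congr_left fun k => or_iff_left fun q => na v (q.1 ▸ k.symm)
  have e0 : ∀ v, Co c.G v → Out (vr c r).A v = Out c.A v := fun v k => filter_congr fun w _ =>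
    or_iff_left fun q => nc v k q.1
  have e4 : (vr c r).To = c.To := funext fun v => propext (and_congr_right fun k => by
    rw [e0 v k]
    rfl)
  have e5 : (vr c r).Yc = c.Yc := funext fun v => by
    rw [Cx.Yc, e4]
    rfl
  have e6 : (vr c r).L2 = c.L2 := funext fun v => by
    rw [Cx.L2, e1]
    rfl
  have e7 : (vr c r).Ub d = c.Ub d := funext fun v => by simp [Cx.Ub, nu]
  have e8 : (vr c r).R2 d = c.R2 d := funext fun v => by
    rw [Cx.R2, e1, e5, e7]
    rfl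
  have e9 : (vr c r).Ig d = c.Ig d := funext fun v => by
    rw [Cx.Ig, e3]
    rfl
  have e10 : (vr c r).Gn d = c.Gn d := funext fun v => by
    rw [Cx.Gn, e7, e8]
    rfl
  have e11 : (vr c r).Ecf d = c.Ecf d := funext fun v => funext fun w => by
    rw [Cx.Ecf, e6]
    rfl
  have e12 : ∀ v, Co c.G v → (vr c r).Og d v = c.Og d v := fun v k => by
    rw [Cx.Og, e0 v k]
    rfl
  exact { h with
    nj := by rw [e1, e5, e6, e7]; exact h.nj
    c1 := by rw [e1]; exact h.c1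
    pa := fun e he => ⟨Or.inl (h.pa e he).1, (h.pa e he).2⟩
    fa := fun e he => ⟨Or.inl (h.fa e he).1, (h.fa e he).2⟩
    pi := by rw [e5, e7]; exact h.pi
    pij := by rw [e1, e2, e9]; exact h.pij
    pir := by rw [e1, e2, e4]; exact h.pir
    pw := fun v k => by rw [e3, e9, e10, e0 v k.1, e12 v k.1]; exact h.pw v k
    pt := fun v k => by rw [e3, e9, e10, e12 v k.1]; exact h.pt v (e4 ▸ k)
    ub := fun k => absurd k nu
    r2 := by rw [e8]; exact h.r2
    ng := by rw [e1, e5, e7]; exact h.ng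
    sf := by rw [e5, e7]; exact h.sf
    ne := by rw [e11]; exact h.ne
    bg := by rw [e1, e5]; exact h.bg
    k2 := by rw [e1, e5]; exact h.k2
    k3 := by rw [e1, e5, e7]; exact h.k3
    rt := fun _ k => by
      rw [e9, e10, e12 (vr c r).ρ (hr k).1]
      exact hr k
    st := fun k => by
      obtain ⟨a1, a2, a3, a4, a5, a6, a7, a8⟩ := h.st k
      exact ⟨Or.inl a1, a2, a3, a4, a5, a6, Or.inl a7, a8⟩ }

theorem z0 : ∀ a : ZMod 2, a ≠ 0 → a = 1 := by decide

/-- If every core vertex is even of the wrong parity, one of them can be the root. -/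
theorem wroot {c : Cx V} {d : Ds V} (h : c.Ok d) (nu : ¬d.ub)
    (hA : ∀ u w, c.G.Adj u w → (c.A u w ↔ ¬c.A w u)) (hN : ∀ u w, c.G.Adj u w → Co c.G w)
    (hW : ∀ v, Co c.G v → Wv c.G c.κ v) {v : V} (hv : Co c.G v) :
    ∃ r, Co c.G r ∧ c.κ r = 0 ∧ c.Gn d r := by
  have ht : ∀ v, Co c.G v → tau c.G c.κ v = ((dg c.G v / 2 : ℕ) : ℤ) - 1 := fun v k => by
    rw [tau, if_pos (hW v k)]
  obtain ⟨x, x1, x2⟩ : ∃ x, Co c.G x ∧ c.κ x = 0 := by
    by_contra k
    have k1 : ∀ x, Co c.G x → c.κ x = 1 := fun x a => z0 _ fun b => k ⟨x, a, b⟩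
    have k2 : ∀ x, Co c.G x → df c.G c.κ x = dg c.G x := fun x a =>
      congrArg card (filter_congr fun w _ =>
        ⟨fun b => b.1, fun b => ⟨b, a, hN _ _ b, by rw [k1 x a, k1 w (hN _ _ b)]⟩⟩)
    by_cases j : d.J
    · have a := h.th j {v} (by simpa using hv)
      have b := h.t1 v hv
      have e : (0 : ℤ) ≤ ∑ w, (d.sF v w : ℤ) := sum_nonneg fun _ _ => Nat.cast_nonneg _
      rw [Dl, sum_singleton, sum_singleton, filter_singleton, filter_singleton, h.sdiag,
        if_neg fun q : Fc c.G c.κ v v => c.G.irrefl q.1,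
        if_neg fun q : Hc c.G c.κ v v => c.G.irrefl q.1, card_empty] at a
      rw [ht v hv, k2 v hv] at b
      unfold Co at hv
      omega
    · obtain ⟨y, y1, y2⟩ : ∃ y, Co c.G y ∧ d.v₀ ≠ some y := by
        obtain ⟨w, hw⟩ : (N c.G v).Nonempty := card_pos.1 (lt_of_lt_of_le (by norm_num) hv)
        by_cases q : d.v₀ = some v
        · exact ⟨w, hN _ _ (mem_N.1 hw), fun q' =>
            (mem_N.1 hw).ne (Option.some.inj (q.symm.trans q'))⟩
        · exact ⟨v, hv, q⟩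
      have a := h.x0 y y1 y2 fun q => j (h.bg y q).1
      have b : c.pin d y = 0 := card_eq_zero.2 (filter_eq_empty_iff.2 fun e he _ => by
        obtain ⟨-, a1, a2, a3⟩ := (h.pa e he).2.1
        exact a3 (by rw [k1 _ a1, k1 _ a2]))
      rw [Cx.y1, Cx.Rb, if_pos (Or.inl j), ht y y1, k2 y y1, b] at a
      omega
  have h6 : ∀ x, Co c.G x → c.κ x = 0 → x ∈ d.Pi → 3 ≤ df c.G c.κ x := fun x a b p => by
    obtain ⟨-, ⟨n, hn⟩, q⟩ := hW x a
    have e : ¬2 ∣ dg c.G x / 2 := fun e => q (b.trans ((ZMod.natCast_eq_zero_iff _ 2).2 e).symm)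
    have a' : 3 ≤ dg c.G x := a
    by_cases j : d.J
    · have := (h.pij j x p).2.1.2
      rw [ht x a] at this
      omega
    · have := (h.pir j x p).1 ⟨a, hW x a⟩
      omega
  obtain ⟨y, y1, y2, y3⟩ : ∃ y, Co c.G y ∧ c.κ y = 0 ∧ y ∉ d.Pi := by
    by_cases p : x ∈ d.Pi
    · obtain ⟨y, y1, y2⟩ := exists_mem_notMem_of_card_lt_card
        (h.pi2.trans_lt (h6 x x1 x2 p) : #d.Pi < #(univ.filter fun w => Fc c.G c.κ x w))
      obtain ⟨-, -, a, b⟩ := (mem_filter.1 y1).2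
      exact ⟨y, a, b ▸ x2, y2⟩
    · exact ⟨x, x1, x2, p⟩
  by_cases q : c.R2 d y
  · obtain ⟨-, -, -, -, w, w1, w2⟩ := q
    obtain ⟨w3, w4⟩ := (mem_filter.1 w1).2
    have w5 : c.κ w = 0 := w4.2.2.2 ▸ y2
    have w6 : w ∉ d.Pi := fun p => by
      have := h6 w w4.2.2.1 w5 p
      omega
    refine ⟨w, w4.2.2.1, w5, w6, fun k => nu k.1, ?_⟩
    rintro ⟨-, a, -, -, w', b, -⟩
    obtain ⟨b1, b2⟩ := (mem_filter.1 b).2
    obtain rfl : w' = y := card_le_one.1 a.le _ (mem_filter.2 ⟨mem_univ _, b2⟩) _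
      (mem_filter.2 ⟨mem_univ _, w4.1.symm, w4.2.2.1, y1, w4.2.2.2.symm⟩)
    exact (hA _ _ w4.1).1 w3 b1
  · exact ⟨y, y1, y2, y3, fun k => nu k.1, q⟩

/-- The choice of the virtual root. -/
theorem root {c : Cx V} {d : Ds V} (h : c.Ok d) (nu : ¬d.ub) (hF : d.Fx = ∅)
    (h1 : ∀ u w, c.A u w → c.G.Adj u w) (hA : ∀ u w, c.G.Adj u w → (c.A u w ↔ ¬c.A w u))
    (hS : ∀ v, K c.G v → dg c.G v / 2 ≤ #(Out c.A v) ∧ #(Out c.A v) ≤ (dg c.G v + 1) / 2)
    (hD : ∀ v, dg c.G v = 0 ∨ Co c.G v) {v : V} (hv : Co c.G v) :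
    ∃ r, K c.G r ∧ #(Out c.A r) = (dg c.G r + 1) / 2 ∧
      (Wv c.G c.κ r → Co c.G r ∧ c.Gn d r ∧ (c.Ig d r).Nonempty ∧ 2 ≤ #(c.Og d r)) := by
  by_contra k
  have k1 : ∀ r, Co c.G r → ¬Wv c.G c.κ r → #(Out c.A r) < #(Inn c.A r) := fun r a b => by
    have e : #(Out c.A r) ≠ (dg c.G r + 1) / 2 := fun e => k ⟨r, co_K a, e, fun q => absurd q b⟩
    have := hS r (co_K a)
    have := Asm0.dg_eq h1 hA r
    omega
  have k2 : ∀ r, #(Out c.A r) ≤ #(Inn c.A r) := fun r => by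
    have := Asm0.dg_eq h1 hA r
    rcases hD r with a | a
    · omega
    · by_cases b : Wv c.G c.κ r
      · obtain ⟨n, hn⟩ := b.2.1
        have := hS r (co_K a)
        omega
      · exact (k1 r a b).le
  have hW : ∀ r, Co c.G r → Wv c.G c.κ r := fun r a => by_contra fun b =>
    (sum_lt_sum (fun x _ => k2 x) ⟨r, mem_univ _, k1 r a b⟩).ne (Asm0.sum_out c.A)
  obtain ⟨r, r1, r2, r3⟩ := wroot h nu hA
    (fun u w a => (hD w).resolve_left (Nat.ne_of_gt (Asm0.one_le a.symm))) hW hv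
  obtain ⟨-, ⟨n, hn⟩, q⟩ := hW r r1
  have e : ¬2 ∣ dg c.G r / 2 := fun e => q (r2.trans ((ZMod.natCast_eq_zero_iff _ 2).2 e).symm)
  have a1 := hS r (co_K r1)
  have a2 := Asm0.dg_eq h1 hA r
  have a3 := h.pw r ⟨r1, hW r r1⟩ r3
  have a4 : c.Ri r = Inn c.A r := filter_congr fun w _ => and_iff_left_of_imp fun p => (h1 _ _ p).symm
  have a5 := le_card_sdiff (c.Ig d r) (c.Ri r)
  have a6 := le_card_sdiff (c.Og d r) (Out c.A r)
  have a7 : #(Out c.A r \ c.Og d r) ≤ c.pout d r :=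
    card_le_card_of_injOn (fun b => (r, b)) (fun b hb => by
      obtain ⟨b1, b2⟩ := mem_sdiff.1 hb
      exact mem_filter.2 ⟨by_contra fun p => b2 (mem_filter.2 ⟨b1, p, by simp [hF]⟩), rfl⟩)
      fun _ _ _ _ p => (Prod.ext_iff.1 p).2
  have a8 := h.po r
  have a9 : 3 ≤ dg c.G r := r1
  have a10 := congrArg card a4
  exact k ⟨r, co_K r1, by omega, fun _ => ⟨r1, r3, card_pos.1 (by omega), by omega⟩⟩

end Fin1

open Fin1 in
theorem fin1 : SFin1 := by
  intro h1 h2 V _ s γ τ ok hγ1 hγ4 eγ eτ ⟨κ, D, hP, hO, d, hd, hF, hU⟩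
  have hC : ∀ v, K s.G v → Co s.G v := fun v k => (ok.deg v).resolve_left (not_le.2 k)
  have hK : ∀ u w, s.G.Adj u w → K s.G u ∨ K s.G w := fun u w a => by
    by_contra k
    obtain ⟨k1, k2⟩ := not_or.1 k
    have b1 := Asm0.one_le a
    have b2 := Asm0.one_le a.symm
    unfold K at k1 k2
    exact a.ne ((ok.leaf u (by omega)).trans (ok.leaf w (by omega)).symm)
  by_cases re : s.Re
  · exact frame h1 h2 (s.cx κ D) d hγ1 hγ4 (hO.ori1 re) (Or.inr (eγ ▸ hP)) hd hF
      (fun a b => hU ⟨rfl, a, eτ ▸ b⟩) hC hK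
  · obtain ⟨e1, -, v, hv⟩ := ok.root.resolve_left fun a =>
      re (mem_N.1 (a.1 ▸ mem_singleton_self _))
    have hz : dg s.G s.z = 0 := e1 ▸ ok.iso
    have na : ∀ w, ¬s.G.Adj s.z w := fun w k => by
      have := Asm0.one_le k
      omega
    obtain ⟨r, r1, r2, r3⟩ := root hd (fun k => re (hd.ub k).1) hF hO.adj hO.ori hO.smooth
      (fun x => by
        change dg s.G x = 0 ∨ 3 ≤ dg s.G x
        have a := ok.deg x
        have b : dg s.G x ≠ 1 := fun e => by
          rw [ok.leaf x e] at e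
          omega
        omega) hv
    have o := hO.ori0 re r r1 r2
    rw [← e1] at o
    obtain ⟨c, hc, -⟩ := frame (τ := τ) h1 h2 (vr (s.cx κ D) r) d hγ1 hγ4 o
      (Or.inr (hP.trans ((if_neg re).trans (if_neg (na r)).symm))) (move hz hd r3) hF
      (fun a => absurd a (na r)) hC hK
    exact ⟨c, hc, fun a => absurd a re⟩

end Pool.Agent.MP_d1f1f3_co.H2
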