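import Pool.Agent.MP_d1f1f3_co.H2.Spec3

/-!
Changes of the parity and the existence of good states.
-/

namespace Pool.Agent.MP_d1f1f3_co.H2

open Finset Relation H47
open scoped Classical symmDiff

noncomputable section

namespace Flip

variable {V : Type} [Fintype V]

theorem z1 : ∀ a b : ZMod 2, a + 1 = b ↔ ¬a = b := by decide

theorem z2 : ∀ a b : ZMod 2, a = b + 1 ↔ ¬a = b := by decide

theorem z3 : ∀ a : ZMod 2, a + 1 + 1 = a := by decide

omit [Fintype V] in
theorem flp_flp (κ : V → ZMod 2) (A X : Finset V) : flp (flp κ A) X = flp κ (A ∆ X) := by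
  funext v
  by_cases h : v ∈ A <;> by_cases h' : v ∈ X <;> simp [flp, mem_symmDiff, h, h', z3]

/-- The balance of the edges from `v` to `A`. -/
def bal (G : SimpleGraph V) (κ : V → ZMod 2) (A : Finset V) (v : V) : ℤ :=
  #(A.filter (Fc G κ v)) - #(A.filter (Hc G κ v))

theorem bal_eq (G : SimpleGraph V) (κ : V → ZMod 2) (A : Finset V) (v : V) : bal G κ A v =
    ∑ w ∈ A, ((if Fc G κ v w then 1 else 0) - if Hc G κ v w then 1 else 0) := by
  simp only [bal, card_filter, Nat.cast_sum, sum_sub_distrib, Nat.cast_ite, Nat.cast_one,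
    Nat.cast_zero]

theorem df_flp (G : SimpleGraph V) (κ : V → ZMod 2) (A : Finset V) (v : V) :
    (df G (flp κ A) v : ℤ) =
      if v ∈ A then dh G κ v + bal G κ A v else df G κ v - bal G κ A v := by
  rw [bal_eq, ← sum_ite_mem_eq A]
  simp only [df, dh, card_filter, Nat.cast_sum, Nat.cast_ite, Nat.cast_one, Nat.cast_zero]
  split_ifs with hv
  · rw [← sum_add_distrib]
    refine sum_congr rfl fun w _ => ?_
    by_cases hw : w ∈ A <;> by_cases hk : κ v = κ w <;> simp [Fc, Hc, flp, hv, hw, hk, z1]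
  · rw [← sum_sub_distrib]
    refine sum_congr rfl fun w _ => ?_
    by_cases hw : w ∈ A <;> by_cases hk : κ v = κ w <;> simp [Fc, Hc, flp, hv, hw, hk, z2]

theorem Fc_comm {G : SimpleGraph V} {κ : V → ZMod 2} {v w : V} : Fc G κ v w ↔ Fc G κ w v := by
  simp only [Fc, G.adj_comm v w, eq_comm (a := κ v), and_left_comm]

theorem Hc_comm {G : SimpleGraph V} {κ : V → ZMod 2} {v w : V} : Hc G κ v w ↔ Hc G κ w v := by
  simp only [Hc, G.adj_comm v w, ne_comm (a := κ v), and_left_comm]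

theorem sum_bal (G : SimpleGraph V) (κ : V → ZMod 2) (A : Finset V) :
    ∑ v ∈ univ.filter (Co G), bal G κ A v = ∑ w ∈ A, ((df G κ w : ℤ) - dh G κ w) := by
  rw [sum_subset (filter_subset _ univ) fun v _ hv => by
    have hv' : ¬Co G v := by simpa using hv
    simp [bal, Fc, Hc, hv']]
  simp only [bal_eq]
  rw [sum_comm]
  refine sum_congr rfl fun w _ => ?_
  simp only [Fc_comm (w := w), Hc_comm (w := w), ← bal_eq]
  rfl

theorem par_bal (G : SimpleGraph V) (κ : V → ZMod 2) (A : Finset V) :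
    ((∑ v ∈ A, bal G κ A v : ℤ) : ZMod 2) = 0 := by
  simp only [bal_eq]
  rw [← sum_product', Int.cast_sum]
  refine sum_involution (fun p _ => p.swap) (fun p _ => ?_) (fun p _ h e => h ?_)
    (fun p hp => mem_product.2 (mem_product.1 hp).symm) fun p _ => rfl
  · simp only [Prod.fst_swap, Prod.snd_swap, Fc_comm (v := p.2), Hc_comm (v := p.2)]
    exact CharTwo.add_self_eq_zero _
  · have e' : p.2 = p.1 := congrArg Prod.fst e
    simp [Fc, Hc, e']

variable {s : Sg V}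

theorem re_of (h : s.Ok) (hv : Co s.G s.ρ) : N s.G s.z = {s.ρ} := by
  rcases h.root with h1 | h1
  · exact h1.1
  · rw [Co, h1.2.1, h.iso] at hv
    omega

theorem deg_eq (h : s.Ok) (κ : V → ZMod 2) {v : V} (hv : Co s.G v) :
    dg s.G v = df s.G κ v + dh s.G κ v + if v = s.ρ then 1 else 0 := by
  have e : ∀ w, s.G.Adj v w ∧ ¬Co s.G w ↔ v = s.ρ ∧ w = s.z := fun w => by
    constructor
    · rintro ⟨h1, h2⟩
      have h3 : 0 < dg s.G w := card_pos.2 ⟨v, mem_filter.2 ⟨mem_univ _, h1.symm⟩⟩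
      have h4 : dg s.G w = 1 := by
        have := h.deg w
        rw [Co] at h2
        omega
      obtain rfl := h.leaf w h4
      rcases h.root with h5 | h5
      · exact ⟨mem_singleton.1 (h5.1 ▸ mem_filter.2 ⟨mem_univ _, h1.symm⟩), rfl⟩
      · rw [h5.1, h.iso] at h4
        omega
    · rintro ⟨rfl, rfl⟩
      have h5 := re_of h hv
      refine ⟨(mem_filter.1 (show s.ρ ∈ N s.G s.z from h5 ▸ mem_singleton_self _)).2.symm, ?_⟩
      rw [Co, dg, h5, card_singleton]
      omega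
  have e2 : (if v = s.ρ then 1 else 0) = ∑ w, if v = s.ρ ∧ w = s.z then 1 else 0 := by
    split_ifs with h1 <;> simp [h1]
  rw [e2]
  simp only [dg, N, df, dh, card_filter, ← sum_add_distrib, ← e]
  refine sum_congr rfl fun w _ => ?_
  by_cases h1 : s.G.Adj v w <;> by_cases h2 : Co s.G w <;> by_cases h3 : κ v = κ w <;>
    simp [Fc, Hc, hv, h1, h2, h3]

theorem t_flp (h : s.Ok) (κ : V → ZMod 2) (A : Finset V) {v : V} (hv : Co s.G v) :
    s.t (flp κ A) v = if v ∈ A then -1 - (if v = s.ρ then 1 else 0) - s.t κ v - bal s.G κ A v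
      else s.t κ v + bal s.G κ A v := by
  have hK : K s.G v := le_trans (by norm_num) hv
  have hd := deg_eq h κ hv
  have hU : ∀ κ', s.Ur κ' v ↔ v = s.ρ ∧ κ' v = s.τ := fun κ' => and_congr_right fun e => by
    subst e
    exact and_iff_right (mem_filter.1
      (show s.ρ ∈ N s.G s.z from re_of h hv ▸ mem_singleton_self _)).2
  simp only [Sg.t, tau, df_flp, hU, Wv, hK, true_and, Nat.even_iff]
  by_cases hA : v ∈ A
  · simp only [flp, if_pos hA, ne_eq, z1, not_not]
    have a1 : ∀ (q : Prop) [Decidable (dg s.G v % 2 = 0 ∧ q)] [Decidable (dg s.G v % 2 = 0 ∧ ¬q)],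
        ((if dg s.G v % 2 = 0 ∧ q then 1 else 0) + if dg s.G v % 2 = 0 ∧ ¬q then 1 else 0 : ℤ) =
          1 - dg s.G v % 2 := fun q _ _ => by
      by_cases h1 : q <;> by_cases h2 : dg s.G v % 2 = 0 <;> simp [h1, h2] <;> omega
    have a2 : ∀ (q : Prop) [Decidable (v = s.ρ ∧ q)] [Decidable (v = s.ρ ∧ ¬q)],
        ((if v = s.ρ ∧ q then 2 else 0) + if v = s.ρ ∧ ¬q then 2 else 0 : ℤ) =
          2 * if v = s.ρ then 1 else 0 := fun q _ _ => by
      by_cases h1 : q <;> by_cases h2 : v = s.ρ <;> simp [h1, h2]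
    have a3 := a1 (κ v = ((dg s.G v / 2 : ℕ) : ZMod 2))
    have a4 := a2 (κ v = s.τ)
    zify at hd
    omega
  · simp only [flp, if_neg hA]
    ring

theorem dl_eq (κ : V → ZMod 2) (X : Finset V) :
    s.Dl κ X = ∑ v ∈ X, (2 * s.t κ v + 1 + bal s.G κ X v) := by
  simp only [Sg.Dl, Dl, bal, Nat.cast_zero, sum_const_zero, add_zero, add_sub_assoc]

theorem dl_one (κ : V → ZMod 2) (v : V) : s.Dl κ {v} = 2 * s.t κ v + 1 := by
  simp [dl_eq, bal_eq, Fc, Hc]

theorem dl_par (κ : V → ZMod 2) (X : Finset V) : ((s.Dl κ X : ℤ) : ZMod 2) = #X := by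
  rw [dl_eq, sum_add_distrib, Int.cast_add, par_bal, sum_add_distrib, ← mul_sum]
  simp [show (2 : ZMod 2) = 0 from rfl]

/-- The potential. -/
def psi (s : Sg V) (κ : V → ZMod 2) : ℤ := ∑ v ∈ univ.filter (Co s.G), (2 * s.t κ v + df s.G κ v)

theorem psi_flp (h : s.Ok) (κ : V → ZMod 2) {A : Finset V} (hA : ∀ v ∈ A, Co s.G v) :
    psi s (flp κ A) = psi s κ - 2 * (s.Dl κ A + if s.ρ ∈ A then 1 else 0) := by
  have e : ∀ v ∈ univ.filter (Co s.G), 2 * s.t (flp κ A) v + df s.G (flp κ A) v =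
      2 * s.t κ v + df s.G κ v + bal s.G κ A v - if v ∈ A then (df s.G κ v - dh s.G κ v) +
        2 * (2 * s.t κ v + 1 + bal s.G κ A v + if v = s.ρ then 1 else 0) else 0 := fun v hv => by
    rw [t_flp h κ A (mem_filter.1 hv).2, df_flp]
    split_ifs <;> ring
  rw [psi, sum_congr rfl e, sum_sub_distrib, sum_add_distrib, ← psi, sum_bal, sum_ite_mem,
    inter_eq_right.2 fun v hv => mem_filter.2 ⟨mem_univ _, hA v hv⟩, sum_add_distrib, ← mul_sum,
    sum_add_distrib, sum_ite_eq', dl_eq]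
  ring

theorem co_sd {A X : Finset V} (hA : ∀ v ∈ A, Co s.G v) (hX : ∀ v ∈ X, Co s.G v) :
    ∀ v ∈ A ∆ X, Co s.G v := fun v hv =>
  (mem_symmDiff.1 hv).elim (fun e => hA v e.1) fun e => hX v e.1

theorem dl_flp (h : s.Ok) (κ : V → ZMod 2) {A X : Finset V} (hA : ∀ v ∈ A, Co s.G v)
    (hX : ∀ v ∈ X, Co s.G v) (hρ : s.ρ ∉ A) :
    s.Dl (flp κ A) X = s.Dl κ (A ∆ X) - s.Dl κ A := by
  have e := psi_flp h (flp κ A) hX
  rw [flp_flp, psi_flp h κ hA, psi_flp h κ (co_sd hA hX)] at e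
  simp only [mem_symmDiff, hρ, false_and, false_or, not_false_iff, and_true, if_false] at e
  omega

theorem sum_flp (κ : V → ZMod 2) {A : Finset V} (hA : ∀ v ∈ A, Co s.G v) :
    ∑ v ∈ univ.filter (K s.G), flp κ A v = ∑ v ∈ univ.filter (K s.G), κ v + (s.Dl κ A : ℤ) := by
  have e : ∀ v, flp κ A v = κ v + if v ∈ A then 1 else 0 := fun v => by
    unfold flp
    split_ifs <;> simp
  simp only [e, sum_add_distrib]
  rw [sum_ite_mem, inter_eq_right.2 fun v hv =>
    (mem_filter (p := K s.G)).2 ⟨mem_univ _, le_trans (by norm_num) (hA v hv)⟩, dl_par]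
  simp

end Flip

open Flip in
theorem flip : SFlip := by
  intro V _ s κ A h hA
  refine ⟨fun v hv => ?_, fun j hj hρ h0 => ⟨?_, fun X hX => ?_, ?_⟩⟩
  · rw [t_flp h κ A hv, bal]
    split_ifs <;> ring
  · rw [Sg.PR, sum_flp κ hA, h0, Int.cast_zero, add_zero]
    exact hj.1
  · rw [dl_flp h κ hA hX hρ, h0, sub_zero]
    exact hj.2.1 _ (co_sd hA hX)
  · rw [flp, if_neg hρ, hj.2.2]

open Flip in
theorem exist : SExist := by
  intro V _ s h
  by_contra hn
  rw [not_or] at hn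
  have hm : ∀ κ, (∀ κ', psi s κ' ≤ psi s κ) → ¬s.PR κ := fun κ hκ hp =>
    hn.1 ⟨_, κ, hp, fun X hX => by
      have := hκ (flp κ X)
      rw [psi_flp h κ hX] at this
      split_ifs at this <;> omega, rfl⟩
  obtain ⟨κ, hκ⟩ := Finite.exists_max (psi s)
  have h0 := hm κ hκ
  have h1 : ∀ X : Finset V, (∀ v ∈ X, Co s.G v) → 0 ≤ s.Dl κ X := fun X hX => by
    have e := psi_flp h κ hX
    have := hκ (flp κ X)
    by_contra hc
    have e1 : s.Dl κ X = -1 ∧ psi s (flp κ X) = psi s κ := by split_ifs at e <;> omega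
    refine hm (flp κ X) (fun κ' => e1.2 ▸ hκ κ') ?_
    rw [Sg.PR, sum_flp κ hX, e1.1]
    exact (z1 _ _).2 h0
  refine hn.2 ⟨κ, h0, fun v hv => ?_⟩
  have hv' : ∀ w ∈ ({v} : Finset V), Co s.G w := fun w hw => mem_singleton.1 hw ▸ hv
  have h2 := h1 _ hv'
  have h3 := dl_one (s := s) κ v
  refine ⟨by omega, fun hρ => by_contra fun hc => hn.1 ⟨_, flp κ {v}, ?_, fun X hX => ?_, rfl⟩⟩
  · rw [Sg.PR, sum_flp κ hv', show s.Dl κ {v} = 1 by omega]
    exact (z1 _ _).2 h0
  · rw [dl_flp h κ hv' hX fun e => hρ (mem_singleton.1 e).symm]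
    have := h1 _ (co_sd hv' hX)
    omega

end

end Pool.Agent.MP_d1f1f3_co.H2
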