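import Pool.Agent.MP_d1f1f3_co.H2.Spec2

/-!
The first choice of the main pairs and the classes.
-/

namespace Pool.Agent.MP_d1f1f3_co.H2

open Finset Relation H47
open scoped Classical

namespace Ga

variable {V : Type} [Fintype V] {c : Cx V} {d : Ds V} {v : V}

theorem deg (ho : Ori c.G c.A c.z c.ρ) (hv : K c.G v) : dg c.G v = #(c.Ri v) + #(Out c.A v) := by
  rw [dg, ← card_union_of_disjoint (s := c.Ri v) (t := Out c.A v) (disjoint_left.2 fun a h h' =>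
    ho.asym _ _ (mem_filter.1 h).2.1 (mem_filter.1 h').2)]
  congr 1
  ext w
  simp only [N, Cx.Ri, Out, mem_union, mem_filter, mem_univ, true_and]
  exact ⟨fun h => (ho.real _ _ h).symm.imp (fun a => ⟨a, h⟩) id,
    fun h => h.elim And.right (ho.outK _ _ hv)⟩

theorem inn (ho : Ori c.G c.A c.z c.ρ) (hv : K c.G v) (h : ¬(¬c.G.Adj c.z c.ρ ∧ v = c.ρ)) :
    Inn c.A v = c.Ri v := by
  ext w
  simp only [Cx.Ri, Inn, mem_filter, mem_univ, true_and]
  refine ⟨fun a => ⟨a, (ho.inK _ _ hv a).elim id ?_⟩, And.left⟩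
  rintro ⟨rfl, rfl⟩
  exact (not_not.1 fun b => h ⟨b, rfl⟩).symm

theorem zn (h : ¬c.G.Adj c.z c.ρ) : c.z ∉ c.Ri c.ρ := fun a => h (mem_filter.1 a).2.2.symm

theorem fake (ho : Ori c.G c.A c.z c.ρ) (h : ¬c.G.Adj c.z c.ρ) :
    #(Inn c.A c.ρ) = #(c.Ri c.ρ) + 1 := by
  rw [← card_insert_of_notMem (zn h)]
  congr 1
  ext w
  simp only [Cx.Ri, Inn, mem_insert, mem_filter, mem_univ, true_and]
  exact ⟨fun a => (ho.inK _ _ ho.kr a).symm.imp And.left fun b => ⟨a, b⟩,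
    fun a => a.elim (fun e => e ▸ ho.root) And.left⟩

theorem tv (ho : Ori c.G c.A c.z c.ρ) (h : Tv c.G c.A v) :
    Inn c.A v = c.Ri v ∧ c.To v ∧ (c.Ri v).Nonempty := by
  have h1 := deg ho h.1
  have h2 := ho.smooth v h.1
  have h3 := h.2
  have h4 : 2 ≤ dg c.G v := h.1
  have h5 : ¬(¬c.G.Adj c.z c.ρ ∧ v = c.ρ) := by
    rintro ⟨a, rfl⟩
    have := fake ho a
    omega
  rw [inn ho h.1 h5] at h3
  exact ⟨inn ho h.1 h5, ⟨show 3 ≤ _ by omega, Nat.odd_iff.2 (by omega), by omega⟩,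
    card_pos.1 (by omega)⟩

theorem fo_sub : c.Fo v ⊆ Out c.A v := monotone_filter_right _ fun _ _ h => h.1

theorem fi_sub : c.Fi v ⊆ c.Ri v := monotone_filter_right _ fun _ _ h => ⟨h.1, h.2.1⟩

theorem ii_sub (ho : Ori c.G c.A c.z c.ρ) (hk : c.Ok d) : c.II d v ⊆ c.Ri v := by
  unfold Cx.II
  split_ifs with h1 h2 h3
  · obtain ⟨a, rfl⟩ := h1
    exact singleton_subset_iff.2 (mem_filter.2 ⟨mem_univ _, ho.root, (hk.ub a).1.symm⟩)
  · exact subset_rfl
  · exact fi_sub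
  · exact filter_subset _ _

theorem oo_sub (hk : c.Ok d) : c.OO d v ⊆ Out c.A v := by
  unfold Cx.OO
  split_ifs with h1 h2 h3
  · exact filter_subset _ _
  · exact singleton_subset_iff.2 (fo_sub (hk.pij h3 v h2).1)
  · exact fo_sub
  · exact fo_sub
  · exact filter_subset _ _

theorem r2 (ho : Ori c.G c.A c.z c.ρ) (hk : c.Ok d) (h : c.R2 d v) :
    c.Ig d v = c.Ri v ∧ (c.Fo v).Nonempty := by
  obtain ⟨w, hw, -⟩ := h.2.2.2.2
  refine ⟨filter_true_of_mem fun a ha => ⟨fun b => ?_, fun b => ?_⟩, w, hw⟩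
  · obtain rfl := card_le_one.1 h.2.1.le a (mem_filter.2 ⟨mem_univ _, b⟩) w
      (mem_filter.2 ⟨mem_univ _, (mem_filter.1 hw).2.2⟩)
    exact ho.asym _ _ (mem_filter.1 ha).2.1 (mem_filter.1 hw).2.1
  · exact filter_eq_empty_iff.1 (card_eq_zero.1 (hk.r2 v h)) b rfl

theorem tcase (ho : Ori c.G c.A c.z c.ρ) (hk : c.Ok d) (h : c.To v) (hn : (c.Ri v).Nonempty) :
    (c.II d v).Nonempty ∧ (c.OO d v).Nonempty ∧
      (2 ≤ #(c.OO d v) ∨ c.Ri v ⊆ c.II d v ∨ (v = c.ρ ∧ c.z ∈ c.II d v)) := by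
  unfold Cx.II Cx.OO
  split_ifs with h1 h2 h3 h4
  · obtain ⟨a, rfl⟩ := h1
    exact ⟨singleton_nonempty _, (hk.ub a).2.2.2.1 h, .inr (.inr ⟨rfl, mem_singleton_self _⟩)⟩
  · exact ⟨hn, singleton_nonempty _, .inr (.inl subset_rfl)⟩
  · obtain ⟨a, b⟩ := (hk.pir h3 v h2).2 h
    exact ⟨b, card_pos.1 (by omega), .inl a⟩
  · rw [(r2 ho hk h4).1]
    exact ⟨hn, (r2 ho hk h4).2, .inr (.inl subset_rfl)⟩
  · obtain ⟨a, b, e⟩ := hk.pt v h ⟨h2, h1, h4⟩
    exact ⟨a, b, e.imp id .inl⟩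

theorem wcase (ho : Ori c.G c.A c.z c.ρ) (hk : c.Ok d) (h : c.Wc v) :
    #(c.Ri v \ c.II d v) + #(Out c.A v \ c.OO d v) < dg c.G v / 2 := by
  have h1 := deg ho h.2.1
  have h2 := ho.smooth v h.2.1
  have h3 := Nat.even_iff.1 h.2.2.1
  have hi := ii_sub (v := v) ho hk
  have hO := oo_sub (v := v) hk
  unfold Cx.II Cx.OO at *
  split_ifs at hi hO ⊢ with a1 a2 a3 a4
  · obtain ⟨a, rfl⟩ := a1
    obtain ⟨b1, b2⟩ := (hk.ub a).2.2.1 h
    have := card_lt_card (sdiff_ssubset hi (singleton_nonempty _))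
    rw [show c.Og d c.ρ = Out c.A c.ρ from filter_true_of_mem fun b _ =>
      ⟨fun e => filter_eq_empty_iff.1 (card_eq_zero.1 b1) e rfl,
        fun e => filter_eq_empty_iff.1 (card_eq_zero.1 b2) e rfl⟩, sdiff_self, bot_eq_empty,
      card_empty]
    omega
  · have := card_lt_card (sdiff_ssubset hO (singleton_nonempty _))
    rw [sdiff_self, bot_eq_empty, card_empty]
    omega
  · have b1 := (hk.pir a3 v a2).1 h
    have b2 : df c.G c.κ v ≤ #(c.Fo v) + #(c.Fi v) :=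
      (card_le_card fun w hw => mem_union.2 ((ho.real _ _ (mem_filter.1 hw).2.1).imp
        (fun e => mem_filter.2 ⟨mem_univ _, e, (mem_filter.1 hw).2⟩)
        fun e => mem_filter.2 ⟨mem_univ _, e, (mem_filter.1 hw).2⟩)).trans (card_union_le _ _)
    have := card_sdiff_add_card_eq_card hi
    have := card_sdiff_add_card_eq_card hO
    omega
  · have := card_lt_card (sdiff_ssubset hO (r2 ho hk a4).2)
    rw [(r2 ho hk a4).1, sdiff_self, bot_eq_empty, card_empty]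
    omega
  · exact hk.pw v h ⟨a2, a1, a4⟩

end Ga

open Ga

theorem ga : SGa := by
  intro hP hA V _ c d γ ho hp hk
  have hI : ∀ v, (if Co c.G v then c.II d v else c.Ri v) ⊆ c.Ri v := fun v => by
    split_ifs
    exacts [ii_sub ho hk, subset_rfl]
  have hO : ∀ v, (if Co c.G v then c.OO d v else Out c.A v) ⊆ Out c.A v := fun v => by
    split_ifs
    exacts [oo_sub hk, subset_rfl]
  obtain ⟨i, o, h1, h2, h3⟩ := hP V c.A (c.z, c.ρ) (K c.G) (Wv c.G c.κ) (Tv c.G c.A)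
    (fun v => if Co c.G v then c.II d v else c.Ri v)
    (fun v => if Co c.G v then c.OO d v else Out c.A v) (fun v h => ho.asym v v h h) ho.root
    ho.noin ho.rt (fun v h h' => Nat.not_odd_iff_even.2 h.2.1 (tv ho h').2.1.2.1)
    (fun v h => ⟨h.elim And.left And.left,
      (hI v).trans (monotone_filter_right _ fun _ _ h => h.1), hO v⟩)
    (fun v h => by
      have a1 := deg ho h
      have a2 := ho.smooth v h
      have a3 : 2 ≤ dg c.G v := h
      by_cases a : ¬c.G.Adj c.z c.ρ ∧ v = c.ρ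
      · obtain ⟨a, rfl⟩ := a
        have := fake ho a
        have := ho.fake a
        omega
      · rw [inn ho h a]
        omega)
    (fun v h => by
      obtain ⟨a1, a2, a3⟩ := tv ho h
      rw [if_pos a2.1, if_pos a2.1]
      exact ⟨h.2, a1 ▸ tcase ho hk a2 a3⟩)
    (fun v h => by
      by_cases a : ¬c.G.Adj c.z c.ρ ∧ v = c.ρ
      · obtain ⟨a, rfl⟩ := a
        obtain ⟨b1, b2, b3, b4⟩ := hk.rt a h
        refine .inr ⟨rfl, fun e => zn a (hI _ e), ?_⟩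
        simp only [if_pos b1, Cx.II, Cx.OO, if_neg b2.1, if_neg b2.2.1, if_neg b2.2.2]
        exact ⟨b3, b4⟩
      have a1 := deg ho h.1
      have a2 := ho.smooth v h.1
      have a3 : 2 ≤ dg c.G v := h.1
      have a4 := Nat.even_iff.1 h.2.1
      rw [inn ho h.1 a]
      refine .inl ⟨by omega, ?_⟩
      split_ifs with b
      · have := wcase ho hk ⟨b, h⟩
        omega
      · simp only [sdiff_self, bot_eq_empty, card_empty]
        omega)
  obtain ⟨a, s1, s2, s3⟩ := hA V c.G c.A c.z c.ρ c.κ γ i o ho hp (fun v h =>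
    ⟨(mem_filter.1 (hI v (h1 v h).1)).2.1, (mem_filter.1 (hI v (h1 v h).1)).2.2,
      (mem_filter.1 (hO v (h1 v h).2)).2⟩) h2
  have key : ∀ v, (⟨c, d, a, i, o⟩ : Fr V).Y v → (Wv c.G c.κ v ∨ Tv c.G c.A v) ∧
      a v (i v) = a v (o v) ∧ #((⟨c, d, a, i, o⟩ : Fr V).M v) = (dg c.G v + 1) / 2 + 1 := by
    rintro v ⟨b, j, hj⟩
    obtain ⟨e1, rfl, e3, e4⟩ :=
      ((s3 v (le_trans (by norm_num) b)).2 j).resolve_left (not_le.2 hj)
    exact ⟨e1, e3.symm, le_antisymm e4 hj⟩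
  refine ⟨a, i, o, ho, hk, s1, s2, fun v h => (s3 v h).1, fun v h => ?_,
    fun e h => h3 e (TransGen.mono (fun _ _ h => ⟨(key _ h.1).1, h.2⟩) _ _ h)⟩
  obtain ⟨e1, e2, e3⟩ := key v h
  have e4 := h1 v e1
  rw [if_pos h.1, if_pos h.1] at e4
  exact ⟨e1.imp (fun e => ⟨h.1, e⟩) fun e => (tv ho e).2.1, e2, e3, e4⟩

end Pool.Agent.MP_d1f1f3_co.H2
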