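import Pool.Agent.MP_d1f1f3_co.H2.Spec2

/-!
The final chains have no cycles, and the distinguished chain has the right parity.
-/

namespace Pool.Agent.MP_d1f1f3_co.H2

open Finset Relation H47
open scoped Classical

namespace Gc1

theorem z2 : (∀ a c d p : ZMod 2, a = d + p + 1 → c ≠ a → c = d + (p + 1) + 1) ∧
    ∀ d p : ZMod 2, 1 = d + p + 1 → p ≠ 1 → d = 0 := by decide

variable {V : Type} [Fintype V] {f : Fr V} {γ : ZMod 2} {i o : V → V}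

theorem fcs {u w : V} (h : Fc f.c.G f.c.κ u w) : Fc f.c.G f.c.κ w u :=
  ⟨h.1.symm, h.2.2.1, h.2.1, h.2.2.2.symm⟩

/-- The basic facts. -/
structure Bas (f : Fr V) : Prop where
  y : ∀ v, f.Y v → Co f.c.G v ∧ f.c.A (f.i v) v ∧ f.c.G.Adj v (f.i v) ∧ f.c.A v (f.o v) ∧
    f.c.G.Adj v (f.o v)
  p : ∀ v, f.Y v → v ∈ f.d.Pi → Fc f.c.G f.c.κ v (f.o v) ∧ ¬f.c.Ub f.d v
  n : ∀ v, f.NR v → v ∉ f.d.Pi ∧ ¬f.c.Ub f.d v ∧ Fc f.c.G f.c.κ v (f.o v) ∧
    ¬Fc f.c.G f.c.κ v (f.i v) ∧ (f.i v, v) ∉ f.d.P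
  u : ∀ v, f.UB v → f.i v = f.c.z ∧ (v, f.o v) ∉ f.d.P ∧ (v, f.o v) ∉ f.d.Fx
  pa : ∀ u w, (u, w) ∈ f.d.P → f.c.A u w ∧ Co f.c.G u ∧ ¬Fc f.c.G f.c.κ u w
  fa : ∀ u w, (u, w) ∈ f.d.Fx → f.c.A u w ∧ Co f.c.G u ∧ ¬Co f.c.G w
  z : ¬Co f.c.G f.c.z
  asym : ∀ u w, f.c.A u w → ¬f.c.A w u
  three : ∀ v ∈ f.d.Pi, ∀ w ∈ f.d.Pi, ∀ x ∈ f.d.Pi, f.c.A v w → ¬f.c.A w x

theorem bas (h : f.Mid γ) : Bas f := by
  have p : ∀ v, f.Y v → v ∈ f.d.Pi → f.o v ∈ f.c.Fo v := fun v hv hp => by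
    have h1 := (h.yc v hv).2.2.2.2
    rw [Cx.OO, if_neg (h.ok.pi v hp).2.2.2, if_pos hp] at h1
    split_ifs at h1 with hJ
    exacts [mem_singleton.1 h1 ▸ (h.ok.pij hJ v hp).1, h1]
  refine ⟨fun v hv => ?_, fun v hv hp => ⟨(mem_filter.1 (p v hv hp)).2.2, (h.ok.pi v hp).2.2.2⟩,
    fun v hv => ?_, fun v hv => ?_,
    fun u w e => ⟨(h.ok.pa _ e).1, (h.ok.pa _ e).2.1.2.1, fun k => (h.ok.pa _ e).2.1.2.2.2 k.2.2.2⟩,
    fun u w e => ⟨(h.ok.fa _ e).1, (h.ok.fa _ e).2.2⟩,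
    fun k => h.ori.kz (le_trans (by norm_num) k), h.ori.asym, fun v hv w hw x hx a b => ?_⟩
  · obtain ⟨-, -, -, h1, h2⟩ := h.yc v hv
    have a : f.c.A (f.i v) v ∧ f.c.G.Adj v (f.i v) := by
      rw [Cx.II] at h1
      split_ifs at h1 with hu hp hJ
      · rw [mem_singleton.1 h1, hu.2]
        exact ⟨h.ori.root, (h.ok.ub hu.1).1.symm⟩
      · exact (mem_filter.1 h1).2
      · exact ⟨(mem_filter.1 h1).2.1, (mem_filter.1 h1).2.2.1⟩
      · exact (mem_filter.1 (mem_filter.1 h1).1).2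
    have b : f.c.A v (f.o v) := by
      by_cases hp : v ∈ f.d.Pi
      · exact (mem_filter.1 (p v hv hp)).2.1
      rw [Cx.OO, if_neg hp] at h2
      split_ifs at h2
      exacts [(mem_filter.1 (mem_filter.1 h2).1).2, (mem_filter.1 h2).2.1,
        (mem_filter.1 (mem_filter.1 h2).1).2]
    exact ⟨hv.1, a.1, a.2, b, h.ori.outK v _ (le_trans (by norm_num) hv.1) b⟩
  · obtain ⟨-, -, -, h1, h2⟩ := h.yc v hv.1
    obtain ⟨-, -, a, b, -⟩ := id hv.2.1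
    rw [Cx.II, if_neg b, if_neg a] at h1
    rw [Cx.OO, if_neg b, if_neg a, if_pos hv.2.1] at h2
    exact ⟨a, b, (mem_filter.1 h2).2.2, (mem_filter.1 h1).2⟩
  · obtain ⟨-, -, -, h1, h2⟩ := h.yc v hv.1
    rw [Cx.II, if_pos hv.2] at h1
    rw [Cx.OO, if_pos hv.2] at h2
    exact ⟨mem_singleton.1 h1, (mem_filter.1 h2).2⟩
  · have := h.ok.pi2
    have := two_lt_card_iff.2 ⟨v, w, x, hv, hw, hx, by rintro rfl; exact h.ori.asym _ _ a a,
      by rintro rfl; exact h.ori.asym _ _ a b, by rintro rfl; exact h.ori.asym _ _ b b⟩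
    omega

theorem run (b : Bas f) {v : V} (h : f.Run v) : f.Y v ∧ v ∈ f.d.Pi ∧ ¬f.Bf v ∧
    Fc f.c.G f.c.κ v (f.o v) ∧ f.RV (f.i v) v := by
  rcases h with h | h
  · exact ⟨h.1, h.2.1, fun k => k.2.2.1 h, (b.p v h.1 h.2.1).1, Or.inl h.2.2⟩
  · exact ⟨h.1.1, h.1.2.1, fun k => k.2.1 h.1, (b.p v h.1.1 h.1.2.1).1,
      Or.inr (Or.inr ⟨Or.inl h.2.1, h.2.2.symm⟩)⟩

theorem rv (b : Bas f) {u w : V} (h : f.RV u w) : f.c.A u w := by
  rcases h with h | h | ⟨h, rfl⟩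
  exacts [(b.pa _ _ h).1, (b.fa _ _ h).1, (b.y _ (run b h).1).2.2.2.1]

/-- The kinds of merging vertices. -/
theorem kind (hp : f.Post i o) {v : V} (h : f.Y v) :
    (f.Bf v ∧ f.fi i v = i v ∧ f.fo o v = o v ∧ f.E (i v) v ∧ ¬Fc f.c.G f.c.κ v (i v) ∧
      f.E v (o v) ∧ ¬(f.Run (o v) ∧ v = f.o (o v))) ∨
    (f.Run v ∧ f.fi i v = f.o v ∧ f.fo o v = f.i v) ∨
    (¬f.Bf v ∧ ¬f.Run v ∧ (f.FFw v ∨ f.UB v ∨ f.NR v) ∧ f.fi i v = f.i v ∧ f.fo o v = f.o v) := by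
  by_cases h1 : f.Bf v
  · obtain ⟨x, y⟩ := hp.mem v h1
    exact Or.inl ⟨h1, if_pos h1, if_pos h1, (mem_filter.1 x).2.1, (mem_filter.1 x).2.2,
      (mem_filter.1 y).2⟩
  by_cases h2 : f.Run v
  · exact Or.inr (Or.inl ⟨h2, (if_neg h1).trans (if_pos h2), (if_neg h1).trans (if_pos h2)⟩)
  refine Or.inr (Or.inr ⟨h1, h2, ?_, (if_neg h1).trans (if_neg h2), (if_neg h1).trans (if_neg h2)⟩)
  by_contra k
  push Not at k
  exact h1 ⟨h, fun a => k.1 ⟨a, fun c => h2 (Or.inr c)⟩, fun a => h2 (Or.inl a), k.2⟩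

theorem arc (b : Bas f) (hp : f.Post i o) (v : V) (h : f.Y v) :
    f.E (f.fi i v) v ∧ f.E v (f.fo o v) := by
  obtain ⟨y1, y2, y3, y4, y5⟩ := b.y v h
  obtain ⟨-, e1, e2, k⟩ | ⟨k, e1, e2⟩ | ⟨-, k, k', e1, e2⟩ := kind hp h <;> rw [e1, e2]
  · exact ⟨k.1, k.2.2.1⟩
  · exact ⟨⟨y5.symm, Or.inr (Or.inr (Or.inr ⟨k, rfl⟩))⟩, y3, Or.inr (run b k).2.2.2.2⟩
  refine ⟨⟨y3.symm, Or.inl ⟨y2, ?_⟩⟩, y5, Or.inl ⟨y4, ?_⟩⟩
  · rintro (a | a | ⟨a, e⟩)
    · exact k (Or.inl ⟨h, by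
        rcases k' with k' | k' | k'
        exacts [k'.1.2.1, absurd ((b.u v k').1 ▸ (b.pa _ _ a).2.1) b.z, absurd a (b.n v k').2.2.2.2],
        a⟩)
    · exact (b.fa _ _ a).2.2 y1
    · obtain ⟨r1, r2, -, r3, -⟩ := run b a
      rcases k' with k' | k' | k'
      · rcases a with a | a
        · exact k'.2 ⟨k'.1, a, e.symm⟩
        · exact b.three _ a.2.1.2.1 _ r2 _ k'.1.2.1 (b.y _ r1).2.1 y2
      · exact b.z ((b.u v k').1 ▸ r1.1)
      · exact (b.n v k').2.2.2.1 (fcs (by rwa [← e] at r3))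
  · have : Fc f.c.G f.c.κ v (f.o v) ∨ f.UB v := by
      rcases k' with k' | k' | k'
      exacts [Or.inl (b.p v h k'.1.2.1).1, Or.inr k', Or.inl (b.n v k').2.2.1]
    rintro (a | a | ⟨a, -⟩)
    · exact this.elim (b.pa _ _ a).2.2 fun c => (b.u v c).2.1 a
    · exact this.elim (fun c => (b.fa _ _ a).2.2 c.2.2.1) fun c => (b.u v c).2.2 a
    · exact k a

variable (f) in
/-- The place of a vertex in a chain. -/
noncomputable def rk (v : V) : ℕ :=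
  if f.Bf v then 2 else if f.Rl v then 1 else if f.FFw v ∧ f.FFw (f.i v) then 4
    else if f.FFw v ∨ f.NR v then 3 else 0

theorem ex (b : Bas f) {v : V} (h : f.FFa v) : ¬f.Rl v := fun k => (b.pa _ _ k.2.2).2.2 (fcs h.2.2)

theorem rkB {v : V} (h : f.Bf v) : rk f v = 2 := if_pos h

theorem rkL {v : V} (h : f.Rl v) : rk f v = 1 := (if_neg fun k => k.2.2.1 h).trans (if_pos h)

theorem rkR (b : Bas f) {v : V} (h : f.FFr v) : rk f v = 0 := by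
  rw [rk, if_neg fun k => k.2.1 h.1, if_neg (ex b h.1), if_neg fun k => k.1.2 h,
    if_neg fun k => k.elim (fun k => k.2 h) fun k => (b.n v k).1 h.1.2.1]

theorem rkU (b : Bas f) {v : V} (h : f.UB v) : rk f v = 0 := by
  have := fun k => (b.p v h.1 k).2 h.2
  rw [rk, if_neg fun k => k.2.2.2.1 h, if_neg fun k => this k.2.1, if_neg fun k => this k.1.1.2.1,
    if_neg fun k => k.elim (fun k => this k.1.2.1) fun k => (b.n v k).2.1 h.2]

theorem rkW (b : Bas f) {v : V} (h : f.FFw v ∨ f.NR v) :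
    rk f v = if f.FFw v ∧ f.FFw (f.i v) then 4 else 3 := by
  rw [rk, if_neg fun k => h.elim (fun h => k.2.1 h.1) k.2.2.2.2,
    if_neg fun k => h.elim (fun h => ex b h.1 k) fun h => (b.n v h).1 k.2.1, if_pos h]

theorem rk3 (b : Bas f) {v : V} (h : f.FFw v ∨ f.NR v) : 3 ≤ rk f v := by
  rw [rkW b h]
  split_ifs <;> omega

theorem fout (b : Bas f) {v : V} (h : f.FFw v ∨ f.NR v) : Fc f.c.G f.c.κ v (f.o v) :=
  h.elim (fun h => (b.p v h.1.1 h.1.2.1).1) fun h => (b.n v h).2.2.1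

theorem step (b : Bas f) (hp : f.Post i o) {v w : V} (hv : f.Y v) (hw : f.Y w)
    (e1 : v = f.fi i w) (e2 : w = f.fo o v) : rk f v < rk f w ∨ (f.Bf v ∧ f.Bf w) := by
  have low : f.Run v → rk f v ≤ 1 := fun h => h.elim (fun h => (rkL h).le) fun h => by
    rw [rkR b h]; omega
  obtain ⟨k, a, -, -, c, -⟩ | ⟨k, a, -⟩ | ⟨-, -, k, a, -⟩ := kind hp hw <;> rw [a] at e1 <;>
    obtain ⟨l, -, a', -, -, -, c'⟩ | ⟨l, -, a'⟩ | ⟨-, -, l, -, a'⟩ := kind hp hv <;> rw [a'] at e2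
  · exact Or.inr ⟨l, k⟩
  · exact Or.inl (by have := low l; rw [rkB k]; omega)
  · rcases or_left_comm.1 l with l | l
    · exact Or.inl (by rw [rkB k, rkU b l]; omega)
    · exact absurd (fcs (fout b l)) (by rwa [← e2, e1])
  · exact absurd ⟨e2 ▸ k, by rwa [← e2]⟩ c'
  · rcases k with k | k
    · rcases l with l | l
      · exact absurd (run b (Or.inl k)).2.2.2.1 (by rw [← e1, e2]; exact (b.pa _ _ l.2.2).2.2)
      · exact Or.inl (by rw [rkL k, rkR b l]; omega)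
    · exact absurd (b.y w hw).2.2.2.1
        (b.three _ k.2.1.2.1 _ k.1.2.1 _ (e1 ▸ (run b l).2.1) (b.y w hw).2.1)
  · exact absurd (b.y w hw).2.2.2.1 (by rw [← e1, e2]; exact b.asym _ _ (b.y v hv).2.2.2.1)
  all_goals
    replace k := (or_left_comm.1 k).resolve_left fun k => b.z ((b.u w k).1 ▸ e1 ▸ hv.1)
    have h3 := rk3 b k
  · exact Or.inl (by rw [rkB l]; omega)
  · exact Or.inl (by have := low l; omega)
  rcases or_left_comm.1 l with l | l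
  · exact Or.inl (by rw [rkU b l]; omega)
  rcases k with k | k
  · rcases l with l | l
    · rw [rkW b (Or.inl l), if_neg fun m => b.three _ m.2.1.2.1 _ l.1.2.1 _ k.1.2.1
        (b.y v hv).2.1 (e2 ▸ (b.y v hv).2.2.2.1), rkW b (Or.inl k), if_pos ⟨k, e1 ▸ l⟩]
      omega
    · exact absurd ⟨e2 ▸ k.1, by rw [← e2, ← e1]⟩ l.2.2
  · exact absurd (fcs (fout b l)) (by rw [← e2, e1]; exact (b.n w k).2.2.2.1)

theorem nxt {e g : V × V} (h : Nxt f.Y (f.fi i) (f.fo o) e g) (k : f.Bf e.2) :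
    Nxt f.Bf i o e g :=
  ⟨k, h.2.1.trans (if_pos k), h.2.2.trans (congrArg _ (if_pos k))⟩

theorem acyc (b : Bas f) (hp : f.Post i o) (e : V × V) :
    ¬TransGen (Nxt f.Y (f.fi i) (f.fo o)) e e := by
  have one : ∀ {e g g' : V × V}, Nxt f.Y (f.fi i) (f.fo o) e g → Nxt f.Y (f.fi i) (f.fo o) g g' →
      rk f e.2 < rk f g.2 ∨ (Nxt f.Bf i o e g ∧ rk f e.2 = rk f g.2) := by
    intro e g g' h h'
    have := h.2.2
    subst this
    exact (step b hp h.1 h'.1 h'.2.1 rfl).imp_right fun k =>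
      ⟨nxt h k.1, (rkB k.1).trans (rkB k.2).symm⟩
  have all : ∀ g, TransGen (Nxt f.Y (f.fi i) (f.fo o)) e g → ∀ g', Nxt f.Y (f.fi i) (f.fo o) g g' →
      rk f e.2 < rk f g.2 ∨ (TransGen (Nxt f.Bf i o) e g ∧ rk f e.2 = rk f g.2) := by
    intro g h
    induction h with
    | single h => exact fun g' h' => (one h h').imp_right fun k => ⟨.single k.1, k.2⟩
    | tail _ h ih =>
      intro g' h'
      rcases ih _ h with k | k <;> rcases one h h' with l | l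
      exacts [Or.inl (by omega), Or.inl (by omega), Or.inl (by omega),
        Or.inr ⟨k.1.tail l.1, k.2.trans l.2⟩]
  intro h
  obtain ⟨g, hg, -⟩ := TransGen.head'_iff.1 h
  exact (all e h g hg).elim (lt_irrefl _) fun k => hp.acyc e k.1

end Gc1

open Gc1 in
theorem gc1 : SGc1 := by
  intro V _ f γ i o h hp
  have b := bas h
  refine ⟨⟨fun u w e => e.1, fun u w e => ?_, arc b hp, acyc b hp⟩, fun hs π hπ => ?_⟩
  · have := h.ori.real u w e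
    have := b.asym u w
    have := rv b (u := u) (w := w)
    have := rv b (u := w) (w := u)
    simp only [Fr.E, e, e.symm, true_and]
    grind
  obtain ⟨-, -, s1, s2, -, s3, s4, s5, s6, s7, s8, -⟩ := h.ok.st hs
  have inv : ∀ x, ReflTransGen (Nx2 f.Y (f.fi i) (f.fo o)) (f.d.e₂, 0) x → x = (f.d.e₂, 0) ∨
      (f.Y x.1.1 ∧ x.1.2 = f.fo o x.1.1 ∧ (3 ≤ rk f x.1.1 ∨ (f.Bf x.1.1 ∧
        ReflTransGen (Nxt f.Bf i o) f.d.e₂ x.1 ∧ f.c.κ x.1.1 = f.c.κ f.d.e₂.2 + x.2 + 1))) := by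
    intro x hx
    induction hx with
    | refl => exact Or.inl rfl
    | @tail x y _ hn ih =>
      obtain ⟨⟨x1, x2⟩, p⟩ := x
      obtain ⟨y, q⟩ := y
      obtain ⟨hn, rfl : q = p + 1⟩ := hn
      obtain ⟨hy, e1, rfl⟩ : f.Y x2 ∧ x1 = f.fi i x2 ∧ y = (x2, f.fo o x2) := id hn
      refine Or.inr ⟨hy, rfl, ?_⟩
      obtain ih | ⟨hx, e2, ih⟩ := ih
      · obtain ⟨e, rfl⟩ := Prod.mk.inj ih
        rw [← e] at s6 s8 ⊢
        obtain ⟨k, -⟩ | ⟨k, a, -⟩ | ⟨-, -, k, a, -⟩ := kind hp hy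
        · exact Or.inr ⟨k, .single (nxt hn k), by
            rw [zero_add, add_assoc, show (1 : ZMod 2) + 1 = 0 from rfl, add_zero]⟩
        · exact absurd (run b k).2.2.2.1.2.2.1 (by rwa [← a, ← e1])
        · rcases or_left_comm.1 k with k | k
          · exact absurd (e1.trans (a.trans (b.u _ k).1)) s8
          · exact Or.inl (rk3 b k)
      rcases step b hp hx hy e1 e2 with k | ⟨k, l⟩
      · refine Or.inl ?_
        rcases ih with ih | ih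
        · exact ih.trans k.le
        · rwa [show rk f x1 = 2 from rkB ih.1] at k
      · obtain ih | ⟨-, ih, hk⟩ := ih
        · rw [rkB k] at ih
          omega
        refine Or.inr ⟨l, ih.tail (nxt hn l), ?_⟩
        obtain ⟨m1, m2, m3⟩ := mem_filter.1 (hp.mem _ l).1
        rw [← e1.trans (if_pos l)] at m2 m3
        exact z2.1 _ _ _ _ hk fun e => m3 ⟨m2.1.symm, hy.1, hx.1, e⟩
  obtain e | ⟨hy, e, k | ⟨-, k, hk⟩⟩ := inv _ hπ
  · exact absurd s1 ((Prod.mk.inj e).1 ▸ s6)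
  · refine absurd ?_ s2
    obtain ⟨l, -⟩ | ⟨l, -⟩ | ⟨-, -, l, -, a⟩ := kind hp hy
    · rw [rkB l] at k
      omega
    · rcases l with l | l
      · rw [rkL l] at k
        omega
      · rw [rkR b l] at k
        omega
    · rcases or_left_comm.1 l with l | l
      · rw [rkU b l] at k
        omega
      · exact (e.trans a).symm ▸ (fout b l).2.2.1
  by_contra hne
  have k0 : f.c.κ f.d.e₂.2 = 0 := z2.2 _ _ (s3.symm.trans hk) hne
  have : f.d.e₂ ∈ Ret f.E f.Bf i o f.al f.om (none, 0) := by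
    simp only [Ret, mem_filter]
    exact ⟨mem_univ _, ⟨s5, Or.inl ⟨s4, by
      rintro (a | a | a)
      exacts [s6 (b.pa _ _ a).2.1, s6 (b.fa _ _ a).2.1, s6 (run b a.1).1.1]⟩⟩,
      fun a => s6 a.1.1.1, by rw [Fr.al, if_pos s6, if_pos ⟨hs, rfl, k0⟩], f.d.e₁, k,
      fun a => s2 a.1.1.1, by rw [Fr.om, if_pos s2, if_pos ⟨hs, rfl⟩]⟩
  have h1 := card_pos.2 ⟨_, this⟩
  have h2 := hp.ret (none, 0)
  rw [Fr.sp, if_pos rfl] at h2
  exact absurd (h1.trans_le h2) (lt_irrefl 0)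

end Pool.Agent.MP_d1f1f3_co.H2
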