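import Pool.Agent.MP_d1f1f3_co.H2.Gc2a

/-!
Counting the useful first arcs.
-/

namespace Pool.Agent.MP_d1f1f3_co.H2

open Finset Relation H47
open scoped Classical

namespace Gc2

variable {V : Type} [Fintype V] {f : Fr V} {γ : ZMod 2} {i o : V → V}

/-- First arcs. -/
def Fst (f : Fr V) (o : V → V) (p b : V) : Prop := f.E p b ∧ ¬(f.Y p ∧ b = f.fo o p)

/-- The two kinds of starts. -/
def Beg (f : Fr V) (p b : V) (s : V × V) (a : ZMod 2) : Prop :=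
  (a = 0 ∧ f.al s = some (some p, 0) ∧ b = if s.1 = p then s.2 else f.o s.1) ∨
  (a = 1 ∧ f.al s = some (some p, 1) ∧ b ∈ f.Op p ∧ f.Rl b ∧ f.o b = p)

theorem pay (h : f.Mid γ) (hC : Chs f.c.G f.E f.Y (f.fi i) (f.fo o)) {x : V} (hx : f.Rl x) :
    St f (x, f.i x) ∧ f.al (x, f.i x) = some (f.tgt x) := by
  have h1 := (hC.arc x hx.1).2
  rw [fo_run (.inl hx)] at h1
  refine ⟨⟨h1, hx.1.1, fun h2 => rl_nF h hx (fsym ?_), fun h2 => kp_nr h h2.1 (.inl hx)⟩, ?_⟩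
  · have h3 := (mem_Fo.1 (run_o h h2.1)).2
    rwa [← show x = f.o (f.i x) from h2.2] at h3
  · rw [Fr.al, if_neg (not_not.2 hx.1.1), if_pos ⟨hx, rfl⟩]

theorem start (h : f.Mid γ) (hC : Chs f.c.G f.E f.Y (f.fi i) (f.fo o)) {p b : V} {π : ZMod 2}
    {e : V × V} (hp : Co f.c.G p) (hf : Fst f o p b) (hc : Ch f i o ((p, b), 0) (e, π))
    (hl : Lst f i e) : ∃ s a, St f s ∧ ¬(f.Bf s.1 ∧ s.2 = o s.1) ∧ f.c.κ s.1 = f.c.κ p ∧
      Ch f i o (s, a) (e, π) ∧ Beg f p b s a := by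
  by_cases hr : f.Run b ∧ p = f.o b
  · obtain ⟨hr, rfl⟩ := hr
    have hc1 := step hc hl (run_pi hr).1 (fi_run hr).symm
    have a1 := mem_Fo.1 (run_o h hr)
    rw [fo_run hr, zero_add] at hc1
    rcases hr with hx | hv
    · obtain ⟨b1, b2⟩ := pay h hC hx
      have e1 : f.tgt b = (some (f.o b), 1) := if_neg fun h1 =>
        hf.2 ⟨h1.1.1.1, h1.2.symm.trans (fo_run (.inr h1.1)).symm⟩
      exact ⟨_, _, b1, fun h1 => run_nb (.inl hx) h1.1, a1.2.2.2.2, hc1,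
        .inr ⟨rfl, e1 ▸ b2, mem_filter.2 ⟨mem_univ _, hx, e1⟩, hx, rfl⟩⟩
    · have hx := hv.2.1
      have hc2 := step hc1 hl hx.1 (hv.2.2.symm.trans (fi_run (.inl hx)).symm)
      have a2 := mem_Fo.1 (run_o h (.inl hx))
      rw [hv.2.2] at a2
      rw [fo_run (.inl hx)] at hc2
      obtain ⟨b1, b2⟩ := pay h hC hx
      have e1 : f.tgt (f.i b) = (some (f.o b), 0) := by
        rw [Fr.tgt, hv.2.2, if_pos ⟨hv, rfl⟩]
      refine ⟨_, _, b1, fun h1 => run_nb (.inl hx) h1.1, a2.2.2.2.2.trans a1.2.2.2.2, hc2,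
        .inl ⟨by decide, e1 ▸ b2, ?_⟩⟩
      rw [if_neg fun h1 : f.i b = f.o b => h.ori.asym _ _ a1.1 (h1 ▸ a2.1)]
      exact hv.2.2.symm
  · have hk : ¬(Kp f p ∧ b = f.o p) := fun h1 =>
      hf.2 ⟨kp_y h1.1, h1.2.trans (fo_kp h h1.1).symm⟩
    refine ⟨_, _, ⟨hf.1, hp, hr, hk⟩, fun h1 => hf.2 ⟨h1.1.1, h1.2.trans (fo_bf h1.1).symm⟩, rfl,
      hc, .inl ⟨rfl, ?_, (if_pos rfl).symm⟩⟩
    rw [Fr.al, if_neg (not_not.2 hp),
      if_neg fun h1 => hf.2 ⟨h1.1.1, h1.2.trans (fo_run (.inl h1.1)).symm⟩,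
      if_neg fun h1 => h1.elim hr hk]

theorem chain (h : f.Mid γ) (hP : f.Post i o) (hC : Chs f.c.G f.E f.Y (f.fi i) (f.fo o)) {p b : V}
    {π : ZMod 2} {e : V × V} (hp : Co f.c.G p) (hf : Fst f o p b)
    (hc : Ends f.Y (f.fi i) (f.fo o) (p, b) e π) (he : Co f.c.G e.2) (hκ : f.c.κ e.2 = f.c.κ p) :
    ∃ s l a, (∀ l', f.al s = some l' → l = some l' → s ∈ Ret f.E f.Bf i o f.al f.om l') ∧
      Kind f l e (a + π) ∧ Beg f p b s a := by
  obtain ⟨s, a, b1, b2, b3, b4, b5⟩ := start h hC hp hf hc.1 hc.2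
  obtain ⟨⟨y, b'⟩, a', c1, c2, c3, c4, c5⟩ := piece hP hc.2 b4 b1
  have h1 := suffix h hP hC c5 hc.2 c3 c2 he
  have h2 : ∀ u a π : ZMod 2, u + a + (u + π) = a + π := by decide
  rw [show f.c.κ y + a' = f.c.κ s.1 + a from c4, b3, hκ, h2] at h1
  refine ⟨s, _, a, fun l' d1 d2 => ?_, h1, b5⟩
  simp only [Ret, mem_filter, mem_univ, true_and]
  exact ⟨b1.arc, b2, d1, _, c1, c2, d2⟩

theorem dz_mem {u p : V} (h : f.dz u = some p) : p ∈ f.c.Fo u := by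
  unfold Fr.dz at h
  split_ifs at h with h1 h2
  · exact Option.some.inj h ▸ (mem_filter.1 h1.choose_spec.1).1
  · exact Option.some.inj h ▸ (mem_filter.1 h2.choose_spec.1).1

/-- First arcs that are counted as returns. -/
def Bad (f : Fr V) (i o : V → V) (p b : V) : Prop :=
  ∃ e π, Ends f.Y (f.fi i) (f.fo o) (p, b) e π ∧ ((π = 1 ∧ e.2 = p) ∨
    (π = 0 ∧ f.Des e.1 e.2 ∧ f.Op e.2 = ∅ ∧ f.dz e.2 = some p) ∨
    (π = 0 ∧ f.NR p ∧ e = (p, f.o p)))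

theorem no_nr (h : f.Mid γ) {x y : V} (hx : f.Rl x) (hy : f.NR y) : f.o y ≠ f.o x := fun e => by
  have a1 := mem_Fo.1 (run_o h (.inl hx))
  have a2 := mem_Fo.1 (nr_o h hy)
  have hxy : x ≠ y := fun h1 => hy.2.1.2.2.1 (h1 ▸ hx.2.1)
  obtain ⟨w, hw, h1⟩ := hy.2.1.2.2.2.2
  obtain rfl : w = f.o x := (df_one hy.2.1.2.1 (mem_Fo.1 hw).2 a2.2).trans e
  rw [e] at a2
  rcases h1 with h1 | ⟨h1, h2, -⟩
  · exact hxy (df_one h1 (fsym a1.2) (fsym a2.2))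
  · have a3 := mem_Fo.1 (h.ok.pij (rl_J h hx) _ h1).1
    have h3 : ({x, y, f.d.oc (f.o x)} : Finset V) ⊆
        univ.filter fun w => Fc f.c.G f.c.κ (f.o x) w := by
      simp only [insert_subset_iff, singleton_subset_iff, mem_filter, mem_univ, true_and]
      exact ⟨fsym a1.2, fsym a2.2, a3.2⟩
    have h4 := (card_le_card h3).trans h2.le
    rw [card_eq_three.2 ⟨_, _, _, hxy, fun h5 => h.ori.asym _ _ a1.1
      (by rw [← h5] at a3; exact a3.1), fun h5 => h.ori.asym _ _ a2.1 (by rw [← h5] at a3; exact a3.1), rfl⟩] at h4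
    omega

theorem bad_mem (h : f.Mid γ) (hP : f.Post i o) (hC : Chs f.c.G f.E f.Y (f.fi i) (f.fo o))
    {p b : V} (hp : Co f.c.G p) (hf : Fst f o p b) (hb : Bad f i o p b) :
    ∃ s ∈ Ret f.E f.Bf i o f.al f.om (some p, 0), b = if s.1 = p then s.2 else f.o s.1 := by
  obtain ⟨⟨y, w⟩, π, hc, hb⟩ := hb
  have h10 : (1 : ZMod 2) ≠ 0 := one_ne_zero
  have h11 : (1 + 1 : ZMod 2) ≠ 1 := by decide
  have h12 : (1 + 0 : ZMod 2) ≠ 0 := by decide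
  have h13 : (0 + 1 : ZMod 2) ≠ 0 := by decide
  have h14 : (0 + 0 : ZMod 2) ≠ 1 := by decide
  have r1 : ∀ s, s ∉ Ret f.E f.Bf i o f.al f.om (some p, 1) := fun s hs => by
    have h1 := hP.ret (some p, 1)
    rw [Fr.sp, if_neg h10] at h1
    exact absurd (card_pos.2 ⟨s, hs⟩) (not_lt.2 h1)
  rcases hb with ⟨rfl, rfl⟩ | ⟨rfl, d1, d2, d3⟩ | ⟨rfl, d1, d2⟩
  · obtain ⟨s, l, a, c1, c2, ⟨rfl, c3, c4⟩ | ⟨rfl, c3, c4, c5, c6⟩⟩ :=
      chain h hP hC hp hf hc hp rfl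
    · rcases c2 with c2 | c2 | c2
      · exact ⟨s, c1 _ c3 c2.2.1, c4⟩
      · exact absurd c2.1 h13
      · exact absurd c2.1 h13
    · rcases c2 with c2 | c2 | c2
      · exact absurd c2.1 h11
      · exact absurd (c1 _ c3 (c2.2.1.trans (if_pos ⟨b, c4⟩))) (r1 s)
      · exact absurd (c2.2.2.2.trans c6.symm) (no_nr h c5 c2.2.2.1)
  · have a1 := (mem_Fo.1 (dz_mem d3)).2
    have a2 := mem_Fod.1 d1.1
    obtain ⟨s, l, a, c1, c2, ⟨rfl, c3, c4⟩ | ⟨rfl, c3, c4, c5, c6⟩⟩ :=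
      chain h hP hC hp hf hc a1.2.1 a1.2.2.2
    · rcases c2 with c2 | c2 | c2
      · exact absurd c2.1 h14
      · refine ⟨s, c1 _ c3 (c2.2.1.trans ?_), c4⟩
        rw [Fr.od, if_neg (d2 ▸ not_nonempty_empty), if_pos d1, d3]
        rfl
      · exact absurd c2.2.2.1 a2.2.2.2.2.2
    · rcases c2 with c2 | c2 | c2
      · exact c2.2.2.elim (fun c7 => absurd (fsym a2.2.1) c7.2) fun c7 => absurd c7 a2.2.2.2.1
      · exact absurd c2.1 h12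
      · exact absurd c2.1 h12
  · obtain ⟨rfl, rfl⟩ := Prod.mk.inj d2
    have a1 := (mem_Fo.1 (nr_o h d1)).2
    obtain ⟨s, l, a, c1, c2, ⟨rfl, c3, c4⟩ | ⟨rfl, c3, c4, c5, c6⟩⟩ :=
      chain h hP hC hp hf hc a1.2.2.1 a1.2.2.2.symm
    · rcases c2 with c2 | c2 | c2
      · exact absurd c2.1 h14
      · exact absurd d1 (mem_Fod.1 c2.2.2).2.2.2.2.2
      · exact ⟨s, c1 _ c3 c2.2.1, c4⟩
    · rcases c2 with c2 | c2 | c2
      · exact c2.2.2.elim (fun c7 => absurd a1 c7.2) fun c7 => absurd c7.1.1.2.1 d1.2.1.2.2.1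
      · exact absurd c2.1 h12
      · exact absurd c2.1 h12

/-- First arcs that are not counted as returns. -/
noncomputable def Gd (f : Fr V) (i o : V → V) (p : V) : Finset V :=
  univ.filter fun b => Fst f o p b ∧ ¬Bad f i o p b

theorem base_le (h : f.Mid γ) (hP : f.Post i o) (hC : Chs f.c.G f.E f.Y (f.fi i) (f.fo o)) {p : V}
    (hp : Co f.c.G p) : f.base p ≤ #(Gd f i o p) := by
  have h1 : Out f.E p ⊆ (Gd f i o p ∪ (Ret f.E f.Bf i o f.al f.om (some p, 0)).image fun s =>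
      if s.1 = p then s.2 else f.o s.1) ∪ (if f.Y p then {f.fo o p} else ∅) := fun b hb => by
    have hE : f.E p b := (mem_filter.1 hb).2
    by_cases h2 : f.Y p ∧ b = f.fo o p
    · exact mem_union_right _ (by rw [if_pos h2.1]; exact mem_singleton.2 h2.2)
    by_cases h3 : Bad f i o p b
    · obtain ⟨s, hs, e⟩ := bad_mem h hP hC hp ⟨hE, h2⟩ h3
      exact mem_union_left _ (mem_union_right _ (mem_image.2 ⟨s, hs, e.symm⟩))
    · exact mem_union_left _ (mem_union_left _ (mem_filter.2 ⟨mem_univ _, ⟨hE, h2⟩, h3⟩))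
  have h2 := (card_le_card h1).trans ((card_union_le _ _).trans
    (Nat.add_le_add_right ((card_union_le _ _).trans (Nat.add_le_add_left
      (card_image_le.trans (hP.ret (some p, 0))) _)) _))
  have h3 : f.sp (some p, 0) = f.R p := if_pos rfl
  rw [h3] at h2
  unfold Fr.base
  split_ifs at h2 ⊢
  · rw [card_singleton] at h2
    omega
  · rw [card_empty] at h2
    omega

theorem gd_tks {p b : V} (hb : b ∈ Gd f i o p) : b ∈ Tks f.E f.Y (f.fi i) (f.fo o) p := by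
  obtain ⟨h1, h2⟩ := (mem_filter.1 hb).2
  exact mem_filter.2 ⟨mem_univ _, h1.1, h1.2, fun ⟨e, h3, h4⟩ => h2 ⟨e, 1, h3, .inl ⟨rfl, h4⟩⟩⟩

theorem uniq {Y : V → Prop} {s s' e : V × V} {a a' π : ZMod 2} (hs : ¬(Y s.1 ∧ s.2 = o s.1))
    (hs' : ¬(Y s'.1 ∧ s'.2 = o s'.1)) (h : ReflTransGen (Nx2 Y i o) (s, a) (e, π))
    (h' : ReflTransGen (Nx2 Y i o) (s', a') (e, π)) : s = s' := by
  have k : ∀ {x y : (V × V) × ZMod 2}, Nx2 Y i o x y → Y y.1.1 ∧ y.1.2 = o y.1.1 := fun h1 => by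
    rw [h1.1.2.2]
    exact ⟨h1.1.1, rfl⟩
  generalize (e, π) = x at h h'
  induction h with
  | refl =>
    rcases h'.cases_tail with h1 | ⟨c, -, h1⟩
    · exact (Prod.mk.inj h1).1
    · exact absurd (k h1) hs
  | @tail x y _ h2 ih =>
    rcases h'.cases_tail with h1 | ⟨c, h3, h1⟩
    · exact absurd (h1 ▸ k h2 : Y (s', a').1.1 ∧ (s', a').1.2 = o (s', a').1.1) hs'
    · have e1 : c.1.2 = x.1.2 := (Prod.mk.inj (h1.1.2.2.symm.trans h2.1.2.2)).1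
      obtain rfl : c = x := Prod.ext (Prod.ext (by rw [h1.1.2.1, h2.1.2.1, e1]) e1)
        (add_right_cancel (h1.2.symm.trans h2.2))
      exact ih h3

theorem rl_in (h : f.Mid γ) {y w : V} (hw : f.Rl w) (hE : f.E y w) : Fc f.c.G f.c.κ y w := by
  by_contra hF
  obtain ⟨-, p1, p2, -⟩ := h.ok.pi w hw.2.1
  obtain ⟨-, -, -, p3, p4⟩ := h.ok.pij (rl_J h hw) w hw.2.1
  have p5 := (p4 (le_antisymm p3 (card_pos.2 ⟨_, mem_filter.2 ⟨hw.2.2, rfl⟩⟩))).1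
  rcases hE.2 with ⟨h1, h2⟩ | h1 | h1 | h1
  · exact notMem_empty y (p5 ▸ mem_filter.2 ⟨mem_filter.2 ⟨mem_univ _, h1, hE.1.symm⟩,
      fun h3 => hF (fsym h3), fun h3 => h2 (.inl h3)⟩)
  · exact filter_eq_empty_iff.1 (card_eq_zero.1 p1) h1 rfl
  · exact filter_eq_empty_iff.1 (card_eq_zero.1 p2) h1 rfl
  · exact hF (h1.2 ▸ fsym (mem_Fo.1 (run_o h h1.1)).2)

theorem vd_cases (h : f.Mid γ) (hP : f.Post i o) (hC : Chs f.c.G f.E f.Y (f.fi i) (f.fo o))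
    {u w b y : V} (hF : Fc f.c.G f.c.κ u w) (hb : b ∈ Gd f i o u)
    (hc : Ends f.Y (f.fi i) (f.fo o) (u, b) (y, w) 0) :
    y ∈ f.E1 u w ∨ y ∈ f.E2 u w ∨ (b ∈ f.Op u ∧ (f.Rl w → y ∈ f.E3 w)) := by
  obtain ⟨h1, h2⟩ := (mem_filter.1 hb).2
  obtain ⟨s, l, a, -, c2, ⟨rfl, -⟩ | ⟨rfl, -, c4, -⟩⟩ :=
    chain h hP hC hF.2.1 h1 hc hF.2.2.1 hF.2.2.2.symm
  · rcases c2 with c2 | c2 | c2
    · exact absurd c2.1 (by decide)
    · exact .inl (mem_filter.2 ⟨c2.2.2, fun h3 => h2 ⟨_, _, hc, .inr (.inl ⟨rfl, h3⟩)⟩⟩)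
    · refine .inr (.inl (mem_filter.2 ⟨mem_univ _, c2.2.2.1, c2.2.2.2, fun h3 => ?_⟩))
      subst h3
      exact h2 ⟨_, _, hc, .inr (.inr ⟨rfl, c2.2.2.1, Prod.ext rfl c2.2.2.2.symm⟩)⟩
  · rcases c2 with c2 | c2 | c2
    · exact .inr (.inr ⟨c4, fun hw => c2.2.2.elim (fun h3 => absurd (rl_in h hw h3.1) h3.2)
        fun h3 => mem_filter.2 ⟨mem_univ _, h3⟩⟩)
    · exact absurd c2.1 (by decide)
    · exact absurd c2.1 (by decide)

theorem v1 (h : f.Mid γ) (hP : f.Post i o) (hC : Chs f.c.G f.E f.Y (f.fi i) (f.fo o)) {u w : V}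
    (hF : Fc f.c.G f.c.κ u w) : #(Gd f i o u) ≤ f.val i o u w + #(f.E1 u w) + #(f.E2 u w) +
      if f.Rl w then min #(f.Op u) #(f.E3 w) else #(f.Op u) := by
  let r : V → V → Prop := fun b y => Ends f.Y (f.fi i) (f.fo o) (u, b) (y, w) 0
  let S : Finset V → Finset V := fun T => (Gd f i o u).filter fun b => ∃ y ∈ T, r b y
  have hS : ∀ T, #(S T) ≤ #T := fun T => card_le_card_of_forall_subsingleton r
    (fun b hb => (mem_filter.1 hb).2) fun y _ b hb b' hb' => (Prod.mk.inj (uniq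
      (mem_filter.1 (mem_filter.1 hb.1).1).2.1.2 (mem_filter.1 (mem_filter.1 hb'.1).1).2.1.2
      hb.2.1 hb'.2.1)).2
  let T : Finset V := if f.Rl w then f.Op u ∩ S (f.E3 w) else f.Op u
  have h1 : Gd f i o u ⊆ (((Tks f.E f.Y (f.fi i) (f.fo o) u).filter fun b =>
      ¬Vd f.Y (f.fi i) (f.fo o) (u, b) w) ∪ S (f.E1 u w) ∪ S (f.E2 u w)) ∪ T := fun b hb => by
    by_cases hv : Vd f.Y (f.fi i) (f.fo o) (u, b) w
    · obtain ⟨⟨y, w⟩, hc, rfl⟩ := hv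
      rcases vd_cases h hP hC hF hb hc with h2 | h2 | h2
      · exact mem_union_left _ (mem_union_left _ (mem_union_right _
          (mem_filter.2 ⟨hb, y, h2, hc⟩)))
      · exact mem_union_left _ (mem_union_right _ (mem_filter.2 ⟨hb, y, h2, hc⟩))
      · refine mem_union_right _ ?_
        simp only [T]
        split_ifs with h3
        · exact mem_inter.2 ⟨h2.1, mem_filter.2 ⟨hb, y, h2.2 h3, hc⟩⟩
        · exact h2.1
    · exact mem_union_left _ (mem_union_left _ (mem_union_left _ (mem_filter.2 ⟨gd_tks hb, hv⟩)))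
  refine (card_le_card h1).trans ((card_union_le _ _).trans (Nat.add_le_add
    ((card_union_le _ _).trans (Nat.add_le_add ((card_union_le _ _).trans
      (Nat.add_le_add le_rfl (hS _))) (hS _))) ?_))
  simp only [T]
  split_ifs
  · exact le_min (card_le_card inter_subset_left) ((card_le_card inter_subset_right).trans (hS _))
  · exact le_rfl

theorem v2 (h : f.Mid γ) (hP : f.Post i o) (hJ : ¬f.d.J) {r b s : V} (hr : f.d.v₀ = some r)
    (hb : b ∈ f.c.Fo r) (hn : ¬(f.Y r ∧ b = f.o r)) (hs : s ≠ b) : 1 ≤ f.val i o r s := by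
  obtain ⟨a1, a2⟩ := mem_Fo.1 hb
  obtain ⟨-, n1, -, n2⟩ := h.ok.nj hJ
  have nr : ∀ v, ¬f.Run v := fun v hv => hJ (hv.elim (rl_J h) fun h1 => rl_J h h1.2.1)
  have l : Lst f i (r, b) := fun h1 =>
    a2.1.ne (Option.some.inj (hr.symm.trans (n1 b (contA h hP hb h1.1 h1.2).1.1.2.1)))
  refine card_pos.2 ⟨b, mem_filter.2 ⟨mem_filter.2 ⟨mem_univ _, ⟨a2.1, .inl ⟨a1, ?_⟩⟩,
    fun h1 => hn ⟨h1.1, h1.2.trans (fo_kp h ?_)⟩, fun ⟨e, h1, _⟩ => ?_⟩, fun ⟨e, h1, h2⟩ => ?_⟩⟩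
  · rintro (h1 | h1 | h1)
    · exact (h.ok.pa _ h1).2.1.2.2.2 a2.2.2.2
    · exact (h.ok.fa _ h1).2.2.2 a2.2.2.1
    · exact nr r h1.1
  · exact ((n2 r hr).2.2.2.1 (h.yc r h1.1).1).elim
      (fun h2 => .inl ⟨nj_ffa h hJ h1.1 h2, fun h3 => nr r (.inr h3)⟩)
      fun h2 => .inr (.inl ⟨h1.1, h2⟩)
  · exact one_ne_zero (stop h1.1 l).2
  · exact hs (h2.symm.trans (congrArg Prod.snd (stop h1.1 l).1))

end Gc2

open Gc2 in
theorem gc2 : SGc2 := fun _ _ _ _ _ _ h hP hC =>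
  ⟨fun _ hv => (base_le h hP hC hv).trans (Int.ofNat_le.2 (card_le_card fun _ => gd_tks)),
    fun _ _ hF => (base_le h hP hC hF.2.1).trans (by exact_mod_cast v1 h hP hC hF),
    fun hJ _ hr _ hb hn _ hs => v2 h hP hJ hr hb hn hs⟩

end Pool.Agent.MP_d1f1f3_co.H2
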