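import Pool.Agent.MP_d1f1f3_co.H2.Spec2

/-!
The shape of the final chains.
-/

namespace Pool.Agent.MP_d1f1f3_co.H2.Gc2

open Finset Relation H47
open scoped Classical

variable {V : Type} [Fintype V] {f : Fr V} {γ : ZMod 2} {i o : V → V}

theorem fsym {G : SimpleGraph V} {κ : V → ZMod 2} {u w : V} (h : Fc G κ u w) : Fc G κ w u :=
  ⟨h.1.symm, h.2.2.1, h.2.1, h.2.2.2.symm⟩

theorem mem_Fo {c : Cx V} {v b : V} : b ∈ c.Fo v ↔ c.A v b ∧ Fc c.G c.κ v b := by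
  simp only [Cx.Fo, mem_filter, mem_univ, true_and]

theorem z2 : ∀ a b : ZMod 2, a ≠ b → b = a + 1 := by decide

theorem pi_nub (h : f.Mid γ) {v : V} (hv : v ∈ f.d.Pi) : ¬f.c.Ub f.d v := (h.ok.pi v hv).2.2.2

theorem pi_o (h : f.Mid γ) {v : V} (hy : f.Y v) (hv : v ∈ f.d.Pi) : f.o v ∈ f.c.Fo v := by
  have h1 := (h.yc v hy).2.2.2.2
  rw [Cx.OO, if_neg (pi_nub h hv), if_pos hv] at h1
  by_cases hJ : f.d.J
  · rw [if_pos hJ, mem_singleton] at h1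
    exact h1 ▸ (h.ok.pij hJ v hv).1
  · rwa [if_neg hJ] at h1

theorem nj_ffa (h : f.Mid γ) (hJ : ¬f.d.J) {v : V} (hy : f.Y v) (hv : v ∈ f.d.Pi) : f.FFa v := by
  have h1 := (h.yc v hy).2.2.2.1
  rw [Cx.II, if_neg (pi_nub h hv), if_pos hv, if_neg hJ, Cx.Fi, mem_filter] at h1
  exact ⟨hy, hv, h1.2.2⟩

theorem rl_nF (h : f.Mid γ) {v : V} (hv : f.Rl v) : ¬Fc f.c.G f.c.κ v (f.i v) := fun h1 =>
  (h.ok.pa _ hv.2.2).2.1.2.2.2 h1.2.2.2.symm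

theorem rl_J (h : f.Mid γ) {v : V} (hv : f.Rl v) : f.d.J :=
  by_contra fun hJ => rl_nF h hv (nj_ffa h hJ hv.1 hv.2.1).2.2

theorem nr_i (h : f.Mid γ) {v : V} (hv : f.NR v) : ¬Fc f.c.G f.c.κ v (f.i v) := by
  have h1 := (h.yc v hv.1).2.2.2.1
  rw [Cx.II, if_neg hv.2.1.2.2.2.1, if_neg hv.2.1.2.2.1, Cx.Ig, mem_filter] at h1
  exact h1.2.1

theorem nr_o (h : f.Mid γ) {v : V} (hv : f.NR v) : f.o v ∈ f.c.Fo v := by
  have h1 := (h.yc v hv.1).2.2.2.2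
  rwa [Cx.OO, if_neg hv.2.1.2.2.2.1, if_neg hv.2.1.2.2.1, if_pos hv.2.1] at h1

theorem ub_i (h : f.Mid γ) {v : V} (hv : f.UB v) : ¬Co f.c.G (f.i v) := by
  have h1 := (h.yc v hv.1).2.2.2.1
  rw [Cx.II, if_pos hv.2, mem_singleton] at h1
  rw [h1]
  exact fun h2 => h.ori.kz (le_trans (by norm_num) h2)

theorem run_pi {v : V} (hv : f.Run v) : f.Y v ∧ v ∈ f.d.Pi :=
  hv.elim (fun h => ⟨h.1, h.2.1⟩) fun h => ⟨h.1.1, h.1.2.1⟩

theorem run_nb {v : V} (hv : f.Run v) : ¬f.Bf v := fun h =>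
  hv.elim h.2.2.1 fun h1 => h.2.1 h1.1

theorem run_o (h : f.Mid γ) {v : V} (hv : f.Run v) : f.o v ∈ f.c.Fo v :=
  pi_o h (run_pi hv).1 (run_pi hv).2

theorem ffw_o (h : f.Mid γ) {v : V} (hv : f.FFw v) : f.o v ∈ f.c.Fo v := pi_o h hv.1.1 hv.1.2.1

/-- Vertices that keep their first pair. -/
def Kp (f : Fr V) (v : V) : Prop := f.FFw v ∨ f.UB v ∨ f.NR v

theorem kp_y {v : V} (hv : Kp f v) : f.Y v := hv.elim (·.1.1) fun h => h.elim (·.1) (·.1)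

theorem kp_nb {v : V} (hv : Kp f v) : ¬f.Bf v := fun h =>
  hv.elim (fun h1 => h.2.1 h1.1) fun h1 => h1.elim h.2.2.2.1 h.2.2.2.2

theorem kp_nr (h : f.Mid γ) {v : V} (hv : Kp f v) : ¬f.Run v := fun hr => by
  rcases hv with h1 | h1 | h1
  · exact hr.elim (fun h2 => rl_nF h h2 h1.1.2.2) h1.2
  · exact pi_nub h (run_pi hr).2 h1.2
  · exact h1.2.1.2.2.1 (run_pi hr).2

theorem fi_bf {v : V} (hv : f.Bf v) : f.fi i v = i v := if_pos hv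

theorem fo_bf {v : V} (hv : f.Bf v) : f.fo o v = o v := if_pos hv

theorem fi_run {v : V} (hv : f.Run v) : f.fi i v = f.o v := (if_neg (run_nb hv)).trans (if_pos hv)

theorem fo_run {v : V} (hv : f.Run v) : f.fo o v = f.i v := (if_neg (run_nb hv)).trans (if_pos hv)

theorem fi_kp (h : f.Mid γ) {v : V} (hv : Kp f v) : f.fi i v = f.i v :=
  (if_neg (kp_nb hv)).trans (if_neg (kp_nr h hv))

theorem fo_kp (h : f.Mid γ) {v : V} (hv : Kp f v) : f.fo o v = f.o v :=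
  (if_neg (kp_nb hv)).trans (if_neg (kp_nr h hv))

theorem y_cases {v : V} (hv : f.Y v) : f.Bf v ∨ f.Run v ∨ Kp f v := by
  unfold Kp Fr.Bf Fr.Run Fr.FFw
  tauto

theorem bf_i (hp : f.Post i o) {v : V} (hv : f.Bf v) : ¬Fc f.c.G f.c.κ v (i v) :=
  (mem_filter.1 (hp.mem v hv).1).2.2

theorem cont (h : f.Mid γ) {y b : V} (hy : Co f.c.G y) (hb : f.Y b) (e : y = f.fi i b) :
    (f.Bf b ∧ y = i b) ∨ (f.FFw b ∧ y = f.i b) ∨ (f.Run b ∧ y = f.o b) ∨ (f.NR b ∧ y = f.i b) := by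
  rcases y_cases hb with h1 | h1 | h1
  · exact .inl ⟨h1, e.trans (fi_bf h1)⟩
  · exact .inr (.inr (.inl ⟨h1, e.trans (fi_run h1)⟩))
  · have e1 := e.trans (fi_kp h h1)
    rcases h1 with h2 | h2 | h2
    · exact .inr (.inl ⟨h2, e1⟩)
    · exact absurd (e1 ▸ hy) (ub_i h h2)
    · exact .inr (.inr (.inr ⟨h2, e1⟩))

theorem contA (h : f.Mid γ) (hp : f.Post i o) {y b : V} (hA : b ∈ f.c.Fo y) (hb : f.Y b)
    (e : y = f.fi i b) : f.FFw b ∧ y = f.i b := by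
  obtain ⟨a1, a2⟩ := mem_Fo.1 hA
  rcases cont h a2.2.1 hb e with h1 | h1 | h1 | h1
  · exact absurd (h1.2 ▸ fsym a2) (bf_i hp h1.1)
  · exact h1
  · exact absurd (h1.2 ▸ (mem_Fo.1 (run_o h h1.1)).1) (h.ori.asym _ _ a1)
  · exact absurd (h1.2 ▸ fsym a2) (nr_i h h1.1)

/-- The arc is not merged at its head. -/
def Lst (f : Fr V) (i : V → V) (e : V × V) : Prop := ¬(f.Y e.2 ∧ e.1 = f.fi i e.2)

/-- The steps of the final chains. -/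
abbrev Ch (f : Fr V) (i o : V → V) := ReflTransGen (Nx2 f.Y (f.fi i) (f.fo o))

theorem step {y b : V} {a π : ZMod 2} {e : V × V} (hc : Ch f i o ((y, b), a) (e, π))
    (hl : Lst f i e) (hb : f.Y b) (hy : y = f.fi i b) :
    Ch f i o ((b, f.fo o b), a + 1) (e, π) := by
  rcases hc.cases_head with h1 | ⟨⟨c, a'⟩, ⟨h1, h2⟩, h3⟩
  · exact absurd ⟨hb, hy⟩ ((Prod.mk.inj h1).1 ▸ hl : Lst f i (y, b))
  · obtain rfl : c = (b, f.fo o b) := h1.2.2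
    obtain rfl : a' = a + 1 := h2
    exact h3

theorem stop {s e : V × V} {a π : ZMod 2} (hc : Ch f i o (s, a) (e, π)) (hl : Lst f i s) :
    e = s ∧ π = a := by
  rcases hc.cases_head with h1 | ⟨c, h1, -⟩
  · exact ⟨(Prod.mk.inj h1).1.symm, (Prod.mk.inj h1).2.symm⟩
  · exact absurd ⟨h1.1.1, h1.1.2.1⟩ hl

theorem lst_mg (h : f.Mid γ) {y w : V} (hl : Lst f i (y, w)) : ¬f.Mg y w := fun hm =>
  hm.elim (fun h1 => hl ⟨h1.1.1.1, h1.2.trans (fi_kp h (.inl h1.1)).symm⟩)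
    fun h1 => hl ⟨(run_pi h1.1).1, h1.2.trans (fi_run h1.1).symm⟩

/-- Arcs of a piece. -/
structure St (f : Fr V) (e : V × V) : Prop where
  arc : f.E e.1 e.2
  co : Co f.c.G e.1
  nr : ¬(f.Run e.2 ∧ e.1 = f.o e.2)
  nk : ¬(Kp f e.1 ∧ e.2 = f.o e.1)

theorem piece (hp : f.Post i o) {e : V × V} {π : ZMod 2} (hl : Lst f i e)
    {x : (V × V) × ZMod 2} (hc : Ch f i o x (e, π)) : St f x.1 →
    ∃ e' a', ReflTransGen (Nxt f.Bf i o) x.1 e' ∧ ¬(f.Bf e'.2 ∧ e'.1 = i e'.2) ∧ St f e' ∧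
      f.c.κ e'.1 + a' = f.c.κ x.1.1 + x.2 ∧ Ch f i o (e', a') (e, π) := by
  induction hc using ReflTransGen.head_induction_on with
  | refl =>
    exact fun hs => ⟨e, π, .refl, fun h1 => hl ⟨h1.1.1, h1.2.trans (fi_bf h1.1).symm⟩, hs, rfl,
      .refl⟩
  | @head x x' h1 h2 ih =>
    intro hs
    by_cases hb : f.Bf x.1.2 ∧ x.1.1 = i x.1.2
    · have e1 : x'.1 = (x.1.2, o x.1.2) := h1.1.2.2.trans (by rw [fo_bf hb.1])
      have h3 := (mem_filter.1 (hp.mem _ hb.1).2).2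
      obtain ⟨e', a', b1, b2, b3, b4, b5⟩ := ih (by
        rw [e1]
        exact ⟨h3.1, hb.1.1.1, h3.2, fun h4 => kp_nb h4.1 hb.1⟩)
      refine ⟨e', a', .head ⟨hb.1, hb.2, e1⟩ b1, b2, b3, ?_, b5⟩
      have h4 := z2 _ _ fun h5 : f.c.κ x.1.1 = f.c.κ x.1.2 =>
        bf_i hp hb.1 (hb.2 ▸ ⟨hs.arc.1.symm, hb.1.1.1, hs.co, h5.symm⟩)
      rw [b4, e1, h1.2, h4]
      generalize f.c.κ x.1.1 = u
      generalize x.2 = v
      revert u v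
      decide
    · exact ⟨x.1, x.2, .refl, hb, hs, rfl, .head h1 h2⟩

theorem df_one {u a b : V} (h : df f.c.G f.c.κ u = 1) (ha : Fc f.c.G f.c.κ u a)
    (hb : Fc f.c.G f.c.κ u b) : a = b :=
  card_le_one.1 h.le a (mem_filter.2 ⟨mem_univ _, ha⟩) b (mem_filter.2 ⟨mem_univ _, hb⟩)

theorem mem_Fod {a w : V} : a ∈ f.Fod w ↔ f.E a w ∧ Fc f.c.G f.c.κ w a ∧ ¬f.Mg a w ∧
    ¬f.Ev a w ∧ ¬(f.UB a ∧ f.o a = w) ∧ ¬f.NR a := by
  simp only [Fr.Fod, mem_filter, mem_univ, true_and]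

/-- The three kinds of ends. -/
def Kind (f : Fr V) (l : Option (Option V × ZMod 2)) (e : V × V) (δ : ZMod 2) : Prop :=
  (δ = 1 ∧ l = some (some e.2, 0) ∧ ((f.E e.1 e.2 ∧ ¬Fc f.c.G f.c.κ e.1 e.2) ∨ f.Ev e.1 e.2)) ∨
  (δ = 0 ∧ l = f.od e.1 e.2 ∧ e.1 ∈ f.Fod e.2) ∨
  (δ = 0 ∧ l = some (some e.1, 0) ∧ f.NR e.1 ∧ f.o e.1 = e.2)

theorem z3 : ∀ a b : ZMod 2, (a + b + (a + 1 + b) = 1 ∧ a + b + (a + b) = 0) ∧
    a + b + (a + (b + 1)) = 1 ∧ a + b + (a + (b + 1 + 1)) = 0 ∧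
    a + b + (a + 1 + (b + 1)) = 0 := by decide

theorem suffix (h : f.Mid γ) (hp : f.Post i o) (hC : Chs f.c.G f.E f.Y (f.fi i) (f.fo o))
    {y b : V} {a π : ZMod 2} {e : V × V} (hc : Ch f i o ((y, b), a) (e, π)) (hl : Lst f i e)
    (hs : St f (y, b)) (hb : ¬(f.Bf b ∧ y = i b)) (he : Co f.c.G e.2) :
    Kind f (f.om (y, b)) e (f.c.κ y + a + (f.c.κ e.2 + π)) := by
  by_cases h0 : Lst f i (y, b)
  · obtain ⟨rfl, rfl⟩ := stop hc h0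
    have hm := lst_mg h h0
    by_cases hF : Fc f.c.G f.c.κ y b
    · refine .inr (.inl ⟨hF.2.2.2 ▸ (z3 _ _).1.2, ?_, mem_Fod.2 ⟨hs.arc, fsym hF, hm,
        fun h1 => hs.nk ⟨.inl h1.1, h1.2.1.symm⟩, fun h1 => hs.nk ⟨.inr (.inl h1.1), h1.2.symm⟩,
        fun h1 => hs.nk ⟨.inr (.inr h1), df_one h1.2.1.2.1 hF (mem_Fo.1 (nr_o h h1)).2⟩⟩⟩)
      rw [Fr.om, if_neg (not_not.2 he), if_neg (not_not.2 hF), if_neg hs.nr,
        if_neg fun h1 => hm (.inl h1)]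
    · refine .inl ⟨?_, ?_, .inl ⟨hs.arc, hF⟩⟩
      · rw [z2 _ _ fun h1 : f.c.κ y = f.c.κ b => hF ⟨hs.arc.1, hs.co, he, h1⟩]
        exact (z3 _ _).1.1
      · rw [Fr.om, if_neg (not_not.2 he), if_pos hF]
  obtain ⟨hy, e0⟩ : f.Y b ∧ y = f.fi i b := not_not.1 h0
  have hc1 := step hc hl hy e0
  rcases cont (y := y) h hs.co hy e0 with h1 | ⟨h1, e1⟩ | h1 | ⟨h1, e1⟩
  · exact absurd h1 hb
  · have hF : Fc f.c.G f.c.κ y b := e1 ▸ fsym h1.1.2.2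
    have a1 := ffw_o h h1
    rw [fo_kp h (.inl h1)] at hc1
    have eo : f.om (y, b) = if f.FFw (f.o b) ∧ f.i (f.o b) = b then f.od (f.o b) (f.o (f.o b))
        else some (some (f.o b), 0) := by
      rw [Fr.om, if_neg (not_not.2 hy.1), if_neg (not_not.2 hF), if_neg hs.nr, if_pos ⟨h1, e1⟩]
    by_cases h2 : f.FFw (f.o b) ∧ f.i (f.o b) = b
    · have a2 := ffw_o h h2.1
      have hc2 := step hc1 hl h2.1.1.1 (h2.2.symm.trans (fi_kp h (.inl h2.1)).symm)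
      have a3 := (hC.arc _ h2.1.1.1).2
      rw [fo_kp h (.inl h2.1)] at hc2 a3
      have l2 : Lst f i (f.o b, f.o (f.o b)) := fun h3 => by
        have h4 := (contA h hp a2 h3.1 h3.2).1.1.2.1
        have h5 : ({b, f.o b, f.o (f.o b)} : Finset V) ⊆ f.d.Pi := by
          simp only [insert_subset_iff, singleton_subset_iff]
          exact ⟨h1.1.2.1, h2.1.1.2.1, h4⟩
        have h6 := (card_le_card h5).trans h.ok.pi2
        rw [card_eq_three.2 ⟨_, _, _, (mem_Fo.1 a1).2.1.ne, fun h7 => h.ori.asym _ _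
          (mem_Fo.1 a1).1 (by have h8 := (mem_Fo.1 a2).1; rwa [← h7] at h8), (mem_Fo.1 a2).2.1.ne, rfl⟩] at h6
        omega
      obtain ⟨rfl, rfl⟩ := stop hc2 l2
      refine .inr (.inl ⟨?_, eo.trans (if_pos h2), mem_Fod.2 ⟨a3, fsym (mem_Fo.1 a2).2,
        lst_mg h l2, fun h3 => h3.2.2.1 (by rw [h2.2]; exact ⟨h1, rfl⟩),
        fun h3 => pi_nub h h2.1.1.2.1 h3.1.2, fun h3 => h3.2.1.2.2.1 h2.1.1.2.1⟩⟩)
      rw [← (mem_Fo.1 a2).2.2.2.2, ← (mem_Fo.1 a1).2.2.2.2, ← hF.2.2.2]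
      exact (z3 _ _).2.2.1
    · have l1 : Lst f i (b, f.o b) := fun h3 =>
        h2 ((contA h hp a1 h3.1 h3.2).imp_right Eq.symm)
      obtain ⟨rfl, rfl⟩ := stop hc1 l1
      refine .inl ⟨?_, eo.trans (if_neg h2), .inr ⟨h1, rfl,
        fun h3 => hs.nk (by rw [← e1] at h3; exact ⟨.inl h3.1, h3.2.symm⟩),
        fun h3 => h2 ⟨h3.1, h3.2.symm⟩⟩⟩
      rw [← (mem_Fo.1 a1).2.2.2.2, ← hF.2.2.2]
      exact (z3 _ _).2.1
  · exact absurd h1 hs.nr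
  · have hF : ¬Fc f.c.G f.c.κ y b := fun h2 => nr_i h h1 (e1 ▸ fsym h2)
    have a1 := nr_o h h1
    rw [fo_kp h (.inr (.inr h1))] at hc1
    have l1 : Lst f i (b, f.o b) := fun h3 =>
      h1.2.2 ((contA h hp a1 h3.1 h3.2).imp (·.1) Eq.symm)
    obtain ⟨rfl, rfl⟩ := stop hc1 l1
    refine .inr (.inr ⟨?_, ?_, h1, rfl⟩)
    · rw [← (mem_Fo.1 a1).2.2.2.2,
        z2 _ _ fun h2 : f.c.κ y = f.c.κ b => hF ⟨hs.arc.1, hs.co, hy.1, h2⟩]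
      exact (z3 _ _).2.2.2
    · rw [Fr.om, if_neg (not_not.2 hy.1), if_pos hF]

end Pool.Agent.MP_d1f1f3_co.H2.Gc2
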