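import Pool.Agent.MP_d1f1f3_co.H2.Spec2

/-!
Assembly of the general frame.
-/

namespace Pool.Agent.MP_d1f1f3_co.H2

open Finset Relation H47
open scoped Classical

namespace Gen

variable {V : Type} [Fintype V] {f : Fr V} {γ : ZMod 2}

theorem run_pi {v : V} (h : f.Run v) : f.Y v ∧ v ∈ f.d.Pi :=
  h.elim (fun h => ⟨h.1, h.2.1⟩) fun h => ⟨h.1.1, h.1.2.1⟩

theorem rl_J (m : f.Mid γ) {v : V} (h : f.Rl v) : f.d.J := by
  by_contra J
  have := (m.yc v h.1).2.2.2.1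
  rw [Cx.II, if_neg (m.ok.pi v h.2.1).2.2.2, if_pos h.2.1, if_neg J] at this
  exact (m.ok.pa _ h.2.2).2.1.2.2.2 (mem_filter.1 this).2.2.2.2.2.symm

theorem run_o (m : f.Mid γ) {v : V} (h : f.Run v) :
    f.d.J ∧ f.o v = f.d.oc v ∧ Fc f.c.G f.c.κ v (f.o v) := by
  have J := h.elim (rl_J m) fun h => rl_J m h.2.1
  obtain ⟨y, p⟩ := run_pi h
  have := (m.yc v y).2.2.2.2
  rw [Cx.OO, if_neg (m.ok.pi v p).2.2.2, if_pos p, if_pos J, mem_singleton] at this
  exact ⟨J, this, this ▸ (mem_filter.1 (m.ok.pij J v p).1).2.2⟩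

theorem rv (m : f.Mid γ) {u w : V}
    (h : ¬Co f.c.G u ∨ ¬Co f.c.G w ∨ (f.d.Pi = ∅ ∧ (u, w) ∉ f.d.P)) :
    f.RV u w ↔ (u, w) ∈ f.d.Fx := by
  refine ⟨fun r => ?_, fun r => Or.inr (Or.inl r)⟩
  rcases r with r | r | ⟨r, rfl⟩
  · have := (m.ok.pa _ r).2.1
    exact (h.elim (· this.2.1) fun h => h.elim (· this.2.2.1) (·.2 r)).elim
  · exact r
  · have := (run_o m r).2.2
    exact (h.elim (· this.2.1) fun h => h.elim (· this.2.2.1) fun h =>
      notMem_empty _ (h.1 ▸ (run_pi r).2)).elim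

theorem cl (m : f.Mid γ) {i o : V → V} (p : f.Post i o) {v : V} (y : f.Y v) :
    f.a v (f.fi i v) = f.a v (f.i v) ∧ f.a v (f.fo o v) = f.a v (f.i v) := by
  have e := (m.yc v y).2.1
  unfold Fr.fi Fr.fo
  split_ifs with h1 h2
  · exact ⟨(mem_filter.1 (mem_filter.1 (p.mem v h1).1).1).2,
      (mem_filter.1 (mem_filter.1 (p.mem v h1).2).1).2⟩
  · exact ⟨e.symm, rfl⟩
  · exact ⟨rfl, e.symm⟩

theorem big (m : f.Mid γ) {v : V} (y : f.Y v) {j : ZMod 2}
    (h : (dg f.c.G v + 1) / 2 < #(f.cls v j)) : f.a v (f.i v) = j := by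
  by_contra n
  have e : #(f.cls v (f.a v (f.i v))) = _ := (m.yc v y).2.2.1
  have d : Disjoint (f.cls v (f.a v (f.i v))) (f.cls v j) := disjoint_left.2 fun w h1 h2 =>
    n ((mem_filter.1 h1).2.symm.trans (mem_filter.1 h2).2)
  have : #(f.cls v (f.a v (f.i v)) ∪ f.cls v j) ≤ dg f.c.G v :=
    card_le_card (union_subset (filter_subset _ _) (filter_subset _ _))
  rw [card_union_of_disjoint d] at this
  omega

theorem tk (t : f.Ct) {i o : V → V} (c : f.Cf i o) {v : V} (h : Co f.c.G v) :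
    (df f.c.G f.c.κ v : ℤ) + f.c.y1 f.d v + #(f.Gs v) - f.c.Rb f.d v ≤
      #(Tks f.E f.Y (f.fi i) (f.fo o) v) + if f.Run v then 1 else 0 := by
  have h1 := t.out v h
  have h2 := t.rb v
  have h3 := c.v0 v h
  have : (0 : ℤ) ≤ if f.c.Yc v ∧ ¬f.Y v then 1 else 0 := by split_ifs <;> norm_num
  linarith

theorem h1 (m : f.Mid γ) (t : f.Ct) {i o : V → V} (c : f.Cf i o) (X : Finset V)
    (h : ∀ v ∈ X, Co f.c.G v) : ∑ v ∈ X, (df f.c.G f.c.κ v + if v ∈ f.d.U then 2 else 0) ≤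
      ∑ v ∈ X, #(Tks f.E f.Y (f.fi i) (f.fo o) v) + fct f.c.G f.c.κ X + ind f.d.v₀ X := by
  have l := m.ok.hl X h
  have g : ∑ v ∈ X, (if f.Run v ∧ f.o v ∈ X then 1 else 0 : ℤ) ≤ ∑ v ∈ X, (#(f.Gs v) : ℤ) := by
    rw [sum_boole, card_eq_sum_card_fiberwise (f := f.o) (t := X)
      fun v hv => (mem_filter.1 (mem_coe.1 hv)).2.2]
    push_cast
    refine sum_le_sum fun u _ => Nat.cast_le.2 (card_le_card fun x hx => ?_)
    simp only [Fr.Gs, mem_filter, mem_univ, true_and] at hx ⊢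
    exact ⟨hx.1.2.1, hx.2⟩
  have k : ∀ v ∈ X, ((df f.c.G f.c.κ v + if v ∈ f.d.U then 2 else 0 : ℕ) : ℤ) + #(f.Gs v) +
      (f.c.y1 f.d v - (if v ∈ f.d.U then 2 else 0) - f.c.Rb f.d v + #(univ.filter fun w =>
        Fc f.c.G f.c.κ v w ∧ w ∉ X ∧ ¬(f.d.J ∧ v ∈ f.d.Pi ∧ w = f.d.oc v))) ≤
      #(Tks f.E f.Y (f.fi i) (f.fo o) v) + #(univ.filter fun w => Fc f.c.G f.c.κ v w ∧ w ∉ X) +
        if f.Run v ∧ f.o v ∈ X then 1 else 0 := fun v hv => by
    have a := tk t c (h v hv)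
    have s : (univ.filter fun w => Fc f.c.G f.c.κ v w ∧ w ∉ X ∧
        ¬(f.d.J ∧ v ∈ f.d.Pi ∧ w = f.d.oc v)) ⊆
          univ.filter fun w => Fc f.c.G f.c.κ v w ∧ w ∉ X := fun w hw => by
      simp only [mem_filter, mem_univ, true_and] at hw ⊢
      exact ⟨hw.1, hw.2.1⟩
    have b := card_le_card s
    push_cast
    by_cases r : f.Run v
    · by_cases x : f.o v ∈ X
      · rw [if_pos r] at a
        rw [if_pos (And.intro r x)]
        omega
      · obtain ⟨J, e, F⟩ := run_o m r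
        have := card_lt_card ((ssubset_iff_of_subset s).2 ⟨f.o v, by simp [F, x], by
          simp [J, e, (run_pi r).2]⟩)
        rw [if_pos r] at a
        rw [if_neg fun h : f.Run v ∧ _ => x h.2]
        omega
    · rw [if_neg r] at a
      rw [if_neg fun h : f.Run v ∧ _ => r h.1]
      omega
  have := sum_le_sum k
  rw [sum_add_distrib, sum_add_distrib, sum_add_distrib (g := fun v => ite _ _ _),
    sum_add_distrib (f := fun v => (#(Tks _ _ _ _ v) : ℤ))] at this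
  rw [fct, ← Nat.cast_le (α := ℤ), Nat.cast_add, Nat.cast_add, Nat.cast_sum, Nat.cast_sum,
    Nat.cast_sum]
  linarith

end Gen

open Gen in
theorem genOf : SGenOf := by
  intro hP hA hX ga gx gs g1 g0 gn c1 c2 gh V _ c d γ ho hp hk
  have z : ∀ j : ZMod 2, j ≠ 1 → j = 0 := by decide
  obtain ⟨a, i₀, o₀, m⟩ := ga hP hA V c d γ ho hp hk
  set f : Fr V := ⟨c, d, a, i₀, o₀⟩
  obtain ⟨hE, t⟩ := gx V f γ m
  obtain ⟨i, o, p1, p2, p3⟩ := hX V _ f.E f.Bf f.Li f.Lo f.al f.om f.loc f.sp f.i f.o hE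
    fun ⟨l, j⟩ B r s => by
      by_cases h : l = none ∨ j = 1
      · exact (gn V f γ _ B r m hE s h).trans_le (Nat.zero_le _)
      push Not at h
      obtain ⟨p, rfl⟩ := Option.ne_none_iff_exists'.1 h.1
      obtain rfl := z j h.2
      have s := gs V f γ p B r m hE s
      by_cases e : ¬Co f.c.G p ∨ ¬f.d.J ∨ f.c.κ p = 1 ∨ f.d.t p < 0
      · exact (g1 V f γ p B r m s e).trans_le (Nat.zero_le _)
      push Not at e
      exact g0 V f γ p B r m s e.1 e.2.1 (z _ e.2.2.1) e.2.2.2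
  have p : f.Post i o := ⟨p1, p2, p3⟩
  obtain ⟨ch, st⟩ := c1 V f γ i o m p
  have cf := c2 V f γ i o m p ch
  refine ⟨a, f.E, f.Y, f.fi i, f.fo o, m.sym, m.root, m.sum, fun v hv j => ?_, fun v y => ?_, ch,
    fun u w e h => ?_, ⟨h1 m t cf, fun u w F => ?_⟩, fun v hv n => ?_, st⟩
  · refine (le_or_gt _ _).imp_right fun h => ?_
    have y : f.Y v := ⟨hv, j, h⟩
    obtain rfl := big m y h
    exact ⟨y, (cl m p y).1, (cl m p y).2, (m.yc v y).2.2.1⟩
  · refine ⟨(m.yc v y).1, (cl m p y).1.trans (cl m p y).2.symm, ?_⟩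
    rw [show a v (f.fi i v) = _ from (cl m p y).1]
    exact (m.yc v y).2.2.1
  · rw [Fr.E, rv m (h.imp_right fun h => h.imp_right fun h => ⟨h.1, h.2.1⟩),
      rv m (u := w) (by tauto), and_iff_right e]
  · rcases ho.real u w F.1 with h | h
    · exact gh V f γ i o m t cf u w (mem_filter.2 ⟨mem_univ _, h, F⟩)
    · have := gh V f γ i o m t cf w u
        (mem_filter.2 ⟨mem_univ _, h, F.1.symm, F.2.2.1, F.2.1, F.2.2.2.symm⟩)
      rw [pair_comm, add_comm (f.val i o w u)] at this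
      exact this
  · have := tk t cf hv
    rw [if_neg fun r => n (run_pi r).2] at this
    have := Nat.cast_nonneg (α := ℤ) #(f.Gs v)
    linarith

end Pool.Agent.MP_d1f1f3_co.H2
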