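import Pool.Agent.MP_d1f1f3_co.H2.Gh22

/-!
Row GH2: two useful tokens on every unseparated edge.
-/

namespace Pool.Agent.MP_d1f1f3_co.H2

open Finset Relation H47
open scoped Classical

noncomputable section

namespace Gh2

variable {V : Type} [Fintype V] {f : Fr V} {γ : ZMod 2} {c : Cx V} {u v w x : V} {i o : V → V}

theorem ni_zero (h : f.Mid γ) (h3 : 3 ≤ df f.c.G f.c.κ u) : #(NI f u) = 0 :=
  card_eq_zero.2 (eq_empty_of_forall_notMem fun y hy => by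
    rcases (ni_cases h hy).2 with a | ⟨-, a, -⟩ <;> omega)

theorem not_pi (h : f.Mid γ) (h1 : df f.c.G f.c.κ u = 1) (hv : f.d.J ∨ f.d.v₀ ≠ some u) :
    u ∉ f.d.Pi := fun hp => by
  by_cases j : f.d.J
  · have := pi_df h j hp
    omega
  · exact hv.elim j fun g => g ((h.ok.nj j).2.1 u hp)

/-- Neither end passes a payment on. -/
theorem caseA (h : f.Mid γ) (hc : f.Ct) (hf : f.Cf i o) (hw : w ∈ f.c.Fo u) (ru : ¬f.Rl u)
    (rw' : ¬f.Rl w) (ju : f.d.J ∨ f.d.v₀ ≠ some u) (jw : f.d.J ∨ f.d.v₀ ≠ some w) :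
    2 ≤ f.val i o u w + f.val i o w u + ind f.d.v₀ {u, w} := by
  have hF := (mem_Fo.1 hw).2
  obtain ⟨n1, ⟨a1, a2, a3, a4, a5, a6, a7, a8⟩, -⟩ := bas hc hf hF
  obtain ⟨n2, ⟨b1, b2, b3, b4, b5, b6, b7, b8⟩, -⟩ := bas hc hf (fc_symm hF)
  have c1 := op_rn hc ru
  have c2 := op_rn hc rw'
  have c3 : 1 ≤ #(f.c.Fo u) := card_pos.2 ⟨w, hw⟩
  have c4 : 1 ≤ #(f.c.Fi w) := card_pos.2 ⟨u, fi_of_fo hw⟩
  have c5 := ind_add (v₀ := f.d.v₀) hF.1.ne
  have c6 : 2 ≤ df f.c.G f.c.κ w → 1 ≤ #(f.c.Fo w) := fun e => card_pos.2 (h.ok.c1 w hF.2.2.1 e)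
  by_cases gw : f.d.big = some w
  · have := xx_big h hc gw
    have := xx_ind h hc hF.2.1 (mem_singleton_self u) ju
      fun e => hF.1.ne (Option.some.inj (e.symm.trans gw))
    omega
  have xw := xx_ind h hc hF.2.2.1 (mem_singleton_self w) jw gw
  by_cases gu : f.d.big = some u
  · have xu := xx_big h hc gu
    obtain ⟨-, -, ny, -, -, -, -, d4, -⟩ := h.ok.bg u gu
    by_cases e : df f.c.G f.c.κ w = 1 ∧ df f.c.G f.c.κ u = 3 ∧ #(f.Op u) = 0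
    · have hy : ¬f.Y u := fun a => ny (h.yc u a).1
      have d5 := d4.resolve_left (by omega)
      have d6 := gain_D (dz_one (mem_Cand.2 ⟨hw, fun a =>
        a.1.elim (fun b => hy b.1) fun b => b.elim (fun b => hy b.1) fun b => hy b.1⟩) e.1
          fun x hx e' => card_le_one.1 d5 _ (mem_filter.2 ⟨(mem_Cand.1 hx).1, e'⟩) _
            (mem_filter.2 ⟨hw, e.1⟩)) e.2.2
      have := ni_zero h xu.2.2
      omega
    · omega
  have xu := xx_ind h hc hF.2.1 (mem_singleton_self u) ju gu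
  by_cases e1 : df f.c.G f.c.κ w = 1 ∧ #(f.c.Fo u) = 1
  swap
  · omega
  by_cases e2 : df f.c.G f.c.κ u = 1
  swap
  · have := gain_one h hc hw e1.2 (by omega) ru ju (Or.inl e1.1)
    omega
  by_cases e3 : f.d.v₀ = some u
  · have := xx_zero h hc hF.2.2.1 (fun e => hF.1.ne (Option.some.inj (e3.symm.trans e))) gw
    have := ind_of (mem_singleton_self u) e3
    omega
  have xu0 := xx_zero h hc hF.2.1 e3 gu
  by_cases yu : f.Y u
  · by_cases ub : f.c.Ub f.d u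
    · obtain ⟨ub1, rfl⟩ := ub
      have := ((h.ok.ub ub1).2.2.2.2.resolve_left e3).resolve_left fun a => a e2
      have := hc.rb f.c.ρ
      unfold xx at a4 b4 xw
      omega
    by_cases fa : f.FFa w
    · have := ffa_gain hc fa
      omega
    · have := nr_of h hw e2 yu (not_pi h e2 ju) ub fa (Or.inl e1.1)
      omega
  by_cases yc : f.c.Yc u
  · have := exx_one yc yu
    omega
  · have := k2_gain h hc hw e2 e1.1 (by omega) yc e3 xu0 xw
    omega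

/-- The tail passes a payment on. -/
theorem caseB1 (h : f.Mid γ) (hc : f.Ct) (hf : f.Cf i o) (hw : w ∈ f.c.Fo u) (ru : f.Rl u) :
    2 ≤ f.val i o u w + f.val i o w u + ind f.d.v₀ {u, w} := by
  have hF := (mem_Fo.1 hw).2
  have hJ := rl_J h ru
  obtain ⟨n1, ⟨a1, a2, a3, a4, a5, a6, a7, a8⟩, a9⟩ := bas hc hf hF
  obtain ⟨n2, ⟨b1, b2, b3, b4, b5, b6, b7, b8⟩, b9⟩ := bas hc hf (fc_symm hF)
  have b10 := b9 ru
  obtain ⟨r1, r2, r3, r4⟩ := rl_facts h hc ru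
  have c4 : 1 ≤ #(f.c.Fi w) := card_pos.2 ⟨u, fi_of_fo hw⟩
  have c5 := ind_le (v₀ := f.d.v₀) (u := u) (w := w)
  have c6 : 2 ≤ df f.c.G f.c.κ w → 1 ≤ #(f.c.Fo w) := fun e => card_pos.2 (h.ok.c1 w hF.2.2.1 e)
  have xw : (-1 ≤ xx f w ∧ 2 ≤ #(f.c.Fo w)) ∨ 0 ≤ xx f w + ind f.d.v₀ {w} := by
    by_cases gw : f.d.big = some w
    · have := xx_big h hc gw
      omega
    · exact Or.inr (xx_ind h hc hF.2.2.1 (mem_singleton_self w) (Or.inl hJ) gw)
  by_cases e : w = f.o u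
  · have g1 : 1 ≤ #(f.Gs w) := card_pos.2 ⟨u, mem_filter.2 ⟨mem_univ _, Or.inl ru, e.symm⟩⟩
    by_cases rw' : f.Run w
    · have : 1 ≤ #(f.c.Fo w) := card_pos.2 ⟨_, o_pi h (run_pi rw').1 (run_pi rw').2⟩
      omega
    · have := rn_zero rw'
      omega
  have ho := o_pi h ru.1 ru.2.1
  have g2 : 2 ≤ #(f.c.Fo u) := one_lt_card.2 ⟨w, hw, _, ho, e⟩
  have gD : #(f.c.Fo u) = 2 → df f.c.G f.c.κ w = 1 ∨ f.Rl w → #(f.Op u) = 0 →
      #(f.E1 w u) + 1 ≤ #(f.Fod u) ∨ #(f.Fod u) = 0 := fun e1 e2 e3 => by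
    refine gain_D (dz_only (mem_Cand.2 ⟨hw, fun a => e a.2⟩) (fun x hx => by_contra fun e4 => ?_)
      (e2.imp_right Or.inl)) e3
    have : 2 < #(f.c.Fo u) := two_lt_card_iff.2 ⟨w, f.o u, x, hw, ho, (mem_Cand.1 hx).1, e,
      Ne.symm e4, fun e5 => (mem_Cand.1 hx).2 ⟨Or.inr (Or.inl ru), e5.symm⟩⟩
    omega
  have gN := ni_zero (u := u) h (by omega)
  by_cases rw' : f.Rl w
  · have a10 := a9 rw'
    obtain ⟨s1, s2, s3, s4⟩ := rl_facts h hc rw'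
    have := fun a => gD a (Or.inr rw')
    omega
  · have := op_rn hc rw'
    have := fun a b => gD a (Or.inl b)
    omega

/-- The head passes a payment on. -/
theorem caseB2 (h : f.Mid γ) (hc : f.Ct) (hf : f.Cf i o) (hw : w ∈ f.c.Fo u) (ru : ¬f.Rl u)
    (rw' : f.Rl w) : 2 ≤ f.val i o u w + f.val i o w u + ind f.d.v₀ {u, w} := by
  have hF := (mem_Fo.1 hw).2
  have hJ := rl_J h rw'
  obtain ⟨n1, ⟨a1, a2, a3, a4, a5, a6, a7, a8⟩, a9⟩ := bas hc hf hF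
  obtain ⟨n2, ⟨b1, b2, b3, b4, b5, b6, b7, b8⟩, -⟩ := bas hc hf (fc_symm hF)
  have a10 := a9 rw'
  obtain ⟨r1, r2, r3, r4⟩ := rl_facts h hc rw'
  have c1 := op_rn hc ru
  have c3 : 1 ≤ #(f.c.Fo u) := card_pos.2 ⟨w, hw⟩
  have c5 := ind_add (v₀ := f.d.v₀) hF.1.ne
  by_cases gu : f.d.big = some u
  · have := xx_big h hc gu
    have := (h.ok.bg u gu).2.2.2.2.2.2.2.2 w rw'.2.1 (rl_pin h rw')
    omega
  have xu := xx_ind h hc hF.2.1 (mem_singleton_self u) (Or.inl hJ) gu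
  by_cases e1 : #(f.c.Fo u) = 1
  swap
  · omega
  by_cases e2 : df f.c.G f.c.κ u = 1
  swap
  · have := gain_one h hc hw e1 (by omega) ru (Or.inl hJ) (Or.inr rw')
    omega
  by_cases e3 : df f.c.G f.c.κ w = 2
  swap
  · omega
  by_cases e4 : ¬f.c.Yc u ∨ f.c.Ub f.d u
  · have := h.ok.k3 u w hw e2 rw'.2.1 (rl_pin h rw') e3 e4
    have := hc.rb u
    unfold xx at a4 b4 r1
    omega
  rw [not_or, not_not] at e4
  by_cases yu : f.Y u
  · have := nr_of h hw e2 yu (not_pi h e2 (Or.inl hJ)) e4.2 (rl_ffa h rw')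
      (Or.inr ⟨rw'.2.1, e3, rl_pin h rw'⟩)
    omega
  · have := exx_one e4.1 yu
    omega

theorem ri_out (h : f.Mid γ) (hv : Co f.c.G v) : #(f.c.Ri v) + #(Out f.c.A v) ≤ dg f.c.G v := by
  have hK : K f.c.G v := le_trans (by decide) hv
  have hd : Disjoint (f.c.Ri v) (Out f.c.A v) := disjoint_left.2 fun a h1 h2 =>
    h.ori.asym _ _ (mem_Ri.1 h1).1 (mem_filter.1 h2).2
  rw [← card_union_of_disjoint hd]
  exact card_le_card (union_subset
    (fun a ha => mem_filter.2 ⟨mem_univ _, (mem_Ri.1 ha).2⟩)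
    fun a ha => mem_filter.2 ⟨mem_univ _, h.ori.outK v a hK (mem_filter.1 ha).2⟩)

theorem fi_sub : c.Fi v ⊆ c.Ri v := fun _ ha => mem_Ri.2 ⟨(mem_Fi.1 ha).1, (mem_Fi.1 ha).2.1⟩

theorem ffw_nj (h : f.Mid γ) (hJ : ¬f.d.J) (hv : f.Y v) (hp : v ∈ f.d.Pi) : f.FFw v :=
  ⟨ffa_nj h hJ hv hp, fun a => hJ (rl_J h a.2.1)⟩

/-- The contribution of the distinguished vertex. -/
theorem contrib (h : f.Mid γ) (hc : f.Ct) (hJ : ¬f.d.J) (hv : f.d.v₀ = some v) (hy : f.c.Yc v) :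
    0 ≤ #(f.c.Fo v) + xx f v + exx f v + fw f v := by
  obtain ⟨co, p0, f0, pu, -⟩ := (h.ok.nj hJ).2.2.2 v hv
  have h1 := ri_out h co
  have h2 := card_le_card (fi_sub (c := f.c) (v := v))
  have h3 := hc.dfe v co
  have h4 := (h.ori.smooth v (le_trans (by decide) co)).1
  have h5 : (#(f.c.Fi v) : ℤ) ≤ tau f.c.G f.c.κ v + exx f v + fw f v := by
    rcases hy with a | a
    · have a1 := a.2.2.1
      obtain ⟨k, hk⟩ := a1
      rw [tau, if_pos a.2]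
      by_cases y : f.Y v
      · rcases pu (Or.inl a) with b | ⟨b, rfl⟩
        · have := fw_one (ffw_nj h hJ y b)
          omega
        · have : #(f.c.Fi f.c.ρ) < #(f.c.Ri f.c.ρ) := card_lt_card ⟨fi_sub, fun e =>
            h.ori.kz (le_trans (by decide)
              (mem_Fi.1 (e (mem_Ri.2 ⟨h.ori.root, (h.ok.ub b).1.symm⟩))).2.2.2.1)⟩
          omega
      · have := exx_one (Or.inl a) y
        omega
    · obtain ⟨-, ⟨k, hk⟩, a⟩ := a
      rw [tau, if_neg fun (e : Wv f.c.G f.c.κ v) => by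
        obtain ⟨l, hl⟩ := e.2.1
        omega]
      omega
  unfold xx Cx.y1
  rw [R_zero (Or.inl hJ)]
  omega

theorem gs_zero (h : f.Mid γ) (hJ : ¬f.d.J) (v : V) : #(f.Gs v) = 0 ∧ rn f v = 0 :=
  ⟨card_eq_zero.2 (filter_eq_empty_iff.2 fun _ _ a => hJ (run_J h a.1)),
    rn_zero fun a => hJ (run_J h a)⟩

/-- The head is the distinguished vertex. -/
theorem caseC1 (h : f.Mid γ) (hc : f.Ct) (hf : f.Cf i o) (hw : w ∈ f.c.Fo u) (hJ : ¬f.d.J)
    (hv : f.d.v₀ = some w) : 1 ≤ f.val i o u w + f.val i o w u := by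
  have hF := (mem_Fo.1 hw).2
  by_cases hy : f.c.Yc w
  · obtain ⟨n1, ⟨a1, a2, a3, a4, a5, a6, a7, a8⟩, -⟩ := bas hc hf hF
    obtain ⟨n2, ⟨b1, b2, b3, b4, b5, b6, b7, b8⟩, -⟩ := bas hc hf (fc_symm hF)
    have c3 : 1 ≤ #(f.c.Fo u) := card_pos.2 ⟨w, hw⟩
    have := contrib h hc hJ hv hy
    have := gs_zero h hJ u
    have := gs_zero h hJ w
    have := xx_zero h hc hF.2.1 (fun e => hF.1.ne (Option.some.inj (e.symm.trans hv)))
      fun e => hJ (h.ok.bg u e).1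
    omega
  · obtain ⟨b, hb⟩ := ((h.ok.nj hJ).2.2.2 w hv).2.2.2.2 hy
    have := hf.v2 hJ w hv b hb (fun a => hy (h.yc w a.1).1) u
      fun e => h.ori.asym _ _ (mem_Fo.1 hw).1 (e ▸ (mem_Fo.1 hb).1)
    omega

/-- The tail is the distinguished vertex. -/
theorem caseC2 (h : f.Mid γ) (hc : f.Ct) (hf : f.Cf i o) (hw : w ∈ f.c.Fo u) (hJ : ¬f.d.J)
    (hv : f.d.v₀ = some u) : 1 ≤ f.val i o u w + f.val i o w u := by
  have hF := (mem_Fo.1 hw).2
  by_cases e : ∃ b ∈ f.c.Fo u, b ≠ w ∧ ¬(f.Y u ∧ b = f.o u)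
  · obtain ⟨b, hb, e1, e2⟩ := e
    have := hf.v2 hJ u hv b hb e2 w e1.symm
    omega
  obtain ⟨n1, ⟨a1, a2, a3, a4, a5, a6, a7, a8⟩, -⟩ := bas hc hf hF
  obtain ⟨n2, ⟨b1, b2, b3, b4, b5, b6, b7, b8⟩, -⟩ := bas hc hf (fc_symm hF)
  have c4 : 1 ≤ #(f.c.Fi w) := card_pos.2 ⟨u, fi_of_fo hw⟩
  have dw := hc.dfe w hF.2.2.1
  have gu := gs_zero h hJ u
  have gw := gs_zero h hJ w
  have xw := xx_zero h hc hF.2.2.1 (fun e => hF.1.ne (Option.some.inj (hv.symm.trans e)))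
    fun e => hJ (h.ok.bg w e).1
  have hp : ∀ x ∈ f.d.Pi, x = u := fun x hx =>
    Option.some.inj (((h.ok.nj hJ).2.1 x hx).symm.trans hv)
  have pu := ((h.ok.nj hJ).2.2.2 u hv).2.2.2.1
  by_cases m : f.Y u ∧ w = f.o u
  · have := contrib h hc hJ hv (h.yc u m.1).1
    rcases pu (h.yc u m.1).1 with b | b
    · have g := ffw_nj h hJ m.1 b
      have : 1 ≤ #(f.E3 w) := card_pos.2 ⟨u, mem_filter.2 ⟨mem_univ _, g, m.2.symm,
        fun a => g.1.2.2.1.ne (hp _ a.1.1.2.1).symm, fun a => hF.1.ne (hp _ a.1.1.2.1).symm⟩⟩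
      omega
    · have := gain_U h ⟨m.1, b⟩ m.2.symm hw
      omega
  have d1 : f.dz u = some w := by
    refine dz_only (mem_Cand.2 ⟨hw, fun a => m ⟨?_, a.2⟩⟩) (fun x hx => by_contra fun e4 => ?_)
      (Or.inr (Or.inr ⟨hJ, hv⟩))
    · exact a.1.elim (fun b => b.1) fun b => b.elim (fun b => b.1) fun b => b.1
    · have e5 : f.Y u ∧ x = f.o u := by_contra fun a => e ⟨x, (mem_Cand.1 hx).1, e4, a⟩
      exact (mem_Cand.1 hx).2 ⟨(pu (h.yc u e5.1).1).elim (fun b => Or.inl (ffa_nj h hJ e5.1 b))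
        fun b => Or.inr (Or.inr ⟨e5.1, b⟩), e5.2⟩
  have d2 : #(f.E1 w u) = 0 := card_eq_zero.2 (filter_eq_empty_iff.2 fun y hy a =>
    a ⟨⟨hy, Or.inr ⟨hJ, hv⟩⟩, card_eq_zero.1 (by omega), d1⟩)
  have d3 : #(f.E2 w u) = 0 := card_eq_zero.2 (filter_eq_empty_iff.2 fun y _ a => by
    obtain ⟨g1, g2⟩ := ni_cases h (v := y) (u := u) (mem_filter.2 ⟨mem_univ _, a.1, a.2.1⟩)
    rcases g2 with g2 | ⟨g2, g3, -⟩
    · exact a.2.2 (fc_eq g2 (mem_Fi.1 g1).2 hF)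
    · rcases (h.ok.pi u g2).1 with g4 | g4
      · have := (h.ok.pir hJ u g2).1 g4
        obtain ⟨k, hk⟩ := g4.2.2.1
        have : 3 ≤ dg f.c.G u := g4.1
        omega
      · have g5 := (h.ok.pir hJ u g2).2 g4
        have := card_pos.2 g5.2
        omega)
  omega

end Gh2

open Gh2 in
theorem gh2 : SGh2 := by
  intro V _ f γ i o h hc hf u w hw
  by_cases ru : f.Rl u
  · exact caseB1 h hc hf hw ru
  by_cases rw' : f.Rl w
  · exact caseB2 h hc hf hw ru rw'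
  by_cases ju : f.d.J ∨ f.d.v₀ ≠ some u
  · by_cases jw : f.d.J ∨ f.d.v₀ ≠ some w
    · exact caseA h hc hf hw ru rw' ju jw
    · rw [not_or, not_not] at jw
      have := caseC1 h hc hf hw jw.1 jw.2
      rw [ind_of (mem_insert_of_mem (mem_singleton_self w)) jw.2]
      omega
  · rw [not_or, not_not] at ju
    have := caseC2 h hc hf hw ju.1 ju.2
    rw [ind_of (mem_insert_self u _) ju.2]
    omega

end

end Pool.Agent.MP_d1f1f3_co.H2
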