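import Pool.Agent.MP_d1f1f3_co.H2.Spec2

/-!
Row GH2, part one: structural facts and gains.
-/

namespace Pool.Agent.MP_d1f1f3_co.H2

open Finset Relation H47
open scoped Classical

noncomputable section

namespace Gh2

variable {V : Type} [Fintype V] {f : Fr V} {γ : ZMod 2} {c : Cx V} {u v w x : V}

theorem mem_Fo : w ∈ c.Fo u ↔ c.A u w ∧ Fc c.G c.κ u w := by simp [Cx.Fo]

theorem mem_Fi : w ∈ c.Fi u ↔ c.A w u ∧ Fc c.G c.κ u w := by simp [Cx.Fi]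

theorem mem_Ri : w ∈ c.Ri u ↔ c.A w u ∧ c.G.Adj u w := by simp [Cx.Ri]

theorem fc_symm (h : Fc c.G c.κ u w) : Fc c.G c.κ w u :=
  ⟨h.1.symm, h.2.2.1, h.2.1, h.2.2.2.symm⟩

theorem fi_of_fo (h : w ∈ c.Fo u) : u ∈ c.Fi w :=
  mem_Fi.2 ⟨(mem_Fo.1 h).1, fc_symm (mem_Fo.1 h).2⟩

theorem fc_eq (h : df c.G c.κ u = 1) (h1 : Fc c.G c.κ u v) (h2 : Fc c.G c.κ u w) : v = w :=
  card_le_one.1 h.le v (mem_filter.2 ⟨mem_univ _, h1⟩) w (mem_filter.2 ⟨mem_univ _, h2⟩)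

theorem tau_pos (h : Co c.G v) : 1 ≤ tau c.G c.κ v := by
  unfold tau
  unfold Co at h
  split_ifs with h1
  · obtain ⟨k, hk⟩ := h1.2.1
    omega
  · omega

theorem o_A (h : f.Mid γ) (hv : f.Y v) : f.c.A v (f.o v) := by
  have h1 := (h.yc v hv).2.2.2.2
  have hg : ∀ b ∈ f.c.Og f.d v, f.c.A v b := fun b hb => (mem_filter.1 (mem_filter.1 hb).1).2
  unfold Cx.OO at h1
  split_ifs at h1 with a b c d
  · exact hg _ h1
  · rw [mem_singleton.1 h1]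
    exact (mem_Fo.1 (h.ok.pij c v b).1).1
  · exact (mem_Fo.1 h1).1
  · exact (mem_Fo.1 h1).1
  · exact hg _ h1

theorem o_pi (h : f.Mid γ) (hv : f.Y v) (hp : v ∈ f.d.Pi) : f.o v ∈ f.c.Fo v := by
  have h1 := (h.yc v hv).2.2.2.2
  rw [Cx.OO, if_neg (h.ok.pi v hp).2.2.2, if_pos hp] at h1
  split_ifs at h1 with a
  · rw [mem_singleton.1 h1]
    exact (h.ok.pij a v hp).1
  · exact h1

theorem o_r2 (h : f.Mid γ) (hv : f.Y v) (hp : f.c.R2 f.d v) : f.o v ∈ f.c.Fo v := by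
  have h1 := (h.yc v hv).2.2.2.2
  rwa [Cx.OO, if_neg hp.2.2.2.1, if_neg hp.2.2.1, if_pos hp] at h1

theorem ffa_nj (h : f.Mid γ) (hJ : ¬f.d.J) (hv : f.Y v) (hp : v ∈ f.d.Pi) : f.FFa v := by
  have h1 := (h.yc v hv).2.2.2.1
  rw [Cx.II, if_neg (h.ok.pi v hp).2.2.2, if_pos hp, if_neg hJ] at h1
  exact ⟨hv, hp, (mem_Fi.1 h1).2⟩

theorem rl_ffa (h : f.Mid γ) (hr : f.Rl v) : ¬f.FFa v := fun ha =>
  (h.ok.pa _ hr.2.2).2.1.2.2.2 ha.2.2.2.2.2.symm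

theorem rl_J (h : f.Mid γ) (hr : f.Rl v) : f.d.J :=
  by_contra fun hJ => rl_ffa h hr (ffa_nj h hJ hr.1 hr.2.1)

theorem run_J (h : f.Mid γ) (hr : f.Run v) : f.d.J :=
  hr.elim (rl_J h) fun a => rl_J h a.2.1

theorem run_pi (hr : f.Run v) : f.Y v ∧ v ∈ f.d.Pi :=
  hr.elim (fun a => ⟨a.1, a.2.1⟩) fun a => ⟨a.1.1, a.1.2.1⟩

theorem pi_df (h : f.Mid γ) (hJ : f.d.J) (hp : v ∈ f.d.Pi) : 2 ≤ df f.c.G f.c.κ v := by
  obtain ⟨h1, h2⟩ := (h.ok.pij hJ v hp).2.1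
  have := tau_pos (c := f.c) h1
  omega

theorem rl_pin (h : f.Mid γ) (hr : f.Rl v) : f.c.pin f.d v = 1 :=
  le_antisymm (h.ok.pij (rl_J h hr) v hr.2.1).2.2.2.1
    (card_pos.2 ⟨_, mem_filter.2 ⟨hr.2.2, rfl⟩⟩)

theorem pin_cases (h : f.Mid γ) (hJ : f.d.J) (hv : f.Y v) (hp : v ∈ f.d.Pi)
    (h1 : f.c.pin f.d v = 1) : f.FFa v ∨ f.Rl v := by
  have h2 := (h.yc v hv).2.2.2.1
  rw [Cx.II, if_neg (h.ok.pi v hp).2.2.2, if_pos hp, if_pos hJ] at h2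
  have h3 := ((h.ok.pij hJ v hp).2.2.2.2 h1).1
  by_contra h4
  rw [not_or] at h4
  exact notMem_empty (f.i v) (h3 ▸ mem_filter.2
    ⟨h2, fun a => h4.1 ⟨hv, hp, a⟩, fun a => h4.2 ⟨hv, hp, a⟩⟩)

/-- Arcs from rigid tails. -/
def NI (f : Fr V) (w : V) : Finset V := univ.filter fun y => f.NR y ∧ f.o y = w

/-- Arcs from the root vertex. -/
def UI (f : Fr V) (w : V) : Finset V :=
  univ.filter fun y => f.UB y ∧ f.o y = w ∧ Fc f.c.G f.c.κ w y ∧ ¬f.Mg y w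

theorem ni_cases (h : f.Mid γ) (hy : v ∈ NI f u) : v ∈ f.c.Fi u ∧
    (df f.c.G f.c.κ u = 1 ∨ (u ∈ f.d.Pi ∧ df f.c.G f.c.κ u = 2 ∧ f.c.pin f.d u = 1)) := by
  obtain ⟨h1, rfl⟩ := (mem_filter.1 hy).2
  have h2 := o_r2 h h1.1 h1.2.1
  obtain ⟨w, h3, h4⟩ := h1.2.1.2.2.2.2
  rw [fc_eq h1.2.1.2.1 (mem_Fo.1 h3).2 (mem_Fo.1 h2).2] at h4
  exact ⟨fi_of_fo h2, h4⟩

def exx (f : Fr V) (v : V) : ℕ := if f.c.Yc v ∧ ¬f.Y v then 1 else 0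

def rn (f : Fr V) (v : V) : ℕ := if f.Run v then 1 else 0

def fw (f : Fr V) (v : V) : ℕ := if f.FFw v then 1 else 0

def xx (f : Fr V) (v : V) : ℤ := f.c.y1 f.d v - f.R v

theorem exx_one (h : f.c.Yc v) (h' : ¬f.Y v) : exx f v = 1 := if_pos ⟨h, h'⟩

theorem fw_one (h : f.FFw v) : fw f v = 1 := if_pos h

theorem rn_zero (h : ¬f.Run v) : rn f v = 0 := if_neg h

theorem rn_le : rn f v ≤ 1 := by
  unfold rn
  split_ifs <;> omega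

theorem op_le (hc : f.Ct) (v : V) : #(f.Op v) ≤ #(f.Gs v) := by
  have := hc.op v
  omega

theorem op_rn (hc : f.Ct) (h : ¬f.Rl v) : #(f.Op v) + rn f v ≤ #(f.Gs v) := by
  have h1 := hc.op v
  by_cases h2 : f.FFr v
  · rw [if_pos h2] at h1
    have := rn_le (f := f) (v := v)
    omega
  · rw [rn_zero fun a => a.elim h h2]
    omega

theorem ffa_gain (hc : f.Ct) (h : f.FFa v) : 1 ≤ fw f v + #(f.Gs v) := by
  have h1 := hc.op v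
  by_cases h2 : f.FFr v
  · rw [if_pos h2] at h1
    omega
  · rw [fw_one ⟨h, h2⟩]
    omega

/-- The inequalities for the tokens of `p` and the edge `p q`. -/
def Bs (f : Fr V) (i o : V → V) (p q : V) (n : ℕ) : Prop :=
  n ≤ #(f.Op p) ∧ #(f.Op p) ≤ #(f.Gs p) ∧ rn f p ≤ 1 ∧
    (df f.c.G f.c.κ p : ℤ) + xx f p + #(f.Gs p) + exx f p ≤
      f.val i o p q + #(f.E1 p q) + #(f.E2 p q) + n + rn f p ∧
    #(f.Fod q) + #(NI f q) + #(f.E3 q) + #(UI f q) + #(f.Gs q) + fw f q = #(f.c.Fi q) ∧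
    #(f.E1 p q) ≤ #(f.Fod q) ∧ #(f.E2 p q) ≤ #(NI f q) ∧
    df f.c.G f.c.κ p = #(f.c.Fo p) + #(f.c.Fi p)

theorem bas {i o : V → V} (hc : f.Ct) (hf : f.Cf i o) {p q : V} (h : Fc f.c.G f.c.κ p q) :
    ∃ n, Bs f i o p q n ∧ (f.Rl q → n ≤ #(f.E3 q)) := by
  have h1 := hf.v1 p q h
  have h2 := hc.out p h.2.1
  have h3 : (if f.c.Yc p ∧ ¬f.Y p then 1 else 0 : ℤ) = exx f p := by
    unfold exx
    split_ifs <;> rfl
  have h4 : (if f.Run p then 1 else 0 : ℤ) = rn f p := by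
    unfold rn
    split_ifs <;> rfl
  rw [h3, h4] at h2
  have h5 : #(f.E2 p q) ≤ #(NI f q) := card_le_card fun y hy =>
    mem_filter.2 ⟨mem_univ _, (mem_filter.1 hy).2.1, (mem_filter.1 hy).2.2.1⟩
  refine ⟨if f.Rl q then min #(f.Op p) #(f.E3 q) else #(f.Op p), ⟨?_, op_le hc p, rn_le, ?_,
    hc.ends q h.2.2.1, card_filter_le _ _, h5, hc.dfe p h.2.1⟩, fun a => ?_⟩
  · split_ifs <;> omega
  · unfold xx
    split_ifs at h1 ⊢ <;> omega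
  · rw [if_pos a]
    omega

theorem gain_N {p q : V} (h : f.NR p) (e : f.o p = q) : #(f.E2 p q) + 1 ≤ #(NI f q) :=
  card_lt_card ⟨fun y hy =>
    mem_filter.2 ⟨mem_univ _, (mem_filter.1 hy).2.1, (mem_filter.1 hy).2.2.1⟩, fun a =>
      (mem_filter.1 (a (mem_filter.2 ⟨mem_univ p, h, e⟩))).2.2.2 rfl⟩

theorem gain_U (h : f.Mid γ) {p q : V} (hu : f.UB p) (e : f.o p = q) (hq : q ∈ f.c.Fo p) :
    1 ≤ #(UI f q) + fw f q := by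
  by_cases h1 : f.FFw q
  · rw [fw_one h1]
    omega
  · refine le_add_right (card_pos.2 ⟨p, mem_filter.2
      ⟨mem_univ _, hu, e, fc_symm (mem_Fo.1 hq).2, ?_⟩⟩)
    rintro (a | ⟨a, b⟩)
    · exact h1 a.1
    · exact h.ori.asym _ _ (mem_Fo.1 hq).1 (b ▸ o_A h (run_pi a).1)

theorem gain_D {p q : V} (hz : f.dz q = some p) (ho : #(f.Op q) = 0) :
    #(f.E1 p q) + 1 ≤ #(f.Fod q) ∨ #(f.Fod q) = 0 := by
  rcases (f.Fod q).eq_empty_or_nonempty with h | h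
  · exact Or.inr (card_eq_zero.2 h)
  · have h1 : f.di q ∈ f.Fod q := by
      rw [Fr.di, dif_pos h]
      exact h.choose_spec
    exact Or.inl (card_lt_card ⟨filter_subset _ _, fun a =>
      (mem_filter.1 (a h1)).2 ⟨⟨h1, Or.inl rfl⟩, card_eq_zero.1 ho, hz⟩⟩)

theorem dz_one (hw : w ∈ f.Cand u) (h1 : df f.c.G f.c.κ w = 1)
    (h : ∀ x ∈ f.Cand u, df f.c.G f.c.κ x = 1 → x = w) : f.dz u = some w := by
  have h2 : ∃ w ∈ f.Cand u, df f.c.G f.c.κ w = 1 := ⟨w, hw, h1⟩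
  rw [Fr.dz, dif_pos h2, h _ h2.choose_spec.1 h2.choose_spec.2]

theorem dz_only (hw : w ∈ f.Cand u) (h : ∀ x ∈ f.Cand u, x = w)
    (h1 : df f.c.G f.c.κ w = 1 ∨ f.Rl w ∨ (¬f.d.J ∧ f.d.v₀ = some u)) : f.dz u = some w := by
  unfold Fr.dz
  split_ifs with a b
  · rw [h _ a.choose_spec.1]
  · rw [h _ b.choose_spec.1]
  · exact (h1.elim (fun e => a ⟨w, hw, e⟩) fun e => b ⟨w, hw, e⟩).elim

theorem mem_Cand : w ∈ f.Cand u ↔
    w ∈ f.c.Fo u ∧ ¬((f.FFa u ∨ f.Rl u ∨ f.UB u) ∧ w = f.o u) := mem_filter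

theorem ind_of {v₀ : Option V} {X : Finset V} (hv : v ∈ X) (h : v₀ = some v) : ind v₀ X = 1 :=
  if_pos ⟨v, hv, h⟩

theorem ind_not {v₀ : Option V} (h : v₀ ≠ some v) : ind v₀ {v} = 0 :=
  if_neg fun ⟨_, a, b⟩ => h (mem_singleton.1 a ▸ b)

theorem ind_le {v₀ : Option V} : ind v₀ {w} ≤ ind v₀ {u, w} := by
  by_cases h : v₀ = some w
  · rw [ind_of (mem_singleton_self w) h, ind_of (mem_insert_of_mem (mem_singleton_self w)) h]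
  · rw [ind_not h]
    omega

theorem xx_zero (h : f.Mid γ) (hc : f.Ct) (hv : Co f.c.G v) (h1 : f.d.v₀ ≠ some v)
    (h2 : f.d.big ≠ some v) : 0 ≤ xx f v := by
  have := h.ok.x0 v hv h1 h2
  have := hc.rb v
  unfold xx
  omega

theorem xx_big (h : f.Mid γ) (hc : f.Ct) (h2 : f.d.big = some v) :
    -1 ≤ xx f v ∧ 2 ≤ #(f.c.Fo v) ∧ 3 ≤ df f.c.G f.c.κ v := by
  obtain ⟨-, -, -, -, a, b, c, -⟩ := h.ok.bg v h2
  have := hc.rb v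
  unfold xx
  omega

theorem xx_ind (h : f.Mid γ) (hc : f.Ct) (hv : Co f.c.G v) {X : Finset V} (hX : v ∈ X)
    (h1 : f.d.J ∨ f.d.v₀ ≠ some v) (h2 : f.d.big ≠ some v) : 0 ≤ xx f v + ind f.d.v₀ X := by
  by_cases h3 : f.d.v₀ = some v
  · have := (h.ok.x1 (h1.resolve_right fun a => a h3) v h3).2
    have := hc.rb v
    rw [ind_of hX h3]
    unfold xx
    omega
  · have := xx_zero h hc hv h3 h2
    omega

theorem rl_facts (h : f.Mid γ) (hc : f.Ct) (hr : f.Rl x) :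
    0 ≤ xx f x ∧ 1 ≤ #(f.c.Fi x) ∧ 1 ≤ #(f.c.Fo x) ∧ fw f x = 0 := by
  obtain ⟨-, a, b⟩ := (h.ok.pij (rl_J h hr) x hr.2.1).2.2.2.2 (rl_pin h hr)
  exact ⟨xx_zero h hc hr.1.1 b fun e => (h.ok.bg x e).2.2.1 (h.ok.pi x hr.2.1).1, card_pos.2 a,
    card_pos.2 ⟨_, o_pi h hr.1 hr.2.1⟩, if_neg fun e => rl_ffa h hr e.1⟩

/-- A vertex with one unseparated arc going out and some coming in gives a gain. -/
theorem gain_one (h : f.Mid γ) (hc : f.Ct) (hw : w ∈ f.c.Fo u) (h1 : #(f.c.Fo u) = 1)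
    (h2 : 2 ≤ df f.c.G f.c.κ u) (hr : ¬f.Rl u) (hJ : f.d.J ∨ f.d.v₀ ≠ some u)
    (h3 : df f.c.G f.c.κ w = 1 ∨ f.Rl w) :
    1 ≤ fw f u + #(f.Gs u) + exx f u ∨ 1 ≤ #(UI f w) + fw f w ∨
      (#(NI f u) = 0 ∧ (#(f.E1 w u) + 1 ≤ #(f.Fod u) ∨ #(f.Fod u) = 0)) := by
  by_cases a : f.FFa u
  · have := ffa_gain hc a
    omega
  by_cases b : f.c.Yc u ∧ ¬f.Y u
  · have := exx_one b.1 b.2
    omega
  by_cases d : f.UB u ∧ f.o u = w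
  · exact Or.inr (Or.inl (gain_U h d.1 d.2 hw))
  by_cases e : #(f.Op u) = 0
  · refine Or.inr (Or.inr ⟨card_eq_zero.2 (eq_empty_of_forall_notMem fun y hy => ?_),
      gain_D (dz_only (mem_Cand.2 ⟨hw, ?_⟩) (fun x hx => card_le_one.1 h1.le _
        (mem_Cand.1 hx).1 _ hw) (h3.imp_right Or.inl)) e⟩)
    · rcases (ni_cases h hy).2 with g | ⟨g1, -, g2⟩
      · omega
      · have hy := by_contra fun g => b ⟨(h.ok.pi u g1).1, g⟩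
        by_cases j : f.d.J
        · exact (pin_cases h j hy g1 g2).elim a hr
        · exact hJ.elim j fun g => g ((h.ok.nj j).2.1 u g1)
    · rintro ⟨g | g | g, g'⟩
      exacts [a g, hr g, d ⟨g, g'.symm⟩]
  · have := op_le hc u
    omega

/-- A merging tail of degree one in the unseparated graph is rigid. -/
theorem nr_of (h : f.Mid γ) (hw : w ∈ f.c.Fo u) (h1 : df f.c.G f.c.κ u = 1) (hy : f.Y u)
    (hp : u ∉ f.d.Pi) (hu : ¬f.c.Ub f.d u) (hf : ¬f.FFa w)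
    (h2 : df f.c.G f.c.κ w = 1 ∨ (w ∈ f.d.Pi ∧ df f.c.G f.c.κ w = 2 ∧ f.c.pin f.d w = 1)) :
    #(f.E2 u w) + 1 ≤ #(NI f w) := by
  have h3 : f.c.R2 f.d u := ⟨(h.yc u hy).1, h1, hp, hu, w, hw, h2⟩
  have h4 : f.o u = w := fc_eq h1 (mem_Fo.1 (o_r2 h hy h3)).2 (mem_Fo.1 hw).2
  exact gain_N ⟨hy, h3, fun a => hf (h4 ▸ a.1)⟩ h4

end Gh2

end

end Pool.Agent.MP_d1f1f3_co.H2
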