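import Pool.Agent.MP_d1f1f3_co.H2.Gh21

/-!
Row GH2, part two: bounds for the tolerated returns and the exceptional configuration.
-/

namespace Pool.Agent.MP_d1f1f3_co.H2

open Finset Relation H47
open scoped Classical

noncomputable section

namespace Gh2

variable {V : Type} [Fintype V] {f : Fr V} {γ : ZMod 2} {c : Cx V} {u v w x : V}

theorem R_zero (h : ¬f.d.J ∨ f.c.κ v = 1) : f.R v = 0 := by
  unfold Fr.R
  exact if_pos (Or.inr (h.imp_right Or.inl))

theorem R_three (h1 : df f.c.G f.c.κ v = 1) (h : 3 ≤ f.d.t v) : (f.R v : ℤ) ≤ f.d.t v - 2 := by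
  unfold Fr.R
  split_ifs <;> omega

theorem R_two (h : f.d.t v = 2) : f.R v ≤ 1 := by
  unfold Fr.R
  split_ifs <;> omega

theorem R_one (h1 : df f.c.G f.c.κ v = 1) (h : f.d.t v = 1) :
    f.R v = 0 ∨ ∃ w ∈ f.c.Fo v, f.c.Ecf f.d v w := by
  by_cases h2 : ∃ w ∈ f.c.Fo v, f.c.Ecf f.d v w
  · exact Or.inr h2
  · left
    unfold Fr.R
    split_ifs <;> rfl

theorem R_sink (h1 : df f.c.G f.c.κ v = 1) (h0 : #(f.c.Fo v) = 0) (h : 1 ≤ f.d.t v) :
    (f.R v : ℤ) ≤ f.d.t v - 1 := by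
  rcases lt_trichotomy (f.d.t v) 2 with a | a | a
  · rcases R_one h1 (by omega) with b | ⟨w, b, -⟩
    · omega
    · exact absurd (card_pos.2 ⟨w, b⟩) (by omega)
  · have := R_two a
    omega
  · have := R_three h1 (by omega)
    omega

theorem R_sf (h1 : df f.c.G f.c.κ v = 1) (hs : v ∈ f.d.Sf) (hu : u ∈ f.c.Fi v)
    (h2 : df f.c.G f.c.κ u = 1) (h : 2 ≤ f.d.t v) : (f.R v : ℤ) ≤ f.d.t v - 2 := by
  rcases h.eq_or_lt with a | a
  · have h3 : v ∈ f.d.Sf ∧ df f.c.G f.c.κ v = 1 ∧ ∃ u ∈ f.c.Fi v, df f.c.G f.c.κ u = 1 :=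
      ⟨hs, h1, u, hu, h2⟩
    unfold Fr.R
    split_ifs <;> omega
  · exact R_three h1 (by omega)

theorem R_max (hc : f.Ct) (v : V) : f.R v = 0 ∨ (f.R v : ℤ) ≤ f.d.t v := by
  have := hc.rb v
  unfold Cx.Rb at this
  split_ifs at this <;> omega

theorem l2_facts (h : f.Mid γ) (hy : f.c.L2 v) :
    f.c.κ v ≠ 0 ∧ f.d.t v + ∑ x, (f.d.sF v x : ℤ) ≤ 0 := by
  obtain ⟨⟨a, b⟩, h4, h1, -⟩ := hy
  have h2 := h.ok.t1 v a
  have h3 := b.2.2
  rw [tau, if_pos b, h4, h1] at h2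
  rw [h4] at h3
  refine ⟨fun e => h3 (e.trans (by decide)), ?_⟩
  omega

theorem l2_nf (h : f.Mid γ) (hv : f.c.L2 v) (hw : f.c.L2 w) : ¬Fc f.c.G f.c.κ v w := fun e =>
  (h.ori.real v w e.1).elim
    (fun a => notMem_empty w (hv.2.2.2 ▸ mem_Fo.2 ⟨a, e⟩))
    fun a => notMem_empty v (hw.2.2.2 ▸ mem_Fo.2 ⟨a, fc_symm e⟩)

theorem ecf_t (h : f.Mid γ) (hJ : f.d.J) (ht : f.d.t u = 1) (h1 : df f.c.G f.c.κ u = 1)
    (h2 : df f.c.G f.c.κ w = 1) (hs : f.d.sF u w = 0) (he : f.c.Ecf f.d u w) : 1 ≤ f.d.t w := by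
  obtain ⟨cu, cw, ku, kw, hne, B, hB, hL, -⟩ := he
  have hwB : w ∉ B := fun a => (hL w a).2.2.ne rfl
  have huB : u ∉ insert w B := fun a =>
    (mem_insert.1 a).elim hne fun b => (hL u b).2.1.ne rfl
  have hX : ∀ v ∈ insert u (insert w B), Co f.c.G v := fun v hv => by
    rcases mem_insert.1 hv with rfl | hv
    · exact cu
    rcases mem_insert.1 hv with rfl | hv
    · exact cw
    · exact (hL v hv).1.1.1
  have h3 := h.ok.th hJ _ hX
  have hF : ∀ p, df f.c.G f.c.κ p = 1 →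
      #((insert u (insert w B)).filter fun x => Fc f.c.G f.c.κ p x) ≤ 1 := fun p hp =>
    hp ▸ card_le_card (filter_subset_filter _ (subset_univ _))
  have hH : ∀ p, Co f.c.G p → f.c.κ p = 0 → (∀ y ∈ B, f.c.G.Adj p y) →
      3 ≤ #((insert u (insert w B)).filter fun x => Hc f.c.G f.c.κ p x) := fun p a b d =>
    hB ▸ card_le_card fun y hy => mem_filter.2 ⟨mem_insert_of_mem (mem_insert_of_mem hy),
      d y hy, a, (hL y hy).1.1.1, fun e => (l2_facts h (hL y hy).1).1 (e ▸ b)⟩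
  have hy : ∀ y ∈ B, 2 * f.d.t y + 1 +
      #((insert u (insert w B)).filter fun x => Fc f.c.G f.c.κ y x) -
      #((insert u (insert w B)).filter fun x => Hc f.c.G f.c.κ y x) +
      ∑ x ∈ insert u (insert w B), (f.d.sF y x : ℤ) ≤ -1 - f.d.sF u y - f.d.sF w y := by
    intro y hy
    obtain ⟨l, au, aw⟩ := hL y hy
    obtain ⟨k, t⟩ := l2_facts h l
    have a1 : #((insert u (insert w B)).filter fun x => Fc f.c.G f.c.κ y x) = 0 := by
      refine card_eq_zero.2 (filter_eq_empty_iff.2 fun x hx e => ?_)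
      rcases mem_insert.1 hx with rfl | hx
      · exact k (e.2.2.2.trans ku)
      rcases mem_insert.1 hx with rfl | hx
      · exact k (e.2.2.2.trans kw)
      · exact l2_nf h l (hL x hx).1 e
    have a2 : 2 ≤ #((insert u (insert w B)).filter fun x => Hc f.c.G f.c.κ y x) := by
      refine (card_pair hne).symm.le.trans (card_le_card fun x hx => ?_)
      rcases mem_insert.1 hx with rfl | hx
      · exact mem_filter.2 ⟨mem_insert_self _ _, au.symm, l.1.1, cu, fun e => k (e.trans ku)⟩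
      · rw [mem_singleton.1 hx]
        exact mem_filter.2 ⟨mem_insert_of_mem (mem_insert_self _ _), aw.symm, l.1.1, cw,
          fun e => k (e.trans kw)⟩
    have a3 : ∑ x ∈ insert u (insert w B), (f.d.sF y x : ℤ) ≤ ∑ x, (f.d.sF y x : ℤ) :=
      sum_le_sum_of_subset_of_nonneg (subset_univ _) fun _ _ _ => Int.natCast_nonneg _
    have a4 : ∑ x ∈ {u, w}, (f.d.sF y x : ℤ) ≤ ∑ x, (f.d.sF y x : ℤ) :=
      sum_le_sum_of_subset_of_nonneg (subset_univ _) fun _ _ _ => Int.natCast_nonneg _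
    rw [sum_pair hne, h.ok.sym y u, h.ok.sym y w] at a4
    omega
  have h4 := sum_le_sum hy
  rw [sum_sub_distrib, sum_sub_distrib, sum_const, hB] at h4
  have h5 : ∀ p, ∑ x ∈ insert u (insert w B), (f.d.sF p x : ℤ) =
      f.d.sF p u + (f.d.sF p w + ∑ x ∈ B, (f.d.sF p x : ℤ)) := fun p => by
    rw [sum_insert huB, sum_insert hwB]
  rw [Dl, sum_insert huB, sum_insert hwB, h5 u, h5 w, h.ok.sdiag, h.ok.sdiag, h.ok.sym w u, hs]
    at h3
  have b1 := hF u h1
  have b2 := hF w h2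
  have b3 := hH u cu ku fun y hy => (hL y hy).2.1
  have b4 := hH w cw kw fun y hy => (hL y hy).2.2
  simp only [nsmul_eq_mul] at h4
  push_cast at h3 h4
  omega

theorem ind_add {v₀ : Option V} (h : u ≠ w) : ind v₀ {u} + ind v₀ {w} ≤ ind v₀ {u, w} := by
  by_cases a : v₀ = some u
  · rw [ind_of (mem_singleton_self u) a, ind_of (mem_insert_self u _) a,
      ind_not fun b => h (Option.some.inj (a.symm.trans b))]
  · rw [ind_not a, zero_add]
    exact ind_le

/-- The gain on an isolated unseparated edge whose tail never merges. -/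
theorem k2_gain (h : f.Mid γ) (hc : f.Ct) (hw : w ∈ f.c.Fo u) (h1 : df f.c.G f.c.κ u = 1)
    (h2 : df f.c.G f.c.κ w = 1) (h0 : #(f.c.Fo w) = 0) (hy : ¬f.c.Yc u) (hv : f.d.v₀ ≠ some u)
    (xu : 0 ≤ xx f u) (xw : 0 ≤ xx f w + ind f.d.v₀ {w}) :
    1 ≤ xx f u + xx f w + ind f.d.v₀ {w} := by
  have hF := (mem_Fo.1 hw).2
  have yu := h.ok.yb u hF.2.1
  have yw := h.ok.yb w hF.2.2.1
  have pu := h.ok.po u
  have pw := h.ok.po w
  rw [ind_not hv] at yu
  have yu' : f.d.t u + f.c.pin f.d u - f.c.pout f.d u ≤ f.c.y1 f.d u := by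
    unfold Cx.y1
    split_ifs at yu <;> omega
  have yw' : f.d.t w + f.c.pin f.d w - f.c.pout f.d w ≤ f.c.y1 f.d w + ind f.d.v₀ {w} := by
    unfold Cx.y1
    split_ifs at yw <;> omega
  have ru := R_max hc u
  have rw' := R_max hc w
  unfold xx at xu xw ⊢
  rcases h.ok.k2 u w hw h1 h2 hy hv with a | a | ⟨a, b⟩ | ⟨hJ, -, a | ⟨a, b, d⟩ | a | ⟨a, b⟩⟩
  · omega
  · omega
  · rw [R_zero a, R_zero (a.imp_right fun e => hF.2.2.2 ▸ e)]
    omega
  · have := R_three h1 a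
    omega
  · rcases lt_trichotomy (f.d.t u) 2 with e | e | e
    · rcases R_one h1 (by omega) with g | ⟨w', g1, g2⟩
      · omega
      · rw [fc_eq h1 (mem_Fo.1 g1).2 hF] at g2
        have g3 := ecf_t h hJ (by omega) h1 h2 d g2
        have g4 : f.c.pout f.d w = 0 := card_eq_zero.2 (filter_eq_empty_iff.2 fun e he e' =>
          h.ok.ne hJ u w (Or.inr (e' ▸ (h.ok.pa e he).2.2 hJ)) g2)
        have := R_sink h2 h0 g3
        omega
    · have := R_two e
      omega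
    · have := R_three h1 (by omega)
      omega
  · have := R_sink h2 h0 a.1
    omega
  · have := R_sf h2 a (fi_of_fo hw) h1 b
    omega

end Gh2

end

end Pool.Agent.MP_d1f1f3_co.H2
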