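import Pool.Agent.MP_d1f1f3_co.H2.Gn0A

/-!
Row GN0: the number of returns at a vertex of class zero.
-/

namespace Pool.Agent.MP_d1f1f3_co.H2

open Finset Relation H47
open scoped Classical

namespace Gn0

variable {V : Type} [Fintype V] {f : Fr V} {γ : ZMod 2} {u v w y b p : V} {B : Finset V} {r : ℕ}

omit [Fintype V] in
theorem sum_one {S : V → Finset V}
    (h : ∀ y ∈ B, ∀ b ∈ S y, ∀ y' ∈ B, ∀ b' ∈ S y', y = y' ∧ b = b') :
    ∑ y ∈ B, (#(S y) : ℤ) ≤ 1 := by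
  have h1 : #(B.sigma S) ≤ 1 := card_le_one.2 fun a ha a' ha' => by
    obtain ⟨e1, e2⟩ := h _ (mem_sigma.1 ha).1 _ (mem_sigma.1 ha).2 _ (mem_sigma.1 ha').1 _
      (mem_sigma.1 ha').2
    exact Sigma.ext e1 (heq_of_eq e2)
  rw [card_sigma] at h1
  exact_mod_cast h1

/-- The class of `p`. -/
noncomputable def Bs (f : Fr V) (p : V) (B : Finset V) : Finset V :=
  B.filter fun y => f.c.κ y = f.c.κ p

/-- The other class. -/
noncomputable def Bo (f : Fr V) (p : V) (B : Finset V) : Finset V :=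
  B.filter fun y => f.c.κ y ≠ f.c.κ p

/-- The excess of the other class. -/
noncomputable def LL (f : Fr V) (p : V) (B : Finset V) : ℤ :=
  ∑ y ∈ Bo f p B, (f.lam y + if Hc f.c.G f.c.κ y p then 0 else 1)

/-- The excess of the class of `p`. -/
noncomputable def MM (f : Fr V) (p : V) (B : Finset V) : ℤ := ∑ y ∈ Bs f p B, f.mu y

/-- The number of located arcs. -/
noncomputable def EE (f : Fr V) (p : V) (B : Finset V) : ℤ :=
  ∑ y ∈ Bs f p B, (#(f.c.Fo y ∩ f.M y) : ℤ)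

/-- Located arcs that stay inside. -/
noncomputable def CC (f : Fr V) (p : V) (B : Finset V) : ℤ :=
  ∑ y ∈ B, (#(f.c.Fo y ∩ f.M y ∩ insert p B) : ℤ)

/-- Other arcs that leave. -/
noncomputable def UU (f : Fr V) (p : V) (B : Finset V) : ℤ :=
  ∑ y ∈ B, (#((f.c.Fo y \ f.M y) \ insert p B) : ℤ)

theorem none_zero (h : ∀ y ∈ B, f.c.Fo y ∩ f.M y = ∅) : EE f p B = 0 ∧ CC f p B = 0 :=
  ⟨sum_eq_zero fun y hy => by simp [h y (mem_filter.1 hy).1],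
    sum_eq_zero fun y hy => by simp [h y hy]⟩

theorem phi_sub : f.c.Fo p ∩ B ⊆ Bs f p B := fun _ h =>
  mem_filter.2 ⟨(mem_inter.1 h).2, (mem_Fo.1 (mem_inter.1 h).1).2.2.2.2.symm⟩

variable (hM : f.Mid γ) (hS : f.SF p B r) (hJ : f.d.J) (hk : f.c.κ p = 0) (ht : 0 ≤ f.d.t p)
include hM hS hJ

omit hM in
theorem arc (hy : y ∈ B) (hb : b ∈ f.c.Fo y ∩ f.M y) : Lc f p y b ∧ f.c.κ y = f.c.κ p :=
  ⟨om_spec hJ (mem_Fo.1 (mem_inter.1 hb).1).2 (hS.fo1 y hy b hb),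
    by_contra fun k => notMem_empty b (hS.fo0 y hy k ▸ hb)⟩

theorem term_ge (hy : y ∈ Bo f p B) : 0 ≤ f.lam y + if Hc f.c.G f.c.κ y p then 0 else 1 := by
  have := lam_ge hM hJ (hS.sub y (mem_filter.1 hy).1).1
  split_ifs <;> omega

theorem LL_neg (hy : y ∈ Bs f p B) (hn : f.c.Neg y) : f.mu y + 2 ≤ LL f p B := by
  obtain ⟨h1, h2⟩ := mem_filter.1 hy
  refine (hS.hs y h1 h2).trans ?_
  rw [card_eq_sum_ones, Nat.cast_sum]
  refine le_trans (sum_le_sum fun x hx => ?_) (sum_le_sum_of_subset_of_nonneg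
    (fun x hx => mem_filter.2 ⟨(mem_filter.1 hx).1,
      fun k => (mem_filter.1 hx).2.2.2.2 (h2.trans k.symm)⟩) fun x hx _ => term_ge hM hS hJ hx)
  have := hc_lam hM hJ (neg_t hM hJ hn).1 (mem_filter.1 hx).2
  split_ifs <;> omega

include hk

theorem loss : #(Bs f p B) - MM f p B ≤ EE f p B ∨ (p ∉ f.d.Sf ∧ 1 ≤ LL f p B ∧
    (#(Bs f p B) - MM f p B ≤ 2 * EE f p B ∨
      (2 ≤ LL f p B ∧ #(Bs f p B) - MM f p B ≤ 2 * EE f p B + 1))) := by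
  have e : #(Bs f p B) - MM f p B = ∑ y ∈ Bs f p B, (1 - f.mu y) := by
    rw [sum_sub_distrib, MM]
    simp
  have bf : ∀ y ∈ Bs f p B, f.Bf y := fun y hy => (hS.sub y (mem_filter.1 hy).1).1
  have k0 : ∀ y ∈ Bs f p B, f.c.κ y = 0 := fun y hy => (mem_filter.1 hy).2.trans hk
  have pv : ∀ y ∈ Bs f p B, 1 - f.mu y ≤ 2 * #(f.c.Fo y ∩ f.M y) ∨
      (f.c.Neg y ∧ f.mu y = 0 ∧ f.d.v₀ = some y) := fun y hy => by
    by_cases k : f.c.Neg y
    · exact (mu_neg hM hJ (bf y hy) k).2.imp_right fun a => ⟨k, a⟩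
    · have := mu_pos hM hJ (bf y hy) (k0 y hy) k
      exact Or.inl (by omega)
  rw [e, EE, mul_sum]
  by_cases h1 : ∃ y ∈ Bs f p B, f.c.Neg y
  · obtain ⟨y, hy, hn⟩ := h1
    refine Or.inr ⟨fun k => ((hM.ok.sf hJ p k).2.2 hk y hn (k0 y hy)).elim
      (fun a => a (hM.yc y (bf y hy).1).1) (bf_ub (bf y hy)), ?_, ?_⟩
    · have := LL_neg hM hS hJ hy hn
      have := (mu_neg hM hJ (bf y hy) hn).1
      omega
    by_cases h2 : ∃ x ∈ Bs f p B, f.c.Neg x ∧ f.mu x = 0 ∧ f.d.v₀ = some x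
    · obtain ⟨x, hx, a1, a2, a3⟩ := h2
      refine Or.inr ⟨by simpa [a2] using LL_neg hM hS hJ hx a1, ?_⟩
      rw [show (1 : ℤ) = ∑ z ∈ Bs f p B, if z = x then (1 : ℤ) else 0 by simp [hx],
        ← sum_add_distrib]
      simp only [sum_ite_eq', hx, if_true]
      refine sum_le_sum fun z hz => ?_
      rcases pv z hz with a | a
      · split_ifs <;> omega
      · rw [if_pos (Option.some.inj (a.2.2.symm.trans a3))]
        omega
    · exact Or.inl (sum_le_sum fun z hz => (pv z hz).resolve_right fun a => h2 ⟨z, hz, a⟩)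
  · exact Or.inl (sum_le_sum fun z hz =>
      mu_pos hM hJ (bf z hz) (k0 z hz) fun a => h1 ⟨z, hz, a⟩)

theorem tight (hp : Co f.c.G p) (h1 : r = 1) (h2 : #(Bs f p B) = 1) (h3 : LL f p B ≤ 0)
    (h4 : 1 ≤ MM f p B) (h5 : UU f p B ≤ 0) (h6 : #(Bo f p B) ≤ 3)
    (h7 : Dl f.c.G f.c.κ f.d.t f.d.sF (insert p B) ≤ -1) :
    ∃ w, Bs f p B = {w} ∧ f.c.Ecf f.d p w := by
  obtain ⟨w, hw⟩ := card_eq_one.1 h2
  obtain ⟨w1, w2⟩ := mem_filter.1 (hw ▸ mem_singleton_self w : w ∈ Bs f p B)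
  have a1 : (#(Bs f p B) : ℤ) + r + MM f p B ≤ #(Bo f p B) := hS.g2
  have a2 := hS.hs w w1 w2
  have a0 : MM f p B = f.mu w := by rw [MM, hw, sum_singleton]
  have a3 : B.filter (fun x => Hc f.c.G f.c.κ w x) = Bo f p B :=
    eq_of_subset_of_card_le (fun x hx => mem_filter.2 ⟨(mem_filter.1 hx).1,
      fun k => (mem_filter.1 hx).2.2.2.2 (w2.trans k.symm)⟩) (by omega)
  have a4 : ∀ y ∈ Bo f p B, f.lam y ≤ 0 ∧ Hc f.c.G f.c.κ y p := fun y hy => by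
    have b1 := (single_le_sum (fun x hx => term_ge hM hS hJ hx) hy).trans h3
    have b2 := lam_ge hM hJ (hS.sub y (mem_filter.1 hy).1).1
    split_ifs at b1 with k
    · exact ⟨by omega, k⟩
    · omega
  have a5 : ∀ y ∈ Bo f p B, f.c.L2 y ∨ (f.d.v₀ = some y ∧ (f.c.Fo y).Nonempty ∧
      ∀ x ∈ f.c.Fo y, 2 ≤ df f.c.G f.c.κ x) := fun y hy => by
    obtain ⟨y1, y2⟩ := mem_filter.1 hy
    obtain ⟨b1, b2⟩ := lam_le hM hJ (hS.sub y y1).1 (a4 y hy).1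
    refine b2.imp_right fun k => ?_
    have b3 := (neg_t hM hJ k).2
    have b4 := dfe hM y
    have b5 := (ng hM hJ (hS.sub y y1).1 k (hS.fo0 y y1 y2)).resolve_left (by omega)
    exact ⟨b5.1, card_pos.1 (by omega), b5.2 (zm (hk ▸ y2))⟩
  refine ⟨w, hw, hp, (hS.sub w w1).1.1.1, hk, w2.trans hk, (hS.sub w w1).2.symm, Bo f p B,
    by omega, fun y hy => ⟨(a5 y hy).resolve_right ?_, (a4 y hy).2.1.symm,
      (mem_filter.1 (a3 ▸ hy : y ∈ B.filter fun x => Hc f.c.G f.c.κ w x)).2.1⟩, ?_⟩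
  · rintro ⟨b1, ⟨x, hx⟩, b2⟩
    obtain ⟨y1, y2⟩ := mem_filter.1 hy
    have b3 := (single_le_sum (f := fun y => (#((f.c.Fo y \ f.M y) \ insert p B) : ℤ))
      (fun _ _ => Int.natCast_nonneg _) y1).trans h5
    have b4 : x ∈ insert p B := by_contra fun k => card_ne_zero_of_mem
      (mem_sdiff.2 ⟨mem_sdiff.2 ⟨hx, fun l =>
        notMem_empty x (hS.fo0 y y1 y2 ▸ mem_inter.2 ⟨hx, l⟩)⟩, k⟩) (by omega)
    have b5 : f.c.κ x ≠ f.c.κ p := (mem_Fo.1 hx).2.2.2.2 ▸ y2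
    rcases a5 x (mem_filter.2 ⟨(mem_insert.1 b4).resolve_left fun k => b5 (k ▸ rfl), b5⟩) with k | k
    · have := b2 x hx
      have := k.2.2.1
      omega
    · exact (mem_Fo.1 hx).2.1.ne (Option.some.inj (b1.symm.trans k.1))
  · rwa [show insert w (Bo f p B) = B by
      rw [insert_eq, ← hw]
      exact filter_union_filter_not_eq _ _]

include ht

theorem uq : ∀ y ∈ B, ∀ b ∈ f.c.Fo y ∩ f.M y, ∀ y' ∈ B, ∀ b' ∈ f.c.Fo y' ∩ f.M y',
    y = y' ∧ b = b' := fun y hy _ hb y' hy' _ hb' =>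
  lc_uniq hM hJ hk ht (hS.sub y hy).1 (hS.sub y' hy').1 (arc hS hJ hy hb).1 (arc hS hJ hy' hb').1

theorem EE_le : EE f p B ≤ 1 :=
  sum_one fun y hy b hb y' hy' b' hb' =>
    uq hM hS hJ hk ht y (mem_filter.1 hy).1 b hb y' (mem_filter.1 hy').1 b' hb'

theorem CC_cases : CC f p B = 0 ∨ (CC f p B ≤ 1 ∧ df f.c.G f.c.κ p = 1 ∧ #(f.c.Fo p ∩ B) = 0 ∧
    2 ≤ #(Bs f p B)) := by
  by_cases h : ∀ y ∈ B, f.c.Fo y ∩ f.M y ∩ insert p B = ∅
  · exact Or.inl (sum_eq_zero fun y hy => by rw [h y hy]; rfl)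
  push Not at h
  obtain ⟨y, hy, b, hb⟩ := h
  obtain ⟨b1, b2⟩ := mem_inter.1 hb
  obtain ⟨a1, a2⟩ := arc hS hJ hy b1
  obtain ⟨a3, a4⟩ := (lc_or hM hJ ht a1).resolve_left fun k => (mem_insert.1 b2).elim
    (fun e => not_pi hM hJ ht (e ▸ k.2.1)) fun e => (hS.sub b e).1.2.1 k
  have a5 := dfe hM p
  have a6 := card_pos.2 ⟨b, fi_of a3⟩
  have a7 := card_le_card (inter_subset_left (s₁ := f.c.Fo p) (s₂ := B))
  refine Or.inr ⟨sum_one fun y hy b hb y' hy' b' hb' =>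
    uq hM hS hJ hk ht y hy b (mem_inter.1 hb).1 y' hy' b' (mem_inter.1 hb').1, a4, by omega,
    one_lt_card.2 ⟨y, mem_filter.2 ⟨hy, a2⟩, b, mem_filter.2 ⟨(mem_insert.1 b2).resolve_left
      (mem_Fo.1 a3).2.1.ne, (mem_Fo.1 a3).2.2.2.2⟩, (mem_Fo.1 (mem_inter.1 b1).1).2.1.ne⟩⟩

omit hk in
theorem none1 (h1 : df f.c.G f.c.κ p = 1) (h2 : 1 ≤ #(f.c.Fo p ∩ B)) :
    EE f p B = 0 ∧ CC f p B = 0 :=
  none_zero fun y hy => eq_empty_of_forall_notMem fun b hb => by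
    have a5 := dfe hM p
    have a6 := (lc_fi hM hJ ht (arc hS hJ hy hb).1).card_pos
    have a7 := card_le_card (inter_subset_left (s₁ := f.c.Fo p) (s₂ := B))
    omega

theorem none2 (h1 : p ∈ f.d.Sf)
    (h2 : df f.c.G f.c.κ p = 1 → ∃ u ∈ f.c.Fi p, df f.c.G f.c.κ u = 1) :
    EE f p B = 0 ∧ CC f p B = 0 :=
  none_zero fun y hy => eq_empty_of_forall_notMem fun b hb => by
    obtain ⟨a1, a2⟩ := arc hS hJ hy hb
    have a3 := (mem_Fo.1 (mem_inter.1 hb).1).2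
    rcases lc_or hM hJ ht a1 with k | ⟨k, l⟩
    · exact ((hM.ok.sf hJ p h1).2.2 hk b (hM.ok.pij hJ b k.2.1).2.1
        (a3.2.2.2.symm.trans (a2.trans hk))).elim (fun a => a (hM.ok.pi b k.2.1).1)
          (hM.ok.pi b k.2.1).2.2.2
    · obtain ⟨u, u1, u2⟩ := h2 l
      obtain rfl := df_one l (mem_Fi.1 u1).2 (fc_symm (mem_Fo.1 k).2)
      exact (hS.sub y hy).2 (df_one u2 (fc_symm a3) (mem_Fo.1 k).2)

end Gn0

open Gn0 in
theorem gn0 : SGn0 := by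
  intro V _ f γ p B r hM hS hp hJ hk ht
  have g2 : (#(Bs f p B) : ℤ) + r + MM f p B ≤ #(Bo f p B) := hS.g2
  have g3 : LL f p B + r ≤ #(Bs f p B) + f.vH p := hS.g3
  have g4 : Dl f.c.G f.c.κ f.d.t f.d.sF (insert p B) + 2 * r + #B + 2 * UU f p B ≤
    2 * f.d.t p + 1 + 2 * f.vH p + 2 * #(f.c.Fo p ∩ B) + 2 * CC f p B := hS.g4
  rw [vH_zero hM hJ hk ht] at g3 g4
  have a1 := hM.ok.th hJ (insert p B) fun v hv => (mem_insert.1 hv).elim (fun e => e ▸ hp)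
    fun e => (hS.sub v e).1.1.1
  have a2 : #(Bs f p B) + #(Bo f p B) = #B := card_filter_add_card_filter_not _
  have a3 : 0 ≤ LL f p B := sum_nonneg fun y hy => term_ge hM hS hJ hy
  have a4 : 0 ≤ UU f p B := sum_nonneg fun _ _ => Int.natCast_nonneg _
  have a5 := card_le_card (phi_sub (f := f) (p := p) (B := B))
  have a6 := loss hM hS hJ hk
  have a7 := EE_le hM hS hJ hk ht
  have a8 := CC_cases hM hS hJ hk ht
  have a9 := dfe hM p
  have a10 := card_le_card (inter_subset_left (s₁ := f.c.Fo p) (s₂ := B))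
  have b1 : df f.c.G f.c.κ p ≠ 1 → 4 * r ≤ 2 * f.d.t p + 3 := fun h => by
    rcases a6 with a6 | ⟨-, a6⟩ <;> omega
  have b2 : df f.c.G f.c.κ p = 1 → 6 * r ≤ 2 * f.d.t p + 5 := fun h => by
    rcases a6 with a6 | ⟨-, a6⟩ <;> omega
  have b3 : f.d.t p = 1 → df f.c.G f.c.κ p = 1 → r = 0 ∨ ∃ w ∈ f.c.Fo p, f.c.Ecf f.d p w := by
    refine fun h1 h2 => or_iff_not_imp_left.2 fun h3 => ?_
    have c1 : 1 ≤ #(f.c.Fo p ∩ B) := by
      rcases a6 with a6 | ⟨-, a6⟩ <;> omega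
    have c2 := none1 hM hS hJ ht h2 c1
    have c3 : #(Bs f p B) ≤ MM f p B := by
      rcases a6 with a6 | ⟨-, a6⟩ <;> omega
    obtain ⟨w, w1, w2⟩ := tight hM hS hJ hk hp (by omega) (by omega) (by omega) (by omega)
      (by omega) (by omega) (by omega)
    obtain ⟨x, hx⟩ := card_pos.1 c1
    obtain rfl := mem_singleton.1 (w1 ▸ phi_sub hx)
    exact ⟨x, (mem_inter.1 hx).1, w2⟩
  have b4 : p ∈ f.d.Sf → (f.d.t p = 1 ∧ df f.c.G f.c.κ p ≠ 1 ∨ f.d.t p = 2 ∧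
      df f.c.G f.c.κ p = 1 ∧ ∃ u ∈ f.c.Fi p, df f.c.G f.c.κ u = 1) → r = 0 := by
    refine fun h1 h2 => by_contra fun h3 => ?_
    have c2 := none2 hM hS hJ hk ht h1 fun k => h2.elim (fun a => absurd k a.2) fun a => a.2.2
    have c3 := a6.resolve_right fun k => k.1 h1
    have c4 : f.d.t p = 1 ∨ f.d.t p = 2 ∧ #(f.c.Fo p ∩ B) = 0 := h2.imp (fun a => a.1) fun a => by
      obtain ⟨u, hu, -⟩ := a.2.2
      have := card_pos.2 ⟨u, hu⟩
      omega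
    obtain ⟨w, -, w2⟩ := tight hM hS hJ hk hp (by omega) (by omega) (by omega) (by omega)
      (by omega) (by omega) (by omega)
    exact hM.ok.ne hJ p w (Or.inl h1) w2
  have k1 : ¬f.c.κ p = 1 := by rw [hk]; decide
  unfold Fr.R
  simp only [hp, hJ, k1, not_true, false_or]
  split_ifs with h1 h2 h3 h4 h5 h6 h7 h8
  · omega
  · by_cases k : df f.c.G f.c.κ p = 1
    · exact ((b3 h2 k).resolve_right fun ⟨w, _, e⟩ => hM.ok.ne hJ p w (Or.inl h3) e).le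
    · exact (b4 h3 (Or.inl ⟨h2, k⟩)).le
  · omega
  · exact ((b3 h2 h4).resolve_right h5).le
  · omega
  · exact (b4 h7.1 (Or.inr ⟨h6, h7.2⟩)).le
  · omega
  · omega
  · omega

end Pool.Agent.MP_d1f1f3_co.H2
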