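import Pool.Agent.MP_d1f1f3_co.H2.Spec2

/-!
Row GN0, first part: local facts on the vertices of a stuck set.
-/

namespace Pool.Agent.MP_d1f1f3_co.H2.Gn0

open Finset Relation H47
open scoped Classical

variable {V : Type} [Fintype V] {c : Cx V} {f : Fr V} {γ : ZMod 2} {u v w y b p q : V}

theorem mem_Fo : b ∈ c.Fo v ↔ c.A v b ∧ Fc c.G c.κ v b := by simp [Cx.Fo]

theorem mem_Fi : b ∈ c.Fi v ↔ c.A b v ∧ Fc c.G c.κ v b := by simp [Cx.Fi]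

theorem mem_Ri : b ∈ c.Ri v ↔ c.A b v ∧ c.G.Adj v b := by simp [Cx.Ri]

theorem fc_symm (h : Fc c.G c.κ u v) : Fc c.G c.κ v u := ⟨h.1.symm, h.2.2.1, h.2.1, h.2.2.2.symm⟩

theorem hc_symm (h : Hc c.G c.κ u v) : Hc c.G c.κ v u := ⟨h.1.symm, h.2.2.1, h.2.1, h.2.2.2.symm⟩

theorem fi_of (h : p ∈ c.Fo u) : u ∈ c.Fi p := mem_Fi.2 ⟨(mem_Fo.1 h).1, fc_symm (mem_Fo.1 h).2⟩

theorem df_one (h : df c.G c.κ p = 1) (h1 : Fc c.G c.κ p u) (h2 : Fc c.G c.κ p v) : u = v :=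
  card_le_one.1 h.le u (by simpa using h1) v (by simpa using h2)

theorem zm {a : ZMod 2} (h : a ≠ 0) : a = 1 := by
  revert a
  decide

theorem l2_one (h : c.L2 y) : c.κ y = 1 := by
  have := h.1.2.2.2
  rw [h.2.1] at this
  exact zm this

theorem dz_spec (hJ : f.d.J) (h : f.dz u = some p) :
    p ∈ f.Cand u ∧ (df f.c.G f.c.κ p = 1 ∨ f.Rl p) := by
  unfold Fr.dz at h
  split_ifs at h with h1 h2
  · obtain rfl := Option.some.inj h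
    exact ⟨h1.choose_spec.1, Or.inl h1.choose_spec.2⟩
  · obtain rfl := Option.some.inj h
    exact ⟨h2.choose_spec.1, Or.inr (h2.choose_spec.2.resolve_right fun k => k.1 hJ)⟩

theorem od_spec (hJ : f.d.J) (h : f.od y u = some (some p, 0)) : y = f.di u ∧ f.dz u = some p := by
  unfold Fr.od at h
  split_ifs at h with h1 h2
  · exact absurd (congrArg Prod.snd (Option.some.inj h)) (show ¬(1 : ZMod 2) = 0 by decide)
  · obtain ⟨a, e1, e2⟩ := Option.map_eq_some_iff.1 h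
    obtain rfl := Option.some.inj (congrArg Prod.fst e2)
    exact ⟨h2.2.resolve_right fun k => k.1 hJ, e1⟩

/-- The three kinds of located arcs. -/
def Lc (f : Fr V) (p y b : V) : Prop :=
  (f.FFw b ∧ y = f.i b ∧ f.o b = p) ∨ (y = f.di b ∧ f.dz b = some p) ∨
    (f.FFw b ∧ y = f.i b ∧ f.FFw (f.o b) ∧ f.i (f.o b) = b ∧ f.o b = f.di (f.o (f.o b)) ∧
      f.dz (f.o (f.o b)) = some p)

theorem om_spec (hJ : f.d.J) (hF : Fc f.c.G f.c.κ y b) (h : f.om (y, b) = some (some p, 0)) :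
    Lc f p y b := by
  unfold Fr.om at h
  rw [if_neg (not_not.2 hF.2.2.1), if_neg (not_not.2 hF)] at h
  split_ifs at h with h1 h2 h3
  · exact Or.inr (Or.inr ⟨h2.1, h2.2, h3.1, h3.2, od_spec hJ h⟩)
  · exact Or.inl ⟨h2.1, h2.2, Option.some.inj (congrArg Prod.fst (Option.some.inj h))⟩
  · exact Or.inr (Or.inl (od_spec hJ h))

variable (hM : f.Mid γ)
include hM

theorem dfe (v : V) : df f.c.G f.c.κ v = #(f.c.Fo v) + #(f.c.Fi v) := by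
  rw [df, ← card_union_of_disjoint (disjoint_left.2 fun a h1 h2 =>
    hM.ori.asym _ _ (mem_Fo.1 h1).1 (mem_Fi.1 h2).1)]
  congr 1
  ext a
  rw [mem_union, mem_Fo, mem_Fi, mem_filter_univ, ← or_and_right]
  exact ⟨fun h => ⟨hM.ori.real _ _ h.1, h⟩, fun h => h.2⟩

theorem deg (h : Co f.c.G v) : dg f.c.G v = #(f.c.Ri v) + #(Out f.c.A v) := by
  rw [dg, ← card_union_of_disjoint (disjoint_left.2 fun a h1 h2 =>
    hM.ori.asym _ _ (mem_Ri.1 h1).1 (by simpa [Out] using h2))]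
  congr 1
  ext a
  simp only [N, Out, mem_union, mem_Ri, mem_filter_univ]
  exact ⟨fun k => (hM.ori.real _ _ k).elim Or.inr fun l => Or.inl ⟨l, k⟩,
    fun k => k.elim (fun l => l.2) (hM.ori.outK _ _ (le_trans (by norm_num) h))⟩

theorem yc_cases (h : f.c.Yc v) : 1 ≤ tau f.c.G f.c.κ v ∧
    ((f.c.Wc v ∧ (#(f.c.Ri v) : ℤ) = tau f.c.G f.c.κ v + 1 ∧
      (dg f.c.G v : ℤ) = 2 * tau f.c.G f.c.κ v + 2) ∨ (#(f.c.Ri v) : ℤ) = tau f.c.G f.c.κ v) := by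
  rcases h with h | h
  · have h1 := deg hM h.1
    have h2 := hM.ori.smooth v h.2.1
    have h3 : 3 ≤ dg f.c.G v := h.1
    obtain ⟨k, h4⟩ := h.2.2.1
    have h5 : tau f.c.G f.c.κ v = ((dg f.c.G v / 2 : ℕ) : ℤ) - 1 := by rw [tau, if_pos h.2]
    exact ⟨by omega, Or.inl ⟨h, by omega, by omega⟩⟩
  · have h1 := deg hM h.1
    have h2 := h.2.2
    have h3 : 3 ≤ dg f.c.G v := h.1
    have h5 : tau f.c.G f.c.κ v = ((dg f.c.G v / 2 : ℕ) : ℤ) - 0 := by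
      rw [tau, if_neg fun k => Nat.not_even_iff_odd.2 h.2.1 k.2.1]
    obtain ⟨k, h4⟩ := h.2.1
    exact ⟨by omega, Or.inr (by omega)⟩

theorem pi_o (hJ : f.d.J) (h : f.Y v) (h1 : v ∈ f.d.Pi) :
    f.o v = f.d.oc v ∧ f.o v ∈ f.c.Fo v ∧ f.o v ∈ f.M v := by
  obtain ⟨-, h2, -, -, h3⟩ := hM.yc v h
  rw [Cx.OO, if_neg (hM.ok.pi v h1).2.2.2, if_pos h1, if_pos hJ, mem_singleton] at h3
  have h4 : f.o v ∈ f.c.Fo v := h3 ▸ (hM.ok.pij hJ v h1).1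
  exact ⟨h3, h4, mem_filter.2 ⟨mem_filter_univ _ |>.2 (mem_Fo.1 h4).2.1, h2.symm⟩⟩

omit hM in
theorem bf_ub (h : f.Bf y) : ¬f.c.Ub f.d y := fun k => h.2.2.2.1 ⟨h.1, k⟩

theorem fi_lt (hJ : f.d.J) (h : f.Bf y) : #(f.c.Fi y) < #(f.c.Ri y) := by
  have h1 := (hM.yc y h.1).2.2.2.1
  rw [Cx.II, if_neg (bf_ub h)] at h1
  have h2 : f.i y ∈ f.c.Ri y ∧ ¬Fc f.c.G f.c.κ y (f.i y) := by
    split_ifs at h1 with k
    · exact ⟨h1, fun l => h.2.1 ⟨h.1, k, l⟩⟩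
    · exact ⟨(mem_filter.1 h1).1, (mem_filter.1 h1).2.1⟩
  exact card_lt_card ⟨fun a k => mem_Ri.2 ⟨(mem_Fi.1 k).1, (mem_Fi.1 k).2.1⟩,
    fun k => h2.2 (mem_Fi.1 (k h2.1)).2⟩

theorem lam_ge (hJ : f.d.J) (h : f.Bf y) : 0 ≤ f.lam y := by
  have h1 := fi_lt hM hJ h
  have h2 := yc_cases hM (hM.yc y h.1).1
  have h3 := card_le_card (inter_subset_left (s₁ := f.c.Fi y) (s₂ := f.M y))
  unfold Fr.lam
  omega

theorem lam_le (hJ : f.d.J) (h : f.Bf y) (h0 : f.lam y ≤ 0) :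
    (#(f.c.Fi y) : ℤ) = tau f.c.G f.c.κ y ∧ (f.c.L2 y ∨ f.c.Neg y) := by
  have h1 := fi_lt hM hJ h
  obtain ⟨h2, h4⟩ := yc_cases hM (hM.yc y h.1).1
  have h3 := card_le_card (inter_subset_left (s₁ := f.c.Fi y) (s₂ := f.M y))
  have h5 := dfe hM y
  unfold Fr.lam at h0
  obtain ⟨h6, h7, h8⟩ := h4.resolve_right (by omega)
  refine ⟨by omega, ?_⟩
  rcases (f.c.Fo y).eq_empty_or_nonempty with k | k
  · have h9 : ¬2 ≤ df f.c.G f.c.κ y := fun l => (hM.ok.c1 y h.1.1 l).ne_empty k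
    rw [k, card_empty] at h5
    exact Or.inl ⟨h6, by omega, by omega, k⟩
  · have := k.card_pos
    exact Or.inr ⟨h.1.1, by omega⟩

theorem t_ge (hJ : f.d.J) (h : Co f.c.G v) : -1 ≤ f.d.t v := by
  have h1 := hM.ok.th hJ {v} (by simpa using h)
  have h2 : ¬Fc f.c.G f.c.κ v v := fun k => k.1.ne rfl
  have h3 : ¬Hc f.c.G f.c.κ v v := fun k => k.1.ne rfl
  simp only [Dl, sum_singleton, filter_singleton, h2, h3, hM.ok.sdiag, if_false, card_empty] at h1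
  omega

theorem neg_t (hJ : f.d.J) (h : f.c.Neg v) :
    f.d.t v = -1 ∧ tau f.c.G f.c.κ v + 1 = df f.c.G f.c.κ v := by
  have h1 := t_ge hM hJ h.1
  have h2 := hM.ok.t1 v h.1
  have h3 : (0 : ℤ) ≤ ∑ w, (f.d.sF v w : ℤ) := sum_nonneg fun _ _ => Int.natCast_nonneg _
  have h4 := h.2
  omega

theorem hc_lam (hJ : f.d.J) (h : f.d.t q = -1) (hc : Hc f.c.G f.c.κ q y) : 1 ≤ f.lam y := by
  have h1 := hM.ok.th hJ {q, y} (by simpa using ⟨hc.2.1, hc.2.2.1⟩)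
  have n1 : ∀ v, ¬Fc f.c.G f.c.κ v v := fun _ k => k.1.ne rfl
  have n2 : ∀ v, ¬Hc f.c.G f.c.κ v v := fun _ k => k.1.ne rfl
  have n3 : ¬Fc f.c.G f.c.κ q y := fun k => hc.2.2.2 k.2.2.2
  have n4 : ¬Fc f.c.G f.c.κ y q := fun k => n3 (fc_symm k)
  simp only [Dl, sum_pair hc.1.ne, filter_insert, filter_singleton, n1, n2, n3, n4, hc, hc_symm hc,
    hM.ok.sdiag, hM.ok.sym q y, if_false, if_true, card_empty, card_singleton, insert_empty_eq]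
    at h1
  have h2 := hM.ok.t1 y hc.2.2.1
  have h3 : (f.d.sF y q : ℤ) ≤ ∑ w, (f.d.sF y w : ℤ) :=
    single_le_sum (f := fun w => (f.d.sF y w : ℤ)) (fun _ _ => Int.natCast_nonneg _) (mem_univ q)
  have h4 := dfe hM y
  have h5 := card_le_card (inter_subset_left (s₁ := f.c.Fi y) (s₂ := f.M y))
  unfold Fr.lam
  omega

theorem ng (hJ : f.d.J) (h : f.Bf y) (hn : f.c.Neg y) (h0 : f.c.Fo y ∩ f.M y = ∅) :
    2 ≤ #(f.c.Fo y) ∨ (f.d.v₀ = some y ∧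
      (f.c.κ y = 1 → ∀ w ∈ f.c.Fo y, 2 ≤ df f.c.G f.c.κ w)) :=
  hM.ok.ng hJ y hn (hM.yc y h.1).1
    (fun k => notMem_empty _ (h0 ▸ mem_inter.2 (pi_o hM hJ h.1 k).2)) (bf_ub h)

theorem mu_pos (hJ : f.d.J) (h : f.Bf y) (hk : f.c.κ y = 0) (hn : ¬f.c.Neg y) :
    1 - f.mu y ≤ #(f.c.Fo y ∩ f.M y) := by
  have h1 : ¬tau f.c.G f.c.κ y < df f.c.G f.c.κ y := fun k => hn ⟨h.1.1, k⟩
  have h2 := dfe hM y
  have h3 := card_le_card (inter_subset_left (s₁ := f.c.Fi y) (s₂ := f.M y))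
  have h4 := card_le_card (inter_subset_left (s₁ := f.c.Fo y) (s₂ := f.M y))
  have h5 : ¬f.lam y ≤ 0 := fun k => (lam_le hM hJ h k).2.elim
    (fun l => absurd (hk.symm.trans (l2_one l)) (by decide)) hn
  unfold Fr.lam at h5
  unfold Fr.mu
  omega

theorem mu_neg (hJ : f.d.J) (h : f.Bf y) (hn : f.c.Neg y) : -1 ≤ f.mu y ∧
    (1 - f.mu y ≤ 2 * #(f.c.Fo y ∩ f.M y) ∨ (f.mu y = 0 ∧ f.d.v₀ = some y)) := by
  have h1 := (neg_t hM hJ hn).2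
  have h2 := dfe hM y
  have h3 := card_le_card (inter_subset_left (s₁ := f.c.Fi y) (s₂ := f.M y))
  have h4 := card_le_card (inter_subset_left (s₁ := f.c.Fo y) (s₂ := f.M y))
  have h5 := lam_ge hM hJ h
  unfold Fr.lam at h5
  unfold Fr.mu
  refine ⟨by omega, ?_⟩
  rcases (f.c.Fo y ∩ f.M y).eq_empty_or_nonempty with k | k
  · have h6 := card_eq_zero.2 k
    rcases ng hM hJ h hn k with l | l
    · exact Or.inl (by omega)
    · by_cases m : tau f.c.G f.c.κ y - #(f.c.Fi y ∩ f.M y) = 0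
      · exact Or.inr ⟨by omega, l.1⟩
      · exact Or.inl (by omega)
  · have := k.card_pos
    exact Or.inl (by omega)

theorem not_pi (hJ : f.d.J) (ht : 0 ≤ f.d.t p) : p ∉ f.d.Pi := fun k => by
  have := (neg_t hM hJ (hM.ok.pij hJ p k).2.1).1
  omega

theorem vH_zero (hJ : f.d.J) (hk : f.c.κ p = 0) (ht : 0 ≤ f.d.t p) : f.vH p = 0 := by
  refine if_neg ?_
  rintro ⟨x, hx, e⟩
  unfold Fr.tgt at e
  split_ifs at e with h
  · have e1 : f.o (f.o x) = p := Option.some.inj (congrArg Prod.fst e)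
    obtain ⟨a1, a2, -⟩ := pi_o hM hJ hx.1 hx.2.1
    obtain ⟨b1, b2, -⟩ := pi_o hM hJ h.1.1.1 h.1.1.2.1
    have c1 := (hM.ok.hv hJ _ h.1.1.2.1 ((mem_Fo.1 b2).2.2.2.2.trans (e1 ▸ hk)) (b1 ▸ e1 ▸ ht) x
      hx.2.1 (mem_Fo.1 a2).2.1.ne).2 a1.symm
    exact card_ne_zero_of_mem (a := (f.i x, x)) (mem_filter.2 ⟨hx.2.2, by rfl⟩) c1
  · exact absurd (congrArg Prod.snd e) (show ¬(1 : ZMod 2) = 0 by decide)

theorem dz_p (hJ : f.d.J) (ht : 0 ≤ f.d.t p) (h : f.dz u = some p) :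
    p ∈ f.c.Fo u ∧ df f.c.G f.c.κ p = 1 ∧ ¬(f.FFa u ∧ f.o u = p) := by
  obtain ⟨h1, h2⟩ := dz_spec hJ h
  exact ⟨(mem_filter.1 h1).1, h2.resolve_right fun k => not_pi hM hJ ht k.2.1,
    fun k => (mem_filter.1 h1).2 ⟨Or.inl k.1, k.2.symm⟩⟩

theorem lc_uniq (hJ : f.d.J) (hk : f.c.κ p = 0) (ht : 0 ≤ f.d.t p) {y' b' : V} (hy : f.Bf y)
    (hy' : f.Bf y') (h : Lc f p y b) (h' : Lc f p y' b') : y = y' ∧ b = b' := by
  have k1 : ∀ {a u : V}, f.FFw a → f.o a = p → f.dz u = some p → False := fun a1 a2 a3 => by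
    obtain ⟨d1, d2, d3⟩ := dz_p hM hJ ht a3
    have d4 := (pi_o hM hJ a1.1.1 a1.1.2.1).2.1
    rw [a2] at d4
    obtain rfl := df_one d2 (fc_symm (mem_Fo.1 d1).2) (fc_symm (mem_Fo.1 d4).2)
    exact d3 ⟨a1.1, a2⟩
  have k2 : ∀ {u u' : V}, f.dz u = some p → f.dz u' = some p → u = u' := fun a1 a2 =>
    df_one (dz_p hM hJ ht a1).2.1 (fc_symm (mem_Fo.1 (dz_p hM hJ ht a1).1).2)
      (fc_symm (mem_Fo.1 (dz_p hM hJ ht a2).1).2)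
  rcases h with ⟨a1, a2, a3⟩ | ⟨a1, a2⟩ | ⟨a1, a2, a3, a4, a5, a6⟩ <;>
    rcases h' with ⟨b1, b2, b3⟩ | ⟨b1, b2⟩ | ⟨b1, b2, b3, b4, b5, b6⟩
  · obtain ⟨c1, c2, -⟩ := pi_o hM hJ a1.1.1 a1.1.2.1
    have c3 := (pi_o hM hJ b1.1.1 b1.1.2.1).1
    obtain rfl : b' = b := by_contra fun k => by
      have := (hM.ok.hv hJ b a1.1.2.1 ((mem_Fo.1 c2).2.2.2.2.trans (a3 ▸ hk)) (c1 ▸ a3 ▸ ht) b'
        b1.1.2.1 k).1
      rw [← c3, b3] at this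
      omega
    exact ⟨a2.trans b2.symm, rfl⟩
  · exact (k1 a1 a3 b2).elim
  · exact (k1 a1 a3 b6).elim
  · exact (k1 b1 b3 a2).elim
  · obtain rfl := k2 a2 b2
    exact ⟨a1.trans b1.symm, rfl⟩
  · rw [k2 a2 b6, ← b5] at a1
    exact (hy.2.1 (a1 ▸ b3.1)).elim
  · exact (k1 b1 b3 a6).elim
  · rw [k2 b2 a6, ← a5] at b1
    exact (hy'.2.1 (b1 ▸ a3.1)).elim
  · rw [k2 a6 b6, ← b5] at a5
    rw [a5, b4] at a4
    exact ⟨by rw [a2, b2, a4], a4.symm⟩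

theorem lc_fi (hJ : f.d.J) (ht : 0 ≤ f.d.t p) (h : Lc f p y b) : (f.c.Fi p).Nonempty := by
  rcases h with ⟨a1, -, a3⟩ | ⟨-, a2⟩ | ⟨-, -, -, -, -, a6⟩
  · exact ⟨b, fi_of (a3 ▸ (pi_o hM hJ a1.1.1 a1.1.2.1).2.1)⟩
  · exact ⟨_, fi_of (dz_p hM hJ ht a2).1⟩
  · exact ⟨_, fi_of (dz_p hM hJ ht a6).1⟩

theorem lc_or (hJ : f.d.J) (ht : 0 ≤ f.d.t p) (h : Lc f p y b) :
    f.FFa b ∨ (p ∈ f.c.Fo b ∧ df f.c.G f.c.κ p = 1) := by
  rcases h with ⟨a1, -⟩ | ⟨-, a2⟩ | ⟨a1, -⟩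
  · exact Or.inl a1.1
  · exact Or.inr ⟨(dz_p hM hJ ht a2).1, (dz_p hM hJ ht a2).2.1⟩
  · exact Or.inl a1.1

end Pool.Agent.MP_d1f1f3_co.H2.Gn0
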