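import Pool.Agent.MP_d1f1f3_co.H2.Spec2

/-! Stuck sets at locations that tolerate no return. -/

namespace Pool.Agent.MP_d1f1f3_co.H2

open Finset Relation H47
open scoped Classical

namespace Gn1

variable {V : Type} [Fintype V] {f : Fr V} {γ : ZMod 2} {u v w x y b p : V} {B : Finset V} {r : ℕ}

theorem mFo : w ∈ f.c.Fo v ↔ f.c.A v w ∧ Fc f.c.G f.c.κ v w := by simp [Cx.Fo]

theorem mFi : w ∈ f.c.Fi v ↔ f.c.A w v ∧ Fc f.c.G f.c.κ v w := by simp [Cx.Fi]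

theorem mRi : w ∈ f.c.Ri v ↔ f.c.A w v ∧ f.c.G.Adj v w := by simp [Cx.Ri]

theorem Fs (h : Fc f.c.G f.c.κ u v) : Fc f.c.G f.c.κ v u := ⟨h.1.symm, h.2.2.1, h.2.1, h.2.2.2.symm⟩

theorem Hs (h : Hc f.c.G f.c.κ u v) : Hc f.c.G f.c.κ v u := ⟨h.1.symm, h.2.2.1, h.2.1, h.2.2.2.symm⟩

theorem tau_pos (hv : Co f.c.G v) : 1 ≤ tau f.c.G f.c.κ v := by
  unfold Co at hv
  unfold tau
  split_ifs with h
  · obtain ⟨k, hk⟩ := h.2.1
    omega
  · omega

theorem two (h1 : Fc f.c.G f.c.κ v u) (h2 : Fc f.c.G f.c.κ v w) (h : df f.c.G f.c.κ v = 1) :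
    u = w :=
  card_le_one.1 h.le u (mem_filter.2 ⟨mem_univ _, h1⟩) w (mem_filter.2 ⟨mem_univ _, h2⟩)

theorem dfe (h : f.Mid γ) (v : V) : df f.c.G f.c.κ v = #(f.c.Fo v) + #(f.c.Fi v) := by
  rw [← card_union_of_disjoint (disjoint_left.2 fun w a c => h.ori.asym _ _ (mFo.1 a).1 (mFi.1 c).1),
    df]
  congr 1
  ext w
  rw [mem_union, mFo, mFi, mem_filter, and_iff_right (mem_univ _), ← or_and_right]
  exact (and_iff_right_of_imp fun a => h.ori.real _ _ a.1).symm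

theorem deg (h : f.Mid γ) (hv : K f.c.G v) : dg f.c.G v = #(Out f.c.A v) + #(f.c.Ri v) := by
  rw [← card_union_of_disjoint (show Disjoint (Out f.c.A v) _ from disjoint_left.2 fun w a c =>
    h.ori.asym _ _ (mem_filter.1 a).2 (mRi.1 c).1), dg]
  congr 1
  ext w
  simp only [mem_union, mRi, N, Out, mem_filter, mem_univ, true_and]
  exact ⟨fun a => (h.ori.real _ _ a).imp_right fun c => ⟨c, a⟩,
    fun a => a.elim (h.ori.outK _ _ hv) fun c => c.2⟩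

theorem cnt (h : f.Mid γ) (hv : f.c.Yc v) : (f.c.Wc v ∧ (#(f.c.Ri v) : ℤ) = tau f.c.G f.c.κ v + 1 ∧
    (dg f.c.G v : ℤ) = 2 * tau f.c.G f.c.κ v + 2) ∨ (#(f.c.Ri v) : ℤ) = tau f.c.G f.c.κ v := by
  rcases hv with hv | hv
  · have h1 := deg h hv.2.1
    have h2 := h.ori.smooth v hv.2.1
    obtain ⟨k, hk⟩ := hv.2.2.1
    refine .inl ⟨hv, ?_⟩
    rw [tau, if_pos hv.2]
    omega
  · have h1 := deg h (show K f.c.G v from le_trans (by norm_num) hv.1)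
    have h2 := hv.2.2
    obtain ⟨k, hk⟩ := hv.2.1
    rw [tau, if_neg fun a => Nat.not_even_iff_odd.2 hv.2.1 a.2.1]
    exact .inr (by omega)

theorem oFo (h : f.Mid γ) (h1 : f.Y v) (h2 : v ∈ f.d.Pi) : f.o v ∈ f.c.Fo v ∩ f.M v := by
  obtain ⟨-, a1, -, -, a2⟩ := h.yc v h1
  rw [Cx.OO, if_neg (h.ok.pi v h2).2.2.2, if_pos h2] at a2
  have : f.o v ∈ f.c.Fo v := by
    split_ifs at a2 with hJ
    · rw [mem_singleton.1 a2]
      exact (h.ok.pij hJ v h2).1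
    · exact a2
  exact mem_inter.2 ⟨this, mem_filter.2 ⟨mem_filter.2 ⟨mem_univ _, (mFo.1 this).2.1⟩, a1.symm⟩⟩

theorem oF (h : f.Mid γ) (h1 : f.Y v) (h2 : v ∈ f.d.Pi) :
    f.c.A v (f.o v) ∧ Fc f.c.G f.c.κ v (f.o v) := mFo.1 (mem_inter.1 (oFo h h1 h2)).1

theorem iFi (h : f.Mid γ) (h1 : f.Y v) (h2 : v ∈ f.d.Pi) (hJ : ¬f.d.J) : f.FFa v := by
  have a := (h.yc v h1).2.2.2.1
  rw [Cx.II, if_neg (h.ok.pi v h2).2.2.2, if_pos h2, if_neg hJ] at a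
  exact ⟨h1, h2, (mFi.1 a).2⟩

theorem iA (h : f.Mid γ) (h1 : f.FFa v) : f.c.A (f.i v) v := by
  have a := (h.yc v h1.1).2.2.2.1
  rw [Cx.II, if_neg (h.ok.pi v h1.2.1).2.2.2, if_pos h1.2.1] at a
  split_ifs at a
  · exact (mRi.1 a).1
  · exact (mFi.1 a).1

theorem excl (h : f.Mid γ) (h1 : f.Rl v) (h2 : f.FFa v) : False :=
  (h.ok.pa _ h1.2.2).2.1.2.2.2 h2.2.2.2.2.2.symm

theorem bf (h : f.Mid γ) (hy : f.Bf y) : ¬f.c.Ub f.d y ∧ f.i y ∈ f.c.Ri y \ f.c.Fi y := by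
  have h1 : ¬f.c.Ub f.d y := fun a => hy.2.2.2.1 ⟨hy.1, a⟩
  have a := (h.yc y hy.1).2.2.2.1
  rw [Cx.II, if_neg h1] at a
  refine ⟨h1, mem_sdiff.2 ?_⟩
  split_ifs at a with h2 h3
  · exact ⟨a, fun c => hy.2.1 ⟨hy.1, h2, (mFi.1 c).2⟩⟩
  · exact (hy.2.1 (iFi h hy.1 h2 h3)).elim
  · exact ⟨(mem_filter.1 a).1, fun c => (mem_filter.1 a).2.1 (mFi.1 c).2⟩

theorem lam0 (h : f.Mid γ) (hy : f.Bf y) : 0 ≤ f.lam y ∧ (f.lam y ≤ 0 →
    (#(f.c.Fi y) : ℤ) = tau f.c.G f.c.κ y ∧ (f.c.L2 y ∨ f.c.Neg y)) := by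
  have h1 : #(f.c.Fi y) < #(f.c.Ri y) := card_lt_card ⟨fun a c => mRi.2 ⟨(mFi.1 c).1, (mFi.1 c).2.1⟩,
    fun c => (mem_sdiff.1 (bf h hy).2).2 (c (mem_sdiff.1 (bf h hy).2).1)⟩
  have h2 := card_le_card (inter_subset_left (s₁ := f.c.Fi y) (s₂ := f.M y))
  have h3 := tau_pos hy.1.1
  have h4 := dfe h y
  unfold Fr.lam
  rcases cnt h (h.yc y hy.1).1 with ⟨a1, a2, a3⟩ | a
  · refine ⟨by omega, fun c => ⟨by omega, ?_⟩⟩
    rcases (f.c.Fo y).eq_empty_or_nonempty with e | e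
    · have : ¬2 ≤ df f.c.G f.c.κ y := fun k => by simpa [e] using h.ok.c1 y hy.1.1 k
      rw [e, card_empty] at h4
      exact .inl ⟨a1, by omega, by omega, e⟩
    · have := card_pos.2 e
      exact .inr ⟨hy.1.1, by omega⟩
  · exact ⟨by omega, fun c => by omega⟩

theorem l2 (h : f.c.L2 y) : f.c.κ y = 1 := by
  have := h.1.2.2.2
  rw [h.2.1] at this
  revert this
  generalize f.c.κ y = k
  decide +revert

theorem mu_ge (h : f.Mid γ) (y : V) : tau f.c.G f.c.κ y - df f.c.G f.c.κ y ≤ f.mu y ∧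
    (f.mu y ≤ tau f.c.G f.c.κ y - df f.c.G f.c.κ y → f.c.Fo y ⊆ f.M y) := by
  have h1 := card_le_card (inter_subset_left (s₁ := f.c.Fi y) (s₂ := f.M y))
  have h2 := card_le_card (inter_subset_left (s₁ := f.c.Fo y) (s₂ := f.M y))
  have h3 := dfe h y
  unfold Fr.mu
  exact ⟨by omega, fun c => inter_eq_left.1 (eq_of_subset_of_card_le inter_subset_left (by omega))⟩

theorem pair (h : f.Mid γ) (hJ : f.d.J) (hu : Co f.c.G u) (hv : Co f.c.G v) (hne : u ≠ v) :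
    -1 ≤ 2 * (f.d.t u + f.d.t v + 1 + (if Fc f.c.G f.c.κ u v then 1 else 0) -
      (if Hc f.c.G f.c.κ u v then 1 else 0) + f.d.sF u v) := by
  have a := h.ok.th hJ {u, v} (by simp [hu, hv])
  have e1 : ∀ x, ¬Fc f.c.G f.c.κ x x := fun x k => k.1.ne rfl
  have e2 : ∀ x, ¬Hc f.c.G f.c.κ x x := fun x k => k.1.ne rfl
  have e3 : Fc f.c.G f.c.κ v u ↔ Fc f.c.G f.c.κ u v := ⟨Fs, Fs⟩
  have e4 : Hc f.c.G f.c.κ v u ↔ Hc f.c.G f.c.κ u v := ⟨Hs, Hs⟩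
  simp only [Dl, card_filter, sum_pair hne, e1, e2, e3, e4, h.ok.sdiag, h.ok.sym v u, if_false] at a
  push_cast at a
  linarith

theorem tle (h : f.Mid γ) (hv : Co f.c.G v) (w : V) :
    f.d.t v + df f.c.G f.c.κ v + f.d.sF v w ≤ tau f.c.G f.c.κ v :=
  le_trans (add_le_add_right (single_le_sum (f := fun w => (f.d.sF v w : ℤ))
    (fun _ _ => Nat.cast_nonneg _) (mem_univ w)) _) (h.ok.t1 v hv)

theorem neg1 (h : f.Mid γ) (hJ : f.d.J) (hv : Co f.c.G v) :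
    (df f.c.G f.c.κ v : ℤ) ≤ tau f.c.G f.c.κ v + 1 := by
  have a := h.ok.th hJ {v} (by simpa using hv)
  have e1 : ¬Fc f.c.G f.c.κ v v := fun k => k.1.ne rfl
  have e2 : ¬Hc f.c.G f.c.κ v v := fun k => k.1.ne rfl
  have := tle h hv v
  simp only [Dl, card_filter, sum_singleton, e1, e2, h.ok.sdiag, if_false] at a
  omega

theorem neg2 (h : f.Mid γ) (hJ : f.d.J) (hu : f.c.Neg u) (hv : f.c.Neg v) (hne : u ≠ v) :
    Fc f.c.G f.c.κ u v := by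
  have a := pair h hJ hu.1 hv.1 hne
  have a1 := tle h hu.1 v
  have a2 := tle h hv.1 u
  have := hu.2
  have := hv.2
  by_contra k
  rw [if_neg k] at a
  split_ifs at a <;> omega

theorem dz (h : f.dz u = some p) : p ∈ f.Cand u ∧
    (df f.c.G f.c.κ p = 1 ∨ f.Rl p ∨ (¬f.d.J ∧ f.d.v₀ = some u)) := by
  unfold Fr.dz at h
  split_ifs at h with h1 h2
  · exact Option.some.inj h ▸ ⟨h1.choose_spec.1, .inl h1.choose_spec.2⟩
  · exact Option.some.inj h ▸ ⟨h2.choose_spec.1, .inr h2.choose_spec.2⟩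

theorem od (h : f.od y u = some (some p, 0)) : f.dz u = some p := by
  unfold Fr.od at h
  split_ifs at h
  · simp at h
  · simpa using h

theorem loc (h1 : Fc f.c.G f.c.κ y b) (h2 : f.om (y, b) = some (some p, 0)) :
    (f.FFw b ∧ f.o b = p) ∨ f.dz b = some p ∨
      (f.FFw b ∧ f.FFw (f.o b) ∧ f.dz (f.o (f.o b)) = some p) := by
  unfold Fr.om at h2
  rw [if_neg (not_not.2 h1.2.2.1), if_neg (not_not.2 h1)] at h2
  split_ifs at h2 with a1 a2 a3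
  · exact .inr (.inr ⟨a2.1, a3.1, od h2⟩)
  · exact .inl ⟨a2.1, by simpa using h2⟩
  · exact .inr (.inl (od h2))

theorem dzF (h : f.dz u = some p) : Fc f.c.G f.c.κ u p := (mFo.1 (mem_filter.1 (dz h).1).1).2

theorem loc' (h : f.Mid γ) (h1 : Fc f.c.G f.c.κ y b) (h2 : f.om (y, b) = some (some p, 0)) :
    Co f.c.G p ∧ b ≠ p := by
  rcases loc h1 h2 with ⟨a, rfl⟩ | a | ⟨a1, a2, a3⟩
  · exact ⟨(oF h a.1.1 a.1.2.1).2.2.2.1, (oF h a.1.1 a.1.2.1).2.1.ne⟩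
  · exact ⟨(dzF a).2.2.1, (dzF a).1.ne⟩
  · refine ⟨(dzF a3).2.2.1, ?_⟩
    rintro rfl
    obtain ⟨c1, c2⟩ := oF h a1.1.1 a1.1.2.1
    rcases (dz a3).2 with k | k | k
    · exact h.ori.asym _ _ c1 (two c2 a1.1.2.2 k ▸ iA h a1.1)
    · exact excl h k a1.1
    · exact c2.1.ne (Option.some.inj (((h.ok.nj k.1).2.1 _ a1.1.2.1).symm.trans
        ((h.ok.nj k.1).2.1 _ a2.1.2.1)))

theorem vh (h : f.vH p ≠ 0) : ∃ x, f.Rl x ∧ f.FFr (f.o x) ∧ f.o (f.o x) = p := by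
  obtain ⟨x, h1, h2⟩ : ∃ x, f.Rl x ∧ f.tgt x = (some p, 0) := by_contra fun k => h (if_neg k)
  unfold Fr.tgt at h2
  split_ifs at h2 with a
  · exact ⟨x, h1, a.1, by simpa using h2⟩
  · simp at h2

theorem vh1 (p : V) : f.vH p ≤ 1 := by
  unfold Fr.vH
  split_ifs <;> simp

theorem exc (h : f.Mid γ) (hJ : f.d.J) (hy : Co f.c.G y) (h1 : f.mu y < 0) :
    f.c.Neg y ∧ f.c.Fo y ⊆ f.M y := by
  have a := mu_ge h y
  have := neg1 h hJ hy
  exact ⟨⟨hy, by omega⟩, a.2 (by omega)⟩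

theorem e1 (h : f.Mid γ) (hJ : f.d.J) (s : f.SF p B r) (hx : x ∈ B) (hy : y ∈ B) (h1 : f.mu x < 0)
    (h2 : f.mu y < 0) : x = y := by
  have key : ∀ {x y}, x ∈ B → y ∈ B → f.mu x < 0 → f.mu y < 0 → y ∉ f.c.Fo x := by
    intro x y hx hy h1 h2 a
    have k := loc (mFo.1 a).2 (s.fo1 x hx y
      (mem_inter.2 ⟨a, (exc h hJ (s.sub x hx).1.1.1 h1).2 a⟩))
    have n : ¬f.FFw y := fun c => (s.sub y hy).1.2.1 c.1
    have k' := (mem_filter.1 (dz ((k.resolve_left fun c => n c.1).resolve_right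
      fun c => n c.1)).1).1
    exact (loc' h (mFo.1 k').2 (s.fo1 y hy p
      (mem_inter.2 ⟨k', (exc h hJ (s.sub y hy).1.1.1 h2).2 k'⟩))).2 rfl
  by_contra hne
  have a := neg2 h hJ (exc h hJ (s.sub x hx).1.1.1 h1).1 (exc h hJ (s.sub y hy).1.1.1 h2).1 hne
  rcases h.ori.real _ _ a.1 with c | c
  · exact key hx hy h1 h2 (mFo.2 ⟨c, a⟩)
  · exact key hy hx h2 h1 (mFo.2 ⟨c, Fs a⟩)

theorem e2 (h : f.Mid γ) (hJ : f.d.J) (s : f.SF p B r) (hv : f.vH p ≠ 0) (hy : y ∈ B) :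
    0 ≤ f.mu y := by
  by_contra h1
  obtain ⟨x, x1, x2, rfl⟩ := vh hv
  obtain ⟨a1, a2⟩ := exc h hJ (s.sub y hy).1.1.1 (not_le.1 h1)
  obtain ⟨c1, c2⟩ := oF h x1.1 x1.2.1
  obtain ⟨c3, c4⟩ := oF h x2.1.1 x2.1.2.1
  have hP : ∀ w ∈ f.d.Pi, w = x ∨ w = f.o x := fun w hw => by
    by_contra k
    rw [not_or] at k
    have := two_lt_card_iff.2 ⟨w, x, f.o x, hw, x1.2.1, x2.1.2.1, k.1, k.2, c2.1.ne⟩
    have := h.ok.pi2
    omega
  have n : ∀ w, ¬f.FFw w := fun w k => by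
    rcases hP w k.1.2.1 with rfl | rfl
    · exact excl h x1 k.1
    · exact k.2 x2
  obtain ⟨b, hb⟩ := h.ok.c1 y a1.1 (by have := tau_pos a1.1; have := a1.2; omega)
  have k := ((loc (mFo.1 hb).2 (s.fo1 y hy b (mem_inter.2 ⟨hb, a2 hb⟩))).resolve_left
    fun c => n _ c.1).resolve_right fun c => n _ c.1
  obtain ⟨k1, k2 | k2 | k2⟩ := dz k
  · obtain rfl := two (Fs (dzF k)) (Fs c4) k2
    exact (mem_filter.1 k1).2 ⟨.inl x2.1, rfl⟩
  · rcases hP _ k2.2.1 with e | e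
    · exact h.ori.asym _ _ c1 (by rwa [e] at c3)
    · exact c4.1.ne e.symm
  · exact k2.1 hJ

theorem sum_le {g : V → ℤ} {S T : Finset V} (h1 : ∀ y ∈ S, g y ≤ 1) (h2 : ∀ y ∈ S, 0 < g y → y ∈ T) :
    ∑ y ∈ S, g y ≤ #T := by
  refine (sum_le_sum (g := fun y => if y ∈ T then (1 : ℤ) else 0) fun y hy => ?_).trans ?_
  · split_ifs with k
    · exact h1 y hy
    · exact not_lt.1 fun c => k (h2 y hy c)
  · rw [sum_boole, Nat.cast_le]
    exact card_le_card fun y hy => (mem_filter.1 hy).2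

theorem sum_one {g : V → ℤ} {S : Finset V} (h1 : ∀ y ∈ S, g y ≤ 1)
    (h2 : ∀ x ∈ S, ∀ y ∈ S, 0 < g x → 0 < g y → x = y) : ∑ y ∈ S, g y ≤ 1 :=
  (sum_le (T := S.filter fun y => 0 < g y) h1 fun y a c => mem_filter.2 ⟨a, c⟩).trans (by
    exact_mod_cast card_le_one.2 fun x a y c =>
      h2 x (mem_filter.1 a).1 y (mem_filter.1 c).1 (mem_filter.1 a).2 (mem_filter.1 c).2)

end Gn1

open Gn1 in
theorem gn1 : SGn1 := by
  intro V _ f γ p B r h s hc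
  have g2 := s.g2
  have g3 := s.g3
  have l0 : ∀ y ∈ B.filter fun y => f.c.κ y ≠ f.c.κ p, 0 ≤ f.lam y := fun y hy =>
    (lam0 h (s.sub y (mem_filter.1 hy).1).1).1
  obtain ⟨g, hg⟩ : ∃ g : V → ℤ, ∀ y, g y = 1 - (f.lam y + if Hc f.c.G f.c.κ y p then 0 else 1) :=
    ⟨_, fun _ => rfl⟩
  have g1 : ∀ y ∈ B.filter fun y => f.c.κ y ≠ f.c.κ p, g y ≤ 1 := fun y hy => by
    have := l0 y hy
    rw [hg]
    split_ifs <;> omega
  have g0 : ∀ y ∈ B.filter fun y => f.c.κ y ≠ f.c.κ p, 0 < g y →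
      f.lam y ≤ 0 ∧ Hc f.c.G f.c.κ y p := fun y hy k => by
    have := l0 y hy
    rw [hg] at k
    split_ifs at k with c
    · exact ⟨by omega, c⟩
    · omega
  have e : ∑ y ∈ B.filter fun y => f.c.κ y ≠ f.c.κ p, g y =
      #(B.filter fun y => f.c.κ y ≠ f.c.κ p) - ∑ y ∈ B.filter fun y => f.c.κ y ≠ f.c.κ p,
        (f.lam y + if Hc f.c.G f.c.κ y p then 0 else 1) := by
    simp only [hg, sum_sub_distrib, sum_const, nsmul_eq_mul, mul_one]
  have z0 : (∀ y ∈ B.filter fun y => f.c.κ y ≠ f.c.κ p, ¬0 < g y) →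
      ∑ y ∈ B.filter fun y => f.c.κ y ≠ f.c.κ p, g y ≤ 0 := fun k =>
    sum_nonpos fun y hy => not_lt.1 (k y hy)
  by_cases hp : Co f.c.G p
  swap
  · have a1 := z0 fun y hy k => hp (g0 y hy k).2.2.2.1
    have a2 : f.vH p = 0 := by_contra fun k => by
      obtain ⟨x, -, x2, rfl⟩ := vh k
      exact hp (oF h x2.1.1 x2.1.2.1).2.2.2.1
    have a3 : 0 ≤ ∑ y ∈ B.filter fun y => f.c.κ y = f.c.κ p, f.mu y := sum_nonneg fun y hy => by
      have hy' := (mem_filter.1 hy).1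
      have := (lam0 h (s.sub y hy').1).1
      have k : f.c.Fo y ∩ f.M y = ∅ := eq_empty_of_forall_notMem fun b hb =>
        hp (loc' h (mFo.1 (mem_inter.1 hb).1).2 (s.fo1 y hy' b hb)).1
      rwa [Fr.mu, k, card_empty, Nat.cast_zero, sub_zero]
    omega
  by_cases hJ : f.d.J
  swap
  · obtain ⟨n1, -, n2, -⟩ := h.ok.nj hJ
    have a1 : ∀ y ∈ B, ¬f.c.Neg y := fun y hy k => by
      have hb := (s.sub y hy).1
      exact (n1 y k (h.yc y hb.1).1).elim (fun c => hb.2.1 (iFi h hb.1 c hJ)) (bf h hb).1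
    have a2 : f.vH p = 0 := by_contra fun k => by
      obtain ⟨x, x1, -⟩ := vh k
      exact excl h x1 (iFi h x1.1 x1.2.1 hJ)
    have a3 : ∀ y ∈ B.filter fun y => f.c.κ y ≠ f.c.κ p, 0 < g y → f.c.L2 y := fun y hy k =>
      ((lam0 h (s.sub y (mem_filter.1 hy).1).1).2 (g0 y hy k).1).2.resolve_right
        (a1 y (mem_filter.1 hy).1)
    have a4 := sum_le (T := univ.filter f.c.L2) g1 fun y hy k =>
      mem_filter.2 ⟨mem_univ _, a3 y hy k⟩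
    have a5 : 0 ≤ ∑ y ∈ B.filter fun y => f.c.κ y = f.c.κ p, f.mu y := sum_nonneg fun y hy => by
      have hy' := (mem_filter.1 hy).1
      have := (mu_ge h y).1
      have := not_lt.1 fun k => a1 y hy' ⟨(s.sub y hy').1.1.1, k⟩
      omega
    rcases n2 with n2 | ⟨n2, n3⟩
    · omega
    by_cases k : ∀ y ∈ B.filter fun y => f.c.κ y ≠ f.c.κ p, ¬0 < g y
    · have := z0 k
      omega
    push Not at k
    obtain ⟨y, hy, k⟩ := k
    have a6 : f.c.κ p = 0 := by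
      have := (mem_filter.1 hy).2
      rw [l2 (a3 y hy k)] at this
      revert this
      generalize f.c.κ p = k
      decide +revert
    have a7 : _ ≤ ∑ y ∈ B.filter fun y => f.c.κ y = f.c.κ p, f.mu y :=
      card_nsmul_le_sum _ _ 1 fun y hy => by
      have := (mu_ge h y).1
      have := n3 y (s.sub y (mem_filter.1 hy).1).1.1.1 ((mem_filter.1 hy).2.trans a6)
      omega
    have a8 : 0 ≤ ∑ y ∈ B.filter fun y => f.c.κ y ≠ f.c.κ p,
        (f.lam y + if Hc f.c.G f.c.κ y p then 0 else 1) := sum_nonneg fun y hy => by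
      have := l0 y hy
      split_ifs <;> omega
    rw [nsmul_eq_mul, mul_one] at a7
    omega
  have a1 : f.vH p - ∑ y ∈ B.filter fun y => f.c.κ y = f.c.κ p, f.mu y ≤ 1 := by
    by_cases k : f.vH p = 0
    · have := sum_one (g := fun y => -f.mu y) (S := B.filter fun y => f.c.κ y = f.c.κ p)
        (fun y hy => by
          have := (mu_ge h y).1
          have := neg1 h hJ (s.sub y (mem_filter.1 hy).1).1.1.1
          omega) fun x hx y hy k1 k2 =>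
            e1 h hJ s (mem_filter.1 hx).1 (mem_filter.1 hy).1 (neg_pos.1 k1) (neg_pos.1 k2)
      rw [sum_neg_distrib] at this
      omega
    · have := sum_nonneg fun y (hy : y ∈ B.filter fun y => f.c.κ y = f.c.κ p) =>
        e2 h hJ s k (mem_filter.1 hy).1
      have := vh1 (f := f) p
      omega
  by_cases k : ∀ y ∈ B.filter fun y => f.c.κ y ≠ f.c.κ p, ¬0 < g y
  · have := z0 k
    omega
  push Not at k
  obtain ⟨x, hx, k⟩ := k
  rcases (hc.resolve_left (not_not.2 hp)).resolve_left (not_not.2 hJ) with hc | hc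
  · have a2 : ∀ y ∈ B.filter fun y => f.c.κ y ≠ f.c.κ p, 0 < g y →
        f.c.Neg y ∧ f.d.v₀ = some y := fun y hy k => by
      obtain ⟨y1, y2⟩ := mem_filter.1 hy
      have hb := (s.sub y y1).1
      obtain ⟨c1, c2⟩ := (lam0 h hb).2 (g0 y hy k).1
      have c3 := c2.resolve_left fun c => y2 ((l2 c).trans hc.symm)
      refine ⟨c3, ((h.ok.ng hJ y c3 (h.yc y hb.1).1 (fun c => notMem_empty _
        (s.fo0 y y1 y2 ▸ oFo h hb.1 c)) (bf h hb).1).resolve_left ?_).1⟩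
      have := dfe h y
      have := neg1 h hJ c3.1
      omega
    have a3 := sum_one g1 fun x hx y hy k1 k2 =>
      Option.some.inj ((a2 x hx k1).2.symm.trans (a2 y hy k2).2)
    have a4 : ∀ y, f.c.κ y = f.c.κ p → ¬f.c.Neg y := fun y c1 c2 =>
      (mem_filter.1 hx).2 ((neg2 h hJ (a2 x hx k).1 c2 fun c =>
        (mem_filter.1 hx).2 (c ▸ c1)).2.2.2.trans c1)
    have a5 : f.vH p = 0 := by_contra fun k => by
      obtain ⟨x, -, x2, rfl⟩ := vh k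
      exact a4 _ (oF h x2.1.1 x2.1.2.1).2.2.2.2 (h.ok.pij hJ _ x2.1.2.1).2.1
    have a6 : 0 ≤ ∑ y ∈ B.filter fun y => f.c.κ y = f.c.κ p, f.mu y := sum_nonneg fun y hy =>
      not_lt.1 fun c => a4 y (mem_filter.1 hy).2
        (exc h hJ (s.sub y (mem_filter.1 hy).1).1.1.1 c).1
    omega
  · obtain ⟨c1, c2⟩ := g0 x hx k
    have c3 := pair h hJ c2.2.1 hp c2.1.ne
    have c4 := tle h c2.2.1 p
    have c5 := ((lam0 h (s.sub x (mem_filter.1 hx).1).1).2 c1).1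
    have c6 := dfe h x
    rw [if_pos c2, if_neg fun c => c2.2.2.2 c.2.2.2] at c3
    omega

end Pool.Agent.MP_d1f1f3_co.H2
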