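import Pool.Agent.MP_d1f1f3_co.H2.Spec2

/-!
Stuck sets at the special locations.
-/

namespace Pool.Agent.MP_d1f1f3_co.H2

open Finset Relation H47
open scoped Classical

namespace Gns

variable {V : Type} [Fintype V] {f : Fr V} {γ : ZMod 2}

theorem fc_symm {G : SimpleGraph V} {κ : V → ZMod 2} {u w : V} (h : Fc G κ u w) : Fc G κ w u :=
  ⟨h.1.symm, h.2.2.1, h.2.1, h.2.2.2.symm⟩

omit [Fintype V] in
theorem mf {p : V → Prop} {_ : DecidablePred p} {s : Finset V} {a : V} (h : a ∈ s.filter p) :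
    p a := (mem_filter.1 h).2

omit [Fintype V] in
theorem flt {p : V → Prop} {_ : DecidablePred p} {s : Finset V} {a : V} (h : a ∈ s) (h' : ¬p a) :
    #(s.filter p) + 1 ≤ #s := card_lt_card (filter_ssubset.2 ⟨a, h, h'⟩)

omit [Fintype V] in
theorem sum_le_one (B : Finset V) (S : V → Finset V) (y₀ a₀ : V)
    (h : ∀ y, ∀ a ∈ S y, y = y₀ ∧ a = a₀) : ∑ y ∈ B, #(S y) ≤ 1 := by
  have h1 : ∀ y ∈ B, #(S y) ≤ if y = y₀ then 1 else 0 := fun y _ => by
    split_ifs with e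
    · exact card_le_one.2 fun a ha b hb => (h y a ha).2.trans (h y b hb).2.symm
    · exact (card_eq_zero.2 (eq_empty_of_forall_notMem fun a ha => e (h y a ha).1)).le
  refine (sum_le_sum h1).trans ?_
  rw [sum_ite_eq']
  split_ifs <;> simp

theorem arc_i (hM : f.Mid γ) {y : V} (hy : f.Bf y) :
    f.c.A (f.i y) y ∧ f.c.G.Adj y (f.i y) := by
  have h := (hM.yc y hy.1).2.2.2.1
  have hu : ¬f.c.Ub f.d y := fun hu => hy.2.2.2.1 ⟨hy.1, hu⟩
  rw [Cx.II, if_neg hu] at h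
  split_ifs at h
  · exact (mem_filter.1 h).2
  · exact ⟨(mem_filter.1 h).2.1, (mem_filter.1 h).2.2.1⟩
  · exact (mem_filter.1 (mem_filter.1 h).1).2

theorem run_o (hM : f.Mid γ) {w : V} (hw : f.Run w) : f.o w ∈ f.c.Fo w := by
  obtain ⟨hY, hP⟩ : f.Y w ∧ w ∈ f.d.Pi :=
    hw.elim (fun h => ⟨h.1, h.2.1⟩) fun h => ⟨h.1.1, h.1.2.1⟩
  have h := (hM.yc w hY).2.2.2.2
  rw [Cx.OO, if_neg (hM.ok.pi w hP).2.2.2, if_pos hP] at h
  split_ifs at h with hJ
  · rw [mem_singleton.1 h]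
    exact (hM.ok.pij hJ w hP).1
  · exact h

theorem al_one (hM : f.Mid γ) {y : V} (hy : f.Bf y) {l : Option V × ZMod 2} (hl : l.2 = 1) :
    f.al (f.i y, y) ≠ some l := by
  intro h
  rw [Fr.al] at h
  split_ifs at h with h1 h2 h3
  · obtain ⟨h4, h5⟩ := h2
    have h6 := (hM.ok.pa _ h4.2.2).1
    simp only at h5 h6
    rw [← h5] at h6
    exact hM.ori.asym _ _ (arc_i hM hy).1 h6
  all_goals
    rw [← Option.some.inj h] at hl
    exact zero_ne_one hl

theorem al_none {e : V × V} {l : Option V × ZMod 2} (hl : l.1 = none) (h : f.al e = some l) :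
    f.d.st ∧ e = f.d.e₂ ∧ f.c.κ e.2 = 0 := by
  rw [Fr.al] at h
  split_ifs at h with h1 h2 h3 h4
  · rw [← Option.some.inj h, Fr.tgt] at hl
    split_ifs at hl
  · rw [← Option.some.inj h] at hl
    exact absurd hl (Option.some_ne_none _)
  · exact h4

theorem od_none {y u : V} {l : Option V × ZMod 2} (hl : l.1 = none) : f.od y u ≠ some l := by
  intro h
  rw [Fr.od] at h
  split_ifs at h
  · rw [← Option.some.inj h] at hl
    exact absurd hl (Option.some_ne_none _)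
  · obtain ⟨p, -, hp⟩ := Option.map_eq_some_iff.1 h
    rw [← hp] at hl
    exact absurd hl (Option.some_ne_none _)

theorem om_none {e : V × V} {l : Option V × ZMod 2} (hl : l.1 = none) (h : f.om e = some l) :
    e = f.d.e₁ := by
  rw [Fr.om] at h
  split_ifs at h with h1 h2 h3 h4 h5 h6
  · exact absurd h (od_none hl)
  · rw [← Option.some.inj h] at hl
    exact absurd hl (Option.some_ne_none _)
  · exact absurd h (od_none hl)
  · rw [← Option.some.inj h] at hl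
    exact absurd hl (Option.some_ne_none _)
  · exact h6.2

theorem cover (hM : f.Mid γ) {y : V} (hy : f.Bf y) : f.M y ⊆ f.Li y ∪ f.Lo y ∪ f.c.Fi y := by
  intro w hw
  have adj : f.c.G.Adj y w := (mem_filter.1 (mem_filter.1 hw).1).2
  have hE : f.E y w ∨ f.E w y := by
    rcases hM.ori.real y w adj with h | h
    · by_cases r : f.RV y w
      · exact Or.inr ⟨adj.symm, Or.inr r⟩
      · exact Or.inl ⟨adj, Or.inl ⟨h, r⟩⟩
    · by_cases r : f.RV w y
      · exact Or.inl ⟨adj, Or.inr r⟩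
      · exact Or.inr ⟨adj.symm, Or.inl ⟨h, r⟩⟩
  simp only [mem_union]
  rcases hE with h | h
  · by_cases r : f.Run w ∧ y = f.o w
    · have h1 := (mem_filter.1 (run_o hM r.1)).2
      rw [← r.2] at h1
      exact Or.inr (mem_filter.2 ⟨mem_univ _, h1.1, fc_symm h1.2⟩)
    · exact Or.inl (Or.inr (mem_filter.2 ⟨hw, h, r⟩))
  · by_cases r : Fc f.c.G f.c.κ y w
    · refine Or.inr (mem_filter.2 ⟨mem_univ _, ?_, r⟩)
      rcases h.2 with h | h | h | h
      · exact h.1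
      · exact absurd r.2.2.2 (hM.ok.pa _ h).2.1.2.2.2
      · exact absurd r.2.2.1 (hM.ok.fa _ h).2.2.2
      · exact (h.1.elim hy.2.2.1 fun h => hy.2.1 h.1).elim
    · exact Or.inl (Or.inl (mem_filter.2 ⟨hw, h, r⟩))

theorem three (hM : f.Mid γ) {y : V} (hy : f.Bf y) (hi : f.i y ∈ f.Li y) (hN : ¬f.c.Neg y)
    (h0 : f.c.κ y = 0) : 3 ≤ #(f.Li y) + #(f.Lo y) := by
  obtain ⟨hc, -, hm, -⟩ := hM.yc y hy.1
  have co : 3 ≤ dg f.c.G y := hy.1.1
  have a1 : #(f.M y) ≤ #(f.Li y) + #(f.Lo y) + #(f.c.Fi y) :=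
    (card_le_card (cover hM hy)).trans
      ((card_union_le _ _).trans (Nat.add_le_add_right (card_union_le _ _) _))
  rcases hc with hc | hc
  · have a2 : (df f.c.G f.c.κ y : ℤ) ≤ tau f.c.G f.c.κ y := not_lt.1 fun h => hN ⟨co, h⟩
    rw [tau, if_pos hc.2] at a2
    obtain ⟨-, -, ⟨k, hk⟩, hκ⟩ := hc
    have a3 : f.c.Fi y ⊆ univ.filter fun w => Fc f.c.G f.c.κ y w := fun w hw =>
      mem_filter.2 ⟨mem_univ _, (mem_filter.1 hw).2.2⟩
    by_cases h2 : 2 ≤ df f.c.G f.c.κ y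
    · obtain ⟨b, hb⟩ := hM.ok.c1 y co h2
      have hb' := (mem_filter.1 hb).2
      have a4 : #(f.c.Fi y) < df f.c.G f.c.κ y := card_lt_card ((ssubset_iff_of_subset a3).2
        ⟨b, mem_filter.2 ⟨mem_univ _, hb'.2⟩,
          fun h => hM.ori.asym _ _ hb'.1 (mem_filter.1 h).2.1⟩)
      omega
    · have a4 : #(f.c.Fi y) ≤ df f.c.G f.c.κ y := card_le_card a3
      by_contra h3
      have a5 : dg f.c.G y / 2 = 2 := by omega
      rw [a5, h0] at hκ
      exact hκ rfl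
  · obtain ⟨-, ⟨k, hk⟩, ho⟩ := hc
    have b1 := arc_i hM hy
    have b2 : f.i y ∉ f.c.Fi y := fun h => (mem_filter.1 hi).2.2 (mem_filter.1 h).2.2
    have b3 : Disjoint (insert (f.i y) (f.c.Fi y)) (Out f.c.A y) :=
      disjoint_left.2 fun w hw hw' => hM.ori.asym _ _ (mem_filter.1 hw').2
        ((mem_insert.1 hw).elim (fun e => e ▸ b1.1) fun h => (mem_filter.1 h).2.1)
    have b4 : insert (f.i y) (f.c.Fi y) ∪ Out f.c.A y ⊆ N f.c.G y := fun w hw => by
      refine mem_filter.2 ⟨mem_univ _, ?_⟩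
      rcases mem_union.1 hw with h | h
      · exact (mem_insert.1 h).elim (fun e => e ▸ b1.2) fun h => (mem_filter.1 h).2.2.1
      · exact hM.ori.outK y w (le_trans (by norm_num) co) (mem_filter.1 h).2
    have b5 : #(insert (f.i y) (f.c.Fi y) ∪ Out f.c.A y) ≤ dg f.c.G y := card_le_card b4
    rw [card_union_of_disjoint b3, card_insert_of_notMem b2] at b5
    omega

end Gns

open Gns in
theorem gns : SGns := by
  intro V _ f γ l B r hM hE hS hl
  have hi := hS.cni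
  have mem : ∀ y ∈ B, f.i y ∈ f.Li y ∧ f.o y ∈ f.Lo y := fun y hy => hE.mem y (hS.sub y hy).1
  rcases hl with hl | hl
  · have ho := hS.cno
    have hi' := hi.trans (Nat.add_le_add_right (sum_le_one B _ f.d.e₂.2 f.d.e₂.1 fun y a ha => by
      have := (al_none hl (mf ha :)).2.1
      exact ⟨congrArg Prod.snd this, congrArg Prod.fst this⟩) _)
    have ho' := ho.trans (Nat.add_le_add_right (sum_le_one B _ f.d.e₁.1 f.d.e₁.2 fun y a ha => by
      have := om_none hl (mf ha :)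
      exact ⟨congrArg Prod.fst this, congrArg Prod.snd this⟩) _)
    have a1 : #B ≤ ∑ y ∈ B, #(f.Li y) := by
      rw [card_eq_sum_ones]
      exact sum_le_sum fun y hy => card_pos.2 ⟨_, (mem y hy).1⟩
    by_contra hr
    obtain ⟨y, hy, h⟩ := exists_ne_zero_of_sum_ne_zero
      (Nat.pos_iff_ne_zero.1 (Nat.pos_of_lt_add_left
        ((Nat.lt_add_of_pos_right (Nat.pos_of_ne_zero hr)).trans_le
          ((Nat.add_le_add_right a1 r).trans hi))))
    obtain ⟨a, ha⟩ := card_ne_zero.1 h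
    obtain ⟨st, -, h0⟩ := al_none hl (mf ha :)
    have a2 : ∑ _y ∈ B, 2 < ∑ y ∈ B, (#(f.Li y) + #(f.Lo y)) :=
      sum_lt_sum (fun y hy => Nat.add_le_add (card_pos.2 ⟨_, (mem y hy).1⟩)
        (card_pos.2 ⟨_, (mem y hy).2⟩)) ⟨y, hy, three hM (hS.sub y hy).1 (mem y hy).1
          ((hM.ok.st st).2.2.2.2.2.2.2.2.2.2.2 y) h0⟩
    rw [sum_const, smul_eq_mul, sum_add_distrib] at a2
    omega
  · rw [card_eq_sum_ones B, ← sum_add_distrib] at hi
    have a1 := hi.trans (sum_le_sum (g := fun y => #(f.Li y)) fun y hy =>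
      flt (mem y hy).1 (al_one hM (hS.sub y hy).1 hl))
    omega

end Pool.Agent.MP_d1f1f3_co.H2
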