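import Pool.Agent.MP_d1f1f3_co.H2.Spec2

/-!
What a stuck set at the location of a vertex gives.
-/

namespace Pool.Agent.MP_d1f1f3_co.H2

open Finset Relation H47
open scoped Classical

noncomputable section

namespace Gs

variable {V : Type} [Fintype V] {f : Fr V} {γ : ZMod 2}

theorem fc_symm {G : SimpleGraph V} {κ : V → ZMod 2} {u w : V} (h : Fc G κ u w) : Fc G κ w u :=
  ⟨h.1.symm, h.2.2.1, h.2.1, h.2.2.2.symm⟩

theorem hc_symm {G : SimpleGraph V} {κ : V → ZMod 2} {u w : V} (h : Hc G κ u w) : Hc G κ w u :=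
  ⟨h.1.symm, h.2.2.1, h.2.1, h.2.2.2.symm⟩

theorem hc_of {G : SimpleGraph V} {κ : V → ZMod 2} {u w : V} (h : G.Adj u w) (hu : Co G u)
    (hw : Co G w) (hF : ¬Fc G κ u w) : Hc G κ u w :=
  ⟨h, hu, hw, fun e => hF ⟨h, hu, hw, e⟩⟩

theorem mem_Fo {c : Cx V} {v b : V} : b ∈ c.Fo v ↔ c.A v b ∧ Fc c.G c.κ v b := by simp [Cx.Fo]

theorem mem_Fi {c : Cx V} {v a : V} : a ∈ c.Fi v ↔ c.A a v ∧ Fc c.G c.κ v a := by simp [Cx.Fi]

theorem mem_Li {y a : V} : a ∈ f.Li y ↔ a ∈ f.M y ∧ f.E a y ∧ ¬Fc f.c.G f.c.κ y a := by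
  simp [Fr.Li]

theorem mem_Lo {y b : V} : b ∈ f.Lo y ↔ b ∈ f.M y ∧ f.E y b ∧ ¬(f.Run b ∧ y = f.o b) := by
  rw [Fr.Lo, mem_filter]

theorem adj_M {v w : V} (h : w ∈ f.M v) : f.c.G.Adj v w := by
  have := (mem_filter.1 h).1
  simpa [N] using this

theorem o_Fo (hM : f.Mid γ) {v : V} (hY : f.Y v) (hv : v ∈ f.d.Pi) : f.o v ∈ f.c.Fo v := by
  have h := (hM.yc v hY).2.2.2.2
  rw [Cx.OO, if_neg (hM.ok.pi v hv).2.2.2, if_pos hv] at h
  split_ifs at h with hJ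
  · rw [mem_singleton.1 h]
    exact (hM.ok.pij hJ v hv).1
  · exact h

theorem run_o (hM : f.Mid γ) {v : V} (h : f.Run v) : f.o v ∈ f.c.Fo v := by
  rcases h with h | h
  · exact o_Fo hM h.1 h.2.1
  · exact o_Fo hM h.1.1 h.1.2.1

theorem rv_A (hM : f.Mid γ) {u w : V} (h : f.RV u w) : f.c.A u w := by
  rcases h with h | h | ⟨h, rfl⟩
  · exact (hM.ok.pa _ h).1
  · exact (hM.ok.fa _ h).1
  · exact (mem_Fo.1 (run_o hM h)).1

theorem E_asym (hM : f.Mid γ) {u w : V} (h : f.E u w) : ¬f.E w u := by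
  rintro ⟨-, h' | h'⟩ <;> rcases h.2 with h | h
  · exact hM.ori.asym _ _ h.1 h'.1
  · exact h'.2 h
  · exact h.2 h'
  · exact hM.ori.asym _ _ (rv_A hM h) (rv_A hM h')

theorem E_tot (hM : f.Mid γ) {u w : V} (h : f.c.G.Adj u w) : f.E u w ∨ f.E w u := by
  by_cases h1 : f.RV u w
  · exact Or.inr ⟨h.symm, Or.inr h1⟩
  by_cases h2 : f.RV w u
  · exact Or.inl ⟨h, Or.inr h2⟩
  rcases hM.ori.real u w h with h3 | h3
  · exact Or.inl ⟨h, Or.inl ⟨h3, h1⟩⟩
  · exact Or.inr ⟨h.symm, Or.inl ⟨h3, h2⟩⟩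

theorem card_M (hM : f.Mid γ) {v : V} (hY : f.Y v) : (#(f.M v) : ℤ) = tau f.c.G f.c.κ v + 2 := by
  obtain ⟨h1, -, h2, -⟩ := hM.yc v hY
  rw [h2, tau]
  rcases h1 with h | h
  · rw [if_pos h.2]
    obtain ⟨m, hm⟩ := h.2.2.1
    omega
  · rw [if_neg fun h' => (Nat.not_even_iff_odd.2 h.2.1) h'.2.1]
    obtain ⟨m, hm⟩ := h.2.1
    omega

variable (f) in
/-- The separated part of the large class. -/
def NF (y : V) : Finset V := (f.M y).filter fun w => ¬Fc f.c.G f.c.κ y w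

theorem card_NF (hM : f.Mid γ) {y : V} (hY : f.Y y) : (#(NF f y) : ℤ) = f.mu y + 2 := by
  have h1 := card_filter_add_card_filter_not (s := f.M y) (fun w => Fc f.c.G f.c.κ y w)
  have h2 : (f.M y).filter (fun w => Fc f.c.G f.c.κ y w) =
      (f.c.Fi y ∩ f.M y) ∪ (f.c.Fo y ∩ f.M y) := by
    ext w
    simp only [mem_filter, mem_union, mem_inter, mem_Fi, mem_Fo]
    constructor
    · rintro ⟨h3, h4⟩
      rcases hM.ori.real y w h4.1 with h | h
      · exact Or.inr ⟨⟨h, h4⟩, h3⟩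
      · exact Or.inl ⟨⟨h, h4⟩, h3⟩
    · rintro (h | h) <;> exact ⟨h.2, h.1.2⟩
  rw [h2, card_union_of_disjoint (disjoint_left.2 fun w h3 h4 =>
    hM.ori.asym _ _ (mem_Fi.1 (mem_inter.1 h3).1).1 (mem_Fo.1 (mem_inter.1 h4).1).1)] at h1
  have h3 := card_M hM hY
  rw [Fr.mu, NF]
  omega

theorem nf_cases (hM : f.Mid γ) {y w : V} (h : w ∈ NF f y) : w ∈ f.Li y ∨ w ∈ f.Lo y := by
  obtain ⟨h1, h2⟩ := mem_filter.1 h
  rcases E_tot hM (adj_M h1) with h3 | h3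
  · refine Or.inr (mem_Lo.2 ⟨h1, h3, ?_⟩)
    rintro ⟨h4, rfl⟩
    exact h2 (fc_symm (mem_Fo.1 (run_o hM h4)).2)
  · exact Or.inl (mem_Li.2 ⟨h1, h3, h2⟩)

theorem fo_Lo (hM : f.Mid γ) {y b : V} (hy : f.Bf y) (h : b ∈ f.c.Fo y ∩ f.M y) : b ∈ f.Lo y := by
  obtain ⟨h1, h2⟩ := mem_inter.1 h
  obtain ⟨h3, h4⟩ := mem_Fo.1 h1
  refine mem_Lo.2 ⟨h2, ⟨h4.1, Or.inl ⟨h3, ?_⟩⟩, ?_⟩
  · rintro (h | h | ⟨h | h, -⟩)
    · exact (hM.ok.pa _ h).2.1.2.2.2 h4.2.2.2
    · exact (hM.ok.fa _ h).2.2.2 h4.2.2.1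
    · exact hy.2.2.1 h
    · exact hy.2.1 h.1
  · rintro ⟨h5, rfl⟩
    exact hM.ori.asym _ _ h3 (mem_Fo.1 (run_o hM h5)).1

theorem dz_κ {u p : V} (h : f.dz u = some p) : f.c.κ u = f.c.κ p := by
  have : p ∈ f.Cand u := by
    rw [Fr.dz] at h
    split_ifs at h with h1 h2
    · exact Option.some.inj h ▸ h1.choose_spec.1
    · exact Option.some.inj h ▸ h2.choose_spec.1
  exact (mem_Fo.1 (mem_filter.1 this).1).2.2.2.2

theorem od_κ {y u p : V} (h : f.od y u = some (some p, 0)) : f.c.κ u = f.c.κ p := by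
  rw [Fr.od] at h
  split_ifs at h with h1 h2
  · simp at h
  · obtain ⟨q, h3, h4⟩ := Option.map_eq_some_iff.1 h
    obtain rfl : q = p := by simpa using h4
    exact dz_κ h3

theorem om_κ (hM : f.Mid γ) {y b p : V} (hF : Fc f.c.G f.c.κ y b)
    (h : f.om (y, b) = some (some p, 0)) : f.c.κ y = f.c.κ p := by
  have ho : ∀ v, f.FFw v → f.c.κ v = f.c.κ (f.o v) := fun v hv =>
    (mem_Fo.1 (o_Fo hM hv.1.1 hv.1.2.1)).2.2.2.2
  rw [Fr.om, if_neg (not_not.2 hF.2.2.1), if_neg (not_not.2 hF)] at h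
  rw [hF.2.2.2]
  split_ifs at h with h1 h2 h3
  · rw [ho b h2.1, ho _ h3.1]
    exact od_κ h
  · rw [ho b h2.1]
    obtain rfl : f.o b = p := by simpa using h
    rfl
  · exact od_κ h

theorem om_nf {y w p : V} (hF : ¬Fc f.c.G f.c.κ y w) (h : f.om (y, w) = some (some p, 0)) :
    w = p ∧ Co f.c.G w := by
  rw [Fr.om] at h
  by_cases h1 : Co f.c.G w
  · rw [if_neg (not_not.2 h1), if_pos hF] at h
    exact ⟨by simpa using h, h1⟩
  · rw [if_pos h1] at h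
    split_ifs at h
    simp at h

theorem al_cases {w y p : V} (h : f.al (w, y) = some (some p, 0)) :
    (w = p ∧ Co f.c.G w) ∨ (f.Rl w ∧ f.i w = y ∧ f.tgt w = (some p, 0)) := by
  rw [Fr.al] at h
  by_cases h1 : Co f.c.G w
  · rw [if_neg (not_not.2 h1)] at h
    split_ifs at h with h2 h3
    · exact Or.inr ⟨h2.1, h2.2.symm, Option.some.inj h⟩
    · exact Or.inl ⟨by simpa using h, h1⟩
  · rw [if_pos h1] at h
    split_ifs at h
    simp at h

theorem tgt_eq {w p : V} (h : f.tgt w = (some p, 0)) : f.FFr (f.o w) ∧ f.o (f.o w) = p := by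
  rw [Fr.tgt] at h
  split_ifs at h with h1
  · exact ⟨h1.1, by simpa using h⟩
  · simp at h

theorem tgt_κ (hM : f.Mid γ) {w p : V} (hw : f.Rl w) (h : f.tgt w = (some p, 0)) :
    f.c.κ (f.i w) ≠ f.c.κ p := by
  obtain ⟨h1, rfl⟩ := tgt_eq h
  rw [← (mem_Fo.1 (run_o hM (Or.inr h1))).2.2.2.2, ← (mem_Fo.1 (run_o hM (Or.inl hw))).2.2.2.2]
  exact (hM.ok.pa _ hw.2.2).2.1.2.2.2

theorem tgt_card (hM : f.Mid γ) (p : V) :
    #(univ.filter fun w => f.Rl w ∧ f.tgt w = (some p, 0)) ≤ f.vH p := by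
  rw [Fr.vH]
  split_ifs with h
  · obtain ⟨x, hx, hx'⟩ := h
    have h1 := (tgt_eq hx').1
    have hex : ∀ v, f.Rl v → v ≠ f.o x := by
      rintro v hv rfl
      exact (hM.ok.pa _ hv.2.2).2.1.2.2.2 h1.1.2.2.2.2.2.symm
    refine card_le_one.2 fun a ha b hb => ?_
    have ha' := (mem_filter.1 ha).2.1
    have hb' := (mem_filter.1 hb).2.1
    by_contra hab
    have : ({f.o x, a, b} : Finset V) ⊆ f.d.Pi := by
      intro v hv
      simp only [mem_insert, mem_singleton] at hv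
      rcases hv with rfl | rfl | rfl
      · exact h1.1.2.1
      · exact ha'.2.1
      · exact hb'.2.1
    have h2 := (card_le_card this).trans hM.ok.pi2
    rw [card_eq_three.2 ⟨_, _, _, (hex a ha').symm, (hex b hb').symm, hab, rfl⟩] at h2
    omega
  · rw [filter_eq_empty_iff.2 fun w _ hw => h ⟨w, hw⟩, card_empty]

omit [Fintype V] in
theorem dc (R : V → V → Prop) [∀ a b, Decidable (R a b)] (S T : Finset V) :
    ∑ y ∈ S, #(T.filter fun w => R w y) = ∑ w ∈ T, #(S.filter fun y => R w y) := by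
  simp only [card_filter]
  exact sum_comm

omit [Fintype V] in
theorem half (R : V → V → Prop) [∀ a b, Decidable (R a b)] (B : Finset V) (q : V → Prop)
    [DecidablePred q]
    (h : ∀ y ∈ B, ∀ w ∈ B, q y → q w → ¬R w y) :
    ∑ y ∈ B.filter q, (#(B.filter fun w => R y w) + #(B.filter fun w => R w y)) ≤
      ∑ y ∈ B, #(B.filter fun w => R y w) := by
  rw [sum_add_distrib, dc R (B.filter q) B, sum_filter, ← sum_add_distrib]
  refine sum_le_sum fun y hy => ?_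
  split_ifs with hq
  · rw [filter_eq_empty_iff.2 fun w hw => h w (mem_filter.1 hw).1 y hy (mem_filter.1 hw).2 hq]
    simp
  · rw [zero_add]
    exact card_le_card (filter_subset_filter _ (filter_subset _ _))

variable (f) in
/-- Inner arcs. -/
def T (y w : V) : Prop := w ∈ f.Lo y ∧ y ∈ f.Li w

variable {p : V} {B : Finset V} {r : ℕ}

theorem T_hc {y w : V} (hy : f.Bf y) (hw : f.Bf w) (h : T f y w) : Hc f.c.G f.c.κ y w :=
  hc_symm (hc_of (adj_M (mem_Li.1 h.2).1) hw.1.1 hy.1.1 (mem_Li.1 h.2).2.2)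

theorem nf_mem (hM : f.Mid γ) (hS : Stk f.Bf f.Li f.Lo f.al f.om f.loc (some p, 0) B r) {y w : V}
    (hy : y ∈ B) (hw : w ∈ NF f y) : (w ∈ B ∧ (T f y w ∨ T f w y)) ∨
      (w = p ∧ Hc f.c.G f.c.κ y p) ∨ (f.Rl w ∧ f.i w = y ∧ f.tgt w = (some p, 0)) := by
  obtain ⟨h1, h2⟩ := mem_filter.1 hw
  have hc := (hS.sub y hy).1.1.1
  rcases nf_cases hM hw with h | h
  · rcases hS.cli y hy w h with h3 | h3
    · rcases al_cases h3 with ⟨rfl, h4⟩ | h4
      · exact Or.inr (Or.inl ⟨rfl, hc_of (adj_M h1) hc h4 h2⟩)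
      · exact Or.inr (Or.inr h4)
    · exact Or.inl ⟨h3.1, Or.inr ⟨h3.2, h⟩⟩
  · rcases hS.clo y hy w h with h3 | h3
    · obtain ⟨rfl, h4⟩ := om_nf h2 h3
      exact Or.inr (Or.inl ⟨rfl, hc_of (adj_M h1) hc h4 h2⟩)
    · exact Or.inl ⟨h3.1, Or.inl ⟨h, h3.2⟩⟩

theorem mu_le (hM : f.Mid γ) (hS : Stk f.Bf f.Li f.Lo f.al f.om f.loc (some p, 0) B r) {y : V}
    (hy : y ∈ B) : f.mu y + 2 ≤ #(B.filter fun w => T f y w) + #(B.filter fun w => T f w y) +
      (if Hc f.c.G f.c.κ y p then 1 else 0) +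
      #((univ.filter fun w => f.Rl w ∧ f.tgt w = (some p, 0)).filter fun w => f.i w = y) := by
  rw [← card_NF hM (hS.sub y hy).1.1]
  have h1 : NF f y ⊆ (((B.filter fun w => T f y w) ∪ (B.filter fun w => T f w y)) ∪
      ({p} : Finset V).filter fun w => Hc f.c.G f.c.κ y w) ∪
      ((univ.filter fun w => f.Rl w ∧ f.tgt w = (some p, 0)).filter fun w => f.i w = y) := by
    intro w hw
    simp only [mem_union, mem_filter, mem_singleton, mem_univ, true_and]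
    rcases nf_mem hM hS hy hw with ⟨h, h' | h'⟩ | ⟨rfl, h⟩ | h
    · exact Or.inl (Or.inl (Or.inl ⟨h, h'⟩))
    · exact Or.inl (Or.inl (Or.inr ⟨h, h'⟩))
    · exact Or.inl (Or.inr ⟨rfl, h⟩)
    · exact Or.inr ⟨⟨h.1, h.2.2⟩, h.2.1⟩
  have h2 := (card_le_card h1).trans ((card_union_le _ _).trans (Nat.add_le_add_right
    ((card_union_le _ _).trans (Nat.add_le_add_right (card_union_le _ _) _)) _))
  rw [filter_singleton] at h2
  split_ifs at h2 ⊢
  · rw [card_singleton] at h2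
    exact_mod_cast h2
  · rw [card_empty] at h2
    exact_mod_cast h2

theorem mu_le' (hM : f.Mid γ) (hS : Stk f.Bf f.Li f.Lo f.al f.om f.loc (some p, 0) B r) {y : V}
    (hy : y ∈ B) (hκ : f.c.κ y = f.c.κ p) :
    f.mu y + 2 ≤ #(B.filter fun w => T f y w) + #(B.filter fun w => T f w y) := by
  have h := mu_le hM hS hy
  have h0 : ((univ.filter fun w => f.Rl w ∧ f.tgt w = (some p, 0)).filter fun w => f.i w = y) =
      ∅ := filter_eq_empty_iff.2 fun w hw e =>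
    tgt_κ hM (mem_filter.1 hw).2.1 (mem_filter.1 hw).2.2 (e ▸ hκ)
  rw [if_neg fun h' => h'.2.2.2 hκ, h0] at h
  simpa using h

theorem T_le (hM : f.Mid γ) (hS : Stk f.Bf f.Li f.Lo f.al f.om f.loc (some p, 0) B r) {y : V}
    (hy : y ∈ B) : #(B.filter fun w => T f y w) + #(B.filter fun w => T f w y) ≤
      #(B.filter fun x => Hc f.c.G f.c.κ y x) := by
  rw [← card_union_of_disjoint (disjoint_left.2 fun w h1 h2 =>
    E_asym hM (mem_Lo.1 (mem_filter.1 h1).2.1).2.1 (mem_Lo.1 (mem_filter.1 h2).2.1).2.1)]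
  refine card_le_card fun w hw => ?_
  rcases mem_union.1 hw with h | h <;> obtain ⟨h1, h2⟩ := mem_filter.1 h
  · exact mem_filter.2 ⟨h1, T_hc (hS.sub y hy).1 (hS.sub w h1).1 h2⟩
  · exact mem_filter.2 ⟨h1, hc_symm (T_hc (hS.sub w h1).1 (hS.sub y hy).1 h2)⟩

theorem I_le (hE : Exh f.E f.Bf f.Li f.Lo f.al f.om f.loc f.i f.o)
    (hS : Stk f.Bf f.Li f.Lo f.al f.om f.loc (some p, 0) B r) :
    ∑ y ∈ B, #(B.filter fun w => T f y w) + r ≤ #B := by
  have h1 : ∑ y ∈ B, (#((f.Lo y).filter fun b => f.om (y, b) = some (some p, 0)) +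
      #(B.filter fun w => T f y w)) ≤ ∑ y ∈ B, #(f.Lo y) := by
    refine sum_le_sum fun y _ => ?_
    rw [← card_filter_add_card_filter_not (s := f.Lo y)
      (fun b => f.om (y, b) = some (some p, 0))]
    refine Nat.add_le_add_left (card_le_card fun w hw => ?_) _
    obtain ⟨h1, h2⟩ := mem_filter.1 hw
    refine mem_filter.2 ⟨h2.1, fun e => (hS.sub w h1).2 ?_⟩
    exact Option.some.inj ((hE.inn w (hS.sub w h1).1 y h2.2).2.symm.trans e)
  have h2 := hS.cno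
  rw [sum_add_distrib] at h1
  have h3 : ∑ y ∈ B, #(f.Lo y) + r ≤
      ∑ y ∈ B, #((f.Lo y).filter fun b => f.om (y, b) = some (some p, 0)) + #B := by
    convert h2
  omega

theorem zc_le (hM : f.Mid γ) (S : Finset V) :
    ∑ y ∈ S, #((univ.filter fun w => f.Rl w ∧ f.tgt w = (some p, 0)).filter fun w => f.i w = y) ≤
      f.vH p := by
  refine le_trans ?_ (tgt_card hM p)
  rw [dc (fun w y => f.i w = y), card_eq_sum_ones (univ.filter _)]
  exact sum_le_sum fun w _ => card_le_one.2 fun a ha b hb =>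
    (mem_filter.1 ha).2.symm.trans (mem_filter.1 hb).2

theorem two : ∀ a b c : ZMod 2, a ≠ c → b ≠ c → a = b := by decide

theorem g4 (hM : f.Mid γ) (hE : Exh f.E f.Bf f.Li f.Lo f.al f.om f.loc f.i f.o)
    (hS : Stk f.Bf f.Li f.Lo f.al f.om f.loc (some p, 0) B r) (hp : p ∉ B) :
    Dl f.c.G f.c.κ f.d.t f.d.sF (insert p B) + 2 * r + #B +
      2 * ∑ y ∈ B, (#((f.c.Fo y \ f.M y) \ insert p B) : ℤ) ≤ 2 * f.d.t p + 1 + 2 * f.vH p +
      2 * #(f.c.Fo p ∩ B) + 2 * ∑ y ∈ B, (#(f.c.Fo y ∩ f.M y ∩ insert p B) : ℤ) := by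
  set X := insert p B with hX
  let fo : V → ℕ := fun y => #(X.filter fun w => w ∈ f.c.Fo y)
  let fi : V → ℕ := fun y => #(X.filter fun w => y ∈ f.c.Fo w)
  have hF : ∀ y, #(X.filter fun w => Fc f.c.G f.c.κ y w) ≤ fo y + fi y := fun y => by
    refine le_trans (card_le_card fun w hw => ?_) (card_union_le _ _)
    obtain ⟨h1, h2⟩ := mem_filter.1 hw
    rcases hM.ori.real y w h2.1 with h | h
    · exact mem_union_left _ (mem_filter.2 ⟨h1, mem_Fo.2 ⟨h, h2⟩⟩)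
    · exact mem_union_right _ (mem_filter.2 ⟨h1, mem_Fo.2 ⟨h, fc_symm h2⟩⟩)
  have e1 : fo p + ∑ y ∈ B, fo y = fi p + ∑ y ∈ B, fi y := by
    rw [← sum_insert hp, ← sum_insert hp]
    exact dc (fun w y => w ∈ f.c.Fo y) X X
  have e2 : fo p ≤ #(f.c.Fo p ∩ B) := card_le_card fun w hw => by
    obtain ⟨h1, h2⟩ := mem_filter.1 hw
    rcases mem_insert.1 h1 with rfl | h1
    · exact absurd rfl (mem_Fo.1 h2).2.1.ne
    · exact mem_inter.2 ⟨h2, h1⟩
  have e3 : ∑ y ∈ B, (if Hc f.c.G f.c.κ y p then (1 : ℤ) else 0) ≤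
      #(X.filter fun w => Hc f.c.G f.c.κ p w) := by
    rw [sum_boole]
    exact_mod_cast card_le_card fun w hw => mem_filter.2
      ⟨mem_insert_of_mem (mem_filter.1 hw).1, hc_symm (mem_filter.1 hw).2⟩
  have e4 : ∑ w ∈ X, (f.d.sF p w : ℤ) = ∑ y ∈ B, (f.d.sF y p : ℤ) := by
    rw [sum_insert hp, hM.ok.sdiag, Nat.cast_zero, zero_add]
    exact sum_congr rfl fun y _ => by rw [hM.ok.sym]
  have e5 : ∑ y ∈ B, ((2 * f.d.t y + 1 + #(X.filter fun w => Fc f.c.G f.c.κ y w) -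
      #(X.filter fun w => Hc f.c.G f.c.κ y w) + ∑ w ∈ X, (f.d.sF y w : ℤ)) +
      2 * (#((f.c.Fo y \ f.M y) \ X) : ℤ) + f.d.sF y p + fo y + 3) ≤
      ∑ y ∈ B, ((#(B.filter fun w => T f y w) : ℤ) + #(B.filter fun w => T f w y) +
        (if Hc f.c.G f.c.κ y p then 1 else 0) +
        2 * #((univ.filter fun w => f.Rl w ∧ f.tgt w = (some p, 0)).filter fun w => f.i w = y) +
        fi y + 2 * (#(f.c.Fo y ∩ f.M y ∩ X) : ℤ)) := by
    refine sum_le_sum fun y hy => ?_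
    have a0 := hM.ok.t1 y (hS.sub y hy).1.1.1
    have a1 : #(f.c.Fo y) + #(f.c.Fi y ∩ f.M y) ≤ df f.c.G f.c.κ y := by
      rw [← card_union_of_disjoint (disjoint_left.2 fun w h3 h4 =>
        hM.ori.asym _ _ (mem_Fo.1 h3).1 (mem_Fi.1 (mem_inter.1 h4).1).1)]
      refine card_le_card fun w hw => mem_filter.2 ⟨mem_univ _, ?_⟩
      rcases mem_union.1 hw with h | h
      · exact (mem_Fo.1 h).2
      · exact (mem_Fi.1 (mem_inter.1 h).1).2
    have a2 := card_sdiff_add_card_inter (f.c.Fo y) (f.M y)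
    have a3 := mu_le hM hS hy
    have a4 : (#(B.filter fun w => T f y w) : ℤ) + #(B.filter fun w => T f w y) +
        (if Hc f.c.G f.c.κ y p then 1 else 0) ≤ #(X.filter fun w => Hc f.c.G f.c.κ y w) := by
      have b1 := T_le hM hS hy
      rw [hX, filter_insert]
      split_ifs
      · rw [card_insert_of_notMem fun h => hp (mem_filter.1 h).1]
        omega
      · omega
    have a5 : fo y + #((f.c.Fo y \ f.M y) \ X) ≤
        #(f.c.Fo y ∩ f.M y ∩ X) + #(f.c.Fo y \ f.M y) := by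
      rw [← card_sdiff_add_card_inter (f.c.Fo y \ f.M y) X]
      have : fo y ≤ #(f.c.Fo y ∩ f.M y ∩ X) + #((f.c.Fo y \ f.M y) ∩ X) := by
        refine le_trans (card_le_card fun w hw => ?_) (card_union_le _ _)
        obtain ⟨h1, h2⟩ := mem_filter.1 hw
        by_cases h : w ∈ f.M y
        · exact mem_union_left _ (mem_inter.2 ⟨mem_inter.2 ⟨h2, h⟩, h1⟩)
        · exact mem_union_right _ (mem_inter.2 ⟨mem_sdiff.2 ⟨h2, h⟩, h1⟩)
      omega
    have a6 : ∑ w ∈ X, (f.d.sF y w : ℤ) ≤ ∑ w, (f.d.sF y w : ℤ) :=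
      sum_le_sum_of_subset_of_nonneg (subset_univ _) fun _ _ _ => Nat.cast_nonneg _
    have a7 : (f.d.sF y p : ℤ) ≤ ∑ w, (f.d.sF y w : ℤ) :=
      single_le_sum (f := fun w => (f.d.sF y w : ℤ)) (fun _ _ => Nat.cast_nonneg _) (mem_univ p)
    have a8 := hF y
    rw [Fr.mu] at a3
    omega
  have e6 := I_le hE hS
  have e7 := dc (T f) B B
  have e8 := zc_le hM (p := p) B
  have e9 := hF p
  rw [Dl, sum_insert hp]
  simp only [sum_add_distrib, ← mul_sum, sum_const, nsmul_eq_mul] at e5 ⊢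
  zify at e1 e2 e6 e7 e8 e9
  linarith

end Gs

open Gs in
theorem gs : SGs := by
  intro V _ f γ p B r hM hE hS
  have hne : ∀ y ∈ B, y ≠ p := fun y hy e => (hS.sub y hy).2 (by rw [e]; rfl)
  have fo1 : ∀ y ∈ B, ∀ b ∈ f.c.Fo y ∩ f.M y, f.om (y, b) = some (some p, 0) := fun y hy b hb =>
    (hS.clo y hy b (fo_Lo hM (hS.sub y hy).1 hb)).resolve_right fun h =>
      (mem_Li.1 h.2).2.2 (fc_symm (mem_Fo.1 (mem_inter.1 hb).1).2)
  have fo0 : ∀ y ∈ B, f.c.κ y ≠ f.c.κ p → f.c.Fo y ∩ f.M y = ∅ := fun y hy h =>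
    eq_empty_of_forall_notMem fun b hb =>
      h (om_κ hM (mem_Fo.1 (mem_inter.1 hb).1).2 (fo1 y hy b hb))
  have hT : ∀ y ∈ B, ∀ w ∈ B, T f w y → f.c.κ w ≠ f.c.κ y := fun y hy w hw h =>
    (T_hc (hS.sub w hw).1 (hS.sub y hy).1 h).2.2.2
  have hI := I_le hE hS
  have hB := card_filter_add_card_filter_not (s := B) (fun y => f.c.κ y = f.c.κ p)
  refine ⟨fun y hy => ⟨(hS.sub y hy).1, hne y hy⟩, fo0, fo1, fun y hy h => ?_, ?_, ?_,
    g4 hM hE hS fun h => hne p h rfl⟩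
  · have h1 := mu_le' hM hS hy h
    have h2 := T_le hM hS hy
    omega
  · have h1 := half (T f) B (fun y => f.c.κ y = f.c.κ p)
      fun y hy w hw a b h => hT y hy w hw h (b.trans a.symm)
    have h2 : ∑ y ∈ B.filter fun y => f.c.κ y = f.c.κ p, (f.mu y + 2) ≤
        ∑ y ∈ B.filter fun y => f.c.κ y = f.c.κ p,
          ((#(B.filter fun w => T f y w) : ℤ) + #(B.filter fun w => T f w y)) :=
      sum_le_sum fun y hy => mu_le' hM hS (mem_filter.1 hy).1 (mem_filter.1 hy).2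
    rw [sum_add_distrib, sum_const, nsmul_eq_mul] at h2
    zify at h1 hI hB
    simp only [ne_eq]
    linarith
  · have h1 := half (T f) B (fun y => f.c.κ y ≠ f.c.κ p)
      fun y hy w hw a b h => hT y hy w hw h (two _ _ _ b a)
    have h2 : ∑ y ∈ B.filter fun y => f.c.κ y ≠ f.c.κ p,
        ((f.lam y + if Hc f.c.G f.c.κ y p then 0 else 1) + 1) ≤
        ∑ y ∈ B.filter fun y => f.c.κ y ≠ f.c.κ p,
          (((#(B.filter fun w => T f y w) : ℤ) + #(B.filter fun w => T f w y)) +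
          #((univ.filter fun w => f.Rl w ∧ f.tgt w = (some p, 0)).filter fun w => f.i w = y)) := by
      refine sum_le_sum fun y hy => ?_
      have h3 := mu_le hM hS (mem_filter.1 hy).1
      rw [Fr.mu, fo0 y (mem_filter.1 hy).1 (mem_filter.1 hy).2, card_empty] at h3
      rw [Fr.lam]
      split_ifs at h3 ⊢ <;> omega
    have h3 := zc_le hM (p := p) (B.filter fun y => f.c.κ y ≠ f.c.κ p)
    rw [sum_add_distrib (g := fun _ => (1 : ℤ)), sum_add_distrib (g := fun y =>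
      (#((univ.filter fun w => f.Rl w ∧ f.tgt w = (some p, 0)).filter fun w => f.i w = y) : ℤ)),
      sum_const, nsmul_eq_mul] at h2
    zify at h1 hI hB h3
    simp only [ne_eq] at h1 h2 h3 ⊢
    linarith

end

end Pool.Agent.MP_d1f1f3_co.H2
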