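import Pool.Agent.MP_d1f1f3_co.H2.Spec2

/-!
Row GX: the hypotheses of the exchange and the static counts.
-/

namespace Pool.Agent.MP_d1f1f3_co.H2

open Finset Relation H47
open scoped Classical

namespace Gx

variable {V : Type} [Fintype V]

theorem fcs {G : SimpleGraph V} {κ : V → ZMod 2} {u w : V} (h : Fc G κ u w) : Fc G κ w u :=
  ⟨h.1.symm, h.2.2.1, h.2.1, h.2.2.2.symm⟩

theorem z01 : (0 : ZMod 2) ≠ 1 := by decide

theorem coK {G : SimpleGraph V} {v : V} (h : Co G v) : K G v := by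
  unfold Co at h; unfold K; omega

omit [Fintype V] in
theorem three {s : Finset V} {a b c : V} (ha : a ∈ s) (hb : b ∈ s) (hc : c ∈ s) (hab : a ≠ b)
    (hac : a ≠ c) (hbc : b ≠ c) : 3 ≤ #s := by
  have : 2 < #s := two_lt_card.2 ⟨a, ha, b, hb, c, hc, hab, hac, hbc⟩
  omega

theorem card6 (s1 s2 s3 s4 s5 s6 t : Finset V)
    (h1 : ∀ a ∈ s1, a ∈ t ∧ a ∉ s2 ∧ a ∉ s3 ∧ a ∉ s4 ∧ a ∉ s5 ∧ a ∉ s6)
    (h2 : ∀ a ∈ s2, a ∈ t ∧ a ∉ s3 ∧ a ∉ s4 ∧ a ∉ s5 ∧ a ∉ s6)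
    (h3 : ∀ a ∈ s3, a ∈ t ∧ a ∉ s4 ∧ a ∉ s5 ∧ a ∉ s6)
    (h4 : ∀ a ∈ s4, a ∈ t ∧ a ∉ s5 ∧ a ∉ s6)
    (h5 : ∀ a ∈ s5, a ∈ t ∧ a ∉ s6) (h6 : ∀ a ∈ s6, a ∈ t)
    (ht : ∀ a ∈ t, a ∉ s2 → a ∉ s3 → a ∉ s4 → a ∉ s5 → a ∉ s6 → a ∈ s1) :
    #s1 + #s2 + #s3 + #s4 + #s5 + #s6 = #t := by
  have hc : ∀ s : Finset V, #s = ∑ a, if a ∈ s then 1 else 0 := by
    intro s
    rw [← card_filter]
    congr 1
    ext a
    simp
  rw [hc s1, hc s2, hc s3, hc s4, hc s5, hc s6, hc t]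
  simp only [← sum_add_distrib]
  refine sum_congr rfl fun a _ => ?_
  have g1 := h1 a
  have g2 := h2 a
  have g3 := h3 a
  have g4 := h4 a
  have g5 := h5 a
  have g6 := h6 a
  have gt := ht a
  by_cases k1 : a ∈ s1
  · obtain ⟨x, x2, x3, x4, x5, x6⟩ := g1 k1
    simp [k1, x, x2, x3, x4, x5, x6]
  by_cases k2 : a ∈ s2
  · obtain ⟨x, x3, x4, x5, x6⟩ := g2 k2
    simp [k1, k2, x, x3, x4, x5, x6]
  by_cases k3 : a ∈ s3
  · obtain ⟨x, x4, x5, x6⟩ := g3 k3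
    simp [k1, k2, k3, x, x4, x5, x6]
  by_cases k4 : a ∈ s4
  · obtain ⟨x, x5, x6⟩ := g4 k4
    simp [k1, k2, k3, k4, x, x5, x6]
  by_cases k5 : a ∈ s5
  · obtain ⟨x, x6⟩ := g5 k5
    simp [k1, k2, k3, k4, k5, x, x6]
  by_cases k6 : a ∈ s6
  · simp [k1, k2, k3, k4, k5, k6, g6 k6]
  have : a ∉ t := fun x => k1 (gt x k2 k3 k4 k5 k6)
  simp [k1, k2, k3, k4, k5, k6, this]

variable {f : Fr V} {γ : ZMod 2}

theorem mFo {v b : V} : b ∈ f.c.Fo v ↔ f.c.A v b ∧ Fc f.c.G f.c.κ v b := by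
  simp [Cx.Fo]

theorem mFi {v a : V} : a ∈ f.c.Fi v ↔ f.c.A a v ∧ Fc f.c.G f.c.κ v a := by
  simp [Cx.Fi]

theorem mOg {v b : V} : b ∈ f.c.Og f.d v ↔ f.c.A v b ∧ (v, b) ∉ f.d.P ∧ (v, b) ∉ f.d.Fx := by
  simp [Cx.Og, Out]

theorem mIg {v a : V} : a ∈ f.c.Ig f.d v ↔
    (f.c.A a v ∧ f.c.G.Adj v a) ∧ ¬Fc f.c.G f.c.κ v a ∧ (a, v) ∉ f.d.P := by
  simp [Cx.Ig, Cx.Ri]

theorem mM {v a : V} : a ∈ f.M v ↔ f.c.G.Adj v a ∧ f.a v a = f.a v (f.i v) := by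
  simp [Fr.M, Fr.cls, N]

theorem fP (h : f.Mid γ) {u w : V} (hF : Fc f.c.G f.c.κ u w) : (u, w) ∉ f.d.P := fun x =>
  (h.ok.pa _ x).2.1.2.2.2 hF.2.2.2

theorem cX (h : f.Mid γ) {u w : V} (hw : Co f.c.G w) : (u, w) ∉ f.d.Fx := fun x =>
  (h.ok.fa _ x).2.2.2 hw

/-- The main arc going out is unseparated or usable. -/
theorem oC (h : f.Mid γ) {v : V} (hy : f.Y v) : f.o v ∈ f.c.Fo v ∨ f.o v ∈ f.c.Og f.d v := by
  have ho := (h.yc v hy).2.2.2.2
  unfold Cx.OO at ho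
  split_ifs at ho with h1 h2 h3 h4
  · exact Or.inr ho
  · rw [mem_singleton.1 ho]
    exact Or.inl (h.ok.pij h3 v h2).1
  · exact Or.inl ho
  · exact Or.inl ho
  · exact Or.inr ho

theorem oA (h : f.Mid γ) {v : V} (hy : f.Y v) : f.c.A v (f.o v) := by
  rcases oC h hy with x | x
  · exact (mFo.1 x).1
  · exact (mOg.1 x).1

theorem oG (h : f.Mid γ) {v : V} (hy : f.Y v) : f.c.G.Adj v (f.o v) :=
  h.ori.outK _ _ (coK hy.1) (oA h hy)

theorem oP (h : f.Mid γ) {v : V} (hy : f.Y v) : (v, f.o v) ∉ f.d.P ∧ (v, f.o v) ∉ f.d.Fx := by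
  rcases oC h hy with x | x
  · exact ⟨fP h (mFo.1 x).2, cX h (mFo.1 x).2.2.2.1⟩
  · exact (mOg.1 x).2

theorem oF (h : f.Mid γ) {v : V} (hy : f.Y v) (hp : v ∈ f.d.Pi) : Fc f.c.G f.c.κ v (f.o v) := by
  have ho := (h.yc v hy).2.2.2.2
  have hu := (h.ok.pi v hp).2.2.2
  unfold Cx.OO at ho
  rw [if_neg hu, if_pos hp] at ho
  split_ifs at ho with h3
  · rw [mem_singleton.1 ho]
    exact (mFo.1 (h.ok.pij h3 v hp).1).2
  · exact (mFo.1 ho).2

theorem oR (h : f.Mid γ) {v : V} (hy : f.Y v) (hr : f.c.R2 f.d v) : Fc f.c.G f.c.κ v (f.o v) := by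
  have ho := (h.yc v hy).2.2.2.2
  unfold Cx.OO at ho
  rw [if_neg hr.2.2.2.1, if_neg hr.2.2.1, if_pos hr] at ho
  exact (mFo.1 ho).2

theorem iA (h : f.Mid γ) {v : V} (hy : f.Y v) : f.c.A (f.i v) v ∧ f.c.G.Adj v (f.i v) := by
  have hi := (h.yc v hy).2.2.2.1
  unfold Cx.II at hi
  split_ifs at hi with h1 h2 h3
  · rw [mem_singleton.1 hi, h1.2]
    exact ⟨h.ori.root, (h.ok.ub h1.1).1.symm⟩
  · simpa [Cx.Ri] using hi
  · exact ⟨(mFi.1 hi).1, (mFi.1 hi).2.1⟩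
  · exact (mIg.1 hi).1

theorem runY {v : V} (hr : f.Run v) : f.Y v ∧ v ∈ f.d.Pi := by
  rcases hr with x | x
  · exact ⟨x.1, x.2.1⟩
  · exact ⟨x.1.1, x.1.2.1⟩

theorem runF (h : f.Mid γ) {v : V} (hr : f.Run v) : Fc f.c.G f.c.κ v (f.o v) :=
  oF h (runY hr).1 (runY hr).2

theorem rlF (h : f.Mid γ) {v : V} (hr : f.Rl v) : ¬f.FFa v := fun x =>
  fP h (fcs x.2.2) hr.2.2

theorem wRun (h : f.Mid γ) {v : V} (hw : f.FFw v) : ¬f.Run v := by
  rintro (x | x)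
  · exact rlF h x hw.1
  · exact hw.2 x

theorem rvA (h : f.Mid γ) {u w : V} (hr : f.RV u w) : f.c.A u w ∧ f.c.G.Adj u w := by
  rcases hr with x | x | ⟨x, rfl⟩
  · exact ⟨(h.ok.pa _ x).1, (h.ok.pa _ x).2.1.1⟩
  · exact ⟨(h.ok.fa _ x).1, (h.ok.fa _ x).2.1⟩
  · exact ⟨oA h (runY x).1, oG h (runY x).1⟩

theorem rvF (h : f.Mid γ) {u w : V} (hF : Fc f.c.G f.c.κ u w) (hr : f.RV u w) :
    f.Run u ∧ w = f.o u := by
  rcases hr with x | x | x
  · exact absurd x (fP h hF)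
  · exact absurd x (cX h hF.2.2.1)
  · exact x

theorem b3 (h : f.Mid γ) {y : V} (hb : f.Bf y) :
    ¬Fc f.c.G f.c.κ y (f.i y) ∧ (f.i y, y) ∉ f.d.P := by
  obtain ⟨hy, h1, h2, h3, -⟩ := hb
  by_cases hp : y ∈ f.d.Pi
  · exact ⟨fun x => h1 ⟨hy, hp, x⟩, fun x => h2 ⟨hy, hp, x⟩⟩
  · have hi := (h.yc y hy).2.2.2.1
    unfold Cx.II at hi
    rw [if_neg (fun x => h3 ⟨hy, x⟩), if_neg hp] at hi
    exact (mIg.1 hi).2

theorem dzs {u p : V} (hd : f.dz u = some p) : p ∈ f.c.Fo u ∧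
    (df f.c.G f.c.κ p = 1 ∨ f.Rl p ∨ (¬f.d.J ∧ f.d.v₀ = some u)) := by
  unfold Fr.dz at hd
  split_ifs at hd with h1 h2
  · obtain ⟨x, y⟩ := h1.choose_spec
    rw [Option.some.inj hd] at x y
    exact ⟨(mem_filter.1 x).1, Or.inl y⟩
  · obtain ⟨x, y⟩ := h2.choose_spec
    rw [Option.some.inj hd] at x y
    exact ⟨(mem_filter.1 x).1, Or.inr y⟩

theorem ods {y u p : V} (hd : f.od y u = some (some p, 0)) : f.dz u = some p := by
  unfold Fr.od at hd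
  split_ifs at hd with h1 h2
  · exact absurd (congrArg Prod.snd (Option.some.inj hd)) z01.symm
  · cases hz : f.dz u with
    | none => rw [hz] at hd; simp at hd
    | some q =>
      rw [hz] at hd
      simpa using hd

theorem df2 {v a b : V} (ha : Fc f.c.G f.c.κ v a) (hb : Fc f.c.G f.c.κ v b)
    (h1 : df f.c.G f.c.κ v = 1) : a = b := by
  unfold df at h1
  exact card_le_one.1 h1.le a (by simpa using ha) b (by simpa using hb)

theorem mem (h : f.Mid γ) (y : V) (hb : f.Bf y) : f.i y ∈ f.Li y ∧ f.o y ∈ f.Lo y := by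
  have hy := hb.1
  obtain ⟨hF, hP⟩ := b3 h hb
  refine ⟨mem_filter.2 ⟨mM.2 ⟨(iA h hy).2, rfl⟩, ⟨(iA h hy).2.symm, Or.inl ⟨(iA h hy).1, ?_⟩⟩, hF⟩,
    mem_filter.2 ⟨mM.2 ⟨oG h hy, (h.yc y hy).2.1.symm⟩, ⟨oG h hy, Or.inl ⟨oA h hy, ?_⟩⟩, ?_⟩⟩
  · rintro (x | x | ⟨x, e⟩)
    · exact hP x
    · exact cX h hy.1 x
    · have := runF h x
      rw [← e] at this
      exact hF (fcs this)
  · rintro (x | x | ⟨x | x, -⟩)
    · exact (oP h hy).1 x
    · exact (oP h hy).2 x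
    · exact hb.2.2.1 x
    · exact hb.2.1 x.1
  · rintro ⟨x, e⟩
    have := oA h (runY x).1
    rw [← e] at this
    exact h.ori.asym _ _ (oA h hy) this

theorem nf (h : f.Mid γ) (e : V × V) (l : Option V × ZMod 2) (hE : f.E e.1 e.2)
    (ha : f.al e = some l) : f.om e ≠ some l := by
  obtain ⟨a, y⟩ := e
  intro ho
  unfold Fr.al at ha
  unfold Fr.om at ho
  dsimp only at ha ho hE
  by_cases c1 : Co f.c.G a
  swap
  · rw [if_pos c1] at ha
    split_ifs at ha with h1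
    have hy : Co f.c.G y := by
      have := (h.ok.st h1.1).2.2.2.2.2.2.2.2.2.1
      rw [← h1.2.1] at this
      exact this
    rw [if_neg (not_not.2 hy), if_pos (fun x => c1 x.2.1), ← ha] at ho
    simp at ho
  rw [if_neg (not_not.2 c1)] at ha
  by_cases c2 : f.Rl a ∧ y = f.i a
  · rw [if_pos c2] at ha
    obtain ⟨hr, rfl⟩ := c2
    have hH := (h.ok.pa _ hr.2.2).2.1
    rw [if_neg (not_not.2 hH.2.1), if_pos (fun x => hH.2.2.2 x.2.2.2.symm), ← ha] at ho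
    have ho' := Option.some.inj ho
    unfold Fr.tgt at ho'
    split_ifs at ho' with h1
    · have e1 : f.i a = f.o (f.o a) := by simpa using ho'
      have k1 := (runF h (Or.inl hr)).2.2.2
      have k2 := (runF h (Or.inr h1.1)).2.2.2
      exact hH.2.2.2 (by dsimp only; rw [e1, ← k2, ← k1])
    · exact absurd (congrArg Prod.snd ho') z01
  rw [if_neg c2] at ha
  split_ifs at ha with c3
  rw [← Option.some.inj ha] at ho
  have c4 : ¬(f.Run y ∧ a = f.o y) := fun x => c3 (Or.inl x)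
  by_cases d1 : Co f.c.G y
  swap
  · rw [if_pos d1] at ho
    split_ifs at ho
    simp at ho
  rw [if_neg (not_not.2 d1)] at ho
  by_cases d2 : Fc f.c.G f.c.κ a y
  swap
  · rw [if_pos d2] at ho
    have : y = a := by simpa using ho
    exact hE.1.ne this.symm
  rw [if_neg (not_not.2 d2), if_neg c4] at ho
  by_cases d3 : f.FFw y ∧ a = f.i y
  · rw [if_pos d3] at ho
    obtain ⟨hw, rfl⟩ := d3
    have hy := hw.1.1
    have hio : f.i y ≠ f.o y := fun x => h.ori.asym _ _ (oA h hy) (x ▸ (iA h hy).1)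
    split_ifs at ho with d4
    · obtain ⟨x, z⟩ := dzs (ods ho)
      have hu : y ≠ f.o (f.o y) := fun e => h.ori.asym _ _ (oA h hy) (by
        have := oA h d4.1.1.1
        rwa [← e] at this)
      rcases z with z | z | z
      · exact hu (df2 d2 (fcs (mFo.1 x).2) z)
      · have := three z.2.1 hw.1.2.1 d4.1.1.2.1 (iA h hy).2.ne.symm hio (oG h hy).ne
        have := h.ok.pi2
        omega
      · have e1 := (h.ok.nj z.1).2.1 _ hw.1.2.1
        have e2 := (h.ok.nj z.1).2.1 _ d4.1.1.2.1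
        rw [e1] at e2
        exact (oG h hy).ne (Option.some.inj e2)
    · exact hio (by simpa using ho.symm)
  rw [if_neg d3] at ho
  obtain ⟨x, -⟩ := dzs (ods ho)
  rcases hE.2 with z | z
  · exact h.ori.asym _ _ z.1 (mFo.1 x).1
  · exact c4 (rvF h (fcs d2) z)

theorem exh (h : f.Mid γ) : Exh f.E f.Bf f.Li f.Lo f.al f.om f.loc f.i f.o where
  mem := mem h
  inn := by
    intro y hb a ha
    obtain ⟨-, x, z⟩ := mem_filter.1 ha
    refine ⟨x, ?_⟩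
    unfold Fr.om Fr.loc
    rw [if_neg (not_not.2 hb.1.1), if_pos (fun k => z (fcs k))]
  out := by
    intro y hb b hl
    obtain ⟨-, x, z⟩ := mem_filter.1 hl
    refine ⟨x, ?_⟩
    unfold Fr.al Fr.loc
    rw [if_neg (not_not.2 hb.1.1), if_neg (fun k => hb.2.2.1 k.1), if_neg]
    rintro (k | ⟨k | k | k, -⟩)
    · exact z k
    · exact hb.2.1 k.1
    · exact hb.2.2.2.1 k
    · exact hb.2.2.2.2 k
  acyc := fun e k => h.acyc e (TransGen.mono (r := Nxt f.Bf f.i f.o) (p := Nxt f.Y f.i f.o)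
    (fun _ _ x => ⟨x.1.1, x.2⟩) e e k)
  nf := nf h

theorem dfe (h : f.Mid γ) (v : V) : df f.c.G f.c.κ v = #(f.c.Fo v) + #(f.c.Fi v) := by
  rw [← card_union_of_disjoint]
  · unfold df
    congr 1
    ext a
    simp only [mem_filter, mem_univ, true_and, mem_union, mFo, mFi]
    constructor
    · intro x
      rcases h.ori.real _ _ x.1 with k | k
      · exact Or.inl ⟨k, x⟩
      · exact Or.inr ⟨k, x⟩
    · rintro (x | x)
      · exact x.2
      · exact x.2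
  · exact disjoint_left.2 fun a x z => h.ori.asym _ _ (mFo.1 x).1 (mFi.1 z).1

theorem rb (v : V) : (f.R v : ℤ) ≤ f.c.Rb f.d v := by
  unfold Fr.R Cx.Rb
  by_cases c : ¬f.d.J ∨ f.c.κ v = 1 ∨ f.d.t v ≤ 0
  · rw [if_pos c, if_pos (Or.inr c)]
    simp
  · rw [if_neg c]
    have ht : 0 < f.d.t v := by
      by_contra k
      exact c (Or.inr (Or.inr (by omega)))
    split_ifs <;> omega

theorem op (u : V) : #(f.Op u) + (if f.FFr u then 1 else 0) ≤ #(f.Gs u) := by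
  have hs : f.Op u ⊆ f.Gs u := by
    intro x hx
    obtain ⟨-, x1, x2⟩ := mem_filter.1 hx
    refine mem_filter.2 ⟨mem_univ _, Or.inl x1, ?_⟩
    unfold Fr.tgt at x2
    split_ifs at x2
    · exact absurd (congrArg Prod.snd x2) z01
    · simpa using x2
  split_ifs with c
  · refine card_lt_card ((ssubset_iff_of_subset hs).2 ⟨f.i u,
      mem_filter.2 ⟨mem_univ _, Or.inl c.2.1, c.2.2⟩, fun k => ?_⟩)
    obtain ⟨-, -, x2⟩ := mem_filter.1 k
    unfold Fr.tgt at x2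
    rw [if_pos (by rw [c.2.2]; exact ⟨c, rfl⟩)] at x2
    exact absurd (congrArg Prod.snd x2) z01
  · simpa using card_le_card hs

theorem outE (h : f.Mid γ) {v : V} (hv : Co f.c.G v) :
    #(Out f.c.A v) + f.c.pin f.d v + #(f.Gs v) ≤
      #(Out f.E v) + f.c.pout f.d v + f.c.fx f.d v + if f.Run v then 1 else 0 := by
  set S1 : Finset V := univ.filter fun b => f.c.A v b ∧ ¬f.RV v b with hS1
  set S2 : Finset V := (f.d.P.filter fun e => e.2 = v).image Prod.fst with hS2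
  have m2 : ∀ a, a ∈ S2 → (a, v) ∈ f.d.P := by
    intro a ha
    obtain ⟨e, he, rfl⟩ := mem_image.1 ha
    obtain ⟨x, rfl⟩ := mem_filter.1 he
    exact x
  have m3 : ∀ a, a ∈ f.Gs v → f.Run a ∧ v = f.o a := fun a ha =>
    ⟨(mem_filter.1 ha).2.1, (mem_filter.1 ha).2.2.symm⟩
  have c2 : #S2 = f.c.pin f.d v := by
    refine card_image_of_injOn fun e he e' he' k => Prod.ext k ?_
    rw [(mem_filter.1 he).2, (mem_filter.1 he').2]
  have d23 : Disjoint S2 (f.Gs v) := disjoint_left.2 fun a x z => by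
    have := runF h (m3 a z).1
    rw [← (m3 a z).2] at this
    exact fP h this (m2 a x)
  have r23 : ∀ a ∈ S2 ∪ f.Gs v, f.RV a v := by
    intro a ha
    rcases mem_union.1 ha with x | x
    · exact Or.inl (m2 a x)
    · exact Or.inr (Or.inr (m3 a x))
  have d1 : Disjoint S1 (S2 ∪ f.Gs v) := disjoint_left.2 fun a x z =>
    h.ori.asym _ _ (mem_filter.1 x).2.1 (rvA h (r23 a z)).1
  have sub : S1 ∪ (S2 ∪ f.Gs v) ⊆ Out f.E v := by
    intro a ha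
    refine mem_filter.2 ⟨mem_univ _, ?_⟩
    rcases mem_union.1 ha with x | x
    · exact ⟨h.ori.outK _ _ (coK hv) (mem_filter.1 x).2.1, Or.inl (mem_filter.1 x).2⟩
    · exact ⟨(rvA h (r23 a x)).2.symm, Or.inr (r23 a x)⟩
  have k1 := card_le_card sub
  rw [card_union_of_disjoint d1, card_union_of_disjoint d23, c2] at k1
  have sub2 : Out f.c.A v ⊆ S1 ∪ ((f.d.P.filter fun e => e.1 = v).image Prod.snd ∪
      ((f.d.Fx.filter fun e => e.1 = v).image Prod.snd ∪ if f.Run v then {f.o v} else ∅)) := by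
    intro b hb
    by_cases c : f.RV v b
    · refine mem_union_right _ ?_
      rcases c with x | x | ⟨x, rfl⟩
      · exact mem_union_left _ (mem_image.2 ⟨(v, b), mem_filter.2 ⟨x, rfl⟩, rfl⟩)
      · exact mem_union_right _
          (mem_union_left _ (mem_image.2 ⟨(v, b), mem_filter.2 ⟨x, rfl⟩, rfl⟩))
      · exact mem_union_right _ (mem_union_right _ (by rw [if_pos x]; exact mem_singleton_self _))
    · exact mem_union_left _ (mem_filter.2 ⟨mem_univ _, (mem_filter.1 hb).2, c⟩)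
  have k2 := (card_le_card sub2).trans ((card_union_le _ _).trans (Nat.add_le_add_left
    ((card_union_le _ _).trans (Nat.add_le_add card_image_le ((card_union_le _ _).trans
      (Nat.add_le_add_right card_image_le _)))) _))
  have k3 : #(if f.Run v then ({f.o v} : Finset V) else ∅) = if f.Run v then 1 else 0 := by
    split_ifs <;> simp
  rw [k3] at k2
  unfold Cx.pout Cx.fx
  omega

theorem out (h : f.Mid γ) (v : V) (hv : Co f.c.G v) :
    (df f.c.G f.c.κ v : ℤ) + f.c.y1 f.d v + #(f.Gs v) +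
    (if f.c.Yc v ∧ ¬f.Y v then 1 else 0) ≤ f.base v + f.R v + if f.Run v then 1 else 0 := by
  have k1 := outE h hv
  have k2 := (h.ori.smooth v (coK hv)).1
  have k3 : tau f.c.G f.c.κ v + (if f.c.Yc v then 1 else 0) ≤ #(Out f.c.A v) := by
    unfold tau
    by_cases c : f.c.Yc v
    · rw [if_pos c]
      rcases c with c | c
      · rw [if_pos c.2]
        omega
      · obtain ⟨-, ⟨m, hm⟩, c3⟩ := c
        split_ifs <;> omega
    · rw [if_neg c]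
      split_ifs <;> omega
  unfold Cx.y1 Fr.base
  by_cases c : f.Y v
  · rw [if_pos (h.yc v c).1] at k3
    rw [if_neg (fun x => x.2 c), if_pos c]
    split_ifs at k1 ⊢ <;> omega
  · rw [if_neg c]
    simp only [c, not_false_eq_true, and_true]
    split_ifs at k1 k3 ⊢ <;> omega

theorem ends (h : f.Mid γ) (w : V) :
    #(f.Fod w) + #(univ.filter fun y => f.NR y ∧ f.o y = w) + #(f.E3 w) +
    #(univ.filter fun y => f.UB y ∧ f.o y = w ∧ Fc f.c.G f.c.κ w y ∧ ¬f.Mg y w) + #(f.Gs w) +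
    (if f.FFw w then 1 else 0) = #(f.c.Fi w) := by
  have k6 : (if f.FFw w then 1 else 0) = #(univ.filter fun a => f.FFw w ∧ a = f.i w) := by
    split_ifs with c
    · rw [eq_comm, card_eq_one]
      exact ⟨f.i w, by ext a; simp [c]⟩
    · simp [c]
  rw [k6]
  have up : ∀ y, f.UB y → y ∉ f.d.Pi := fun y x k => (h.ok.pi y k).2.2.2 x.2
  refine card6 _ _ _ _ _ _ _ ?_ ?_ ?_ ?_ ?_ ?_ ?_
  all_goals simp only [Fr.Fod, Fr.E3, Fr.Gs, mem_filter, mem_univ, true_and, mFi]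
  · rintro a ⟨hE, hF, h1, h2, h3, h4⟩
    have hA : f.c.A a w ∧ ¬f.RV a w := by
      rcases hE.2 with x | x
      · exact x
      · exact absurd (Or.inr (rvF h hF x)) h1
    exact ⟨⟨hA.1, hF⟩, fun x => h4 x.1, h2, fun x => h3 ⟨x.1, x.2.1⟩,
      fun x => hA.2 (Or.inr (Or.inr ⟨x.1, x.2.symm⟩)), fun x => h1 (Or.inl x)⟩
  · rintro a ⟨hN, rfl⟩
    have hp := hN.2.1.2.2.1
    exact ⟨⟨oA h hN.1, fcs (oR h hN.1 hN.2.1)⟩, fun x => hp x.1.1.2.1,
      fun x => hN.2.1.2.2.2.1 x.1.2, fun x => hp (runY x.1).2,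
      fun x => hN.2.2 ⟨x.1.1, x.2.symm⟩⟩
  · rintro a ⟨hw, rfl, -, h2⟩
    exact ⟨⟨oA h hw.1.1, fcs (oF h hw.1.1 hw.1.2.1)⟩, fun x => up a x.1 hw.1.2.1,
      fun x => wRun h hw x.1, h2⟩
  · rintro a ⟨hu, rfl, hF, h2⟩
    exact ⟨⟨oA h hu.1, hF⟩, fun x => up a hu (runY x.1).2, fun x => h2 (Or.inl x)⟩
  · rintro a ⟨hr, rfl⟩
    refine ⟨⟨oA h (runY hr).1, fcs (runF h hr)⟩, ?_⟩
    rintro ⟨hw, e⟩
    rcases hr with x | x
    · exact hw.2 ⟨hw.1, e ▸ x, by rw [← e]⟩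
    · have hy := x.1.1
      have hio : f.i a ≠ f.o a := fun k => h.ori.asym _ _ (oA h hy) (k ▸ (iA h hy).1)
      have := three x.2.1.2.1 x.1.2.1 hw.1.2.1 (iA h hy).2.ne.symm hio (oG h hy).ne
      have := h.ok.pi2
      omega
  · rintro a ⟨hw, rfl⟩
    exact ⟨(iA h hw.1.1).1, hw.1.2.2⟩
  · rintro a ⟨hA, hF⟩ h2 h3 h4 h5 h6
    have hM : ¬f.Mg a w := by
      rintro (x | ⟨x, rfl⟩)
      · exact h6 x
      · exact h.ori.asym _ _ hA (oA h (runY x).1)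
    refine ⟨⟨hF.1.symm, Or.inl ⟨hA, fun x => ?_⟩⟩, hF, hM, h3, fun x => h4 ⟨x.1, x.2, hF, hM⟩,
      fun x => h2 ⟨x, df2 (oR h x.1 x.2.1) (fcs hF) x.2.1.2.1⟩⟩
    obtain ⟨x1, x2⟩ := rvF h (fcs hF) x
    exact h5 ⟨x1, x2.symm⟩

end Gx

/-- Row GX. -/
theorem gx : SGx := fun _ _ _ _ h =>
  ⟨Gx.exh h, ⟨Gx.out h, fun w _ => Gx.ends h w, Gx.op, Gx.rb, fun v _ => Gx.dfe h v⟩⟩

end Pool.Agent.MP_d1f1f3_co.H2
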