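import Pool.Agent.MP_d1f1f3_co.H2.Spec4

/-!
Row HS: a trail exists, or all pairs of vertices in debt have the same common donors.
-/

namespace Pool.Agent.MP_d1f1f3_co.H2

open Finset Relation H47
open scoped Classical

namespace Hs

variable {V : Type} [Fintype V]

theorem hc_symm {G : SimpleGraph V} {κ : V → ZMod 2} {u v : V} (h : Hc G κ u v) : Hc G κ v u :=
  ⟨h.1.symm, h.2.2.1, h.2.1, h.2.2.2.symm⟩

theorem mem_cm {G : SimpleGraph V} {κ : V → ZMod 2} {u v g : V} :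
    g ∈ Cm G κ u v ↔ Hc G κ g u ∧ Hc G κ g v := by simp [Cm]

theorem cm_comm (G : SimpleGraph V) (κ : V → ZMod 2) (u v : V) : Cm G κ u v = Cm G κ v u := by
  ext g
  rw [mem_cm, mem_cm, and_comm]

theorem cm_le (G : SimpleGraph V) (κ : V → ZMod 2) (u v : V) : #(Cm G κ u v) ≤ dh G κ u :=
  card_le_card fun _ hg => mem_filter.2 ⟨mem_univ _, hc_symm (mem_cm.1 hg).1⟩

theorem outside {G : SimpleGraph V} {κ : V → ZMod 2} {u : V} {D : Finset V}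
    (h : #D < dh G κ u) : ∃ g, Hc G κ g u ∧ g ∉ D := by
  obtain ⟨g, h1, h2⟩ := exists_mem_notMem_of_card_lt_card h
  exact ⟨g, hc_symm (mem_filter.1 h1).2, h2⟩

variable {s : Sg V} {j : ZMod 2} {κ : V → ZMod 2}

theorem low (hb : s.Bas j κ) (hs : s.St j κ) (hm : s.Mn j #(s.Q κ)) (hρ : s.ρ ∉ s.Q κ)
    (hr : ¬s.Br κ) {x y : V} (hx : x ∈ s.Q κ) (hy : y ∈ s.Q κ) (hxy : x ≠ y) :
    #(s.Q κ) ≤ #((Cm s.G κ x y).filter fun g => s.t κ g = 1) + 2 := by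
  have h1 : x ≠ s.ρ := fun e => hρ (e ▸ hx)
  have h2 : y ≠ s.ρ := fun e => hρ (e ▸ hy)
  obtain ⟨a1, a2⟩ := hb.pf x hx y hy hxy h1 h2
  rcases hm _ a1 with a3 | ⟨⟨-, b1, b2, b3⟩, a3⟩
  · rw [a2] at a3
    exact a3.trans ((card_insert_le _ _).trans (Nat.succ_le_succ (card_insert_le _ _)))
  · rw [a2, mem_insert, mem_insert, mem_filter] at a3
    obtain ⟨a4, a5⟩ := (a3.resolve_left h1.symm).resolve_left h2.symm
    have hk : κ s.ρ = 0 := hs.2.2.trans b2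
    have hw : ¬Wv s.G κ s.ρ := fun e => e.2.2 (by rw [b1, hk]; decide)
    have hu : ¬s.Ur κ s.ρ := fun e => b3 (e.2.2.symm.trans hk)
    rw [Sg.t, tau, if_neg hw, if_neg hu, b1] at a5
    exact absurd ⟨⟨b1, hk, by omega⟩, x, hx, y, hy, hxy, a4⟩ hr

theorem nbi (hn : s.NBa κ) (hr : ¬s.Br κ) {x y g : V} (hx : x ∈ s.Q κ) (hy : y ∈ s.Q κ)
    (hxy : x ≠ y) (hg : g ∈ Cm s.G κ x y) (S : Set V) : s.Nbi κ S g := fun a b c => by
  by_cases h : g = s.ρ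
  · subst h
    exact absurd ⟨⟨a, b, c⟩, x, hx, y, hy, hxy, hg⟩ hr
  · exact absurd ⟨a, b, c⟩ (hn x hx y hy hxy g hg h)

theorem trl (hn : s.NBa κ) (hr : ¬s.Br κ) {m : ℕ} {x u : ℕ → V}
    (h1 : ∀ i, 1 ≤ i → i ≤ m → x i ∈ s.Q κ)
    (h2 : ∀ i k, 1 ≤ i → i ≤ m → 1 ≤ k → k ≤ m → x i = x k → i = k)
    (h3 : ∀ i k, 1 ≤ i → i < m → 1 ≤ k → k < m → u i = u k → i = k)
    (h4 : ∀ i, 1 ≤ i → i < m → x i ≠ x (i + 1) → u i ∈ Cm s.G κ (x i) (x (i + 1))) :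
    s.Trl κ m x u := by
  have h5 : ∀ i, 1 ≤ i → i < m → x i ≠ x (i + 1) := fun i a b e => by
    have := h2 i (i + 1) a b.le (by omega) b e
    omega
  exact ⟨h1, h2, h3, fun i a b => mem_cm.1 (h4 i a b (h5 i a b)), fun i a b =>
    nbi hn hr (h1 i a b.le) (h1 (i + 1) (by omega) b) (h5 i a b) (h4 i a b (h5 i a b)) _⟩

end Hs

open Hs in
theorem hs : SHs := by
  rintro ⟨⟨-, hB⟩, -, hS, hE⟩ V _ s j κ ho hs h3 hm hρ hn hr
  have hb := hB V s j κ ho hs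
  rcases hS V (s.Q κ) (Cm s.G κ) h3 (cm_comm s.G κ) (fun x hx y hy hxy =>
      (low hb hs hm hρ hr hx hy hxy).trans (Nat.add_le_add_right (card_filter_le _ _) 2)) with
    ⟨x, u, a1, a2, a3, a4, -⟩ | ⟨D, hD, hc⟩
  · exact Or.inl ⟨κ, hs, h3, Or.inl ⟨hρ, x, u, trl hn hr a1 a2 a3 fun i a b _ => a4 i a b⟩⟩
  by_cases hT : s.Trs j
  · exact Or.inl hT
  refine Or.inr ⟨D, ⟨hs, h3, hρ, hD, hc, fun g hg => ?_⟩, fun a ha b hb' hab hd => ?_⟩
  · obtain ⟨x, hx, y, hy, hxy⟩ := one_lt_card.1 (show 1 < #(s.Q κ) by omega)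
    have h1 := low hb hs hm hρ hr hx hy hxy
    rw [hc x hx y hy hxy] at h1
    exact filter_card_eq (p := fun g => s.t κ g = 1)
      (le_antisymm (card_filter_le _ _) (by omega)) g hg
  obtain ⟨w, hw, hw'⟩ := exists_mem_notMem_of_card_lt_card
    (show #({a, b} : Finset V) < #(s.Q κ) by rw [card_pair hab]; omega)
  rw [mem_insert, mem_singleton, not_or] at hw'
  have hq : #((s.Q κ).erase w) = #D + 1 := by rw [card_erase_of_mem hw]; omega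
  obtain ⟨g, hg, hgD⟩ := outside hd
  obtain ⟨x, u, a1, a2, a3, a4, a5, a6, a7, -⟩ := hE V ((s.Q κ).erase w) (fun _ _ => D) a b g
    (mem_erase.2 ⟨Ne.symm hw'.1, ha⟩) (mem_erase.2 ⟨Ne.symm hw'.2, hb'⟩) hab fun _ _ _ _ _ => hq.le
  rw [hq] at a2 a3 a4 a5 a6
  replace a3 : ∀ i, 1 ≤ i → i ≤ #D + 1 → x i ∈ s.Q κ := fun i p q => mem_of_mem_erase (a3 i p q)
  have a8 : ∀ i, 1 ≤ i → i < #D + 1 → x i ≠ x (i + 1) → u i ∈ Cm s.G κ (x i) (x (i + 1)) :=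
    fun i p q r => by
      rw [hc _ (a3 i p q.le) _ (a3 (i + 1) (by omega) q) r]
      exact a6 i p q
  have a9 : ∀ {g'}, g' ∉ D → ∀ i, 1 ≤ i → i < #D + 1 → g' ≠ u i := fun h i p q e =>
    h (e ▸ a6 i p q)
  refine ⟨?_, by_contra fun he => hT ⟨κ, hs, h3, Or.inr (Or.inr ⟨#D + 1, x, u, hD,
    trl hn hr a3 a4 a5 a8, by rwa [a7, a1], by rw [a7]; exact a9 hgD, by rwa [a1],
    by rw [a2]; exact Nat.not_even_iff_odd.1 he, by rw [a2]; exact fun e => hρ (e ▸ hb')⟩)⟩⟩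
  have h1 := cm_le s.G κ b a
  rw [hc b hb' a ha hab.symm] at h1
  refine le_antisymm (not_lt.1 fun hd' => hT ?_) h1
  obtain ⟨g', hg', hgD'⟩ := outside hd'
  have e1 : ∀ i, i < #D + 1 → Function.update u (#D + 1) g' i = u i := fun i p =>
    Function.update_of_ne p.ne _ _
  have e0 : Function.update u (#D + 1) g' 0 = g := (e1 0 (by omega)).trans a7
  refine ⟨κ, hs, h3, Or.inr (Or.inl ⟨#D + 1, x, Function.update u (#D + 1) g', hD,
    trl hn hr a3 a4 (fun i k p q p' q' => ?_) fun i p q r => ?_, fun i p q e => hρ (e ▸ a3 i p q),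
    by rwa [e0, a1], by rwa [Function.update_self, a2], fun i p q => ?_, by rwa [a1],
    by rwa [a2], fun e => ?_⟩)⟩
  · rw [e1 i q, e1 k q']
    exact a5 i k p q p' q'
  · rw [e1 i q]
    exact a8 i p q r
  · rw [e0, Function.update_self, e1 i q]
    exact ⟨a9 hgD i p q, a9 hgD' i p q⟩
  · rw [e0, Function.update_self] at e
    refine absurd ?_ hgD
    rw [← hc a ha b hb' hab]
    exact mem_cm.2 ⟨hg, e ▸ hg'⟩

end Pool.Agent.MP_d1f1f3_co.H2
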