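import Pool.Agent.MP_d1f1f3_co.H2.Spec3

/-! Row JBIG: two vertices in debt, both of degree four, the root without separated edges. -/

namespace Pool.Agent.MP_d1f1f3_co.H2

open Finset Relation H47
open scoped Classical

namespace Jbig

variable {V : Type} [Fintype V] {s : Sg V} {κ : V → ZMod 2} {D : V → V → Prop} {x u v w : V}

theorem z01 (a : ZMod 2) : a = 0 ∨ a = 1 := by revert a; decide

theorem fsym (h : Fc s.G κ u w) : Fc s.G κ w u := ⟨h.1.symm, h.2.2.1, h.2.1, h.2.2.2.symm⟩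

theorem hsym (h : Hc s.G κ u w) : Hc s.G κ w u := ⟨h.1.symm, h.2.2.1, h.2.1, h.2.2.2.symm⟩

theorem memQ : v ∈ s.Q κ ↔ Co s.G v ∧ s.t κ v < 0 := by simp [Sg.Q]

theorem memFo : w ∈ (s.cx κ D).Fo v ↔ D v w ∧ Fc s.G κ v w := by simp [Cx.Fo, Sg.cx]

theorem t_ge (h : s.TH κ) (hv : Co s.G v) : -1 ≤ s.t κ v := by
  have h1 := h {v} (by simpa using hv)
  have h2 : ¬Fc s.G κ v v := fun a => a.1.ne rfl
  have h3 : ¬Hc s.G κ v v := fun a => a.1.ne rfl
  simp [Sg.Dl, H2.Dl, filter_singleton, h2, h3] at h1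
  omega

theorem pair (h : s.TH κ) (hu : u ∈ s.Q κ) (hv : v ∈ s.Q κ) (hne : u ≠ v) : Fc s.G κ u v := by
  by_contra hn
  have hn' : ¬Fc s.G κ v u := fun a => hn (fsym a)
  rw [memQ] at hu hv
  have h1 := h {u, v} (by simpa using ⟨hu.1, hv.1⟩)
  have h2 : ∀ a, ¬Fc s.G κ a a := fun _ a => a.1.ne rfl
  simp only [Sg.Dl, H2.Dl, sum_pair hne, filter_insert, filter_singleton, h2, hn, hn',
    if_false] at h1
  simp at h1
  omega

theorem negQ (h : (s.cx κ D).Neg v) : v ∈ s.Q κ := by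
  rw [memQ]
  refine ⟨h.1, ?_⟩
  have h1 : tau s.G κ v < df s.G κ v := h.2
  unfold Sg.t
  split_ifs <;> omega

theorem dg_le (hs : s.Ok) (hz : N s.G s.z = {s.ρ}) (κ : V → ZMod 2) (hv : Co s.G v) :
    dg s.G v ≤ df s.G κ v + dh s.G κ v + if v = s.ρ then 1 else 0 := by
  have h1 : N s.G v ⊆ ((univ.filter fun w => Fc s.G κ v w) ∪ (univ.filter fun w => Hc s.G κ v w))
      ∪ if v = s.ρ then {s.z} else ∅ := by
    intro w hw
    have ha : s.G.Adj v w := by simpa [N] using hw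
    have hp : 0 < dg s.G w := card_pos.2 ⟨v, by simpa [N] using ha.symm⟩
    simp only [mem_union, mem_filter, mem_univ, true_and]
    rcases hs.deg w with h | h
    · have e : w = s.z := hs.leaf w (by omega)
      have e2 : v ∈ N s.G s.z := by simpa [N, ← e] using ha.symm
      rw [hz, mem_singleton] at e2
      right
      simp [e, e2]
    · left
      by_cases e : κ v = κ w
      · exact Or.inl ⟨ha, hv, h, e⟩
      · exact Or.inr ⟨ha, hv, h, e⟩
  refine (card_le_card h1).trans ((card_union_le _ _).trans (add_le_add (card_union_le _ _) ?_))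
  split_ifs <;> simp

theorem wv4 (hd : dg s.G v = 4) : Wv s.G κ v ↔ κ v = 1 := by
  unfold Wv K
  rw [hd]
  have e : ((4 / 2 : ℕ) : ZMod 2) = 0 := by decide
  rw [e]
  rcases z01 (κ v) with h | h <;> simp [h]
  decide

/-- The facts about the two vertices in debt. -/
structure Fa (s : Sg V) (κ : V → ZMod 2) (x : V) : Prop where
  ok : s.Ok
  pr : s.PR κ
  th : s.TH κ
  hQ : s.Q κ = {x, s.ρ}
  ne : x ≠ s.ρ
  dx : dg s.G x = 4
  kx : κ x = 0
  dr : dg s.G s.ρ = 4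
  kr : κ s.ρ = 0
  nz : N s.G s.z = {s.ρ}
  adj : Fc s.G κ s.ρ x
  fx : df s.G κ x = 3
  fr : df s.G κ s.ρ = 3
  t0 : ∀ v, Co s.G v → s.t κ v = 0 → Fc s.G κ x v

theorem fa {j : ZMod 2} (hs : s.Ok) (hj : s.St j κ) (hQ : s.Q κ = {x, s.ρ}) (hne : x ≠ s.ρ)
    (dx : dg s.G x = 4) (kx : κ x = 0) (dr : dg s.G s.ρ = 4) (hh : dh s.G κ s.ρ = 0)
    (t0 : ∀ v, Co s.G v → s.t κ v = 0 → Fc s.G κ x v) : Fa s κ x := by
  have hx : x ∈ s.Q κ := by simp [hQ]
  have hr : s.ρ ∈ s.Q κ := by simp [hQ]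
  have adj := pair hj.2.1 hr hx hne.symm
  have kr : κ s.ρ = 0 := adj.2.2.2.trans kx
  have nz : N s.G s.z = {s.ρ} := by
    rcases hs.root with h | h
    · exact h.1
    · have := hs.iso
      rw [← h.2.1] at this
      omega
  rw [memQ] at hx hr
  have t1 := t_ge hj.2.1 hx.1
  have t2 := t_ge hj.2.1 hr.1
  have w1 : ¬Wv s.G κ x := by rw [wv4 dx, kx]; decide
  have w2 : ¬Wv s.G κ s.ρ := by rw [wv4 dr, kr]; decide
  have u1 : ¬s.Ur κ x := fun a => hne a.1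
  have d2 := dg_le hs nz κ hr.1
  refine ⟨hs, hj.1, hj.2.1, hQ, hne, dx, kx, dr, kr, nz, adj, ?_, ?_, t0⟩
  · have := hx.2
    simp only [Sg.t, tau, if_neg w1, if_neg u1, dx] at this t1
    omega
  · have := hr.2
    simp only [Sg.t, tau, if_neg w2, dr] at this t2
    rw [if_pos rfl] at d2
    split_ifs at this t2 <;> omega

namespace Fa

variable (h : Fa s κ x)
include h

theorem re : s.Re := by
  have : s.ρ ∈ N s.G s.z := by simp [h.nz]
  simpa [N, Sg.Re] using this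

theorem nyc (hv : v ∈ s.Q κ) : ¬(s.cx κ D).Yc v := by
  have e : dg s.G v = 4 ∧ κ v = 0 := by
    rw [h.hQ, mem_insert, mem_singleton] at hv
    rcases hv with rfl | rfl
    exacts [⟨h.dx, h.kx⟩, ⟨h.dr, h.kr⟩]
  rintro (a | a)
  · have a2 : Wv s.G κ v := a.2
    rw [wv4 e.1, e.2] at a2
    exact absurd a2 (by decide)
  · have a2 : Odd (dg s.G v) := a.2.1
    rw [e.1] at a2
    exact absurd a2 (by decide)

theorem t_one (hv : Co s.G v) (hk : κ v = 1) : 1 ≤ s.t κ v := by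
  have h1 : v ∉ s.Q κ := by
    rw [h.hQ, mem_insert, mem_singleton]
    rintro (rfl | rfl)
    · exact absurd (h.kx.symm.trans hk) (by decide)
    · exact absurd (h.kr.symm.trans hk) (by decide)
  have h2 : s.t κ v ≠ 0 := fun e =>
    absurd (h.kx.symm.trans ((h.t0 v hv e).2.2.2.trans hk)) (by decide)
  rw [memQ] at h1
  have : ¬s.t κ v < 0 := fun a => h1 ⟨hv, a⟩
  omega

theorem noE (p w : V) : ¬s.Ec κ p w := by
  rintro ⟨-, -, -, -, -, B, hB, hy, -⟩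
  obtain ⟨y, hyB⟩ : B.Nonempty := card_pos.1 (by omega)
  obtain ⟨a1, a2, a3, -⟩ := hy y hyB
  have h1 := h.t_one (v := y) (by unfold Co; omega) a2
  simp only [Sg.t, tau, if_pos ((wv4 a1).2 a2), a1, a3] at h1
  split_ifs at h1 <;> omega

/-- The root vertex under a plan with the triple `(ρ, z, x)`. -/
theorem root {pl : Pl V} (ho : s.Ob D) (hd : pl.Od s.G κ D) (ht : (s.ρ, s.z, x) ∈ pl.Tr)
    (hu : ∀ w, pl.Us s.ρ w → w = s.z ∨ w = x) :
    D s.ρ x ∧ 2 ≤ #((s.cx κ D).Fo s.ρ) := by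
  have h1 : D s.ρ x := by
    by_contra a
    exact (ho.ori1 h.re).noin _ ((hd.tr _ _ _ ht).2 a)
  refine ⟨h1, ?_⟩
  have hz : ¬Fc s.G κ s.ρ s.z := fun a => by
    have a2 : 3 ≤ dg s.G s.z := a.2.2.1
    simp [dg, h.nz] at a2
  have h2 : (univ.filter fun w => Fc s.G κ s.ρ w).erase x ⊆ pl.Fr s.G κ s.ρ := by
    intro w hw
    simp only [mem_erase, mem_filter, mem_univ, true_and] at hw
    simp only [Pl.Fr, N, mem_filter, mem_univ, true_and]
    refine ⟨hw.2.1, hw.2, fun a => ?_⟩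
    rcases hu w a with rfl | e
    exacts [hz hw.2, hw.1 e]
  have h3 := card_le_card h2
  have h4 : #(univ.filter fun w => Fc s.G κ s.ρ w) = 3 := h.fr
  rw [card_erase_of_mem (by simpa using h.adj), h4] at h3
  have h5 := hd.fo _ h.adj.2.1
  obtain ⟨w, hw⟩ : ((pl.Fr s.G κ s.ρ).filter fun w => D s.ρ w).Nonempty := card_pos.1 (by omega)
  simp only [Pl.Fr, mem_filter] at hw
  have hne : x ≠ w := fun e => hw.1.2.2 (Or.inl ⟨s.z, Or.inr (e ▸ ht)⟩)
  rw [← card_pair hne]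
  refine card_le_card fun a ha => ?_
  rw [mem_insert, mem_singleton] at ha
  rcases ha with rfl | rfl
  exacts [memFo.2 ⟨h1, h.adj⟩, memFo.2 ⟨hw.2, hw.1.2.1⟩]

/-- The certificate. -/
theorem fin (hC : SCj) (ho : s.Ob D) (hr : D s.ρ x ∧ 2 ≤ #((s.cx κ D).Fo s.ρ))
    (hl : ∀ v, Co s.G v → v ≠ s.ρ → s.Loc κ D v) (P : Finset (V × V)) (Sx : Finset V)
    (hP : #P ≤ 1)
    (pa : ∀ a ∈ P, D a.1 a.2 ∧ Hc s.G κ a.1 a.2 ∧ s.t κ a.2 ≤ 0 ∧ κ a.1 = 1 ∧ a.2 ≠ x ∧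
      df s.G κ a.2 ≠ 1 ∧ ((s.cx κ D).Yc a.2 → ∃ c, D c a.2 ∧ ¬Fc s.G κ a.2 c ∧ (c, a.2) ∉ P))
    (sx : ∀ p ∈ Sx, Co s.G p ∧ 1 ≤ s.t κ p ∧ P = ∅)
    (bg : ∃ v, (Fc s.G κ s.ρ v ∨ Fc s.G κ x v) ∧ (v ∈ Sx ∨ (0 ≤ s.t κ v ∧ ∃ g, (g, v) ∈ P))) :
    s.Sol := by
  let e : Sg.Cd V := ⟨P, some x, some s.ρ, Sx, id⟩
  have hx : x ∈ s.Q κ := by simp [h.hQ]
  have hρ : s.ρ ∈ s.Q κ := by simp [h.hQ]
  have hPi : s.Pi κ D e = ∅ := by
    simp only [Sg.Pi, filter_eq_empty_iff]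
    exact fun v _ a => h.nyc (negQ a.1) a.2.1
  have po : ∀ v, s.pout e v ≤ 1 := fun v => (card_filter_le _ _).trans hP
  have pn : ∀ v, s.pin e v ≤ 1 := fun v => (card_filter_le _ _).trans hP
  have k1 : ∀ v, s.pout e v = 1 → κ v ≠ 0 := by
    intro v hv
    obtain ⟨a, ha⟩ : (P.filter fun a : V × V => a.1 = v).Nonempty :=
      card_pos.1 (lt_of_lt_of_eq Nat.one_pos hv.symm)
    rw [mem_filter] at ha
    rw [← ha.2, (pa a ha.1).2.2.2.1]
    decide
  refine ⟨κ, D, h.pr, ho, hC V s κ D e h.ok ho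
    ⟨h.th, ?_, ?_, po, pn, ?_, ?_, ?_, ?_, ?_, ?_, ?_, ?_, ?_, ?_⟩⟩
  · intro v hv
    by_cases e : v = s.ρ
    · subst e
      refine ⟨fun _ => card_pos.1 (by omega), fun a => ?_, fun a => ?_⟩
      · rw [h.dr] at a
        exact absurd a (by decide)
      · exact absurd (Or.inr a) (h.nyc hρ)
    · exact hl v hv e
  · intro a ha
    obtain ⟨a1, a2, a3, a4, -⟩ := pa a ha
    exact ⟨a1, a2, h.t_one a2.2.1 a4, a3⟩
  · intro v hv
    rw [h.hQ, mem_insert, mem_singleton] at hv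
    rcases hv with rfl | rfl
    exacts [Or.inr (Or.inl rfl), Or.inr (Or.inr rfl)]
  · intro v hv
    obtain rfl : x = v := Option.some.inj hv
    refine ⟨hx, card_eq_zero.2 (filter_eq_empty_iff.2 fun a ha => (pa a ha).2.2.2.2.1)⟩
  · intro a ha _ hy
    obtain ⟨-, -, -, -, -, a6, a7⟩ := pa a ha
    obtain ⟨c, hc⟩ := a7 hy
    exact ⟨⟨c, by simpa [Sg.ig] using hc⟩, Or.inl a6⟩
  · simp [hPi]
  · simp [hPi]
  · simp [hPi]
  · intro p hp
    obtain ⟨a1, a2, a3⟩ := sx p hp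
    exact ⟨a1, a2, by simp [Sg.pout, e, a3]⟩
  · exact fun p _ _ => ⟨h.noE p, fun y hy _ => Or.inl (h.nyc (negQ hy))⟩
  · exact fun u w _ _ _ _ a b => absurd a (k1 u b)
  · intro b hb
    obtain rfl : s.ρ = b := Option.some.inj hb
    refine ⟨hρ, h.nyc hρ, fun a => h.ne (Option.some.inj a), hr.2, h.fr.ge, hPi, ?_, ?_⟩
    · have h1 : (((s.cx κ D).Fo s.ρ).filter fun w => df s.G κ w = 1) ⊆ (Out D s.ρ).erase x := by
        intro w hw
        rw [mem_filter, memFo] at hw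
        refine mem_erase.2 ⟨fun a => ?_, by simpa [Out] using hw.1.1⟩
        have := h.fx
        rw [← a] at this
        omega
      have h2 := card_le_card h1
      have h3 := (ho.smooth s.ρ (by unfold K; rw [h.dr]; omega)).2
      rw [card_erase_of_mem (by simpa [Out] using hr.1)] at h2
      rw [h.dr] at h3
      omega
    · intro X hX hc
      obtain ⟨v, hv, hv'⟩ := bg
      refine ⟨v, hv.elim (hc _ hX v) (hc _ (hc _ hX x h.adj) v), hv'.imp id fun a => ⟨a.1, ?_⟩⟩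
      obtain ⟨g, hg⟩ := a.2
      refine le_antisymm (pn v) (card_pos.2 ⟨(g, v), ?_⟩)
      exact mem_filter.2 ⟨hg, rfl⟩

theorem tr0 : Co s.G s.ρ ∧ s.G.Adj s.ρ s.z ∧ s.G.Adj s.ρ x ∧ s.z ≠ x := by
  refine ⟨h.adj.2.1, h.re.symm, h.adj.1, fun e => ?_⟩
  have := h.dx
  simp [dg, ← e, h.nz] at this

/-- Some neighbour has a spare token. -/
theorem c1 (hT : Tools) {b : V} (hb : Fc s.G κ s.ρ b ∨ Fc s.G κ x b) (ht : 1 ≤ s.t κ b) :
    s.Sol := by
  let pl : Pl V := ⟨{(s.ρ, s.z, x)}, fun _ => none, none⟩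
  have hp : pl.Ok s.G := by
    refine ⟨?_, ?_, by simp [pl], by simp [pl]⟩
    · simp only [pl, mem_singleton, Prod.mk.injEq]
      rintro v a b ⟨rfl, rfl, rfl⟩
      exact h.tr0
    · simp only [pl, mem_singleton, Prod.mk.injEq]
      rintro v a b a' b' ⟨-, rfl, rfl⟩ ⟨-, rfl, rfl⟩
      exact Or.inl ⟨rfl, rfl⟩
  obtain ⟨D, ho, hd⟩ := hT.1 V s κ pl h.ok hp
  refine h.fin hT.2.2 ho (h.root ho hd (by simp [pl]) ?_) ?_ ∅ {b} (by simp) (by simp) ?_
    ⟨b, hb, by simp⟩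
  · simp only [pl, Pl.Us, mem_singleton, Prod.mk.injEq]
    grind
  · intro v hv e
    refine (hT.2.1 V s κ pl D v h.ok hp ho hd hv ⟨rfl, ?_⟩).1
    simp only [pl, Pl.Us, mem_singleton, Prod.mk.injEq]
    grind
  · intro p hp
    rw [mem_singleton] at hp
    subst hp
    exact ⟨hb.elim (·.2.2.1) (·.2.2.1), ht, rfl⟩

theorem two {b : V} (hb : Fc s.G κ s.ρ b) (ht : s.t κ b = 0) :
    b ≠ s.ρ ∧ b ≠ x ∧ 2 ≤ df s.G κ b ∧ 2 ≤ dh s.G κ b ∧ (df s.G κ b : ℤ) = tau s.G κ b ∧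
      ∀ g, Hc s.G κ b g → κ g = 1 := by
  have h1 : b ≠ s.ρ := hb.1.ne'
  have h2 := h.t0 b hb.2.2.1 ht
  have h3 : 2 ≤ df s.G κ b := by
    rw [← card_pair h.ne]
    refine card_le_card fun a ha => ?_
    rw [mem_insert, mem_singleton] at ha
    rcases ha with rfl | rfl
    exacts [by simpa using fsym h2, by simpa using fsym hb]
  have h4 : (df s.G κ b : ℤ) = tau s.G κ b := by
    have u : ¬s.Ur κ b := fun a => h1 a.1
    simp only [Sg.t, if_neg u] at ht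
    omega
  have h5 := dg_le h.ok h.nz κ hb.2.2.1
  refine ⟨h1, h2.1.ne', h3, ?_, h4, fun g hg => ?_⟩
  · rw [if_neg h1] at h5
    unfold tau at h4
    split_ifs at h4 <;> omega
  · refine (z01 _).resolve_left fun e => hg.2.2.2 ?_
    rw [e, ← hb.2.2.2, h.kr]

/-- A common neighbour of odd degree. -/
theorem c2 (hT : Tools) {b : V} (hb : Fc s.G κ s.ρ b) (ht : s.t κ b = 0) (hod : Odd (dg s.G b)) :
    s.Sol := by
  obtain ⟨b1, b2, b3, b4, -, b6⟩ := h.two hb ht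
  obtain ⟨g, hg⟩ : (univ.filter fun w => Hc s.G κ b w).Nonempty :=
    card_pos.1 (lt_of_lt_of_le two_pos b4)
  replace hg : Hc s.G κ b g := by simpa using hg
  let pl : Pl V := ⟨{(s.ρ, s.z, x)}, fun v => if v = b then some g else none, some b⟩
  have hp : pl.Ok s.G := by
    refine ⟨?_, ?_, ?_, by simp [pl]⟩
    · simp only [pl, mem_singleton, Prod.mk.injEq]
      rintro v a b ⟨rfl, rfl, rfl⟩
      exact h.tr0
    · simp only [pl, mem_singleton, Prod.mk.injEq]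
      rintro v a b a' b' ⟨-, rfl, rfl⟩ ⟨-, rfl, rfl⟩
      exact Or.inl ⟨rfl, rfl⟩
    · intro v e he
      simp only [pl, Option.ite_none_right_eq_some, Option.some.injEq] at he
      obtain ⟨rfl, rfl⟩ := he
      exact ⟨hg.2.1, hod, hg.1, by simp [pl, b1]⟩
  obtain ⟨D, ho, hd⟩ := hT.1 V s κ pl h.ok hp
  have hu : pl.un b = some g := by simp [pl]
  have d1 : D g b := hd.hub b g rfl hu
  have d2 : ¬(s.cx κ D).To b := fun a =>
    (ho.ori _ _ hg.1.symm).1 d1 ((hd.un b g hu).2 a.2.2)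
  have d3 : ¬(s.cx κ D).Yc b := fun a =>
    a.elim (fun a => Nat.not_even_iff_odd.2 hod a.2.2.1) d2
  refine h.fin hT.2.2 ho (h.root ho hd (by simp [pl]) ?_) ?_ {(g, b)} ∅ (by simp) ?_ (by simp)
    ⟨b, Or.inl hb, Or.inr ⟨ht.ge, g, by simp⟩⟩
  · simp only [pl, Pl.Us, mem_singleton, Prod.mk.injEq]
    grind
  · intro v hv e
    by_cases e' : v = b
    · subst e'
      refine ⟨fun _ => ?_, fun _ a => by omega, fun a => absurd a d2⟩
      have h2 : (univ.filter fun w => Fc s.G κ v w) ⊆ pl.Fr s.G κ v := by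
        intro w hw
        simp only [mem_filter, mem_univ, true_and] at hw
        simp only [Pl.Fr, N, mem_filter, mem_univ, true_and]
        refine ⟨hw.1, hw, fun a => ?_⟩
        have : g = w := by simpa [pl, Pl.Us, e] using a
        exact hg.2.2.2 (this ▸ hw.2.2.2)
      have h3 : df s.G κ v ≤ _ := card_le_card h2
      have h5 := hd.fo _ hv
      obtain ⟨w, hw⟩ : ((pl.Fr s.G κ v).filter fun w => D v w).Nonempty := card_pos.1 (by omega)
      simp only [Pl.Fr, mem_filter] at hw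
      exact ⟨w, memFo.2 ⟨hw.2, hw.1.2.1⟩⟩
    · refine (hT.2.1 V s κ pl D v h.ok hp ho hd hv ⟨by simp [pl, e'], ?_⟩).1
      simp [pl, Pl.Us, e, e']
  · intro a ha
    rw [mem_singleton] at ha
    subst ha
    exact ⟨d1, hsym hg, ht.le, b6 g hg, b2, by simp only; omega, fun a => absurd a d3⟩

/-- A common neighbour of even degree. -/
theorem c3 (hT : Tools) {b : V} (hb : Fc s.G κ s.ρ b) (ht : s.t κ b = 0) (hev : Even (dg s.G b)) :
    s.Sol := by
  obtain ⟨b1, b2, b3, b4, b5, b6⟩ := h.two hb ht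
  obtain ⟨g1, hg1, g2, hg2, hne⟩ := one_lt_card.1 (lt_of_lt_of_le one_lt_two b4)
  replace hg1 : Hc s.G κ b g1 := by simpa using hg1
  replace hg2 : Hc s.G κ b g2 := by simpa using hg2
  let pl : Pl V := ⟨{(s.ρ, s.z, x), (b, g1, g2)}, fun _ => none, none⟩
  have hp : pl.Ok s.G := by
    refine ⟨?_, ?_, by simp [pl], by simp [pl]⟩
    · simp only [pl, mem_insert, mem_singleton, Prod.mk.injEq]
      rintro v a b (⟨rfl, rfl, rfl⟩ | ⟨rfl, rfl, rfl⟩)
      exacts [h.tr0, ⟨hg1.2.1, hg1.1, hg2.1, hne⟩]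
    · simp only [pl, mem_insert, mem_singleton, Prod.mk.injEq]
      grind
  obtain ⟨D, ho, hd⟩ := hT.1 V s κ pl h.ok hp
  have hn : ∀ v, v ≠ s.ρ → pl.Nat s.G κ v := by
    refine fun v e => ⟨rfl, fun w hw a => ?_⟩
    have : v = b ∧ (w = g1 ∨ w = g2) := by
      simp only [pl, Pl.Us, mem_insert, mem_singleton, Prod.mk.injEq] at hw
      grind
    obtain ⟨rfl, rfl | rfl⟩ := this
    exacts [hg1.2.2.2 a.2.2.2, hg2.2.2.2 a.2.2.2]
  obtain ⟨g, hg, d1⟩ : ∃ g, Hc s.G κ b g ∧ D g b := by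
    have h1 := hd.tr b g1 g2 (by simp [pl])
    by_cases a : D b g1
    · exact ⟨g2, hg2, (ho.ori _ _ hg2.1.symm).2 (h1.1 a)⟩
    · exact ⟨g1, hg1, (ho.ori _ _ hg1.1.symm).2 a⟩
  refine h.fin hT.2.2 ho (h.root ho hd (by simp [pl]) ?_)
    (fun v hv e => (hT.2.1 V s κ pl D v h.ok hp ho hd hv (hn v e)).1) {(g, b)} ∅ (by simp) ?_
    (by simp) ⟨b, Or.inl hb, Or.inr ⟨ht.ge, g, by simp⟩⟩
  · simp only [pl, Pl.Us, mem_insert, mem_singleton, Prod.mk.injEq]
    grind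
  · intro a ha
    rw [mem_singleton] at ha
    subst ha
    refine ⟨d1, hsym hg, ht.le, b6 g hg, b2, by simp only; omega, fun a => ?_⟩
    have hw : Wv s.G κ b :=
      a.elim (·.2) fun a => absurd hev (Nat.not_even_iff_odd.2 a.2.1)
    have h1 := (hT.2.1 V s κ pl D b h.ok hp ho hd hg.2.1 (hn b b1)).2.2.2
    simp only [tau, if_pos hw] at b5
    obtain ⟨c, hc, hcg⟩ := exists_mem_ne
      (s := univ.filter fun a => D a b ∧ ¬Fc s.G κ b a) (by omega) g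
    simp only [mem_filter, mem_univ, true_and] at hc
    exact ⟨c, hc.1, hc.2, by simpa using hcg⟩

end Fa

end Jbig

theorem jbig : SJbig := by
  intro hT V _ s j κ x hs hj hQ hne dx kx dr hh t0
  have h := Jbig.fa hs hj hQ hne dx kx dr hh t0
  obtain ⟨b, hb, hbx⟩ := exists_mem_ne (s := univ.filter fun w => Fc s.G κ s.ρ w)
    (by have := h.fr; unfold df at this; omega) x
  replace hb : Fc s.G κ s.ρ b := by simpa using hb
  by_cases h1 : 1 ≤ s.t κ b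
  · exact h.c1 hT (Or.inl hb) h1
  have h2 : b ∉ s.Q κ := by simp [hQ, hbx, hb.1.ne']
  rw [Jbig.memQ] at h2
  have h3 : ¬s.t κ b < 0 := fun a => h2 ⟨hb.2.2.1, a⟩
  rcases Nat.even_or_odd (dg s.G b) with e | e
  · exact h.c3 hT hb (by omega) e
  · exact h.c2 hT hb (by omega) e

end Pool.Agent.MP_d1f1f3_co.H2
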