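import Pool.Agent.MP_d1f1f3_co.H2.Spec3

/-!
Rows J1 and JHUB.
-/

namespace Pool.Agent.MP_d1f1f3_co.H2

open Finset Relation H47
open scoped Classical

noncomputable section

namespace Jhub

variable {V : Type} [Fintype V]

theorem fc_symm {G : SimpleGraph V} {κ : V → ZMod 2} {u v : V} (h : Fc G κ u v) : Fc G κ v u :=
  ⟨h.1.symm, h.2.2.1, h.2.1, h.2.2.2.symm⟩

theorem hc_symm {G : SimpleGraph V} {κ : V → ZMod 2} {u v : V} (h : Hc G κ u v) : Hc G κ v u :=
  ⟨h.1.symm, h.2.2.1, h.2.1, fun e => h.2.2.2 e.symm⟩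

theorem fc_irr {G : SimpleGraph V} {κ : V → ZMod 2} (u : V) : ¬Fc G κ u u :=
  fun h => h.1.ne rfl

theorem hc_irr {G : SimpleGraph V} {κ : V → ZMod 2} (u : V) : ¬Hc G κ u u :=
  fun h => h.1.ne rfl

theorem t_ge {s : Sg V} {κ : V → ZMod 2} (h : s.TH κ) {v : V} (hv : Co s.G v) :
    -1 ≤ s.t κ v := by
  have h1 := h {v} (by intro w hw; rw [mem_singleton.mp hw]; exact hv)
  unfold Sg.Dl Dl at h1
  rw [sum_singleton, filter_singleton, filter_singleton, if_neg (fc_irr v), if_neg (hc_irr v)] at h1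
  simp only [card_empty, Nat.cast_zero, sum_const_zero] at h1
  omega

theorem card_pair_filter (p : V → Prop) {u v : V} (hu : ¬p u) :
    #(({u, v} : Finset V).filter p) = if p v then 1 else 0 := by
  rw [filter_insert, if_neg hu, filter_singleton]
  split_ifs <;> simp

theorem card_pair_filter' (p : V → Prop) {u v : V} (hv : ¬p v) :
    #(({u, v} : Finset V).filter p) = if p u then 1 else 0 := by
  rw [pair_comm]; exact card_pair_filter p hv

theorem t_pair {s : Sg V} {κ : V → ZMod 2} (h : s.TH κ) {u v : V} (hu : Co s.G u) (hv : Co s.G v)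
    (huv : u ≠ v) (hF : ¬Fc s.G κ u v) :
    -1 ≤ s.t κ u + s.t κ v ∧ (Hc s.G κ u v → 0 ≤ s.t κ u + s.t κ v) := by
  have h1 := h {u, v} (by
    intro w hw
    rcases mem_insert.mp hw with rfl | hw
    · exact hu
    · rw [mem_singleton.mp hw]; exact hv)
  unfold Sg.Dl Dl at h1
  rw [sum_pair huv, card_pair_filter _ (fc_irr u), card_pair_filter _ (hc_irr u),
    card_pair_filter' _ (fc_irr v), card_pair_filter' _ (hc_irr v), if_neg hF,
    if_neg (fun e => hF (fc_symm e))] at h1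
  simp only [Nat.cast_zero, sum_const_zero] at h1
  by_cases hH : Hc s.G κ u v
  · rw [if_pos hH, if_pos (hc_symm hH)] at h1
    refine ⟨?_, fun _ => ?_⟩ <;> push_cast at h1 <;> omega
  · rw [if_neg hH, if_neg (fun e => hH (hc_symm e))] at h1
    refine ⟨?_, fun e => absurd e hH⟩
    push_cast at h1; omega

theorem mem_Q {s : Sg V} {κ : V → ZMod 2} {v : V} : v ∈ s.Q κ ↔ Co s.G v ∧ s.t κ v < 0 := by
  unfold Sg.Q; rw [mem_filter]; exact ⟨fun h => h.2, fun h => ⟨mem_univ _, h⟩⟩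

theorem neg_mem {s : Sg V} {κ : V → ZMod 2} {D : V → V → Prop} {v : V}
    (h : (s.cx κ D).Neg v) : v ∈ s.Q κ := by
  refine mem_Q.mpr ⟨h.1, ?_⟩
  have h2 : tau s.G κ v < df s.G κ v := h.2
  unfold Sg.t
  split_ifs <;> omega

theorem tau_bd {G : SimpleGraph V} {κ : V → ZMod 2} {v : V} (hv : Co G v) :
    1 ≤ tau G κ v ∧ tau G κ v ≤ ((dg G v / 2 : ℕ) : ℤ) := by
  have h3 : 3 ≤ dg G v := hv
  unfold tau
  split_ifs with hw
  · obtain ⟨k, hk⟩ := hw.2.1
    constructor <;> omega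
  · constructor <;> omega

theorem fo_fi {s : Sg V} {κ : V → ZMod 2} {D : V → V → Prop} (hD : s.Ob D) (v : V) :
    #((s.cx κ D).Fo v) + #((s.cx κ D).Fi v) ≤ df s.G κ v := by
  rw [← card_union_of_disjoint]
  · apply card_le_card
    intro w hw
    rcases mem_union.mp hw with hw | hw
    · exact mem_filter.mpr ⟨mem_univ _, (mem_filter.mp hw).2.2⟩
    · exact mem_filter.mpr ⟨mem_univ _, (mem_filter.mp hw).2.2⟩
  · rw [disjoint_left]
    intro w h1 h2
    have a1 := (mem_filter.mp h1).2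
    have a2 := (mem_filter.mp h2).2
    exact (hD.ori v w a1.2.1).mp a1.1 a2.1

/-- A choice of an unseparated arc going out. -/
def oc (s : Sg V) (κ : V → ZMod 2) (D : V → V → Prop) (v : V) : V :=
  if h : ((s.cx κ D).Fo v).Nonempty then h.choose else v

theorem oc_mem {s : Sg V} {κ : V → ZMod 2} {D : V → V → Prop} {v : V}
    (h : ((s.cx κ D).Fo v).Nonempty) : oc s κ D v ∈ (s.cx κ D).Fo v := by
  unfold oc; rw [dif_pos h]; exact h.choose_spec

theorem pi_fi {s : Sg V} {κ : V → ZMod 2} {D : V → V → Prop} {e : Sg.Cd V} (hT : s.TH κ)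
    (hD : s.Ob D) {v : V} (hv : v ∈ s.Pi κ D e) (hP : ∀ a, (a, v) ∉ e.P) (hl : s.Loc κ D v)
    (h1 : df s.G κ v / 2 ≤ #((s.cx κ D).Fo v))
    (h2 : (dg s.G v - df s.G κ v) / 2 ≤ #(univ.filter fun a => D a v ∧ ¬Fc s.G κ v a)) :
    oc s κ D v ∈ (s.cx κ D).Fo v ∧ #((s.cx κ D).Fi v) ≤ 2 := by
  obtain ⟨hn, -, hr, hc⟩ := (mem_filter.mp hv).2
  have hco : Co s.G v := hn.1
  have hn2 : tau s.G κ v < df s.G κ v := hn.2
  obtain ⟨ta, tb⟩ := tau_bd (κ := κ) hco
  have hne : ((s.cx κ D).Fo v).Nonempty := hl.n1 (by omega)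
  refine ⟨oc_mem hne, ?_⟩
  have hp := hne.card_pos
  have hs := fo_fi (κ := κ) hD v
  rcases hc with hc | hc
  · have h0 : (univ.filter fun a => D a v ∧ ¬Fc s.G κ v a) = ∅ := by
      rw [eq_empty_iff_forall_notMem]
      intro a ha
      have ha2 := (mem_filter.mp ha).2
      have : a ∈ s.ig κ D e v := mem_filter.mpr ⟨mem_univ _, ha2.1, ha2.2, hP a⟩
      rw [hc] at this
      exact notMem_empty _ this
    rw [h0, card_empty] at h2
    have ht := t_ge hT hco
    unfold Sg.t at ht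
    rw [if_neg (fun hu : s.Ur κ v => hr ⟨hu.1, hu.2.1⟩)] at ht
    omega
  · have := hc.1
    omega

theorem nb_core {s : Sg V} (hs : s.Ok) {x w : V} (hx : x ≠ s.ρ) (h : s.G.Adj x w) :
    Co s.G w := by
  have hm : x ∈ N s.G w := mem_filter.mpr ⟨mem_univ _, h.symm⟩
  have hp : 0 < dg s.G w := card_pos.mpr ⟨x, hm⟩
  rcases hs.deg w with h1 | h1
  · have hz := hs.leaf w (by omega)
    rcases hs.root with hr | hr
    · rw [hz, hr.1] at hm
      exact absurd (mem_singleton.mp hm) hx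
    · have := hs.iso
      rw [hz, hr.1] at hp
      omega
  · exact h1

theorem ex_h {s : Sg V} {κ : V → ZMod 2} (hs : s.Ok) {x : V} (hx : x ≠ s.ρ) (hc : Co s.G x)
    (hlt : df s.G κ x < dg s.G x) : ∃ g, Hc s.G κ g x := by
  by_contra hno
  have : N s.G x ⊆ univ.filter fun w => Fc s.G κ x w := by
    intro w hw
    have ha : s.G.Adj x w := (mem_filter.mp hw).2
    refine mem_filter.mpr ⟨mem_univ _, ha, hc, nb_core hs hx ha, ?_⟩
    by_contra hk
    exact hno ⟨w, ha.symm, nb_core hs hx ha, hc, fun e => hk e.symm⟩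
  have h2 : dg s.G x ≤ df s.G κ x := card_le_card this
  omega

/-- The plan of row JHUB. -/
def plan (s : Sg V) (κ : V → ZMod 2) (g x : V) : Pl V :=
  ⟨univ.filter fun p => p.1 = g ∧ p.2.2 = x ∧ dg s.G g = 4 ∧ κ g = 0 ∧ df s.G κ g = 1 ∧
    Fc s.G κ g p.2.1, fun v => if v = x then some g else none, some x⟩

theorem mem_plan {s : Sg V} {κ : V → ZMod 2} {g x v a b : V} :
    (v, a, b) ∈ (plan s κ g x).Tr ↔ v = g ∧ b = x ∧ dg s.G g = 4 ∧ κ g = 0 ∧ df s.G κ g = 1 ∧
      Fc s.G κ g a := by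
  unfold plan; rw [mem_filter]; exact ⟨fun h => h.2, fun h => ⟨mem_univ _, h⟩⟩

theorem un_plan {s : Sg V} {κ : V → ZMod 2} {g x v e : V} :
    (plan s κ g x).un v = some e ↔ v = x ∧ e = g := by
  show (if v = x then some g else none) = some e ↔ _
  split_ifs with h
  · exact ⟨fun k => ⟨h, (Option.some.inj k).symm⟩, fun k => by rw [k.2]⟩
  · exact ⟨fun k => (by cases k), fun k => absurd k.1 h⟩

theorem plan_ok {s : Sg V} {κ : V → ZMod 2} {g x : V} (hg : Hc s.G κ g x)
    (ho : Odd (dg s.G x)) : (plan s κ g x).Ok s.G := by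
  refine ⟨?_, ?_, ?_, ?_⟩
  · intro v a b h
    obtain ⟨rfl, rfl, -, -, -, hF⟩ := mem_plan.mp h
    exact ⟨hg.2.1, hF.1, hg.1, fun e => hg.2.2.2 (e ▸ hF.2.2.2)⟩
  · intro v a b a' b' h h'
    obtain ⟨-, hb, -, -, h1, hF⟩ := mem_plan.mp h
    obtain ⟨-, hb', -, -, -, hF'⟩ := mem_plan.mp h'
    refine Or.inl ⟨?_, hb.trans hb'.symm⟩
    have h1' : #(univ.filter fun w => Fc s.G κ g w) ≤ 1 := le_of_eq h1
    exact card_le_one.mp h1' a (mem_filter.mpr ⟨mem_univ _, hF⟩) a'
      (mem_filter.mpr ⟨mem_univ _, hF'⟩)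
  · intro v e h
    obtain ⟨hv, he⟩ := un_plan.mp h
    rw [hv, he]
    refine ⟨hg.2.2.1, ho, hg.1.symm, fun a => ⟨fun k => ?_, fun k => ?_⟩⟩
    · exact hg.1.ne (mem_plan.mp k).1.symm
    · exact hg.1.ne (mem_plan.mp k).1.symm
  · intro y h
    have : x = y := Option.some.inj h
    exact ⟨g, un_plan.mpr ⟨this.symm, rfl⟩⟩

theorem plan_nat {s : Sg V} {κ : V → ZMod 2} {g x v : V} (hx : v ≠ x)
    (hc : ¬(v = g ∧ dg s.G g = 4 ∧ df s.G κ g = 1)) : (plan s κ g x).Nat s.G κ v := by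
  have hn : (plan s κ g x).un v = none := if_neg hx
  refine ⟨hn, fun w hw => ?_⟩
  rcases hw with ⟨a, h | h⟩ | h
  · have := mem_plan.mp h
    exact absurd ⟨this.1, this.2.2.1, this.2.2.2.2.1⟩ hc
  · have := mem_plan.mp h
    exact absurd ⟨this.1, this.2.2.1, this.2.2.2.2.1⟩ hc
  · rw [hn] at h; cases h

end Jhub

open Jhub

theorem j1 : SJ1 := by
  rintro ⟨hO, hN, hC⟩ V _ s j κ hs hst hq
  have hpl : (⟨∅, fun _ => none, none⟩ : Pl V).Ok s.G :=
    ⟨fun _ _ _ h => absurd h (notMem_empty _), fun _ _ _ _ _ h => absurd h (notMem_empty _),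
      fun _ _ h => (by cases h), fun _ h => (by cases h)⟩
  obtain ⟨D, hD, hOd⟩ := hO V s κ _ hs hpl
  have hnat : ∀ v, (⟨∅, fun _ => none, none⟩ : Pl V).Nat s.G κ v := by
    intro v
    refine ⟨rfl, fun w hw => ?_⟩
    rcases hw with ⟨a, h | h⟩ | h
    · exact absurd h (notMem_empty _)
    · exact absurd h (notMem_empty _)
    · cases h
  have hn := fun v hv => hN V s κ _ D v hs hpl hD hOd hv (hnat v)
  obtain ⟨v₀, hv1, hv2⟩ : ∃ v₀ : Option V, (∀ v ∈ s.Q κ, v₀ = some v) ∧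
      ∀ v, v₀ = some v → v ∈ s.Q κ := by
    rcases (s.Q κ).eq_empty_or_nonempty with h | ⟨a, ha⟩
    · refine ⟨none, fun v hv => ?_, fun v hv => by cases hv⟩
      rw [h] at hv; exact absurd hv (notMem_empty _)
    · refine ⟨some a, fun v hv => ?_, fun v hv => ?_⟩
      · rw [card_le_one.mp hq a ha v hv]
      · rw [← Option.some.inj hv]; exact ha
  let e : Sg.Cd V := ⟨∅, v₀, none, ∅, oc s κ D⟩
  have hin : ∀ v, s.pin e v = 0 := fun v => by
    show #((∅ : Finset (V × V)).filter _) = 0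
    rw [filter_empty, card_empty]
  have hout : ∀ v, s.pout e v = 0 := fun v => by
    show #((∅ : Finset (V × V)).filter _) = 0
    rw [filter_empty, card_empty]
  have hsub : s.Pi κ D e ⊆ s.Q κ := fun v hv => neg_mem (mem_filter.mp hv).2.1
  refine ⟨κ, D, hst.1, hD, hC V s κ D e hs hD ?_⟩
  refine ⟨hst.2.1, fun v hv => (hn v hv).1, fun a ha => absurd ha (notMem_empty _),
    fun v => (by rw [hout]; omega), fun v => (by rw [hin]; omega),
    fun v hv => Or.inr (Or.inl (hv1 v hv)), fun v hv => ⟨hv2 v hv, hin v⟩,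
    fun a ha => absurd ha (notMem_empty _), ?_, ?_, ?_, fun p hp => absurd hp (notMem_empty _),
    ?_, ?_, fun b hb => by cases hb⟩
  · have := card_le_card hsub
    omega
  · intro v hv
    have hco := (mem_Q.mp (hsub hv)).1
    obtain ⟨a1, a2, -, a4⟩ := hn v hco
    obtain ⟨b1, b2⟩ := pi_fi hst.2.1 hD hv (fun a => notMem_empty _) a1 a2 a4
    refine ⟨b1, b2, fun h => ?_⟩
    rw [hin] at h; omega
  · intro f hf _ _ x hx hne
    exact absurd (card_le_one.mp hq x (hsub hx) f (hsub hf)) hne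
  · intro p hp
    rcases hp with hp | hp
    · exact absurd hp (notMem_empty _)
    · rw [hout] at hp; omega
  · intro u w _ _ _ _ _ hp
    rw [hout] at hp; omega

theorem jhub : SJhub := by
  rintro ⟨hO, hN, hC⟩ V _ s j κ x y hs hst hQ hxy hE ho hρ
  have hT := hst.2.1
  have hxQ : x ∈ s.Q κ := by rw [hQ]; exact mem_insert_self _ _
  have hyQ : y ∈ s.Q κ := by rw [hQ]; exact mem_insert_of_mem (mem_singleton_self _)
  have hmem : ∀ v ∈ s.Q κ, v = x ∨ v = y := by
    intro v hv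
    rw [hQ] at hv
    rcases mem_insert.mp hv with h | h
    · exact Or.inl h
    · exact Or.inr (mem_singleton.mp h)
  obtain ⟨cx, tx⟩ := mem_Q.mp hxQ
  obtain ⟨cy, ty⟩ := mem_Q.mp hyQ
  have tx1 := t_ge hT cx
  have hdf : 2 ≤ df s.G κ x ∧ df s.G κ x < dg s.G x := by
    obtain ⟨ta, tb⟩ := tau_bd (κ := κ) cx
    have h3 : 3 ≤ dg s.G x := cx
    unfold Sg.t at tx tx1
    rw [if_neg (fun hu : s.Ur κ x => hρ hu.1)] at tx tx1
    constructor <;> omega
  obtain ⟨g, hg⟩ := ex_h hs hρ cx hdf.2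
  have tg : 1 ≤ s.t κ g := by
    have := (t_pair hT hg.2.1 cx hg.1.ne (fun h => hg.2.2.2 h.2.2.2)).2 hg
    omega
  have hFxy : Fc s.G κ x y := by
    by_contra h
    have := (t_pair hT cx cy hxy h).1
    omega
  have hyg : y ≠ g := by
    intro h; rw [h] at ty; omega
  have hpl := plan_ok hg ho
  obtain ⟨D, hD, hOd⟩ := hO V s κ _ hs hpl
  have hun : (plan s κ g x).un x = some g := un_plan.mpr ⟨rfl, rfl⟩
  have hDg : D g x := hOd.hub x g rfl hun
  have hTo : ¬(s.cx κ D).To x := fun h =>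
    (hD.ori g x hg.1).mp hDg ((hOd.un x g hun).mpr h.2.2)
  have hY : ¬(s.cx κ D).Yc x := by
    rintro (h | h)
    · exact (Nat.not_even_iff_odd.mpr ho) h.2.2.1
    · exact hTo h
  have hloc : ∀ v, Co s.G v → s.Loc κ D v := by
    intro v hv
    by_cases h1 : v = x
    · rw [h1]
      refine ⟨fun _ => ?_, fun _ h => (by omega), fun h => absurd h hTo⟩
      have h2 := hOd.fo x cx
      have h3 : df s.G κ x ≤ #((plan s κ g x).Fr s.G κ x) := by
        apply card_le_card
        intro w hw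
        have hF := (mem_filter.mp hw).2
        refine mem_filter.mpr ⟨mem_filter.mpr ⟨mem_univ _, hF.1⟩, hF, ?_⟩
        rintro (⟨a, h | h⟩ | h)
        · exact hg.1.ne (mem_plan.mp h).1.symm
        · exact hg.1.ne (mem_plan.mp h).1.symm
        · have := (un_plan.mp h).2
          rw [this] at hF
          exact hg.2.2.2 hF.2.2.2.symm
      obtain ⟨w, hw⟩ := card_pos.mp
        (show 0 < #(((plan s κ g x).Fr s.G κ x).filter fun w => D x w) by omega)
      have hw2 := mem_filter.mp hw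
      exact ⟨w, mem_filter.mpr ⟨mem_univ _, hw2.2, (mem_filter.mp hw2.1).2.1⟩⟩
    · by_cases h2 : v = g ∧ dg s.G g = 4 ∧ df s.G κ g = 1
      · obtain ⟨e1, e2, e3⟩ := h2
        rw [e1]
        refine ⟨fun h => (by omega), fun h => ?_, fun _ h => (by omega)⟩
        rw [e2] at h
        exact absurd h (by decide)
      · exact (hN V s κ _ D v hs hpl hD hOd hv (plan_nat h1 h2)).1
  let e : Sg.Cd V := ⟨{(g, x)}, some y, none, ∅, oc s κ D⟩
  have hP : ∀ a, a ∈ e.P → a = (g, x) := fun a ha => mem_singleton.mp ha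
  have hin : ∀ v, s.pin e v = if x = v then 1 else 0 := fun v => by
    show #(({(g, x)} : Finset (V × V)).filter _) = _
    rw [filter_singleton]
    split_ifs <;> simp
  have hout : ∀ v, s.pout e v = if g = v then 1 else 0 := fun v => by
    show #(({(g, x)} : Finset (V × V)).filter _) = _
    rw [filter_singleton]
    split_ifs <;> simp
  have hout1 : ∀ v, s.pout e v = 1 → v = g := fun v h => by
    rw [hout] at h
    by_contra k
    rw [if_neg (fun e => k e.symm)] at h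
    omega
  have hPi : ∀ v ∈ s.Pi κ D e, v = y := by
    intro v hv
    have h1 := (mem_filter.mp hv).2
    rcases hmem v (neg_mem h1.1) with h | h
    · rw [h] at h1; exact absurd h1.2.1 hY
    · exact h
  refine ⟨κ, D, hst.1, hD, hC V s κ D e hs hD ?_⟩
  refine ⟨hT, hloc, ?_, ?_, ?_, ?_, ?_, ?_, ?_, ?_, ?_, fun p hp => absurd hp (notMem_empty _),
    ?_, ?_, fun b hb => by cases hb⟩
  · intro a ha
    rw [hP a ha]
    exact ⟨hDg, hg, tg, le_of_lt tx⟩
  · intro v; rw [hout]; split_ifs <;> omega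
  · intro v; rw [hin]; split_ifs <;> omega
  · intro v hv
    rcases hmem v hv with h | h
    · left; rw [hin, if_pos h.symm]
    · right; left; rw [h]
  · intro v hv
    have : y = v := Option.some.inj hv
    rw [← this]
    exact ⟨hyQ, by rw [hin, if_neg hxy]⟩
  · intro a ha _ h
    rw [hP a ha] at h
    exact absurd h hY
  · have : #(s.Pi κ D e) ≤ 1 :=
      card_le_one.mpr fun a ha b hb => (hPi a ha).trans (hPi b hb).symm
    omega
  · intro v hv
    have hvy := hPi v hv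
    subst hvy
    obtain ⟨a1, a2, -, a4⟩ := hN V s κ _ D v hs hpl hD hOd cy
      (plan_nat hxy.symm fun h => hyg h.1)
    obtain ⟨b1, b2⟩ := pi_fi hT hD hv
      (fun a h => hxy (congrArg Prod.snd (hP _ h)).symm) a1 a2 a4
    refine ⟨b1, b2, fun h => ?_⟩
    rw [hin, if_neg hxy] at h
    omega
  · intro f hf _ _ x' hx' hne
    exact absurd ((hPi x' hx').trans (hPi f hf).symm) hne
  · intro p hp hk
    rcases hp with hp | hp
    · exact absurd hp (notMem_empty _)
    · have hpg := hout1 p hp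
      rw [hpg] at hk ⊢
      refine ⟨fun w => hE x hxQ g w hg, fun u hu ku => ?_⟩
      exfalso
      rcases hmem u (neg_mem hu) with h | h
      · rw [h] at ku; exact hg.2.2.2 (hk.trans ku.symm)
      · rw [h, ← hFxy.2.2.2] at ku; exact hg.2.2.2 (hk.trans ku.symm)
  · intro u w hw h1 _ h4 hk hp
    have hug := hout1 u hp
    rw [hug] at hw h1 h4 hk
    have hw2 := (mem_filter.mp hw).2
    exact absurd hDg
      ((hOd.tr g w x (mem_plan.mpr ⟨rfl, rfl, h4, hk, h1, hw2.2⟩)).mp hw2.1)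

end

end Pool.Agent.MP_d1f1f3_co.H2
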