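import Pool.Agent.MP_d1f1f3_co.H2.Spec3

/-!
Two vertices in debt that are linked through their only separated edges.
-/

namespace Pool.Agent.MP_d1f1f3_co.H2

open Finset Relation H47
open scoped Classical

namespace Jlink

variable {V : Type} [Fintype V] {s : Sg V} {κ : V → ZMod 2} {D : V → V → Prop} {v w : V}

theorem memQ : v ∈ s.Q κ ↔ Co s.G v ∧ s.t κ v < 0 := by simp [Sg.Q]

theorem fsym (h : Fc s.G κ v w) : Fc s.G κ w v := ⟨h.1.symm, h.2.2.1, h.2.1, h.2.2.2.symm⟩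

theorem hsym (h : Hc s.G κ v w) : Hc s.G κ w v := ⟨h.1.symm, h.2.2.1, h.2.1, h.2.2.2.symm⟩

theorem low (h : s.TH κ) (hv : Co s.G v) : -1 ≤ s.t κ v := by
  have := h {v} (by simpa using hv)
  simp [Sg.Dl, Dl, filter_singleton, Fc, Hc] at this
  omega

theorem pair (h : s.TH κ) (hv : Co s.G v) (hw : Co s.G w) (ne : v ≠ w) :
    -1 ≤ 2 * s.t κ v + 2 * s.t κ w + 2 + (if Fc s.G κ v w then 2 else 0) -
      if Hc s.G κ v w then 2 else 0 := by
  have := h {v, w} (by simp [hv, hw])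
  have a : ∀ u, ¬Fc s.G κ u u := fun u q => q.1.ne rfl
  have b : ∀ u, ¬Hc s.G κ u u := fun u q => q.1.ne rfl
  have c : Fc s.G κ w v ↔ Fc s.G κ v w := ⟨fsym, fsym⟩
  have d : Hc s.G κ w v ↔ Hc s.G κ v w := ⟨hsym, hsym⟩
  simp only [Sg.Dl, Dl, sum_pair ne, filter_insert, filter_singleton, a, b, c, d] at this
  by_cases p : Fc s.G κ v w <;> by_cases q : Hc s.G κ v w <;> simp [p, q] at this ⊢ <;> omega

theorem core (h : s.Ok) (a : s.G.Adj v w) : Co s.G w ∨ (w = s.z ∧ v = s.ρ) := by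
  have p : 0 < dg s.G w := card_pos.2 ⟨v, by simpa [N] using a.symm⟩
  rcases h.deg w with q | q
  · have e := h.leaf w (by omega)
    rcases h.root with ⟨r, -⟩ | ⟨r, -⟩
    · refine Or.inr ⟨e, ?_⟩
      rw [← mem_singleton, ← r, ← e]
      simpa [N] using a.symm
    · have := h.iso
      rw [← r, ← e] at this
      omega
  · exact Or.inl q

theorem cnt (hv : Co s.G v) : df s.G κ v + dh s.G κ v = #((N s.G v).filter (Co s.G)) := by
  rw [df, dh, ← card_union_of_disjoint (disjoint_filter.2 fun w _ a b => b.2.2.2 a.2.2.2)]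
  congr 1
  ext w
  by_cases e : κ v = κ w <;> simp [N, Fc, Hc, hv, e]

theorem cnt1 (h : s.Ok) (hv : Co s.G v) (n : v ≠ s.ρ) : df s.G κ v + dh s.G κ v = dg s.G v := by
  rw [cnt hv, filter_true_of_mem, dg]
  exact fun w hw => (core h (by simpa [N] using hw)).resolve_right fun q => n q.2

theorem re (h : s.Ok) (hv : Co s.G s.ρ) : s.Re ∧ dg s.G s.z = 1 := by
  rcases h.root with ⟨r, -⟩ | ⟨-, r, -⟩
  · refine ⟨?_, by rw [dg, r, card_singleton]⟩
    have : s.ρ ∈ N s.G s.z := r ▸ mem_singleton_self _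
    simpa [N, Sg.Re] using this
  · have := h.iso
    rw [Co, r] at hv
    omega

theorem cnt2 (h : s.Ok) (hv : Co s.G s.ρ) :
    df s.G κ s.ρ + dh s.G κ s.ρ + 1 = dg s.G s.ρ := by
  obtain ⟨r, r'⟩ := re h hv
  have z : ¬Co s.G s.z := by rw [Co]; omega
  rw [cnt hv, dg, ← card_insert_of_notMem (a := s.z) (by simp [z])]
  congr 1
  ext w
  simp only [N, mem_insert, mem_filter, mem_univ, true_and]
  refine ⟨?_, fun a => ?_⟩
  · rintro (rfl | a)
    · exact r.symm
    · exact a.1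
  · exact (core h a).symm.imp (fun q => q.1) fun q => ⟨a, q⟩

theorem four (h : s.Ok) (th : s.TH κ) (hv : v ∈ s.Q κ) (n : v ≠ s.ρ) (d : dg s.G v = 4)
    (k : κ v = 0) : df s.G κ v = 3 ∧ dh s.G κ v = 1 ∧ (s.cx κ D).Neg v ∧ ¬(s.cx κ D).Yc v := by
  obtain ⟨c, t⟩ := memQ.1 hv
  have w : ¬Wv s.G κ v := fun q => q.2.2 (by rw [d, k]; rfl)
  have a := low th c
  have b := cnt1 (κ := κ) h c n
  have u : ¬s.Ur κ v := fun q => n q.1
  have e : tau s.G κ v = 2 := by simp [tau, w, d]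
  simp only [Sg.t, e, u, if_false] at a t
  refine ⟨by omega, by omega, ⟨c, ?_⟩, ?_⟩
  · show tau s.G κ v < df s.G κ v
    omega
  · rintro (q | q)
    · exact w q.2
    · have : Odd (dg s.G v) := q.2.1
      rw [d] at this
      exact absurd this (by decide)

theorem root (h : s.Ok) (th : s.TH κ) (hv : s.ρ ∈ s.Q κ) (d : dh s.G κ s.ρ ≤ 1)
    (d' : dg s.G s.ρ ≠ 4) (k : κ s.ρ = 0) : (s.cx κ D).Neg s.ρ ∧
      ((df s.G κ s.ρ = 3 ∧ dh s.G κ s.ρ = 1) ∨ (dg s.G s.ρ = 3 ∧ df s.G κ s.ρ = 2)) := by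
  obtain ⟨c, t⟩ := memQ.1 hv
  have a := low th c
  have b := cnt2 (κ := κ) h c
  have c' : 3 ≤ dg s.G s.ρ := c
  have e : dg s.G s.ρ = 6 → Wv s.G κ s.ρ := fun q =>
    ⟨by rw [K]; omega, by rw [q]; decide, by rw [q, k]; decide⟩
  have e' : Wv s.G κ s.ρ → dg s.G s.ρ % 2 = 0 := fun q => Nat.even_iff.1 q.2.1
  refine ⟨⟨c, ?_⟩, ?_⟩
  · show tau s.G κ s.ρ < df s.G κ s.ρ
    simp only [Sg.t, tau] at a t ⊢
    split_ifs at a t ⊢ <;> omega
  · simp only [Sg.t, tau] at a t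
    by_cases q : Wv s.G κ s.ρ
    · have := e' q
      simp only [q, if_true] at a t
      split_ifs at a t <;> omega
    · have := mt e q
      simp only [q, if_false] at a t
      split_ifs at a t <;> omega

theorem fin (hc : SCj) (h : s.Ok) {j : ZMod 2} (st : s.St j κ) (ob : s.Ob D) {a b g : V}
    (hQ : s.Q κ = {a, b}) (ne : a ≠ b) (loc : ∀ v, Co s.G v → s.Loc κ D v) (hD : D g a)
    (hg : Hc s.G κ g a) (k : κ a = 0) (ng : (s.cx κ D).Neg a)
    (yc : ∀ v ∈ s.Q κ, ¬(s.cx κ D).Yc v ∨ (v = s.ρ ∧ s.Re)) : s.Sol := by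
  have ha : a ∈ s.Q κ := by simp [hQ]
  let e : Sg.Cd V := ⟨{(g, a)}, some b, none, ∅, id⟩
  have pi : s.Pi κ D e = ∅ := by
    refine filter_eq_empty_iff.2 fun v _ q => ?_
    have : v ∈ s.Q κ := memQ.2 ⟨q.1.1, by
      have : tau s.G κ v < df s.G κ v := q.1.2
      rw [Sg.t]
      split_ifs <;> omega⟩
    exact (yc v this).elim (fun r => r q.2.1) q.2.2.1
  have out : ∀ p, s.pout e p = 1 → κ p ≠ 0 := fun p q => by
    have : g = p := by
      by_contra n
      simp [Sg.pout, e, filter_singleton, n] at q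
    exact this ▸ k ▸ hg.2.2.2
  refine ⟨κ, D, st.1, ob, hc V s κ D e h ob ⟨st.2.1, loc, ?_, fun v => ?_, fun v => ?_, ?_, ?_, ?_,
    by simp [pi], by simp [pi], by simp [pi], by simp [e], ?_, ?_, by simp [e]⟩⟩
  · intro p hp
    obtain rfl := mem_singleton.1 hp
    have t := (memQ.1 ha).2
    have := pair st.2.1 hg.2.1 hg.2.2.1 hg.1.ne
    rw [if_neg fun q : Fc s.G κ g a => hg.2.2.2 q.2.2.2, if_pos hg] at this
    exact ⟨hD, hg, by simp only; omega, t.le⟩
  · exact (card_filter_le _ _).trans (card_singleton _).le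
  · exact (card_filter_le _ _).trans (card_singleton _).le
  · intro v hv
    rw [hQ, mem_insert, mem_singleton] at hv
    rcases hv with rfl | rfl
    · exact Or.inl (by simp [Sg.pin, e, filter_singleton])
    · exact Or.inr (Or.inl rfl)
  · intro v hv
    obtain rfl : b = v := Option.some.inj hv
    exact ⟨by simp [hQ], by simp [Sg.pin, e, ne]⟩
  · intro p hp n
    obtain rfl := mem_singleton.1 hp
    exact absurd ng n
  · rintro p (q | q) r
    · simp [e] at q
    · exact absurd r (out p q)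
  · intro u _ _ _ _ _ r q
    exact absurd r (out u q)

theorem loc {pl : Pl V} (od : pl.Od s.G κ D) (c : Co s.G v) (d : df s.G κ v = 3)
    (hw : ∀ a, pl.Us v a → Fc s.G κ v a → a = w) : s.Loc κ D v := by
  refine ⟨fun _ => ?_, fun _ q => by omega, fun _ _ q => by omega⟩
  have a := od.fo v c
  have b : #((univ.filter fun a => Fc s.G κ v a).erase w) ≤ #(pl.Fr s.G κ v) :=
    card_le_card fun a ha => by
      simp only [mem_erase, mem_filter, mem_univ, true_and] at ha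
      simp only [Pl.Fr, N, mem_filter, mem_univ, true_and]
      exact ⟨ha.2.1, ha.2, fun q => ha.1 (hw a q ha.2)⟩
  have e := pred_card_le_card_erase (s := univ.filter fun a => Fc s.G κ v a) (a := w)
  rw [df] at d
  obtain ⟨a, ha⟩ := card_pos.1 (show 0 < #((pl.Fr s.G κ v).filter fun w => D v w) by omega)
  simp only [Pl.Fr, mem_filter] at ha
  exact ⟨a, mem_filter.2 ⟨mem_univ _, ha.2, ha.1.2.1⟩⟩

theorem hnb (d : dh s.G κ v = 1) : ∃ u, Hc s.G κ u v := by
  obtain ⟨u, hu⟩ := card_pos.1 (show 0 < dh s.G κ v by omega)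
  exact ⟨u, hsym (mem_filter.1 hu).2⟩

end Jlink

open Jlink in
theorem jlink : SJlink := by
  rintro ⟨h1, h2, h3⟩ V _ s j κ x y h st hQ ne xr d4 k0 hy
  have hx : x ∈ s.Q κ := by simp [hQ]
  have hy' : y ∈ s.Q κ := by simp [hQ]
  obtain ⟨cx, tx⟩ := memQ.1 hx
  obtain ⟨cy, ty⟩ := memQ.1 hy'
  have fxy : Fc s.G κ x y := by
    have := pair st.2.1 cx cy ne
    by_contra q
    rw [if_neg q] at this
    split_ifs at this <;> omega
  have k1 : κ y = 0 := fxy.2.2.2 ▸ k0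
  have X := fun D => four (D := D) h st.2.1 hx xr d4 k0
  obtain ⟨u, hu⟩ := hnb (X fun _ _ => True).2.1
  have uy : u ≠ y := fun e => hu.2.2.2 (by rw [e, k0, k1])
  have nu : ¬Fc s.G κ x u := fun q => hu.2.2.2 q.2.2.2.symm
  have yc : ∀ D, ∀ v ∈ s.Q κ, ¬(s.cx κ D).Yc v ∨ (v = s.ρ ∧ s.Re) := fun D v hv => by
    rw [hQ, mem_insert, mem_singleton] at hv
    rcases hv with rfl | rfl
    · exact Or.inl (X D).2.2.2
    · rcases hy with q | q
      · exact Or.inl (four h st.2.1 hy' q.1 q.2 k1).2.2.2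
      · exact Or.inr ⟨q.1, (re h (q.1 ▸ cy)).1⟩
  have Y : ∀ D, (s.cx κ D).Neg y ∧ ((df s.G κ y = 3 ∧ dh s.G κ y = 1) ∨
      (y = s.ρ ∧ dg s.G y = 3 ∧ df s.G κ y = 2)) := fun D => by
    rcases hy with q | ⟨rfl, q, q'⟩
    · have := four (D := D) h st.2.1 hy' q.1 q.2 k1
      exact ⟨this.2.2.1, Or.inl ⟨this.1, this.2.1⟩⟩
    · exact (root h st.2.1 hy' q q' k1).imp_right (Or.imp_right fun r => ⟨rfl, r⟩)
  rcases (Y fun _ _ => True).2 with ⟨y1, y2⟩ | ⟨rfl, y1, y2⟩
  · obtain ⟨u', hu'⟩ := hnb y2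
    have xu : x ≠ u' := fun e => hu'.2.2.2 (by rw [← e, k0, k1])
    have nu' : ¬Fc s.G κ y u' := fun q => hu'.2.2.2 q.2.2.2.symm
    let pl : Pl V := ⟨{(x, u, y), (y, x, u')}, fun _ => none, none⟩
    have ok : pl.Ok s.G := by
      refine ⟨fun v a b q => ?_, fun v a b a' b' q q' => ?_, by simp [pl], by simp [pl]⟩
      · simp only [pl, mem_insert, mem_singleton, Prod.mk.injEq] at q
        rcases q with ⟨rfl, rfl, rfl⟩ | ⟨rfl, rfl, rfl⟩
        · exact ⟨cx, hu.1.symm, fxy.1, uy⟩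
        · exact ⟨cy, fxy.1.symm, hu'.1.symm, xu⟩
      · simp only [pl, mem_insert, mem_singleton, Prod.mk.injEq] at q q'
        grind
    obtain ⟨D, ob, od⟩ := h1 V s κ pl h ok
    have lc : ∀ v, Co s.G v → s.Loc κ D v := fun v c => by
      by_cases e : v = x
      · subst e
        exact loc (w := y) od c (X D).1 fun a q r => by simp [Pl.Us, pl] at q; grind
      by_cases e' : v = y
      · subst e'
        exact loc (w := x) od c y1 fun a q r => by simp [Pl.Us, pl] at q; grind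
      exact (h2 V s κ pl D v h ok ob od c ⟨rfl, fun w q => by simp [Pl.Us, pl, e, e'] at q⟩).1
    have a1 := od.tr x u y (by simp [pl])
    have a2 := od.tr y x u' (by simp [pl])
    have a3 := ob.ori _ _ fxy.1
    have a4 := ob.ori _ _ hu.1
    have a5 := ob.ori _ _ hu'.1
    by_cases q : D x y
    · exact fin h3 h st ob hQ ne lc (by tauto) hu k0 (X D).2.2.1 (yc D)
    · exact fin h3 h st ob (hQ.trans (pair_comm _ _)) ne.symm lc (by tauto) hu' k1 (Y D).1 (yc D)
  · let pl : Pl V := ⟨{(x, u, s.ρ)}, fun v => if v = s.ρ then some x else none, some s.ρ⟩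
    have ok : pl.Ok s.G := by
      refine ⟨fun v a b q => ?_, fun v a b a' b' q q' => ?_, fun v e q => ?_, by simp [pl]⟩
      · obtain ⟨rfl, rfl, rfl⟩ : v = x ∧ a = u ∧ b = s.ρ := by simpa [pl] using q
        exact ⟨cx, hu.1.symm, fxy.1, uy⟩
      · simp only [pl, mem_singleton, Prod.mk.injEq] at q q'
        grind
      · obtain ⟨rfl, rfl⟩ : v = s.ρ ∧ x = e := by simpa [pl] using q
        exact ⟨cy, by rw [y1]; decide, fxy.1.symm, by simp [pl, ne.symm]⟩
    obtain ⟨D, ob, od⟩ := h1 V s κ pl h ok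
    have a0 := od.hub s.ρ x rfl (by simp [pl])
    have a1 := od.tr x u s.ρ (by simp [pl])
    have a4 := ob.ori _ _ hu.1
    refine fin h3 h st ob hQ ne (fun v c => ?_) (by tauto) hu k0 (X D).2.2.1 (yc D)
    by_cases e : v = x
    · subst e
      exact loc (w := s.ρ) od c (X D).1 fun a q r => by simp [Pl.Us, pl, ne] at q; grind
    by_cases e' : v = s.ρ
    · subst e'
      refine ⟨fun _ => ?_, fun _ q => by omega, fun _ _ q => by omega⟩
      have b := (ob.smooth s.ρ (by rw [K]; omega)).1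
      obtain ⟨w, hw⟩ := card_pos.1 (show 0 < #(Out D s.ρ) by omega)
      replace hw : D s.ρ w := (mem_filter.1 hw).2
      have cw := (core h (ob.adj _ _ hw)).resolve_right fun q =>
        (ob.ori1 (re h c).1).noin _ (q.1 ▸ hw)
      refine ⟨w, mem_filter.2 ⟨mem_univ _, hw, ob.adj _ _ hw, c, cw, by_contra fun n => ?_⟩⟩
      have : 0 < dh s.G κ s.ρ :=
        card_pos.2 ⟨w, mem_filter.2 ⟨mem_univ _, ob.adj _ _ hw, c, cw, n⟩⟩
      have := cnt2 (κ := κ) h c
      omega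
    exact (h2 V s κ pl D v h ok ob od c
      ⟨if_neg e', fun w q => by simp [Pl.Us, pl, e, e'] at q⟩).1

end Pool.Agent.MP_d1f1f3_co.H2
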