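import Pool.Agent.MP_d1f1f3_co.H2.Spec3

/-!
Two vertices in debt, one of them with two separated neighbours.
-/

namespace Pool.Agent.MP_d1f1f3_co.H2

open Finset Relation H47
open scoped Classical

noncomputable section

namespace Jpair

variable {V : Type} [Fintype V] {s : Sg V} {κ : V → ZMod 2}

lemma fc_symm {G : SimpleGraph V} {u w : V} (h : Fc G κ u w) : Fc G κ w u :=
  ⟨h.1.symm, h.2.2.1, h.2.1, h.2.2.2.symm⟩

lemma hc_symm {G : SimpleGraph V} {u w : V} (h : Hc G κ u w) : Hc G κ w u :=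
  ⟨h.1.symm, h.2.2.1, h.2.1, h.2.2.2.symm⟩

lemma not_fc {G : SimpleGraph V} {u w : V} (h : Hc G κ u w) : ¬Fc G κ u w :=
  fun h' => h.2.2.2 h'.2.2.2

omit [Fintype V] in
lemma card_pair' (p : V → Prop) (a b : V) (ha : ¬p a) :
    (#(({a, b} : Finset V).filter p) : ℤ) = if p b then 1 else 0 := by
  rw [filter_insert, if_neg ha, filter_singleton]
  split_ifs <;> simp

lemma th1 (hT : s.TH κ) {v : V} (hv : Co s.G v) : -1 ≤ s.t κ v := by
  have h := hT {v} (by simpa using hv)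
  have h1 : ¬Fc s.G κ v v := fun h => h.1.ne rfl
  have h2 : ¬Hc s.G κ v v := fun h => h.1.ne rfl
  simp [Sg.Dl, H2.Dl, filter_singleton, h1, h2] at h
  omega

lemma th2 (hT : s.TH κ) {u v : V} (hu : Co s.G u) (hv : Co s.G v) (huv : u ≠ v) :
    -1 ≤ 2 * s.t κ u + 2 * s.t κ v + 2 + (if Fc s.G κ u v then 2 else 0) -
      (if Hc s.G κ u v then 2 else 0) := by
  have h := hT {u, v} (by
    intro w hw
    rcases mem_insert.1 hw with rfl | hw
    · exact hu
    · rw [mem_singleton.1 hw]; exact hv)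
  unfold Sg.Dl H2.Dl at h
  rw [sum_pair huv] at h
  have a1 := card_pair' (fun w => Fc s.G κ u w) u v (fun h => h.1.ne rfl)
  have a2 := card_pair' (fun w => Hc s.G κ u w) u v (fun h => h.1.ne rfl)
  have a3 := card_pair' (fun w => Fc s.G κ v w) v u (fun h => h.1.ne rfl)
  have a4 := card_pair' (fun w => Hc s.G κ v w) v u (fun h => h.1.ne rfl)
  rw [pair_comm v u] at a3 a4
  rw [a1, a2, a3, a4] at h
  have e1 : Fc s.G κ v u ↔ Fc s.G κ u v := ⟨fc_symm, fc_symm⟩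
  have e2 : Hc s.G κ v u ↔ Hc s.G κ u v := ⟨hc_symm, hc_symm⟩
  simp only [e1, e2, Nat.cast_zero, sum_const_zero, add_zero] at h
  split_ifs at h ⊢ <;> omega

lemma tau_pos {G : SimpleGraph V} {v : V} (hv : Co G v) : 1 ≤ tau G κ v := by
  unfold tau
  have h3 : 3 ≤ dg G v := hv
  split_ifs with h
  · obtain ⟨k, hk⟩ := h.2.1
    omega
  · omega

lemma neg_mem {D : V → V → Prop} {v : V} (h : (s.cx κ D).Neg v) : v ∈ s.Q κ := by
  refine mem_filter.2 ⟨mem_univ _, h.1, ?_⟩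
  have h2 : tau s.G κ v < df s.G κ v := h.2
  unfold Sg.t
  split_ifs <;> omega

lemma neg_df (hT : s.TH κ) {D : V → V → Prop} {v : V} (h : (s.cx κ D).Neg v) :
    (df s.G κ v : ℤ) = tau s.G κ v + 1 := by
  have h1 := th1 hT (v := v) h.1
  have h2 : tau s.G κ v < df s.G κ v := h.2
  unfold Sg.t at h1
  split_ifs at h1 <;> omega

lemma fo_fi {D : V → V → Prop} (hD : s.Ob D) (v : V) :
    #((s.cx κ D).Fo v) + #((s.cx κ D).Fi v) ≤ df s.G κ v := by
  rw [← card_union_of_disjoint]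
  · refine card_le_card fun w hw => mem_filter.2 ⟨mem_univ _, ?_⟩
    rcases mem_union.1 hw with h | h
    · exact (mem_filter.1 h).2.2
    · exact (mem_filter.1 h).2.2
  · refine disjoint_left.2 fun w h1 h2 => ?_
    have a1 := (mem_filter.1 h1).2
    have a2 := (mem_filter.1 h2).2
    exact (hD.ori v w a1.2.1).1 a1.1 a2.1

lemma re_of_core (hs : s.Ok) (h : Co s.G s.ρ) : s.Re := by
  rcases hs.root with ⟨h1, -⟩ | ⟨-, h1, -⟩
  · have : s.ρ ∈ N s.G s.z := by rw [h1]; exact mem_singleton_self _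
    exact (mem_filter.1 this).2
  · have h2 : 3 ≤ dg s.G s.ρ := h
    rw [h1, hs.iso] at h2
    omega

/-- The condition for an extra pair at a donor. -/
def Cond (s : Sg V) (κ : V → ZMod 2) (g : V) : Prop :=
  dg s.G g = 4 ∧ κ g = 0 ∧ df s.G κ g = 1

/-- The plan. -/
def plan (s : Sg V) (κ : V → ZMod 2) (x g₁ g₂ : V) : Pl V :=
  ⟨univ.filter fun p => p = (x, g₁, g₂) ∨
    ((p.1 = g₁ ∨ p.1 = g₂) ∧ Cond s κ p.1 ∧ Fc s.G κ p.1 p.2.1 ∧ p.2.2 = x),
    fun _ => none, none⟩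

lemma mem_plan {x g₁ g₂ v a b : V} : (v, a, b) ∈ (plan s κ x g₁ g₂).Tr ↔
    (v = x ∧ a = g₁ ∧ b = g₂) ∨ ((v = g₁ ∨ v = g₂) ∧ Cond s κ v ∧ Fc s.G κ v a ∧ b = x) := by
  simp [plan]

lemma plan_ok {x g₁ g₂ : V} (h1 : Hc s.G κ g₁ x) (h2 : Hc s.G κ g₂ x) (h12 : g₁ ≠ g₂) :
    (plan s κ x g₁ g₂).Ok s.G := by
  have hg : ∀ v, v = g₁ ∨ v = g₂ → Hc s.G κ v x := by
    rintro v (rfl | rfl)
    exacts [h1, h2]
  refine ⟨fun v a b h => ?_, fun v a b a' b' h h' => ?_, fun v e h => ?_, fun y h => ?_⟩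
  · rcases mem_plan.1 h with ⟨rfl, rfl, rfl⟩ | ⟨hv, -, hf, rfl⟩
    · exact ⟨h1.2.2.1, h1.1.symm, h2.1.symm, h12⟩
    · exact ⟨hf.2.1, hf.1, (hg v hv).1, fun e => not_fc (hg v hv) (e ▸ hf)⟩
  · left
    rcases mem_plan.1 h with ⟨e1, e2, e3⟩ | ⟨hv, hc, hf, e3⟩ <;>
      rcases mem_plan.1 h' with ⟨e1', e2', e3'⟩ | ⟨hv', hc', hf', e3'⟩
    · exact ⟨e2.trans e2'.symm, e3.trans e3'.symm⟩
    · exact absurd e1 (hg v hv').1.ne
    · exact absurd e1' (hg v hv).1.ne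
    · refine ⟨?_, e3.trans e3'.symm⟩
      exact card_le_one.1 hc.2.2.le a (mem_filter.2 ⟨mem_univ _, hf⟩) a'
        (mem_filter.2 ⟨mem_univ _, hf'⟩)
  · simp [plan] at h
  · simp [plan] at h

lemma plan_nat {x g₁ g₂ v : V} (h1 : Hc s.G κ g₁ x) (h2 : Hc s.G κ g₂ x)
    (hv : ¬((v = g₁ ∨ v = g₂) ∧ Cond s κ v)) : (plan s κ x g₁ g₂).Nat s.G κ v := by
  refine ⟨rfl, ?_⟩
  rintro w (⟨a, h | h⟩ | h)
  · rcases mem_plan.1 h with ⟨rfl, rfl, rfl⟩ | ⟨a1, a2, -⟩
    · exact not_fc (hc_symm h1)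
    · exact absurd ⟨a1, a2⟩ hv
  · rcases mem_plan.1 h with ⟨rfl, rfl, rfl⟩ | ⟨a1, a2, -⟩
    · exact not_fc (hc_symm h2)
    · exact absurd ⟨a1, a2⟩ hv
  · simp [plan] at h

/-- The certificate. -/
def cert (s : Sg V) (κ : V → ZMod 2) (D : V → V → Prop) (x y g : V) : Sg.Cd V :=
  ⟨{(g, x)}, some y, none, ∅,
    fun v => if h : ((s.cx κ D).Fo v).Nonempty then h.choose else v⟩

lemma pin_cert (D : V → V → Prop) (x y g v : V) :
    s.pin (cert s κ D x y g) v = if x = v then 1 else 0 := by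
  unfold Sg.pin cert
  rw [filter_singleton]
  split_ifs <;> simp

lemma pout_cert (D : V → V → Prop) (x y g v : V) :
    s.pout (cert s κ D x y g) v = if g = v then 1 else 0 := by
  unfold Sg.pout cert
  rw [filter_singleton]
  split_ifs <;> simp

lemma ins_le (D : V → V → Prop) (e : Sg.Cd V) (v : V) (h : s.ig κ D e v = ∅) :
    #(univ.filter fun a => D a v ∧ ¬Fc s.G κ v a) ≤ s.pin e v := by
  refine card_le_card_of_injOn (fun a => (a, v)) (fun a ha => ?_)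
    (fun a _ b _ hab => (Prod.mk.inj hab).1)
  have ha' := (mem_filter.1 (mem_coe.1 ha)).2
  refine mem_coe.2 (mem_filter.2 ⟨?_, rfl⟩)
  by_contra hn
  have : a ∈ s.ig κ D e v := mem_filter.2 ⟨mem_univ _, ha'.1, ha'.2, hn⟩
  rw [h] at this
  exact notMem_empty _ this

lemma cj {D : V → V → Prop} {x y g : V} (hs : s.Ok) (hT : s.TH κ) (hQ : s.Q κ = {x, y})
    (hxy : x ≠ y) (hE : s.NoE κ)
    (hc : x = s.ρ ∨ y = s.ρ ∨ (Even (dg s.G x) ∧ Even (dg s.G y))) (hD : s.Ob D)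
    (hg : Hc s.G κ g x) (hgx : D g x) (hloc : ∀ v, Co s.G v → s.Loc κ D v)
    (hnat : ∀ v ∈ s.Q κ, df s.G κ v / 2 ≤ #((s.cx κ D).Fo v) ∧
      df s.G κ v / 2 ≤ #((s.cx κ D).Fi v) ∧
      (dg s.G v - df s.G κ v) / 2 ≤ #(univ.filter fun a => D a v ∧ ¬Fc s.G κ v a))
    (hcond : Cond s κ g → ∀ w, Fc s.G κ g w → ¬D g w) : s.Cj κ D (cert s κ D x y g) := by
  have hx : x ∈ s.Q κ := by rw [hQ]; simp
  have hy : y ∈ s.Q κ := by rw [hQ]; simp
  have hmem : ∀ v ∈ s.Q κ, v = x ∨ v = y := by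
    intro v hv
    rw [hQ] at hv
    simpa using hv
  obtain ⟨cx, tx⟩ := (mem_filter.1 hx).2
  obtain ⟨cy, ty⟩ := (mem_filter.1 hy).2
  have fxy : Fc s.G κ x y := by
    by_contra hn
    have := th2 hT cx cy hxy
    rw [if_neg hn] at this
    split_ifs at this <;> omega
  have tg : 1 ≤ s.t κ g := by
    have := th2 hT hg.2.1 cx hg.1.ne
    rw [if_neg (not_fc hg), if_pos hg] at this
    omega
  have py : s.pin (cert s κ D x y g) y = 0 := by rw [pin_cert, if_neg hxy]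
  have hPi : ∀ v ∈ s.Pi κ D (cert s κ D x y g), v ∈ s.Q κ ∧ v ≠ s.ρ := by
    intro v hv
    obtain ⟨h1, -, h3, -⟩ := (mem_filter.1 hv).2
    exact ⟨neg_mem h1, fun e => h3 ⟨e, re_of_core hs (e ▸ h1.1)⟩⟩
  have hpin : ∀ v, s.pin (cert s κ D x y g) v ≤ 1 := by
    intro v
    rw [pin_cert]
    split_ifs <;> omega
  refine ⟨hT, hloc, ?_, ?_, hpin, ?_, ?_, ?_, ?_, ?_, ?_, ?_, ?_, ?_, ?_⟩
  · intro a ha
    rw [mem_singleton.1 ha]
    exact ⟨hgx, hg, tg, tx.le⟩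
  · intro v
    rw [pout_cert]
    split_ifs <;> omega
  · intro v hv
    rcases hmem v hv with rfl | rfl
    · left; rw [pin_cert, if_pos rfl]
    · right; left; rfl
  · intro v hv
    obtain rfl : y = v := Option.some.inj hv
    exact ⟨hy, py⟩
  · intro a ha hn _
    rw [mem_singleton.1 ha] at hn ⊢
    have hur : s.Ur κ x := by
      by_contra h
      refine hn ⟨cx, ?_⟩
      unfold Sg.t at tx
      rw [if_neg h] at tx
      change tau s.G κ x < df s.G κ x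
      omega
    obtain ⟨e1, e2, -⟩ := hur
    have ho := hD.ori1 e2
    have hz : ¬Co s.G s.z := fun h => ho.kz (le_trans (by norm_num) h)
    refine ⟨⟨s.z, mem_filter.2 ⟨mem_univ _, ?_, fun h => hz h.2.2.1, fun h => hz ?_⟩⟩, ?_⟩
    · change D s.z x
      rw [e1]; exact ho.root
    · rw [(Prod.mk.inj (mem_singleton.1 h)).1]
      exact hg.2.1
    · by_cases h1 : df s.G κ x = 1
      · refine Or.inr fun w hw => ?_
        obtain rfl : y = w := card_le_one.1 h1.le y (mem_filter.2 ⟨mem_univ _, fxy⟩) w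
          (mem_filter.2 ⟨mem_univ _, (mem_filter.1 hw).2.2⟩)
        refine ⟨?_, py⟩
        have h2 := tau_pos (κ := κ) cy
        unfold Sg.t at ty
        rw [if_neg fun h => hxy (e1.trans h.1.symm)] at ty
        omega
      · exact Or.inl h1
  · refine (card_le_card (t := {x, y}) fun v hv => hQ ▸ (hPi v hv).1).trans card_le_two
  · intro v hv
    obtain ⟨h1, h2, -, h4⟩ := (mem_filter.1 hv).2
    obtain ⟨n1, n2, n3⟩ := hnat v (hPi v hv).1
    have a1 := neg_df hT h1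
    have a2 := tau_pos (κ := κ) (G := s.G) (v := v) h1.1
    have a3 := fo_fi (κ := κ) hD v
    have a4 : ((s.cx κ D).Fo v).Nonempty := card_pos.1 (by omega)
    refine ⟨?_, ?_, fun _ => card_pos.1 (by omega)⟩
    · change (if h : ((s.cx κ D).Fo v).Nonempty then h.choose else v) ∈ _
      rw [dif_pos a4]
      exact a4.choose_spec
    · rcases h4 with h4 | ⟨h4, -⟩
      · have a5 := ins_le D _ v h4
        have a6 := hpin v
        unfold tau at a1
        rcases h2 with ⟨-, h2⟩ | ⟨-, h2, -⟩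
        · have h2' : Wv s.G κ v := h2
          obtain ⟨k, hk⟩ := h2'.2.1
          rw [if_pos h2'] at a1
          omega
        · obtain ⟨k, hk⟩ : Odd (dg s.G v) := h2
          split_ifs at a1 <;> omega
      · omega
  · intro f hf k0 _ u hu huf
    exfalso
    have hyPi : y ∈ s.Pi κ D (cert s κ D x y g) ∧ x ∈ s.Pi κ D (cert s κ D x y g) ∧ κ y = 0 := by
      rcases hmem f (hPi f hf).1 with rfl | rfl <;> rcases hmem u (hPi u hu).1 with rfl | rfl
      · exact absurd rfl huf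
      · exact ⟨hu, hf, fxy.2.2.2 ▸ k0⟩
      · exact ⟨hf, hu, k0⟩
      · exact absurd rfl huf
    obtain ⟨b1, b2, b3⟩ := hyPi
    have ev : Even (dg s.G y) :=
      ((hc.resolve_left (hPi x b2).2).resolve_left (hPi y b1).2).2
    obtain ⟨h1, h2, -, h4⟩ := (mem_filter.1 b1).2
    rcases h4 with h4 | ⟨-, h4⟩
    · have a5 := ins_le D _ y h4
      obtain ⟨-, -, n3⟩ := hnat y hy
      have a1 := neg_df hT h1
      have c3 : 3 ≤ dg s.G y := cy
      unfold tau at a1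
      rcases h2 with ⟨-, h2⟩ | ⟨-, h2, -⟩
      · have h2' : Wv s.G κ y := h2
        obtain ⟨k, hk⟩ := ev
        rw [if_pos h2'] at a1
        omega
      · exact (Nat.not_even_iff_odd.2 h2) ev
    · refine h4 ⟨rfl, fun h => ?_⟩
      rw [b3] at h
      exact absurd h (by decide)
  · intro p hp
    exact absurd hp (notMem_empty _)
  · intro p hp k0
    obtain rfl : g = p := by
      rcases hp with hp | hp
      · exact absurd hp (notMem_empty _)
      · rw [pout_cert] at hp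
        by_contra h
        rw [if_neg h] at hp
        omega
    refine ⟨fun w => hE x hx g w hg, fun u hu k1 => ?_⟩
    exfalso
    refine hg.2.2.2 (k0.trans ?_)
    rcases hmem u (neg_mem hu) with rfl | rfl
    · exact k1.symm
    · exact (fxy.2.2.2.trans k1).symm
  · intro u w hw d1 _ d4 k0 hp
    exfalso
    obtain rfl : g = u := by
      rw [pout_cert] at hp
      by_contra h
      rw [if_neg h] at hp
      omega
    exact hcond ⟨d4, k0, d1⟩ w (mem_filter.1 hw).2.2 (mem_filter.1 hw).2.1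
  · intro b hb
    exact absurd hb (by simp [cert])

end Jpair

open Jpair in
theorem jpair : SJpair := by
  rintro ⟨hO, hN, hC⟩ V _ s j κ x y hs ⟨hP, hT, -⟩ hQ hxy hE h2 hc
  obtain ⟨g₁, m1, g₂, m2, h12⟩ := one_lt_card.1 (show 1 < #(univ.filter fun w => Hc s.G κ x w)
    from h2)
  have h1 : Hc s.G κ g₁ x := hc_symm (mem_filter.1 m1).2
  have h2 : Hc s.G κ g₂ x := hc_symm (mem_filter.1 m2).2
  have hok := plan_ok h1 h2 h12
  obtain ⟨D, hD, hOd⟩ := hO V s κ _ hs hok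
  have hx : x ∈ s.Q κ := by rw [hQ]; simp
  have hloc : ∀ v, Co s.G v → s.Loc κ D v := by
    intro v hv
    by_cases h : (v = g₁ ∨ v = g₂) ∧ Cond s κ v
    · obtain ⟨-, d4, -, d1⟩ := h
      have ho : ¬Odd (dg s.G v) := by rw [d4]; decide
      exact ⟨fun h => by omega, fun h => absurd h ho, fun h => absurd h.2.1 ho⟩
    · exact (hN V s κ _ D v hs hok hD hOd hv (plan_nat h1 h2 h)).1
  have hnat : ∀ v ∈ s.Q κ, df s.G κ v / 2 ≤ #((s.cx κ D).Fo v) ∧
      df s.G κ v / 2 ≤ #((s.cx κ D).Fi v) ∧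
      (dg s.G v - df s.G κ v) / 2 ≤ #(univ.filter fun a => D a v ∧ ¬Fc s.G κ v a) := by
    intro v hv
    obtain ⟨cv, tv⟩ := (mem_filter.1 hv).2
    obtain ⟨cx, tx⟩ := (mem_filter.1 hx).2
    refine (hN V s κ _ D v hs hok hD hOd cv (plan_nat h1 h2 fun h => ?_)).2
    have hv' : Hc s.G κ v x := by
      rcases h.1 with rfl | rfl
      exacts [h1, h2]
    have := th2 hT cv cx hv'.1.ne
    rw [if_neg (not_fc hv'), if_pos hv'] at this
    omega
  have key : ∀ g, g = g₁ ∨ g = g₂ → Hc s.G κ g x → D g x → s.Sol := by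
    intro g hg hgc hgx
    refine ⟨κ, D, hP, hD, hC V s κ D _ hs hD
      (cj hs hT hQ hxy hE hc hD hgc hgx hloc hnat fun hcd w hw hd => ?_)⟩
    exact (hOd.tr g w x (mem_plan.2 (Or.inr ⟨hg, hcd, hw, rfl⟩))).1 hd hgx
  have htr := hOd.tr x g₁ g₂ (mem_plan.2 (Or.inl ⟨rfl, rfl, rfl⟩))
  by_cases hd : D x g₁
  · exact key g₂ (Or.inr rfl) h2 ((hD.ori g₂ x h2.1).2 (htr.1 hd))
  · exact key g₁ (Or.inl rfl) h1 ((hD.ori g₁ x h1.1).2 hd)

end

end Pool.Agent.MP_d1f1f3_co.H2
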