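import Pool.Agent.MP_d1f1f3_co.H2.Jt1a

/-!
A trail through all vertices in debt: the plans.
-/

namespace Pool.Agent.MP_d1f1f3_co.H2

open Finset Relation H47
open scoped Classical

noncomputable section

namespace Jt1

variable {V : Type} [Fintype V] {s : Sg V} {κ : V → ZMod 2}

/-- Arcs coming in among the free edges and the prescribed ones. -/
theorem free {pl : Pl V} {D : V → V → Prop} (hO : pl.Od s.G κ D) {v : V} (hv : Co s.G v) (S : Finset V)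
    (hS : ∀ w, pl.Us v w → Fc s.G κ v w ∨ w ∈ S) (hS' : ∀ w ∈ S, pl.Us v w ∧ ¬Fc s.G κ v w) :
    #(S.filter fun w => D w v) + (#(Hn s κ v) - #S) / 2 ≤ #(Hi s κ D v) := by
  have h1 : Hn s κ v \ S ⊆ pl.Hr s.G κ v := by
    intro w hw
    rw [mem_sdiff] at hw
    obtain ⟨h2, h3⟩ := mem_filter.mp hw.1
    exact mem_filter.mpr ⟨h2, h3, fun h => (hS w h).elim h3 hw.2⟩
  have h2 := (le_card_sdiff S (Hn s κ v)).trans (card_le_card h1)
  have h3 := hO.hi v hv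
  have h4 : Disjoint (S.filter fun w => D w v) ((pl.Hr s.G κ v).filter fun w => D w v) := by
    rw [disjoint_left]
    intro w hw hw'
    exact (mem_filter.mp (mem_filter.mp hw').1).2.2 (hS' w (mem_filter.mp hw).1).1
  have h5 : (S.filter fun w => D w v) ∪ ((pl.Hr s.G κ v).filter fun w => D w v) ⊆ Hi s κ D v := by
    intro w hw
    rcases mem_union.mp hw with hw | hw
    · rw [mem_filter] at hw
      exact mem_filter.mpr ⟨mem_univ _, hw.2, (hS' w hw.1).2⟩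
    · rw [mem_filter] at hw
      exact mem_filter.mpr ⟨mem_univ _, hw.2, (mem_filter.mp hw.1).2.1⟩
  have h6 := card_le_card h5
  rw [card_union_of_disjoint h4] at h6
  omega

/-- The pairs along the trail. -/
def S2 (mx : Prop) (n : ℕ) (x u : ℕ → V) (y3 : V → V) (v a b : V) : Prop :=
  (∃ i, 1 ≤ i ∧ i ≤ n ∧ v = u i ∧ a = x i ∧ b = x (i + 1)) ∨
  (∃ i, 1 ≤ i ∧ i < n ∧ v = x (i + 1) ∧ a = u i ∧ b = u (i + 1)) ∨
  (mx ∧ b = y3 v ∧ ((v = x 1 ∧ a = u 1) ∨ (v = x (n + 1) ∧ a = u n)))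

/-- The plan. -/
def plan (Q : Finset V) (mx : Prop) (n : ℕ) (x u : ℕ → V) (y1 y2 y3 : V → V) (hy : Option V) (he : V) :
    Pl V :=
  ⟨univ.filter fun p => (p.1 ∈ Q ∧ p.2.1 = y1 p.1 ∧ p.2.2 = y2 p.1) ∨ S2 mx n x u y3 p.1 p.2.1 p.2.2,
    fun v => if hy = some v then some he else none, hy⟩

theorem design (hO : SOri3) (hN : SNat) (ho : s.Ok) (hT : s.TH κ) {n : ℕ} {x u : ℕ → V} (h2 : 2 ≤ n)
    (tr : s.Trl κ (n + 1) x u) (mx : Prop) (y1 y2 y3 : V → V) (hy : Option V) (he : V)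
    (h12 : ∀ v ∈ s.Q κ, y1 v ∈ s.Q κ ∧ y2 v ∈ s.Q κ ∧ y1 v ≠ v ∧ y2 v ≠ v ∧ y1 v ≠ y2 v)
    (h3 : mx → ∀ v ∈ s.Q κ, y3 v ∈ s.Q κ ∧ y3 v ≠ v ∧ y3 v ≠ y1 v ∧ y3 v ≠ y2 v)
    (hh' : ∀ y, hy = some y → Odd (dg s.G y) ∧ ((¬mx ∧ y = x (n + 1) ∧ he = u n) ∨
      (mx ∧ ∃ i, 1 ≤ i ∧ i < n ∧ y = x (i + 1) ∧ he = y3 y))) :
    ∃ D, s.Ob D ∧ (∀ v, Co s.G v → v ∉ s.Q κ → s.Loc κ D v) ∧
      (∀ v ∈ s.Q κ, (∃ w ∈ s.Q κ, D v w) ∧ ∃ w ∈ s.Q κ, D w v) ∧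
      (∀ i, 1 ≤ i → i ≤ n → (D (u i) (x i) ↔ ¬D (u i) (x (i + 1)))) ∧
      ((∀ i, 1 ≤ i → i ≤ n → D (u i) (x (i + 1))) ∨ ∀ i, 1 ≤ i → i ≤ n → D (u i) (x i)) ∧
      (∀ y, hy = some y → D he y ∧ ¬(s.cx κ D).Yc y) ∧
      (∀ i, 1 ≤ i → i < n → hy ≠ some (x (i + 1)) →
        1 + (#(Hn s κ (x (i + 1))) - 2) / 2 ≤ #(Hi s κ D (x (i + 1)))) ∧
      ∀ v g, (v = x 1 ∧ g = u 1) ∨ (v = x (n + 1) ∧ g = u n) → hy ≠ some v →
        (¬mx → #(Hn s κ v) / 2 ≤ #(Hi s κ D v)) ∧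
        (mx → (if D g v then 1 else 0) + (#(Hn s κ v) - 1) / 2 ≤ #(Hi s κ D v)) := by
  have hxQ : ∀ i, 1 ≤ i → i ≤ n + 1 → x i ∈ s.Q κ := tr.mem
  have ha1 : ∀ i, 1 ≤ i → i ≤ n → Hc s.G κ (u i) (x i) := fun i i1 i2 => (tr.adj i i1 (by omega)).1
  have ha2 : ∀ i, 1 ≤ i → i ≤ n → Hc s.G κ (u i) (x (i + 1)) := fun i i1 i2 => (tr.adj i i1 (by omega)).2
  have huQ : ∀ i, 1 ≤ i → i ≤ n → u i ∉ s.Q κ := fun i i1 i2 =>
    don_not hT (hxQ i i1 (by omega)) (ha1 i i1 i2)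
  have hxi : ∀ i k, 1 ≤ i → i ≤ n + 1 → 1 ≤ k → k ≤ n + 1 → x i = x k → i = k := tr.xi
  have hui : ∀ i k, 1 ≤ i → i ≤ n → 1 ≤ k → k ≤ n → u i = u k → i = k := fun i k i1 i2 k1 k2 h =>
    tr.ui i k i1 (by omega) k1 (by omega) h
  have sdon : ∀ v a b, v ∉ s.Q κ → S2 mx n x u y3 v a b →
      ∃ i, 1 ≤ i ∧ i ≤ n ∧ v = u i ∧ a = x i ∧ b = x (i + 1) := by
    rintro v a b hv (h | ⟨i, i1, i2, rfl, -⟩ | ⟨-, -, ⟨rfl, -⟩ | ⟨rfl, -⟩⟩)
    · exact h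
    · exact absurd (hxQ _ (by omega) (by omega)) hv
    · exact absurd (hxQ _ (by omega) (by omega)) hv
    · exact absurd (hxQ _ (by omega) (by omega)) hv
  have sinn : ∀ i a b, 1 ≤ i → i < n → S2 mx n x u y3 (x (i + 1)) a b → a = u i ∧ b = u (i + 1) := by
    rintro i a b i1 i2 (⟨k, k1, k2, h, -⟩ | ⟨k, k1, k2, h, rfl, rfl⟩ | ⟨-, -, ⟨h, -⟩ | ⟨h, -⟩⟩)
    · exact absurd (h ▸ hxQ _ (by omega) (by omega)) (huQ k k1 k2)
    · have := hxi _ _ (by omega) (by omega) (by omega) (by omega) h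
      rw [Nat.add_right_cancel this]
      exact ⟨rfl, rfl⟩
    · have := hxi _ _ (by omega) (by omega) (by omega) (by omega) h
      omega
    · have := hxi _ _ (by omega) (by omega) (by omega) (by omega) h
      omega
  have send : ∀ v g a b, (v = x 1 ∧ g = u 1) ∨ (v = x (n + 1) ∧ g = u n) → S2 mx n x u y3 v a b →
      mx ∧ a = g ∧ b = y3 v := by
    rintro v g a b hv (⟨k, k1, k2, h, -⟩ | ⟨k, k1, k2, h, -⟩ | ⟨hm, hb, h⟩)
    · rcases hv with ⟨hv, -⟩ | ⟨hv, -⟩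
      · exact absurd (h ▸ hv ▸ hxQ _ (by omega) (by omega)) (huQ k k1 k2)
      · exact absurd (h ▸ hv ▸ hxQ _ (by omega) (by omega)) (huQ k k1 k2)
    · rcases hv with ⟨hv, -⟩ | ⟨hv, -⟩
      · have := hxi _ _ (by omega) (by omega) (by omega) (by omega) (h.symm.trans hv)
        omega
      · have := hxi _ _ (by omega) (by omega) (by omega) (by omega) (h.symm.trans hv)
        omega
    · refine ⟨hm, ?_, hb⟩
      rcases hv with ⟨hv, rfl⟩ | ⟨hv, rfl⟩ <;> rcases h with ⟨h, rfl⟩ | ⟨h, rfl⟩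
      · rfl
      · have := hxi _ _ (by omega) (by omega) (by omega) (by omega) (h.symm.trans hv)
        omega
      · have := hxi _ _ (by omega) (by omega) (by omega) (by omega) (h.symm.trans hv)
        omega
      · rfl
  have hend : ∀ v g, (v = x 1 ∧ g = u 1) ∨ (v = x (n + 1) ∧ g = u n) →
      v ∈ s.Q κ ∧ g ∉ s.Q κ ∧ Hc s.G κ g v := by
    rintro v g (⟨rfl, rfl⟩ | ⟨rfl, rfl⟩)
    · exact ⟨hxQ _ (by omega) (by omega), huQ _ (by omega) (by omega), ha1 _ (by omega) (by omega)⟩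
    · exact ⟨hxQ _ (by omega) (by omega), huQ _ (by omega) (by omega), ha2 _ (by omega) (by omega)⟩
  have sadj : ∀ v a b, S2 mx n x u y3 v a b → Co s.G v ∧ s.G.Adj v a ∧ s.G.Adj v b ∧ a ≠ b ∧
      (v ∈ s.Q κ → a ∉ s.Q κ ∧ b ≠ y1 v ∧ b ≠ y2 v) := by
    rintro v a b (⟨k, k1, k2, rfl, rfl, rfl⟩ | ⟨k, k1, k2, rfl, rfl, rfl⟩ | ⟨hm, rfl, h⟩)
    · refine ⟨(ha1 k k1 k2).2.1, (ha1 k k1 k2).1, (ha2 k k1 k2).1, fun h => ?_,
        fun h => absurd h (huQ k k1 k2)⟩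
      have := hxi _ _ (by omega) (by omega) (by omega) (by omega) h
      omega
    · refine ⟨(ha2 k k1 (by omega)).2.2.1, (ha2 k k1 (by omega)).1.symm,
        (ha1 (k + 1) (by omega) (by omega)).1.symm, fun h => ?_, fun h => ⟨huQ k k1 (by omega), ?_, ?_⟩⟩
      · have := hui _ _ (by omega) (by omega) (by omega) (by omega) h
        omega
      · exact fun h' => huQ (k + 1) (by omega) (by omega) (h' ▸ (h12 _ h).1)
      · exact fun h' => huQ (k + 1) (by omega) (by omega) (h' ▸ (h12 _ h).2.1)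
    · obtain ⟨e1, e2, e3⟩ := hend v a h
      obtain ⟨f1, f2, f3, f4⟩ := h3 hm v e1
      exact ⟨e3.2.2.1, e3.1.symm, (memF hT e1 f1 f2.symm).1, fun h' => e2 (h' ▸ f1), fun _ => ⟨e2, f3, f4⟩⟩
  have suniq : ∀ v a b a' b', S2 mx n x u y3 v a b → S2 mx n x u y3 v a' b' → a = a' ∧ b = b' := by
    rintro v a b a' b' (⟨k, k1, k2, rfl, rfl, rfl⟩ | ⟨k, k1, k2, rfl, rfl, rfl⟩ | ⟨hm, rfl, h⟩) h'
    · obtain ⟨i, i1, i2, e, rfl, rfl⟩ := sdon _ _ _ (huQ k k1 k2) h'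
      rw [hui k i k1 k2 i1 i2 e]
      exact ⟨rfl, rfl⟩
    · obtain ⟨rfl, rfl⟩ := sinn k _ _ k1 k2 h'
      exact ⟨rfl, rfl⟩
    · obtain ⟨-, rfl, rfl⟩ := send v a _ _ h h'
      exact ⟨rfl, rfl⟩
  have hh : ∀ y, hy = some y → y ∈ s.Q κ ∧ Odd (dg s.G y) ∧ s.G.Adj y he ∧ he ≠ y1 y ∧ he ≠ y2 y ∧
      ∀ a b, S2 mx n x u y3 y a b → he ≠ a ∧ he ≠ b := by
    intro y h
    obtain ⟨f1, ⟨hm, f2⟩ | ⟨hm, i, i1, i2, rfl, rfl⟩⟩ := hh' y h
    · obtain ⟨e1, e2, e3⟩ := hend y he (Or.inr f2)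
      exact ⟨e1, f1, e3.1.symm, fun h' => e2 (h' ▸ (h12 y e1).1), fun h' => e2 (h' ▸ (h12 y e1).2.1),
        fun a b h' => absurd (send y he a b (Or.inr f2) h').1 hm⟩
    · have e1 := hxQ (i + 1) (by omega) (by omega)
      obtain ⟨g1, g2, g3, g4⟩ := h3 hm _ e1
      refine ⟨e1, f1, (memF hT e1 g1 g2.symm).1, g3, g4, fun a b h' => ?_⟩
      obtain ⟨rfl, rfl⟩ := sinn i a b i1 i2 h'
      exact ⟨fun h' => huQ i i1 (by omega) (h' ▸ g1), fun h' => huQ (i + 1) (by omega) (by omega) (h' ▸ g1)⟩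
  obtain ⟨pl, hTr, hun, hhub⟩ : ∃ pl : Pl V,
      (∀ v a b, (v, a, b) ∈ pl.Tr ↔ (v ∈ s.Q κ ∧ a = y1 v ∧ b = y2 v) ∨ S2 mx n x u y3 v a b) ∧
      (∀ v, pl.un v = if hy = some v then some he else none) ∧ pl.hub = hy :=
    ⟨plan (s.Q κ) mx n x u y1 y2 y3 hy he, fun v a b => by simp only [plan, mem_filter, mem_univ, true_and],
      fun _ => rfl, rfl⟩
  have hun' : ∀ v e, pl.un v = some e → hy = some v ∧ e = he := by
    intro v e h
    rw [hun] at h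
    split_ifs at h with h'
    exact ⟨h', (Option.some.inj h).symm⟩
  have hpl : pl.Ok s.G := by
    refine ⟨fun v a b h => ?_, fun v a b a' b' h h' => ?_, fun v e h => ?_, fun y h => ?_⟩
    · rcases (hTr v a b).mp h with ⟨hv, rfl, rfl⟩ | h
      · obtain ⟨f1, f2, f3, f4, f5⟩ := h12 v hv
        exact ⟨(mem_Q.mp hv).1, (memF hT hv f1 f3.symm).1, (memF hT hv f2 f4.symm).1, f5⟩
      · obtain ⟨f1, f2, f3, f4, -⟩ := sadj v a b h
        exact ⟨f1, f2, f3, f4⟩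
    · rcases (hTr v a b).mp h with ⟨hv, rfl, rfl⟩ | h <;> rcases (hTr v a' b').mp h' with ⟨hv', rfl, rfl⟩ | h'
      · exact Or.inl ⟨rfl, rfl⟩
      · obtain ⟨f1, f2, f3⟩ := (sadj v a' b' h').2.2.2.2 hv
        exact Or.inr ⟨fun e => f1 (e ▸ (h12 v hv).1), f2.symm, fun e => f1 (e ▸ (h12 v hv).2.1), f3.symm⟩
      · obtain ⟨f1, f2, f3⟩ := (sadj v a b h).2.2.2.2 hv'
        exact Or.inr ⟨fun e => f1 (e ▸ (h12 v hv').1), fun e => f1 (e ▸ (h12 v hv').2.1), f2, f3⟩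
      · exact Or.inl (suniq v a b a' b' h h')
    · obtain ⟨e1, rfl⟩ := hun' v e h
      obtain ⟨f1, f2, f3, f4, f5, f6⟩ := hh v e1
      refine ⟨(mem_Q.mp f1).1, f2, f3, fun a => ⟨fun h => ?_, fun h => ?_⟩⟩
      · rcases (hTr _ _ _).mp h with h | h
        · exact f4 h.2.1
        · exact (f6 _ _ h).1 rfl
      · rcases (hTr _ _ _).mp h with h | h
        · exact f5 h.2.2
        · exact (f6 _ _ h).2 rfl
    · rw [hhub] at h
      exact ⟨he, by rw [hun, if_pos h]⟩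
  have hUs : ∀ v w, hy ≠ some v → pl.Us v w →
      (v ∈ s.Q κ ∧ Fc s.G κ v w) ∨ ∃ a b, S2 mx n x u y3 v a b ∧ (w = a ∨ w = b) := by
    rintro v w hv (⟨a, h | h⟩ | h)
    · rcases (hTr _ _ _).mp h with ⟨h1, rfl, -⟩ | h
      · exact Or.inl ⟨h1, memF hT h1 (h12 v h1).1 (h12 v h1).2.2.1.symm⟩
      · exact Or.inr ⟨_, _, h, Or.inl rfl⟩
    · rcases (hTr _ _ _).mp h with ⟨h1, -, rfl⟩ | h
      · exact Or.inl ⟨h1, memF hT h1 (h12 v h1).2.1 (h12 v h1).2.2.2.1.symm⟩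
      · exact Or.inr ⟨_, _, h, Or.inr rfl⟩
    · exact absurd (hun' v w h).1 hv
  obtain ⟨D, hD, hOd⟩ := hO V s κ pl ho hpl
  have hd1 : ∀ i, 1 ≤ i → i ≤ n → (D (u i) (x i) ↔ ¬D (u i) (x (i + 1))) := fun i i1 i2 =>
    hOd.tr _ _ _ ((hTr _ _ _).mpr (Or.inr (Or.inl ⟨i, i1, i2, rfl, rfl, rfl⟩)))
  have hd2 : ∀ i, 1 ≤ i → i < n → (D (u i) (x (i + 1)) ↔ ¬D (u (i + 1)) (x (i + 1))) := by
    intro i i1 i2
    have e1 := hOd.tr (x (i + 1)) (u i) (u (i + 1))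
      ((hTr _ _ _).mpr (Or.inr (Or.inr (Or.inl ⟨i, i1, i2, rfl, rfl, rfl⟩))))
    have e2 := hD.ori _ _ (ha2 i i1 (by omega)).1
    have e3 := hD.ori _ _ (ha1 (i + 1) (by omega) (by omega)).1
    tauto
  have hd3 : ∀ i, 1 ≤ i → i ≤ n → (D (u i) (x (i + 1)) ↔ D (u 1) (x (1 + 1))) := by
    intro i i1
    induction i, i1 using Nat.le_induction with
    | base => exact fun _ => Iff.rfl
    | succ k k1 ih =>
      intro k2
      have e1 := ih (by omega)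
      have e2 := hd2 k k1 (by omega)
      have e3 := hd1 (k + 1) (by omega) k2
      tauto
  refine ⟨D, hD, fun v hv hQ => ?_, fun v hv => ?_, hd1, ?_, fun y h => ?_, fun i i1 i2 hne => ?_,
    fun v g hv hne => ?_⟩
  · have hne : hy ≠ some v := fun h => hQ (hh v h).1
    refine (hN V s κ pl D v ho hpl hD hOd hv ⟨by rw [hun, if_neg hne], fun w hw => ?_⟩).1
    rcases hUs v w hne hw with h | ⟨a, b, h, hw⟩
    · exact absurd h.1 hQ
    · obtain ⟨i, i1, i2, rfl, rfl, rfl⟩ := sdon v a b hQ h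
      rcases hw with rfl | rfl
      · exact hc_not_fc (ha1 i i1 i2)
      · exact hc_not_fc (ha2 i i1 i2)
  · obtain ⟨f1, f2, f3, f4, -⟩ := h12 v hv
    have e1 := hOd.tr v (y1 v) (y2 v) ((hTr _ _ _).mpr (Or.inl ⟨hv, rfl, rfl⟩))
    have e2 := hD.ori _ _ (memF hT f1 hv f3).1
    have e3 := hD.ori _ _ (memF hT f2 hv f4).1
    by_cases h : D v (y1 v)
    · exact ⟨⟨_, f1, h⟩, _, f2, e3.mpr (e1.mp h)⟩
    · exact ⟨⟨_, f2, by tauto⟩, _, f1, e2.mpr h⟩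
  · by_cases h : D (u 1) (x (1 + 1))
    · exact Or.inl fun i i1 i2 => (hd3 i i1 i2).mpr h
    · exact Or.inr fun i i1 i2 => (hd1 i i1 i2).mpr fun h' => h ((hd3 i i1 i2).mp h')
  · have e0 : pl.un y = some he := by rw [hun, if_pos h]
    have e1 := hOd.hub y he (hhub.trans h) e0
    obtain ⟨-, f2, f3, -⟩ := hh y h
    refine ⟨e1, ?_⟩
    rintro (hW | hTo)
    · exact (Nat.not_even_iff_odd.mpr f2) hW.2.2.1
    · exact (hD.ori _ _ f3).mp ((hOd.un y he e0).mpr hTo.2.2) e1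
  · have hab : u i ≠ u (i + 1) := fun h => by
      have := hui _ _ (by omega) (by omega) (by omega) (by omega) h
      omega
    have hm : (x (i + 1), u i, u (i + 1)) ∈ pl.Tr :=
      (hTr _ _ _).mpr (Or.inr (Or.inr (Or.inl ⟨i, i1, i2, rfl, rfl, rfl⟩)))
    have key := free hOd (ha2 i i1 (by omega)).2.2.1 {u i, u (i + 1)} (fun w hw => by
      rcases hUs _ w hne hw with h | ⟨a, b, h, hw⟩
      · exact Or.inl h.2
      · obtain ⟨rfl, rfl⟩ := sinn i a b i1 i2 h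
        exact Or.inr (by simpa using hw)) (fun w hw => by
      rcases mem_insert.mp hw with rfl | hw
      · exact ⟨Or.inl ⟨_, Or.inl hm⟩, hc_not_fc (hc_symm (ha2 i i1 (by omega)))⟩
      · rw [mem_singleton.mp hw]
        exact ⟨Or.inl ⟨_, Or.inr hm⟩, hc_not_fc (hc_symm (ha1 (i + 1) (by omega) (by omega)))⟩)
    have hpos : 0 < #(({u i, u (i + 1)} : Finset V).filter fun w => D w (x (i + 1))) := by
      rw [card_pos]
      by_cases h : D (u i) (x (i + 1))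
      · exact ⟨u i, mem_filter.mpr ⟨by simp, h⟩⟩
      · have := hd2 i i1 i2
        exact ⟨u (i + 1), mem_filter.mpr ⟨by simp, by tauto⟩⟩
    rw [card_pair hab] at key
    omega
  · obtain ⟨e1, e2, e3⟩ := hend v g hv
    refine ⟨fun hm => ?_, fun hm => ?_⟩
    · have key := free hOd e3.2.2.1 ∅ (fun w hw => by
        rcases hUs _ w hne hw with h | ⟨a, b, h, -⟩
        · exact Or.inl h.2
        · exact absurd (send v g a b hv h).1 hm) (fun w hw => absurd hw (notMem_empty _))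
      simpa using key
    · have key := free hOd e3.2.2.1 {g} (fun w hw => by
        rcases hUs _ w hne hw with h | ⟨a, b, h, hw⟩
        · exact Or.inl h.2
        · obtain ⟨-, rfl, rfl⟩ := send v g a b hv h
          rcases hw with rfl | rfl
          · exact Or.inr (mem_singleton_self _)
          · exact Or.inl (memF hT e1 (h3 hm v e1).1 (h3 hm v e1).2.1.symm)) (fun w hw => by
        rw [mem_singleton.mp hw]
        exact ⟨Or.inl ⟨y3 v, Or.inl ((hTr _ _ _).mpr (Or.inr (Or.inr (Or.inr ⟨hm, rfl, hv⟩))))⟩,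
          hc_not_fc (hc_symm e3)⟩)
      rw [filter_singleton, card_singleton] at key
      split_ifs at key ⊢ with h
      · rwa [card_singleton] at key
      · rwa [card_empty] at key

omit [Fintype V] in
theorem picks (Q : Finset V) (h : 3 ≤ #Q) : ∃ y1 y2 y3 : V → V,
    (∀ v ∈ Q, y1 v ∈ Q ∧ y2 v ∈ Q ∧ y1 v ≠ v ∧ y2 v ≠ v ∧ y1 v ≠ y2 v) ∧
    (4 ≤ #Q → ∀ v ∈ Q, y3 v ∈ Q ∧ y3 v ≠ v ∧ y3 v ≠ y1 v ∧ y3 v ≠ y2 v) := by
  have key : ∀ v, ∃ a b c, v ∈ Q → (a ∈ Q ∧ b ∈ Q ∧ a ≠ v ∧ b ≠ v ∧ a ≠ b) ∧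
      (4 ≤ #Q → c ∈ Q ∧ c ≠ v ∧ c ≠ a ∧ c ≠ b) := by
    intro v
    by_cases hv : v ∈ Q
    · have hc := card_erase_of_mem hv
      by_cases h4 : 4 ≤ #Q
      · obtain ⟨a, b, c, ha, hb, hc, hab, hac, hbc⟩ := two_lt_card_iff.mp (show 2 < #(Q.erase v) by omega)
        rw [mem_erase] at ha hb hc
        exact ⟨a, b, c, fun _ => ⟨⟨ha.2, hb.2, ha.1, hb.1, hab⟩, fun _ => ⟨hc.2, hc.1, hac.symm, hbc.symm⟩⟩⟩
      · obtain ⟨a, ha, b, hb, hab⟩ := one_lt_card.mp (show 1 < #(Q.erase v) by omega)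
        rw [mem_erase] at ha hb
        exact ⟨a, b, v, fun _ => ⟨⟨ha.2, hb.2, ha.1, hb.1, hab⟩, fun h => absurd h h4⟩⟩
    · exact ⟨v, v, v, fun h => absurd h hv⟩
  choose y1 y2 y3 hy using key
  exact ⟨y1, y2, y3, fun v hv => (hy v hv).1, fun h4 v hv => (hy v hv).2 h4⟩

/-- The certificate in either direction. -/
theorem cert2 (hC : SCj) (ho : s.Ok) (hP : s.PR κ) (hT : s.TH κ) (hE : s.NoE κ) (hρ : s.ρ ∉ s.Q κ)
    {n : ℕ} {x u : ℕ → V} (hq : #(s.Q κ) = n + 1) (h2 : 2 ≤ n) (tr : s.Trl κ (n + 1) x u)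
    {D : V → V → Prop} (hD : s.Ob D) (hloc : ∀ v, Co s.G v → v ∉ s.Q κ → s.Loc κ D v)
    (hoc : ∀ v ∈ s.Q κ, (∃ w ∈ s.Q κ, D v w) ∧ ∃ w ∈ s.Q κ, D w v)
    (hdir : (∀ i, 1 ≤ i → i ≤ n → D (u i) (x (i + 1))) ∨ ∀ i, 1 ≤ i → i ≤ n → D (u i) (x i))
    (hH : ∀ v0, v0 = x 1 ∨ v0 = x (n + 1) →
      (∀ v g, (v = x 1 ∧ g = u 1) ∨ (v = x (n + 1) ∧ g = u n) → v ≠ v0 → D g v) →
      ∃ B : Finset V, #B ≤ 2 ∧ ∀ v ∈ s.Q κ, (s.cx κ D).Yc v → #(Hi s κ D v) ≤ (if v = v0 then 0 else 1) →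
        v ∈ B ∧ #(Ho s κ D v) ≤ 2) : s.Sol := by
  rcases hdir with hdir | hdir
  · obtain ⟨B, hB, h⟩ := hH (x 1) (Or.inl rfl) (by
      rintro v g (⟨rfl, rfl⟩ | ⟨rfl, rfl⟩) hne
      · exact absurd rfl hne
      · exact hdir n (by omega) le_rfl)
    exact cert hC ho hP hT hE hρ hq h2 tr hD hloc hoc hdir B hB h
  · obtain ⟨B, hB, h⟩ := hH (x (n + 1)) (Or.inr rfl) (by
      rintro v g (⟨rfl, rfl⟩ | ⟨rfl, rfl⟩) hne
      · exact hdir 1 le_rfl (by omega)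
      · exact absurd rfl hne)
    refine cert hC ho hP hT hE hρ hq h2 (rev tr) hD hloc hoc (fun i i1 i2 => ?_) B hB h
    have e : n + 1 + 1 - (i + 1) = n + 1 - i := by omega
    show D (u (n + 1 - i)) (x (n + 1 + 1 - (i + 1)))
    rw [e]
    exact hdir _ (by omega) (by omega)

theorem cases_mem {n : ℕ} {x u : ℕ → V} (hq : #(s.Q κ) = n + 1) (tr : s.Trl κ (n + 1) x u) {v : V}
    (hv : v ∈ s.Q κ) : v = x 1 ∨ v = x (n + 1) ∨ ∃ k, 1 ≤ k ∧ k < n ∧ v = x (k + 1) := by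
  obtain ⟨i, i1, i2, rfl⟩ := surj hq tr hv
  by_cases e1 : i = 1
  · exact Or.inl (by rw [e1])
  · by_cases e2 : i = n + 1
    · exact Or.inr (Or.inl (by rw [e2]))
    · exact Or.inr (Or.inr ⟨i - 1, by omega, by omega, by rw [Nat.sub_add_cancel i1]⟩)

/-- At most four vertices in debt, the last one of odd degree. -/
theorem planA (hTl : Tools) (ho : s.Ok) (hP : s.PR κ) (hT : s.TH κ) (hE : s.NoE κ) (hρ : s.ρ ∉ s.Q κ)
    {n : ℕ} {x u : ℕ → V} (hq : #(s.Q κ) = n + 1) (h2 : 2 ≤ n) (h3 : n ≤ 3) (tr : s.Trl κ (n + 1) x u)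
    (hodd : Odd (dg s.G (x (n + 1)))) : s.Sol := by
  obtain ⟨y1, y2, y3, h12, -⟩ := picks (s.Q κ) (by omega)
  obtain ⟨D, hD, hloc, hoc, hd1, hdir, hhub, hinn, hend⟩ := design hTl.1 hTl.2.1 ho hT h2 tr False y1 y2 y3
    (some (x (n + 1))) (u n) h12 False.elim (fun y h => by
      have e : x (n + 1) = y := Option.some.inj h
      rw [← e]
      exact ⟨hodd, Or.inl ⟨not_false, rfl, rfl⟩⟩)
  obtain ⟨hb1, hb2⟩ := hhub _ rfl
  have hfw : ∀ i, 1 ≤ i → i ≤ n → D (u i) (x (i + 1)) :=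
    hdir.resolve_right fun h => (hd1 n (by omega) le_rfl).mp (h n (by omega) le_rfl) hb1
  refine cert hTl.2.2 ho hP hT hE hρ hq h2 tr hD hloc hoc hfw {x (n - 1), x n} card_le_two
    fun v hv hy hle => ?_
  have hne : some (x (n + 1)) ≠ some v := fun h => hb2 (Option.some.inj h ▸ hy)
  have e1 := (yc hT hρ hD hv hy).2
  have e2 := hn_eq (κ := κ) hD v
  have e3 := df_ge hT hv
  rcases cases_mem hq tr hv with h | h | ⟨k, k1, k2, h⟩
  · have e4 := (hend v (u 1) (Or.inl ⟨h, rfl⟩) hne).1 not_false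
    rw [if_pos h] at hle
    have e5 : n - 1 = 1 := by omega
    exact ⟨by rw [e5, h]; exact mem_insert_self _ _, by omega⟩
  · exact absurd (by rw [h]) hne
  · have e4 := hinn k k1 k2 (h ▸ hne)
    rw [← h] at e4
    refine ⟨?_, by split_ifs at hle <;> omega⟩
    rw [h, mem_insert, mem_singleton]
    by_cases e5 : k + 1 = n
    · exact Or.inr (by rw [e5])
    · exact Or.inl (by rw [show n - 1 = k + 1 by omega])

/-- Three vertices in debt, both ends of even degree. -/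
theorem planB (hTl : Tools) (ho : s.Ok) (hP : s.PR κ) (hT : s.TH κ) (hE : s.NoE κ) (hρ : s.ρ ∉ s.Q κ)
    {n : ℕ} {x u : ℕ → V} (hq : #(s.Q κ) = n + 1) (h2 : n = 2) (tr : s.Trl κ (n + 1) x u)
    (he1 : ¬Odd (dg s.G (x 1))) (he2 : ¬Odd (dg s.G (x (n + 1)))) : s.Sol := by
  obtain ⟨y1, y2, y3, h12, -⟩ := picks (s.Q κ) (by omega)
  obtain ⟨D, hD, hloc, hoc, -, hdir, -, hinn, hend⟩ := design hTl.1 hTl.2.1 ho hT h2.ge tr False y1 y2 y3
    none (u n) h12 False.elim (fun y h => by simp at h)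
  refine cert2 hTl.2.2 ho hP hT hE hρ hq h2.ge tr hD hloc hoc hdir fun v0 h0 _ =>
    ⟨(s.Q κ).erase v0, ?_, fun v hv hy hle => ?_⟩
  · have : v0 ∈ s.Q κ := by
      rcases h0 with rfl | rfl
      · exact tr.mem _ (by omega) (by omega)
      · exact tr.mem _ (by omega) (by omega)
    rw [card_erase_of_mem this]
    omega
  · have e1 := (yc hT hρ hD hv hy).2
    have e2 := hn_eq (κ := κ) hD v
    have e3 := df_ge hT hv
    have key : 1 ≤ #(Hi s κ D v) ∧ (#(Hi s κ D v) ≤ 1 → #(Ho s κ D v) ≤ 2) := by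
      rcases cases_mem hq tr hv with h | h | ⟨k, k1, k2, h⟩
      · have e4 := (hend v (u 1) (Or.inl ⟨h, rfl⟩) (by simp)).1 not_false
        have e5 := e1.resolve_right fun h' => he1 (h ▸ h'.1)
        omega
      · have e4 := (hend v (u n) (Or.inr ⟨h, rfl⟩) (by simp)).1 not_false
        have e5 := e1.resolve_right fun h' => he2 (h ▸ h'.1)
        omega
      · have e4 := hinn k k1 k2 (by simp)
        rw [← h] at e4
        omega
    by_cases h : v = v0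
    · rw [if_pos h] at hle
      omega
    · rw [if_neg h] at hle
      exact ⟨mem_erase.mpr ⟨h, hv⟩, key.2 hle⟩

/-- At least four vertices in debt, mixed pairs at both ends. -/
theorem planC (hTl : Tools) (ho : s.Ok) (hP : s.PR κ) (hT : s.TH κ) (hE : s.NoE κ) (hρ : s.ρ ∉ s.Q κ)
    {n : ℕ} {x u : ℕ → V} (hq : #(s.Q κ) = n + 1) (h3 : 3 ≤ n) (tr : s.Trl κ (n + 1) x u)
    (he : n = 3 → ¬Odd (dg s.G (x 1)) ∧ ¬Odd (dg s.G (x (n + 1)))) : s.Sol := by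
  obtain ⟨y1, y2, y3, h12, h4⟩ := picks (s.Q κ) (by omega)
  obtain ⟨hy, hy1, hy2⟩ : ∃ hy : Option V, (∀ y, hy = some y → y = x 3 ∧ n = 4 ∧ Odd (dg s.G (x 3))) ∧
      (n = 4 → Odd (dg s.G (x 3)) → hy = some (x 3)) := by
    by_cases h : n = 4 ∧ Odd (dg s.G (x 3))
    · exact ⟨some (x 3), fun y h' => ⟨(Option.some.inj h').symm, h⟩, fun _ _ => rfl⟩
    · exact ⟨none, fun y h' => by simp at h', fun a b => absurd ⟨a, b⟩ h⟩
  obtain ⟨D, hD, hloc, hoc, -, hdir, hhub, hinn, hend⟩ := design hTl.1 hTl.2.1 ho hT (by omega) tr True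
    y1 y2 y3 hy (y3 (x 3)) h12 (fun _ => h4 (by omega)) (fun y h => by
      obtain ⟨rfl, e1, e2⟩ := hy1 y h
      exact ⟨e2, Or.inr ⟨trivial, 2, by omega, by omega, rfl, rfl⟩⟩)
  refine cert2 hTl.2.2 ho hP hT hE hρ hq (by omega) tr hD hloc hoc hdir fun v0 _ h0 =>
    ⟨{x 2, x n}, card_le_two, fun v hv hyc hle => ?_⟩
  have hne : hy ≠ some v := fun h => (hhub v h).2 hyc
  have e1 := (yc hT hρ hD hv hyc).2
  have e2 := hn_eq (κ := κ) hD v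
  have e3 := df_ge hT hv
  have hends : ∀ g, (v = x 1 ∧ g = u 1) ∨ (v = x (n + 1) ∧ g = u n) → False := by
    intro g h
    have e4 := (hend v g h hne).2 trivial
    have e5 : #(Hn s κ v) ≤ 2 := by
      by_cases h' : v = v0
      · rw [if_pos h'] at hle
        omega
      · rw [if_neg h'] at hle
        rw [if_pos (h0 v g h h')] at e4
        omega
    rcases e1 with e1 | ⟨e6, e1⟩
    · omega
    · have e7 := he (by omega)
      rcases h with h | h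
      · exact e7.1 (h.1 ▸ e6)
      · exact e7.2 (h.1 ▸ e6)
  rcases cases_mem hq tr hv with h | h | ⟨k, k1, k2, h⟩
  · exact (hends _ (Or.inl ⟨h, rfl⟩)).elim
  · exact (hends _ (Or.inr ⟨h, rfl⟩)).elim
  · have e4 := hinn k k1 k2 (h ▸ hne)
    rw [← h] at e4
    have e5 : #(Hi s κ D v) ≤ 1 := by split_ifs at hle <;> omega
    refine ⟨?_, by omega⟩
    rw [mem_insert, mem_singleton]
    by_cases e6 : k = 1
    · exact Or.inl (by rw [h, e6])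
    · by_cases e7 : k + 1 = n
      · exact Or.inr (by rw [h, e7])
      · exfalso
        have e8 : n = 4 := by omega
        have e9 : v = x 3 := by rw [h, show k = 2 by omega]
        rcases e1 with e1 | ⟨e10, -⟩
        · omega
        · exact hne (e9 ▸ hy2 e8 (e9 ▸ e10))

end Jt1

theorem jt1 : SJt1 := by
  intro hTl V _ s j κ ho hS hq hE hT1
  obtain ⟨hρ, x, u, tr⟩ := hT1
  obtain ⟨hP, hT, -⟩ := hS
  obtain ⟨n, hn⟩ : ∃ n, #(s.Q κ) = n + 1 := ⟨#(s.Q κ) - 1, by omega⟩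
  rw [hn] at tr
  by_cases h4 : 4 ≤ n
  · exact Jt1.planC hTl ho hP hT hE hρ hn (by omega) tr (by omega)
  by_cases ho2 : Odd (dg s.G (x (n + 1)))
  · exact Jt1.planA hTl ho hP hT hE hρ hn (by omega) (by omega) tr ho2
  by_cases ho1 : Odd (dg s.G (x 1))
  · refine Jt1.planA hTl ho hP hT hE hρ hn (by omega) (by omega) (Jt1.rev tr) ?_
    show Odd (dg s.G (x (n + 1 + 1 - (n + 1))))
    rw [Nat.add_sub_cancel_left]
    exact ho1
  by_cases h3 : n = 2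
  · exact Jt1.planB hTl ho hP hT hE hρ hn h3 tr ho1 ho2
  · exact Jt1.planC hTl ho hP hT hE hρ hn (by omega) tr fun _ => ⟨ho1, ho2⟩

end

end Pool.Agent.MP_d1f1f3_co.H2
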