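import Pool.Agent.MP_d1f1f3_co.H2.Spec3

/-!
A trail through all vertices in debt: basic counts and the certificate.
-/

namespace Pool.Agent.MP_d1f1f3_co.H2

open Finset Relation H47
open scoped Classical

noncomputable section

namespace Jt1

variable {V : Type} [Fintype V] {s : Sg V} {κ : V → ZMod 2}

theorem mem_Q {v : V} : v ∈ s.Q κ ↔ Co s.G v ∧ s.t κ v < 0 := by simp [Sg.Q]

theorem fc_symm {G : SimpleGraph V} {u w : V} (h : Fc G κ u w) : Fc G κ w u :=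
  ⟨h.1.symm, h.2.2.1, h.2.1, h.2.2.2.symm⟩

theorem hc_symm {G : SimpleGraph V} {u w : V} (h : Hc G κ u w) : Hc G κ w u :=
  ⟨h.1.symm, h.2.2.1, h.2.1, h.2.2.2.symm⟩

theorem hc_not_fc {G : SimpleGraph V} {u w : V} (h : Hc G κ u w) : ¬Fc G κ u w :=
  fun h' => h.2.2.2 h'.2.2.2

theorem t_ge (hT : s.TH κ) {v : V} (hv : Co s.G v) : -1 ≤ s.t κ v := by
  have h := hT {v} (by simpa using hv)
  have h1 : ¬Fc s.G κ v v := fun h => h.1.ne rfl
  have h2 : ¬Hc s.G κ v v := fun h => h.1.ne rfl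
  simp only [Sg.Dl, H2.Dl, sum_singleton, filter_singleton, h1, h2, if_false, card_empty] at h
  omega

theorem pair (hT : s.TH κ) {a b : V} (ha : Co s.G a) (hb : Co s.G b) (hab : a ≠ b) :
    -1 ≤ 2 * s.t κ a + 2 * s.t κ b + 2 + 2 * (if Fc s.G κ a b then 1 else 0) -
      2 * (if Hc s.G κ a b then 1 else 0) := by
  have h := hT {a, b} (by
    intro v hv
    rcases mem_insert.mp hv with rfl | hv
    · exact ha
    · rw [mem_singleton.mp hv]; exact hb)
  have h1 : ∀ v, ¬Fc s.G κ v v := fun v h => h.1.ne rfl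
  have h2 : ∀ v, ¬Hc s.G κ v v := fun v h => h.1.ne rfl
  have h3 : Fc s.G κ b a ↔ Fc s.G κ a b := ⟨fc_symm, fc_symm⟩
  have h4 : Hc s.G κ b a ↔ Hc s.G κ a b := ⟨hc_symm, hc_symm⟩
  simp only [Sg.Dl, H2.Dl, sum_pair hab, filter_insert, filter_singleton, h1, h2, h3, h4, if_false] at h
  by_cases hF : Fc s.G κ a b <;> by_cases hH : Hc s.G κ a b <;>
    simp only [hF, hH, if_true, if_false, card_empty, card_singleton, insert_empty_eq] at h ⊢ <;> omega

theorem memF (hT : s.TH κ) {a b : V} (ha : a ∈ s.Q κ) (hb : b ∈ s.Q κ) (hab : a ≠ b) : Fc s.G κ a b := by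
  rw [mem_Q] at ha hb
  have h := pair hT ha.1 hb.1 hab
  by_contra hF
  have := ha.2
  have := hb.2
  rw [if_neg hF] at h
  split_ifs at h <;> omega

theorem don (hT : s.TH κ) {g x : V} (hx : x ∈ s.Q κ) (h : Hc s.G κ g x) : 1 ≤ s.t κ g := by
  rw [mem_Q] at hx
  have h1 := pair hT h.2.1 hx.1 h.1.ne
  have := hx.2
  rw [if_neg (hc_not_fc h), if_pos h] at h1
  omega

theorem don_not (hT : s.TH κ) {g x : V} (hx : x ∈ s.Q κ) (h : Hc s.G κ g x) : g ∉ s.Q κ := by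
  intro hg
  have := don hT hx h
  have := (mem_Q.mp hg).2
  omega

theorem df_ge (hT : s.TH κ) {v : V} (hv : v ∈ s.Q κ) : #(s.Q κ) ≤ df s.G κ v + 1 := by
  have h : (s.Q κ).erase v ⊆ univ.filter fun w => Fc s.G κ v w := by
    intro w hw
    rw [mem_erase] at hw
    exact mem_filter.mpr ⟨mem_univ _, memF hT hv hw.2 hw.1.symm⟩
  have h1 := card_le_card h
  rw [card_erase_of_mem hv] at h1
  unfold df
  omega

theorem neg_mem {D : V → V → Prop} {v : V} (h : (s.cx κ D).Neg v) : v ∈ s.Q κ := by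
  rw [mem_Q]
  refine ⟨h.1, ?_⟩
  have h2 : tau s.G κ v < df s.G κ v := h.2
  unfold Sg.t
  split_ifs <;> omega

theorem mem_neg {D : V → V → Prop} {v : V} (hρ : s.ρ ∉ s.Q κ) (h : v ∈ s.Q κ) : (s.cx κ D).Neg v := by
  have hu : ¬s.Ur κ v := fun hu => hρ (hu.1 ▸ h)
  rw [mem_Q] at h
  refine ⟨h.1, ?_⟩
  have h2 := h.2
  unfold Sg.t at h2
  rw [if_neg hu] at h2
  show tau s.G κ v < df s.G κ v
  omega

variable (s κ)

/-- The other arcs coming in. -/
def Hi (D : V → V → Prop) (v : V) : Finset V := univ.filter fun a => D a v ∧ ¬Fc s.G κ v a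

/-- The other arcs going out. -/
def Ho (D : V → V → Prop) (v : V) : Finset V := univ.filter fun a => D v a ∧ ¬Fc s.G κ v a

/-- The other edges. -/
def Hn (v : V) : Finset V := (N s.G v).filter fun a => ¬Fc s.G κ v a

variable {s κ}

theorem dg_eq (v : V) : dg s.G v = df s.G κ v + #(Hn s κ v) := by
  have h : (univ.filter fun w => Fc s.G κ v w) = (N s.G v).filter fun w => Fc s.G κ v w := by
    ext w
    simp only [N, mem_filter, mem_univ, true_and]
    exact ⟨fun h => ⟨h.1, h⟩, fun h => h.2⟩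
  unfold dg df Hn
  rw [h, card_filter_add_card_filter_not]

theorem out_eq (D : V → V → Prop) (v : V) : #(Out D v) = #((s.cx κ D).Fo v) + #(Ho s κ D v) := by
  rw [← card_filter_add_card_filter_not (s := Out D v) (fun w => Fc s.G κ v w)]
  simp only [Out, filter_filter, Cx.Fo, Ho, Sg.cx]

theorem df_eq {D : V → V → Prop} (hD : s.Ob D) (v : V) :
    df s.G κ v = #((s.cx κ D).Fo v) + #((s.cx κ D).Fi v) := by
  unfold df
  rw [← card_filter_add_card_filter_not (s := univ.filter fun w => Fc s.G κ v w) (fun w => D v w)]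
  congr 2
  · ext w
    simp only [mem_filter, mem_univ, true_and, Cx.Fo, Sg.cx]
    exact and_comm
  · ext w
    simp only [mem_filter, mem_univ, true_and, Cx.Fi, Sg.cx]
    constructor
    · exact fun h => ⟨(hD.ori w v h.1.1.symm).mpr h.2, h.1⟩
    · exact fun h => ⟨h.2, (hD.ori w v h.2.1.symm).mp h.1⟩

theorem hn_eq {D : V → V → Prop} (hD : s.Ob D) (v : V) :
    #(Hn s κ v) = #(Ho s κ D v) + #(Hi s κ D v) := by
  rw [← card_filter_add_card_filter_not (s := Hn s κ v) (fun w => D v w)]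
  congr 2
  · ext w
    simp only [mem_filter, mem_univ, true_and, Hn, Ho, N]
    exact ⟨fun h => ⟨h.2, h.1.2⟩, fun h => ⟨⟨hD.adj _ _ h.1, h.2⟩, h.1⟩⟩
  · ext w
    simp only [mem_filter, mem_univ, true_and, Hn, Hi, N]
    constructor
    · exact fun h => ⟨(hD.ori w v h.1.1.symm).mpr h.2, h.1.2⟩
    · exact fun h => ⟨⟨(hD.adj _ _ h.1).symm, h.2⟩, (hD.ori w v (hD.adj _ _ h.1)).mp h.1⟩

/-- The vertices in debt which may have to merge. -/
theorem yc (hT : s.TH κ) (hρ : s.ρ ∉ s.Q κ) {D : V → V → Prop} (hD : s.Ob D) {v : V} (hv : v ∈ s.Q κ)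
    (hy : (s.cx κ D).Yc v) : #(Out D v) = df s.G κ v ∧
      (df s.G κ v = #(Hn s κ v) ∨ (Odd (dg s.G v) ∧ df s.G κ v = #(Hn s κ v) + 1)) := by
  have hu : ¬s.Ur κ v := fun hu => hρ (hu.1 ▸ hv)
  rw [mem_Q] at hv
  have h1 := t_ge hT hv.1
  have h2 := hv.2
  have h3 := dg_eq (s := s) (κ := κ) v
  have hc : 3 ≤ dg s.G v := hv.1
  have h4 := hD.smooth v (show 2 ≤ dg s.G v by omega)
  unfold Sg.t tau at h1 h2
  rw [if_neg hu] at h1 h2
  rcases hy with hW | hTo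
  · have hW' : Wv s.G κ v := hW.2
    obtain ⟨k, hk⟩ := hW'.2.1
    rw [if_pos hW'] at h1 h2
    omega
  · have ho : Odd (dg s.G v) := hTo.2.1
    have hW' : ¬Wv s.G κ v := fun h => (Nat.not_even_iff_odd.mpr ho) h.2.1
    have h5 : #(Out D v) = (dg s.G v + 1) / 2 := hTo.2.2
    rw [if_neg hW'] at h1 h2
    obtain ⟨k, hk⟩ := ho
    refine ⟨by omega, Or.inr ⟨⟨k, hk⟩, by omega⟩⟩

theorem surj {n : ℕ} {x u : ℕ → V} (hq : #(s.Q κ) = n) (tr : s.Trl κ n x u) {v : V} (hv : v ∈ s.Q κ) :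
    ∃ i, 1 ≤ i ∧ i ≤ n ∧ v = x i := by
  have h1 : (Icc 1 n).image x ⊆ s.Q κ := by
    intro w hw
    obtain ⟨i, hi, rfl⟩ := mem_image.mp hw
    rw [mem_Icc] at hi
    exact tr.mem i hi.1 hi.2
  have h2 : #((Icc 1 n).image x) = n := by
    rw [card_image_of_injOn, Nat.card_Icc, Nat.add_sub_cancel]
    intro i hi k hk h
    rw [mem_coe, mem_Icc] at hi hk
    exact tr.xi i k hi.1 hi.2 hk.1 hk.2 h
  rw [← eq_of_subset_of_card_le h1 (by omega)] at hv
  obtain ⟨i, hi, rfl⟩ := mem_image.mp hv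
  rw [mem_Icc] at hi
  exact ⟨i, hi.1, hi.2, rfl⟩

theorem rev {n : ℕ} {x u : ℕ → V} (tr : s.Trl κ n x u) :
    s.Trl κ n (fun i => x (n + 1 - i)) fun i => u (n - i) := by
  refine ⟨fun i h1 h2 => tr.mem _ (by omega) (by omega), fun i k h1 h2 h3 h4 h => ?_,
    fun i k h1 h2 h3 h4 h => ?_, fun i h1 h2 => ?_, fun i h1 h2 => ?_⟩
  · have := tr.xi _ _ (by omega) (by omega) (by omega) (by omega) h
    omega
  · have := tr.ui _ _ (by omega) (by omega) (by omega) (by omega) h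
    omega
  · have h := tr.adj (n - i) (by omega) (by omega)
    have e1 : n + 1 - i = n - i + 1 := by omega
    have e2 : n + 1 - (i + 1) = n - i := by omega
    rw [e1, e2]
    exact ⟨h.2, h.1⟩
  · have h := tr.nb (n - i) (by omega) (by omega)
    have e : {w | ∃ k, k ≤ n ∧ w = u (n - k)} = {w | ∃ k, k ≤ n ∧ w = u k} := by
      ext w
      constructor
      · rintro ⟨k, -, rfl⟩
        exact ⟨n - k, by omega, rfl⟩
      · rintro ⟨k, hk, rfl⟩
        exact ⟨n - k, by omega, by rw [Nat.sub_sub_self hk]⟩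
    rw [e]
    exact h

/-- The certificate for a trail directed forwards. -/
theorem cert (hC : SCj) (ho : s.Ok) (hP : s.PR κ) (hT : s.TH κ) (hE : s.NoE κ) (hρ : s.ρ ∉ s.Q κ)
    {n : ℕ} {x u : ℕ → V} (hq : #(s.Q κ) = n + 1) (h2 : 2 ≤ n) (tr : s.Trl κ (n + 1) x u)
    {D : V → V → Prop} (hD : s.Ob D) (hloc : ∀ v, Co s.G v → v ∉ s.Q κ → s.Loc κ D v)
    (hoc : ∀ v ∈ s.Q κ, (∃ w ∈ s.Q κ, D v w) ∧ ∃ w ∈ s.Q κ, D w v)
    (hfw : ∀ i, 1 ≤ i → i ≤ n → D (u i) (x (i + 1))) (B : Finset V) (hB : #B ≤ 2)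
    (hH : ∀ v ∈ s.Q κ, (s.cx κ D).Yc v → #(Hi s κ D v) ≤ (if v = x 1 then 0 else 1) →
      v ∈ B ∧ #(Ho s κ D v) ≤ 2) : s.Sol := by
  have hoc' : ∀ v, ∃ w, v ∈ s.Q κ → w ∈ s.Q κ ∧ w ∈ (s.cx κ D).Fo v := by
    intro v
    by_cases hv : v ∈ s.Q κ
    · obtain ⟨w, hw, hd⟩ := (hoc v hv).1
      exact ⟨w, fun _ => ⟨hw, mem_filter.mpr ⟨mem_univ _, hd, memF hT hv hw (hD.adj _ _ hd).ne⟩⟩⟩
    · exact ⟨v, fun h => absurd h hv⟩
  choose oc hoc1 using hoc'
  have hdf : ∀ v ∈ s.Q κ, 2 ≤ df s.G κ v := fun v hv => by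
    have := df_ge hT hv
    omega
  let e : Sg.Cd V := ⟨(Icc 1 n).image fun i => (u i, x (i + 1)), some (x 1), none, ∅, oc⟩
  have hPm : ∀ a, a ∈ e.P ↔ ∃ i, 1 ≤ i ∧ i ≤ n ∧ a = (u i, x (i + 1)) := by
    intro a
    simp only [e, mem_image, mem_Icc]
    constructor
    · rintro ⟨i, hi, rfl⟩
      exact ⟨i, hi.1, hi.2, rfl⟩
    · rintro ⟨i, h1, h2, rfl⟩
      exact ⟨i, ⟨h1, h2⟩, rfl⟩
  have hpn : ∀ v, s.pin e v ≤ 1 := by
    intro v
    refine card_le_one.mpr fun a ha b hb => ?_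
    rw [mem_filter] at ha hb
    obtain ⟨i, i1, i2, rfl⟩ := (hPm a).mp ha.1
    obtain ⟨k, k1, k2, rfl⟩ := (hPm b).mp hb.1
    have := tr.xi (i + 1) (k + 1) (by omega) (by omega) (by omega) (by omega) (ha.2.trans hb.2.symm)
    rw [Nat.add_right_cancel this]
  have hpo : ∀ v, s.pout e v ≤ 1 := by
    intro v
    refine card_le_one.mpr fun a ha b hb => ?_
    rw [mem_filter] at ha hb
    obtain ⟨i, i1, i2, rfl⟩ := (hPm a).mp ha.1
    obtain ⟨k, k1, k2, rfl⟩ := (hPm b).mp hb.1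
    rw [tr.ui i k i1 (by omega) k1 (by omega) (ha.2.trans hb.2.symm)]
  have hp0 : s.pin e (x 1) = 0 := by
    refine card_eq_zero.mpr (filter_eq_empty_iff.mpr fun a ha h => ?_)
    obtain ⟨i, i1, i2, rfl⟩ := (hPm a).mp ha
    have := tr.xi (i + 1) 1 (by omega) (by omega) (by omega) (by omega) h
    omega
  have hp1 : ∀ v ∈ s.Q κ, v ≠ x 1 → s.pin e v = 1 := by
    intro v hv hne
    obtain ⟨i, i1, i2, rfl⟩ := surj hq tr hv
    obtain ⟨k, rfl⟩ : ∃ k, i = k + 1 := ⟨i - 1, by omega⟩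
    have hk : 1 ≤ k := by
      by_contra hk
      exact hne (by rw [show k = 0 by omega])
    refine le_antisymm (hpn _) (card_pos.mpr ⟨(u k, x (k + 1)), mem_filter.mpr ⟨?_, rfl⟩⟩)
    exact (hPm _).mpr ⟨k, hk, by omega, rfl⟩
  have hpu : ∀ p, s.pout e p ≠ 0 → ∃ i, 1 ≤ i ∧ i ≤ n ∧ p = u i := by
    intro p hp
    obtain ⟨a, ha⟩ := card_pos.mp (Nat.pos_of_ne_zero hp)
    rw [mem_filter] at ha
    obtain ⟨i, i1, i2, rfl⟩ := (hPm a).mp ha.1
    exact ⟨i, i1, i2, ha.2.symm⟩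
  have hPi : ∀ v ∈ s.Pi κ D e, v ∈ s.Q κ ∧ v ∈ B ∧ #((s.cx κ D).Fi v) ≤ 2 := by
    intro v hv
    obtain ⟨-, hn, hy, -, hv⟩ := mem_filter.mp hv
    have hQ := neg_mem hn
    have e1 := yc hT hρ hD hQ hy
    have e2 := out_eq (s := s) (κ := κ) D v
    have e3 := df_eq (κ := κ) hD v
    have e4 := hn_eq (κ := κ) hD v
    have hle : #(Hi s κ D v) ≤ if v = x 1 then 0 else 1 := by
      have hpin : s.pin e v = if v = x 1 then 0 else 1 := by
        split_ifs with h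
        · rw [h, hp0]
        · exact hp1 v hQ h
      rcases hv with hv | ⟨hv, hv'⟩
      · rw [← hpin]
        refine card_le_card_of_injOn (fun a => (a, v)) (fun a ha => ?_) fun a _ b _ h => (Prod.mk.inj h).1
        rw [mem_coe] at ha ⊢
        obtain ⟨-, h1, h2⟩ := mem_filter.mp ha
        refine mem_filter.mpr ⟨?_, rfl⟩
        by_contra h3
        have : a ∈ s.ig κ D e v := mem_filter.mpr ⟨mem_univ _, h1, h2, h3⟩
        rw [hv] at this
        exact notMem_empty _ this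
      · have hne : v ≠ x 1 := by
          intro h
          refine hv' ⟨by rw [h], fun _ w hw => ?_⟩
          rw [card_le_one.mp hv w hw _ (hoc1 v hQ).2]
          exact hdf _ (hoc1 v hQ).1
        rw [if_neg hne]
        omega
    have := hH v hQ hy hle
    exact ⟨hQ, this.1, by omega⟩
  refine ⟨κ, D, hP, hD, hC V s κ D e ho hD ⟨hT, fun v hv => ?_, fun a ha => ?_, hpo, hpn, fun v hv => ?_,
    fun v hv => ?_, fun a ha hn => ?_, ?_, fun v hv => ?_, fun f hf _ h0 => ?_,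
    fun p hp => absurd hp (notMem_empty _), fun p hp h0 => ?_, fun a w hw h1 h2 h3 h4 h5 => ?_,
    fun b hb => by simp [e] at hb⟩⟩
  · by_cases hQ : v ∈ s.Q κ
    · have := hdf v hQ
      exact ⟨fun _ => ⟨_, (hoc1 v hQ).2⟩, fun _ h => by omega, fun _ _ h => by omega⟩
    · exact hloc v hv hQ
  · obtain ⟨i, i1, i2, rfl⟩ := (hPm a).mp ha
    have hm := tr.mem (i + 1) (by omega) (by omega)
    have hh := (tr.adj i i1 (by omega)).2
    exact ⟨hfw i i1 i2, hh, don hT hm hh, (mem_Q.mp hm).2.le⟩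
  · by_cases h : v = x 1
    · exact Or.inr (Or.inl (by rw [h]))
    · exact Or.inl (hp1 v hv h)
  · have h : x 1 = v := Option.some.inj hv
    rw [← h]
    exact ⟨tr.mem 1 le_rfl (by omega), hp0⟩
  · obtain ⟨i, i1, i2, rfl⟩ := (hPm a).mp ha
    exact absurd (mem_neg hρ (tr.mem (i + 1) (by omega) (by omega))) hn
  · exact (card_le_card fun v hv => (hPi v hv).2.1).trans hB
  · have h := hPi v hv
    obtain ⟨w, hw, hd⟩ := (hoc v h.1).2
    exact ⟨(hoc1 v h.1).2, h.2.2, fun _ => ⟨w, mem_filter.mpr ⟨mem_univ _, hd,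
      memF hT h.1 hw (hD.adj _ _ hd).ne.symm⟩⟩⟩
  · have h1 : s.t κ (oc f) < 0 := (mem_Q.mp (hoc1 f (hPi f hf).1).1).2
    exact absurd h0 (not_le.mpr h1)
  · have hp' : s.pout e p ≠ 0 := by
      rcases hp with hp | hp
      · exact absurd hp (notMem_empty _)
      · omega
    obtain ⟨i, i1, i2, rfl⟩ := hpu p hp'
    have hm := tr.mem i i1 (by omega)
    have hh := (tr.adj i i1 (by omega)).1
    refine ⟨fun w => hE _ hm _ w hh, fun y hy hy0 => ?_⟩
    exfalso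
    apply hh.2.2.2
    by_cases h : x i = y
    · rw [h, h0, hy0]
    · rw [(memF hT hm (neg_mem hy) h).2.2.2, h0, hy0]
  · obtain ⟨i, i1, i2, rfl⟩ := hpu a (by omega)
    rcases tr.nb i i1 (by omega) h3 h4 h1 w (mem_filter.mp hw).2.2 h2 with h | h
    · refine Or.inl ⟨h.1, ?_⟩
      by_contra h6
      obtain ⟨k, -, k2, rfl⟩ := hpu w h6
      exact h.2 ⟨k, by omega, rfl⟩
    · exact Or.inr h

end Jt1

end

end Pool.Agent.MP_d1f1f3_co.H2
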