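import Pool.Agent.MP_d1f1f3_co.H2.Jt2b

/-!
The design for a trail with donors at both ends.
-/

namespace Pool.Agent.MP_d1f1f3_co.H2

open Finset H47
open scoped Classical

namespace Jt2

open Ch

variable {V : Type} [Fintype V] {s : Sg V} {κ : V → ZMod 2}

/-- What is known about the vertices with a prescribed main arc. -/
def Bad (s : Sg V) (κ : V → ZMod 2) (c : Ch V) (D : V → V → Prop) (v : V) : Prop :=
  v ∈ s.Q κ ∧ v ≠ s.ρ ∧ (Wv s.G κ v ∨ Odd (dg s.G v)) ∧ c.y ≠ some v ∧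
    (v ∉ c.Z → (v = c.v₀ → dh s.G κ v ≤ 1) ∧ (dh s.G κ v ≤ 3 ∨ df s.G κ v ≤ 3)) ∧
    (v ∈ c.Z → D (c.xx v) v)

theorem core (T : Tools) (hs : s.Ok) (pr : s.PR κ) (ne : s.NoE κ) {c : Ch V} (h : c.Ok s κ)
    (p2 : ∀ (P : Finset V) D, s.Ob D → (∀ v ∈ P, Bad s κ c D v) → #P ≤ 2) : s.Sol := by
  obtain ⟨D, ob, od⟩ := T.1 V s κ _ hs h.ok
  obtain ⟨j, j1, hj⟩ := h.dir ob od
  have : Nonempty V := ⟨c.ee⟩
  choose! oc o1 o2 o3 o4 using fun v (hv : v ∈ s.Q κ) => h.oc ob od hv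
  have m2 := h.m2
  have d2 : ∀ v ∈ s.Q κ, 2 ≤ df s.G κ v := fun v hv => by
    have := df_ge h.th hv
    have := h.card
    omega
  have hH : ∀ i < c.m, Hc s.G κ (c.u (i + j)) (c.x (i + 1)) := fun i hi => by
    obtain rfl | rfl : j = 0 ∨ j = 1 := by omega
    exacts [h.h0 i hi, h.h1 i hi]
  let e : Sg.Cd V := ⟨(range c.m).image fun i => (c.u (i + j), c.x (i + 1)), some c.v₀, none, ∅, oc⟩
  have mP : ∀ a, a ∈ e.P ↔ ∃ i < c.m, (c.u (i + j), c.x (i + 1)) = a := fun a => by simp [e]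
  have pn : ∀ v, s.pin e v ≤ 1 := fun v => card_le_one.2 fun a ha b hb => by
    obtain ⟨i, k, rfl⟩ := (mP a).1 (mem_filter.1 ha).1
    obtain ⟨i', k', rfl⟩ := (mP b).1 (mem_filter.1 hb).1
    rw [h.xi i k i' k' ((mem_filter.1 ha).2.trans (mem_filter.1 hb).2.symm)]
  have po : ∀ v, s.pout e v = 1 → ∃ i < c.m, c.u (i + j) = v := fun v hv => by
    obtain ⟨a, ha⟩ := card_pos.1 (hv.symm ▸ one_pos : 0 < s.pout e v)
    obtain ⟨i, k, rfl⟩ := (mP a).1 (mem_filter.1 ha).1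
    exact ⟨i, k, (mem_filter.1 ha).2⟩
  have ig : ∀ v w, D w v → ¬Fc s.G κ v w →
      (∀ i < c.m, v = c.x (i + 1) → w ≠ c.u i ∧ w ≠ c.u (i + 1)) → s.ig κ D e v ≠ ∅ :=
    fun v w a b d => ne_empty_of_mem (mem_filter.2 ⟨mem_univ w, a, b, fun f => by
      obtain ⟨i, k, g⟩ := (mP _).1 f
      obtain ⟨rfl, rfl⟩ := Prod.ext_iff.1 g
      obtain rfl | rfl : j = 0 ∨ j = 1 := by omega
      exacts [(d i k rfl).1 rfl, (d i k rfl).2 rfl]⟩)
  have bad : ∀ v ∈ s.Pi κ D e, Bad s κ c D v := fun v hv => by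
    obtain ⟨a1, a2, a3, a4⟩ := (mem_filter.1 hv).2
    have q := neg_Q a1
    have y : c.y ≠ some v := fun e => h.hub ob od e a2
    refine ⟨q, fun f => a3 ⟨f, re hs (f ▸ (mem_Q.1 q).1)⟩, a2.imp (·.2) (·.2.1), y, fun z => ?_,
      fun z => by_contra fun f => ?_⟩
    · have k : 4 ≤ dh s.G κ v ∨ (v = c.v₀ ∧ 2 ≤ dh s.G κ v) → s.ig κ D e v ≠ ∅ := fun f => by
        obtain ⟨w, b1, b2, b3⟩ := h.hi od q z y f
        refine ig v w b1 b2 fun i k g => ?_
        have t := (tr1 q).2 (Or.inr (Or.inl ⟨i, k, g, rfl, rfl⟩) : c.R1 v _ _)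
        exact ⟨fun n => b3 (Or.inl ⟨_, Or.inl (n ▸ t)⟩), fun n => b3 (Or.inl ⟨_, Or.inr (n ▸ t)⟩)⟩
      refine ⟨fun f => not_lt.1 fun g => ?_, by_contra fun f => ?_⟩
      · obtain ⟨b1, b2⟩ := a4.resolve_left (k (Or.inr ⟨f, g⟩))
        exact b2 ⟨congrArg some f.symm, fun _ w hw =>
          card_le_one.1 b1 _ (o1 v q) _ hw ▸ d2 _ (o3 v q)⟩
      · have := (a4.resolve_left (k (Or.inl (by omega)))).1
        have := h.fo ob od q z y (by omega)
        omega
    · obtain ⟨-, -, b1, b2, b3, b4, b5, b6⟩ := h.z v z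
      have F := qq h.th q b2 b3
      have d := not_not.1 (mt (ob.ori _ _ F.1.symm).2 f)
      have t := od.tr _ _ _ ((tr1 q).2 (Or.inr (Or.inr ⟨z, rfl, rfl⟩)))
      have := (a4.resolve_left (ig v _ ((ob.ori _ _ b1.1).2 fun n => t.1 n d) (FH (Hs b1)) b6)).1
      have := card_le_one.1 this _ (o1 v q) _ (mem_Fo.2 ⟨d, F⟩)
      exact (o2 v q).elim (fun n => b4 (this ▸ n)) fun n => b5 (this ▸ n)
  refine ⟨κ, D, pr, ob, T.2.2 V s κ D e hs ob ⟨h.th, fun v hv => ?_, fun a ha => ?_, fun v => ?_, pn,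
    fun v hv => ?_, fun v hv => ?_, fun a ha n => ?_, p2 _ D ob bad, fun v hv => ?_,
    fun f hf _ t => ?_, fun p hp => absurd hp (notMem_empty p), fun p hp k => ?_,
    fun g w hw d1 d1' d4 k p => ?_, fun b hb => nomatch hb⟩⟩
  · by_cases q : v ∈ s.Q κ
    · have := d2 v q
      exact ⟨fun _ => ⟨_, o1 v q⟩, fun _ _ => by omega, fun _ _ _ => by omega⟩
    by_cases d : df s.G κ v = 1 ∧ dg s.G v = 4
    · exact ⟨fun _ => by omega, fun o => absurd (d.2 ▸ o) (by decide), fun _ _ => by omega⟩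
    · exact (T.2.1 V s κ _ D v hs h.ok ob od hv (h.nat q d)).1
  · obtain ⟨i, k, rfl⟩ := (mP a).1 ha
    exact ⟨hj i k, hH i k, don h.th (h.xq i k) (hH i k), (mem_Q.1 (h.xq i k)).2.le⟩
  · refine card_le_one.2 fun a ha b hb => ?_
    obtain ⟨i, k, rfl⟩ := (mP a).1 (mem_filter.1 ha).1
    obtain ⟨i', k', rfl⟩ := (mP b).1 (mem_filter.1 hb).1
    have := h.ui (i + j) (by omega) (i' + j) (by omega)
      ((mem_filter.1 ha).2.trans (mem_filter.1 hb).2.symm)
    rw [show i = i' by omega]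
  · rcases h.all v hv with rfl | ⟨i, k, rfl⟩
    · exact Or.inr (Or.inl rfl)
    · exact Or.inl (le_antisymm (pn _)
        (card_pos.2 ⟨_, mem_filter.2 ⟨(mP _).2 ⟨i, k, rfl⟩, rfl⟩⟩))
  · obtain rfl : c.v₀ = v := Option.some.inj hv
    refine ⟨h.vq, card_eq_zero.2 (filter_eq_empty_iff.2 fun a ha n => ?_)⟩
    obtain ⟨i, k, rfl⟩ := (mP a).1 ha
    exact h.vx i k n.symm
  · obtain ⟨i, k, rfl⟩ := (mP a).1 ha
    exact absurd (Q_neg (h.xq i k) (h.xr i k)) n
  · obtain ⟨q, r, a, y, b, -⟩ := bad v hv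
    refine ⟨o1 v q, ?_, fun _ => o4 v q⟩
    have f1 := fio (κ := κ) (v := v) ob
    have f2 := card_pos.2 ⟨_, o1 v q⟩
    by_cases d : df s.G κ v ≤ 3
    · omega
    have z : v ∉ c.Z := fun z => d (h.z v z).2.1
    have f3 := h.fo ob od q z y (by omega)
    have f4 := (b z).2
    obtain ⟨-, t1, t2⟩ := typ h.th hs q r
    rcases a with a | a
    · have := t2 a
      omega
    · have := t1 a
      omega
  · exact absurd t (mem_Q.1 (o3 f (bad f hf).1)).2.not_ge
  · obtain ⟨i, a, rfl⟩ := po p (hp.resolve_left (notMem_empty p))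
    refine ⟨fun w => ne _ (h.xq i a) _ w (hH i a), fun y hy ky => absurd ?_ (hH i a).2.2.2⟩
    by_cases n : y = c.x (i + 1)
    · rw [k, ← n, ky]
    · rw [k, ← (qq h.th (neg_Q hy) (h.xq i a) n).2.2.2, ky]
  · obtain ⟨i, a, rfl⟩ := po g p
    obtain ⟨b1, b2⟩ := mem_Fo.1 hw
    by_cases n : (1 ≤ i + j ∧ i + j < c.m) ∨ c.u 0 = c.u c.m
    · refine (h.nb (i + j) (by omega) n d4 k d1 w b2 d1').imp_left fun r => ⟨r.1, ?_⟩
      refine card_eq_zero.2 (filter_eq_empty_iff.2 fun t ht n => ?_)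
      obtain ⟨i', k', rfl⟩ := (mP t).1 ht
      exact r.2 ⟨i' + j, by omega, n.symm⟩
    · obtain ⟨n1, n2⟩ := not_or.1 n
      refine absurd (hj i a) ((od.tr _ _ _ ((tr2 (h.uq (i + j) (by omega))).2
        (Or.inr ⟨n2, d1, d4, b2, ?_⟩))).1 b1)
      by_cases r : i + j = 0
      · exact Or.inl ⟨by rw [r], by rw [show i = 0 by omega]⟩
      · exact Or.inr ⟨by rw [show i + j = c.m by omega], by rw [show i + 1 = c.m by omega]⟩

theorem pick (h : 3 ≤ #(s.Q κ)) (f : V → V) (hf : (∀ v, f v = v) ∨ 4 ≤ #(s.Q κ)) :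
    ∃ a b : V → V, ∀ v ∈ s.Q κ, (a v ∈ s.Q κ ∧ b v ∈ s.Q κ ∧ a v ≠ b v ∧ v ≠ a v ∧ v ≠ b v) ∧
      f v ≠ a v ∧ f v ≠ b v := by
  have : ∀ v, ∃ a b, v ∈ s.Q κ → (a ∈ s.Q κ ∧ b ∈ s.Q κ ∧ a ≠ b ∧ v ≠ a ∧ v ≠ b) ∧
      f v ≠ a ∧ f v ≠ b := fun v => by
    have h1 := le_card_sdiff {v, f v} (s.Q κ)
    have h2 := card_le_two (a := v) (b := f v)
    obtain ⟨a, ha, b, hb, n⟩ := one_lt_card.1 (show 1 < #(s.Q κ \ {v, f v}) by
      rcases hf with hf | hf
      · simp only [hf, pair_eq_singleton, card_singleton] at h1 ⊢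
        omega
      · omega)
    simp only [mem_sdiff, mem_insert, mem_singleton, not_or] at ha hb
    exact ⟨a, b, fun _ => ⟨⟨ha.1, hb.1, n, Ne.symm ha.2.1, Ne.symm hb.2.1⟩, Ne.symm ha.2.2,
      Ne.symm hb.2.2⟩⟩
  choose a b h using this
  exact ⟨a, b, h⟩

omit [Fintype V] in
theorem le2 {P Q B : Finset V} (hB : B ⊆ Q) (h : ∀ v ∈ P, v ∈ Q ∧ v ∉ B) (c : #Q ≤ #B + 2) :
    #P ≤ 2 := by
  have := card_le_card (show P ⊆ Q \ B from fun v hv => mem_sdiff.2 (h v hv))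
  rw [card_sdiff_of_subset hB] at this
  omega

end Jt2

open Jt2 in
theorem jt2 : SJt2 := by
  intro T V _ s j κ hs ⟨pr, th, _⟩ h3 ne t2
  obtain ⟨m, x, u, v₀, d⟩ := dat h3 t2
  obtain ⟨a, b, ab⟩ := pick h3 id (Or.inl fun _ => rfl)
  have m2 := d.m2
  have cd := d.card
  have dfm : ∀ v ∈ s.Q κ, m ≤ df s.G κ v := fun v hv => by
    have := df_ge th hv
    omega
  have plain : (∀ (P : Finset V), (∀ v ∈ P, v ∈ s.Q κ ∧ (df s.G κ v = dh s.G κ v ∨
      (Odd (dg s.G v) ∧ df s.G κ v = dh s.G κ v + 1)) ∧ (v = v₀ → dh s.G κ v ≤ 1) ∧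
      (dh s.G κ v ≤ 3 ∨ df s.G κ v ≤ 3)) → #P ≤ 2) → s.Sol := fun hP =>
    core T hs pr ne (c := ⟨m, x, u, v₀, a, b, id, id, ∅, none, v₀⟩) ⟨d, th, fun v hv => (ab v hv).1,
      fun v hv => absurd hv (notMem_empty v), fun v hv => nomatch hv⟩ fun P D _ h =>
      hP P fun v hv => by
        obtain ⟨q, r, k, -, l, -⟩ := h v hv
        obtain ⟨-, t1, t2⟩ := typ th hs q r
        exact ⟨q, k.imp t2 fun o => ⟨o, t1 o⟩, l (notMem_empty v)⟩
  have hub : ∀ y ∈ s.Q κ, Odd (dg s.G y) → ∀ p q : V, (∀ i < m, y = x (i + 1) →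
      p = u i ∧ q = u (i + 1)) → #({a y, b y, p, q} : Finset V) < dg s.G y →
      (m = 2 ∨ (m = 3 ∧ y ≠ v₀)) → s.Sol := fun y hy o p q hpq lt hm => by
    obtain ⟨e, e1, e2⟩ := exists_mem_notMem_of_card_lt_card lt
    simp only [mem_insert, mem_singleton, not_or] at e2
    refine core T hs pr ne (c := ⟨m, x, u, v₀, a, b, id, id, ∅, some y, e⟩) ⟨d, th,
      fun v hv => (ab v hv).1, fun v hv => absurd hv (notMem_empty v), fun v hv => ?_⟩
      fun P D _ h => ?_
    · obtain rfl : y = v := Option.some.inj hv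
      exact ⟨hy, notMem_empty _, o, mem_N.1 e1, e2.1, e2.2.1, fun i k f =>
        ⟨fun g => e2.2.2.1 (g.trans (hpq i k f).1.symm),
          fun g => e2.2.2.2 (g.trans (hpq i k f).2.symm)⟩⟩
    have n : ∀ v ∈ P, v ≠ y := fun v hv e => (h v hv).2.2.2.1 (congrArg some e.symm)
    rcases hm with hm | hm
    · exact le2 (B := {y}) (by simpa using hy)
        (fun v hv => ⟨(h v hv).1, by simpa using n v hv⟩) (by simp [cd, hm])
    · refine le2 (B := {y, v₀}) (by simp [insert_subset_iff, hy, d.vq])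
        (fun v hv => ⟨(h v hv).1, ?_⟩) (by simp [cd, hm.1, card_pair hm.2])
      simp only [mem_insert, mem_singleton, not_or]
      refine ⟨n v hv, fun f => ?_⟩
      obtain ⟨q, r, k, -, l, -⟩ := h v hv
      obtain ⟨-, t1, t2⟩ := typ th hs q r
      have := (l (notMem_empty v)).1 f
      have := dfm v q
      rcases k with k | k
      · have := t2 k
        omega
      · have := t1 k
        omega
  obtain h2 | h3' | h4 | h5 : m = 2 ∨ m = 3 ∨ m = 4 ∨ 5 ≤ m := by omega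
  · by_cases o : Odd (dg s.G v₀)
    · refine hub v₀ d.vq o (a v₀) (a v₀) (fun i k f => absurd f (d.vx i k)) ?_ (Or.inl h2)
      have : ({a v₀, b v₀, a v₀, a v₀} : Finset V) ⊆ {a v₀, b v₀} := by simp [insert_subset_iff]
      exact ((card_le_card this).trans card_le_two).trans_lt (mem_Q.1 d.vq).1
    · refine plain fun P h => le2 (B := {v₀}) (by simpa using d.vq)
        (fun v hv => ⟨(h v hv).1, fun f => ?_⟩) (by simp [cd, h2])
      obtain ⟨q, k, l, -⟩ := h v hv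
      obtain rfl := mem_singleton.1 f
      have := l rfl
      have := dfm v q
      have := k.resolve_right fun k => o k.1
      omega
  · by_cases o : ∃ i < m, Odd (dg s.G (x (i + 1)))
    · obtain ⟨i, k, o⟩ := o
      refine hub _ (d.xq i k) o (u i) (u (i + 1)) (fun i' k' f => by
        rw [d.xi i k i' k' f]; exact ⟨rfl, rfl⟩) (card_le_four.trans_lt ?_)
        (Or.inr ⟨h3', (d.vx i k).symm⟩)
      obtain ⟨t0, t1, -⟩ := typ th hs (d.xq i k) (d.xr i k)
      have := t1 o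
      have := dfm _ (d.xq i k)
      omega
    have q1 := d.xq 0 (by omega)
    have q2 := d.xq 1 (by omega)
    have n12 : x 1 ≠ x 2 := fun e => by simpa using d.xi 0 (by omega) 1 (by omega) e
    by_cases sp : ∀ v ∈ ({x 1, x 2} : Finset V), df s.G κ v ≤ 3 ∧ 3 ≤ dh s.G κ v
    · obtain ⟨a, b, ab⟩ := pick h3 (fun v => if v = x 1 then x 2 else x 1) (Or.inr (by omega))
      have : ∀ v, ∃ w, v ∈ ({x 1, x 2} : Finset V) → Hc s.G κ w v ∧
          ∀ i < m, v = x (i + 1) → w ≠ u i ∧ w ≠ u (i + 1) := fun v => by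
        by_cases hv : v ∈ ({x 1, x 2} : Finset V)
        swap
        · exact ⟨v, fun e => absurd e hv⟩
        obtain ⟨i, k, f⟩ : ∃ i < m, v = x (i + 1) := by
          rcases mem_insert.1 hv with f | f
          exacts [⟨0, by omega, f⟩, ⟨1, by omega, mem_singleton.1 f⟩]
        obtain ⟨w, w1, w2⟩ := exists_mem_notMem_of_card_lt_card
          ((card_le_two (a := u i) (b := u (i + 1))).trans_lt (sp v hv).2)
        refine ⟨w, fun _ => ⟨Hs (mem_filter.1 w1).2, fun i' k' f' => ?_⟩⟩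
        rw [← d.xi i k i' k' (f.symm.trans f')]
        simpa using w2
      choose hh hw using this
      refine core T hs pr ne (c := ⟨m, x, u, v₀, a, b, hh, fun v => if v = x 1 then x 2 else x 1,
        {x 1, x 2}, none, v₀⟩) ⟨d, th, fun v hv => (ab v hv).1, fun v hv => ?_,
        fun v hv => nomatch hv⟩ fun P D ob h => ?_
      · have q : v ∈ s.Q κ := by
          rcases mem_insert.1 hv with f | f
          exacts [f ▸ q1, mem_singleton.1 f ▸ q2]
        refine ⟨q, (sp v hv).1, (hw v hv).1, ?_, ?_, (ab v q).2.1, (ab v q).2.2, (hw v hv).2⟩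
        · dsimp only
          split_ifs
          exacts [q2, q1]
        · dsimp only
          split_ifs with f
          exacts [f ▸ n12, f]
      have n0 : ∀ v ∈ P, v ≠ v₀ := fun v hv f => by
        obtain ⟨q, r, k, -, l, -⟩ := h v hv
        obtain ⟨-, t1, t2⟩ := typ th hs q r
        have := (l (by simp [f, d.vx 0 (by omega), d.vx 1 (by omega)])).1 f
        have := dfm v q
        rcases k with k | k
        · have := t2 k
          omega
        · have := t1 k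
          omega
      obtain ⟨i, k, n⟩ : ∃ i < m, x (i + 1) ∉ P := by
        by_contra! f
        have a1 := (h _ (f 0 (by omega))).2.2.2.2.2 (by simp)
        have a2 := (h _ (f 1 (by omega))).2.2.2.2.2 (by simp)
        simp only [zero_add, Nat.reduceAdd, if_true, if_neg n12.symm] at a1 a2
        exact (ob.ori _ _ (ob.adj _ _ a1)).1 a1 a2
      exact le2 (B := {v₀, x (i + 1)}) (by simp [insert_subset_iff, d.vq, d.xq i k])
        (fun v hv => ⟨(h v hv).1, by simpa using ⟨n0 v hv, fun f => n (f ▸ hv)⟩⟩)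
        (by simp [cd, h3', card_pair (d.vx i k)])
    · refine plain fun P h => ?_
      obtain ⟨i, k, n⟩ : ∃ i < m, x (i + 1) ∉ P := by
        by_contra! f
        have g : ∀ i < m, df s.G κ (x (i + 1)) ≤ 3 ∧ 3 ≤ dh s.G κ (x (i + 1)) := fun i k => by
          obtain ⟨q, l, -, r⟩ := h _ (f i k)
          have := l.resolve_right fun l => o ⟨i, k, l.1⟩
          have := dfm _ q
          omega
        exact sp (by simpa using ⟨g 0 (by omega), g 1 (by omega)⟩)
      refine le2 (B := {v₀, x (i + 1)}) (by simp [insert_subset_iff, d.vq, d.xq i k])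
        (fun v hv => ⟨(h v hv).1, ?_⟩) (by simp [cd, h3', card_pair (d.vx i k)])
      simp only [mem_insert, mem_singleton, not_or]
      refine ⟨fun f => ?_, fun f => n (f ▸ hv)⟩
      obtain ⟨q, l, r, -⟩ := h v hv
      have := r f
      have := dfm v q
      omega
  · subst h4
    have n1 := d.vx 0 (by omega)
    have n2 := d.vx 3 (by omega)
    have n3 : x 1 ≠ x 4 := fun e => by simpa using d.xi 0 (by omega) 3 (by omega) e
    refine plain fun P h => le2 (B := {v₀, x 1, x 4})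
      (by simp [insert_subset_iff, d.vq, d.xq 0 (by omega), d.xq 3 (by omega)])
      (fun v hv => ⟨(h v hv).1, fun f => ?_⟩) (by rw [card_eq_three.2 ⟨_, _, _, n1, n2, n3, rfl⟩, cd])
    obtain ⟨q, l, r, t⟩ := h v hv
    have := dfm v q
    have := d.d1
    have := d.dm
    simp only [mem_insert, mem_singleton] at f
    rcases f with f | rfl | rfl
    · have := r f
      omega
    · omega
    · omega
  · refine plain fun P h => le2 (Q := ∅) (B := ∅) Subset.rfl (fun v hv => ?_) (by simp)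
    obtain ⟨q, l, -, t⟩ := h v hv
    have := dfm v q
    omega

end Pool.Agent.MP_d1f1f3_co.H2
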