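import Pool.Agent.MP_d1f1f3_co.H2.Spec3

/-!
Vertices in debt: basic facts.
-/

namespace Pool.Agent.MP_d1f1f3_co.H2.Jt2

open Finset H47
open scoped Classical

variable {V : Type} [Fintype V] {s : Sg V} {κ : V → ZMod 2} {u v w : V}

theorem Fs {G : SimpleGraph V} (h : Fc G κ u w) : Fc G κ w u :=
  ⟨h.1.symm, h.2.2.1, h.2.1, h.2.2.2.symm⟩

theorem Hs {G : SimpleGraph V} (h : Hc G κ u w) : Hc G κ w u :=
  ⟨h.1.symm, h.2.2.1, h.2.1, h.2.2.2.symm⟩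

theorem FH {G : SimpleGraph V} (h : Hc G κ u w) : ¬Fc G κ u w := fun h' => h.2.2.2 h'.2.2.2

theorem mem_Q : v ∈ s.Q κ ↔ Co s.G v ∧ s.t κ v < 0 := by simp [Sg.Q]

theorem mem_N {G : SimpleGraph V} : w ∈ N G v ↔ G.Adj v w := by simp [N]

theorem mem_Fo {D : V → V → Prop} : w ∈ (s.cx κ D).Fo v ↔ D v w ∧ Fc s.G κ v w := by
  simp [Cx.Fo, Sg.cx]

theorem mem_Fi {D : V → V → Prop} : w ∈ (s.cx κ D).Fi v ↔ D w v ∧ Fc s.G κ v w := by
  simp [Cx.Fi, Sg.cx]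

theorem neg_Q {D : V → V → Prop} (h : (s.cx κ D).Neg v) : v ∈ s.Q κ := by
  refine mem_Q.2 ⟨h.1, ?_⟩
  have : tau s.G κ v < df s.G κ v := h.2
  unfold Sg.t
  split_ifs <;> omega

theorem Q_neg {D : V → V → Prop} (h : v ∈ s.Q κ) (hr : v ≠ s.ρ) : (s.cx κ D).Neg v := by
  have := (mem_Q.1 h).2
  rw [Sg.t, if_neg fun e => hr e.1] at this
  exact ⟨(mem_Q.1 h).1, show tau s.G κ v < df s.G κ v by omega⟩

theorem re (hs : s.Ok) (h : Co s.G s.ρ) : s.Re := by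
  rcases hs.root with a | a
  · exact mem_N.1 (a.1 ▸ mem_singleton_self _)
  · have := hs.iso
    rw [Co, a.2.1] at h
    omega

variable (th : s.TH κ)
include th

theorem t_ge (hv : Co s.G v) : -1 ≤ s.t κ v := by
  have := th {v} (by simpa using hv)
  simp only [Sg.Dl, Dl, sum_singleton, filter_singleton, Fc, Hc, s.G.irrefl, false_and, if_false,
    card_empty] at this
  omega

theorem pair (hu : Co s.G u) (hw : Co s.G w) (h : u ≠ w) : -1 ≤ 2 * s.t κ u + 2 * s.t κ w + 2 +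
    (if Fc s.G κ u w then 2 else 0) - if Hc s.G κ u w then 2 else 0 := by
  have := th {u, w} (by simp [hu, hw])
  have a : ∀ v, ¬Fc s.G κ v v := fun _ e => e.1.ne rfl
  have b : ∀ v, ¬Hc s.G κ v v := fun _ e => e.1.ne rfl
  have c : Fc s.G κ w u ↔ Fc s.G κ u w := ⟨Fs, Fs⟩
  have d : Hc s.G κ w u ↔ Hc s.G κ u w := ⟨Hs, Hs⟩
  simp only [Sg.Dl, Dl, sum_pair h, filter_insert, filter_singleton, a, b, c, d, if_false] at this
  split_ifs at this ⊢ <;> simp at this <;> omega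

theorem qq (hv : v ∈ s.Q κ) (hw : w ∈ s.Q κ) (h : v ≠ w) : Fc s.G κ v w := by
  have a := pair th (mem_Q.1 hv).1 (mem_Q.1 hw).1 h
  have := (mem_Q.1 hv).2
  have := (mem_Q.1 hw).2
  by_contra e
  rw [if_neg e] at a
  split_ifs at a <;> omega

theorem don (hv : v ∈ s.Q κ) (h : Hc s.G κ u v) : 1 ≤ s.t κ u := by
  have := pair th h.2.1 h.2.2.1 h.1.ne
  have := (mem_Q.1 hv).2
  rw [if_neg (FH h), if_pos h] at *
  omega

theorem don' (hv : v ∈ s.Q κ) (h : Hc s.G κ u v) : u ∉ s.Q κ := fun e => by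
  have := don th hv h
  have := (mem_Q.1 e).2
  omega

theorem df_ge (hv : v ∈ s.Q κ) : #(s.Q κ) ≤ df s.G κ v + 1 := by
  rw [← card_erase_add_one hv]
  exact Nat.succ_le_succ (card_le_card fun w hw => mem_filter.2 ⟨mem_univ _,
    qq th hv (mem_of_mem_erase hw) (ne_of_mem_erase hw).symm⟩)

theorem typ (hs : s.Ok) (hv : v ∈ s.Q κ) (hr : v ≠ s.ρ) :
    dg s.G v = df s.G κ v + dh s.G κ v ∧ (Odd (dg s.G v) → df s.G κ v = dh s.G κ v + 1) ∧
      (Wv s.G κ v → df s.G κ v = dh s.G κ v) := by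
  obtain ⟨c, t1⟩ := mem_Q.1 hv
  have t2 := t_ge th c
  have e : dg s.G v = df s.G κ v + dh s.G κ v := by
    have co : ∀ w, s.G.Adj v w → Co s.G w := fun w a => (hs.deg w).resolve_left fun b => by
      have m := mem_N.2 a.symm
      have d : dg s.G w = 1 := le_antisymm b (card_pos.2 ⟨v, m⟩)
      obtain rfl := hs.leaf w d
      rcases hs.root with r | r
      · exact hr (mem_singleton.1 (r.1 ▸ m))
      · rw [r.1, hs.iso] at d
        omega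
    rw [dg, ← card_filter_add_card_filter_not (s := N s.G v) fun w => κ v = κ w]
    congr 2 <;> ext w <;> simp only [mem_filter, mem_N, mem_univ, true_and, Fc, Hc]
    · exact ⟨fun a => ⟨a.1, c, co w a.1, a.2⟩, fun a => ⟨a.1, a.2.2.2⟩⟩
    · exact ⟨fun a => ⟨a.1, c, co w a.1, a.2⟩, fun a => ⟨a.1, a.2.2.2⟩⟩
  rw [Sg.t, if_neg fun e => hr e.1, tau] at t1 t2
  refine ⟨e, fun o => ?_, fun o => ?_⟩
  · rw [if_neg fun a => Nat.not_even_iff_odd.2 o a.2.1] at t1 t2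
    obtain ⟨k, hk⟩ := o
    omega
  · rw [if_pos o] at t1 t2
    obtain ⟨k, hk⟩ := o.2.1
    omega

omit th in
theorem fio {D : V → V → Prop} (ob : s.Ob D) :
    #((s.cx κ D).Fi v) + #((s.cx κ D).Fo v) ≤ df s.G κ v := by
  rw [← card_union_of_disjoint (disjoint_left.2 fun w a b =>
    (ob.ori _ _ (mem_Fo.1 b).2.1).1 (mem_Fo.1 b).1 (mem_Fi.1 a).1)]
  exact card_le_card (union_subset (fun w a => mem_filter.2 ⟨mem_univ _, (mem_Fi.1 a).2⟩)
    fun w a => mem_filter.2 ⟨mem_univ _, (mem_Fo.1 a).2⟩)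

omit th [Fintype V] in
theorem two {A B C : Finset V} {a b : V} (h : ∀ w ∈ A, w ≠ a → w ≠ b → w ∈ B) (h4 : 4 ≤ #A)
    (hC : #B / 2 ≤ #C) : C.Nonempty := by
  have h1 : #(A \ {a, b}) ≤ #B := card_le_card fun w hw => by
    simp only [mem_sdiff, mem_insert, mem_singleton, not_or] at hw
    exact h w hw.1 hw.2.1 hw.2.2
  have h2 := le_card_sdiff {a, b} A
  have h3 := card_le_two (a := a) (b := b)
  exact card_pos.1 (by omega)

/-- The trail with the remaining vertex. -/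
structure Dat (s : Sg V) (κ : V → ZMod 2) (m : ℕ) (x u : ℕ → V) (v₀ : V) : Prop where
  m2 : 2 ≤ m
  card : #(s.Q κ) = m + 1
  xq : ∀ i < m, x (i + 1) ∈ s.Q κ
  xi : ∀ i < m, ∀ k < m, x (i + 1) = x (k + 1) → i = k
  xr : ∀ i < m, x (i + 1) ≠ s.ρ
  vq : v₀ ∈ s.Q κ
  vx : ∀ i < m, v₀ ≠ x (i + 1)
  all : ∀ v ∈ s.Q κ, v = v₀ ∨ ∃ i < m, v = x (i + 1)
  h0 : ∀ i < m, Hc s.G κ (u i) (x (i + 1))
  h1 : ∀ i < m, Hc s.G κ (u (i + 1)) (x (i + 1))
  ui : ∀ i ≤ m, ∀ k ≤ m, u i = u k → i = k ∨ (i = 0 ∧ k = m) ∨ (i = m ∧ k = 0)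
  nb : ∀ i ≤ m, (1 ≤ i ∧ i < m) ∨ u 0 = u m → s.Nbi κ {w | ∃ k, k ≤ m ∧ w = u k} (u i)
  d1 : m ≤ dh s.G κ (x 1)
  dm : m ≤ dh s.G κ (x m)

omit th in
theorem dat (h3 : 3 ≤ #(s.Q κ)) (h : s.T2 κ) : ∃ m x u v₀, Dat s κ m x u v₀ := by
  obtain ⟨m, x, u, c, T, r, a0, am, n, d1, dm, nb⟩ := h
  have xq : ∀ i < m, x (i + 1) ∈ s.Q κ := fun i hi => T.mem _ (by omega) hi
  have xi : ∀ i < m, ∀ k < m, x (i + 1) = x (k + 1) → i = k := fun i a k b e =>
    Nat.succ_injective (T.xi _ _ (by omega) a (by omega) b e)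
  obtain ⟨v₀, hv⟩ : ∃ v₀, s.Q κ \ (range m).image (fun i => x (i + 1)) = {v₀} := by
    rw [← card_eq_one, card_sdiff_of_subset (image_subset_iff.2 fun i a => xq i (mem_range.1 a)),
      card_image_of_injOn fun i a k b => xi i (mem_range.1 a) k (mem_range.1 b), card_range]
    omega
  have hv' : ∀ v, (v ∈ s.Q κ ∧ ¬∃ i < m, x (i + 1) = v) ↔ v = v₀ := fun v => by
    simpa only [mem_sdiff, mem_image, mem_range, mem_singleton] using Finset.ext_iff.1 hv v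
  refine ⟨m, x, u, v₀, by omega, c.symm, xq, xi, fun i a => r _ (by omega) a, ((hv' _).2 rfl).1,
    fun i a e => ((hv' _).2 rfl).2 ⟨i, a, e.symm⟩, fun v a => or_iff_not_imp_right.2 fun b =>
      (hv' v).1 ⟨a, fun ⟨i, c, d⟩ => b ⟨i, c, d.symm⟩⟩, fun i a => ?_, fun i a => ?_,
    fun i a k b e => ?_, fun i a b => ?_, d1, dm⟩
  · rcases Nat.eq_zero_or_pos i with rfl | b
    exacts [a0, (T.adj i b a).2]
  · rcases (Nat.succ_le_of_lt a).eq_or_lt with b | b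
    exacts [(show i + 1 = m from b) ▸ am, (T.adj (i + 1) (by omega) b).1]
  · by_contra f
    by_cases hi : 1 ≤ i ∧ i < m <;> by_cases hk : 1 ≤ k ∧ k < m
    · exact f (Or.inl (T.ui i k hi.1 hi.2 hk.1 hk.2 e))
    · obtain rfl | rfl : k = 0 ∨ k = m := by omega
      exacts [(n i hi.1 hi.2).1 e.symm, (n i hi.1 hi.2).2 e.symm]
    · obtain rfl | rfl : i = 0 ∨ i = m := by omega
      exacts [(n k hk.1 hk.2).1 e, (n k hk.1 hk.2).2 e]
    · omega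
  · by_cases hi : 1 ≤ i ∧ i < m
    · exact T.nb i hi.1 hi.2
    · have e := b.resolve_left hi
      obtain rfl | rfl : i = 0 ∨ i = m := by omega
      exacts [nb e, e ▸ nb e]

end Pool.Agent.MP_d1f1f3_co.H2.Jt2
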