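import Pool.Agent.MP_d1f1f3_co.H2.Jt2a

/-!
The plan for a trail with donors at both ends.
-/

namespace Pool.Agent.MP_d1f1f3_co.H2.Jt2

open Finset H47
open scoped Classical

variable {V : Type} [Fintype V] {s : Sg V} {κ : V → ZMod 2} {v w p q : V}

/-- The choices. -/
structure Ch (V : Type) where
  m : ℕ
  x : ℕ → V
  u : ℕ → V
  v₀ : V
  a : V → V
  b : V → V
  hh : V → V
  xx : V → V
  Z : Finset V
  y : Option V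
  ee : V

namespace Ch

variable (s κ) (c : Ch V)

/-- Admissible choices. -/
structure Ok : Prop extends Dat s κ c.m c.x c.u c.v₀ where
  th : s.TH κ
  ab : ∀ v ∈ s.Q κ, c.a v ∈ s.Q κ ∧ c.b v ∈ s.Q κ ∧ c.a v ≠ c.b v ∧ v ≠ c.a v ∧ v ≠ c.b v
  z : ∀ v ∈ c.Z, v ∈ s.Q κ ∧ df s.G κ v ≤ 3 ∧ Hc s.G κ (c.hh v) v ∧ c.xx v ∈ s.Q κ ∧ v ≠ c.xx v ∧
    c.xx v ≠ c.a v ∧ c.xx v ≠ c.b v ∧
    ∀ i < c.m, v = c.x (i + 1) → c.hh v ≠ c.u i ∧ c.hh v ≠ c.u (i + 1)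
  y : ∀ v, c.y = some v → v ∈ s.Q κ ∧ v ∉ c.Z ∧ Odd (dg s.G v) ∧ s.G.Adj v c.ee ∧ c.ee ≠ c.a v ∧
    c.ee ≠ c.b v ∧ ∀ i < c.m, v = c.x (i + 1) → c.ee ≠ c.u i ∧ c.ee ≠ c.u (i + 1)

/-- Pairs at vertices in debt. -/
def R1 (v p q : V) : Prop :=
  (p = c.a v ∧ q = c.b v) ∨ (∃ i < c.m, v = c.x (i + 1) ∧ p = c.u i ∧ q = c.u (i + 1)) ∨
    (v ∈ c.Z ∧ p = c.hh v ∧ q = c.xx v)

/-- Pairs at donors. -/
def R2 (v p q : V) : Prop :=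
  (∃ i, i + 1 < c.m ∧ v = c.u (i + 1) ∧ p = c.x (i + 1) ∧ q = c.x (i + 1 + 1)) ∨
    (c.u 0 ≠ c.u c.m ∧ df s.G κ v = 1 ∧ dg s.G v = 4 ∧ Fc s.G κ v p ∧
      ((v = c.u 0 ∧ q = c.x 1) ∨ (v = c.u c.m ∧ q = c.x c.m)))

/-- The plan. -/
noncomputable def pl : Pl V where
  Tr := univ.filter fun t => (t.1 ∈ s.Q κ ∧ c.R1 t.1 t.2.1 t.2.2) ∨
    (t.1 ∉ s.Q κ ∧ c.R2 s κ t.1 t.2.1 t.2.2)
  un v := if c.y = some v then some c.ee else none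
  hub := c.y

variable {s κ c}

theorem tr1 (hv : v ∈ s.Q κ) : (v, p, q) ∈ (c.pl s κ).Tr ↔ c.R1 v p q := by simp [pl, hv]

theorem tr2 (hv : v ∉ s.Q κ) : (v, p, q) ∈ (c.pl s κ).Tr ↔ c.R2 s κ v p q := by simp [pl, hv]

theorem un_eq : (c.pl s κ).un v = some w ↔ c.y = some v ∧ c.ee = w := by simp [pl]

variable (h : c.Ok s κ)
include h

theorem Ok.hm : Hc s.G κ (c.u c.m) (c.x c.m) ∧ c.x c.m ∈ s.Q κ := by
  have a := h.m2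
  have e : c.m - 1 + 1 = c.m := by omega
  exact ⟨e ▸ h.h1 (c.m - 1) (by omega), e ▸ h.xq (c.m - 1) (by omega)⟩

theorem Ok.uq (i : ℕ) (hi : i ≤ c.m) : c.u i ∉ s.Q κ := by
  rcases hi.eq_or_lt with rfl | a
  exacts [don' h.th h.hm.2 h.hm.1, don' h.th (h.xq i a) (h.h0 i a)]

theorem Ok.ok : (c.pl s κ).Ok s.G := by
  have m2 := h.m2
  refine ⟨fun v p q t => ?_, fun v p q p' q' t t' => ?_, fun v e t => ?_, fun y t => ⟨c.ee, ?_⟩⟩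
  · by_cases hv : v ∈ s.Q κ
    · refine ⟨(mem_Q.1 hv).1, ?_⟩
      rcases (tr1 hv).1 t with ⟨rfl, rfl⟩ | ⟨i, a, rfl, rfl, rfl⟩ | ⟨a, rfl, rfl⟩
      · obtain ⟨a, b, d, e, f⟩ := h.ab v hv
        exact ⟨(qq h.th hv a e).1, (qq h.th hv b f).1, d⟩
      · exact ⟨(h.h0 i a).1.symm, (h.h1 i a).1.symm, fun e => by
          have := h.ui i a.le (i + 1) a e
          omega⟩
      · obtain ⟨-, -, b, d, e, -⟩ := h.z v a
        exact ⟨b.1.symm, (qq h.th hv d e).1, fun f => don' h.th hv b (f ▸ d)⟩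
    · rcases (tr2 hv).1 t with ⟨i, a, rfl, rfl, rfl⟩ | ⟨-, -, -, a, ⟨rfl, rfl⟩ | ⟨rfl, rfl⟩⟩
      · exact ⟨(h.h0 _ a).2.1, (h.h1 i (by omega)).1, (h.h0 _ a).1, fun e => by
          have := h.xi i (by omega) _ a e
          omega⟩
      · exact ⟨a.2.1, a.1, (h.h0 0 (by omega)).1, fun e => FH (h.h0 0 (by omega)) (e ▸ a)⟩
      · exact ⟨a.2.1, a.1, h.hm.1.1, fun e => FH h.hm.1 (e ▸ a)⟩
  · by_cases hv : v ∈ s.Q κ
    · obtain ⟨a1, a2, -⟩ := h.ab v hv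
      have n : ∀ {p q : V}, p ∈ s.Q κ → q ∉ s.Q κ → p ≠ q ∧ q ≠ p := fun a b =>
        ⟨fun e => b (e ▸ a), fun e => b (e ▸ a)⟩
      have u0 := fun i (a : i < c.m) => h.uq i a.le
      have u1 := fun i (a : i < c.m) => h.uq (i + 1) a
      have zz := fun a => don' h.th hv (h.z v a).2.2.1
      rcases (tr1 hv).1 t with ⟨rfl, rfl⟩ | ⟨i, a, e, rfl, rfl⟩ | ⟨a, rfl, rfl⟩ <;>
        rcases (tr1 hv).1 t' with ⟨rfl, rfl⟩ | ⟨i', a', e', rfl, rfl⟩ | ⟨a', rfl, rfl⟩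
      · exact Or.inl ⟨rfl, rfl⟩
      · exact Or.inr ⟨(n a1 (u0 _ a')).1, (n a1 (u1 _ a')).1, (n a2 (u0 _ a')).1, (n a2 (u1 _ a')).1⟩
      · obtain ⟨-, -, -, -, -, b1, b2, -⟩ := h.z v a'
        exact Or.inr ⟨(n a1 (zz a')).1, b1.symm, (n a2 (zz a')).1, b2.symm⟩
      · exact Or.inr ⟨(n a1 (u0 _ a)).2, (n a2 (u0 _ a)).2, (n a1 (u1 _ a)).2, (n a2 (u1 _ a)).2⟩
      · obtain rfl := h.xi i a i' a' (e.symm.trans e')
        exact Or.inl ⟨rfl, rfl⟩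
      · obtain ⟨-, -, -, b0, -, -, -, b⟩ := h.z v a'
        exact Or.inr ⟨(b i a e).1.symm, (n b0 (u0 _ a)).2, (b i a e).2.symm, (n b0 (u1 _ a)).2⟩
      · obtain ⟨-, -, -, -, -, b1, b2, -⟩ := h.z v a
        exact Or.inr ⟨(n a1 (zz a)).2, (n a2 (zz a)).2, b1, b2⟩
      · obtain ⟨-, -, -, b0, -, -, -, b⟩ := h.z v a
        exact Or.inr ⟨(b i' a' e').1, (b i' a' e').2, (n b0 (u0 _ a')).1, (n b0 (u1 _ a')).1⟩
      · exact Or.inl ⟨rfl, rfl⟩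
    · refine Or.inl ?_
      rcases (tr2 hv).1 t with ⟨i, a, e, rfl, rfl⟩ | ⟨n, d, -, a, b⟩ <;>
        rcases (tr2 hv).1 t' with ⟨i', a', e', rfl, rfl⟩ | ⟨n', -, -, a', b'⟩
      · obtain rfl : i = i' := by
          have := h.ui _ a.le _ a'.le (e.symm.trans e')
          omega
        exact ⟨rfl, rfl⟩
      · rcases b' with b' | b' <;> have := h.ui _ a.le _ (by omega) (e.symm.trans b'.1) <;> omega
      · rcases b with b | b <;> have := h.ui _ a'.le _ (by omega) (e'.symm.trans b.1) <;> omega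
      · refine ⟨card_le_one.1 d.le _ (mem_filter.2 ⟨mem_univ _, a⟩) _
          (mem_filter.2 ⟨mem_univ _, a'⟩), ?_⟩
        rcases b with b | b <;> rcases b' with b' | b'
        exacts [b.2.trans b'.2.symm, absurd (b.1.symm.trans b'.1) n,
          absurd (b'.1.symm.trans b.1) n, b.2.trans b'.2.symm]
  · obtain ⟨t', rfl⟩ := un_eq.1 t
    obtain ⟨a1, a2, a3, a4, a5, a6, a7⟩ := h.y v t'
    refine ⟨(mem_Q.1 a1).1, a3, a4, fun p => ⟨fun e => ?_, fun e => ?_⟩⟩ <;>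
      rcases (tr1 a1).1 e with b | ⟨i, b, d, e⟩ | b
    exacts [a5 b.1, (a7 i b d).1 e.1, a2 b.1, a6 b.2, (a7 i b d).2 e.2, a2 b.1]
  · exact un_eq.2 ⟨t, rfl⟩

omit h in
theorem us (hv : v ∈ s.Q κ) (hz : v ∉ c.Z) (hy : c.y ≠ some v) (t : (c.pl s κ).Us v w) :
    w = c.a v ∨ w = c.b v ∨ ∃ i < c.m, v = c.x (i + 1) ∧ (w = c.u i ∨ w = c.u (i + 1)) := by
  rcases t with ⟨p, t | t⟩ | t
  · rcases (tr1 hv).1 t with b | ⟨i, b, d, e⟩ | b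
    exacts [Or.inl b.1, Or.inr (Or.inr ⟨i, b, d, Or.inl e.1⟩), absurd b.1 hz]
  · rcases (tr1 hv).1 t with b | ⟨i, b, d, e⟩ | b
    exacts [Or.inr (Or.inl b.2), Or.inr (Or.inr ⟨i, b, d, Or.inr e.2⟩), absurd b.1 hz]
  · exact absurd (un_eq.1 t).1 hy

theorem Ok.nat (hv : v ∉ s.Q κ) (hd : ¬(df s.G κ v = 1 ∧ dg s.G v = 4)) :
    (c.pl s κ).Nat s.G κ v := by
  have n : c.y ≠ some v := fun e => hv (h.y v e).1
  refine ⟨if_neg n, ?_⟩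
  rintro w (⟨p, t | t⟩ | t)
  · rcases (tr2 hv).1 t with ⟨i, a, rfl, rfl, rfl⟩ | b
    exacts [FH (h.h1 i (by omega)), absurd ⟨b.2.1, b.2.2.1⟩ hd]
  · rcases (tr2 hv).1 t with ⟨i, a, rfl, rfl, rfl⟩ | b
    exacts [FH (h.h0 _ a), absurd ⟨b.2.1, b.2.2.1⟩ hd]
  · exact absurd (un_eq.1 t).1 n

variable {D : V → V → Prop} (ob : s.Ob D) (od : (c.pl s κ).Od s.G κ D)
include ob od

/-- The direction is constant along the trail. -/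
theorem Ok.dir : ∃ j ≤ 1, ∀ i < c.m, D (c.u (i + j)) (c.x (i + 1)) := by
  have a : ∀ i < c.m, D (c.u (i + 1)) (c.x (i + 1)) ↔ ¬D (c.u i) (c.x (i + 1)) := fun i hi => by
    rw [ob.ori _ _ (h.h1 i hi).1, ob.ori _ _ (h.h0 i hi).1, not_not,
      od.tr _ _ _ ((tr1 (h.xq i hi)).2 (Or.inr (Or.inl ⟨i, hi, rfl, rfl, rfl⟩)))]
  have b : ∀ i < c.m, D (c.u i) (c.x (i + 1)) ↔ D (c.u 0) (c.x 1) := fun i hi => by
    induction i with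
    | zero => rfl
    | succ i ih =>
      have := od.tr _ _ _ ((tr2 (h.uq _ hi.le)).2 (Or.inl ⟨i, hi, rfl, rfl, rfl⟩))
      rw [← ih (by omega), ← not_iff_not, ← this, a i (by omega)]
  by_cases e : D (c.u 0) (c.x 1)
  · exact ⟨0, zero_le_one, fun i hi => (b i hi).2 e⟩
  · exact ⟨1, le_rfl, fun i hi => (a i hi).2 (mt (b i hi).1 e)⟩

/-- An unseparated arc out to a vertex in debt, and one in. -/
theorem Ok.oc (hv : v ∈ s.Q κ) : ∃ w ∈ (s.cx κ D).Fo v, (w = c.a v ∨ w = c.b v) ∧ w ∈ s.Q κ ∧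
    ((s.cx κ D).Fi v).Nonempty := by
  obtain ⟨a, b, -, d, e⟩ := h.ab v hv
  have f := qq h.th hv a d
  have g := qq h.th hv b e
  have t := od.tr _ _ _ ((tr1 hv).2 (Or.inl ⟨rfl, rfl⟩))
  by_cases k : D v (c.a v)
  · exact ⟨_, mem_Fo.2 ⟨k, f⟩, Or.inl rfl, a, _,
      mem_Fi.2 ⟨(ob.ori _ _ g.1.symm).2 (t.1 k), g⟩⟩
  · exact ⟨_, mem_Fo.2 ⟨not_not.1 (mt t.2 k), g⟩, Or.inr rfl, b, _,
      mem_Fi.2 ⟨(ob.ori _ _ f.1.symm).2 k, f⟩⟩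

theorem Ok.hub (hy : c.y = some v) : ¬(s.cx κ D).Yc v := by
  obtain ⟨-, -, a, b, -⟩ := h.y v hy
  have u : (c.pl s κ).un v = some c.ee := un_eq.2 ⟨hy, rfl⟩
  rintro (e | e)
  · exact Nat.not_even_iff_odd.2 a e.2.2.1
  · exact (ob.ori _ _ b).1 ((od.un _ _ u).2 e.2.2) (od.hub _ _ hy u)

theorem Ok.fo (hv : v ∈ s.Q κ) (hz : v ∉ c.Z) (hy : c.y ≠ some v) (hd : 4 ≤ df s.G κ v) :
    2 ≤ #((s.cx κ D).Fo v) := by
  obtain ⟨w, hw⟩ := two (a := c.a v) (b := c.b v) (fun w a b d => mem_filter.2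
    ⟨mem_N.2 (mem_filter.1 a).2.1, (mem_filter.1 a).2, fun t => by
      rcases us hv hz hy t with e | e | ⟨i, e, rfl, rfl | rfl⟩
      exacts [b e, d e, FH (Hs (h.h0 i e)) (mem_filter.1 a).2, FH (Hs (h.h1 i e)) (mem_filter.1 a).2]⟩)
    hd (od.fo v (mem_Q.1 hv).1)
  obtain ⟨w', a, b, -⟩ := h.oc ob od hv
  obtain ⟨d, e⟩ := mem_filter.1 hw
  obtain ⟨-, f, g⟩ := mem_filter.1 d
  refine one_lt_card.2 ⟨w, mem_Fo.2 ⟨e, f⟩, w', a, fun k => g (Or.inl ?_)⟩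
  rcases b with b | b
  · exact ⟨_, Or.inl ((tr1 hv).2 (Or.inl ⟨k.trans b, rfl⟩))⟩
  · exact ⟨_, Or.inr ((tr1 hv).2 (Or.inl ⟨rfl, k.trans b⟩))⟩

omit ob in
theorem Ok.hi (hv : v ∈ s.Q κ) (hz : v ∉ c.Z) (hy : c.y ≠ some v)
    (hd : 4 ≤ dh s.G κ v ∨ (v = c.v₀ ∧ 2 ≤ dh s.G κ v)) :
    ∃ w, D w v ∧ ¬Fc s.G κ v w ∧ ¬(c.pl s κ).Us v w := by
  obtain ⟨a1, a2, -⟩ := h.ab v hv
  have k : ∀ w ∈ univ.filter (Hc s.G κ v), (∀ i < c.m, v = c.x (i + 1) →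
      w ≠ c.u i ∧ w ≠ c.u (i + 1)) → w ∈ (c.pl s κ).Hr s.G κ v := fun w a b => by
    have a := (mem_filter.1 a).2
    refine mem_filter.2 ⟨mem_N.2 a.1, FH a, fun t => ?_⟩
    rcases us hv hz hy t with e | e | ⟨i, e, f, g | g⟩
    exacts [don' h.th hv (Hs a) (e ▸ a1), don' h.th hv (Hs a) (e ▸ a2), (b i e f).1 g,
      (b i e f).2 g]
  have o := od.hi v (mem_Q.1 hv).1
  obtain ⟨w, hw⟩ : (((c.pl s κ).Hr s.G κ v).filter fun w => D w v).Nonempty := by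
    rcases h.all v hv with e | ⟨i, e, f⟩
    · have : dh s.G κ v ≤ _ :=
        card_le_card fun w a => k w a fun i b d => absurd (e.symm.trans d) (h.vx i b)
      exact card_pos.1 (by omega)
    · exact two (a := c.u i) (b := c.u (i + 1)) (fun w a b d => k w a fun i' e' f' => by
        obtain rfl := h.xi i e i' e' (f.symm.trans f')
        exact ⟨b, d⟩) (hd.resolve_right fun g => h.vx i e (g.1.symm.trans f)) o
  obtain ⟨d, e⟩ := mem_filter.1 hw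
  exact ⟨w, e, (mem_filter.1 d).2⟩

end Ch

end Pool.Agent.MP_d1f1f3_co.H2.Jt2
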