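import Pool.Agent.MP_d1f1f3_co.H2.Spec3

/-!
The design for a trail with a donor at the start and an odd vertex at the end.
-/

namespace Pool.Agent.MP_d1f1f3_co.H2

open Finset Relation H47
open scoped Classical

namespace Jt3

variable {V : Type} [Fintype V] {s : Sg V} {κ : V → ZMod 2}

theorem memQ {v : V} : v ∈ s.Q κ ↔ Co s.G v ∧ s.t κ v < 0 := by simp [Sg.Q]

theorem t_ge (hT : s.TH κ) {v : V} (hv : Co s.G v) : -1 ≤ s.t κ v := by
  have h := hT {v} (by simpa using hv)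
  simp [Sg.Dl, H2.Dl, filter_singleton, Fc, Hc] at h
  omega

theorem pair (hT : s.TH κ) {v w : V} (hv : Co s.G v) (hw : Co s.G w) (hn : v ≠ w)
    (hF : ¬Fc s.G κ v w) : 0 ≤ s.t κ v + s.t κ w + 1 - if Hc s.G κ v w then 1 else 0 := by
  have h := hT {v, w} (by simp [hv, hw])
  have f1 : ¬Fc s.G κ w v := fun h => hF ⟨h.1.symm, hv, hw, h.2.2.2.symm⟩
  have f2 : Hc s.G κ w v ↔ Hc s.G κ v w :=
    ⟨fun h => ⟨h.1.symm, hv, hw, h.2.2.2.symm⟩, fun h => ⟨h.1.symm, hw, hv, h.2.2.2.symm⟩⟩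
  have f3 : ∀ a, ¬Fc s.G κ a a := fun a h => h.1.ne rfl
  have f4 : ∀ a, ¬Hc s.G κ a a := fun a h => h.1.ne rfl
  rw [Sg.Dl, H2.Dl, sum_pair hn] at h
  by_cases hH : Hc s.G κ v w <;>
    simp [filter_insert, filter_singleton, hF, f1, f2, f3, f4, hH] at h ⊢ <;> omega

theorem memF (hT : s.TH κ) {v w : V} (hv : v ∈ s.Q κ) (hw : w ∈ s.Q κ) (hn : v ≠ w) :
    Fc s.G κ v w := by
  by_contra hF
  have h := pair hT (memQ.1 hv).1 (memQ.1 hw).1 hn hF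
  have h1 := (memQ.1 hv).2
  have h2 := (memQ.1 hw).2
  split_ifs at h <;> omega

theorem don (hT : s.TH κ) {g v : V} (hv : v ∈ s.Q κ) (h : Hc s.G κ g v) : 1 ≤ s.t κ g := by
  have h1 := pair hT h.2.1 h.2.2.1 h.1.ne (fun f => h.2.2.2 f.2.2.2)
  have h2 := (memQ.1 hv).2
  rw [if_pos h] at h1
  omega

theorem negQ {D : V → V → Prop} {v : V} (h : (s.cx κ D).Neg v) : v ∈ s.Q κ := by
  refine memQ.2 ⟨h.1, ?_⟩
  have h1 : tau s.G κ v < df s.G κ v := h.2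
  rw [Sg.t]
  split_ifs <;> omega

theorem df_ge (hT : s.TH κ) {v : V} (hv : v ∈ s.Q κ) : #(s.Q κ) ≤ df s.G κ v + 1 := by
  rw [← card_erase_add_one hv]
  exact Nat.succ_le_succ (card_le_card fun w hw => by
    simpa using memF hT hv (mem_of_mem_erase hw) (ne_of_mem_erase hw).symm)

/-- The other edges at a vertex. -/
noncomputable def oth (s : Sg V) (κ : V → ZMod 2) (v : V) : Finset V :=
  (N s.G v).filter fun w => ¬Fc s.G κ v w

theorem oth_add (v : V) : df s.G κ v + #(oth s κ v) = dg s.G v := by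
  rw [dg, ← card_filter_add_card_filter_not (s := N s.G v) (Fc s.G κ v), df]
  congr 2
  ext w
  simpa [N] using fun h : Fc s.G κ v w => h.1

theorem yc_le (hT : s.TH κ) {D : V → V → Prop} {v : V} (h : (s.cx κ D).Yc v)
    (hρ : ¬(v = s.ρ ∧ s.Re)) : df s.G κ v ≤ #(oth s κ v) + 1 := by
  have h1 := oth_add (s := s) (κ := κ) v
  have hc : Co s.G v := h.elim (·.1) (·.1)
  have h2 := t_ge hT hc
  rw [Sg.t, if_neg fun u => hρ ⟨u.1, u.2.1⟩, tau] at h2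
  rcases h with h | h
  · have h3 : Wv s.G κ v := h.2
    obtain ⟨k, hk⟩ := h3.2.1
    rw [if_pos h3] at h2
    omega
  · obtain ⟨k, hk⟩ : Odd (dg s.G v) := h.2.1
    split_ifs at h2 <;> omega

/-- The data of the trail. -/
structure Dat (s : Sg V) (κ : V → ZMod 2) (n : ℕ) (y u : ℕ → V) (α β : V → V) (o : V) : Prop where
  th : s.TH κ
  n1 : 1 ≤ n
  ym : ∀ i ≤ n, y i ∈ s.Q κ
  yi : ∀ i ≤ n, ∀ k ≤ n, y i = y k → i = k
  ui : ∀ i ≤ n, ∀ k ≤ n, u i = u k → i = k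
  h1 : ∀ i ≤ n, Hc s.G κ (u i) (y i)
  h2 : ∀ i < n, Hc s.G κ (u (i + 1)) (y i)
  ab : ∀ v ∈ s.Q κ, α v ∈ s.Q κ ∧ β v ∈ s.Q κ ∧ v ≠ α v ∧ v ≠ β v ∧ α v ≠ β v
  om : o ∈ s.Q κ
  oy : ∀ i ≤ n, y i ≠ o
  all : ∀ v ∈ s.Q κ, v = o ∨ ∃ i ≤ n, v = y i
  card : #(s.Q κ) = n + 2
  odd : Odd (dg s.G (y n))
  dh0 : n + 1 ≤ dh s.G κ (y 0)
  nb : ∀ i < n, s.Nbi κ {w | ∃ k, k ≤ n + 1 ∧ w = u k} (u (i + 1))

variable (s κ) (n : ℕ) (y u : ℕ → V) (α β : V → V)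

/-- The prescribed pairs. -/
def Tp (v a b : V) : Prop :=
  (∃ i < n, v = u (i + 1) ∧ a = y i ∧ b = y (i + 1)) ∨
  (∃ i < n, v = y i ∧ a = u i ∧ b = u (i + 1)) ∨ (v ∈ s.Q κ ∧ a = α v ∧ b = β v) ∨
  (v = u 0 ∧ dg s.G v = 4 ∧ df s.G κ v = 1 ∧ Fc s.G κ v a ∧ b = y 0)

/-- The plan. -/
noncomputable def pl : Pl V :=
  ⟨univ.filter fun e => Tp s κ n y u α β e.1 e.2.1 e.2.2,
    fun v => if v = y n then some (u n) else none, some (y n)⟩

/-- The certificate. -/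
noncomputable def cd (o : V) (D : V → V → Prop) : Sg.Cd V :=
  ⟨(range (n + 1)).image fun i => (u i, y i), some o, none, ∅,
    fun v => if D v (α v) then α v else β v⟩

variable {s κ n y u α β} {o : V} {D : V → V → Prop}

theorem mem_tr {v a b : V} : (v, a, b) ∈ (pl s κ n y u α β).Tr ↔ Tp s κ n y u α β v a b := by
  simp [pl]

theorem un_eq {v e : V} : (pl s κ n y u α β).un v = some e ↔ v = y n ∧ e = u n := by
  simp [pl, eq_comm]

omit [Fintype V] in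
theorem mem_P {a : V × V} : a ∈ (cd n y u α β o D).P ↔ ∃ i ≤ n, a = (u i, y i) := by
  simp [cd, eq_comm]

namespace Dat

variable (d : Dat s κ n y u α β o)
include d

theorem uQ {i : ℕ} (hi : i ≤ n) : u i ∉ s.Q κ := fun h => by
  have h1 := don d.th (d.ym i hi) (d.h1 i hi)
  have h2 := (memQ.1 h).2
  omega

theorem ne {i : ℕ} (hi : i ≤ n) {v : V} (hv : v ∈ s.Q κ) : u i ≠ v := fun h => d.uQ hi (h ▸ hv)

theorem tpQ {v a b : V} (hv : v ∈ s.Q κ) (h : Tp s κ n y u α β v a b) :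
    (∃ i < n, v = y i ∧ a = u i ∧ b = u (i + 1)) ∨ (a = α v ∧ b = β v) := by
  rcases h with ⟨i, hi, h, -⟩ | h | h | ⟨h, -⟩
  exacts [absurd h.symm (d.ne hi hv), .inl h, .inr h.2, absurd h.symm (d.ne n.zero_le hv)]

theorem tpN {v a b : V} (hv : v ∉ s.Q κ) (h : Tp s κ n y u α β v a b) :
    (∃ i < n, v = u (i + 1) ∧ a = y i ∧ b = y (i + 1)) ∨
      (v = u 0 ∧ dg s.G v = 4 ∧ df s.G κ v = 1 ∧ Fc s.G κ v a ∧ b = y 0) := by
  rcases h with h | ⟨i, hi, h, -⟩ | h | h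
  exacts [.inl h, absurd (h ▸ d.ym i hi.le) hv, absurd h.1 hv, .inr h]

theorem ok : (pl s κ n y u α β).Ok s.G where
  tr v a b h := by
    rcases mem_tr.1 h with ⟨i, hi, rfl, rfl, rfl⟩ | ⟨i, hi, rfl, rfl, rfl⟩ | ⟨hv, rfl, rfl⟩ |
      ⟨rfl, -, -, h1, rfl⟩
    · exact ⟨(d.h2 i hi).2.1, (d.h2 i hi).1, (d.h1 _ hi).1,
        fun e => by simpa using d.yi _ hi.le _ hi e⟩
    · exact ⟨(d.h2 i hi).2.2.1, (d.h1 i hi.le).1.symm, (d.h2 i hi).1.symm,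
        fun e => by simpa using d.ui _ hi.le _ hi e⟩
    · obtain ⟨a1, a2, a3, a4, a5⟩ := d.ab v hv
      exact ⟨(memQ.1 hv).1, (memF d.th hv a1 a3).1, (memF d.th hv a2 a4).1, a5⟩
    · exact ⟨h1.2.1, h1.1, (d.h1 0 n.zero_le).1,
        fun e => (d.h1 0 n.zero_le).2.2.2 (e ▸ h1.2.2.2)⟩
  dis v a b a' b' h h' := by
    by_cases hv : v ∈ s.Q κ
    · obtain ⟨a1, a2, -⟩ := d.ab v hv
      rcases d.tpQ hv (mem_tr.1 h) with ⟨i, hi, e, rfl, rfl⟩ | ⟨rfl, rfl⟩ <;>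
        rcases d.tpQ hv (mem_tr.1 h') with ⟨k, hk, e', rfl, rfl⟩ | ⟨rfl, rfl⟩
      · obtain rfl := d.yi _ hi.le _ hk.le (e.symm.trans e')
        exact .inl ⟨rfl, rfl⟩
      · exact .inr ⟨d.ne hi.le a1, d.ne hi.le a2, d.ne hi a1, d.ne hi a2⟩
      · exact .inr ⟨(d.ne hk.le a1).symm, (d.ne hk a1).symm, (d.ne hk.le a2).symm,
          (d.ne hk a2).symm⟩
      · exact .inl ⟨rfl, rfl⟩
    · rcases d.tpN hv (mem_tr.1 h) with ⟨i, hi, e, rfl, rfl⟩ | ⟨e, -, f, g, rfl⟩ <;>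
        rcases d.tpN hv (mem_tr.1 h') with ⟨k, hk, e', rfl, rfl⟩ | ⟨e', -, -, g', rfl⟩
      · obtain rfl := Nat.succ_injective (d.ui _ hi _ hk (e.symm.trans e'))
        exact .inl ⟨rfl, rfl⟩
      · simpa using d.ui _ hi _ n.zero_le (e.symm.trans e')
      · simpa using d.ui _ hk _ n.zero_le (e'.symm.trans e)
      · exact .inl ⟨card_le_one.1 f.le _ (by simpa using g) _ (by simpa using g'), rfl⟩
  un v e h := by
    obtain ⟨rfl, rfl⟩ := un_eq.1 h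
    have hv := d.ym n le_rfl
    obtain ⟨a1, a2, -⟩ := d.ab _ hv
    refine ⟨(memQ.1 hv).1, d.odd, (d.h1 n le_rfl).1.symm, fun a => ⟨fun h => ?_, fun h => ?_⟩⟩ <;>
      rcases d.tpQ hv (mem_tr.1 h) with ⟨i, hi, e, -⟩ | e
    exacts [hi.ne' (d.yi _ le_rfl _ hi.le e), d.ne le_rfl a1 e.1,
      hi.ne' (d.yi _ le_rfl _ hi.le e), d.ne le_rfl a2 e.2]
  hub v h := ⟨u n, un_eq.2 ⟨(Option.some.inj h).symm, rfl⟩⟩

theorem us {v w : V} (hv : v ∈ s.Q κ) (hn : v ≠ y n) (h : (pl s κ n y u α β).Us v w) :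
    (∃ i < n, v = y i ∧ (w = u i ∨ w = u (i + 1))) ∨ w = α v ∨ w = β v := by
  rcases h with ⟨a, h | h⟩ | h
  · exact (d.tpQ hv (mem_tr.1 h)).imp (fun ⟨i, hi, e⟩ => ⟨i, hi, e.1, .inl e.2.1⟩) (.inl ·.1)
  · exact (d.tpQ hv (mem_tr.1 h)).imp (fun ⟨i, hi, e⟩ => ⟨i, hi, e.1, .inr e.2.2⟩) (.inr ·.2)
  · exact absurd (un_eq.1 h).1 hn

theorem fr {v : V} (hv : v ∈ s.Q κ) (hn : v ≠ y n) :
    df s.G κ v ≤ #((pl s κ n y u α β).Fr s.G κ v) + 2 := by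
  refine (card_le_card (t := insert (α v) (insert (β v) _)) fun w hw => ?_).trans
    ((card_insert_le _ _).trans (Nat.succ_le_succ (card_insert_le _ _)))
  have hF : Fc s.G κ v w := by simpa using hw
  by_cases h : (pl s κ n y u α β).Us v w
  · rcases d.us hv hn h with ⟨i, hi, rfl, rfl | rfl⟩ | rfl | rfl
    · exact absurd hF.2.2.2.symm (d.h1 i hi.le).2.2.2
    · exact absurd hF.2.2.2.symm (d.h2 i hi).2.2.2
    · simp
    · simp
  · simp [Pl.Fr, N, hF, hF.1, h]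

theorem hr {v : V} (hv : v ∈ s.Q κ) (hn : v ≠ y n) :
    #(oth s κ v) ≤ #((pl s κ n y u α β).Hr s.G κ v) + if v = o then 0 else 2 := by
  obtain ⟨a1, a2, a3, a4, -⟩ := d.ab v hv
  have key : ∀ w ∈ oth s κ v, w ∈ (pl s κ n y u α β).Hr s.G κ v ∨
      ∃ i < n, v = y i ∧ (w = u i ∨ w = u (i + 1)) := fun w hw => by
    obtain ⟨h1, h2⟩ := mem_filter.1 hw
    by_cases h : (pl s κ n y u α β).Us v w
    · rcases d.us hv hn h with h | rfl | rfl
      exacts [.inr h, absurd (memF d.th hv a1 a3) h2, absurd (memF d.th hv a2 a4) h2]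
    · exact .inl (mem_filter.2 ⟨h1, h2, h⟩)
  rcases d.all v hv with rfl | ⟨i, hi, rfl⟩
  · rw [if_pos rfl]
    exact card_le_card fun w hw => (key w hw).resolve_right fun ⟨i, hi, e, _⟩ => d.oy i hi.le e.symm
  · rw [if_neg (d.oy i hi)]
    refine (card_le_card (t := insert (u i) (insert (u (i + 1)) _)) fun w hw => ?_).trans
      ((card_insert_le _ _).trans (Nat.succ_le_succ (card_insert_le _ _)))
    rcases key w hw with h | ⟨k, hk, e, h⟩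
    · simp [h]
    · obtain rfl := d.yi _ hi _ hk.le e
      rcases h with rfl | rfl <;> simp

theorem pn (v : V) : s.pin (cd n y u α β o D) v ≤ 1 := card_le_one.2 fun a ha b hb => by
  obtain ⟨⟨i, hi, rfl⟩, e⟩ := (mem_filter.1 ha).imp_left mem_P.1
  obtain ⟨⟨k, hk, rfl⟩, e'⟩ := (mem_filter.1 hb).imp_left mem_P.1
  rw [d.yi i hi k hk (e.trans e'.symm)]

theorem po (v : V) : s.pout (cd n y u α β o D) v ≤ 1 := card_le_one.2 fun a ha b hb => by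
  obtain ⟨⟨i, hi, rfl⟩, e⟩ := (mem_filter.1 ha).imp_left mem_P.1
  obtain ⟨⟨k, hk, rfl⟩, e'⟩ := (mem_filter.1 hb).imp_left mem_P.1
  rw [d.ui i hi k hk (e.trans e'.symm)]

omit d [Fintype V] in
theorem pout_pos {v : V} (h : s.pout (cd n y u α β o D) v ≠ 0) : ∃ i ≤ n, v = u i := by
  obtain ⟨a, ha⟩ := card_ne_zero.1 h
  obtain ⟨⟨i, hi, rfl⟩, e⟩ := (mem_filter.1 ha).imp_left mem_P.1
  exact ⟨i, hi, e.symm⟩

variable (hb : s.Ob D) (ho : (pl s κ n y u α β).Od s.G κ D)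
include hb ho

theorem dir (k : ℕ) : ∀ i, i + k = n → D (u i) (y i) := by
  induction k with
  | zero => exact fun i hi => (show n = i by omega) ▸ ho.hub _ _ rfl (un_eq.2 ⟨rfl, rfl⟩)
  | succ k ih =>
    intro i hi
    have h : i < n := by omega
    have h1 := ho.tr _ _ _ (mem_tr.2 (.inl ⟨i, h, rfl, rfl, rfl⟩))
    have h2 := ho.tr _ _ _ (mem_tr.2 (.inr (.inl ⟨i, h, rfl, rfl, rfl⟩)))
    have h3 := ih (i + 1) (by omega)
    have h4 := hb.ori _ _ (d.h1 i h.le).1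
    have h5 := hb.ori _ _ (d.h2 i h).1
    tauto

theorem arc {i : ℕ} (hi : i ≤ n) : D (u i) (y i) := d.dir hb ho (n - i) i (by omega)

theorem oc {v : V} (hv : v ∈ s.Q κ) : (cd n y u α β o D).oc v ∈ (s.cx κ D).Fo v ∧
    (cd n y u α β o D).oc v ∈ s.Q κ ∧ (pl s κ n y u α β).Us v ((cd n y u α β o D).oc v) ∧
    ((s.cx κ D).Fi v).Nonempty := by
  obtain ⟨a1, a2, a3, a4, -⟩ := d.ab v hv
  have t : (v, α v, β v) ∈ (pl s κ n y u α β).Tr := mem_tr.2 (.inr (.inr (.inl ⟨hv, rfl, rfl⟩)))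
  have h1 := ho.tr _ _ _ t
  have f1 := memF d.th hv a1 a3
  have f2 := memF d.th hv a2 a4
  have h2 := hb.ori _ _ f1.1
  have h3 := hb.ori _ _ f2.1
  by_cases h : D v (α v)
  · rw [show (cd n y u α β o D).oc v = α v from if_pos h]
    exact ⟨mem_filter.2 ⟨mem_univ _, h, f1⟩, a1, .inl ⟨_, .inl t⟩, β v,
      mem_filter.2 ⟨mem_univ _, show D _ _ by tauto, f2⟩⟩
  · rw [show (cd n y u α β o D).oc v = β v from if_neg h]
    exact ⟨mem_filter.2 ⟨mem_univ _, show D _ _ by tauto, f2⟩, a2, .inl ⟨_, .inr t⟩, α v,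
      mem_filter.2 ⟨mem_univ _, show D _ _ by tauto, f1⟩⟩

theorem fo {v : V} (hv : v ∈ s.Q κ) :
    #((pl s κ n y u α β).Fr s.G κ v) / 2 + 1 ≤ #((s.cx κ D).Fo v) := by
  obtain ⟨h1, -, h2, -⟩ := d.oc hb ho hv
  refine (Nat.succ_le_succ (ho.fo v (memQ.1 hv).1)).trans ?_
  rw [← card_erase_add_one h1]
  refine Nat.succ_le_succ (card_le_card fun w hw => ?_)
  obtain ⟨h3, h4⟩ := mem_filter.1 hw
  obtain ⟨-, h5, h6⟩ := mem_filter.1 h3
  exact mem_erase.2 ⟨fun e => h6 (e ▸ h2), mem_filter.2 ⟨mem_univ _, h4, h5⟩⟩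

omit d ho in
theorem fi (v : V) : #((s.cx κ D).Fi v) + #((s.cx κ D).Fo v) ≤ df s.G κ v := by
  have h : Disjoint ((s.cx κ D).Fi v) ((s.cx κ D).Fo v) := disjoint_filter.2 fun w _ h h' =>
    (hb.ori _ _ h'.2.1).1 h'.1 h.1
  rw [← card_union_of_disjoint h]
  exact card_le_card fun w hw => mem_filter.2 ⟨mem_univ _,
    (mem_union.1 hw).elim (fun h => (mem_filter.1 h).2.2) fun h => (mem_filter.1 h).2.2⟩

omit d hb in
theorem ig {v : V} (hv : v ∈ s.Q κ) (hn : v ≠ y n) :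
    #((pl s κ n y u α β).Hr s.G κ v) / 2 ≤ #(s.ig κ D (cd n y u α β o D) v) := by
  refine (ho.hi v (memQ.1 hv).1).trans (card_le_card fun w hw => ?_)
  obtain ⟨h3, h4⟩ := mem_filter.1 hw
  obtain ⟨-, h5, h6⟩ := mem_filter.1 h3
  refine mem_filter.2 ⟨mem_univ _, h4, h5, fun h => h6 ?_⟩
  obtain ⟨i, hi, e⟩ := mem_P.1 h
  obtain ⟨rfl, rfl⟩ := Prod.mk.inj e
  exact .inl ⟨_, .inl (mem_tr.2 (.inr (.inl ⟨i, hi.lt_of_ne fun e => hn (e ▸ rfl), rfl, rfl, rfl⟩)))⟩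

theorem pi {v : V} (h : v ∈ s.Pi κ D (cd n y u α β o D)) : v ∈ s.Q κ ∧ v ≠ y n ∧
    df s.G κ v ≤ 4 ∧ n ≤ 3 ∧ (v = o → n ≤ 1) ∧ (v = y 0 → n ≤ 2) := by
  obtain ⟨h1, h2, h3, h4⟩ := (mem_filter.1 h).2
  have hv := negQ h1
  have hn : v ≠ y n := by
    rintro rfl
    rcases h2 with h2 | h2
    · exact Nat.not_even_iff_odd.2 d.odd h2.2.2.1
    · exact (hb.ori _ _ (d.h1 n le_rfl).1).1 (d.arc hb ho le_rfl)
        ((ho.un _ _ (un_eq.2 ⟨rfl, rfl⟩)).2 h2.2.2)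
  have e1 := d.fr hv hn
  have e2 := d.hr hv hn
  have e3 := d.fo hb ho hv
  have e4 := ig (o := o) ho hv hn
  have e5 := yc_le d.th h2 h3
  have e6 := df_ge d.th hv
  have e7 := d.card
  have e8 : v = y 0 → n + 1 ≤ #(oth s κ v) := fun e => e ▸ d.dh0.trans (card_le_card fun w hw =>
    have hH : Hc s.G κ (y 0) w := (mem_filter.1 hw).2
    mem_filter.2 ⟨mem_filter.2 ⟨mem_univ _, hH.1⟩, fun f => hH.2.2.2 f.2.2.2⟩)
  refine ⟨hv, hn, ?_⟩
  rcases h4 with h4 | ⟨h4, h5⟩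
  · rw [h4, card_empty] at e4
    refine ⟨by split_ifs at e2 <;> omega, by split_ifs at e2 <;> omega, fun e => ?_, fun e => ?_⟩
    · rw [if_pos e] at e2
      omega
    · have := e8 e
      split_ifs at e2 <;> omega
  · refine ⟨by omega, by omega, fun e => (h5 ⟨e ▸ rfl, fun _ w hw => ?_⟩).elim, fun _ => by omega⟩
    obtain ⟨o1, o2, -⟩ := d.oc hb ho hv
    have e9 := df_ge d.th (card_le_one.1 h4 _ o1 _ hw ▸ o2)
    have := d.n1
    omega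

theorem p2 : #(s.Pi κ D (cd n y u α β o D)) ≤ 2 := by
  refine (card_le_card (t := {if n = 3 then y 2 else y 0, if n = 1 then o else y 1})
    fun v hv => ?_).trans card_le_two
  obtain ⟨h1, h2, -, h3, h4, h5⟩ := d.pi hb ho hv
  have := d.n1
  rcases d.all v h1 with rfl | ⟨i, hi, rfl⟩
  · simp [show n = 1 by have := h4 rfl; omega]
  · have h6 : i ≠ n := fun e => h2 (e ▸ rfl)
    have h7 : i = 0 → n ≤ 2 := fun e => h5 (e ▸ rfl)
    obtain rfl | rfl | rfl : i = 0 ∨ i = 1 ∨ i = 2 := by omega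
    · simp [show n ≠ 3 by omega]
    · simp [show n ≠ 1 by omega]
    · simp [show n = 3 by omega]

theorem cj (hs : s.Ok) (hN : SNat) (hE : s.NoE κ) : s.Cj κ D (cd n y u α β o D) where
  th := d.th
  loc v hv := by
    by_cases hQ : v ∈ s.Q κ
    · have e6 := df_ge d.th hQ
      have e7 := d.card
      have := d.n1
      exact ⟨fun _ => ⟨_, (d.oc hb ho hQ).1⟩, fun _ h => by omega, fun _ _ h => by omega⟩
    by_cases h4 : dg s.G v = 4 ∧ df s.G κ v = 1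
    · exact ⟨fun h => by omega, fun ⟨k, hk⟩ => by omega, fun _ h => by omega⟩
    have hn : v ≠ y n := fun e => hQ (e ▸ d.ym n le_rfl)
    refine (hN V s κ _ D v hs d.ok hb ho hv ⟨if_neg hn, fun w hw hF => ?_⟩).1
    rcases hw with ⟨a, h | h⟩ | h
    · rcases d.tpN hQ (mem_tr.1 h) with ⟨i, hi, rfl, rfl, -⟩ | h
      exacts [(d.h2 i hi).2.2.2 hF.2.2.2, h4 ⟨h.2.1, h.2.2.1⟩]
    · rcases d.tpN hQ (mem_tr.1 h) with ⟨i, hi, rfl, -, rfl⟩ | h
      exacts [(d.h1 _ hi).2.2.2 hF.2.2.2, h4 ⟨h.2.1, h.2.2.1⟩]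
    · exact hn (un_eq.1 h).1
  pa a ha := by
    obtain ⟨i, hi, rfl⟩ := mem_P.1 ha
    exact ⟨d.arc hb ho hi, d.h1 i hi, don d.th (d.ym i hi) (d.h1 i hi), (memQ.1 (d.ym i hi)).2.le⟩
  po := d.po
  pn := d.pn
  mem v hv := by
    rcases d.all v hv with rfl | ⟨i, hi, rfl⟩
    · exact .inr (.inl rfl)
    · exact .inl ((d.pn _).antisymm (card_pos.2 ⟨_, mem_filter.2 ⟨mem_P.2 ⟨i, hi, rfl⟩, rfl⟩⟩))
  v0 v hv := by
    obtain rfl := Option.some.inj hv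
    refine ⟨d.om, card_eq_zero.2 (filter_eq_empty_iff.2 fun a ha => ?_)⟩
    obtain ⟨i, hi, rfl⟩ := mem_P.1 ha
    exact d.oy i hi
  hd a ha h1 _ := by
    obtain ⟨i, hi, rfl⟩ := mem_P.1 ha
    obtain ⟨hc, ht⟩ := memQ.1 (d.ym i hi)
    have e6 := df_ge d.th (d.ym i hi)
    have e7 := d.card
    have := d.n1
    have hU : s.Ur κ (y i) := by
      by_contra hU
      rw [Sg.t, if_neg hU] at ht
      exact h1 ⟨hc, show tau s.G κ (y i) < df s.G κ (y i) by omega⟩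
    have hz : ¬Co s.G s.z := fun h => (hb.ori1 hU.2.1).kz (le_of_lt h)
    refine ⟨⟨s.z, mem_filter.2 ⟨mem_univ _, hU.1 ▸ (hb.ori1 hU.2.1).root, fun f => hz f.2.2.1,
      fun h => ?_⟩⟩, .inl (show df s.G κ (y i) ≠ 1 by omega)⟩
    obtain ⟨k, hk, e⟩ := mem_P.1 h
    exact hz ((Prod.mk.inj e).1 ▸ (d.h1 k hk).2.1)
  p2 := d.p2 hb ho
  fi v hv := by
    obtain ⟨h1, h2, h3, -⟩ := d.pi hb ho hv
    have e1 := d.fr h1 h2
    have e2 := d.fo hb ho h1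
    have e3 := fi (κ := κ) hb v
    exact ⟨(d.oc hb ho h1).1, by omega, fun _ => (d.oc hb ho h1).2.2.2⟩
  hv f hf _ h := absurd (memQ.1 (d.oc hb ho (d.pi hb ho hf).1).2.1).2 (not_lt.2 h)
  sx p hp := absurd hp (notMem_empty p)
  sf p hp h0 := by
    obtain ⟨i, hi, rfl⟩ := pout_pos (s := s) ((hp.resolve_left (notMem_empty p)).trans_ne one_ne_zero)
    refine ⟨fun w => hE _ (d.ym i hi) _ w (d.h1 i hi), fun v hv h1 => ?_⟩
    refine ((d.h1 i hi).2.2.2 (h0.trans (h1.symm.trans ?_))).elim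
    by_cases e : v = y i
    exacts [e ▸ rfl, (memF d.th (negQ hv) (d.ym i hi) e).2.2.2]
  nb v w hw h1 h2 h3 h4 h5 := by
    obtain ⟨i, hi, rfl⟩ := pout_pos (h5.trans_ne one_ne_zero)
    obtain ⟨h6, h7⟩ := (mem_filter.1 hw).2
    rcases i with _ | i
    · exact absurd (d.arc hb ho hi) ((ho.tr _ _ _
        (mem_tr.2 (.inr (.inr (.inr ⟨rfl, h3, h1, h7, rfl⟩))))).1 h6)
    · refine (d.nb i hi h3 h4 h1 w h7 h2).imp_left fun h => ⟨h.1, by_contra fun e => h.2 ?_⟩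
      obtain ⟨k, hk, e⟩ := pout_pos e
      exact ⟨k, by omega, e⟩
  bg b h := by simp [cd] at h

end Dat

end Jt3

open Jt3

theorem jt3 : SJt3 := by
  rintro ⟨hO, hN, hC⟩ V _ s j κ hs ⟨hP, hT, -⟩ h3 hE ⟨m, x, u, hm, tr, h0, hu, hd, ho, -⟩
  obtain ⟨n, rfl⟩ : ∃ n, m = n + 1 := ⟨m - 1, by omega⟩
  have ym : ∀ i ≤ n, x (i + 1) ∈ s.Q κ := fun i hi => tr.mem _ (by omega) (by omega)
  have yi : ∀ i ≤ n, ∀ k ≤ n, x (i + 1) = x (k + 1) → i = k := fun i hi k hk e => by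
    have := tr.xi _ _ (by omega) (by omega) (by omega) (by omega) e
    omega
  have hI : (range (n + 1)).image (fun i => x (i + 1)) ⊆ s.Q κ := fun v hv => by
    obtain ⟨i, hi, rfl⟩ := mem_image.1 hv
    exact ym i (by simpa [Nat.lt_succ_iff] using hi)
  obtain ⟨o, h1⟩ := card_eq_one.1 (show #(s.Q κ \ (range (n + 1)).image fun i => x (i + 1)) = 1 by
    rw [card_sdiff_of_subset hI, card_image_of_injOn fun i hi k hk e =>
      yi i (by simpa [Nat.lt_succ_iff] using hi) k (by simpa [Nat.lt_succ_iff] using hk) e,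
      card_range]
    omega)
  have h2 : ∀ v, (v ∈ s.Q κ ∧ ∀ i ≤ n, x (i + 1) ≠ v) ↔ v = o := fun v => by
    simpa [Nat.lt_succ_iff] using Finset.ext_iff.1 h1 v
  have h4 : ∀ v ∈ s.Q κ, ∃ a b, a ∈ s.Q κ ∧ b ∈ s.Q κ ∧ v ≠ a ∧ v ≠ b ∧ a ≠ b := fun v hv => by
    obtain ⟨a, ha, b, hb, e⟩ := one_lt_card.1 (show 1 < #((s.Q κ).erase v) by
      rw [card_erase_of_mem hv]
      omega)
    exact ⟨a, b, mem_of_mem_erase ha, mem_of_mem_erase hb, (ne_of_mem_erase ha).symm,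
      (ne_of_mem_erase hb).symm, e⟩
  choose! α β hab using h4
  have d : Dat s κ n (fun i => x (i + 1)) u α β o := by
    refine ⟨hT, by omega, ym, yi, fun i hi k hk e => ?_, fun i hi => ?_,
      fun i hi => (tr.adj _ (by omega) (by omega)).1, hab, ((h2 o).2 rfl).1, ((h2 o).2 rfl).2,
      fun v hv => ?_, hm.symm, ho, hd, fun i hi => tr.nb _ (by omega) (by omega)⟩
    · rcases i with _ | i <;> rcases k with _ | k
      exacts [rfl, absurd e (hu _ (by omega) (by omega)), absurd e.symm (hu _ (by omega) (by omega)),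
        tr.ui _ _ (by omega) (by omega) (by omega) (by omega) e]
    · rcases i with _ | i
      exacts [h0, (tr.adj _ (by omega) (by omega)).2]
    · by_contra h
      push Not at h
      exact h.1 ((h2 v).1 ⟨hv, fun i hi e => h.2 i hi e.symm⟩)
  obtain ⟨D, hb, hD⟩ := hO V s κ _ hs d.ok
  exact ⟨κ, D, hP, hb, hC V s κ D _ hs hb (d.cj hb hD hs hN hE)⟩

end Pool.Agent.MP_d1f1f3_co.H2
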