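import Pool.Agent.MP_d1f1f3_co.H2.Spec3

/-!
The local conditions at a vertex whose unseparated edges are free.
-/

namespace Pool.Agent.MP_d1f1f3_co.H2

open Finset Relation H47
open scoped Classical

namespace Nat

variable {V : Type} [Fintype V]

lemma fr_eq {G : SimpleGraph V} {κ : V → ZMod 2} {pl : Pl V} {v : V} (hn : pl.Nat G κ v) :
    pl.Fr G κ v = univ.filter fun w => Fc G κ v w := by
  ext w
  simp only [Pl.Fr, N, mem_filter, mem_univ, true_and]
  exact ⟨fun h => h.2.1, fun h => ⟨h.1, h, fun hu => hn.2 w hu h⟩⟩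

lemma half {G : SimpleGraph V} {κ : V → ZMod 2} {pl : Pl V} {v : V} (hp : pl.Ok G)
    (hn : pl.Nat G κ v) (d : V → Prop) (hd : ∀ a b, (v, a, b) ∈ pl.Tr → (d a ↔ ¬d b))
    (hh : #(pl.Hr G κ v) / 2 ≤ #((pl.Hr G κ v).filter d)) :
    (dg G v - df G κ v) / 2 ≤ #((N G v).filter fun w => d w ∧ ¬Fc G κ v w) := by
  set T : Finset (V × V × V) := pl.Tr.filter fun e => e.1 = v with hT
  have hTm : ∀ e ∈ T, (v, e.2.1, e.2.2) ∈ pl.Tr := by
    intro e he
    obtain ⟨h1, h2⟩ := mem_filter.1 he
    rw [← h2]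
    exact h1
  set Up : Finset V := (N G v).filter fun w => pl.Us v w with hUp
  have h1 : #Up ≤ 2 * #T := by
    have hs : Up ⊆ T.image (fun e => e.2.1) ∪ T.image (fun e => e.2.2) := by
      intro w hw
      obtain ⟨-, hu⟩ := mem_filter.1 hw
      rcases hu with ⟨a, ha | ha⟩ | hu
      · exact mem_union_left _ (mem_image.2 ⟨(v, w, a), mem_filter.2 ⟨ha, rfl⟩, rfl⟩)
      · exact mem_union_right _ (mem_image.2 ⟨(v, a, w), mem_filter.2 ⟨ha, rfl⟩, rfl⟩)
      · rw [hn.1] at hu
        cases hu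
    have := card_le_card hs
    have h3 := card_union_le (T.image fun e => e.2.1) (T.image fun e => e.2.2)
    have h4 : #(T.image fun e => e.2.1) ≤ #T := card_image_le
    have h5 : #(T.image fun e => e.2.2) ≤ #T := card_image_le
    omega
  have h2 : #T ≤ #(Up.filter d) := by
    refine card_le_card_of_injOn (fun e => if d e.2.1 then e.2.1 else e.2.2) ?_ ?_
    · intro e he
      have hm := hTm e he
      have ht := hp.tr _ _ _ hm
      simp only [coe_filter, hUp, mem_filter, N, mem_univ, true_and, Set.mem_ofPred_eq]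
      by_cases h : d e.2.1
      · rw [if_pos h]
        exact ⟨⟨ht.2.1, Or.inl ⟨_, Or.inl hm⟩⟩, h⟩
      · rw [if_neg h]
        refine ⟨⟨ht.2.2.1, Or.inl ⟨_, Or.inr hm⟩⟩, ?_⟩
        by_contra h'
        exact h ((hd _ _ hm).2 h')
    · intro e he e' he' hee
      have hm := hTm e he
      have hm' := hTm e' he'
      have e1 : e.1 = v := (mem_filter.1 he).2
      have e1' : e'.1 = v := (mem_filter.1 he').2
      rcases hp.dis _ _ _ _ _ hm hm' with ⟨ha, hb⟩ | ⟨h1, h2, h3, h4⟩
      · exact Prod.ext (e1.trans e1'.symm) (Prod.ext ha hb)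
      · exfalso
        simp only at hee
        split_ifs at hee
        · exact h1 hee
        · exact h2 hee
        · exact h3 hee
        · exact h4 hee
  have h3 : dg G v ≤ df G κ v + (#(pl.Hr G κ v) + #Up) := by
    have hs : N G v ⊆ (univ.filter fun w => Fc G κ v w) ∪ (pl.Hr G κ v ∪ Up) := by
      intro w hw
      by_cases hf : Fc G κ v w
      · exact mem_union_left _ (mem_filter.2 ⟨mem_univ _, hf⟩)
      · by_cases hu : pl.Us v w
        · exact mem_union_right _ (mem_union_right _ (mem_filter.2 ⟨hw, hu⟩))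
        · exact mem_union_right _ (mem_union_left _ (mem_filter.2 ⟨hw, hf, hu⟩))
    have h4 := card_le_card hs
    have h5 := card_union_le (univ.filter fun w => Fc G κ v w) (pl.Hr G κ v ∪ Up)
    have h6 := card_union_le (pl.Hr G κ v) Up
    unfold dg df
    omega
  have h4 : #((pl.Hr G κ v).filter d) + #(Up.filter d) ≤
      #((N G v).filter fun w => d w ∧ ¬Fc G κ v w) := by
    rw [← card_union_of_disjoint]
    · apply card_le_card
      intro w hw
      rcases mem_union.1 hw with hw | hw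
      · obtain ⟨hw1, hw2⟩ := mem_filter.1 hw
        obtain ⟨hw3, hw4, -⟩ := mem_filter.1 hw1
        exact mem_filter.2 ⟨hw3, hw2, hw4⟩
      · obtain ⟨hw1, hw2⟩ := mem_filter.1 hw
        obtain ⟨hw3, hw4⟩ := mem_filter.1 hw1
        exact mem_filter.2 ⟨hw3, hw2, hn.2 w hw4⟩
    · rw [disjoint_left]
      intro w hw hw'
      exact (mem_filter.1 (mem_filter.1 hw).1).2.2 (mem_filter.1 (mem_filter.1 hw').1).2
  omega

end Nat

theorem nat : SNat := by
  intro V _ s κ pl D v _ hp hb ho hv hn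
  have hfr := Nat.fr_eq hn
  have hfo : df s.G κ v / 2 ≤ #((s.cx κ D).Fo v) := by
    have h := ho.fo v hv
    rw [hfr] at h
    refine h.trans (card_le_card ?_)
    intro w hw
    obtain ⟨h1, h2⟩ := mem_filter.1 hw
    exact mem_filter.2 ⟨mem_univ _, h2, (mem_filter.1 h1).2⟩
  have hfi : df s.G κ v / 2 ≤ #((s.cx κ D).Fi v) := by
    have h := ho.fi v hv
    rw [hfr] at h
    refine h.trans (card_le_card ?_)
    intro w hw
    obtain ⟨h1, h2⟩ := mem_filter.1 hw
    exact mem_filter.2 ⟨mem_univ _, h2, (mem_filter.1 h1).2⟩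
  have hout := Nat.half hp hn (fun w => D v w) (ho.tr v) (ho.ho v hv)
  have hin := Nat.half hp hn (fun w => D w v) (by
    intro a b hab
    have ht := hp.tr _ _ _ hab
    have h1 := ho.tr v a b hab
    have h2 := hb.ori _ _ ht.2.1
    have h3 := hb.ori _ _ ht.2.2.1
    tauto) (ho.hi v hv)
  have hk : K s.G v := by
    unfold Co at hv
    unfold K
    omega
  have hsm := hb.smooth v hk
  have ho1 : #((s.cx κ D).Fo v) + #((N s.G v).filter fun w => D v w ∧ ¬Fc s.G κ v w) ≤
      #(Out D v) := by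
    rw [← card_union_of_disjoint]
    · apply card_le_card
      intro w hw
      rcases mem_union.1 hw with hw | hw
      · exact mem_filter.2 ⟨mem_univ _, (mem_filter.1 hw).2.1⟩
      · exact mem_filter.2 ⟨mem_univ _, (mem_filter.1 hw).2.1⟩
    · rw [disjoint_left]
      intro w hw hw'
      exact (mem_filter.1 hw').2.2 (mem_filter.1 hw).2.2
  have hi1 : #((s.cx κ D).Fi v) + #((N s.G v).filter fun w => D w v ∧ ¬Fc s.G κ v w) +
      #(Out D v) ≤ dg s.G v := by
    have hd1 : Disjoint ((s.cx κ D).Fi v) ((N s.G v).filter fun w => D w v ∧ ¬Fc s.G κ v w) := by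
      rw [disjoint_left]
      intro w hw hw'
      exact (mem_filter.1 hw').2.2 (mem_filter.1 hw).2.2
    have hin' : ∀ w ∈ (s.cx κ D).Fi v ∪ (N s.G v).filter fun w => D w v ∧ ¬Fc s.G κ v w,
        D w v := by
      intro w hw
      rcases mem_union.1 hw with hw | hw
      · exact (mem_filter.1 hw).2.1
      · exact (mem_filter.1 hw).2.1
    rw [← card_union_of_disjoint hd1, ← card_union_of_disjoint]
    · apply card_le_card
      intro w hw
      rcases mem_union.1 hw with hw | hw
      · exact mem_filter.2 ⟨mem_univ _, (hb.adj _ _ (hin' w hw)).symm⟩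
      · exact mem_filter.2 ⟨mem_univ _, hb.adj _ _ (mem_filter.1 hw).2⟩
    · rw [disjoint_left]
      intro w hw hw'
      have h1 := hin' w hw
      have h2 : D v w := (mem_filter.1 hw').2
      exact (hb.ori _ _ (hb.adj _ _ h2)).1 h2 h1
  refine ⟨⟨?_, ?_, ?_⟩, hfo, hfi, ?_⟩
  · intro h2
    rw [← card_pos]
    omega
  · intro hodd h1 w hw _
    have hpos : 0 < #((s.cx κ D).Fo v) := card_pos.2 ⟨w, hw⟩
    refine ⟨hv, hodd, ?_⟩
    show #(Out D v) = (dg s.G v + 1) / 2
    obtain ⟨k, hk⟩ := hodd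
    omega
  · intro hto h3 h1
    have h2 : #(Out D v) = (dg s.G v + 1) / 2 := hto.2.2
    rw [← card_eq_zero]
    omega
  · refine hin.trans (card_le_card ?_)
    intro w hw
    exact mem_filter.2 ⟨mem_univ _, (mem_filter.1 hw).2⟩

end Pool.Agent.MP_d1f1f3_co.H2
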