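import Pool.Agent.MP_d1f1f3_co.H2.Spec4

/-!
A donor of degree four and class zero with one unseparated edge that sees two vertices in debt.
-/

namespace Pool.Agent.MP_d1f1f3_co.H2

open Finset Relation H47
open scoped Classical

noncomputable section

namespace Nb1

variable {V : Type} [Fintype V]

theorem mem_Q (s : Sg V) (κ : V → ZMod 2) (v : V) :
    v ∈ s.Q κ ↔ Co s.G v ∧ s.t κ v < 0 := by
  simp [Sg.Q]

theorem t_one (s : Sg V) (κ : V → ZMod 2) (g : V) (hg : g ≠ s.ρ) (h : s.N41 κ g) :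
    s.t κ g = 1 := by
  obtain ⟨h4, h0, h1⟩ := h
  have hU : ¬s.Ur κ g := fun hu => hg hu.1
  have hW : ¬Wv s.G κ g := by
    intro hw
    have h2 := hw.2.2
    rw [h4, h0] at h2
    revert h2
    decide
  unfold Sg.t tau
  rw [if_neg hU, if_neg hW, h4, h1]
  norm_num

theorem key (hB : Base) (s : Sg V) (j : ZMod 2) (κ : V → ZMod 2) (m : ℕ) (x g : V)
    (ho : s.Ok) (hs : s.St j κ) (hm : 3 ≤ m) (hM : s.Mn j m) (hx : x ∈ s.Q κ) (hxr : x ≠ s.ρ)
    (hgx : Hc s.G κ g x) (hg : g ≠ s.ρ) (hN : s.N41 κ g) :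
    m = 3 ∧ s.St j (flp κ {x, g}) ∧
      s.Q (flp κ {x, g}) = insert g ((univ.filter fun w => Hc s.G κ g w).erase x) := by
  have b := hB.2 V s j κ ho hs
  have ht := t_one s κ g hg hN
  have hcg : Co s.G g := hgx.2.1
  obtain ⟨hs', hg', hx'⟩ := b.sw x hx g hcg hxr hg (Or.inr ⟨ht, hgx⟩)
  have b' := hB.2 V s j _ ho hs'
  have hk : flp κ {x, g} g = 1 := by
    unfold flp
    rw [if_pos (by simp), hN.2.1]
    norm_num
  have hsub : s.Q (flp κ {x, g}) ⊆ insert g ((univ.filter fun w => Hc s.G κ g w).erase x) := by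
    intro w hw
    by_cases hwg : w = g
    · simp [hwg]
    have hwx : w ≠ x := fun h => hx' (h ▸ hw)
    have hf := b'.clq g hg' w hw (Ne.symm hwg)
    have e : flp κ {x, g} w = κ w := by
      unfold flp
      rw [if_neg (by simp [hwx, hwg])]
    have h1 : κ w = 1 := by rw [← e, ← hf.2.2.2, hk]
    refine mem_insert_of_mem
      (mem_erase.2 ⟨hwx, mem_filter.2 ⟨mem_univ _, hf.1, hf.2.1, hf.2.2.1, ?_⟩⟩)
    rw [h1, hN.2.1]
    decide
  have hdh : dh s.G κ g = 3 := by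
    have h := b.sum g hcg
    rw [if_neg hg, hN.1, hN.2.2] at h
    omega
  have hcard : #(insert g ((univ.filter fun w => Hc s.G κ g w).erase x)) ≤ 3 := by
    refine (card_insert_le _ _).trans ?_
    have hdh' : #(univ.filter fun w => Hc s.G κ g w) = 3 := hdh
    rw [card_erase_of_mem (mem_filter.2 ⟨mem_univ _, hgx⟩), hdh']
  have hle : m ≤ #(s.Q (flp κ {x, g})) := by
    rcases hM _ hs' with h | ⟨hSP, hr⟩
    · exact h
    · exfalso
      have hf := b'.clq g hg' _ hr hg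
      have h2 := hf.2.2.2
      rw [hk, hs'.2.2, hSP.2.2.1] at h2
      revert h2
      decide
  have hc := card_le_card hsub
  exact ⟨by omega, hs', eq_of_subset_of_card_le hsub (by omega)⟩

end Nb1

theorem nb1 : SNb1 := by
  intro hB V _ s j κ m x y g ho hs hm hM hx hy hxy hxr hyr hgc hg hN
  have hgc' : Hc s.G κ g x ∧ Hc s.G κ g y := by
    unfold Cm at hgc
    exact (mem_filter.1 hgc).2
  obtain ⟨hgx, hgy⟩ := hgc'
  obtain ⟨hm3, hs1, hQ1⟩ := Nb1.key hB s j κ m x g ho hs hm hM hx hxr hgx hg hN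
  obtain ⟨-, hs2, hQ2⟩ := Nb1.key hB s j κ m y g ho hs hm hM hy hyr hgy hg hN
  have b := hB.2 V s j κ ho hs
  have b2 := hB.2 V s j _ ho hs2
  have hcg : Co s.G g := hgx.2.1
  have hdh : #(univ.filter fun w => Hc s.G κ g w) = 3 := by
    have h := b.sum g hcg
    rw [if_neg hg, hN.1, hN.2.2] at h
    unfold dh at h
    omega
  have hxm : x ∈ univ.filter fun w => Hc s.G κ g w := mem_filter.2 ⟨mem_univ _, hgx⟩
  have hym : y ∈ (univ.filter fun w => Hc s.G κ g w).erase x :=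
    mem_erase.2 ⟨hxy.symm, mem_filter.2 ⟨mem_univ _, hgy⟩⟩
  have h1 : #(((univ.filter fun w => Hc s.G κ g w).erase x).erase y) = 1 := by
    rw [card_erase_of_mem hym, card_erase_of_mem hxm, hdh]
  obtain ⟨w, hw⟩ := card_eq_one.1 h1
  have hwm : w ∈ ((univ.filter fun w => Hc s.G κ g w).erase x).erase y := by
    rw [hw]
    exact mem_singleton_self w
  have hwy : w ≠ y := (mem_erase.1 hwm).1
  have hwx : w ≠ x := (mem_erase.1 (mem_erase.1 hwm).2).1
  have hgw : Hc s.G κ g w := (mem_filter.1 (mem_erase.1 (mem_erase.1 hwm).2).2).2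
  have hwg : w ≠ g := fun h => hgw.1.ne h.symm
  have hxg : x ≠ g := fun h => hgx.1.ne h.symm
  have hcw : Co s.G w := hgw.2.2.1
  have hQ : s.Q (flp κ {x, g}) = {g, y, w} := by
    rw [hQ1, ← insert_erase hym, hw]
  have hw1 : w ∈ s.Q (flp κ {x, g}) := by
    rw [hQ]
    simp
  have hw2 : w ∈ s.Q (flp κ {y, g}) := by
    rw [hQ2]
    exact mem_insert_of_mem (mem_erase.2 ⟨hwy, mem_filter.2 ⟨mem_univ _, hgw⟩⟩)
  have hx2 : x ∈ s.Q (flp κ {y, g}) := by
    rw [hQ2]
    exact mem_insert_of_mem (mem_erase.2 ⟨hxy, hxm⟩)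
  have hadj : s.G.Adj w x := (b2.clq w hw2 x hx2 hwx).1
  have two : ∀ a b : ZMod 2, 0 ≠ a → 0 ≠ b → a = b := by decide
  have hkw : κ w = κ x := by
    refine two _ _ ?_ ?_
    · rw [← hN.2.1]
      exact hgw.2.2.2
    · rw [← hN.2.1]
      exact hgx.2.2.2
  have hF : Fc s.G κ w x := ⟨hadj, hcw, hgx.2.2.1, hkw⟩
  have hH : Hc s.G κ w g := ⟨hgw.1.symm, hcw, hcg, fun h => hgw.2.2.2 h.symm⟩
  have hnF : ¬Fc s.G κ w g := fun h => hH.2.2.2 h.2.2.2
  have hnH : ¬Hc s.G κ w x := fun h => h.2.2.2 hkw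
  have hA : ∀ v ∈ ({x, g} : Finset V), Co s.G v := by
    intro v hv
    rcases mem_insert.1 hv with h | h
    · rw [h]
      exact hgx.2.2.1
    · rw [mem_singleton.1 h]
      exact hcg
  have hfl := (hB.1 V s κ {x, g} ho hA).1 w hcw
  rw [if_neg (by simp [hwx, hwg])] at hfl
  have e1 : ({x, g} : Finset V).filter (Fc s.G κ w) = {x} := by
    ext a
    simp only [mem_filter, mem_insert, mem_singleton]
    constructor
    · rintro ⟨h | h, h'⟩
      · exact h
      · exact absurd (h ▸ h') hnF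
    · intro h
      exact ⟨Or.inl h, h ▸ hF⟩
  have e2 : ({x, g} : Finset V).filter (Hc s.G κ w) = {g} := by
    ext a
    simp only [mem_filter, mem_insert, mem_singleton]
    constructor
    · rintro ⟨h | h, h'⟩
      · exact absurd (h ▸ h') hnH
      · exact h
    · intro h
      exact ⟨Or.inr h, h ▸ hH⟩
  rw [e1, e2, card_singleton, card_singleton] at hfl
  have hlt := ((Nb1.mem_Q s _ w).1 hw1).2
  refine ⟨hm3, w, (Nb1.mem_Q s κ w).2 ⟨hcw, ?_⟩, hwx, hwy, hgw, hs1, hQ⟩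
  rw [hfl] at hlt
  push_cast at hlt
  linarith

end

end Pool.Agent.MP_d1f1f3_co.H2
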