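import Pool.Agent.MP_d1f1f3_co.H2.Nj2

/-!
Row NJ: rich states of the wrong parity.
-/

namespace Pool.Agent.MP_d1f1f3_co.H2

open Finset Relation H47
open scoped Classical

noncomputable section

namespace Nj

open Cj

variable {V : Type} [Fintype V] {s : Sg V} {κ : V → ZMod 2} {r u v w y : V}

omit [Fintype V] in
theorem k_r : flp κ {r} r = κ r + 1 := if_pos (mem_singleton_self _)

omit [Fintype V] in
theorem k_v (h : v ≠ r) : flp κ {r} v = κ v := if_neg fun k => h (mem_singleton.1 k)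

theorem fc_iff : Fc s.G (flp κ {r}) r v ↔ Hc s.G κ r v := by
  refine and_congr_right fun a => and_congr_right fun _ => and_congr_right fun _ => ?_
  rw [k_r, k_v a.ne']
  exact Flip.z1 _ _

theorem pr_flp (hp : ¬s.PR κ) (hr : Co s.G r) : s.PR (flp κ {r}) := by
  rw [Sg.PR, Flip.sum_flp κ fun w hw => mem_singleton.1 hw ▸ hr, Flip.dl_par, card_singleton,
    Nat.cast_one]
  exact (Flip.z1 _ _).2 hp

theorem bal_one (v : V) : Flip.bal s.G κ {r} v =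
    (if Fc s.G κ v r then 1 else 0) - if Hc s.G κ v r then 1 else 0 := by
  rw [Flip.bal_eq, sum_singleton]

theorem t_r (hs : s.Ok) (hr : Co s.G r) :
    s.t (flp κ {r}) r = -1 - (if r = s.ρ then 1 else 0) - s.t κ r := by
  rw [Flip.t_flp hs κ {r} hr, if_pos (mem_singleton_self _), bal_one,
    if_neg fun k : Fc s.G κ r r => k.1.ne rfl, if_neg fun k : Hc s.G κ r r => k.1.ne rfl]
  ring

theorem t_v (hs : s.Ok) (hv : Co s.G v) (h : v ≠ r) : s.t κ v - 1 ≤ s.t (flp κ {r}) v ∧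
    (¬Fc s.G (flp κ {r}) r v → s.t κ v ≤ s.t (flp κ {r}) v) := by
  rw [Flip.t_flp hs κ {r} hv, if_neg fun k => h (mem_singleton.1 k), bal_one, fc_iff]
  refine ⟨by split_ifs <;> omega, fun k => ?_⟩
  rw [if_neg fun a => k (hc_symm a)]
  split_ifs <;> omega

theorem core (hs : s.Ok) : ∃ v, Co s.G v ∧ v ≠ s.ρ := by
  rcases hs.root with a | ⟨-, a, v, hv⟩
  · have b : 3 ≤ dg s.G s.ρ := a.2
    obtain ⟨w, hw, e⟩ := exists_mem_ne (s := N s.G s.ρ) (show 1 < dg s.G s.ρ by omega) s.z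
    have c : s.G.Adj s.ρ w := (mem_filter.1 hw).2
    have q : 0 < dg s.G w := card_pos.2 ⟨s.ρ, mem_filter.2 ⟨mem_univ _, c.symm⟩⟩
    exact ⟨w, (hs.deg w).resolve_left fun k => e (hs.leaf w (by omega)), c.ne'⟩
  · refine ⟨v, hv, fun e => ?_⟩
    have b : 3 ≤ dg s.G v := hv
    rw [e, a, hs.iso] at b
    omega

theorem t_four (hv : Co s.G v) (h4 : dg s.G v = 4) (h1 : κ v = 1) : s.t κ v ≤ 1 := by
  have a : Wv s.G κ v := ⟨coK hv, by rw [h4]; decide, by rw [h4, h1]; decide⟩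
  have b := tau_W a
  have c := t_le (s := s) (κ := κ) v
  omega

/-- All core vertices have a spare token. -/
theorem caseA (hO : SOri3) (hN : SNat) (hs : s.Ok) (hp : ¬s.PR κ)
    (hA : ∀ v, Co s.G v → 1 ≤ s.t κ v) : s.Sol := by
  obtain ⟨r, cr, hρ, w4, mn⟩ : ∃ r, Co s.G r ∧ r ≠ s.ρ ∧
      (∀ y, Co s.G y → y ≠ s.ρ → dg s.G y = 4 → κ y = 1 → κ r = 1) ∧
      (s.t κ r ≤ 1 ∨ ∀ v, Co s.G v → v ≠ s.ρ → s.t κ r ≤ s.t κ v) := by
    by_cases e : ∃ y, Co s.G y ∧ y ≠ s.ρ ∧ dg s.G y = 4 ∧ κ y = 1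
    · obtain ⟨y, y1, y2, y3, y4⟩ := e
      exact ⟨y, y1, y2, fun _ _ _ _ _ => y4, Or.inl (t_four y1 y3 y4)⟩
    · obtain ⟨v, hv⟩ := core hs
      obtain ⟨r, r1, r2⟩ := exists_min_image (univ.filter fun v => Co s.G v ∧ v ≠ s.ρ) (s.t κ)
        ⟨v, mem_filter.2 ⟨mem_univ _, hv⟩⟩
      exact ⟨r, (mem_filter.1 r1).2.1, (mem_filter.1 r1).2.2,
        fun y a b c d => absurd ⟨y, a, b, c, d⟩ e,
        Or.inr fun v a b => r2 v (mem_filter.2 ⟨mem_univ _, a, b⟩)⟩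
  have tr := t_r (κ := κ) hs cr
  rw [if_neg hρ] at tr
  have t1 := hA r cr
  have t2 := t_N (s := s) (κ := flp κ {r}) (v := r) fun k => hρ k.1
  have t3 := tau_pos (κ := flp κ {r}) cr
  have nw : ∀ y, Fc s.G (flp κ {r}) r y → y ≠ s.ρ → ¬(dg s.G y = 4 ∧ flp κ {r} y = 1) :=
    fun y a b c => by
      have d := c.2
      rw [k_v a.1.ne'] at d
      exact (fc_iff.1 a).2.2.2 ((w4 y a.2.2.1 b c.1 d).trans d.symm)
  have ri : ∀ v, Co s.G v → v ≠ r → ¬Fc s.G (flp κ {r}) r v → 1 ≤ s.t (flp κ {r}) v :=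
    fun v a b c => (hA v a).trans ((t_v hs a b).2 c)
  have h : Gs s (flp κ {r}) r := ⟨hs, pr_flp hp cr, cr, ri, fun v a b => by
    have := hA v a
    have := (t_v (κ := κ) hs a b).1
    omega, by omega, fun D _ _ => Or.inl (card_le_one.2 fun a ha b hb => by
      have e : ∀ y, (s.cx (flp κ {r}) D).L2 y → y = s.ρ := fun y hy => by
        obtain ⟨y1, y2, y3, y4, y5⟩ := l2_t hy
        have n : y ≠ r := fun k => by
          rw [k] at y4
          omega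
        by_contra k
        exact nw y (by_contra fun c => by
          have := ri y y1 n c
          omega) k ⟨y2, y3⟩
      exact (e a (mem_filter.1 ha).2).trans (e b (mem_filter.1 hb).2).symm)⟩
  by_cases m : s.t κ r ≤ 1
  · by_cases e : ∃ w, Fc s.G (flp κ {r}) r w ∧ 1 ≤ s.t (flp κ {r}) w
    · obtain ⟨w, hw⟩ := e
      exact h.free hO hN (by omega) {w} (fun _ k => mem_singleton.1 k ▸ hw)
        (by rw [card_singleton]; omega)
    · obtain ⟨u, hu, k⟩ := exists_mem_ne (s := univ.filter fun w => Fc s.G (flp κ {r}) r w)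
        (show 1 < df s.G (flp κ {r}) r by omega) s.ρ
      have a := (mem_filter.1 hu).2
      exact h.pay hO hN (by omega) (by omega) a k (by_contra fun b => e ⟨u, a, by omega⟩) (nw u a k)
  · refine h.free hO hN (by omega) ((univ.filter fun w => Fc s.G (flp κ {r}) r w).erase s.ρ)
      (fun w hw => ?_) ?_
    · have a := (mem_filter.1 (mem_of_mem_erase hw)).2
      have b := mn.resolve_left m w a.2.2.1 (ne_of_mem_erase hw)
      have c := (t_v (κ := κ) hs a.2.2.1 a.1.ne').1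
      exact ⟨a, by omega⟩
    · have a : df s.G (flp κ {r}) r - 1 ≤
          #((univ.filter fun w => Fc s.G (flp κ {r}) r w).erase s.ρ) := pred_card_le_card_erase
      omega

/-- The root vertex is tight and the parity is changed there. -/
theorem caseB (hO : SOri3) (hN : SNat) (hs : s.Ok) (hκ : s.Rich κ) (cr : Co s.G s.ρ)
    (h0 : s.t κ s.ρ ≤ 0)
    (hB : ¬((∃ y, Hc s.G κ s.ρ y ∧ dg s.G y = 4 ∧ κ y = 1) ∧ 5 ≤ dh s.G κ s.ρ)) : s.Sol := by
  have tr := t_r (κ := κ) hs cr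
  rw [if_pos rfl] at tr
  have t1 := (hκ.2 _ cr).1
  have e1 : df s.G (flp κ {s.ρ}) s.ρ = dh s.G κ s.ρ :=
    congrArg card (filter_congr fun _ _ => fc_iff)
  have ri : ∀ v, Co s.G v → v ≠ s.ρ → ¬Fc s.G (flp κ {s.ρ}) s.ρ v → 1 ≤ s.t (flp κ {s.ρ}) v :=
    fun v a b c => ((hκ.2 v a).2 b).trans ((t_v hs a b).2 c)
  have h : Gs s (flp κ {s.ρ}) s.ρ := ⟨hs, pr_flp hκ.1 cr, cr, ri, fun v a b => by
    have := (hκ.2 v a).2 b
    have := (t_v (κ := κ) hs a b).1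
    omega, by omega, fun D hD hF => by
      have e : ∀ y, (s.cx (flp κ {s.ρ}) D).L2 y → y ≠ s.ρ → y ∈ (s.cx (flp κ {s.ρ}) D).Fo s.ρ ∧
          Hc s.G κ s.ρ y ∧ dg s.G y = 4 ∧ κ y = 1 := fun y hy n => by
        obtain ⟨y1, y2, y3, y4, y5⟩ := l2_t hy
        have a : Fc s.G (flp κ {s.ρ}) s.ρ y := by_contra fun c => by
          have := ri y y1 n c
          omega
        refine ⟨mem_Fo.2 ⟨(hD.ori _ _ a.1).2 fun b => ?_, a⟩, fc_iff.1 a, y2, k_v (κ := κ) n ▸ y3⟩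
        exact notMem_empty _ (hy.2.2.2 ▸ mem_Fo.2 ⟨b, fc_symm a⟩)
      by_cases k : ∀ y, (s.cx (flp κ {s.ρ}) D).L2 y → y = s.ρ
      · exact Or.inl (card_le_one.2 fun a ha b hb =>
          (k a (mem_filter.1 ha).2).trans (k b (mem_filter.1 hb).2).symm)
      push Not at k
      obtain ⟨y, y1, y2⟩ := k
      obtain ⟨z1, z2⟩ := e y y1 y2
      have n : ¬(s.cx (flp κ {s.ρ}) D).L2 s.ρ := fun a => notMem_empty _ (a.2.2.2 ▸ z1)
      have a : ¬5 ≤ dh s.G κ s.ρ := fun a => hB ⟨⟨y, z2⟩, a⟩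
      have k1 : flp κ {s.ρ} s.ρ = 1 := (mem_Fo.1 z1).2.2.2.2.trans (l2_t y1).2.2.1
      refine Or.inr ⟨le_trans (card_le_card fun w hw => ?_) (hF (by omega)), fun v b c => ?_⟩
      · exact (e w (mem_filter.1 hw).2 fun k => n (k ▸ (mem_filter.1 hw).2)).1
      · have d : flp κ {s.ρ} s.ρ ≠ flp κ {s.ρ} v := by
          rw [k1, c]
          decide
        have f := ri v b (fun k => d (k ▸ rfl)) fun k => d k.2.2.2
        have g := t_le (s := s) (κ := flp κ {s.ρ}) v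
        omega⟩
  by_cases c1 : 2 ≤ dh s.G (flp κ {s.ρ}) s.ρ
  · exact h.pair hO hN c1 (by omega) rfl
  by_cases c2 : dg s.G s.ρ = 3 ∧ df s.G (flp κ {s.ρ}) s.ρ = 1
  · exact h.three hO hN c2.1 c2.2 (by omega) rfl
  have c3 : 2 ≤ df s.G (flp κ {s.ρ}) s.ρ := by
    have a := Flip.deg_eq hs (flp κ {s.ρ}) cr
    have b : 3 ≤ dg s.G s.ρ := cr
    rw [if_pos rfl] at a
    omega
  by_cases e : ∃ w, Fc s.G (flp κ {s.ρ}) s.ρ w ∧ 1 ≤ s.t (flp κ {s.ρ}) w
  · obtain ⟨w, hw⟩ := e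
    exact h.free hO hN c3 {w} (fun _ k => mem_singleton.1 k ▸ hw) (by rw [card_singleton]; omega)
  by_cases e' : ∀ u, Fc s.G (flp κ {s.ρ}) s.ρ u → dg s.G u = 4 ∧ flp κ {s.ρ} u = 1
  · exact h.four hO hN c3 (by omega) rfl e'
  · obtain ⟨u, a⟩ := not_forall.1 e'
    obtain ⟨a, b⟩ := Classical.not_imp.1 a
    exact h.pay hO hN c3 (by omega) a a.1.ne' (by_contra fun b => e ⟨u, a, by omega⟩) b

/-- The root vertex is paid twice. -/
theorem caseD (hO : SOri3) (hN : SNat) (hs : s.Ok) (hκ : s.Rich κ) (hr : Hc s.G κ s.ρ r)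
    (h4 : dg s.G r = 4) (h1 : κ r = 1) (h5 : 5 ≤ dh s.G κ s.ρ) : s.Sol := by
  have cρ : Co s.G s.ρ := hr.2.1
  have cr : Co s.G r := hr.2.2.1
  have n : r ≠ s.ρ := hr.1.ne'
  have tr := t_r (κ := κ) hs cr
  rw [if_neg n] at tr
  have t1 := (hκ.2 r cr).2 n
  have t2 := t_four cr h4 h1
  have t3 := (hκ.2 _ cρ).1
  have t4 := (t_v (κ := κ) hs cρ n.symm).1
  have f : Fc s.G (flp κ {r}) r s.ρ := fc_iff.2 (hc_symm hr)
  have k0 : flp κ {r} r = 0 := by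
    rw [k_r, h1]
    decide
  have d4 : 4 ≤ dh s.G (flp κ {r}) s.ρ := by
    have a := Flip.df_flp s.G κ {r} s.ρ
    rw [if_neg fun k => n (mem_singleton.1 k).symm, bal_one, if_pos hr] at a
    have b := Flip.deg_eq hs κ cρ
    have c := Flip.deg_eq hs (flp κ {r}) cρ
    split_ifs at a <;> omega
  obtain ⟨D, g, g', hD, hn, e, d1, d2, d1', d2'⟩ := ori_2 hO hN hs d4
  have ri : ∀ v, Co s.G v → v ≠ r → ¬Fc s.G (flp κ {r}) r v → 1 ≤ s.t (flp κ {r}) v :=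
    fun v a b c => ((hκ.2 v a).2 fun k => c (k ▸ f)).trans ((t_v hs a b).2 c)
  have hP : ∀ a ∈ ({(g, s.ρ), (g', s.ρ)} : Finset (V × V)),
      a.2 = s.ρ ∧ D a.1 s.ρ ∧ Hc s.G (flp κ {r}) a.1 s.ρ := fun a ha => by
    rcases mem_insert.1 ha with k | k
    · exact k ▸ ⟨rfl, d1, d2⟩
    · exact mem_singleton.1 k ▸ ⟨rfl, d1', d2'⟩
  have p2 : pin {(g, s.ρ), (g', s.ρ)} s.ρ = 2 := by
    rw [pin, filter_true_of_mem fun a ha => (hP a ha).1, card_pair fun k => e (congrArg Prod.fst k)]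
  have p0 : pout {(g, s.ρ), (g', s.ρ)} s.ρ = 0 :=
    card_eq_zero.2 (filter_eq_empty_iff.2 fun a ha => (hP a ha).2.2.1.ne)
  refine ⟨flp κ {r}, D, pr_flp hκ.1 cr, hD, dok (r := r) (P := {(g, s.ρ), (g', s.ρ)}) (ub := True)
    hs hD ⟨fun v a => (hn v a).1.n1, fun v a b c _ => (hn v a.1).1.n3b a b c, fun a ha => ?_,
      fun v => card_le_one.2 fun a ha b hb => ?_, fun v a b => ?_, ri, Or.inr fun a ha => ?_,
      fun a ha => Or.inl ⟨trivial, (hP a ha).1⟩, Or.inl (card_le_one.2 fun y hy => ?_),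
      fun _ => ⟨re_of hs cρ, f.2.2.2.symm, Or.inr (by omega)⟩, cr, by omega, fun _ => trivial,
      fun k => absurd k n, fun _ => (hn r cr).2.2,
      ⟨{s.ρ}, fun w hw => ?_, by rw [card_singleton]; omega⟩⟩⟩
  · obtain ⟨a1, a2, a3⟩ := hP a ha
    rw [a1]
    exact ⟨a2, a3, f.2.2.2.symm⟩
  · obtain ⟨a1, a2⟩ := mem_filter.1 ha
    obtain ⟨b1, b2⟩ := mem_filter.1 hb
    exact Prod.ext (a2.trans b2.symm) ((hP a a1).1.trans (hP b b1).1.symm)
  · by_cases k : v = s.ρ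
    · exact Or.inr ⟨⟨trivial, k⟩, by rw [k]; omega⟩
    · have := (hκ.2 v a).2 k
      have := (t_v (κ := κ) hs a b).1
      exact Or.inl (by omega)
  · obtain ⟨-, -, a3⟩ := hP a ha
    exact ⟨(z2 _).resolve_left fun k => a3.2.2.2 (k.trans (k0.symm.trans f.2.2.2)), (hn _ a3.2.1).1⟩
  · obtain ⟨y1, -, y3, -, y5⟩ := l2_t (mem_filter.1 hy).2
    have d : flp κ {r} r ≠ flp κ {r} y := by
      rw [k0, y3]
      decide
    have := ri y y1 (fun k => d (k ▸ rfl)) fun k => d k.2.2.2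
    omega
  · rw [mem_singleton.1 hw]
    exact ⟨f, by omega⟩

end Nj

theorem nj : SNj := by
  intro hO hN _ V _ s κ hs hκ
  by_cases hA : ∀ v, Co s.G v → 1 ≤ s.t κ v
  · exact Nj.caseA hO hN hs hκ.1 hA
  push Not at hA
  obtain ⟨v, hv, ht⟩ := hA
  obtain rfl : v = s.ρ := by_contra fun k => by
    have := (hκ.2 v hv).2 k
    omega
  by_cases hB : (∃ y, Hc s.G κ s.ρ y ∧ dg s.G y = 4 ∧ κ y = 1) ∧ 5 ≤ dh s.G κ s.ρ
  · obtain ⟨⟨y, y1, y2, y3⟩, h5⟩ := hB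
    exact Nj.caseD hO hN hs hκ y1 y2 y3 h5
  · exact Nj.caseB hO hN hs hκ hv (by omega) hB

end

end Pool.Agent.MP_d1f1f3_co.H2
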