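import Pool.Agent.MP_d1f1f3_co.H2.Cj
import Pool.Agent.MP_d1f1f3_co.H2.Flip

/-!
Row NJ: the certificate for a state with one distinguished vertex.
-/

namespace Pool.Agent.MP_d1f1f3_co.H2

open Finset Relation H47
open scoped Classical

noncomputable section

namespace Nj

open Cj

variable {V : Type} [Fintype V]

/-- Payments coming in. -/
def pin (P : Finset (V × V)) (v : V) : ℕ := #(P.filter fun a => a.2 = v)

/-- Payments going out. -/
def pout (P : Finset (V × V)) (v : V) : ℕ := #(P.filter fun a => a.1 = v)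

/-- The design. -/
def des (s : Sg V) (κ : V → ZMod 2) (D : V → V → Prop) (r : V) (P : Finset (V × V))
    (ub : Prop) : Ds V where
  t := fun v => tau s.G κ v - df s.G κ v - 2
  sF := fun _ _ => 0
  U := univ.filter (s.Ur κ)
  P := P
  Fx := ∅
  Pi := univ.filter fun v => v = r ∧ (s.cx κ D).Yc v ∧ ¬(ub ∧ v = s.ρ)
  oc := id
  v₀ := some r
  big := none
  J := False
  Sf := ∅
  ub := ub
  st := False
  e₁ := (s.ρ, s.ρ)
  e₂ := (s.ρ, s.ρ)

/-- The certificate. -/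
structure Ce (s : Sg V) (κ : V → ZMod 2) (D : V → V → Prop) (r : V) (P : Finset (V × V))
    (ub : Prop) : Prop where
  n1 : ∀ v, Co s.G v → 2 ≤ df s.G κ v → ((s.cx κ D).Fo v).Nonempty
  n3 : ∀ v, (s.cx κ D).To v → dg s.G v = 3 → df s.G κ v = 1 → ¬(ub ∧ v = s.ρ) →
    (s.cx κ D).Fi v = ∅
  pb : ∀ a ∈ P, D a.1 a.2 ∧ Hc s.G κ a.1 a.2 ∧ κ a.2 = κ r
  po : ∀ v, pout P v ≤ 1
  lo : ∀ v, Co s.G v → v ≠ r → 0 ≤ s.t κ v ∨ ((ub ∧ v = s.ρ) ∧ 0 ≤ s.t κ v + pin P v)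
  ri : ∀ v, Co s.G v → v ≠ r → ¬Fc s.G κ r v → 1 ≤ s.t κ v
  two : #P ≤ 1 ∨ ∀ a ∈ P, κ a.1 = 1 ∧ s.Loc κ D a.1
  hd : ∀ a ∈ P, (ub ∧ a.2 = s.ρ) ∨ ¬(s.cx κ D).Yc a.2 ∨ (a.2 ≠ r ∧ (s.cx κ D).Wc a.2 ∧
    #((s.cx κ D).Fi a.2) + pin P a.2 < dg s.G a.2 / 2 ∧
    (df s.G κ a.2 ≠ 1 ∨ ∀ w ∈ (s.cx κ D).Fo a.2, 2 ≤ df s.G κ w))
  l2 : #(univ.filter (s.cx κ D).L2) ≤ 1 ∨ (#(univ.filter (s.cx κ D).L2) ≤ 2 ∧
    ∀ v, Co s.G v → κ v = 0 → (df s.G κ v : ℤ) + 1 ≤ tau s.G κ v)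
  ur : ub → s.Re ∧ κ s.ρ = κ r ∧ (r = s.ρ ∨ 1 ≤ s.t κ s.ρ + pin P s.ρ)
  cr : Co s.G r
  tr : s.t κ r ≤ -2
  rr : r = s.ρ → ub
  fo : r = s.ρ → ¬(s.cx κ D).Yc r → ((s.cx κ D).Fo r).Nonempty
  fi : r ≠ s.ρ → df s.G κ r / 2 ≤ #((s.cx κ D).Fi r)
  hl : ∃ S : Finset V, (∀ w ∈ S, Fc s.G κ r w ∧ 1 ≤ s.t κ w + pin P w - pout P w) ∧
    0 ≤ s.t κ r + pin P r + 1 + #S

variable {s : Sg V} {κ : V → ZMod 2} {D : V → V → Prop} {r : V} {P : Finset (V × V)} {ub : Prop}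
  {u v w : V}

theorem Ce.pa (h : Ce s κ D r P ub) (a : V × V) (ha : a ∈ P) : D a.1 a.2 ∧ Hc s.G κ a.1 a.2 ∧
    1 ≤ s.t κ a.1 ∧ pin P a.1 = 0 ∧ a.1 ≠ r ∧ ¬(ub ∧ a.1 = s.ρ) := by
  obtain ⟨h1, h2, h3⟩ := h.pb a ha
  have n : κ a.1 ≠ κ r := h3 ▸ h2.2.2.2
  have m : a.1 ≠ r := fun k => n (congrArg κ k)
  exact ⟨h1, h2, h.ri _ h2.2.1 m fun k => n k.2.2.2.symm,
    card_eq_zero.mpr (filter_eq_empty_iff.mpr fun b hb k => n (k ▸ (h.pb b hb).2.2)), m,
    fun k => n (k.2 ▸ (h.ur k.1).2.1)⟩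

theorem Ce.big (h : Ce s κ D r P ub) (k : r ≠ s.ρ) :
    tau s.G κ r + 2 ≤ df s.G κ r ∧ 3 ≤ df s.G κ r := by
  have a := t_N (s := s) (κ := κ) (v := r) fun b => k b.1
  have b := h.tr
  have c := tau_pos (κ := κ) h.cr
  omega

theorem Ce.pr (hD : s.Ob D) (h : Ce s κ D r P ub) (k : ¬(ub ∧ r = s.ρ)) :
    ((s.cx κ D).Wc r → dg s.G r < 2 * df s.G κ r) ∧
      ((s.cx κ D).To r → 2 ≤ #((s.cx κ D).Fo r) ∧ ((s.cx κ D).Fi r).Nonempty) := by
  have n : r ≠ s.ρ := fun e => k ⟨h.rr e, e⟩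
  have a := h.big n
  refine ⟨fun hw => ?_, fun hw => ?_⟩
  · obtain ⟨k, k1, k2, k3, k4, k5⟩ := w_deg hD hw
    omega
  · obtain ⟨k, k1, k2, k3, k4, k5⟩ := t_deg hD hw
    have b := fo_fi (κ := κ) hD r
    have c := h.fi n
    have d : #((s.cx κ D).Fi r) ≤ #((s.cx κ D).Ri r) := card_le_card fun w hw =>
      mem_filter.mpr ⟨mem_univ _, (mem_Fi.mp hw).1, (mem_Fi.mp hw).2.1⟩
    exact ⟨by omega, card_pos.mp (by omega)⟩

theorem pin_card (v : V) : pin P v = #(univ.filter fun a => (a, v) ∈ P) := by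
  refine card_nbij' (fun a => a.1) (fun a => (a, v)) ?_ ?_ ?_ ?_
  · rintro ⟨a, b⟩ h
    obtain ⟨h1, rfl⟩ := mem_filter.mp h
    exact mem_filter.mpr ⟨mem_univ _, h1⟩
  · intro a h
    exact mem_filter.mpr ⟨(mem_filter.mp h).2, rfl⟩
  · rintro ⟨a, b⟩ h
    obtain ⟨-, rfl⟩ := mem_filter.mp h
    rfl
  · intro a _
    rfl

theorem pout_card (v : V) : pout P v = #(univ.filter fun b => (v, b) ∈ P) := by
  refine card_nbij' (fun a => a.2) (fun b => (v, b)) ?_ ?_ ?_ ?_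
  · rintro ⟨a, b⟩ h
    obtain ⟨h1, rfl⟩ := mem_filter.mp h
    exact mem_filter.mpr ⟨mem_univ _, h1⟩
  · intro a h
    exact mem_filter.mpr ⟨(mem_filter.mp h).2, rfl⟩
  · rintro ⟨a, b⟩ h
    obtain ⟨-, rfl⟩ := mem_filter.mp h
    rfl
  · intro a _
    rfl

theorem ri_split (h : Ce s κ D r P ub) (v : V) :
    #((s.cx κ D).Ri v) = #((s.cx κ D).Fi v) + #((s.cx κ D).Ig (des s κ D r P ub) v) + pin P v := by
  rw [← card_filter_add_card_filter_not (s := (s.cx κ D).Ri v) (fun w => Fc s.G κ v w),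
    ← card_filter_add_card_filter_not (s := ((s.cx κ D).Ri v).filter fun w => ¬Fc s.G κ v w)
      (fun w => (w, v) ∉ P), pin_card, add_assoc]
  congr 1
  · congr 1
    ext w
    simp only [Cx.Fi, Cx.Ri, Sg.cx, mem_filter, mem_univ, true_and]
    exact ⟨fun a => ⟨a.1.1, a.2⟩, fun a => ⟨⟨a.1, a.2.1⟩, a.2⟩⟩
  congr 2
  · ext w
    simp only [Cx.Ig, Cx.Ri, Sg.cx, des, mem_filter, mem_univ, true_and, and_assoc]
  · ext w
    simp only [Cx.Ri, Sg.cx, mem_filter, mem_univ, true_and, not_not]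
    exact ⟨fun a => a.2, fun a => ⟨⟨⟨(h.pa _ a).1, (h.pa _ a).2.1.1.symm⟩,
      fun k => (h.pa _ a).2.1.2.2.2 k.2.2.2.symm⟩, a⟩⟩

theorem out_split (h : Ce s κ D r P ub) (v : V) :
    #((s.cx κ D).Og (des s κ D r P ub) v) + pout P v = #(Out D v) := by
  rw [← card_filter_add_card_filter_not (s := Out D v) (fun w => (v, w) ∉ P), pout_card]
  congr 2
  · ext w
    simp [Cx.Og, Sg.cx, des]
  · ext w
    simp only [Out, mem_filter, mem_univ, true_and, not_not]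
    exact ⟨fun a => ⟨(h.pa _ a).1, a⟩, fun a => a.2⟩

theorem pout_t (h : Ce s κ D r P ub) (v : V) : pout P v = 0 ∨ (pout P v = 1 ∧ 1 ≤ s.t κ v ∧
    pin P v = 0 ∧ v ≠ r ∧ ¬(ub ∧ v = s.ρ)) := by
  rcases Nat.eq_zero_or_pos (pout P v) with a | a
  · exact Or.inl a
  · obtain ⟨x, hx⟩ := card_pos.mp a
    obtain ⟨h1, rfl⟩ := mem_filter.mp hx
    exact Or.inr ⟨le_antisymm (h.po _) a, (h.pa x h1).2.2⟩

theorem pin_t (h : Ce s κ D r P ub) (hy : (s.cx κ D).Yc v) (hu : ¬(ub ∧ v = s.ρ)) :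
    pin P v = 0 ∨ (v ≠ r ∧ (s.cx κ D).Wc v ∧ #((s.cx κ D).Fi v) + pin P v < dg s.G v / 2 ∧
      (df s.G κ v ≠ 1 ∨ ∀ w ∈ (s.cx κ D).Fo v, 2 ≤ df s.G κ w)) := by
  rcases Nat.eq_zero_or_pos (pin P v) with a | a
  · exact Or.inl a
  · obtain ⟨x, hx⟩ := card_pos.mp a
    obtain ⟨h1, rfl⟩ := mem_filter.mp hx
    exact Or.inr (((h.hd x h1).resolve_left hu).resolve_left (not_not.mpr hy))

theorem mem_Pi : v ∈ (des s κ D r P ub).Pi ↔ v = r ∧ (s.cx κ D).Yc v ∧ ¬(ub ∧ v = s.ρ) := by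
  simp [des]

theorem mem_U : v ∈ (des s κ D r P ub).U ↔ s.Ur κ v := by simp [des]

theorem fx0 (v : V) : (s.cx κ D).fx (des s κ D r P ub) v = 0 := by simp [Cx.fx, des]

theorem rb0 (v : V) : (s.cx κ D).Rb (des s κ D r P ub) v = 0 := if_pos (Or.inl id)

theorem y1_eq (v : V) : (s.cx κ D).y1 (des s κ D r P ub) v =
    tau s.G κ v - df s.G κ v + pin P v - pout P v := by
  rw [Cx.y1, fx0, Nat.cast_zero, sub_zero]
  rfl

theorem pi0 (h : Ce s κ D r P ub) (hv : v ∈ (des s κ D r P ub).Pi) : pin P v = 0 := by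
  obtain ⟨a, b, c⟩ := mem_Pi.mp hv
  exact (pin_t h b c).elim id fun k => absurd a k.1

theorem e0 (h : Ce s κ D r P ub) (hv : Co s.G v) (hr : v ≠ r) :
    0 ≤ s.t κ v + pin P v - pout P v := by
  rcases pout_t h v with a | a
  · rcases h.lo v hv hr with b | b <;> omega
  · omega

theorem gn (h : Ce s κ D r P ub) (hv : Co s.G v) (hy : (s.cx κ D).Yc v)
    (hg : (s.cx κ D).Gn (des s κ D r P ub) v) :
    ¬(ub ∧ v = s.ρ) ∧ (df s.G κ v : ℤ) ≤ tau s.G κ v := by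
  have a : ¬(ub ∧ v = s.ρ) := hg.2.1
  have b : v ≠ r := fun k => hg.1 (mem_Pi.mpr ⟨k, hy, a⟩)
  have c := (h.lo v hv b).resolve_right fun k => a k.1
  have d := t_le (s := s) (κ := κ) v
  exact ⟨a, by omega⟩

theorem pw (hD : s.Ob D) (h : Ce s κ D r P ub) (hw : (s.cx κ D).Wc v)
    (hg : (s.cx κ D).Gn (des s κ D r P ub) v) :
    #((s.cx κ D).Ri v \ (s.cx κ D).Ig (des s κ D r P ub) v) +
      #(Out D v \ (s.cx κ D).Og (des s κ D r P ub) v) < dg s.G v / 2 := by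
  have a := card_sdiff_add_card_eq_card
    (show (s.cx κ D).Ig (des s κ D r P ub) v ⊆ (s.cx κ D).Ri v from filter_subset _ _)
  have b := card_sdiff_add_card_eq_card
    (show (s.cx κ D).Og (des s κ D r P ub) v ⊆ Out D v from filter_subset _ _)
  have c := out_split h v
  have f := ri_split h v
  have g := fo_fi (κ := κ) hD v
  obtain ⟨g1, g2⟩ := gn h hw.1 (Or.inl hw) hg
  have p1 := pout_t h v
  have p2 : pin P v = 0 ∨ #((s.cx κ D).Fi v) + pin P v < dg s.G v / 2 :=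
    (pin_t h (Or.inl hw) g1).imp_right fun x => x.2.2.1
  have t1 := t_le (s := s) (κ := κ) v
  obtain ⟨k, k1, k2, k3, k4, k5⟩ := w_deg hD hw
  omega

theorem og_ne (hD : s.Ob D) (h : Ce s κ D r P ub) (hw : (s.cx κ D).To v) :
    ((s.cx κ D).Og (des s κ D r P ub) v).Nonempty := by
  have c := out_split h v
  have p := h.po v
  obtain ⟨k, k1, k2, k3, k4, k5⟩ := t_deg hD hw
  exact card_pos.mp (by omega)

theorem pt (hD : s.Ob D) (h : Ce s κ D r P ub) (hw : (s.cx κ D).To v)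
    (hg : (s.cx κ D).Gn (des s κ D r P ub) v) :
    ((s.cx κ D).Ig (des s κ D r P ub) v).Nonempty ∧
      (2 ≤ #((s.cx κ D).Og (des s κ D r P ub) v) ∨
        (s.cx κ D).Ri v ⊆ (s.cx κ D).Ig (des s κ D r P ub) v) := by
  have c := out_split h v
  have f := ri_split h v
  have g := fo_fi (κ := κ) hD v
  obtain ⟨g1, g2⟩ := gn h hw.1 (Or.inr hw) hg
  have p1 := pout_t h v
  have p2 : pin P v = 0 := (pin_t h (Or.inr hw) g1).elim id fun x =>
    absurd x.2.1.2.2.1 (Nat.not_even_iff_odd.mpr hw.2.1)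
  have t1 := t_le (s := s) (κ := κ) v
  obtain ⟨k, k1, k2, k3, k4, k5⟩ := t_deg hD hw
  constructor
  · rw [← card_pos]
    by_cases a : 2 ≤ df s.G κ v
    · have := card_pos.mpr (h.n1 v hw.1 a)
      omega
    by_cases b : dg s.G v = 3 ∧ df s.G κ v = 1
    · have := card_eq_zero.mpr (h.n3 v hw b.1 b.2 g1)
      omega
    omega
  · by_cases a : 2 ≤ #((s.cx κ D).Og (des s κ D r P ub) v)
    · exact Or.inl a
    · exact Or.inr (eq_of_subset_of_card_le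
        (show (s.cx κ D).Ig (des s κ D r P ub) v ⊆ (s.cx κ D).Ri v from filter_subset _ _)
        (by omega)).ge

omit [Fintype V] in
theorem ind_self (v : V) : ind (some v) {v} = 1 := if_pos ⟨v, mem_singleton_self _, rfl⟩

theorem only (h1 : df s.G κ u = 1) (hw : Fc s.G κ u w) (hv : Fc s.G κ u v) : v = w :=
  card_le_one.mp (le_of_eq h1) v (mem_filter.mpr ⟨mem_univ _, hv⟩) w
    (mem_filter.mpr ⟨mem_univ _, hw⟩)

theorem k2 (h : Ce s κ D r P ub) (hw : w ∈ (s.cx κ D).Fo u) (h1 : df s.G κ u = 1)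
    (h2 : df s.G κ w = 1) (hy : ¬(s.cx κ D).Yc u) (hr : u ≠ r) :
    1 ≤ (s.cx κ D).y1 (des s κ D r P ub) u + (s.cx κ D).y1 (des s κ D r P ub) w +
      ind (some r) {w} := by
  have hF := (mem_Fo.mp hw).2
  have cu : Co s.G u := hF.2.1
  have cw : Co s.G w := hF.2.2.1
  rw [y1_eq, y1_eq]
  have a1 := e0 h cu hr
  have b1 := t_le (s := s) (κ := κ) u
  have b2 := t_le (s := s) (κ := κ) w
  have p1 := pout_t h u
  have p2 := pout_t h w
  by_cases e : w = r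
  · subst e
    rw [ind_self]
    have := tau_pos (κ := κ) cw
    omega
  have a2 := e0 h cw e
  have c1 := h.ri u cu hr fun k => e (only h1 hF (fc_symm k)).symm
  have c2 := h.ri w cw e fun k => hr (only h2 (fc_symm hF) (fc_symm k)).symm
  rcases p1 with p1 | p1
  · omega
  rcases p2 with p2 | p2
  · omega
  obtain ⟨x, hx⟩ := card_pos.mp (show 0 < pout P u by omega)
  obtain ⟨y, hy'⟩ := card_pos.mp (show 0 < pout P w by omega)
  obtain ⟨x1, x2⟩ := mem_filter.mp hx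
  obtain ⟨y1, y2⟩ := mem_filter.mp hy'
  rcases h.two with d | d
  · exact absurd (x2.symm.trans ((congrArg Prod.fst (card_le_one.mp d x x1 y y1)).trans y2))
      hF.1.ne
  obtain ⟨d1, d2⟩ := d x x1
  rw [x2] at d1 d2
  have a : Even (dg s.G u) := Nat.not_odd_iff_even.mp fun k =>
    hy (Or.inr (d2.n3a k h1 w hw (by omega)))
  have b : ¬Wv s.G κ u := fun k => hy (Or.inl ⟨cu, k⟩)
  have f := tau_N b
  have g : 3 ≤ dg s.G u := cu
  rcases class_N cu a b with c | c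
  · exact absurd (c.1.symm.trans d1) (by decide)
  · obtain ⟨k, hk⟩ := a
    omega

theorem term_eq (v : V) : (s.cx κ D).y1 (des s κ D r P ub) v -
    (if v ∈ (des s κ D r P ub).U then 2 else 0) - (s.cx κ D).Rb (des s κ D r P ub) v =
    s.t κ v + pin P v - pout P v := by
  rw [y1_eq, rb0]
  by_cases a : s.Ur κ v
  · rw [if_pos (mem_U.mpr a), t_U a]
    ring
  · rw [if_neg (mt mem_U.mp a), t_N a]
    ring

theorem hl (h : Ce s κ D r P ub) (X : Finset V) (hX : ∀ v ∈ X, Co s.G v) (n : V → ℕ)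
    (hn : #(univ.filter fun w => Fc s.G κ r w ∧ w ∉ X) ≤ n r) :
    0 ≤ ∑ v ∈ X, (s.t κ v + pin P v - pout P v + n v) + ind (some r) X := by
  by_cases hr : r ∈ X
  swap
  · have : 0 ≤ ∑ v ∈ X, (s.t κ v + pin P v - pout P v + n v) := sum_nonneg fun v hv => by
      have := e0 h (hX v hv) fun k => hr (k ▸ hv)
      omega
    omega
  obtain ⟨S, hS, hc⟩ := h.hl
  have i1 : ind (some r) X = 1 := if_pos ⟨r, hr, rfl⟩
  have p0 : pout P r = 0 := (pout_t h r).elim id fun k => absurd rfl k.2.2.2.1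
  have s1 : S ∩ X ⊆ X.erase r := fun w hw =>
    mem_erase.mpr ⟨(hS w (mem_inter.mp hw).1).1.1.ne', (mem_inter.mp hw).2⟩
  have s2 : (#(S ∩ X) : ℤ) ≤ ∑ v ∈ X.erase r, (s.t κ v + pin P v - pout P v + n v) := by
    refine le_trans ?_ (sum_le_sum_of_subset_of_nonneg s1 fun v hv _ => ?_)
    · rw [card_eq_sum_ones, Nat.cast_sum]
      refine sum_le_sum fun w hw => ?_
      have := (hS w (mem_inter.mp hw).1).2
      omega
    · have := e0 h (hX v (mem_of_mem_erase hv)) (ne_of_mem_erase hv)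
      omega
  have s3 : #(S \ X) ≤ n r := le_trans (card_le_card fun w hw =>
    mem_filter.mpr ⟨mem_univ _, (hS w (mem_sdiff.mp hw).1).1, (mem_sdiff.mp hw).2⟩) hn
  have s4 := card_sdiff_add_card_inter S X
  rw [← add_sum_erase X _ hr, i1]
  omega

theorem ok (hs : s.Ok) (hD : s.Ob D) (h : Ce s κ D r P ub) : (s.cx κ D).Ok (des s κ D r P ub) where
  t1 := fun v _ => by
    change tau s.G κ v - df s.G κ v - 2 + df s.G κ v + ∑ _w : V, ((0 : ℕ) : ℤ) ≤ tau s.G κ v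
    simp only [Nat.cast_zero, sum_const_zero]
    omega
  sym := fun _ _ => rfl
  sdiag := fun _ => rfl
  th := fun k => k.elim
  nj := fun _ => by
    have a : (s.cx κ D).Yc r → r ∈ (des s κ D r P ub).Pi ∨ (s.cx κ D).Ub (des s κ D r P ub) r :=
      fun k => or_iff_not_imp_right.mpr fun b => mem_Pi.mpr ⟨rfl, k, b⟩
    refine ⟨fun v hn hy => ?_, fun v hv => congrArg some (mem_Pi.mp hv).1.symm, h.l2, fun v hv => ?_⟩
    · by_cases e : v = r
      · subst e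
        exact a hy
      · have b := (neg_iff.mp hn).2
        have c := t_le (s := s) (κ := κ) v
        exact Or.inr ((h.lo v hn.1 e).resolve_left (by omega)).1
    · obtain rfl : r = v := Option.some.inj hv
      exact ⟨h.cr, (pout_t h r).elim id fun k => absurd rfl k.2.2.2.1, fx0 r, a, fun k =>
        (em (r = s.ρ)).elim (fun e => h.fo e k) fun e => h.n1 r h.cr (by have := h.big e; omega)⟩
  c1 := h.n1
  pa := fun a ha => ⟨(h.pa a ha).1, (h.pa a ha).2.1, fun k => k.elim⟩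
  po := h.po
  fa := fun _ ha => absurd ha (notMem_empty _)
  uc := fun v hv => by
    obtain ⟨rfl, a, -⟩ := mem_U.mp hv
    exact co_root hs a
  pi2 := le_trans (card_le_one.mpr fun a ha b hb =>
    (mem_Pi.mp ha).1.trans (mem_Pi.mp hb).1.symm) one_le_two
  pi := fun v hv => ⟨(mem_Pi.mp hv).2.1,
    (pout_t h v).elim id fun k => absurd (mem_Pi.mp hv).1 k.2.2.2.1, fx0 v, (mem_Pi.mp hv).2.2⟩
  pij := fun k => k.elim
  pir := fun _ v hv => by
    obtain ⟨rfl, -, c⟩ := mem_Pi.mp hv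
    exact h.pr hD c
  pw := fun _ a b => pw hD h a b
  pt := fun _ a b => ⟨(pt hD h a b).1, og_ne hD h a, (pt hD h a b).2⟩
  ub := fun k => ⟨(h.ur k).1, co_root hs (h.ur k).1,
    fun _ => ⟨(pout_t h s.ρ).elim id fun a => absurd ⟨k, rfl⟩ a.2.2.2.2, fx0 _⟩, og_ne hD h,
    (h.ur k).2.2.imp (congrArg some) fun a => Or.inr (by
      have b := (pout_t h s.ρ).elim id fun a => absurd ⟨k, rfl⟩ a.2.2.2.2
      have c := t_le (s := s) (κ := κ) s.ρ
      change 1 ≤ (s.cx κ D).y1 _ s.ρ - (s.cx κ D).Rb _ s.ρ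
      rw [y1_eq, rb0]
      omega)⟩
  r2 := fun v ⟨a1, a2, _, a4, w, w1, w2⟩ => by
    refine (pin_t h a1 a4).elim id fun b => ?_
    have c1 : df s.G κ v = 1 := a2
    have c3 := (b.2.2.2.resolve_left (not_not.mpr c1)) w w1
    rcases w2 with w2 | w2
    · have : df s.G κ w = 1 := w2
      omega
    · have := pi0 h w2.1
      have : pin P w = 1 := w2.2.2
      omega
  ng := fun k => k.elim
  hv := fun k => k.elim
  sf := fun k => k.elim
  ne := fun k => k.elim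
  yb := fun v _ => by
    rw [fx0]
    change tau s.G κ v - df s.G κ v - 2 + _ + _ + (df s.G κ v : ℤ) ≤ tau s.G κ v + _
    split_ifs <;> omega
  x0 := fun v hv a _ => by
    have c := e0 h hv fun k => a (congrArg some k.symm)
    have d := t_le (s := s) (κ := κ) v
    rw [y1_eq, rb0]
    omega
  x1 := fun k => k.elim
  bg := fun b a => by cases a
  k2 := fun _ _ a b c d f => Or.inr (Or.inr (Or.inl ⟨Or.inl id,
    k2 h a b c d fun k => f (congrArg some k.symm)⟩))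
  k3 := fun _ w _ _ c d => by
    have := pi0 h c
    have : pin P w = 1 := d
    omega
  hl := fun X hX => by
    simp only [term_eq]
    exact hl h X hX _ (card_le_card fun w hw => mem_filter.mpr
      ⟨mem_univ _, (mem_filter.mp hw).2.1, (mem_filter.mp hw).2.2, fun k => k.1⟩)
  rt := fun a b => by
    rcases hs.root with c | c
    · exact absurd (mem_filter.mp (c.1.symm ▸ mem_singleton_self _ : s.ρ ∈ N s.G s.z)).2 a
    · have d : 2 ≤ dg s.G s.ρ := b.1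
      rw [c.2.1, hs.iso] at d
      omega
  st := fun k => k.elim

theorem dok (hs : s.Ok) (hD : s.Ob D) (h : Ce s κ D r P ub) : s.Dok κ D :=
  ⟨des s κ D r P ub, ok hs hD h, rfl, fun a => mem_U.mpr a⟩

end Nj

end

end Pool.Agent.MP_d1f1f3_co.H2
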