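import Pool.Agent.MP_d1f1f3_co.H2.Nj1

/-!
Row NJ: orientations and designs with at most one payment.
-/

namespace Pool.Agent.MP_d1f1f3_co.H2

open Finset Relation H47
open scoped Classical

noncomputable section

namespace Nj

open Cj

variable {V : Type} [Fintype V] {s : Sg V} {κ : V → ZMod 2} {D : V → V → Prop} {r u v w g y : V}

theorem hc_symm (h : Hc s.G κ u w) : Hc s.G κ w u := ⟨h.1.symm, h.2.2.1, h.2.1, h.2.2.2.symm⟩

/-- The local facts at a vertex with a natural pairing. -/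
def NF (s : Sg V) (κ : V → ZMod 2) (D : V → V → Prop) (v : V) : Prop :=
  s.Loc κ D v ∧ df s.G κ v / 2 ≤ #((s.cx κ D).Fo v) ∧ df s.G κ v / 2 ≤ #((s.cx κ D).Fi v)

theorem ori_tr (hO : SOri3) (hN : SNat) (hs : s.Ok) (T : Finset (V × V × V))
    (h1 : ∀ v a b, (v, a, b) ∈ T → Hc s.G κ v a ∧ Hc s.G κ v b ∧ a ≠ b)
    (h2 : ∀ v a b a' b', (v, a, b) ∈ T → (v, a', b') ∈ T →
      (a = a' ∧ b = b') ∨ (a ≠ a' ∧ a ≠ b' ∧ b ≠ a' ∧ b ≠ b')) :
    ∃ D, s.Ob D ∧ (∀ v, Co s.G v → NF s κ D v) ∧ ∀ v a b, (v, a, b) ∈ T → D a v ∨ D b v := by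
  have hp : (⟨T, fun _ => none, none⟩ : Pl V).Ok s.G :=
    ⟨fun v a b k => ⟨(h1 v a b k).1.2.1, (h1 v a b k).1.1, (h1 v a b k).2.1.1, (h1 v a b k).2.2⟩,
      h2, fun _ _ k => (by cases k), fun _ k => (by cases k)⟩
  obtain ⟨D, hD, hd⟩ := hO V s κ _ hs hp
  refine ⟨D, hD, fun v hv => ?_, fun v a b k => ?_⟩
  · obtain ⟨a1, a2, a3, -⟩ := hN V s κ _ D v hs hp hD hd hv ⟨rfl, fun w hw k => by
      rcases hw with ⟨a, e | e⟩ | e
      · exact (h1 v w a e).1.2.2.2 k.2.2.2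
      · exact (h1 v a w e).2.1.2.2.2 k.2.2.2
      · cases e⟩
    exact ⟨a1, a2, a3⟩
  · by_cases e : D v a
    · exact Or.inr ((hD.ori _ _ (h1 v a b k).2.1.1.symm).2 ((hd.tr v a b k).1 e))
    · exact Or.inl ((hD.ori _ _ (h1 v a b k).1.1.symm).2 e)

theorem ori_0 (hO : SOri3) (hN : SNat) (hs : s.Ok) :
    ∃ D, s.Ob D ∧ ∀ v, Co s.G v → NF s κ D v := by
  obtain ⟨D, a, b, -⟩ := ori_tr (κ := κ) hO hN hs ∅ (fun _ _ _ k => absurd k (notMem_empty _))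
    fun _ _ _ _ _ k => absurd k (notMem_empty _)
  exact ⟨D, a, b⟩

theorem ori_1 (hO : SOri3) (hN : SNat) (hs : s.Ok) (h : 2 ≤ dh s.G κ u) :
    ∃ D g, s.Ob D ∧ (∀ v, Co s.G v → NF s κ D v) ∧ D g u ∧ Hc s.G κ g u := by
  obtain ⟨a, ha, b, hb, n⟩ := one_lt_card.1 (lt_of_lt_of_le one_lt_two h)
  have ha' := (mem_filter.1 ha).2
  have hb' := (mem_filter.1 hb).2
  obtain ⟨D, d1, d2, d3⟩ := ori_tr (κ := κ) hO hN hs {(u, a, b)}
    (fun _ _ _ k => by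
      cases mem_singleton.1 k
      exact ⟨ha', hb', n⟩)
    fun _ _ _ _ _ k k' => by
      cases mem_singleton.1 k
      cases mem_singleton.1 k'
      exact Or.inl ⟨rfl, rfl⟩
  rcases d3 u a b (mem_singleton_self _) with e | e
  exacts [⟨D, a, d1, d2, e, hc_symm ha'⟩, ⟨D, b, d1, d2, e, hc_symm hb'⟩]

theorem ori_2 (hO : SOri3) (hN : SNat) (hs : s.Ok) (h : 4 ≤ dh s.G κ u) :
    ∃ D g g', s.Ob D ∧ (∀ v, Co s.G v → NF s κ D v) ∧ g ≠ g' ∧ D g u ∧ Hc s.G κ g u ∧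
      D g' u ∧ Hc s.G κ g' u := by
  obtain ⟨a, ha, b, hb, n⟩ := one_lt_card.1 (show 1 < dh s.G κ u by omega)
  have h' : 1 < #(((univ.filter fun w => Hc s.G κ u w).erase a).erase b) := by
    have e : #(univ.filter fun w => Hc s.G κ u w) = dh s.G κ u := rfl
    rw [card_erase_of_mem (mem_erase.2 ⟨n.symm, hb⟩), card_erase_of_mem ha]
    omega
  obtain ⟨c, hc, d, hd, m⟩ := one_lt_card.1 h'
  simp only [mem_erase, mem_filter, mem_univ, true_and] at ha hb hc hd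
  obtain ⟨D, d1, d2, d3⟩ := ori_tr (κ := κ) hO hN hs {(u, a, b), (u, c, d)}
    (fun _ _ _ k => by
      rcases mem_insert.1 k with k | k
      · cases k
        exact ⟨ha, hb, n⟩
      · cases mem_singleton.1 k
        exact ⟨hc.2.2, hd.2.2, m⟩)
    fun _ _ _ _ _ k k' => by
      simp only [mem_insert, mem_singleton, Prod.mk.injEq] at k k'
      grind
  obtain ⟨g, g1, g2, g3⟩ : ∃ g, (g = a ∨ g = b) ∧ D g u ∧ Hc s.G κ g u := by
    rcases d3 u a b (by simp) with e | e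
    exacts [⟨a, Or.inl rfl, e, hc_symm ha⟩, ⟨b, Or.inr rfl, e, hc_symm hb⟩]
  obtain ⟨f, f1, f2, f3⟩ : ∃ g, (g = c ∨ g = d) ∧ D g u ∧ Hc s.G κ g u := by
    rcases d3 u c d (by simp) with e | e
    exacts [⟨c, Or.inl rfl, e, hc_symm hc.2.2⟩, ⟨d, Or.inr rfl, e, hc_symm hd.2.2⟩]
  exact ⟨D, g, f, d1, d2, by grind, g2, g3, f2, f3⟩

theorem ori_un (hO : SOri3) (hN : SNat) (hs : s.Ok) (hg : Hc s.G κ g u) (ho : Odd (dg s.G u)) :
    ∃ D, s.Ob D ∧ (∀ v, Co s.G v → v ≠ u → NF s κ D v) ∧ D g u ∧ ¬(s.cx κ D).Yc u ∧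
      df s.G κ u / 2 ≤ #((s.cx κ D).Fo u) := by
  let pl : Pl V := ⟨∅, fun v => if v = u then some g else none, some u⟩
  have hp : pl.Ok s.G := by
    refine ⟨by simp [pl], by simp [pl], ?_, by simp [pl]⟩
    intro v e he
    simp only [pl, Option.ite_none_right_eq_some, Option.some.injEq] at he
    obtain ⟨rfl, rfl⟩ := he
    exact ⟨hg.2.2.1, ho, hg.1.symm, by simp [pl]⟩
  obtain ⟨D, hD, hd⟩ := hO V s κ pl hs hp
  have hu : pl.un u = some g := by simp [pl]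
  have d1 : D g u := hd.hub u g rfl hu
  refine ⟨D, hD, fun v hv e => ?_, d1, fun a => a.elim
    (fun a => Nat.not_even_iff_odd.2 ho a.2.2.1)
    fun a => (hD.ori _ _ hg.1).1 d1 ((hd.un u g hu).2 a.2.2), ?_⟩
  · obtain ⟨a1, a2, a3, -⟩ := hN V s κ pl D v hs hp hD hd hv ⟨by simp [pl, e], by
      simp [pl, Pl.Us, e]⟩
    exact ⟨a1, a2, a3⟩
  · have h2 : (univ.filter fun w => Fc s.G κ u w) ⊆ pl.Fr s.G κ u := by
      intro w hw
      simp only [mem_filter, mem_univ, true_and] at hw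
      simp only [Pl.Fr, N, mem_filter, mem_univ, true_and]
      refine ⟨hw.1, hw, fun a => ?_⟩
      have : g = w := by simpa [pl, Pl.Us] using a
      exact hg.2.2.2 (this ▸ hw.2.2.2).symm
    have h3 : df s.G κ u ≤ _ := card_le_card h2
    have h5 := hd.fo _ hg.2.2.1
    have h6 : #((pl.Fr s.G κ u).filter fun w => D u w) ≤ #((s.cx κ D).Fo u) :=
      card_le_card fun w hw => mem_Fo.2 ⟨(mem_filter.1 hw).2, (mem_filter.1 (mem_filter.1 hw).1).2.1⟩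
    omega

/-- The bound on the short lists. -/
def LC (s : Sg V) (κ : V → ZMod 2) (D : V → V → Prop) : Prop :=
  #(univ.filter (s.cx κ D).L2) ≤ 1 ∨ (#(univ.filter (s.cx κ D).L2) ≤ 2 ∧
    ∀ v, Co s.G v → κ v = 0 → (df s.G κ v : ℤ) + 1 ≤ tau s.G κ v)

theorem l2_t (h : (s.cx κ D).L2 y) :
    Co s.G y ∧ dg s.G y = 4 ∧ κ y = 1 ∧ df s.G κ y = 1 ∧ s.t κ y ≤ 0 := by
  have a : Wv s.G κ y := h.1.2
  have b : dg s.G y = 4 := h.2.1
  have c : df s.G κ y = 1 := h.2.2.1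
  have d := tau_W a
  have e := t_le (s := s) (κ := κ) y
  exact ⟨h.1.1, b, class_W a b, c, by omega⟩

/-- States with one vertex in debt. -/
structure Gs (s : Sg V) (κ : V → ZMod 2) (r : V) : Prop where
  ok : s.Ok
  pr : s.PR κ
  cr : Co s.G r
  ri : ∀ v, Co s.G v → v ≠ r → ¬Fc s.G κ r v → 1 ≤ s.t κ v
  lo : ∀ v, Co s.G v → v ≠ r → 0 ≤ s.t κ v
  tr : s.t κ r ≤ -2
  l2 : ∀ D, s.Ob D → (df s.G κ r ≤ 4 → #((s.cx κ D).Fo r) ≤ 2) → LC s κ D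

omit [Fintype V] in
theorem pin_one (g u : V) : pin {(g, u)} u = 1 := by simp [pin, filter_singleton]

omit [Fintype V] in
theorem pout_zero (h : g ≠ u) : pout {(g, u)} u = 0 := by simp [pout, filter_singleton, h]

theorem re_of (hs : s.Ok) (h : Co s.G s.ρ) : s.Re :=
  (mem_filter.1 (show s.ρ ∈ N s.G s.z from Flip.re_of hs h ▸ mem_singleton_self _)).2

namespace Gs

variable (h : Gs s κ r)
include h

theorem fin (hD : s.Ob D) (P : Finset (V × V)) (hP : #P ≤ 1)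
    (n1 : ∀ v, Co s.G v → 2 ≤ df s.G κ v → ((s.cx κ D).Fo v).Nonempty)
    (n3 : ∀ v, (s.cx κ D).To v → dg s.G v = 3 → df s.G κ v = 1 → (s.cx κ D).Fi v = ∅)
    (pb : ∀ a ∈ P, D a.1 a.2 ∧ Hc s.G κ a.1 a.2 ∧ κ a.2 = κ r)
    (hd : ∀ a ∈ P, (r = s.ρ ∧ a.2 = s.ρ) ∨ ¬(s.cx κ D).Yc a.2 ∨ (a.2 ≠ r ∧ (s.cx κ D).Wc a.2 ∧
      #((s.cx κ D).Fi a.2) + pin P a.2 < dg s.G a.2 / 2 ∧
      (df s.G κ a.2 ≠ 1 ∨ ∀ w ∈ (s.cx κ D).Fo a.2, 2 ≤ df s.G κ w)))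
    (fo : r = s.ρ → ¬(s.cx κ D).Yc r → ((s.cx κ D).Fo r).Nonempty)
    (fi : df s.G κ r / 2 ≤ #((s.cx κ D).Fi r))
    (hl : ∃ S : Finset V, (∀ w ∈ S, Fc s.G κ r w ∧ 1 ≤ s.t κ w + pin P w - pout P w) ∧
      0 ≤ s.t κ r + pin P r + 1 + #S) : s.Sol := by
  have a := fo_fi (κ := κ) hD r
  exact ⟨κ, D, h.pr, hD, dok (ub := r = s.ρ) h.ok hD ⟨n1, fun v a b c _ => n3 v a b c, pb,
    fun _ => (card_filter_le _ _).trans hP, fun v a b => Or.inl (h.lo v a b), h.ri, Or.inl hP, hd,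
    h.l2 D hD fun _ => by omega, fun k => ⟨re_of h.ok (k ▸ h.cr), k ▸ rfl, Or.inl k⟩, h.cr, h.tr, id,
    fo, fun _ => fi, hl⟩⟩

/-- No payment. -/
theorem free (hO : SOri3) (hN : SNat) (h2 : 2 ≤ df s.G κ r) (S : Finset V)
    (hS : ∀ w ∈ S, Fc s.G κ r w ∧ 1 ≤ s.t κ w) (hc : 0 ≤ s.t κ r + 1 + #S) : s.Sol := by
  obtain ⟨D, hD, hn⟩ := ori_0 (κ := κ) hO hN h.ok
  exact h.fin hD ∅ (by simp) (fun v a => (hn v a).1.n1) (fun v a => (hn v a.1).1.n3b a)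
    (by simp) (by simp) (fun _ _ => (hn r h.cr).1.n1 h2) (hn r h.cr).2.2
    ⟨S, fun w hw => ⟨(hS w hw).1, by simpa [pin, pout] using (hS w hw).2⟩, by simpa [pin] using hc⟩

theorem one (hu : Fc s.G κ r u) (hg : Hc s.G κ g u) (ht : -2 ≤ s.t κ r) :
    ∃ S : Finset V, (∀ w ∈ S, Fc s.G κ r w ∧ 1 ≤ s.t κ w + pin {(g, u)} w - pout {(g, u)} w) ∧
      0 ≤ s.t κ r + pin {(g, u)} r + 1 + #S := by
  refine ⟨{u}, fun w hw => ?_, by rw [card_singleton]; omega⟩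
  rw [mem_singleton.1 hw, pin_one, pout_zero hg.1.ne]
  have := h.lo u hu.2.2.1 hu.1.ne'
  exact ⟨hu, by omega⟩

/-- A payment to a tight neighbour. -/
theorem pay (hO : SOri3) (hN : SNat) (h2 : 2 ≤ df s.G κ r) (ht : -2 ≤ s.t κ r)
    (hu : Fc s.G κ r u) (hρ : u ≠ s.ρ) (h0 : s.t κ u ≤ 0) (hw : ¬(dg s.G u = 4 ∧ κ u = 1)) :
    s.Sol := by
  have cu : Co s.G u := hu.2.2.1
  have c3 : 3 ≤ dg s.G u := cu
  have a1 := h.lo u cu hu.1.ne'
  have a2 := t_N (s := s) (κ := κ) (v := u) fun k => hρ k.1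
  have a3 := Flip.deg_eq h.ok κ cu
  rw [if_neg hρ] at a3
  rcases Nat.even_or_odd (dg s.G u) with e | e
  · have a4 : tau s.G κ u ≤ ((dg s.G u / 2 : ℕ) : ℤ) := by
      unfold tau
      split_ifs <;> omega
    obtain ⟨D, g, hD, hn, d1, d2⟩ := ori_1 (κ := κ) (u := u) hO hN h.ok (by
      obtain ⟨k, hk⟩ := e
      omega)
    refine h.fin hD {(g, u)} (by simp) (fun v a => (hn v a).1.n1) (fun v a => (hn v a.1).1.n3b a)
      (fun a ha => ?_) (fun a ha => ?_) (fun _ _ => (hn r h.cr).1.n1 h2) (hn r h.cr).2.2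
      (h.one hu d2 ht)
    · rw [mem_singleton.1 ha]
      exact ⟨d1, d2, hu.2.2.2.symm⟩
    · rw [mem_singleton.1 ha]
      refine Or.inr (or_iff_not_imp_left.2 fun k => ?_)
      have b : (s.cx κ D).Wc u := (not_not.1 k).elim id fun b =>
        absurd e (Nat.not_even_iff_odd.2 b.2.1)
      have b1 : dg s.G u ≠ 4 := fun k => hw ⟨k, class_W b.2 k⟩
      have b2 := fo_fi (κ := κ) hD u
      have b3 := (hn u cu).2.1
      obtain ⟨k, k1, k2, k3, k4, k5⟩ := w_deg hD b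
      refine ⟨hu.1.ne', b, ?_, Or.inl ?_⟩
      · change #((s.cx κ D).Fi u) + pin {(g, u)} u < dg s.G u / 2
        rw [pin_one]
        omega
      · change df s.G κ u ≠ 1
        omega
  · have a4 := tau_O (κ := κ) e
    obtain ⟨g, hg⟩ := card_pos.1 (show 0 < dh s.G κ u by omega)
    have d2 := hc_symm (mem_filter.1 hg).2
    obtain ⟨D, hD, hn, d1, d3, d4⟩ := ori_un hO hN h.ok d2 e
    refine h.fin hD {(g, u)} (by simp) (fun v a b => ?_) (fun v a => ?_)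
      (fun a ha => ?_) (fun a ha => ?_) (fun _ _ => (hn r h.cr hu.1.ne).1.n1 h2)
      (hn r h.cr hu.1.ne).2.2 (h.one hu d2 ht)
    · by_cases k : v = u
      · subst k
        exact card_pos.1 (by omega)
      · exact (hn v a k).1.n1 b
    · exact (hn v a.1 fun k => d3 (Or.inr (k ▸ a))).1.n3b a
    · rw [mem_singleton.1 ha]
      exact ⟨d1, d2, hu.2.2.2.symm⟩
    · rw [mem_singleton.1 ha]
      exact Or.inr (Or.inl d3)

/-- All neighbours of the same class have degree four and class one. -/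
theorem four (hO : SOri3) (hN : SNat) (h2 : 2 ≤ df s.G κ r) (ht : -2 ≤ s.t κ r) (hρ : r = s.ρ)
    (hw : ∀ u, Fc s.G κ r u → dg s.G u = 4 ∧ κ u = 1) : s.Sol := by
  obtain ⟨D, hD, hn⟩ := ori_0 (κ := κ) hO hN h.ok
  have a := (hn r h.cr).2.2
  obtain ⟨u, hu⟩ := card_pos.1 (show 0 < #((s.cx κ D).Fi r) by omega)
  obtain ⟨u1, u2⟩ := mem_Fi.1 hu
  obtain ⟨w1, w2⟩ := hw u u2
  have cu : Co s.G u := u2.2.2.1
  have b : (s.cx κ D).Wc u := ⟨cu, coK cu, by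
    change Even (dg s.G u)
    rw [w1]
    decide, by
    change κ u ≠ ((dg s.G u / 2 : ℕ) : ZMod 2)
    rw [w1, w2]
    decide⟩
  obtain ⟨k, k1, k2, k3, k4, k5⟩ := w_deg hD b
  have c1 := h.lo u cu u2.1.ne'
  have c2 := t_le (s := s) (κ := κ) u
  have c3 := fo_fi (κ := κ) hD u
  have c4 : 0 < #((s.cx κ D).Fo u) := card_pos.2 ⟨r, mem_Fo.2 ⟨u1, fc_symm u2⟩⟩
  have c5 : (s.cx κ D).Fi u = ∅ := card_eq_zero.1 (by omega)
  obtain ⟨g, hg⟩ := card_pos.1 (show 0 < #((s.cx κ D).Ri u) by omega)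
  obtain ⟨g1, g2⟩ : D g u ∧ s.G.Adj u g := (mem_filter.1 hg).2
  have cg : Co s.G g := by
    have p : u ∈ N s.G g := mem_filter.2 ⟨mem_univ _, g2.symm⟩
    have q : 0 < dg s.G g := card_pos.2 ⟨u, p⟩
    refine (h.ok.deg g).resolve_left fun k => u2.1.ne' ?_
    rw [h.ok.leaf g (by omega), Flip.re_of h.ok (hρ ▸ h.cr)] at p
    exact (mem_singleton.1 p).trans hρ.symm
  have d2 : Hc s.G κ g u := ⟨g2.symm, cg, cu, fun k =>
    notMem_empty g (c5 ▸ mem_Fi.2 ⟨g1, g2, cu, cg, k.symm⟩)⟩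
  refine h.fin hD {(g, u)} (by simp) (fun v a => (hn v a).1.n1) (fun v a => (hn v a.1).1.n3b a)
    (fun a ha => ?_) (fun a ha => ?_) (fun _ _ => (hn r h.cr).1.n1 h2) a (h.one u2 d2 ht)
  · rw [mem_singleton.1 ha]
    exact ⟨g1, d2, u2.2.2.2.symm⟩
  · rw [mem_singleton.1 ha]
    refine Or.inr (Or.inr ⟨u2.1.ne', b, ?_, Or.inr fun w hw => ?_⟩)
    · change #((s.cx κ D).Fi u) + pin {(g, u)} u < dg s.G u / 2
      rw [pin_one]
      omega
    · rw [only (u := u) (by omega) (fc_symm u2) (mem_Fo.1 hw).2]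
      exact h2

omit h in
theorem self (ht : -2 ≤ s.t κ r) :
    ∃ S : Finset V, (∀ w ∈ S, Fc s.G κ r w ∧ 1 ≤ s.t κ w + pin {(g, r)} w - pout {(g, r)} w) ∧
      0 ≤ s.t κ r + pin {(g, r)} r + 1 + #S :=
  ⟨∅, fun _ k => absurd k (notMem_empty _), by rw [pin_one, card_empty]; omega⟩

/-- The root vertex is paid through a pair of separated edges. -/
theorem pair (hO : SOri3) (hN : SNat) (h2 : 2 ≤ dh s.G κ r) (ht : -2 ≤ s.t κ r) (hρ : r = s.ρ) :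
    s.Sol := by
  obtain ⟨D, g, hD, hn, d1, d2⟩ := ori_1 (κ := κ) (u := r) hO hN h.ok h2
  refine h.fin hD {(g, r)} (by simp) (fun v a => (hn v a).1.n1) (fun v a => (hn v a.1).1.n3b a)
    (fun a ha => ?_) (fun a ha => ?_) (fun _ k => (hn r h.cr).1.n1 ?_) (hn r h.cr).2.2 (self ht)
  · rw [mem_singleton.1 ha]
    exact ⟨d1, d2, rfl⟩
  · rw [mem_singleton.1 ha]
    exact Or.inl ⟨hρ, hρ⟩
  · have a := tau_N (κ := κ) (v := r) (G := s.G) fun b => k (Or.inl ⟨h.cr, b⟩)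
    have b := Flip.deg_eq h.ok κ h.cr
    have c := h.tr
    have c3 : 3 ≤ dg s.G r := h.cr
    rw [if_pos hρ] at b
    unfold Sg.t at c
    split_ifs at c <;> omega

/-- The root vertex has degree three. -/
theorem three (hO : SOri3) (hN : SNat) (h3 : dg s.G r = 3) (h1 : df s.G κ r = 1)
    (ht : -2 ≤ s.t κ r) (hρ : r = s.ρ) : s.Sol := by
  have b := Flip.deg_eq h.ok κ h.cr
  rw [if_pos hρ] at b
  obtain ⟨g, hg⟩ := card_pos.1 (show 0 < dh s.G κ r by omega)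
  have d2 := hc_symm (mem_filter.1 hg).2
  obtain ⟨D, hD, hn, d1, d3, -⟩ := ori_un hO hN h.ok d2 (by rw [h3]; decide)
  refine h.fin hD {(g, r)} (by simp) (fun v a b => ?_) (fun v a => ?_)
    (fun a ha => ?_) (fun a ha => ?_) (fun _ _ => ?_) (by omega) (self ht)
  · exact (hn v a fun k => by rw [k] at b; omega).1.n1 b
  · exact (hn v a.1 fun k => d3 (Or.inr (k ▸ a))).1.n3b a
  · rw [mem_singleton.1 ha]
    exact ⟨d1, d2, rfl⟩
  · rw [mem_singleton.1 ha]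
    exact Or.inl ⟨hρ, hρ⟩
  · have c := (hD.smooth r (coK h.cr)).1
    obtain ⟨w, hw⟩ := card_pos.1 (show 0 < #(Out D r) by omega)
    have w1 : D r w := (mem_filter.1 hw).2
    have w2 := hD.adj _ _ w1
    have cw : Co s.G w := by
      have q : 0 < dg s.G w := card_pos.2 ⟨r, mem_filter.2 ⟨mem_univ _, w2.symm⟩⟩
      refine (h.ok.deg w).resolve_left fun k => ?_
      rw [h.ok.leaf w (by omega)] at w1
      exact (hD.ori1 (re_of h.ok (hρ ▸ h.cr))).noin r w1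
    refine ⟨w, mem_Fo.2 ⟨w1, w2, h.cr, cw, by_contra fun k => ?_⟩⟩
    have e : w = g := card_le_one.1 (show dh s.G κ r ≤ 1 by omega) w
      (mem_filter.2 ⟨mem_univ _, w2, h.cr, cw, k⟩) g hg
    exact (hD.ori _ _ w2).1 w1 (e ▸ d1)

end Gs

end Nj

end

end Pool.Agent.MP_d1f1f3_co.H2
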