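import Pool.Agent.MP_d1f1f3_co.H2.Spec4

/-!
Row NOE: the exceptional configuration does not occur next to a vertex in debt.
-/

namespace Pool.Agent.MP_d1f1f3_co.H2

open Finset Relation H47
open scoped Classical

namespace Noe

variable {V : Type} [Fintype V] {s : Sg V} {κ : V → ZMod 2} {j : ZMod 2}

theorem z2 (a : ZMod 2) : (a ≠ 0 → a = 1) ∧ (a = 1 → a ≠ 0 ∧ a + 1 = 0) := by
  revert a
  decide

theorem mem_N {G : SimpleGraph V} {v w : V} : w ∈ N G v ↔ G.Adj v w := by simp [N]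

theorem mem_Q {v : V} : v ∈ s.Q κ ↔ Co s.G v ∧ s.t κ v < 0 := by simp [Sg.Q]

theorem fc_symm {G : SimpleGraph V} {u w : V} (h : Fc G κ u w) : Fc G κ w u :=
  ⟨h.1.symm, h.2.2.1, h.2.1, h.2.2.2.symm⟩

theorem hc_symm {G : SimpleGraph V} {u w : V} (h : Hc G κ u w) : Hc G κ w u :=
  ⟨h.1.symm, h.2.2.1, h.2.1, h.2.2.2.symm⟩

omit [Fintype V] in
theorem cnt {R : V → V → Prop} (hs : ∀ u w, R u w → R w u) (hi : ∀ u, ¬R u u) {m : V}
    {X : Finset V} (hm : m ∉ X) :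
    ∑ v ∈ insert m X, (#((insert m X).filter fun w => R v w) : ℤ) =
      ∑ v ∈ X, (#(X.filter fun w => R v w) : ℤ) + 2 * #(X.filter fun w => R m w) := by
  have h1 : ∀ v, (#((insert m X).filter fun w => R v w) : ℤ) =
      #(X.filter fun w => R v w) + if R m v then 1 else 0 := fun v => by
    rw [filter_insert]
    by_cases c : R v m
    · rw [if_pos c, if_pos (hs _ _ c), card_insert_of_notMem fun a => hm (mem_filter.1 a).1]
      push_cast
      rfl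
    · rw [if_neg c, if_neg fun a => c (hs _ _ a), add_zero]
  simp only [h1]
  rw [sum_insert hm, if_neg (hi m), sum_add_distrib, sum_boole]
  ring

theorem dl_eq (X : Finset V) : s.Dl κ X = ∑ v ∈ X, (2 * s.t κ v + 1) +
    ∑ v ∈ X, (#(X.filter fun w => Fc s.G κ v w) : ℤ) -
    ∑ v ∈ X, (#(X.filter fun w => Hc s.G κ v w) : ℤ) := by
  simp only [Sg.Dl, Dl, Nat.cast_zero, sum_const_zero, add_zero]
  rw [sum_sub_distrib, sum_add_distrib]

theorem dl_ins {m : V} {X : Finset V} (hm : m ∉ X) : s.Dl κ (insert m X) =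
    s.Dl κ X + 2 * s.t κ m + 1 + 2 * #(X.filter fun w => Fc s.G κ m w) -
      2 * #(X.filter fun w => Hc s.G κ m w) := by
  rw [dl_eq, dl_eq, cnt (fun _ _ => fc_symm) (fun _ a => a.1.ne rfl) hm,
    cnt (fun _ _ => hc_symm) (fun _ a => a.1.ne rfl) hm, sum_insert hm]
  ring

theorem dl_ind {X : Finset V} (h : ∀ u ∈ X, ∀ w ∈ X, ¬s.G.Adj u w) :
    s.Dl κ X = ∑ v ∈ X, (2 * s.t κ v + 1) := by
  have h1 : ∀ v ∈ X, (#(X.filter fun w => Fc s.G κ v w) : ℤ) = 0 := fun v hv => by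
    rw [filter_false_of_mem fun w hw a => h v hv w hw a.1]
    rfl
  have h2 : ∀ v ∈ X, (#(X.filter fun w => Hc s.G κ v w) : ℤ) = 0 := fun v hv => by
    rw [filter_false_of_mem fun w hw a => h v hv w hw a.1]
    rfl
  rw [dl_eq, sum_eq_zero h1, sum_eq_zero h2]
  ring

theorem uniq {G : SimpleGraph V} {y a b : V} (h : df G κ y = 1) (ha : Fc G κ a y)
    (hb : Fc G κ b y) : a = b :=
  card_le_one.1 h.le a (mem_filter.2 ⟨mem_univ _, fc_symm ha⟩) b
    (mem_filter.2 ⟨mem_univ _, fc_symm hb⟩)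

omit [Fintype V] in
theorem flp_out {A : Finset V} {v : V} (h : v ∉ A) : flp κ A v = κ v := if_neg h

omit [Fintype V] in
theorem flp_in {A : Finset V} {v : V} (h : v ∈ A) : flp κ A v = κ v + 1 := if_pos h

/-- The data of the configuration. -/
structure Cf (s : Sg V) (κ : V → ZMod 2) (g w : V) (B : Finset V) : Prop where
  cg : Co s.G g
  cw : Co s.G w
  g0 : κ g = 0
  w0 : κ w = 0
  gw : g ≠ w
  card : #B = 3
  dl : s.Dl κ (insert g (insert w B)) ≤ -1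
  y : ∀ y ∈ B, dg s.G y = 4 ∧ κ y = 1 ∧ df s.G κ y = 1 ∧ s.G.Adj g y ∧ s.G.Adj w y ∧
    ∀ y' ∈ B, ¬s.G.Adj y y'

variable {g w : V} {B : Finset V}

theorem Cf.co (c : Cf s κ g w B) {y : V} (hy : y ∈ B) : Co s.G y := by
  have := (c.y y hy).1
  unfold Co
  omega

theorem Cf.t0 (c : Cf s κ g w B) (b : s.Bas j κ) {y : V} (hy : y ∈ B) : s.t κ y = 0 := by
  obtain ⟨h1, h2, h3, -⟩ := c.y y hy
  have h4 := b.low y (c.co hy)
  have h5 : Wv s.G κ y := ⟨by unfold K; omega, by rw [h1]; decide, by rw [h1, h2]; decide⟩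
  unfold Sg.t tau at h4 ⊢
  rw [if_pos h5, h1, h3] at h4 ⊢
  split_ifs at h4 ⊢ <;> omega

theorem Cf.tw (c : Cf s κ g w B) (b : s.Bas j κ) (h : s.TH κ) {p : V} (cp : Co s.G p)
    (p0 : κ p = 0) (ap : ∀ y ∈ B, s.G.Adj p y) : 1 ≤ s.t κ p := by
  have k : ∀ y ∈ B, κ p ≠ κ y := fun y hy => by
    rw [p0, (c.y y hy).2.1]
    decide
  have h1 : p ∉ B := fun a => k p a rfl
  have h2 := h (insert p B) fun v hv => (mem_insert.1 hv).elim (fun e => e ▸ cp) c.co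
  rw [dl_ins h1, dl_ind fun u hu => (c.y u hu).2.2.2.2.2,
    sum_congr rfl fun v hv => by rw [c.t0 b hv], filter_false_of_mem fun v hv a => k v hv a.2.2.2,
    filter_true_of_mem fun v hv => ⟨ap v hv, cp, c.co hv, k v hv⟩, sum_const, c.card] at h2
  simp only [card_empty, nsmul_eq_mul] at h2
  omega

/-- A vertex in debt has more neighbours in `B` than among `g`, `w`. -/
theorem Cf.more (c : Cf s κ g w B) (b : s.Bas j κ) (h : s.TH κ) {m : V} (hm : m ∈ s.Q κ)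
    (m1 : κ m = 1) : #(({g, w} : Finset V).filter fun v => s.G.Adj m v) + 1 ≤
      #(B.filter fun v => Fc s.G κ m v) := by
  obtain ⟨cm, tm⟩ := mem_Q.1 hm
  have kg : κ m ≠ κ g := by rw [m1, c.g0]; decide
  have kw : κ m ≠ κ w := by rw [m1, c.w0]; decide
  have h1 : m ∉ insert g (insert w B) := by
    simp only [mem_insert, not_or]
    exact ⟨fun e => kg (e ▸ rfl), fun e => kw (e ▸ rfl), fun a => by have := c.t0 b a; omega⟩
  have h2 := h (insert m (insert g (insert w B))) fun v hv => by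
    simp only [mem_insert] at hv
    rcases hv with rfl | rfl | rfl | hv
    exacts [cm, c.cg, c.cw, c.co hv]
  rw [dl_ins h1, filter_insert, filter_insert, if_neg fun a => kg a.2.2.2,
    if_neg fun a => kw a.2.2.2] at h2
  have h3 : #(({g, w} : Finset V).filter fun v => s.G.Adj m v) ≤
      #((insert g (insert w B)).filter fun v => Hc s.G κ m v) := card_le_card fun v hv => by
    simp only [mem_filter, mem_insert, mem_singleton] at hv ⊢
    rcases hv with ⟨rfl | rfl, a⟩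
    · exact ⟨Or.inl rfl, a, cm, c.cg, kg⟩
    · exact ⟨Or.inr (Or.inl rfl), a, cm, c.cw, kw⟩
  have h4 := c.dl
  omega

theorem tflip (hB : Base) (ok : s.Ok) {a y v : V} (ca : Co s.G a) (cy : Co s.G y) (cv : Co s.G v)
    (hv : v ∉ ({a, y} : Finset V)) :
    s.t κ v - #(({a, y} : Finset V).filter (Hc s.G κ v)) ≤ s.t (flp κ {a, y}) v := by
  have h := (hB.1 V s κ {a, y} ok fun u hu => by
    rcases mem_insert.1 hu with rfl | e
    · exact ca
    · exact mem_singleton.1 e ▸ cy).1 v cv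
  rw [if_neg hv] at h
  omega

theorem tflip1 (hB : Base) (ok : s.Ok) {a y v : V} (ca : Co s.G a) (cy : Co s.G y) (cv : Co s.G v)
    (hv : v ∉ ({a, y} : Finset V)) (na : ¬s.G.Adj a v) (tv : 1 ≤ s.t κ v) :
    v ∉ s.Q (flp κ {a, y}) := fun q => by
  have h1 := tflip (κ := κ) hB ok ca cy cv hv
  have h2 : #(({a, y} : Finset V).filter (Hc s.G κ v)) ≤ 1 := by
    rw [filter_insert, if_neg fun e => na e.1.symm]
    exact (card_filter_le _ _).trans (card_singleton _).le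
  have h3 := (mem_Q.1 q).2
  omega

/-- The exchange of a vertex in debt and a vertex of `B` that is not adjacent to it. -/
theorem Cf.swap (c : Cf s κ g w B) (hB : Base) (ok : s.Ok) (st : s.St j κ) {m x y : V}
    (hm : m ∈ s.Q κ) (m1 : κ m = 1) (hy : y ∈ B) (fx : Fc s.G κ x y) (mx : m ≠ x)
    (mr : m ≠ s.ρ) (yr : y ≠ s.ρ) :
    s.St j (flp κ {m, y}) ∧ y ∈ s.Q (flp κ {m, y}) ∧ flp κ {m, y} y = 0 ∧
      ¬s.G.Adj m y ∧ x ∉ s.Q (flp κ {m, y}) ∧
      (∀ v ∈ s.Q (flp κ {m, y}), v ≠ y → Fc s.G (flp κ {m, y}) y v) ∧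
      ∀ p, Co s.G p → κ p = 0 → (∀ y ∈ B, s.G.Adj p y) → ¬s.G.Adj m p →
        p ∉ s.Q (flp κ {m, y}) := by
  have b := hB.2 V s j κ ok st
  obtain ⟨y4, y1, yd, -⟩ := c.y y hy
  have cm := (mem_Q.1 hm).1
  have na : ¬s.G.Adj m y := fun a => mx (uniq yd ⟨a, cm, c.co hy, m1.trans y1.symm⟩ fx)
  obtain ⟨s1, s2, -⟩ := b.sw m hm y (c.co hy) mr yr (Or.inl ⟨c.t0 b hy, na⟩)
  have b' := hB.2 V s j _ ok s1
  have k : flp κ {m, y} y = 0 := by
    rw [flp_in (by simp), y1]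
    rfl
  have cl : ∀ v ∈ s.Q (flp κ {m, y}), v ≠ y → Fc s.G (flp κ {m, y}) y v :=
    fun v hv e => b'.clq y s2 v hv e.symm
  refine ⟨s1, s2, k, na, fun q => ?_, cl, fun p cp p0 ap np => ?_⟩
  · have h1 := (cl x q fx.1.ne).2.2.2
    rw [k, flp_out (by simp [mx.symm, fx.1.ne]), fx.2.2.2, y1] at h1
    exact absurd h1 (by decide)
  · refine tflip1 hB ok cm (c.co hy) cp ?_ np (c.tw b st.2.1 cp p0 ap)
    simp only [mem_insert, mem_singleton, not_or]
    exact ⟨fun e => (z2 _).2 m1 |>.1 (e ▸ p0), fun e => (z2 _).2 y1 |>.1 (e ▸ p0)⟩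

theorem sub_card {Q T : Finset V} {G : SimpleGraph V} {y : V} (hT : T ⊆ N G y)
    (h : ∀ v ∈ Q, v ≠ y → G.Adj y v ∧ v ∉ T) :
    Q ⊆ insert y (N G y \ T) ∧ #(insert y (N G y \ T)) + #T ≤ dg G y + 1 := by
  refine ⟨fun v hv => mem_insert.2 (or_iff_not_imp_left.2 fun e =>
    mem_sdiff.2 ⟨mem_N.2 (h v hv e).1, (h v hv e).2⟩), ?_⟩
  have h1 := card_insert_le y (N G y \ T)
  have h2 := card_sdiff_add_card_eq_card hT
  unfold dg
  omega

/-- The exchange when neither `g` nor `w` sees the vertex in debt. -/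
theorem Cf.two (c : Cf s κ g w B) (hB : Base) (ok : s.Ok) (st : s.St j κ) {m x y : V}
    (hm : m ∈ s.Q κ) (m1 : κ m = 1) (hy : y ∈ B) (fx : Fc s.G κ x y) (mx : m ≠ x)
    (mr : m ≠ s.ρ) (yr : y ≠ s.ρ) (ng : ¬s.G.Adj m g) (nw : ¬s.G.Adj m w) :
    #(s.Q (flp κ {m, y})) ≤ 2 := by
  obtain ⟨-, -, -, -, h5, h6, h7⟩ := c.swap hB ok st hm m1 hy fx mx mr yr
  obtain ⟨y4, y1, -, ag, aw, -⟩ := c.y y hy
  have x1 : κ x ≠ 0 := ((z2 _).2 (fx.2.2.2.trans y1)).1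
  have h8 := h7 g c.cg c.g0 (fun y hy => (c.y y hy).2.2.2.1) ng
  have h9 := h7 w c.cw c.w0 (fun y hy => (c.y y hy).2.2.2.2.1) nw
  obtain ⟨e1, e2⟩ := sub_card (Q := s.Q (flp κ {m, y})) (T := {g, w, x}) (G := s.G) (y := y)
    (by simp [insert_subset_iff, mem_N, ag.symm, aw.symm, fx.1.symm]) fun v hv e =>
      ⟨(h6 v hv e).1, by
        simp only [mem_insert, mem_singleton, not_or]
        exact ⟨fun e => h8 (e ▸ hv), fun e => h9 (e ▸ hv), fun e => h5 (e ▸ hv)⟩⟩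
  have e3 : #({g, w, x} : Finset V) = 3 :=
    card_eq_three.2 ⟨g, w, x, c.gw, fun e => x1 (e ▸ c.g0), fun e => x1 (e ▸ c.w0), rfl⟩
  have e4 := card_le_card e1
  omega

theorem Cf.opt3 (c : Cf s κ g w B) (hB : Base) (ok : s.Ok) (st : s.St j κ) {m x y1 y2 : V}
    (hm : m ∈ s.Q κ) (m1 : κ m = 1) (h1 : y1 ∈ B) (h2 : y2 ∈ B) (h12 : y1 ≠ y2)
    (f1 : Fc s.G κ x y1) (f2 : Fc s.G κ x y2) (mx : m ≠ x) (mr : m ≠ s.ρ)
    (ng : ¬s.G.Adj m g) (nw : ¬s.G.Adj m w)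
    (H : ∀ κ', s.St j κ' → s.ρ ∉ s.Q κ' → 2 ≤ #(s.Q κ') ∧
      (#(s.Q κ') = 2 → ∀ x ∈ s.Q κ', κ' x = 1)) : False := by
  have b := hB.2 V s j κ ok st
  have cm := (mem_Q.1 hm).1
  have key : ∀ y ∈ B, Fc s.G κ x y → y ≠ s.ρ → Hc s.G κ s.ρ y ∧ ¬s.G.Adj m y ∧
      s.t κ s.ρ < #(({m, y} : Finset V).filter (Hc s.G κ s.ρ)) := fun y hy fy yr => by
    obtain ⟨a1, a2, a3, a4, -, a6, -⟩ := c.swap hB ok st hm m1 hy fy mx mr yr
    have a8 := c.two hB ok st hm m1 hy fy mx mr yr ng nw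
    have hr : s.ρ ∉ ({m, y} : Finset V) := by simp [mr.symm, yr.symm]
    have q : s.ρ ∈ s.Q (flp κ {m, y}) := by
      by_contra q
      obtain ⟨b1, b2⟩ := H _ a1 q
      have := b2 (by omega) y a2
      rw [a3] at this
      exact absurd this (by decide)
    obtain ⟨c1, c2, c3, c4⟩ := a6 _ q yr.symm
    rw [a3, flp_out hr] at c4
    refine ⟨⟨c1.symm, c3, c2, by rw [← c4, (c.y y hy).2.1]; decide⟩, a4, ?_⟩
    have d1 := tflip (κ := κ) hB ok cm c2 c3 hr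
    have d2 := (mem_Q.1 q).2
    omega
  have k1 := (c.y y1 h1).2.1
  have k2 := (c.y y2 h2).2.1
  have r1 : y1 ≠ s.ρ := fun e => (key y2 h2 f2 fun e' => h12 (e.trans e'.symm)).1.2.2.2
    (by rw [← e, k1, k2])
  have r2 : y2 ≠ s.ρ := fun e => (key y1 h1 f1 r1).1.2.2.2 (by rw [← e, k1, k2])
  obtain ⟨a1, a2, a3⟩ := key y1 h1 f1 r1
  obtain ⟨b1, b2, -⟩ := key y2 h2 f2 r2
  have tm := (mem_Q.1 hm).2
  have t1 := c.t0 b h1
  have t2 := c.t0 b h2
  have m2 : y2 ∉ ({m, y1} : Finset V) := by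
    simp only [mem_insert, mem_singleton, not_or]
    exact ⟨fun e => by rw [e] at t2; omega, h12.symm⟩
  have m3 : m ≠ y1 := fun e => by rw [e] at tm; omega
  have hr : s.ρ ∉ ({y2, m, y1} : Finset V) := by simp [mr.symm, r1.symm, r2.symm]
  have e := st.2.1 (insert s.ρ {y2, m, y1}) fun v hv => by
    simp only [mem_insert, mem_singleton] at hv
    rcases hv with rfl | rfl | rfl | rfl
    exacts [a1.2.1, c.co h2, cm, c.co h1]
  have n12 := (c.y y1 h1).2.2.2.2.2 y2 h2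
  have kr : κ s.ρ ≠ 1 := k1 ▸ a1.2.2.2
  rw [dl_ins hr, dl_ind, sum_insert m2, sum_pair m3, filter_false_of_mem, filter_insert,
    if_pos b1, card_insert_of_notMem fun a => m2 (mem_filter.1 a).1] at e
  · simp only [card_empty] at e
    change s.t κ s.ρ < #(({m, y1} : Finset V).filter fun w => Hc s.G κ s.ρ w) at a3
    omega
  · intro v hv a
    simp only [mem_insert, mem_singleton] at hv
    rcases hv with rfl | rfl | rfl
    exacts [b1.2.2.2 a.2.2.2, kr (a.2.2.2.trans m1), a1.2.2.2 a.2.2.2]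
  · intro u hu v hv a
    simp only [mem_insert, mem_singleton] at hu hv
    rcases hu with rfl | rfl | rfl <;> rcases hv with rfl | rfl | rfl
    exacts [a.ne rfl, b2 a.symm, n12 a.symm, b2 a, a.ne rfl, a2 a, n12 a, a2 a.symm, a.ne rfl]

theorem Cf.opt4 (c : Cf s κ g w B) (hB : Base) (ok : s.Ok) (st : s.St j κ) {x y : V}
    (hx : x ∈ s.Q κ) (x1 : κ x = 1) (hy : y ∈ B) (f : Fc s.G κ s.ρ y) (xr : x ≠ s.ρ)
    (nw : ¬s.G.Adj x w) (ng : ¬s.G.Adj s.ρ g)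
    (H : ∀ κ', s.St j κ' → s.ρ ∉ s.Q κ' → 3 ≤ #(s.Q κ')) : False := by
  obtain ⟨a1, a2, a3, -, a5, a6, a7⟩ := c.swap hB ok st hx x1 hy f xr xr f.1.ne'
  obtain ⟨y4, y1, -, ag, aw, -⟩ := c.y y hy
  have r1 : κ s.ρ ≠ 0 := ((z2 _).2 (f.2.2.2.trans y1)).1
  have rw' : s.ρ ≠ w := fun e => r1 (e ▸ c.w0)
  have rg : g ≠ s.ρ := fun e => r1 (e ▸ c.g0)
  have h9 := a7 w c.cw c.w0 (fun y hy => (c.y y hy).2.2.2.2.1) nw
  obtain ⟨e1, e2⟩ := sub_card (Q := s.Q (flp κ {x, y})) (T := {s.ρ, w}) (G := s.G) (y := y)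
    (by simp [insert_subset_iff, mem_N, aw.symm, f.1.symm]) fun v hv e =>
      ⟨(a6 v hv e).1, by
        simp only [mem_insert, mem_singleton, not_or]
        exact ⟨fun e => a5 (e ▸ hv), fun e => h9 (e ▸ hv)⟩⟩
  rw [card_pair rw'] at e2
  have e3 := H _ a1 a5
  have e4 := eq_of_subset_of_card_le e1 (by omega)
  have e5 : ∀ v, s.G.Adj y v → v ≠ s.ρ → v ≠ w → v ∈ s.Q (flp κ {x, y}) := fun v a p q => by
    rw [e4]
    simp [mem_N, a, p, q]
  obtain ⟨p1, p2⟩ := (hB.2 V s j _ ok a1).pf y a2 g (e5 g ag.symm rg c.gw) ag.ne' f.1.ne' rg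
  have e6 : Cm s.G (flp κ {x, y}) y g = ∅ := eq_empty_of_forall_notMem fun v hv => by
    obtain ⟨q1, q2⟩ := (mem_filter.1 hv).2
    by_cases c1 : v = s.ρ
    · exact ng (c1 ▸ q2.1)
    by_cases c2 : v = w
    · refine q1.2.2.2 ?_
      rw [a3, c2, flp_out, c.w0]
      simp only [mem_insert, mem_singleton, not_or]
      exact ⟨fun e => (z2 _).2 x1 |>.1 (e ▸ c.w0), aw.ne⟩
    · exact q1.2.2.2 (a6 v (e5 v q1.1.symm c1 c2) q1.1.ne).2.2.2.symm
  rw [e6, filter_empty] at p2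
  have e7 := H _ p1 (by
    rw [p2]
    simp [rg.symm, f.1.ne])
  rw [p2] at e7
  have e8 := card_insert_le y (insert g (∅ : Finset V))
  have e9 := card_insert_le g (∅ : Finset V)
  simp only [card_empty] at e9
  omega

end Noe

open Noe in
theorem noe : SNoE := by
  intro hB V _ s j κ ok st H x hx g w hg ⟨cg, cw, g0, w0, gw, B, hc, hy, hd⟩
  have c : Cf s κ g w B := ⟨cg, cw, g0, w0, gw, hc, hd, hy⟩
  have b := hB.2 V s j κ ok st
  have x1 : κ x = 1 := (z2 _).1 fun e => hg.2.2.2 (g0.trans e.symm)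
  have q1 : ∀ m ∈ s.Q κ, κ m = 1 := fun m hm => by
    by_cases e : x = m
    · exact e ▸ x1
    · exact (b.clq x hx m hm e).2.2.2.symm.trans x1
  have mo := fun m hm => c.more b st.2.1 hm (q1 m hm)
  have dj : ∀ m m', m ≠ m' → Disjoint (B.filter fun v => Fc s.G κ m v)
      (B.filter fun v => Fc s.G κ m' v) := fun m m' e => disjoint_left.2 fun v h1 h2 =>
    e (uniq (hy v (mem_filter.1 h1).1).2.2.1 (mem_filter.1 h1).2 (mem_filter.1 h2).2)
  have gx : g ∈ ({g, w} : Finset V).filter fun v => s.G.Adj x v := by simp [hg.1.symm]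
  have px := card_pos.2 ⟨g, gx⟩
  have mx := mo x hx
  have two : #(s.Q κ) = 2 → ∃ m ∈ s.Q κ, m ≠ x ∧ (∀ v ∈ s.Q κ, v = x ∨ v = m) ∧ ¬s.G.Adj x w ∧
      ¬s.G.Adj m g ∧ ¬s.G.Adj m w ∧ ∃ y ∈ B, Fc s.G κ m y := fun h2 => by
    obtain ⟨m, hm, e⟩ := exists_mem_ne (s := s.Q κ) (by omega) x
    have a1 := mo m hm
    have a2 := card_union_of_disjoint (dj m x e)
    have a3 := card_le_card (union_subset (filter_subset (fun v => Fc s.G κ m v) B)
      (filter_subset (fun v => Fc s.G κ x v) B))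
    have a4 : ∀ v ∈ ({g, w} : Finset V), ¬s.G.Adj m v := fun v hv a => by
      have : 0 < #(({g, w} : Finset V).filter fun v => s.G.Adj m v) :=
        card_pos.2 ⟨v, mem_filter.2 ⟨hv, a⟩⟩
      omega
    obtain ⟨y, a5⟩ : (B.filter fun v => Fc s.G κ m v).Nonempty := card_pos.1 (by omega)
    refine ⟨m, hm, e, fun v hv => ?_, fun a => ?_, a4 g (by simp), a4 w (by simp), y,
      (mem_filter.1 a5).1, (mem_filter.1 a5).2⟩
    · have a6 : ({x, m} : Finset V) = s.Q κ := eq_of_subset_of_card_le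
        (by simp [insert_subset_iff, hx, hm]) (by rw [card_pair e.symm, h2])
      simpa [← a6] using hv
    · have : 1 < #(({g, w} : Finset V).filter fun v => s.G.Adj x v) :=
        one_lt_card.2 ⟨g, gx, w, by simp [a], gw⟩
      omega
  obtain ⟨y1, h1, y2, h2, h12⟩ := one_lt_card.1
    (show 1 < #(B.filter fun v => Fc s.G κ x v) by omega)
  rw [mem_filter] at h1 h2
  rcases H with H | H | ⟨q2, hr, H⟩ | ⟨q2, hr, H⟩
  · have a1 : ∑ m ∈ s.Q κ, #(B.filter fun v => Fc s.G κ m v) ≤ 3 := by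
      rw [← card_biUnion fun m _ m' _ e => dj m m' e, ← hc]
      exact card_le_card (biUnion_subset.2 fun m _ => filter_subset _ _)
    have a2 : ∑ m ∈ s.Q κ, 1 < ∑ m ∈ s.Q κ, #(B.filter fun v => Fc s.G κ m v) :=
      sum_lt_sum (fun m hm => by have := mo m hm; omega) ⟨x, hx, by omega⟩
    rw [sum_const, smul_eq_mul, mul_one] at a2
    omega
  · exact ((z2 _).2 x1).1 (H x hx)
  · obtain ⟨m, hm, e, -, -, ng, nw, -⟩ := two q2
    exact c.opt3 hB ok st hm (q1 m hm) h1.1 h2.1 h12 h1.2 h2.2 e (fun e => hr (e ▸ hm)) ng nw H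
  · obtain ⟨m, hm, e, hq, nx, ng, nw, y, hy3, fy⟩ := two q2
    rcases hq _ hr with r | r
    · have mr : m ≠ s.ρ := r ▸ e
      have yr : y1 ≠ s.ρ := r ▸ h1.2.1.ne'
      obtain ⟨a1, -, -, -, a5, -⟩ := c.swap hB ok st hm (q1 m hm) h1.1 h1.2 e mr yr
      have a6 := c.two hB ok st hm (q1 m hm) h1.1 h1.2 e mr yr ng nw
      have a7 := H _ a1 (r ▸ a5)
      omega
    · exact c.opt4 hB ok st hx x1 hy3 (r ▸ fy) (r ▸ e.symm) nx (r ▸ ng) H

end Pool.Agent.MP_d1f1f3_co.H2
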