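import Pool.Agent.MP_d1f1f3_co.H2.Spec3
import Pool.Agent.MP_d1f1f3_co.H47.AsmL
import Pool.Agent.MP_d1f1f3_co.H47.Asm0
import Pool.Agent.MP_d1f1f3_co.H47.Ori
import Pool.Agent.MP_d1f1f3_co.H47.GoodM

/-!
Row ORI3: orientations that follow a plan.
-/

namespace Pool.Agent.MP_d1f1f3_co.H2

open Finset Relation H47 H47.AsmL
open scoped Classical

namespace Ori3

variable {V : Type} {S S' : Finset V} {f g : V → V}

/-- A perfect pairing of `S`. -/
def Pf (S : Finset V) (g : V → V) : Prop := ∀ x ∈ S, g x ∈ S ∧ g (g x) = x ∧ g x ≠ x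

theorem Pf.congr (h : Pf S g) (e : ∀ x ∈ S, f x = g x) : Pf S f := fun x hx => by
  rw [e x hx, e _ (h x hx).1]; exact h x hx

theorem Pf.even (h : Pf S g) : Even #S := by
  rw [← ZMod.natCast_eq_zero_iff_even, card_eq_sum_ones, Nat.cast_sum]
  exact sum_involution (fun x _ => g x) (fun _ _ => by decide) (fun x hx _ => (h x hx).2.2)
    (fun x hx => (h x hx).1) fun x hx => (h x hx).2.1

theorem Pf.add (h : Pf S g) (hd : ∀ x ∈ S', x ∉ S) (he : Even #S') :
    ∃ f, (∀ x ∈ S, f x = g x) ∧ Pf S' f ∧ Pf (S ∪ S') f := by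
  obtain ⟨g', h'⟩ := Ori.pairing S' he
  have a : Pf S fun x => if x ∈ S then g x else g' x := h.congr fun x hx => if_pos hx
  have b : Pf S' fun x => if x ∈ S then g x else g' x := Pf.congr h' fun x hx => if_neg (hd x hx)
  exact ⟨_, fun x hx => if_pos hx, b, fun x hx => (mem_union.1 hx).elim
    (fun c => ⟨mem_union_left _ (a x c).1, (a x c).2⟩) fun c => ⟨mem_union_right _ (b x c).1, (b x c).2⟩⟩

theorem cut (S : Finset V) : ∃ S' ⊆ S, #S ≤ #S' + 1 ∧ Even #S' := by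
  rcases Nat.even_or_odd #S with h | ⟨k, h⟩
  · exact ⟨S, subset_rfl, by omega, h⟩
  · obtain ⟨a, ha⟩ := card_pos.1 (by omega : 0 < #S)
    have := card_erase_of_mem ha
    exact ⟨S.erase a, erase_subset _ _, by omega, k, by omega⟩

theorem Pf.half (h : Pf S g) {d : V → Prop} (hd : ∀ x ∈ S, d x ↔ ¬d (g x)) :
    2 * #(S.filter d) = #S := by
  have := Ori.half S g d fun x hx => ⟨(h x hx).1, (h x hx).2.1, by have := hd x hx; tauto⟩
  have := card_filter_add_card_filter_not (s := S) d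
  omega

variable [Fintype V] {G : SimpleGraph V} {κ : V → ZMod 2} {pl : Pl V}

theorem loc (κ : V → ZMod 2) (h : pl.Ok G) (v : V) : ∃ p : V → V,
    (∀ w, G.Adj v w → G.Adj v (p w) ∧ p (p w) = w) ∧ (∀ a b, (v, a, b) ∈ pl.Tr → p a = b) ∧
    (∀ e, pl.un v = some e → p e = e ∧ Pf ((N G v).erase e) p) ∧
    (∃ A ⊆ pl.Fr G κ v, #(pl.Fr G κ v) ≤ #A + 1 ∧ Pf A p) ∧
    ∃ A ⊆ pl.Hr G κ v, #(pl.Hr G κ v) ≤ #A + 1 ∧ Pf A p := by
  let R : V → V → Prop := fun w a => (v, w, a) ∈ pl.Tr ∨ (v, a, w) ∈ pl.Tr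
  have r1 : ∀ w a a', R w a → R w a' → a = a' := by
    rintro w a a' (c | c) (c' | c') <;> have := h.dis _ _ _ _ _ c c' <;> grind
  have r2 : ∀ w a, R w a → G.Adj v w ∧ a ≠ w := by
    rintro w a (c | c) <;> have := h.tr _ _ _ c <;> grind
  let T : Finset V := univ.filter fun w => ∃ a, R w a
  have mT : ∀ {w}, w ∈ T ↔ ∃ a, R w a := by simp [T]
  let g : V → V := fun w => if c : ∃ a, R w a then c.choose else w
  have r3 : ∀ w a, R w a → g w = a := fun w a c => by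
    have c' : ∃ a, R w a := ⟨a, c⟩
    exact (dif_pos c').trans (r1 w _ _ c'.choose_spec c)
  have hT : Pf T g := fun w hw => by
    obtain ⟨a, c⟩ := mT.1 hw
    rw [r3 w a c]
    exact ⟨mT.2 ⟨w, c.symm⟩, r3 a w c.symm, (r2 w a c).2⟩
  obtain ⟨A, a1, a2, a3⟩ := cut (pl.Fr G κ v)
  obtain ⟨B, b1, b2, b3⟩ := cut (pl.Hr G κ v)
  have mA := fun x hx => mem_filter.1 (a1 (x := x) hx)
  have mB := fun x hx => mem_filter.1 (b1 (x := x) hx)
  obtain ⟨f1, c1, c2, c3⟩ := hT.add (fun x hx c => (mA x hx).2.2 (Or.inl (mT.1 c))) a3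
  obtain ⟨f2, d1, d2, d3⟩ := c3.add (fun x hx c => (mem_union.1 c).elim
    (fun c => (mB x hx).2.2 (Or.inl (mT.1 c))) fun c => (mB x hx).2.1 (mA x c).2.1) b3
  have s1 : T ∪ A ∪ B ⊆ N G v := union_subset (union_subset
    (fun x hx => mem_N.2 (r2 x _ (mT.1 hx).choose_spec).1) fun x hx => (mA x hx).1)
      fun x hx => (mB x hx).1
  obtain ⟨L, l1, l2, l3, l4⟩ : ∃ L ⊆ N G v, (∀ x ∈ L, x ∉ T ∪ A ∪ B) ∧ Even #L ∧
      ∀ e, pl.un v = some e → T ∪ A ∪ B ∪ L = (N G v).erase e := by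
    rcases hu : pl.un v with _ | e
    · exact ⟨∅, empty_subset _, by simp, by simp, by simp⟩
    obtain ⟨-, ⟨k, u1⟩, u2, u3⟩ := h.un v e hu
    have s2 : T ∪ A ∪ B ⊆ (N G v).erase e := subset_erase.2 ⟨s1, fun c => by
      rcases mem_union.1 c with c | c
      · rcases mem_union.1 c with c | c
        · obtain ⟨a, c⟩ := mT.1 c
          exact c.elim (u3 a).1 (u3 a).2
        · exact (mA e c).2.2 (Or.inr hu)
      · exact (mB e c).2.2 (Or.inr hu)⟩
    refine ⟨(N G v).erase e \ (T ∪ A ∪ B), sdiff_subset.trans (erase_subset _ _),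
      fun x hx => (mem_sdiff.1 hx).2, ?_, fun e' c => ?_⟩
    · obtain ⟨j, hj⟩ := d3.even
      have := card_le_card s2
      rw [card_sdiff_of_subset s2]
      rw [card_erase_of_mem (mem_N.2 u2), ← dg] at this ⊢
      exact ⟨k - j, by omega⟩
    · rw [← Option.some.inj c, union_sdiff_of_subset s2]
  obtain ⟨f3, e1, -, e3⟩ := d3.add l2 l3
  let p : V → V := fun w => if w ∈ T ∪ A ∪ B ∪ L then f3 w else w
  have p1 : ∀ w ∈ T ∪ A ∪ B ∪ L, p w = f3 w := fun w hw => if_pos hw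
  have p2 : ∀ w ∈ T ∪ A ∪ B, p w = f2 w := fun w hw => (p1 w (mem_union_left _ hw)).trans (e1 w hw)
  have p3 : ∀ w ∈ T ∪ A, p w = f1 w := fun w hw => (p2 w (mem_union_left _ hw)).trans (d1 w hw)
  have p4 := e3.congr p1
  refine ⟨p, fun w hw => ?_, fun a b c => ?_, fun e c =>
    ⟨if_neg (l4 e c ▸ notMem_erase _ _), l4 e c ▸ p4⟩,
    ⟨A, a1, a2, c2.congr fun x hx => p3 x (mem_union_right _ hx)⟩,
    B, b1, b2, d2.congr fun x hx => p2 x (mem_union_right _ hx)⟩
  · by_cases c : w ∈ T ∪ A ∪ B ∪ L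
    · exact ⟨mem_N.1 (union_subset s1 l1 (p4 w c).1), (p4 w c).2.1⟩
    · have : p w = w := if_neg c
      rw [this, this]
      exact ⟨hw, rfl⟩
  · have m : a ∈ T := mT.2 ⟨b, Or.inl c⟩
    rw [p3 a (mem_union_left _ m), c1 a m, r3 a b (Or.inl c)]

theorem glob {s : Sg V} (hs : s.Ok) {π : V → V → V}
    (hπ : ∀ v w, s.G.Adj v w → s.G.Adj v (π v w) ∧ π v (π v w) = w) (q : Prop) {y₀ e : V}
    (hq : q → Co s.G y₀ ∧ Odd (dg s.G y₀) ∧ s.G.Adj y₀ e ∧ π y₀ e = e) :
    ∃ D, s.Ob D ∧ (∀ v w, s.G.Adj v w → π v w ≠ w → (D v w ↔ ¬D v (π v w))) ∧ (q → D e y₀) := by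
  obtain ⟨G, h, z, ρ, γ, τ⟩ := s
  obtain ⟨hh, -, -, hT, hone, hr⟩ := hs
  dsimp only at *
  have ck : ∀ {v}, Co G v → K G v := fun hv => le_trans (by norm_num) hv
  have nh : ∀ w, ¬G.Adj h w := fun w hw => by have := dg_pos hw; omega
  rcases hr with ⟨hN, hρ⟩ | ⟨rfl, rfl, v, hv⟩
  · have nz : ∀ w, G.Adj z w ↔ w = ρ := fun w => by rw [← mem_N, hN, mem_singleton]
    have hzρ : G.Adj z ρ := (nz ρ).2 rfl
    have dz : dg G z = 1 := by simp [dg, hN]
    have hz : ¬K G z := by simp [K, dz]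
    have hl : ∀ a b, G.Adj a b → K G a ∨ a = z := fun a b hab =>
      or_iff_not_imp_left.2 fun h2 => hone a (by have := dg_pos hab; unfold K at h2; omega)
    obtain ⟨y, hy, hodd, ey⟩ : ∃ y, K G y ∧ Odd (dg G y) ∧ (q → y₀ = y) := by
      by_cases c : q
      · exact ⟨y₀, ck (hq c).1, (hq c).2.1, fun _ => rfl⟩
      obtain ⟨y, hyz, hodd⟩ := G.exists_ne_odd_degree_of_exists_odd_degree z
        (by simp [← dg_eq, dz])
      rw [← dg_eq] at hodd
      refine ⟨y, ?_, hodd, fun c' => absurd c' c⟩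
      have := mt (hone y) hyz
      obtain ⟨k, hk⟩ := hodd
      unfold K
      omega
    have hq' : q → G.Adj y e ∧ π y e = e ∧ e ≠ h := fun c => ey c ▸
      ⟨(hq c).2.2.1, (hq c).2.2.2, fun c' => nh y₀ (c' ▸ (hq c).2.2.1.symm)⟩
    have kh : ¬K G h := by simp [K, hh]
    have hhz : h ≠ z := fun e => nh ρ (e ▸ hzρ)
    have hρh : ρ ≠ h := fun e => kh (e ▸ ck hρ)
    have hyh : y ≠ h := fun e => kh (e ▸ hy)
    have hyz : y ≠ z := fun e => hz (e ▸ hy)
    have n1 : N (ext G h z y) z = {ρ, h} := by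
      ext w
      simp only [mem_N, AsmL.ext, nz, mem_insert, mem_singleton]
      grind
    have n2 : N (ext G h z y) h = {z, y} := by
      ext w
      simp only [mem_N, AsmL.ext, nh, mem_insert, mem_singleton]
      grind
    have e2 : (ext G h z y).Adj h z := mem_N.1 (by simp [n2])
    have e3 : (ext G h z y).Adj h y := mem_N.1 (by simp [n2])
    let π' : V → V → V := fun v w => if q ∧ v = y ∧ w = e then h else
      if q ∧ v = y ∧ w = h then e else if G.Adj v w then π v w else w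
    have p1 : q → π' y e = h := fun c => if_pos ⟨c, rfl, rfl⟩
    have p2 : q → π' y h = e := fun c =>
      (if_neg fun c' => (hq' c).2.2 c'.2.2.symm).trans (if_pos ⟨c, rfl, rfl⟩)
    have p3 : ∀ v w, G.Adj v w → ¬(q ∧ v = y ∧ w = e) → π' v w = π v w := fun v w a c =>
      (if_neg c).trans ((if_neg fun c' : q ∧ v = y ∧ w = h => nh v (c'.2.2 ▸ a.symm)).trans
        (if_pos a))
    obtain ⟨D, d1, d2, d3, dp, d4, d5⟩ := H47.ori goodM V (ext G h z y) π' z ρ
      (two_ext hT kh hz hhz hzρ (ck hρ) hy hl) (fun v w a => by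
        by_cases c : q ∧ v = y ∧ w = e
        · obtain ⟨c, rfl, rfl⟩ := c
          rw [p1 c, p2 c]
          exact ⟨e3.symm, rfl⟩
        by_cases c' : q ∧ v = y ∧ w = h
        · obtain ⟨c', rfl, rfl⟩ := c'
          rw [p2 c', p1 c']
          exact ⟨Or.inl (hq' c').1, rfl⟩
        by_cases b : G.Adj v w
        · rw [p3 v w b c, p3 v _ (hπ v w b).1 fun k => c ⟨k.1, k.2.1, by
            rw [← (hπ v w b).2, k.2.2, k.2.1, (hq' k.1).2.1]⟩]
          exact ⟨Or.inl (hπ v w b).1, (hπ v w b).2⟩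
        · have : π' v w = w := (if_neg c).trans ((if_neg c').trans (if_neg b))
          rw [this, this]
          exact ⟨a, rfl⟩) (Or.inl hzρ)
    have ho := AsmL.ori hh hN (ck hρ) hy hodd hl d1 d2 d3 d4 d5
    refine ⟨_, ⟨fun _ _ a => a.2, fun u w a => ?_, ho.smooth, fun _ => ho, fun a => absurd hzρ a⟩,
      fun v w a c => ?_, fun c => ?_⟩
    · have a' : G.Adj u w := a
      simpa only [a', a'.symm, and_true] using d2 u w (Or.inl a')
    · have k := p3 v w a fun k => c (by rw [k.2.2, k.2.1, (hq' k.1).2.1])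
      simpa only [a, (hπ v w a).1, and_true, k] using dp v w (Or.inl a) (k ▸ c)
    · have dyh : D y h := (d2 _ _ e3.symm).2 (out_two n2 hyz.symm (d4 h).2
        ((d2 _ _ e2).2 (out_two n1 hρh (d4 z).2 d3)))
      have := (dp y h e3.symm (by rw [p2 c]; exact (hq' c).2.2)).1 dyh
      rw [p2 c] at this
      exact ey c ▸ ⟨(d2 _ _ (Or.inl (hq' c).1.symm)).2 this, (hq' c).1.symm⟩
  · have kd : ∀ v, 1 ≤ dg G v → K G v := fun v hv => by
      have : dg G v ≠ 1 := fun c => by rw [hone v c] at c; omega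
      unfold K
      omega
    have ec : core G = G := by
      ext u w
      exact ⟨fun a => a.1, fun a => ⟨a, kd u (dg_pos a), kd w (dg_pos a.symm)⟩⟩
    have h2 : Two G := fun X u w a b c d => by
      have := hT X u w a b (kd u c) (kd w d)
      rwa [ec] at this
    obtain ⟨u₀, w₀, a₀, e₀⟩ : ∃ u₀ w₀, G.Adj u₀ w₀ ∧ (q → e = u₀ ∧ y₀ = w₀) := by
      by_cases c : q
      · exact ⟨e, y₀, (hq c).2.2.1.symm, fun _ => ⟨rfl, rfl⟩⟩
      · obtain ⟨w, m⟩ : (N G v).Nonempty := card_pos.1 (lt_of_lt_of_le two_pos (ck hv))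
        exact ⟨v, w, mem_N.1 m, fun c' => absurd c' c⟩
    obtain ⟨D, d1, d2, d3, dp, d4, d5⟩ := H47.ori goodM V G π u₀ w₀ h2 hπ a₀
    exact ⟨D, ⟨d1, d2, fun v _ => d4 v, fun a => absurd a (nh _),
      fun _ r => Asm0.ori hh d1 d2 d4 d5⟩, dp, fun c => (e₀ c).1 ▸ (e₀ c).2 ▸ d3⟩

end Ori3

open Ori3 in
theorem ori3 : SOri3 := by
  intro V _ s κ pl hs hp
  choose π p1 p2 p3 p4 p5 using loc κ hp
  obtain ⟨q, y, e, q1, q2⟩ : ∃ (q : Prop) (y e : V), (q → pl.un y = some e) ∧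
      ∀ y' e', pl.hub = some y' → pl.un y' = some e' → q ∧ y' = y ∧ e' = e := by
    rcases hu : pl.hub with _ | y
    · exact ⟨False, s.h, s.h, False.elim, by simp⟩
    · obtain ⟨e, he⟩ := hp.hub y hu
      refine ⟨True, y, e, fun _ => he, fun y' e' a b => ?_⟩
      obtain rfl := Option.some.inj a
      exact ⟨trivial, rfl, Option.some.inj (b.symm.trans he)⟩
  obtain ⟨D, d1, d2, d3⟩ := glob hs p1 q fun c => ⟨(hp.un y e (q1 c)).1, (hp.un y e (q1 c)).2.1,
    (hp.un y e (q1 c)).2.2.1, (p3 y e (q1 c)).1⟩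
  have key : ∀ v (S : Finset V), S ⊆ N s.G v → (∃ A ⊆ S, #S ≤ #A + 1 ∧ Pf A (π v)) →
      #S / 2 ≤ #(S.filter fun w => D v w) ∧ #S / 2 ≤ #(S.filter fun w => D w v) := by
    rintro v S a ⟨A, b, c, d⟩
    have m : ∀ x ∈ A, s.G.Adj v x := fun x hx => mem_N.1 (a (b hx))
    have k1 := d.half (d := fun w => D v w) fun x hx => d2 v x (m x hx) (d x hx).2.2
    have k2 := d.half (d := fun w => D w v) fun x hx => by
      rw [d1.ori _ _ (m x hx).symm, d1.ori _ _ (m _ (d x hx).1).symm, d2 v x (m x hx) (d x hx).2.2]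
    have k3 := card_le_card (filter_subset_filter (fun w => D v w) b)
    have k4 := card_le_card (filter_subset_filter (fun w => D w v) b)
    omega
  refine ⟨D, d1, fun v a b c => ?_, fun v e c => ?_, fun y' e' a b => ?_,
    fun v _ => (key v _ (filter_subset _ _) (p4 v)).1,
    fun v _ => (key v _ (filter_subset _ _) (p4 v)).2,
    fun v _ => (key v _ (filter_subset _ _) (p5 v)).1,
    fun v _ => (key v _ (filter_subset _ _) (p5 v)).2⟩
  · have := d2 v a (hp.tr v a b c).2.1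
    rw [p2 v a b c] at this
    exact this (hp.tr v a b c).2.2.2.symm
  · obtain ⟨-, ⟨k, u1⟩, u2, -⟩ := hp.un v e c
    have k1 := (p3 v e c).2.half (d := fun w => D v w) fun x hx =>
      d2 v x (mem_N.1 (mem_of_mem_erase hx)) ((p3 v e c).2 x hx).2.2
    have k2 : Out D v = (N s.G v).filter fun w => D v w := by
      ext w
      simpa [mem_Out, mem_N] using d1.adj v w
    rw [card_erase_of_mem (mem_N.2 u2), ← dg, filter_erase, ← k2] at k1
    by_cases b : D v e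
    · have := card_erase_add_one (mem_Out.2 b)
      exact iff_of_true b (by omega)
    · rw [erase_eq_of_notMem (mt mem_Out.1 b)] at k1
      exact iff_of_false b (by omega)
  · obtain ⟨c, rfl, rfl⟩ := q2 y' e' a b
    exact d3 c

end Pool.Agent.MP_d1f1f3_co.H2
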