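import Pool.Agent.MP_d1f1f3_co.H2.Spec
import Pool.Agent.MP_d1f1f3_co.H47.Exc
import Pool.Agent.MP_d1f1f3_co.H47.Tree

/-! Choice of the main pairs. -/

namespace Pool.Agent.MP_d1f1f3_co.H2

open Finset Relation H47 H47.Exc
open scoped Classical

namespace PreA

variable {V : Type} {A : V → V → Prop} {β : V × V} {t : V → V → V → Prop} {y : V}

theorem step {c : Prop} (hA : Al A t β) (hβ : A β.1 β.2) (hβ' : ∀ w, ¬A w β.1) {I O : Finset V}
    (hI : ∀ a ∈ I, A a y) (hO : ∀ b ∈ O, A y b) (nI : I.Nonempty) (nO : O.Nonempty)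
    (h : (¬c ∧ (2 ≤ #O ∨ (∀ a, A a y → a ∈ I) ∨ (y = β.2 ∧ β.1 ∈ I))) ∨
      (y = β.2 ∧ β.1 ∉ I ∧ 2 ≤ #O)) :
    ∃ i₀ ∈ I, ∃ o₀ ∈ O, ∀ t' : V → V → V → Prop, (∀ a u b, u ≠ y → t a u b → t' a u b) →
      (∀ a b, (c → a ≠ i₀) → b ≠ o₀ → t' a y b) → t' i₀ y o₀ → Al A t' β := by
  obtain ⟨a, ha⟩ := nI
  obtain ⟨b, hb⟩ := nO
  have hy : β.1 ≠ y := fun e => hβ' a (e ▸ hI a ha)
  have h1 : 2 ≤ #O → ∃ o₀ ∈ O, ReflTransGen (R0 A t y) β (a, y) ∨
      ∃ b, b ≠ o₀ ∧ A y b ∧ ReflTransGen (R0 A t y) (y, b) (a, y) := fun cO => by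
    rcases cutp (y := y) (hA a y (hI _ ha)) with h | ⟨c, h1, h2⟩
    · exact ⟨b, hb, .inl h⟩
    · obtain ⟨o₀, ho, hne⟩ := other cO c
      exact ⟨o₀, ho, .inr ⟨c, hne.symm, h1, h2⟩⟩
  have h0 : y = β.2 → ReflTransGen (R0 A t y) β (β.1, y) := fun e => by
    rw [show (β.1, y) = β by rw [e]]
  obtain ⟨τ, i₀, hi, o₀, ho, hτ, hne, h1⟩ : ∃ τ, ∃ i₀ ∈ I, ∃ o₀ ∈ O,
      ReflTransGen (R0 A t y) β (τ, y) ∧ (c → τ ≠ i₀) ∧ (ReflTransGen (R0 A t y) β (i₀, y) ∨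
        ∃ b, b ≠ o₀ ∧ A y b ∧ ReflTransGen (R0 A t y) (y, b) (i₀, y)) := by
    obtain ⟨τ, hτ⟩ := first hy (hA y b (hO b hb))
    rcases h with ⟨hc, h | h | h⟩ | h
    · obtain ⟨o₀, ho, h2⟩ := h1 h
      exact ⟨τ, a, ha, o₀, ho, hτ, fun k => absurd k hc, h2⟩
    · exact ⟨τ, τ, h τ (Tree.arc_of hβ (fun _ _ k => k.1.1) hτ), b, hb, hτ, fun k => absurd k hc,
        .inl hτ⟩
    · exact ⟨τ, β.1, h.2, b, hb, hτ, fun k => absurd k hc, .inl (h0 h.1)⟩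
    · obtain ⟨o₀, ho, h2⟩ := h1 h.2.2
      exact ⟨β.1, a, ha, o₀, ho, h0 h.1, fun _ e => h.2.1 (e ▸ ha), h2⟩
  refine ⟨i₀, hi, o₀, ho, fun t' h h2 h3 => key hA h fun c hc => ?_⟩
  have h4 : ∀ c, A y c → c ≠ o₀ → ReflTransGen (R A t') β (y, c) := fun c hc hne' =>
    (R0_mono h hτ).tail ⟨hc, rfl, h2 _ _ hne hne'⟩
  by_cases e : c = o₀
  · have h5 : ReflTransGen (R A t') β (i₀, y) :=
      h1.elim (R0_mono h) fun ⟨d, d1, d2, d3⟩ => (h4 d d2 d1).trans (R0_mono h d3)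
    exact h5.tail ⟨hc, rfl, e ▸ h3⟩
  · exact h4 c hc e

theorem start {W T : V → Prop} {I O : V → Finset V} (hA : Al A (fun _ _ _ => True) β)
    (hβ : A β.1 β.2) (hβ' : ∀ w, ¬A w β.1) (hY : ∀ v, W v ∨ T v →
      (∀ a ∈ I v, A a v) ∧ (∀ b ∈ O v, A v b) ∧ (I v).Nonempty ∧ (O v).Nonempty ∧
      ((¬W v ∧ (2 ≤ #(O v) ∨ (∀ a, A a v → a ∈ I v) ∨ (v = β.2 ∧ β.1 ∈ I v))) ∨
        (v = β.2 ∧ β.1 ∉ I v ∧ 2 ≤ #(O v)))) (P : Finset V) :
    ∃ i o : V → V, (∀ v ∈ P, W v ∨ T v → i v ∈ I v ∧ o v ∈ O v) ∧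
      Al A (tr (fun v => W v ∧ v ∈ P) (fun v => T v ∧ v ∈ P) i o) β := by
  induction P using Finset.induction_on with
  | empty =>
    refine ⟨id, id, by simp, fun u w h => mono (hA u w h) fun _ _ q => ⟨q.1, q.2.1, ?_⟩⟩
    simp [tr]
  | insert y P hy ih =>
    obtain ⟨i, o, h1, h2⟩ := ih
    by_cases hv : W y ∨ T y
    · obtain ⟨a1, a2, a3, a4, a5⟩ := hY y hv
      obtain ⟨i₀, hi, o₀, ho, h⟩ := step h2 hβ hβ' a1 a2 a3 a4 a5
      refine ⟨Function.update i y i₀, Function.update o y o₀, fun v hv' hv'' => ?_,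
        h _ (fun a u b hu q => ?_) (fun a b ha hb => ?_) ?_⟩
      · by_cases e : v = y
        · subst e
          simpa using ⟨hi, ho⟩
        · simpa [e] using h1 v ((mem_insert.1 hv').resolve_left e) hv''
      · simpa [tr, hu] using q
      · simpa [tr, hb] using ha
      · simpa [tr] using fun h => by tauto
    · refine ⟨i, o, fun v hv' hv'' => h1 v ((mem_insert.1 hv').resolve_left ?_) hv'', ?_⟩
      · rintro rfl
        exact hv hv''
      · have e1 : (fun v => W v ∧ v ∈ insert y P) = fun v => W v ∧ v ∈ P := by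
          funext v
          refine propext (and_congr_right fun h => mem_insert.trans (or_iff_right ?_))
          rintro rfl
          exact hv (.inl h)
        have e2 : (fun v => T v ∧ v ∈ insert y P) = fun v => T v ∧ v ∈ P := by
          funext v
          refine propext (and_congr_right fun h => mem_insert.trans (or_iff_right ?_))
          rintro rfl
          exact hv (.inr h)
        rwa [e1, e2]

theorem pick {X Y I O : Finset V} {p : V → V} {s : V} (hs : s ∈ X) (hp : ∀ b ∈ Y, p b ∈ X)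
    (h1 : ∀ a ∈ X, a ≠ s → #(Y.filter fun b => p b = a) = 1) (hc : #X = #Y) (hO : O ⊆ Y)
    (hl : #(X \ I) + #(Y \ O) < #Y) : ∃ b ∈ O, p b ∈ I ∧ ∀ c ∈ Y, p c = p b → c = b := by
  have e1 := card_eq_sum_card_fiberwise (s := Y) (t := X) (f := p) hp
  rw [← add_sum_erase _ _ hs, sum_congr rfl fun a ha => h1 a (mem_erase.1 ha).2 (mem_erase.1 ha).1,
    sum_const, card_erase_of_mem hs, smul_eq_mul] at e1
  have e2 := card_pos.2 ⟨s, hs⟩
  have inj : ∀ b ∈ Y, ∀ c ∈ Y, p c = p b → c = b := fun b hb c hc' e => by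
    have : #(Y.filter fun x => p x = p b) ≤ 1 := by
      by_cases k : p b = s
      · rw [k]
        omega
      · exact (h1 _ (hp b hb) k).le
    exact card_le_one.1 this c (mem_filter.2 ⟨hc', e⟩) b (mem_filter.2 ⟨hb, rfl⟩)
  by_contra k
  have e3 : #O ≤ #(X \ I) := card_le_card_of_injOn p (fun b hb => mem_coe.2 (mem_sdiff.2
    ⟨hp b (hO hb), fun h => k ⟨b, hb, h, inj b (hO hb)⟩⟩)) fun b hb c hc' e =>
      inj c (hO hc') b (hO hb) e
  have e4 := card_sdiff_add_card_eq_card hO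
  omega

end PreA

open PreA in
theorem pre : SPre := by
  intro V _ A β C W T I O hl hβ hβ' hR hWT hY hC hT hW
  have mI : ∀ {a v}, a ∈ Inn A v ↔ A a v := fun {a v} => by simp [Inn]
  have mO : ∀ {b v}, b ∈ Out A v ↔ A v b := fun {b v} => by simp [Out]
  obtain ⟨W₀, hW₀⟩ : ∃ W₀ : V → Prop, ∀ v, W₀ v ↔
      W v ∧ v = β.2 ∧ β.1 ∉ I v ∧ (I v).Nonempty ∧ 2 ≤ #(O v) := ⟨_, fun _ => Iff.rfl⟩
  have sub : ∀ v, W₀ v ∨ T v → W v ∨ T v := fun v h => h.imp_left fun k => ((hW₀ v).1 k).1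
  obtain ⟨i, o, h1, h2⟩ := start (W := W₀) (T := T) (I := I) (O := O)
    (fun u w h => mono (hR u w h) fun _ _ q => ⟨q.1, q.2.1, trivial⟩) hβ hβ' (fun v hv => by
      refine ⟨fun a ha => mI.1 ((hY v (sub v hv)).2.1 ha),
        fun b hb => mO.1 ((hY v (sub v hv)).2.2 hb), ?_⟩
      rcases hv with k | k
      · obtain ⟨-, k1, k2, k3, k4⟩ := (hW₀ v).1 k
        exact ⟨k3, card_pos.1 (by omega), .inr ⟨k1, k2, k4⟩⟩
      · obtain ⟨-, k1, k2, k3⟩ := hT v k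
        exact ⟨k1, k2, .inl ⟨fun h => hWT v ((hW₀ v).1 h).1 k,
          k3.imp_right (Or.imp_left fun h a ha => h (mI.2 ha))⟩⟩) univ
  simp only [mem_univ, and_true, forall_const] at h1 h2
  obtain ⟨par, rk, hp, hq⟩ := tree V A β C W₀ T i o hl hβ hβ' (by rw [Rt, Tr_cfg]; exact h2)
    (fun v h => hWT v ((hW₀ v).1 h).1) (fun v h => ⟨(hY v (sub v h)).1,
      mI.1 ((hY v (sub v h)).2.1 (h1 v h).1), mO.1 ((hY v (sub v h)).2.2 (h1 v h).2)⟩) hC
    fun v h => (hT v h).1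
  have nb : ∀ v b, C v → (v, b) ≠ β := fun v b h k => by
    obtain ⟨x, hx⟩ := card_pos.1 (hC v h).1
    exact hβ' x (k ▸ mI.1 hx)
  have h3 : ∀ v, ∃ b, W v ∨ T v → b ∈ O v ∧ par v b ∈ I v ∧
      (W v → ∀ c, A v c → par v c = par v b → c = b) := fun v => by
    by_cases hv : W v ∨ T v
    swap
    · exact ⟨v, fun h => absurd h hv⟩
    obtain ⟨sp, s1, s2, s3, s4⟩ := hq v (hY v hv).1
    by_cases k : W₀ v
    · have e : ∀ c, A v c ∧ par v c = i v ↔ c = o v := fun c => by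
        rw [← mem_singleton (b := c), ← s3 k, Ch, mem_filter, mO]
      have e' := ((e _).2 rfl).2
      refine ⟨o v, fun _ => ⟨(h1 v (.inl k)).2, ?_, fun _ c c1 c2 => (e c).1 ⟨c1, c2.trans e'⟩⟩⟩
      rw [e']
      exact (h1 v (.inl k)).1
    rcases hv with hv | hv
    · obtain ⟨a1, a2⟩ := (hW v hv).resolve_right fun h => k ((hW₀ v).2 ⟨hv, h⟩)
      obtain ⟨b, b1, b2, b3⟩ := pick (p := par v) (mI.2 s1)
        (fun b hb => mI.2 (hp v b (mO.1 hb) (nb v b (hY v (.inl hv)).1)).1)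
        (fun a ha => s2 a (mI.1 ha)) a1 (hY v (.inl hv)).2.2 a2
      exact ⟨b, fun _ => ⟨b1, b2, fun _ c c1 => b3 c (mO.2 c1)⟩⟩
    · refine ⟨o v, fun _ => ⟨(h1 v (.inr hv)).2, ?_, fun h => absurd hv (hWT v h)⟩⟩
      rw [(s4 hv).2]
      exact (h1 v (.inr hv)).1
  choose o' h3 using h3
  refine ⟨fun v => par v (o' v), o', fun v hv => ⟨(h3 v hv).2.1, (h3 v hv).1⟩, fun u w h => ?_,
    fun e h => ?_⟩
  · rw [Tr_cfg]
    induction n : rk u w using Nat.strong_induction_on generalizing u w with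
    | _ n ih =>
    by_cases e : (u, w) = β
    · rw [e]
    obtain ⟨p1, p2⟩ := hp u w h e
    refine (ih _ (n ▸ p2) _ _ p1 rfl).tail ⟨h, rfl, fun k => congrArg (par u) k.2, fun k k' => ?_⟩
    exact k ⟨.inl k'.1, (h3 u (.inl k'.1)).2.2 k'.1 w h k'.2⟩
  · have up : ∀ e f, TransGen (Nxt (fun v => W v ∨ T v) (fun v => par v (o' v)) o') e f →
        rk e.1 e.2 < rk f.1 f.2 := fun e f h => by
      have one : ∀ e f, Nxt (fun v => W v ∨ T v) (fun v => par v (o' v)) o' e f →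
          rk e.1 e.2 < rk f.1 f.2 := by
        rintro e f ⟨q1, q2, rfl⟩
        rw [q2]
        exact (hp _ _ (mO.1 ((hY _ q1).2.2 (h3 _ q1).1)) (nb _ _ (hY _ q1).1)).2
      induction h with
      | single q => exact one _ _ q
      | tail _ q ih => exact ih.trans (one _ _ q)
    exact (up e e h).false

end Pool.Agent.MP_d1f1f3_co.H2
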