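import Pool.Agent.MP_d1f1f3_co.H2.Spec4

/-!
Row SDR: enumerations and systems of distinct representatives.
-/

namespace Pool.Agent.MP_d1f1f3_co.H2

open Finset
open scoped Classical

namespace Sdr

variable {V : Type}

theorem lst (Q : Finset V) (f : ℕ → V) (J : Finset ℕ) (hJ : J ⊆ Icc 1 #Q) (h1 : ∀ i ∈ J, f i ∈ Q)
    (h2 : ∀ i ∈ J, ∀ k ∈ J, f i = f k → i = k) :
    ∃ x : ℕ → V, (∀ i ∈ J, x i = f i) ∧ (∀ i, 1 ≤ i → i ≤ #Q → x i ∈ Q) ∧
      ∀ i k, 1 ≤ i → i ≤ #Q → 1 ≤ k → k ≤ #Q → x i = x k → i = k := by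
  obtain ⟨g, hg⟩ := Finset.exists_equiv_extend_of_card_eq (α := Icc 1 #Q) (t := Q) (by simp)
    (s := univ.filter fun i => i.1 ∈ J) (f := fun i => f i)
    (image_subset_iff.2 fun i hi => h1 _ (mem_filter.1 hi).2)
    fun i hi k hk e => Subtype.ext (h2 _ (mem_filter.1 hi).2 _ (mem_filter.1 hk).2 e)
  refine ⟨fun i => if h : i ∈ Icc 1 #Q then g ⟨i, h⟩ else f i, fun i hi => ?_, fun i a b => ?_,
    fun i k a b c d e => ?_⟩
  · exact (dif_pos (hJ hi)).trans (hg _ (mem_filter.2 ⟨mem_univ _, hi⟩))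
  · simp only [dif_pos (mem_Icc.2 ⟨a, b⟩), coe_mem]
  · simp only [dif_pos (mem_Icc.2 ⟨a, b⟩), dif_pos (mem_Icc.2 ⟨c, d⟩)] at e
    exact congrArg Subtype.val (g.injective (Subtype.ext e))

theorem hall (q : ℕ) (T : ℕ → Finset V) (d : V) (h1 : ∀ i, 1 ≤ i → i < q → q ≤ #(T i) + 2)
    (h2 : q ≤ #((Ico 1 q).biUnion T) + 1) :
    ∃ u : ℕ → V, (∀ i k, 1 ≤ i → i < q → 1 ≤ k → k < q → u i = u k → i = k) ∧
      ∀ i, 1 ≤ i → i < q → u i ∈ T i := by
  obtain ⟨f, f1, f2⟩ := (all_card_le_biUnion_card_iff_exists_injective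
    fun i : Ico 1 q => T i).1 fun s => by
      have c : #(univ : Finset (Ico 1 q)) = q - 1 := by simp
      rcases s.eq_empty_or_nonempty with rfl | ⟨i, hi⟩
      · simp
      by_cases e : s = univ
      · have : (Ico 1 q).biUnion T ⊆ s.biUnion fun i => T i := biUnion_subset.2 fun k hk =>
          subset_biUnion_of_mem (fun i : Ico 1 q => T i) (x := ⟨k, hk⟩) (e ▸ mem_univ _)
        have := card_le_card this
        have := card_le_card (subset_univ s)
        omega
      · have := card_lt_card (ssubset_univ_iff.2 e)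
        have := card_le_card (subset_biUnion_of_mem (fun i : Ico 1 q => T i) hi)
        have := h1 i (mem_Ico.1 i.2).1 (mem_Ico.1 i.2).2
        omega
  refine ⟨fun i => if h : i ∈ Ico 1 q then f ⟨i, h⟩ else d, fun i k a b c d e => ?_,
    fun i a b => ?_⟩
  · simp only [dif_pos (mem_Ico.2 ⟨a, b⟩), dif_pos (mem_Ico.2 ⟨c, d⟩)] at e
    exact congrArg Subtype.val (f1 e)
  · simpa only [dif_pos (mem_Ico.2 ⟨a, b⟩)] using f2 ⟨i, mem_Ico.2 ⟨a, b⟩⟩

end Sdr

open Sdr

theorem sdr : SSdr := by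
  intro V Q C h3 hs hC
  by_cases h : ∃ a ∈ Q, ∃ b ∈ Q, ∃ c ∈ Q, a ≠ b ∧ b ≠ c ∧ a ≠ c ∧ #Q ≤ #(C a b ∪ C b c) + 1
  · obtain ⟨a, ha, b, hb, c, hc, n1, n2, n3, h⟩ := h
    obtain ⟨x, x0, x1, x2⟩ := lst Q (fun i => if i = 1 then a else if i = 2 then b else c) {1, 2, 3}
      (by intro i; simp only [mem_insert, mem_singleton, mem_Icc]; omega)
      (fun i _ => by split_ifs <;> assumption) (by simp [n1, n2, n3, n1.symm, n2.symm, n3.symm])
    obtain ⟨u, u1, u2⟩ := hall #Q (fun i => C (x i) (x (i + 1))) a (fun i p p' => hC _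
      (x1 i p p'.le) _ (x1 _ (by omega) p') fun e => by have := x2 _ _ p p'.le (by omega) p' e; omega)
      (h.trans (Nat.succ_le_succ (card_le_card (union_subset
        (subset_trans (by simp [x0]) (subset_biUnion_of_mem _ (x := 1) (mem_Ico.2 (by omega))))
        (subset_trans (by simp [x0]) (subset_biUnion_of_mem _ (x := 2) (mem_Ico.2 (by omega))))))))
    refine Or.inl ⟨x, fun i => if 1 ≤ i ∧ i < #Q then u i else u 1, x1, x2,
      fun i k p p' r r' e => ?_, fun i p p' => ?_, by simp, by simp⟩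
    · simp only [p, p', r, r', and_self, if_true] at e
      exact u1 i k p p' r r' e
    · simpa only [p, p', and_self, if_true] using u2 i p p'
  push Not at h
  have t : ∀ a ∈ Q, ∀ b ∈ Q, ∀ c ∈ Q, a ≠ b → b ≠ c → a ≠ c → C a b = C b c ∧ #(C a b) + 2 = #Q :=
    fun a ha b hb c hc n1 n2 n3 => by
      have := h a ha b hb c hc n1 n2 n3
      have := hC a ha b hb n1
      have := hC b hb c hc n2
      have := card_le_card (subset_union_left (s₁ := C a b) (s₂ := C b c))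
      exact ⟨(eq_of_subset_of_card_le subset_union_left (by omega)).trans
        (eq_of_subset_of_card_le subset_union_right (by omega)).symm, by omega⟩
  obtain ⟨a, ha, b, hb, c, hc, n1, n3, n2⟩ := two_lt_card.1 h3
  have k : ∀ v ∈ Q, a ≠ v → C a v = C a b := fun v hv n => by
    by_cases e : v = b
    · rw [e]
    · rw [← (t b hb a ha v hv n1.symm n (Ne.symm e)).1, hs]
  refine Or.inr ⟨C a b, (t a ha b hb c hc n1 n2 n3).2, fun u hu v hv n => ?_⟩
  by_cases e : a = u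
  · exact e ▸ k v hv (e ▸ n)
  by_cases e' : a = v
  · rw [hs, ← e', k u hu e]
  · rw [← (t a ha u hu v hv e n e').1, k u hu e]

theorem enum : SEnum := by
  intro V Q C a b g ha hb n hC
  have h2 : 1 < #Q := one_lt_card.2 ⟨a, ha, b, hb, n⟩
  obtain ⟨x, x0, x1, x2⟩ := lst Q (fun i => if i = 1 then a else b) {1, #Q}
    (by intro i; simp only [mem_insert, mem_singleton, mem_Icc]; omega)
    (fun i _ => by split_ifs <;> assumption) (by simp [n, n.symm, h2.ne'])
  have k : ∀ i, 1 ≤ i → i < #Q → #Q ≤ #(C (x i) (x (i + 1))) + 1 := fun i p p' => hC _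
    (x1 i p p'.le) _ (x1 _ (by omega) p') fun e => by have := x2 _ _ p p'.le (by omega) p' e; omega
  obtain ⟨u, u1, u2⟩ := hall #Q (fun i => C (x i) (x (i + 1))) a
    (fun i p p' => (k i p p').trans (Nat.le_succ _)) ((k 1 le_rfl h2).trans (Nat.succ_le_succ
      (card_le_card (subset_biUnion_of_mem (fun i => C (x i) (x (i + 1))) (mem_Ico.2 ⟨le_rfl, h2⟩)))))
  refine ⟨x, fun i => if 1 ≤ i then u i else g, by simp [x0], by simp [x0, h2.ne'], x1, x2,
    fun i k p p' r r' e => ?_, fun i p p' => ?_, by simp, fun S hS => ?_⟩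
  · simp only [p, r, if_true] at e
    exact u1 i k p p' r r' e
  · simpa only [p, if_true] using u2 i p p'
  · obtain ⟨g', c, c'⟩ := exists_mem_notMem_of_card_lt_card (s := (Ico 1 #Q).image u) (t := S)
      (card_image_le.trans_lt (by rw [Nat.card_Ico]; omega))
    refine ⟨g', c, fun i p p' e => c' (mem_image.2 ⟨i, mem_Ico.2 ⟨p, p'⟩, ?_⟩)⟩
    simpa only [p, if_true] using e.symm

end Pool.Agent.MP_d1f1f3_co.H2
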