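import Pool.Agent.MP_d1f1f3_co.H47.Spec

/-!
Definitions and intermediate statements for the four colouring of graphs with small degrees:
the general frame.
-/

namespace Pool.Agent.MP_d1f1f3_co.H2

open Finset Relation H47
open scoped Classical

noncomputable section

variable {V : Type} [Fintype V]

/-- Row PRE: the main pairs. -/
def SPre : Prop :=
  ∀ (V : Type) [Fintype V] (A : V → V → Prop) (β : V × V) (Cc W T : V → Prop)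
    (I O : V → Finset V),
    (∀ v, ¬A v v) → A β.1 β.2 → (∀ w, ¬A w β.1) → Rt A (St.free V) β → (∀ v, W v → ¬T v) →
    (∀ v, W v ∨ T v → Cc v ∧ I v ⊆ Inn A v ∧ O v ⊆ Out A v) →
    (∀ v, Cc v → 1 ≤ #(Inn A v) ∧ #(Inn A v) ≤ #(Out A v) + 1) →
    (∀ v, T v → #(Inn A v) < #(Out A v) ∧ (I v).Nonempty ∧ (O v).Nonempty ∧
      (2 ≤ #(O v) ∨ Inn A v ⊆ I v ∨ (v = β.2 ∧ β.1 ∈ I v))) →
    (∀ v, W v → (#(Inn A v) = #(Out A v) ∧ #(Inn A v \ I v) + #(Out A v \ O v) < #(Out A v)) ∨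
      (v = β.2 ∧ β.1 ∉ I v ∧ (I v).Nonempty ∧ 2 ≤ #(O v))) →
    ∃ i o : V → V, (∀ v, W v ∨ T v → i v ∈ I v ∧ o v ∈ O v) ∧ Rt A (cfg W T i o) β ∧
      ∀ e, ¬TransGen (Nxt (fun v => W v ∨ T v) i o) e e

/-- A closed set produced by a stuck exchange. -/
structure Stk {L : Type} (Bf : V → Prop) (Li Lo : V → Finset V) (α ω : V × V → Option L)
    (loc : V → L) (l : L) (B : Finset V) (r : ℕ) : Prop where
  sub : ∀ y ∈ B, Bf y ∧ loc y ≠ l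
  clo : ∀ y ∈ B, ∀ b ∈ Lo y, ω (y, b) = some l ∨ (b ∈ B ∧ y ∈ Li b)
  cli : ∀ y ∈ B, ∀ a ∈ Li y, α (a, y) = some l ∨ (a ∈ B ∧ y ∈ Lo a)
  cno : ∑ y ∈ B, #(Lo y) + r ≤ ∑ y ∈ B, #((Lo y).filter fun b => ω (y, b) = some l) + #B
  cni : ∑ y ∈ B, #(Li y) + r ≤ ∑ y ∈ B, #((Li y).filter fun a => α (a, y) = some l) + #B

/-- First arcs of the chains that start and end at the location `l`. -/
def Ret {L : Type} (E : V → V → Prop) (Bf : V → Prop) (i o : V → V) (α ω : V × V → Option L)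
    (l : L) : Finset (V × V) :=
  univ.filter fun s => E s.1 s.2 ∧ ¬(Bf s.1 ∧ s.2 = o s.1) ∧ α s = some l ∧
    ∃ e, ReflTransGen (Nxt Bf i o) s e ∧ ¬(Bf e.2 ∧ e.1 = i e.2) ∧ ω e = some l

/-- The hypotheses of the exchange, apart from the refutation of stuck sets. -/
structure Exh {L : Type} (E : V → V → Prop) (Bf : V → Prop) (Li Lo : V → Finset V)
    (α ω : V × V → Option L) (loc : V → L) (i o : V → V) : Prop where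
  mem : ∀ y, Bf y → i y ∈ Li y ∧ o y ∈ Lo y
  inn : ∀ y, Bf y → ∀ a ∈ Li y, E a y ∧ ω (a, y) = some (loc y)
  out : ∀ y, Bf y → ∀ b ∈ Lo y, E y b ∧ α (y, b) = some (loc y)
  acyc : ∀ e, ¬TransGen (Nxt Bf i o) e e
  nf : ∀ e l, E e.1 e.2 → α e = some l → ω e ≠ some l

/-- Row EXCH. -/
def SExch : Prop :=
  ∀ (V L : Type) [Fintype V] [Fintype L] (E : V → V → Prop) (Bf : V → Prop)
    (Li Lo : V → Finset V) (α ω : V × V → Option L) (loc : V → L) (sp : L → ℕ) (i₀ o₀ : V → V),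
    Exh E Bf Li Lo α ω loc i₀ o₀ → (∀ l B r, Stk Bf Li Lo α ω loc l B r → r ≤ sp l) →
    ∃ i o : V → V, (∀ y, Bf y → i y ∈ Li y ∧ o y ∈ Lo y) ∧ (∀ e, ¬TransGen (Nxt Bf i o) e e) ∧
      ∀ l, #(Ret E Bf i o α ω l) ≤ sp l

/-- Core vertices. -/
def Co (G : SimpleGraph V) (v : V) : Prop := 3 ≤ dg G v

/-- Core edges not separated by parity. -/
def Fc (G : SimpleGraph V) (κ : V → ZMod 2) (u w : V) : Prop :=
  G.Adj u w ∧ Co G u ∧ Co G w ∧ κ u = κ w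

/-- Core edges separated by parity. -/
def Hc (G : SimpleGraph V) (κ : V → ZMod 2) (u w : V) : Prop :=
  G.Adj u w ∧ Co G u ∧ Co G w ∧ κ u ≠ κ w

/-- Number of unseparated core edges at a vertex. -/
def df (G : SimpleGraph V) (κ : V → ZMod 2) (v : V) : ℕ := #(univ.filter fun w => Fc G κ v w)

/-- Unseparated core edges leaving `X`. -/
def fct (G : SimpleGraph V) (κ : V → ZMod 2) (X : Finset V) : ℕ :=
  ∑ v ∈ X, #(univ.filter fun w => Fc G κ v w ∧ w ∉ X)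

/-- Steps of a chain, with the parity of the number of steps. -/
def Nx2 (Y : V → Prop) (i o : V → V) (e f : (V × V) × ZMod 2) : Prop :=
  Nxt Y i o e.1 f.1 ∧ f.2 = e.2 + 1

/-- The chain of `s` ends with the arc `e` after a number of steps of parity `π`. -/
def Ends (Y : V → Prop) (i o : V → V) (s e : V × V) (π : ZMod 2) : Prop :=
  ReflTransGen (Nx2 Y i o) (s, 0) (e, π) ∧ ¬(Y e.2 ∧ e.1 = i e.2)

/-- The chain of `s` returns and cancels. -/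
def Vr (Y : V → Prop) (i o : V → V) (s : V × V) : Prop := ∃ e, Ends Y i o s e 1 ∧ e.2 = s.1

/-- The chain of `s` ends at `w` with the same sign. -/
def Vd (Y : V → Prop) (i o : V → V) (s : V × V) (w : V) : Prop := ∃ e, Ends Y i o s e 0 ∧ e.2 = w

/-- One if the distinguished vertex lies in `X`. -/
def ind (v₀ : Option V) (X : Finset V) : ℕ := if ∃ v ∈ X, v₀ = some v then 1 else 0

/-- A system of chains on an orientation of `G`. -/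
structure Chs (G : SimpleGraph V) (E : V → V → Prop) (Y : V → Prop) (i o : V → V) : Prop where
  adj : ∀ u w, E u w → G.Adj u w
  ori : ∀ u w, G.Adj u w → (E u w ↔ ¬E w u)
  arc : ∀ v, Y v → E (i v) v ∧ E v (o v)
  acyc : ∀ e, ¬TransGen (Nxt Y i o) e e

/-- Enough tokens. -/
structure Tok (G : SimpleGraph V) (κ : V → ZMod 2) (Y : V → Prop) (i o : V → V) (U : Finset V)
    (v₀ : Option V) (Tk : V → Finset V) : Prop where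
  h1 : ∀ X : Finset V, (∀ v ∈ X, Co G v) →
    ∑ v ∈ X, (df G κ v + if v ∈ U then 2 else 0) ≤ ∑ v ∈ X, #(Tk v) + fct G κ X + ind v₀ X
  h2 : ∀ u w, Fc G κ u w → 2 ≤ #((Tk u).filter fun b => ¬Vd Y i o (u, b) w) +
    #((Tk w).filter fun b => ¬Vd Y i o (w, b) u) + ind v₀ {u, w}

/-- Row BLEV2: the levels of the colours. -/
def SBlev2 : Prop :=
  ∀ (V : Type) [Fintype V] (G : SimpleGraph V) (κ : V → ZMod 2) (E : V → V → Prop) (Y : V → Prop)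
    (i o : V → V) (U : Finset V) (v₀ : Option V) (Tk : V → Finset V) (Cs : V × V → Prop)
    (lev : V × V → ℤ) (cs τ' : V → ℤ), Chs G E Y i o → (∀ v ∈ U, Co G v) →
    (∀ s, Cs s → E s.1 s.2 ∧ ¬(Y s.1 ∧ s.2 = o s.1) ∧ (lev s = 0 ∨ lev s = 1)) →
    (∀ v, ∀ b ∈ Tk v, E v b ∧ ¬(Y v ∧ b = o v) ∧ ¬Cs (v, b) ∧ ¬Vr Y i o (v, b)) →
    Tok G κ Y i o U v₀ Tk →
    ∃ b : V → V → ℤ, (∀ u w, b u w = b w u) ∧ (∀ u w, b u w = 0 ∨ b u w = 1) ∧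
      (∀ s, Cs s → b s.1 s.2 = lev s) ∧ (∀ v, Y v → b v (i v) ≠ b v (o v)) ∧
      (∀ u w, Fc G κ u w →
        cs u + 2 * ∑ x ∈ N G u, b u x ≠ cs w + 2 * ∑ x ∈ N G w, b w x) ∧
      ∀ v ∈ U, cs v + 2 * ∑ x ∈ N G v, b v x ≠ τ' v

/-- Guaranteed number of tokens. -/
def tau (G : SimpleGraph V) (κ : V → ZMod 2) (v : V) : ℤ :=
  ((dg G v / 2 : ℕ) : ℤ) - if Wv G κ v then 1 else 0

/-- The normalised cost of changing the parity on `X`. -/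
def Dl (G : SimpleGraph V) (κ : V → ZMod 2) (t : V → ℤ) (sF : V → V → ℕ) (X : Finset V) : ℤ :=
  ∑ v ∈ X, (2 * t v + 1 + #(X.filter fun w => Fc G κ v w) - #(X.filter fun w => Hc G κ v w) +
    ∑ w ∈ X, (sF v w : ℤ))

/-- The data of a design. -/
structure Ds (V : Type) where
  t : V → ℤ
  sF : V → V → ℕ
  U : Finset V
  P : Finset (V × V)
  Fx : Finset (V × V)
  Pi : Finset V
  oc : V → V
  v₀ : Option V
  big : Option V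
  J : Prop
  Sf : Finset V
  ub : Prop
  st : Prop
  e₁ : V × V
  e₂ : V × V

/-- The fixed context. -/
structure Cx (V : Type) where
  G : SimpleGraph V
  A : V → V → Prop
  z : V
  ρ : V
  κ : V → ZMod 2

namespace Cx

variable (c : Cx V)

/-- Odd core vertices with more arcs going out. -/
def To (v : V) : Prop := Co c.G v ∧ Odd (dg c.G v) ∧ #(Out c.A v) = (dg c.G v + 1) / 2

/-- Even core vertices of the wrong parity. -/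
def Wc (v : V) : Prop := Co c.G v ∧ Wv c.G c.κ v

/-- Core vertices that may have to merge. -/
def Yc (v : V) : Prop := c.Wc v ∨ c.To v

/-- Unseparated arcs going out. -/
def Fo (v : V) : Finset V := univ.filter fun b => c.A v b ∧ Fc c.G c.κ v b

/-- Unseparated arcs coming in. -/
def Fi (v : V) : Finset V := univ.filter fun a => c.A a v ∧ Fc c.G c.κ v a

/-- Edges coming in. -/
def Ri (v : V) : Finset V := univ.filter fun a => c.A a v ∧ c.G.Adj v a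

/-- Core vertices with too many unseparated edges. -/
def Neg (v : V) : Prop := Co c.G v ∧ tau c.G c.κ v < df c.G c.κ v

/-- Vertices of degree four whose list may have two elements. -/
def L2 (y : V) : Prop := c.Wc y ∧ dg c.G y = 4 ∧ df c.G c.κ y = 1 ∧ c.Fo y = ∅

variable (d : Ds V)

/-- Payments coming in. -/
def pin (_ : Cx V) (d : Ds V) (v : V) : ℕ := #(d.P.filter fun e => e.2 = v)

/-- Payments going out. -/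
def pout (_ : Cx V) (d : Ds V) (v : V) : ℕ := #(d.P.filter fun e => e.1 = v)

/-- Fixed arcs going out. -/
def fx (_ : Cx V) (d : Ds V) (v : V) : ℕ := #(d.Fx.filter fun e => e.1 = v)

/-- Spare tokens. -/
def y1 (v : V) : ℤ := tau c.G c.κ v - df c.G c.κ v - c.fx d v + c.pin d v - c.pout d v

/-- A bound for the number of returns. -/
def Rb (v : V) : ℤ :=
  if ¬d.J ∨ c.κ v = 1 ∨ d.t v ≤ 0 then 0 else if v ∈ d.Sf then d.t v - 1 else d.t v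

/-- The root vertex merges the root arc. -/
def Ub (v : V) : Prop := d.ub ∧ v = c.ρ

/-- Tails that merge their only unseparated edge. -/
def R2 (v : V) : Prop := c.Yc v ∧ df c.G c.κ v = 1 ∧ v ∉ d.Pi ∧ ¬c.Ub d v ∧
  ∃ w ∈ c.Fo v, df c.G c.κ w = 1 ∨ (w ∈ d.Pi ∧ df c.G c.κ w = 2 ∧ c.pin d w = 1)

/-- Usable arcs coming in. -/
def Ig (v : V) : Finset V := (c.Ri v).filter fun a => ¬Fc c.G c.κ v a ∧ (a, v) ∉ d.P

/-- Usable arcs going out. -/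
def Og (v : V) : Finset V := (Out c.A v).filter fun b => (v, b) ∉ d.P ∧ (v, b) ∉ d.Fx

/-- Vertices without a special rule. -/
def Gn (v : V) : Prop := v ∉ d.Pi ∧ ¬c.Ub d v ∧ ¬c.R2 d v

/-- Candidates for the main arc coming in. -/
def II (v : V) : Finset V :=
  if c.Ub d v then {c.z} else if v ∈ d.Pi then (if d.J then c.Ri v else c.Fi v) else c.Ig d v

/-- Candidates for the main arc going out. -/
def OO (v : V) : Finset V :=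
  if c.Ub d v then c.Og d v else if v ∈ d.Pi then (if d.J then {d.oc v} else c.Fo v)
    else if c.R2 d v then c.Fo v else c.Og d v

/-- The exceptional configuration. -/
def Ecf (p w : V) : Prop :=
  Co c.G p ∧ Co c.G w ∧ c.κ p = 0 ∧ c.κ w = 0 ∧ p ≠ w ∧ ∃ B : Finset V, #B = 3 ∧
    (∀ y ∈ B, c.L2 y ∧ c.G.Adj p y ∧ c.G.Adj w y) ∧
    Dl c.G c.κ d.t d.sF (insert p (insert w B)) ≤ -1

/-- The hypotheses of the frame. -/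
structure Ok : Prop where
  t1 : ∀ v, Co c.G v → d.t v + df c.G c.κ v + ∑ w, (d.sF v w : ℤ) ≤ tau c.G c.κ v
  sym : ∀ u w, d.sF u w = d.sF w u
  sdiag : ∀ u, d.sF u u = 0
  th : d.J → ∀ X : Finset V, (∀ v ∈ X, Co c.G v) → -1 ≤ Dl c.G c.κ d.t d.sF X
  nj : ¬d.J → (∀ v, c.Neg v → c.Yc v → v ∈ d.Pi ∨ c.Ub d v) ∧ (∀ v ∈ d.Pi, d.v₀ = some v) ∧
    (#(univ.filter c.L2) ≤ 1 ∨ (#(univ.filter c.L2) ≤ 2 ∧
      ∀ v, Co c.G v → c.κ v = 0 → (df c.G c.κ v : ℤ) + 1 ≤ tau c.G c.κ v)) ∧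
    ∀ v, d.v₀ = some v → Co c.G v ∧ c.pout d v = 0 ∧ c.fx d v = 0 ∧
      (c.Yc v → v ∈ d.Pi ∨ c.Ub d v) ∧ (¬c.Yc v → (c.Fo v).Nonempty)
  c1 : ∀ v, Co c.G v → 2 ≤ df c.G c.κ v → (c.Fo v).Nonempty
  pa : ∀ e ∈ d.P, c.A e.1 e.2 ∧ Hc c.G c.κ e.1 e.2 ∧ (d.J → e.1 ∈ d.Sf)
  po : ∀ v, c.pout d v ≤ 1
  fa : ∀ e ∈ d.Fx, c.A e.1 e.2 ∧ c.G.Adj e.1 e.2 ∧ Co c.G e.1 ∧ ¬Co c.G e.2
  uc : ∀ v ∈ d.U, Co c.G v
  pi2 : #d.Pi ≤ 2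
  pi : ∀ v ∈ d.Pi, c.Yc v ∧ c.pout d v = 0 ∧ c.fx d v = 0 ∧ ¬c.Ub d v
  pij : d.J → ∀ v ∈ d.Pi, d.oc v ∈ c.Fo v ∧ c.Neg v ∧ #(c.Fi v) ≤ 2 ∧ c.pin d v ≤ 1 ∧
    (c.pin d v = 1 → c.Ig d v = ∅ ∧ (c.Fi v).Nonempty ∧ d.v₀ ≠ some v)
  pir : ¬d.J → ∀ v ∈ d.Pi, (c.Wc v → dg c.G v < 2 * df c.G c.κ v) ∧
    (c.To v → 2 ≤ #(c.Fo v) ∧ (c.Fi v).Nonempty)
  pw : ∀ v, c.Wc v → c.Gn d v → #(c.Ri v \ c.Ig d v) + #(Out c.A v \ c.Og d v) < dg c.G v / 2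
  pt : ∀ v, c.To v → c.Gn d v → (c.Ig d v).Nonempty ∧ (c.Og d v).Nonempty ∧
    (2 ≤ #(c.Og d v) ∨ c.Ri v ⊆ c.Ig d v)
  ub : d.ub → c.G.Adj c.z c.ρ ∧ Co c.G c.ρ ∧ (c.Wc c.ρ → c.pout d c.ρ = 0 ∧ c.fx d c.ρ = 0) ∧
    (c.To c.ρ → (c.Og d c.ρ).Nonempty) ∧
    (d.v₀ = some c.ρ ∨ df c.G c.κ c.ρ ≠ 1 ∨ 1 ≤ c.y1 d c.ρ - c.Rb d c.ρ)
  r2 : ∀ v, c.R2 d v → c.pin d v = 0
  ng : d.J → ∀ v, c.Neg v → c.Yc v → v ∉ d.Pi → ¬c.Ub d v → 2 ≤ #(c.Fo v) ∨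
    (d.v₀ = some v ∧ (c.κ v = 1 → ∀ w ∈ c.Fo v, 2 ≤ df c.G c.κ w))
  hv : d.J → ∀ f ∈ d.Pi, c.κ f = 0 → 0 ≤ d.t (d.oc f) → ∀ x ∈ d.Pi, x ≠ f →
    d.t (d.oc x) < 0 ∧ (d.oc x = f → c.pin d x = 0)
  sf : d.J → ∀ p ∈ d.Sf, Co c.G p ∧ 1 ≤ d.t p ∧
    (c.κ p = 0 → ∀ y, c.Neg y → c.κ y = 0 → ¬c.Yc y ∨ c.Ub d y)
  ne : d.J → ∀ p w, p ∈ d.Sf ∨ w ∈ d.Sf → ¬c.Ecf d p w
  yb : ∀ v, Co c.G v → d.t v + (if v ∈ d.U then 2 else 0) + c.fx d v + df c.G c.κ v ≤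
    tau c.G c.κ v + ind d.v₀ {v}
  x0 : ∀ v, Co c.G v → d.v₀ ≠ some v → d.big ≠ some v → 0 ≤ c.y1 d v - c.Rb d v
  x1 : d.J → ∀ v, d.v₀ = some v → Co c.G v ∧ -1 ≤ c.y1 d v - c.Rb d v
  bg : ∀ b, d.big = some b → d.J ∧ Co c.G b ∧ ¬c.Yc b ∧ d.v₀ ≠ some b ∧
    -1 ≤ c.y1 d b - c.Rb d b ∧ 2 ≤ #(c.Fo b) ∧ 3 ≤ df c.G c.κ b ∧
    (4 ≤ df c.G c.κ b ∨ #((c.Fo b).filter fun w => df c.G c.κ w = 1) ≤ 1) ∧
    ∀ x ∈ d.Pi, c.pin d x = 1 → 2 ≤ #(c.Fo x)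
  k2 : ∀ u, ∀ w ∈ c.Fo u, df c.G c.κ u = 1 → df c.G c.κ w = 1 → ¬c.Yc u → d.v₀ ≠ some u →
    (1 ≤ c.y1 d u ∧ d.t u + 1 ≤ c.y1 d u) ∨ (1 ≤ c.y1 d w ∧ d.t w + 1 ≤ c.y1 d w) ∨
    ((¬d.J ∨ c.κ u = 1) ∧ 1 ≤ c.y1 d u + c.y1 d w + ind d.v₀ {w}) ∨
    (d.J ∧ c.κ u = 0 ∧ (3 ≤ d.t u ∨ (1 ≤ d.t u ∧ c.pout d u = 0 ∧ d.sF u w = 0) ∨
      (1 ≤ d.t w ∧ d.t w ≤ c.y1 d w) ∨ (w ∈ d.Sf ∧ 2 ≤ d.t w)))
  k3 : ∀ u, ∀ w ∈ c.Fo u, df c.G c.κ u = 1 → w ∈ d.Pi → c.pin d w = 1 → df c.G c.κ w = 2 →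
    ¬c.Yc u ∨ c.Ub d u → 1 ≤ c.y1 d u - c.Rb d u
  hl : ∀ X : Finset V, (∀ v ∈ X, Co c.G v) →
    0 ≤ ∑ v ∈ X, (c.y1 d v - (if v ∈ d.U then 2 else 0) - c.Rb d v +
      #(univ.filter fun w => Fc c.G c.κ v w ∧ w ∉ X ∧ ¬(d.J ∧ v ∈ d.Pi ∧ w = d.oc v))) +
      ind d.v₀ X
  rt : ¬c.G.Adj c.z c.ρ → Wv c.G c.κ c.ρ →
    Co c.G c.ρ ∧ c.Gn d c.ρ ∧ (c.Ig d c.ρ).Nonempty ∧ 2 ≤ #(c.Og d c.ρ)
  st : d.st → c.A d.e₁.1 d.e₁.2 ∧ c.G.Adj d.e₁.1 d.e₁.2 ∧ Co c.G d.e₁.1 ∧ ¬Co c.G d.e₁.2 ∧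
    d.e₁ ∉ d.Fx ∧ c.κ d.e₁.1 = 1 ∧ c.A d.e₂.1 d.e₂.2 ∧ c.G.Adj d.e₂.1 d.e₂.2 ∧
    ¬Co c.G d.e₂.1 ∧ Co c.G d.e₂.2 ∧ d.e₂.1 ≠ c.z ∧ ∀ v, ¬c.Neg v

end Cx

/-- Tokens: first arcs of chains that do not cancel. -/
def Tks (E : V → V → Prop) (Y : V → Prop) (i o : V → V) (v : V) : Finset V :=
  univ.filter fun b => E v b ∧ ¬(Y v ∧ b = o v) ∧ ¬Vr Y i o (v, b)

/-- The output of the frame. -/
structure Sys (c : Cx V) (d : Ds V) (γ : ZMod 2) (a : V → V → ZMod 2) (E : V → V → Prop)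
    (Y : V → Prop) (i o : V → V) : Prop where
  sym : ∀ u w, a u w = a w u
  root : c.G.Adj c.z c.ρ → a c.z c.ρ = γ
  sum : ∀ v, K c.G v → ∑ w ∈ N c.G v, a v w = c.κ v
  qm : ∀ v, Co c.G v → ∀ j, #((N c.G v).filter fun w => a v w = j) ≤ (dg c.G v + 1) / 2 ∨
    (Y v ∧ a v (i v) = j ∧ a v (o v) = j ∧
      #((N c.G v).filter fun w => a v w = j) = (dg c.G v + 1) / 2 + 1)
  yc : ∀ v, Y v → c.Yc v ∧ a v (i v) = a v (o v) ∧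
    #((N c.G v).filter fun w => a v w = a v (i v)) = (dg c.G v + 1) / 2 + 1
  chs : Chs c.G E Y i o
  eA : ∀ u w, c.G.Adj u w → ¬Co c.G u ∨ ¬Co c.G w ∨ (d.Pi = ∅ ∧ (u, w) ∉ d.P ∧ (w, u) ∉ d.P) →
    (E u w ↔ (c.A u w ∧ (u, w) ∉ d.Fx) ∨ (w, u) ∈ d.Fx)
  tok : Tok c.G c.κ Y i o d.U d.v₀ (Tks E Y i o)
  tk : ∀ v, Co c.G v → v ∉ d.Pi →
    (df c.G c.κ v : ℤ) + c.y1 d v - c.Rb d v ≤ #(Tks E Y i o v)
  star : d.st → ∀ π, ReflTransGen (Nx2 Y i o) (d.e₂, 0) (d.e₁, π) → π = 1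

/-- The general frame. -/
def SGen : Prop :=
  ∀ (V : Type) [Fintype V] (c : Cx V) (d : Ds V) (γ : ZMod 2), Ori c.G c.A c.z c.ρ →
    Par c.G c.A c.z c.ρ c.κ γ → c.Ok d → ∃ a E Y i o, Sys c d γ a E Y i o

end

end Pool.Agent.MP_d1f1f3_co.H2
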