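import Pool.Agent.MP_d1f1f3_co.H2.Spec

/-!
The inner steps of the general frame.
-/

namespace Pool.Agent.MP_d1f1f3_co.H2

open Finset Relation H47
open scoped Classical

noncomputable section

variable {V : Type} [Fintype V]

/-- The context, the design, the classes and the first choice of the main pairs. -/
structure Fr (V : Type) where
  c : Cx V
  d : Ds V
  a : V → V → ZMod 2
  i : V → V
  o : V → V

namespace Fr

variable (f : Fr V)

/-- Neighbours joined by an edge of class `j`. -/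
def cls (v : V) (j : ZMod 2) : Finset V := (N f.c.G v).filter fun w => f.a v w = j

/-- Vertices that must merge. -/
def Y (v : V) : Prop := Co f.c.G v ∧ ∃ j, (dg f.c.G v + 1) / 2 < #(f.cls v j)

/-- The large class. -/
def M (v : V) : Finset V := f.cls v (f.a v (f.i v))

/-- The state after the choice of the classes. -/
structure Mid (γ : ZMod 2) : Prop where
  ori : Ori f.c.G f.c.A f.c.z f.c.ρ
  ok : f.c.Ok f.d
  sym : ∀ u w, f.a u w = f.a w u
  root : f.c.G.Adj f.c.z f.c.ρ → f.a f.c.z f.c.ρ = γ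
  sum : ∀ v, K f.c.G v → ∑ w ∈ N f.c.G v, f.a v w = f.c.κ v
  yc : ∀ v, f.Y v → f.c.Yc v ∧ f.a v (f.i v) = f.a v (f.o v) ∧
    #(f.M v) = (dg f.c.G v + 1) / 2 + 1 ∧ f.i v ∈ f.c.II f.d v ∧ f.o v ∈ f.c.OO f.d v
  acyc : ∀ e, ¬TransGen (Nxt f.Y f.i f.o) e e

/-- Merging two unseparated edges. -/
def FFa (v : V) : Prop := f.Y v ∧ v ∈ f.d.Pi ∧ Fc f.c.G f.c.κ v (f.i v)

/-- Passing a payment on. -/
def Rl (v : V) : Prop := f.Y v ∧ v ∈ f.d.Pi ∧ (f.i v, v) ∈ f.d.P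

/-- Passing a payment on a second time. -/
def FFr (v : V) : Prop := f.FFa v ∧ f.Rl (f.i v) ∧ f.o (f.i v) = v

/-- Merging two unseparated edges in the direction of the orientation. -/
def FFw (v : V) : Prop := f.FFa v ∧ ¬f.FFr v

/-- Vertices whose main pair is reversed. -/
def Run (v : V) : Prop := f.Rl v ∨ f.FFr v

/-- Reversed arcs. -/
def RV (u w : V) : Prop := (u, w) ∈ f.d.P ∨ (u, w) ∈ f.d.Fx ∨ (f.Run u ∧ w = f.o u)

/-- The orientation of the chains. -/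
def E (u w : V) : Prop := f.c.G.Adj u w ∧ ((f.c.A u w ∧ ¬f.RV u w) ∨ f.RV w u)

/-- The root vertex merges the root edge. -/
def UB (v : V) : Prop := f.Y v ∧ f.c.Ub f.d v

/-- Rigid tails. -/
def NR (v : V) : Prop := f.Y v ∧ f.c.R2 f.d v ∧ ¬(f.FFa (f.o v) ∧ f.i (f.o v) = v)

/-- Flexible vertices. -/
def Bf (v : V) : Prop := f.Y v ∧ ¬f.FFa v ∧ ¬f.Rl v ∧ ¬f.UB v ∧ ¬f.NR v

/-- Candidates coming in. -/
def Li (y : V) : Finset V := (f.M y).filter fun a => f.E a y ∧ ¬Fc f.c.G f.c.κ y a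

/-- Candidates going out. -/
def Lo (y : V) : Finset V := (f.M y).filter fun b => f.E y b ∧ ¬(f.Run b ∧ y = f.o b)

/-- The location of a passed payment. -/
def tgt (x : V) : Option V × ZMod 2 :=
  if f.FFr (f.o x) ∧ f.i (f.o x) = x then (some (f.o (f.o x)), 0) else (some (f.o x), 1)

/-- Payments that arrive at `u` after one step. -/
def Op (u : V) : Finset V := univ.filter fun x => f.Rl x ∧ f.tgt x = (some u, 1)

/-- Reversed main arcs that start at `u`. -/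
def Gs (u : V) : Finset V := univ.filter fun x => f.Run x ∧ f.o x = u

/-- Ends of two merged unseparated edges. -/
def Ev (a w : V) : Prop :=
  f.FFw a ∧ f.o a = w ∧ ¬(f.FFw (f.i a) ∧ f.o (f.i a) = a) ∧ ¬(f.FFw w ∧ a = f.i w)

/-- Unseparated arcs that are merged at their head. -/
def Mg (a w : V) : Prop := (f.FFw w ∧ a = f.i w) ∨ (f.Run w ∧ a = f.o w)

/-- Dangerous ends. -/
def Fod (w : V) : Finset V := univ.filter fun a => f.E a w ∧ Fc f.c.G f.c.κ w a ∧ ¬f.Mg a w ∧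
  ¬f.Ev a w ∧ ¬(f.UB a ∧ f.o a = w) ∧ ¬f.NR a

/-- Neighbours that may be protected. -/
def Cand (u : V) : Finset V :=
  (f.c.Fo u).filter fun w => ¬((f.FFa u ∨ f.Rl u ∨ f.UB u) ∧ w = f.o u)

/-- The protected neighbour. -/
def dz (u : V) : Option V :=
  if h : ∃ w ∈ f.Cand u, df f.c.G f.c.κ w = 1 then some h.choose
  else if h : ∃ w ∈ f.Cand u, f.Rl w ∨ (¬f.d.J ∧ f.d.v₀ = some u) then some h.choose else none

/-- The watched end. -/
def di (u : V) : V := if h : (f.Fod u).Nonempty then h.choose else u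

/-- Watched ends. -/
def Des (y u : V) : Prop := y ∈ f.Fod u ∧ (y = f.di u ∨ (¬f.d.J ∧ f.d.v₀ = some u))

/-- The location of a dangerous end. -/
def od (y u : V) : Option (Option V × ZMod 2) :=
  if (f.Op u).Nonempty then some (some u, 1)
  else if f.Des y u then (f.dz u).map fun p => (some p, 0) else none

/-- The location of the end of an arc. -/
def om (e : V × V) : Option (Option V × ZMod 2) :=
  if ¬Co f.c.G e.2 then (if f.d.st ∧ e = f.d.e₁ then some (none, 0) else none)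
  else if ¬Fc f.c.G f.c.κ e.1 e.2 then some (some e.2, 0)
  else if f.Run e.2 ∧ e.1 = f.o e.2 then none
  else if f.FFw e.2 ∧ e.1 = f.i e.2 then
    (if f.FFw (f.o e.2) ∧ f.i (f.o e.2) = e.2 then f.od (f.o e.2) (f.o (f.o e.2))
      else some (some (f.o e.2), 0))
  else f.od e.1 e.2

/-- The location of the start of an arc. -/
def al (e : V × V) : Option (Option V × ZMod 2) :=
  if ¬Co f.c.G e.1 then
    (if f.d.st ∧ e = f.d.e₂ ∧ f.c.κ e.2 = 0 then some (none, 0) else none)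
  else if f.Rl e.1 ∧ e.2 = f.i e.1 then some (f.tgt e.1)
  else if (f.Run e.2 ∧ e.1 = f.o e.2) ∨ ((f.FFw e.1 ∨ f.UB e.1 ∨ f.NR e.1) ∧ e.2 = f.o e.1)
    then none
  else some (some e.1, 0)

/-- The location of a vertex. -/
def loc (_ : Fr V) (y : V) : Option V × ZMod 2 := (some y, 0)

/-- The number of returns that are tolerated. -/
def R (p : V) : ℕ :=
  if ¬Co f.c.G p ∨ ¬f.d.J ∨ f.c.κ p = 1 ∨ f.d.t p ≤ 0 then 0
  else if f.d.t p = 1 then
    (if p ∈ f.d.Sf then 0 else if df f.c.G f.c.κ p = 1 then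
      (if ∃ w ∈ f.c.Fo p, f.c.Ecf f.d p w then 1 else 0) else 1)
  else if f.d.t p = 2 then
    (if p ∈ f.d.Sf ∧ df f.c.G f.c.κ p = 1 ∧ ∃ u ∈ f.c.Fi p, df f.c.G f.c.κ u = 1 then 0 else 1)
  else if df f.c.G f.c.κ p = 1 then ((f.d.t p + 2) / 3).toNat else ((f.d.t p + 1) / 2).toNat

/-- The tolerance of a location. -/
def sp (l : Option V × ZMod 2) : ℕ := if l.2 = 0 then l.1.elim 0 f.R else 0

/-- Excess of the lists. -/
def lam (y : V) : ℤ := tau f.c.G f.c.κ y - #(f.c.Fi y ∩ f.M y)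

/-- Excess of the separated part of the lists. -/
def mu (y : V) : ℤ := tau f.c.G f.c.κ y - #(f.c.Fi y ∩ f.M y) - #(f.c.Fo y ∩ f.M y)

/-- One if a payment arrives at `p` after two steps. -/
def vH (p : V) : ℕ := if ∃ x, f.Rl x ∧ f.tgt x = (some p, 0) then 1 else 0

/-- What a stuck set at the location of `p` gives. -/
structure SF (p : V) (B : Finset V) (r : ℕ) : Prop where
  sub : ∀ y ∈ B, f.Bf y ∧ y ≠ p
  fo0 : ∀ y ∈ B, f.c.κ y ≠ f.c.κ p → f.c.Fo y ∩ f.M y = ∅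
  fo1 : ∀ y ∈ B, ∀ b ∈ f.c.Fo y ∩ f.M y, f.om (y, b) = some (some p, 0)
  hs : ∀ y ∈ B, f.c.κ y = f.c.κ p → f.mu y + 2 ≤ #(B.filter fun x => Hc f.c.G f.c.κ y x)
  g2 : (#(B.filter fun y => f.c.κ y = f.c.κ p) : ℤ) + r +
    ∑ y ∈ B.filter fun y => f.c.κ y = f.c.κ p, f.mu y ≤ #(B.filter fun y => f.c.κ y ≠ f.c.κ p)
  g3 : ∑ y ∈ B.filter fun y => f.c.κ y ≠ f.c.κ p,
    (f.lam y + if Hc f.c.G f.c.κ y p then 0 else 1) + r ≤
      #(B.filter fun y => f.c.κ y = f.c.κ p) + f.vH p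
  g4 : Dl f.c.G f.c.κ f.d.t f.d.sF (insert p B) + 2 * r + #B +
    2 * ∑ y ∈ B, (#((f.c.Fo y \ f.M y) \ insert p B) : ℤ) ≤ 2 * f.d.t p + 1 + 2 * f.vH p +
      2 * #(f.c.Fo p ∩ B) + 2 * ∑ y ∈ B, (#(f.c.Fo y ∩ f.M y ∩ insert p B) : ℤ)

/-- The result of the exchange. -/
structure Post (i o : V → V) : Prop where
  mem : ∀ y, f.Bf y → i y ∈ f.Li y ∧ o y ∈ f.Lo y
  acyc : ∀ e, ¬TransGen (Nxt f.Bf i o) e e
  ret : ∀ l, #(Ret f.E f.Bf i o f.al f.om l) ≤ f.sp l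

/-- The final main arc coming in. -/
def fi (i : V → V) (v : V) : V := if f.Bf v then i v else if f.Run v then f.o v else f.i v

/-- The final main arc going out. -/
def fo (o : V → V) (v : V) : V := if f.Bf v then o v else if f.Run v then f.i v else f.o v

/-- Number of first arcs at `v` that are certainly useful. -/
def base (v : V) : ℤ := #(Out f.E v) - (if f.Y v then 1 else 0) - f.R v

/-- Tokens of `u` that are useful for the edge `u w`. -/
def val (i o : V → V) (u w : V) : ℕ :=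
  #((Tks f.E f.Y (f.fi i) (f.fo o) u).filter fun b => ¬Vd f.Y (f.fi i) (f.fo o) (u, b) w)

/-- Dangerous ends at `w` that are not watched for `u`. -/
def E1 (u w : V) : Finset V :=
  (f.Fod w).filter fun y => ¬(f.Des y w ∧ f.Op w = ∅ ∧ f.dz w = some u)

/-- Ends at `w` coming from rigid tails other than `u`. -/
def E2 (u w : V) : Finset V := univ.filter fun y => f.NR y ∧ f.o y = w ∧ y ≠ u

/-- Even ends at `w`. -/
def E3 (w : V) : Finset V := univ.filter fun y => f.Ev y w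

/-- What the chains give. -/
structure Cf (i o : V → V) : Prop where
  v0 : ∀ v, Co f.c.G v → f.base v ≤ #(Tks f.E f.Y (f.fi i) (f.fo o) v)
  v1 : ∀ u w, Fc f.c.G f.c.κ u w → f.base u ≤ f.val i o u w + #(f.E1 u w) + #(f.E2 u w) +
    if f.Rl w then min #(f.Op u) #(f.E3 w) else #(f.Op u)
  v2 : ¬f.d.J → ∀ r, f.d.v₀ = some r → ∀ b ∈ f.c.Fo r, ¬(f.Y r ∧ b = f.o r) → ∀ s, s ≠ b →
    1 ≤ f.val i o r s

/-- Static counts. -/
structure Ct : Prop where
  out : ∀ v, Co f.c.G v → (df f.c.G f.c.κ v : ℤ) + f.c.y1 f.d v + #(f.Gs v) +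
    (if f.c.Yc v ∧ ¬f.Y v then 1 else 0) ≤ f.base v + f.R v + if f.Run v then 1 else 0
  ends : ∀ w, Co f.c.G w → #(f.Fod w) + #(univ.filter fun y => f.NR y ∧ f.o y = w) + #(f.E3 w) +
    #(univ.filter fun y => f.UB y ∧ f.o y = w ∧ Fc f.c.G f.c.κ w y ∧ ¬f.Mg y w) + #(f.Gs w) +
    (if f.FFw w then 1 else 0) = #(f.c.Fi w)
  op : ∀ u, #(f.Op u) + (if f.FFr u then 1 else 0) ≤ #(f.Gs u)
  rb : ∀ v, (f.R v : ℤ) ≤ f.c.Rb f.d v
  dfe : ∀ v, Co f.c.G v → df f.c.G f.c.κ v = #(f.c.Fo v) + #(f.c.Fi v)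

end Fr

/-- Row GA0. -/
def SGa : Prop := SPre → SAlev →
  ∀ (V : Type) [Fintype V] (c : Cx V) (d : Ds V) (γ : ZMod 2), Ori c.G c.A c.z c.ρ →
    Par c.G c.A c.z c.ρ c.κ γ → c.Ok d → ∃ a i o, (⟨c, d, a, i, o⟩ : Fr V).Mid γ

/-- Row GX. -/
def SGx : Prop := ∀ (V : Type) [Fintype V] (f : Fr V) (γ : ZMod 2), f.Mid γ →
  Exh f.E f.Bf f.Li f.Lo f.al f.om f.loc f.i f.o ∧ f.Ct

/-- Row GS. -/
def SGs : Prop := ∀ (V : Type) [Fintype V] (f : Fr V) (γ : ZMod 2) (p : V) (B : Finset V) (r : ℕ),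
  f.Mid γ → Exh f.E f.Bf f.Li f.Lo f.al f.om f.loc f.i f.o →
    Stk f.Bf f.Li f.Lo f.al f.om f.loc (some p, 0) B r → f.SF p B r

/-- Row GN1. -/
def SGn1 : Prop := ∀ (V : Type) [Fintype V] (f : Fr V) (γ : ZMod 2) (p : V) (B : Finset V) (r : ℕ),
  f.Mid γ → f.SF p B r → ¬Co f.c.G p ∨ ¬f.d.J ∨ f.c.κ p = 1 ∨ f.d.t p < 0 → r = 0

/-- Row GN0. -/
def SGn0 : Prop := ∀ (V : Type) [Fintype V] (f : Fr V) (γ : ZMod 2) (p : V) (B : Finset V) (r : ℕ),
  f.Mid γ → f.SF p B r → Co f.c.G p → f.d.J → f.c.κ p = 0 → 0 ≤ f.d.t p → r ≤ f.R p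

/-- Row GNS. -/
def SGns : Prop := ∀ (V : Type) [Fintype V] (f : Fr V) (γ : ZMod 2) (l : Option V × ZMod 2)
  (B : Finset V) (r : ℕ), f.Mid γ → Exh f.E f.Bf f.Li f.Lo f.al f.om f.loc f.i f.o →
    Stk f.Bf f.Li f.Lo f.al f.om f.loc l B r → l.1 = none ∨ l.2 = 1 → r = 0

/-- Row GC1. -/
def SGc1 : Prop := ∀ (V : Type) [Fintype V] (f : Fr V) (γ : ZMod 2) (i o : V → V), f.Mid γ →
  f.Post i o → Chs f.c.G f.E f.Y (f.fi i) (f.fo o) ∧
    (f.d.st → ∀ π, ReflTransGen (Nx2 f.Y (f.fi i) (f.fo o)) (f.d.e₂, 0) (f.d.e₁, π) → π = 1)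

/-- Row GC2. -/
def SGc2 : Prop := ∀ (V : Type) [Fintype V] (f : Fr V) (γ : ZMod 2) (i o : V → V), f.Mid γ →
  f.Post i o → Chs f.c.G f.E f.Y (f.fi i) (f.fo o) → f.Cf i o

/-- Row GH2. -/
def SGh2 : Prop := ∀ (V : Type) [Fintype V] (f : Fr V) (γ : ZMod 2) (i o : V → V), f.Mid γ →
  f.Ct → f.Cf i o → ∀ u, ∀ w ∈ f.c.Fo u, 2 ≤ f.val i o u w + f.val i o w u + ind f.d.v₀ {u, w}

/-- Row GEN. -/
def SGenOf : Prop := SPre → SAlev → SExch → SGa → SGx → SGs → SGn1 → SGn0 → SGns → SGc1 → SGc2 →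
  SGh2 → SGen

end

end Pool.Agent.MP_d1f1f3_co.H2
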