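import Pool.Agent.MP_d1f1f3_co.H2.Spec

/-!
Graphs without vertices of degree two and with at most one leaf: states, orientations and
certificates.
-/

namespace Pool.Agent.MP_d1f1f3_co.H2

open Finset Relation H47
open scoped Classical

noncomputable section

variable {V : Type} [Fintype V]

/-- The setting. -/
structure Sg (V : Type) where
  G : SimpleGraph V
  h : V
  z : V
  ρ : V
  γ : ZMod 2
  τ : ZMod 2

/-- Change the parity on `A`. -/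
def flp (κ : V → ZMod 2) (A : Finset V) (v : V) : ZMod 2 := if v ∈ A then κ v + 1 else κ v

/-- Number of separated core edges at a vertex. -/
def dh (G : SimpleGraph V) (κ : V → ZMod 2) (v : V) : ℕ := #(univ.filter fun w => Hc G κ v w)

/-- Common separated neighbours. -/
def Cm (G : SimpleGraph V) (κ : V → ZMod 2) (u v : V) : Finset V :=
  univ.filter fun g => Hc G κ g u ∧ Hc G κ g v

/-- Prescribed pairs, prescribed unpaired edges and a forced unpaired edge. -/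
structure Pl (V : Type) where
  Tr : Finset (V × V × V)
  un : V → Option V
  hub : Option V

namespace Pl

variable (pl : Pl V)

/-- Edges that occur in the plan. -/
def Us (v w : V) : Prop := (∃ a, (v, w, a) ∈ pl.Tr ∨ (v, a, w) ∈ pl.Tr) ∨ pl.un v = some w

/-- Admissible plans. -/
structure Ok (G : SimpleGraph V) : Prop where
  tr : ∀ v a b, (v, a, b) ∈ pl.Tr → Co G v ∧ G.Adj v a ∧ G.Adj v b ∧ a ≠ b
  dis : ∀ v a b a' b', (v, a, b) ∈ pl.Tr → (v, a', b') ∈ pl.Tr →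
    (a = a' ∧ b = b') ∨ (a ≠ a' ∧ a ≠ b' ∧ b ≠ a' ∧ b ≠ b')
  un : ∀ v e, pl.un v = some e → Co G v ∧ Odd (dg G v) ∧ G.Adj v e ∧
    ∀ a, (v, e, a) ∉ pl.Tr ∧ (v, a, e) ∉ pl.Tr
  hub : ∀ y, pl.hub = some y → ∃ e, pl.un y = some e

/-- Free unseparated edges. -/
def Fr (G : SimpleGraph V) (κ : V → ZMod 2) (v : V) : Finset V :=
  (N G v).filter fun w => Fc G κ v w ∧ ¬pl.Us v w

/-- The other free edges. -/
def Hr (G : SimpleGraph V) (κ : V → ZMod 2) (v : V) : Finset V :=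
  (N G v).filter fun w => ¬Fc G κ v w ∧ ¬pl.Us v w

/-- The orientation follows the plan. -/
structure Od (G : SimpleGraph V) (κ : V → ZMod 2) (D : V → V → Prop) : Prop where
  tr : ∀ v a b, (v, a, b) ∈ pl.Tr → (D v a ↔ ¬D v b)
  un : ∀ v e, pl.un v = some e → (D v e ↔ #(Out D v) = (dg G v + 1) / 2)
  hub : ∀ y e, pl.hub = some y → pl.un y = some e → D e y
  fo : ∀ v, Co G v → #(pl.Fr G κ v) / 2 ≤ #((pl.Fr G κ v).filter fun w => D v w)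
  fi : ∀ v, Co G v → #(pl.Fr G κ v) / 2 ≤ #((pl.Fr G κ v).filter fun w => D w v)
  ho : ∀ v, Co G v → #(pl.Hr G κ v) / 2 ≤ #((pl.Hr G κ v).filter fun w => D v w)
  hi : ∀ v, Co G v → #(pl.Hr G κ v) / 2 ≤ #((pl.Hr G κ v).filter fun w => D w v)

/-- The plan does not touch the unseparated edges at `v`. -/
def Nat (G : SimpleGraph V) (κ : V → ZMod 2) (v : V) : Prop :=
  pl.un v = none ∧ ∀ w, pl.Us v w → ¬Fc G κ v w

end Pl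

namespace Sg

variable (s : Sg V)

/-- The root edge exists. -/
def Re : Prop := s.G.Adj s.z s.ρ

/-- The standing hypotheses. -/
structure Ok : Prop where
  iso : dg s.G s.h = 0
  deg : ∀ v, dg s.G v ≤ 1 ∨ 3 ≤ dg s.G v
  con : Con s.G
  two : TwoK s.G
  leaf : ∀ v, dg s.G v = 1 → v = s.z
  root : (N s.G s.z = {s.ρ} ∧ Co s.G s.ρ) ∨ (s.z = s.h ∧ s.ρ = s.h ∧ ∃ v, Co s.G v)

/-- The root vertex has a forbidden sum of its own parity. -/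
def Ur (κ : V → ZMod 2) (v : V) : Prop := v = s.ρ ∧ s.Re ∧ κ s.ρ = s.τ

/-- The slack of a vertex. -/
def t (κ : V → ZMod 2) (v : V) : ℤ :=
  tau s.G κ v - df s.G κ v - if s.Ur κ v then 2 else 0

/-- The cost of a change. -/
def Dl (κ : V → ZMod 2) (X : Finset V) : ℤ := H2.Dl s.G κ (s.t κ) (fun _ _ => 0) X

/-- The parity is right. -/
def PR (κ : V → ZMod 2) : Prop := ∑ v ∈ univ.filter (K s.G), κ v = if s.Re then s.γ else 0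

/-- No change gains more than one. -/
def TH (κ : V → ZMod 2) : Prop := ∀ X : Finset V, (∀ v ∈ X, Co s.G v) → -1 ≤ s.Dl κ X

/-- Good states with root class `j`. -/
def St (j : ZMod 2) (κ : V → ZMod 2) : Prop := s.PR κ ∧ s.TH κ ∧ κ s.ρ = j

/-- Rich states of the wrong parity. -/
def Rich (κ : V → ZMod 2) : Prop :=
  ¬s.PR κ ∧ ∀ v, Co s.G v → 0 ≤ s.t κ v ∧ (v ≠ s.ρ → 1 ≤ s.t κ v)

/-- Vertices in debt. -/
def Q (κ : V → ZMod 2) : Finset V := univ.filter fun v => Co s.G v ∧ s.t κ v < 0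

/-- Basic properties of an orientation. -/
structure Ob (D : V → V → Prop) : Prop where
  adj : ∀ u w, D u w → s.G.Adj u w
  ori : ∀ u w, s.G.Adj u w → (D u w ↔ ¬D w u)
  smooth : ∀ v, K s.G v → dg s.G v / 2 ≤ #(Out D v) ∧ #(Out D v) ≤ (dg s.G v + 1) / 2
  ori1 : s.Re → Ori s.G D s.z s.ρ
  ori0 : ¬s.Re → ∀ r, K s.G r → #(Out D r) = (dg s.G r + 1) / 2 →
    Ori s.G (fun u w => D u w ∨ (u = s.h ∧ w = r)) s.h r

/-- The context of a state and an orientation. -/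
def cx (κ : V → ZMod 2) (D : V → V → Prop) : Cx V := ⟨s.G, D, s.z, s.ρ, κ⟩

/-- A design exists. -/
def Dok (κ : V → ZMod 2) (D : V → V → Prop) : Prop :=
  ∃ d : Ds V, (s.cx κ D).Ok d ∧ d.Fx = ∅ ∧ (s.Ur κ s.ρ → s.ρ ∈ d.U)

/-- A state, an orientation and a design exist. -/
def Sol : Prop := ∃ κ D, s.PR κ ∧ s.Ob D ∧ s.Dok κ D

/-- The local conditions at one vertex. -/
structure Loc (κ : V → ZMod 2) (D : V → V → Prop) (v : V) : Prop where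
  n1 : 2 ≤ df s.G κ v → ((s.cx κ D).Fo v).Nonempty
  n3a : Odd (dg s.G v) → df s.G κ v = 1 → ∀ w ∈ (s.cx κ D).Fo v, df s.G κ w ≤ 2 →
    (s.cx κ D).To v
  n3b : (s.cx κ D).To v → dg s.G v = 3 → df s.G κ v = 1 → (s.cx κ D).Fi v = ∅

/-- The exceptional configuration, without orientation. -/
def Ec (κ : V → ZMod 2) (p w : V) : Prop :=
  Co s.G p ∧ Co s.G w ∧ κ p = 0 ∧ κ w = 0 ∧ p ≠ w ∧ ∃ B : Finset V, #B = 3 ∧
    (∀ y ∈ B, dg s.G y = 4 ∧ κ y = 1 ∧ df s.G κ y = 1 ∧ s.G.Adj p y ∧ s.G.Adj w y ∧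
      ∀ y' ∈ B, ¬s.G.Adj y y') ∧ s.Dl κ (insert p (insert w B)) ≤ -1

/-- No neighbour of a vertex in debt lies in an exceptional configuration. -/
def NoE (κ : V → ZMod 2) : Prop := ∀ x ∈ s.Q κ, ∀ g w, Hc s.G κ g x → ¬s.Ec κ g w

/-- The data of a certificate. -/
structure Cd (V : Type) where
  P : Finset (V × V)
  v₀ : Option V
  big : Option V
  Sx : Finset V
  oc : V → V

variable (κ : V → ZMod 2) (D : V → V → Prop) (e : Cd V)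

/-- Payments coming in. -/
def pin (_ : Sg V) (e : Cd V) (v : V) : ℕ := #(e.P.filter fun a => a.2 = v)

/-- Payments going out. -/
def pout (_ : Sg V) (e : Cd V) (v : V) : ℕ := #(e.P.filter fun a => a.1 = v)

/-- Usable arcs coming in. -/
def ig (v : V) : Finset V := univ.filter fun a => D a v ∧ ¬Fc s.G κ v a ∧ (a, v) ∉ e.P

/-- Vertices with a prescribed main arc. -/
def Pi : Finset V := univ.filter fun v => (s.cx κ D).Neg v ∧ (s.cx κ D).Yc v ∧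
  ¬(v = s.ρ ∧ s.Re) ∧ (s.ig κ D e v = ∅ ∨ (#((s.cx κ D).Fo v) ≤ 1 ∧
    ¬(e.v₀ = some v ∧ (κ v = 1 → ∀ w ∈ (s.cx κ D).Fo v, 2 ≤ df s.G κ w))))

/-- The certificate for good states. -/
structure Cj : Prop where
  th : s.TH κ
  loc : ∀ v, Co s.G v → s.Loc κ D v
  pa : ∀ a ∈ e.P, D a.1 a.2 ∧ Hc s.G κ a.1 a.2 ∧ 1 ≤ s.t κ a.1 ∧ s.t κ a.2 ≤ 0
  po : ∀ v, s.pout e v ≤ 1
  pn : ∀ v, s.pin e v ≤ 1
  mem : ∀ v ∈ s.Q κ, s.pin e v = 1 ∨ e.v₀ = some v ∨ e.big = some v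
  v0 : ∀ v, e.v₀ = some v → v ∈ s.Q κ ∧ s.pin e v = 0
  hd : ∀ a ∈ e.P, ¬(s.cx κ D).Neg a.2 → (s.cx κ D).Yc a.2 → (s.ig κ D e a.2).Nonempty ∧
    (df s.G κ a.2 ≠ 1 ∨ ∀ w ∈ (s.cx κ D).Fo a.2, 2 ≤ df s.G κ w ∧ s.pin e w = 0)
  p2 : #(s.Pi κ D e) ≤ 2
  fi : ∀ v ∈ s.Pi κ D e, e.oc v ∈ (s.cx κ D).Fo v ∧ #((s.cx κ D).Fi v) ≤ 2 ∧
    (s.pin e v = 1 → ((s.cx κ D).Fi v).Nonempty)
  hv : ∀ f ∈ s.Pi κ D e, κ f = 0 → 0 ≤ s.t κ (e.oc f) → ∀ x ∈ s.Pi κ D e, x ≠ f →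
    s.t κ (e.oc x) < 0 ∧ (e.oc x = f → s.pin e x = 0)
  sx : ∀ p ∈ e.Sx, Co s.G p ∧ 1 ≤ s.t κ p ∧ s.pout e p = 0
  sf : ∀ p, p ∈ e.Sx ∨ s.pout e p = 1 → κ p = 0 → (∀ w, ¬s.Ec κ p w) ∧
    ∀ y, (s.cx κ D).Neg y → κ y = 0 → ¬(s.cx κ D).Yc y ∨ (y = s.ρ ∧ s.Re)
  nb : ∀ u, ∀ w ∈ (s.cx κ D).Fo u, df s.G κ u = 1 → df s.G κ w = 1 → dg s.G u = 4 → κ u = 0 →
    s.pout e u = 1 → (1 ≤ s.t κ w ∧ s.pout e w = 0) ∨ 2 ≤ s.t κ w ∨ s.Ur κ w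
  bg : ∀ b, e.big = some b → b ∈ s.Q κ ∧ ¬(s.cx κ D).Yc b ∧ e.v₀ ≠ some b ∧
    2 ≤ #((s.cx κ D).Fo b) ∧ 3 ≤ df s.G κ b ∧ s.Pi κ D e = ∅ ∧
    #(((s.cx κ D).Fo b).filter fun w => df s.G κ w = 1) ≤ 1 ∧
    ∀ X : Finset V, b ∈ X → (∀ v ∈ X, ∀ w, Fc s.G κ v w → w ∈ X) →
      ∃ v ∈ X, v ∈ e.Sx ∨ (0 ≤ s.t κ v ∧ s.pin e v = 1)

/-- A harmless donor. -/
def Nbi (κ : V → ZMod 2) (S : Set V) (g : V) : Prop :=
  dg s.G g = 4 → κ g = 0 → df s.G κ g = 1 → ∀ w, Fc s.G κ g w → df s.G κ w = 1 →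
    (1 ≤ s.t κ w ∧ w ∉ S) ∨ 2 ≤ s.t κ w ∨ s.Ur κ w

/-- A trail through `m` vertices in debt. -/
structure Trl (κ : V → ZMod 2) (m : ℕ) (x u : ℕ → V) : Prop where
  mem : ∀ i, 1 ≤ i → i ≤ m → x i ∈ s.Q κ
  xi : ∀ i k, 1 ≤ i → i ≤ m → 1 ≤ k → k ≤ m → x i = x k → i = k
  ui : ∀ i k, 1 ≤ i → i < m → 1 ≤ k → k < m → u i = u k → i = k
  adj : ∀ i, 1 ≤ i → i < m → Hc s.G κ (u i) (x i) ∧ Hc s.G κ (u i) (x (i + 1))
  nb : ∀ i, 1 ≤ i → i < m → s.Nbi κ {w | ∃ k, k ≤ m ∧ w = u k} (u i)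

/-- First kind: the trail passes all vertices in debt. -/
def T1 (κ : V → ZMod 2) : Prop := s.ρ ∉ s.Q κ ∧ ∃ x u, s.Trl κ #(s.Q κ) x u

/-- Second kind: donors at both ends. -/
def T2 (κ : V → ZMod 2) : Prop := ∃ m x u, m + 1 = #(s.Q κ) ∧ s.Trl κ m x u ∧
  (∀ i, 1 ≤ i → i ≤ m → x i ≠ s.ρ) ∧ Hc s.G κ (u 0) (x 1) ∧ Hc s.G κ (u m) (x m) ∧
  (∀ i, 1 ≤ i → i < m → u 0 ≠ u i ∧ u m ≠ u i) ∧ m ≤ dh s.G κ (x 1) ∧ m ≤ dh s.G κ (x m) ∧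
  (u 0 = u m → s.Nbi κ {w | ∃ k, k ≤ m ∧ w = u k} (u 0))

/-- Third kind: a donor at the start and an odd vertex at the end. -/
def T3 (κ : V → ZMod 2) : Prop := ∃ m x u, m + 1 = #(s.Q κ) ∧ s.Trl κ m x u ∧
  Hc s.G κ (u 0) (x 1) ∧ (∀ i, 1 ≤ i → i < m → u 0 ≠ u i) ∧ m ≤ dh s.G κ (x 1) ∧
  Odd (dg s.G (x m)) ∧ x m ≠ s.ρ

/-- The root vertex has degree four, class zero and no forbidden sum of its parity. -/
def SP (j : ZMod 2) : Prop := s.Re ∧ dg s.G s.ρ = 4 ∧ j = 0 ∧ s.τ ≠ 0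

/-- Lower bound for the number of vertices in debt. -/
def Mn (j : ZMod 2) (m : ℕ) : Prop :=
  ∀ κ, s.St j κ → m ≤ #(s.Q κ) ∨ (s.SP j ∧ s.ρ ∈ s.Q κ)

end Sg

/-- Row ORI3. -/
def SOri3 : Prop := ∀ (V : Type) [Fintype V] (s : Sg V) (κ : V → ZMod 2) (pl : Pl V), s.Ok →
  pl.Ok s.G → ∃ D, s.Ob D ∧ pl.Od s.G κ D

/-- Row NAT. -/
def SNat : Prop := ∀ (V : Type) [Fintype V] (s : Sg V) (κ : V → ZMod 2) (pl : Pl V)
  (D : V → V → Prop) (v : V), s.Ok → pl.Ok s.G → s.Ob D → pl.Od s.G κ D → Co s.G v →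
  pl.Nat s.G κ v → s.Loc κ D v ∧ df s.G κ v / 2 ≤ #((s.cx κ D).Fo v) ∧
    df s.G κ v / 2 ≤ #((s.cx κ D).Fi v) ∧
    (dg s.G v - df s.G κ v) / 2 ≤ #(univ.filter fun a => D a v ∧ ¬Fc s.G κ v a)

/-- Row FIN1. -/
def SFin1 : Prop := SGen → SBlev2 → ∀ (V : Type) [Fintype V] (s : Sg V) (γ τ : ℕ), s.Ok →
  1 ≤ γ → γ ≤ 4 → s.γ = γ → s.τ = τ → s.Sol → Goal s.G s.z s.ρ γ τ

/-- Row FLIP. -/
def SFlip : Prop := ∀ (V : Type) [Fintype V] (s : Sg V) (κ : V → ZMod 2) (A : Finset V), s.Ok →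
  (∀ v ∈ A, Co s.G v) →
  (∀ v, Co s.G v → s.t (flp κ A) v =
    if v ∈ A then -1 - (if v = s.ρ then 1 else 0) - s.t κ v - #(A.filter (Fc s.G κ v)) +
      #(A.filter (Hc s.G κ v))
    else s.t κ v + #(A.filter (Fc s.G κ v)) - #(A.filter (Hc s.G κ v))) ∧
  ∀ j, s.St j κ → s.ρ ∉ A → s.Dl κ A = 0 → s.St j (flp κ A)

/-- Row EXIST. -/
def SExist : Prop := ∀ (V : Type) [Fintype V] (s : Sg V), s.Ok →
  (∃ j κ, s.St j κ) ∨ ∃ κ, s.Rich κ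

/-- Row CJ. -/
def SCj : Prop := ∀ (V : Type) [Fintype V] (s : Sg V) (κ : V → ZMod 2) (D : V → V → Prop)
  (e : Sg.Cd V), s.Ok → s.Ob D → s.Cj κ D e → s.Dok κ D

/-- Row NJ. -/
def SNj : Prop := SOri3 → SNat → SFlip → ∀ (V : Type) [Fintype V] (s : Sg V) (κ : V → ZMod 2),
  s.Ok → s.Rich κ → s.Sol

/-- The tools of the designs. -/
def Tools : Prop := SOri3 ∧ SNat ∧ SCj

/-- Row J1. -/
def SJ1 : Prop := Tools → ∀ (V : Type) [Fintype V] (s : Sg V) (j : ZMod 2) (κ : V → ZMod 2),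
  s.Ok → s.St j κ → #(s.Q κ) ≤ 1 → s.Sol

/-- Row JHUB. -/
def SJhub : Prop := Tools → ∀ (V : Type) [Fintype V] (s : Sg V) (j : ZMod 2) (κ : V → ZMod 2)
  (x y : V), s.Ok → s.St j κ → s.Q κ = {x, y} → x ≠ y → s.NoE κ → Odd (dg s.G x) → x ≠ s.ρ →
  s.Sol

/-- Row JPAIR. -/
def SJpair : Prop := Tools → ∀ (V : Type) [Fintype V] (s : Sg V) (j : ZMod 2) (κ : V → ZMod 2)
  (x y : V), s.Ok → s.St j κ → s.Q κ = {x, y} → x ≠ y → s.NoE κ → 2 ≤ dh s.G κ x →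
  x = s.ρ ∨ y = s.ρ ∨ (Even (dg s.G x) ∧ Even (dg s.G y)) → s.Sol

/-- Row JLINK. -/
def SJlink : Prop := Tools → ∀ (V : Type) [Fintype V] (s : Sg V) (j : ZMod 2) (κ : V → ZMod 2)
  (x y : V), s.Ok → s.St j κ → s.Q κ = {x, y} → x ≠ y → x ≠ s.ρ → dg s.G x = 4 → κ x = 0 →
  (y ≠ s.ρ ∧ dg s.G y = 4) ∨ (y = s.ρ ∧ dh s.G κ y ≤ 1 ∧ dg s.G y ≠ 4) → s.Sol

/-- Row JBIG. -/
def SJbig : Prop := Tools → ∀ (V : Type) [Fintype V] (s : Sg V) (j : ZMod 2) (κ : V → ZMod 2)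
  (x : V), s.Ok → s.St j κ → s.Q κ = {x, s.ρ} → x ≠ s.ρ → dg s.G x = 4 → κ x = 0 →
  dg s.G s.ρ = 4 → dh s.G κ s.ρ = 0 →
  (∀ v, Co s.G v → s.t κ v = 0 → Fc s.G κ x v) → s.Sol

/-- Row JT1. -/
def SJt1 : Prop := Tools → ∀ (V : Type) [Fintype V] (s : Sg V) (j : ZMod 2) (κ : V → ZMod 2),
  s.Ok → s.St j κ → 3 ≤ #(s.Q κ) → s.NoE κ → s.T1 κ → s.Sol

/-- Row JT2. -/
def SJt2 : Prop := Tools → ∀ (V : Type) [Fintype V] (s : Sg V) (j : ZMod 2) (κ : V → ZMod 2),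
  s.Ok → s.St j κ → 3 ≤ #(s.Q κ) → s.NoE κ → s.T2 κ → s.Sol

/-- Row JT3. -/
def SJt3 : Prop := Tools → ∀ (V : Type) [Fintype V] (s : Sg V) (j : ZMod 2) (κ : V → ZMod 2),
  s.Ok → s.St j κ → 3 ≤ #(s.Q κ) → s.NoE κ → s.T3 κ → s.Sol

end

end Pool.Agent.MP_d1f1f3_co.H2
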