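import Pool.Agent.MP_d1f1f3_co.H2.Spec3

/-!
Graphs without vertices of degree two and with at most one leaf: the choice of the state.
-/

namespace Pool.Agent.MP_d1f1f3_co.H2

open Finset Relation H47
open scoped Classical

noncomputable section

variable {V : Type} [Fintype V]

/-- A triangle of vertices of degree three with a common neighbour. -/
def K4h (G : SimpleGraph V) : Prop := ∃ a b c d, G.Adj a b ∧ G.Adj a c ∧ G.Adj b c ∧ G.Adj a d ∧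
  G.Adj b d ∧ G.Adj c d ∧ dg G a = 3 ∧ dg G b = 3 ∧ dg G c = 3

/-- Four pairwise adjacent vertices of small degree. -/
def K4b (G : SimpleGraph V) : Prop := ∃ a b c d, G.Adj a b ∧ G.Adj a c ∧ G.Adj b c ∧ G.Adj a d ∧
  G.Adj b d ∧ G.Adj c d ∧ dg G a = 4 ∧ dg G b = 4 ∧ dg G c = 4 ∧ 4 ≤ dg G d ∧ dg G d ≤ 6

/-- A clique of even order attached at one vertex with three further edges. -/
def Kv2 (G : SimpleGraph V) : Prop := ∃ (C : Finset V) (r : V), r ∈ C ∧ Even #C ∧ 6 ≤ #C ∧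
  (∀ u ∈ C, ∀ w ∈ C, u ≠ w → G.Adj u w) ∧ (∀ v ∈ C, v ≠ r → N G v ⊆ C) ∧ #(N G r \ C) = 3

/-- The core is a clique of even order. -/
def Kve (G : SimpleGraph V) : Prop := (∀ u w, K G u → K G w → u ≠ w → G.Adj u w) ∧
  Even #(univ.filter (K G)) ∧ 6 ≤ #(univ.filter (K G))

namespace Sg

variable (s : Sg V)

/-- A design or a special configuration exists. -/
def Fin : Prop := s.Sol ∨ K4h s.G ∨ K4b s.G ∨ Kv2 s.G ∨ Kve s.G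

/-- A good state with a trail. -/
def Trs (j : ZMod 2) : Prop := ∃ κ, s.St j κ ∧ 3 ≤ #(s.Q κ) ∧ (s.T1 κ ∨ s.T2 κ ∨ s.T3 κ)

/-- A trail or a special configuration exists. -/
def Fin3 (j : ZMod 2) : Prop := s.Trs j ∨ K4h s.G ∨ K4b s.G ∨ Kv2 s.G ∨ Kve s.G

/-- The minimum is attained without the root vertex. -/
def CA (j : ZMod 2) (m : ℕ) : Prop :=
  3 ≤ m ∧ s.Mn j m ∧ ∃ κ, s.St j κ ∧ s.ρ ∉ s.Q κ ∧ #(s.Q κ) = m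

/-- The minimum is attained only with the root vertex. -/
def CB (j : ZMod 2) (m : ℕ) : Prop :=
  3 ≤ m ∧ s.Mn j m ∧ (∀ κ, s.St j κ → s.ρ ∉ s.Q κ → m + 1 ≤ #(s.Q κ)) ∧
    ∃ κ, s.St j κ ∧ s.ρ ∈ s.Q κ ∧ #(s.Q κ) = m

/-- A vertex of degree four and class zero with one unseparated edge. -/
def N41 (κ : V → ZMod 2) (g : V) : Prop := dg s.G g = 4 ∧ κ g = 0 ∧ df s.G κ g = 1

/-- No such vertex other than the root vertex sees two vertices in debt. -/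
def NBa (κ : V → ZMod 2) : Prop :=
  ∀ x ∈ s.Q κ, ∀ y ∈ s.Q κ, x ≠ y → ∀ g ∈ Cm s.G κ x y, g ≠ s.ρ → ¬s.N41 κ g

/-- The root vertex is such a vertex and sees two vertices in debt. -/
def Br (κ : V → ZMod 2) : Prop :=
  s.N41 κ s.ρ ∧ ∃ x ∈ s.Q κ, ∃ y ∈ s.Q κ, x ≠ y ∧ s.ρ ∈ Cm s.G κ x y

/-- All pairs have the same small set of common donors. -/
structure Zs (j : ZMod 2) (κ : V → ZMod 2) (D : Finset V) : Prop where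
  st : s.St j κ
  three : 3 ≤ #(s.Q κ)
  nr : s.ρ ∉ s.Q κ
  card : #D + 2 = #(s.Q κ)
  cm : ∀ x ∈ s.Q κ, ∀ y ∈ s.Q κ, x ≠ y → Cm s.G κ x y = D
  one : ∀ g ∈ D, s.t κ g = 1

/-- Basic facts on good states. -/
structure Bas (j : ZMod 2) (κ : V → ZMod 2) : Prop where
  low : ∀ v, Co s.G v → -1 ≤ s.t κ v
  clq : ∀ x ∈ s.Q κ, ∀ y ∈ s.Q κ, x ≠ y → Fc s.G κ x y
  don : ∀ x ∈ s.Q κ, ∀ g, Hc s.G κ g x → 1 ≤ s.t κ g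
  sum : ∀ v, Co s.G v → df s.G κ v + dh s.G κ v + (if v = s.ρ then 1 else 0) = dg s.G v
  pf : ∀ x ∈ s.Q κ, ∀ y ∈ s.Q κ, x ≠ y → x ≠ s.ρ → y ≠ s.ρ → s.St j (flp κ {x, y}) ∧
    s.Q (flp κ {x, y}) = insert x (insert y ((Cm s.G κ x y).filter fun g => s.t κ g = 1))
  sw : ∀ x ∈ s.Q κ, ∀ v, Co s.G v → x ≠ s.ρ → v ≠ s.ρ →
    (s.t κ v = 0 ∧ ¬s.G.Adj x v) ∨ (s.t κ v = 1 ∧ Hc s.G κ v x) →
    s.St j (flp κ {x, v}) ∧ v ∈ s.Q (flp κ {x, v}) ∧ x ∉ s.Q (flp κ {x, v})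
  typ : ∀ x ∈ s.Q κ, x ≠ s.ρ → ∃ k : ℕ,
    (dg s.G x = 2 * k + 1 ∧ df s.G κ x = k + 1 ∧ dh s.G κ x = k) ∨
    (dg s.G x = 2 * k ∧ κ x = k ∧ df s.G κ x = k + 1 ∧ dh s.G κ x + 1 = k) ∨
    (dg s.G x = 2 * k ∧ κ x = k + 1 ∧ df s.G κ x = k ∧ dh s.G κ x = k)

end Sg

/-- Row BAS. -/
def SBas : Prop := SFlip → ∀ (V : Type) [Fintype V] (s : Sg V) (j : ZMod 2) (κ : V → ZMod 2),
  s.Ok → s.St j κ → s.Bas j κ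

/-- The basic facts. -/
def Base : Prop := SFlip ∧ ∀ (V : Type) [Fintype V] (s : Sg V) (j : ZMod 2) (κ : V → ZMod 2),
  s.Ok → s.St j κ → s.Bas j κ

/-- Row E: the exceptional configuration does not occur. -/
def SNoE : Prop := Base → ∀ (V : Type) [Fintype V] (s : Sg V) (j : ZMod 2) (κ : V → ZMod 2),
  s.Ok → s.St j κ → 3 ≤ #(s.Q κ) ∨ (∀ x ∈ s.Q κ, κ x = 0) ∨
    (#(s.Q κ) = 2 ∧ s.ρ ∉ s.Q κ ∧ ∀ κ', s.St j κ' → s.ρ ∉ s.Q κ' → 2 ≤ #(s.Q κ') ∧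
      (#(s.Q κ') = 2 → ∀ x ∈ s.Q κ', κ' x = 1)) ∨
    (#(s.Q κ) = 2 ∧ s.ρ ∈ s.Q κ ∧ ∀ κ', s.St j κ' → s.ρ ∉ s.Q κ' → 3 ≤ #(s.Q κ')) → s.NoE κ

/-- Row NB1. -/
def SNb1 : Prop := Base → ∀ (V : Type) [Fintype V] (s : Sg V) (j : ZMod 2) (κ : V → ZMod 2)
  (m : ℕ) (x y g : V), s.Ok → s.St j κ → 3 ≤ m → s.Mn j m → x ∈ s.Q κ → y ∈ s.Q κ → x ≠ y →
  x ≠ s.ρ → y ≠ s.ρ → g ∈ Cm s.G κ x y → g ≠ s.ρ → s.N41 κ g → m = 3 ∧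
    ∃ w ∈ s.Q κ, w ≠ x ∧ w ≠ y ∧ Hc s.G κ g w ∧ s.St j (flp κ {x, g}) ∧
      s.Q (flp κ {x, g}) = {g, y, w}

/-- Row SDR, first part. -/
def SSdr : Prop := ∀ (V : Type) (Q : Finset V) (C : V → V → Finset V), 3 ≤ #Q →
  (∀ u v, C u v = C v u) → (∀ u ∈ Q, ∀ v ∈ Q, u ≠ v → #Q ≤ #(C u v) + 2) →
  (∃ x u : ℕ → V, (∀ i, 1 ≤ i → i ≤ #Q → x i ∈ Q) ∧
    (∀ i k, 1 ≤ i → i ≤ #Q → 1 ≤ k → k ≤ #Q → x i = x k → i = k) ∧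
    (∀ i k, 1 ≤ i → i < #Q → 1 ≤ k → k < #Q → u i = u k → i = k) ∧
    (∀ i, 1 ≤ i → i < #Q → u i ∈ C (x i) (x (i + 1))) ∧ u 0 = u 1 ∧ u #Q = u 1) ∨
  ∃ D : Finset V, #D + 2 = #Q ∧ ∀ u ∈ Q, ∀ v ∈ Q, u ≠ v → C u v = D

/-- Row SDR, second part: `g` and `g'` are placed at the ends. -/
def SEnum : Prop := ∀ (V : Type) (Q : Finset V) (C : V → V → Finset V) (a b g : V),
  a ∈ Q → b ∈ Q → a ≠ b → (∀ u ∈ Q, ∀ v ∈ Q, u ≠ v → #Q ≤ #(C u v) + 1) →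
  ∃ x u : ℕ → V, x 1 = a ∧ x #Q = b ∧ (∀ i, 1 ≤ i → i ≤ #Q → x i ∈ Q) ∧
    (∀ i k, 1 ≤ i → i ≤ #Q → 1 ≤ k → k ≤ #Q → x i = x k → i = k) ∧
    (∀ i k, 1 ≤ i → i < #Q → 1 ≤ k → k < #Q → u i = u k → i = k) ∧
    (∀ i, 1 ≤ i → i < #Q → u i ∈ C (x i) (x (i + 1))) ∧ u 0 = g ∧
    ∀ S : Finset V, #Q ≤ #S → ∃ g' ∈ S, ∀ i, 1 ≤ i → i < #Q → g' ≠ u i

/-- The tools for the choice of the state. -/
def Tl3 : Prop := Base ∧ SNb1 ∧ SSdr ∧ SEnum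

/-- Row TREE2. -/
def STree2 : Prop := Base → SNoE → Tools → SJ1 → SJhub → SJpair → SJlink → SJbig →
  ∀ (V : Type) [Fintype V] (s : Sg V) (j : ZMod 2), s.Ok → (∃ κ, s.St j κ) →
    s.Sol ∨ ∃ m, s.CA j m ∨ s.CB j m

/-- Row CB. -/
def SCb : Prop := Tl3 → ∀ (V : Type) [Fintype V] (s : Sg V) (j : ZMod 2) (m : ℕ), s.Ok →
  s.CB j m → s.Fin3 j

/-- Row BR. -/
def SBr : Prop := Tl3 → ∀ (V : Type) [Fintype V] (s : Sg V) (j : ZMod 2) (κ : V → ZMod 2),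
  s.Ok → s.St j κ → 3 ≤ #(s.Q κ) → s.Mn j #(s.Q κ) → s.ρ ∉ s.Q κ → s.NBa κ → s.Br κ → s.Trs j

/-- Row HS. -/
def SHs : Prop := Tl3 → ∀ (V : Type) [Fintype V] (s : Sg V) (j : ZMod 2) (κ : V → ZMod 2),
  s.Ok → s.St j κ → 3 ≤ #(s.Q κ) → s.Mn j #(s.Q κ) → s.ρ ∉ s.Q κ → s.NBa κ → ¬s.Br κ →
    s.Trs j ∨ ∃ D, s.Zs j κ D ∧ (∀ x ∈ s.Q κ, ∀ y ∈ s.Q κ, x ≠ y → #D < dh s.G κ x →
      dh s.G κ y = #D ∧ Even (dg s.G y))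

/-- Row ZN. -/
def SZn : Prop := Tl3 → ∀ (V : Type) [Fintype V] (s : Sg V) (j : ZMod 2) (κ : V → ZMod 2)
  (D : Finset V) (u v : V), s.Ok → s.Zs j κ D → u ∈ s.Q κ → v ∈ s.Q κ → u ≠ v →
  dh s.G κ u = #D → dh s.G κ v = #D → Even (dg s.G u) →
  (∀ g ∈ s.Q κ, g ≠ u → g ≠ v → dg s.G g = 4 → κ g = 0 → ∀ w, Fc s.G κ g w → w ∉ s.Q κ →
    df s.G (flp κ {u, v}) w = 1 → (1 ≤ s.t κ w ∧ ¬s.G.Adj w u ∧ ¬s.G.Adj w v) ∨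
      (s.G.Adj w u ∧ s.G.Adj w v)) → s.Trs j

/-- Row ZC. -/
def SZc : Prop := Tl3 → ∀ (V : Type) [Fintype V] (s : Sg V) (j : ZMod 2) (κ : V → ZMod 2)
  (D : Finset V), s.Ok → s.Zs j κ D → 4 ≤ #(s.Q κ) →
  (∀ x ∈ s.Q κ, dh s.G κ x = #D ∧ Odd (dg s.G x)) → s.Fin3 j

/-- Row CA. -/
def SCa : Prop := Tl3 → SBr → SHs → SZn → SZc → ∀ (V : Type) [Fintype V] (s : Sg V) (j : ZMod 2)
  (m : ℕ), s.Ok → s.CA j m → s.Fin3 j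

/-- Row TOP1. -/
def STop1 : Prop := ∀ (V : Type) [Fintype V] (s : Sg V), s.Ok → s.Fin

end

end Pool.Agent.MP_d1f1f3_co.H2
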