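import Pool.Agent.MP_d1f1f3_co.H2.Spec4

/-!
The choice of the state: at most two vertices in debt.
-/

namespace Pool.Agent.MP_d1f1f3_co.H2

open Finset Relation H47
open scoped Classical

namespace Tree2

variable {V : Type} [Fintype V] {s : Sg V} {j : ZMod 2} {κ : V → ZMod 2} {x : V}

theorem n4 (b : s.Bas j κ) (hx : x ∈ s.Q κ) (r : x ≠ s.ρ) (e : ¬Odd (dg s.G x))
    (d : ¬2 ≤ dh s.G κ x) : dg s.G x = 4 ∧ κ x = 0 := by
  have c : 3 ≤ dg s.G x := (mem_filter.1 hx).2.1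
  obtain ⟨k, h | h | h⟩ := b.typ x hx r
  · exact (e ⟨k, h.1⟩).elim
  · obtain rfl : k = 2 := by omega
    exact ⟨h.1, h.2.1⟩
  · omega

theorem sp (o : s.Ok) (h : s.St j κ) (b : s.Bas j κ) (hr : s.ρ ∈ s.Q κ) (k : κ s.ρ = 0)
    (d : dg s.G s.ρ = 4) (e : ¬2 ≤ dh s.G κ s.ρ) : s.SP j ∧ dh s.G κ s.ρ = 0 := by
  obtain ⟨c, t⟩ := (mem_filter.1 hr).2
  have re : s.Re := by
    rcases o.root with r | r
    · exact (mem_filter.1 (r.1.ge (mem_singleton_self _))).2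
    · have := o.iso
      rw [← r.2.1] at this
      omega
  have l := b.low _ c
  have u := b.sum _ c
  rw [if_pos rfl] at u
  rw [Sg.t, tau, d, if_neg fun w : Wv _ _ _ => w.2.2 (by rw [d, k]; rfl)] at t l
  split_ifs at t l with w
  · omega
  · exact ⟨⟨re, d, h.2.2.symm.trans k, fun a => w ⟨rfl, re, k.trans a.symm⟩⟩, by omega⟩

end Tree2

open Tree2 in
theorem tree2 : STree2 := by
  intro hB hE hT j1 jh jp jl jb V _ s j o ⟨κ₀, h₀⟩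
  have B := fun κ => hB.2 V s j κ o
  have z : ∀ a : ZMod 2, a ≠ 0 → a = 1 := by decide
  by_cases c1 : ∃ κ, s.St j κ ∧ #(s.Q κ) ≤ 1
  · obtain ⟨κ, h, q⟩ := c1
    exact Or.inl (j1 hT V s j κ o h q)
  push Not at c1
  by_cases c2 : ∃ κ, s.St j κ ∧ #(s.Q κ) = 2 ∧ s.ρ ∉ s.Q κ
  · obtain ⟨κ, h, q, r, n⟩ : ∃ κ, s.St j κ ∧ #(s.Q κ) = 2 ∧ s.ρ ∉ s.Q κ ∧ s.NoE κ := by
      by_cases c : ∃ κ, s.St j κ ∧ #(s.Q κ) = 2 ∧ s.ρ ∉ s.Q κ ∧ ∃ x ∈ s.Q κ, κ x = 0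
      · obtain ⟨κ, h, q, r, x, hx, k⟩ := c
        refine ⟨κ, h, q, r, hE hB V s j κ o h (Or.inr (Or.inl fun y hy => ?_))⟩
        rcases eq_or_ne y x with rfl | e
        exacts [k, ((B κ h).clq y hy x hx e).2.2.2.trans k]
      · obtain ⟨κ, h, q, r⟩ := c2
        exact ⟨κ, h, q, r, hE hB V s j κ o h (Or.inr (Or.inr (Or.inl ⟨q, r, fun κ' h' r' =>
          ⟨c1 κ' h', fun q' x hx => z _ fun k => c ⟨κ', h', q', r', x, hx, k⟩⟩⟩)))⟩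
    obtain ⟨x, y, e, q⟩ := card_eq_two.1 q
    have q' := q.trans (pair_comm x y)
    have hx : x ∈ s.Q κ := q ▸ mem_insert_self _ _
    have hy : y ∈ s.Q κ := q' ▸ mem_insert_self _ _
    have rx : x ≠ s.ρ := fun a => r (a ▸ hx)
    have ry : y ≠ s.ρ := fun a => r (a ▸ hy)
    left
    by_cases ox : Odd (dg s.G x)
    · exact jh hT V s j κ x y o h q e n ox rx
    by_cases oy : Odd (dg s.G y)
    · exact jh hT V s j κ y x o h q' e.symm n oy ry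
    have ex := Nat.not_odd_iff_even.1 ox
    have ey := Nat.not_odd_iff_even.1 oy
    by_cases dx : 2 ≤ dh s.G κ x
    · exact jp hT V s j κ x y o h q e n dx (Or.inr (Or.inr ⟨ex, ey⟩))
    by_cases dy : 2 ≤ dh s.G κ y
    · exact jp hT V s j κ y x o h q' e.symm n dy (Or.inr (Or.inr ⟨ey, ex⟩))
    have a := n4 (B κ h) hx rx ox dx
    exact jl hT V s j κ x y o h q e rx a.1 a.2 (Or.inl ⟨ry, (n4 (B κ h) hy ry oy dy).1⟩)
  have c3 : ∀ κ, s.St j κ → s.ρ ∉ s.Q κ → 3 ≤ #(s.Q κ) := fun κ h r =>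
    lt_of_le_of_ne' (c1 κ h) fun q => c2 ⟨κ, h, q, r⟩
  by_cases c4 : ∃ κ, s.St j κ ∧ #(s.Q κ) = 2
  · obtain ⟨κ, h, q⟩ := c4
    have r : s.ρ ∈ s.Q κ := by_contra fun r => c2 ⟨κ, h, q, r⟩
    have n := hE hB V s j κ o h (Or.inr (Or.inr (Or.inr ⟨q, r, c3⟩)))
    obtain ⟨x, e, q⟩ : ∃ x, x ≠ s.ρ ∧ s.Q κ = {x, s.ρ} := by
      obtain ⟨x, y, e, q⟩ := card_eq_two.1 q
      rw [q, mem_insert, mem_singleton] at r
      rcases r with r | r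
      exacts [⟨y, r ▸ e.symm, r ▸ q.trans (pair_comm _ _)⟩, ⟨x, r ▸ e, r ▸ q⟩]
    have hx : x ∈ s.Q κ := q ▸ mem_insert_self _ _
    have b := B κ h
    by_cases dr : 2 ≤ dh s.G κ s.ρ
    · exact Or.inl (jp hT V s j κ _ x o h (q.trans (pair_comm _ _)) e.symm n dr (Or.inl rfl))
    by_cases ox : Odd (dg s.G x)
    · exact Or.inl (jh hT V s j κ x _ o h q e n ox e)
    by_cases dx : 2 ≤ dh s.G κ x
    · exact Or.inl (jp hT V s j κ x _ o h q e n dx (Or.inr (Or.inl rfl)))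
    obtain ⟨a, k⟩ := n4 b hx e ox dx
    by_cases d4 : dg s.G s.ρ = 4
    swap
    · exact Or.inl (jl hT V s j κ x _ o h q e e a k (Or.inr ⟨rfl, by omega, d4⟩))
    have f := b.clq _ r x hx e.symm
    obtain ⟨p, d0⟩ := sp o h b r (f.2.2.2.trans k) d4 dr
    by_cases c5 : ∃ m κ, s.St j κ ∧ s.ρ ∉ s.Q κ ∧ #(s.Q κ) = m
    · obtain ⟨κ', h', r', q'⟩ := Nat.find_spec c5
      exact Or.inr ⟨_, Or.inl ⟨q' ▸ c3 κ' h' r', fun κ h => (em _).symm.imp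
        (fun r => Nat.find_min' c5 ⟨κ, h, r, rfl⟩) fun r => ⟨p, r⟩, κ', h', r', q'⟩⟩
    refine Or.inl (jb hT V s j κ x o h q e a k d4 d0 fun v cv t => by_contra fun nf => ?_)
    have cx : Co s.G x := f.2.2.1
    have vr : v ≠ s.ρ := fun a => by
      have := (mem_filter.1 r).2.2
      rw [← a] at this
      omega
    have w := (b.sw x hx v cv e vr (Or.inl ⟨t, fun a => by
      have := b.don x hx v ⟨a.symm, cv, cx, fun k => nf ⟨a, cx, cv, k.symm⟩⟩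
      omega⟩)).1
    refine c5 ⟨_, _, w, fun r' => ?_, rfl⟩
    have t' := (mem_filter.1 r').2.2
    rw [(hB.1 V s κ {x, v} o (by simp [cx, cv])).1 _ f.2.1, if_neg (by simp [e.symm, vr.symm])] at t'
    have l := b.low _ f.2.1
    have l1 : 1 ≤ #(({x, v} : Finset V).filter (Fc s.G κ s.ρ)) :=
      card_pos.2 ⟨x, mem_filter.2 ⟨mem_insert_self _ _, f⟩⟩
    have l2 : #(({x, v} : Finset V).filter (Hc s.G κ s.ρ)) ≤ dh s.G κ s.ρ :=
      card_le_card (filter_subset_filter _ (subset_univ _))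
    omega
  have c6 : ∃ m κ, s.St j κ ∧ #(s.Q κ) = m := ⟨_, κ₀, h₀, rfl⟩
  obtain ⟨κ, h, q⟩ := Nat.find_spec c6
  have mn := fun κ h => Nat.find_min' c6 (m := #(s.Q κ)) ⟨κ, h, rfl⟩
  have m3 : 3 ≤ Nat.find c6 := q ▸ lt_of_le_of_ne' (c1 κ h) fun q => c4 ⟨κ, h, q⟩
  refine Or.inr ⟨Nat.find c6, (em _).imp (fun a => ⟨m3, fun κ h => Or.inl (mn κ h), a⟩) fun a =>
    ⟨m3, fun κ h => Or.inl (mn κ h), fun κ h r => (mn κ h).lt_of_ne' fun q => a ⟨κ, h, r, q⟩,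
      κ, h, by_contra fun r => a ⟨κ, h, r, q⟩, q⟩⟩

end Pool.Agent.MP_d1f1f3_co.H2
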