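import Pool.Agent.MP_d1f1f3_co.H2.Spec4

/-! The vertices in debt and their donors form a clique. -/

namespace Pool.Agent.MP_d1f1f3_co.H2

open Finset Relation H47
open scoped Classical

namespace Zc

variable {V : Type} [Fintype V] {s : Sg V} {j c : ZMod 2} {κ : V → ZMod 2} {D A : Finset V}
  {u v w x y g : V}

theorem z1 (c : ZMod 2) : c ≠ c + 1 := by revert c; decide

theorem z2 (c : ZMod 2) : c + 1 + 1 = c := by revert c; decide

theorem z3 (a c : ZMod 2) : a ≠ c → a = c + 1 := by revert a c; decide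

theorem fin_ (h : v ∈ A) : flp κ A v = κ v + 1 := if_pos h

theorem fout (h : v ∉ A) : flp κ A v = κ v := if_neg h

theorem mQ : x ∈ s.Q κ ↔ Co s.G x ∧ s.t κ x < 0 := by simp [Sg.Q]

theorem mN {G : SimpleGraph V} : w ∈ N G v ↔ G.Adj v w := by simp [N]

theorem trail (he : SEnum) (M C : Finset V) (a b : V) (hM : M ⊆ s.Q κ)
    (hc : #M + 1 = #(s.Q κ)) (hC : #M ≤ #C + 1) (ha : a ∈ M) (hb : b ∈ M) (hab : a ≠ b)
    (hH : ∀ g ∈ C, ∀ x ∈ M, Hc s.G κ g x) (hd : ∀ g ∈ C, dg s.G g ≠ 4) (hw : Hc s.G κ w a)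
    (hwC : w ∉ C) (hodd : Odd (dg s.G b)) (hρ : b ≠ s.ρ) : s.T3 κ := by
  obtain ⟨x, u, x1, xm, mem, xi, ui, uc, u0, -⟩ :=
    he V M (fun _ _ => C) a b w ha hb hab fun _ _ _ _ _ => hC
  refine ⟨#M, x, u, hc, ⟨fun i h1 h2 => hM (mem i h1 h2), xi, ui, fun i h1 h2 =>
    ⟨hH _ (uc i h1 h2) _ (mem i h1 h2.le), hH _ (uc i h1 h2) _ (mem _ (by omega) h2)⟩,
    fun i h1 h2 h4 => absurd h4 (hd _ (uc i h1 h2))⟩, by rw [u0, x1]; exact hw,
    fun i h1 h2 h => hwC (by rw [← u0, h]; exact uc i h1 h2), ?_, by rw [xm]; exact hodd,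
    by rw [xm]; exact hρ⟩
  rw [x1]
  refine hC.trans ?_
  rw [← card_insert_of_notMem hwC]
  refine card_le_card fun g hg => mem_filter.2 ⟨mem_univ _, ?_⟩
  have : Hc s.G κ g a := by
    rcases mem_insert.1 hg with rfl | hg
    · exact hw
    · exact hH g hg a ha
  exact ⟨this.1.symm, this.2.2.1, this.2.1, this.2.2.2.symm⟩

/-- The clique. -/
structure Kq (s : Sg V) (κ : V → ZMod 2) (D : Finset V) (c : ZMod 2) : Prop where
  four : 4 ≤ #(s.Q κ)
  card : #D + 2 = #(s.Q κ)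
  nr : s.ρ ∉ s.Q κ
  dis : ∀ x ∈ s.Q κ, x ∉ D
  co : ∀ x ∈ s.Q κ ∪ D, Co s.G x
  adj : ∀ x ∈ s.Q κ ∪ D, ∀ y ∈ s.Q κ ∪ D, x ≠ y → s.G.Adj x y
  cq : ∀ x ∈ s.Q κ, κ x = c
  cd : ∀ g ∈ D, κ g = c + 1
  nq : ∀ x ∈ s.Q κ, ∀ w, s.G.Adj x w → w ∈ s.Q κ ∪ D
  odd : ∀ x ∈ s.Q κ, Odd (dg s.G x)
  one : ∀ g ∈ D, s.t κ g = 1

theorem other {Q : Finset V} (h : 4 ≤ #Q) (a b : V) : ∃ y ∈ Q, y ≠ a ∧ y ≠ b := by
  by_contra hn
  push Not at hn
  have : Q ⊆ {a, b} := fun y hy => by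
    by_cases e : y = a
    · simp [e]
    · simp [hn y hy e]
  have := (card_le_card this).trans (card_le_two (a := a) (b := b))
  omega

theorem pfQ (hb : s.Bas j κ) (hz : s.Zs j κ D) (hu : u ∈ s.Q κ) (hv : v ∈ s.Q κ) (huv : u ≠ v) :
    s.St j (flp κ {u, v}) ∧ s.Q (flp κ {u, v}) = insert u (insert v D) := by
  have := hb.pf u hu v hv huv (fun e => hz.nr (e ▸ hu)) (fun e => hz.nr (e ▸ hv))
  rwa [hz.cm u hu v hv huv, filter_true_of_mem hz.one] at this

theorem kq (hB : Base) (ho : s.Ok) (hz : s.Zs j κ D) (h4 : 4 ≤ #(s.Q κ))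
    (hx : ∀ x ∈ s.Q κ, dh s.G κ x = #D ∧ Odd (dg s.G x)) : ∃ c, Kq s κ D c := by
  have hb := hB.2 V s j κ ho hz.st
  have hH : ∀ g ∈ D, ∀ x ∈ s.Q κ, Hc s.G κ g x := fun g hg x hx => by
    obtain ⟨y, hy, hyx, -⟩ := other h4 x x
    rw [← hz.cm x hx y hy hyx.symm] at hg
    exact (mem_filter.1 hg).2.1
  obtain ⟨u, hu⟩ : (s.Q κ).Nonempty := card_pos.1 (by omega)
  obtain ⟨v, hv, hvu, -⟩ := other h4 u u
  obtain ⟨st', q'⟩ := pfQ hb hz hu hv hvu.symm
  have hb' := hB.2 V s j _ ho st'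
  have dis : ∀ x ∈ s.Q κ, x ∉ D := fun x hx h => by
    have := hz.one x h
    have := (mQ.1 hx).2
    omega
  have cq : ∀ x ∈ s.Q κ, κ x = κ u := fun x hx => by
    by_cases e : x = u
    · rw [e]
    · exact (hb.clq x hx u hu e).2.2.2
  have adj : ∀ x ∈ s.Q κ ∪ D, ∀ y ∈ s.Q κ ∪ D, x ≠ y → s.G.Adj x y := fun x hx y hy e => by
    rcases mem_union.1 hx with hx | hx <;> rcases mem_union.1 hy with hy | hy
    · exact (hb.clq x hx y hy e).1
    · exact (hH y hy x hx).1.symm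
    · exact (hH x hx y hy).1
    · exact (hb'.clq x (by simp [q', hx]) y (by simp [q', hy]) e).1
  refine ⟨κ u, h4, hz.card, hz.nr, dis, fun x hx => ?_, adj, cq,
    fun g hg => z3 _ _ (hH g hg u hu).2.2.2, fun x hq w hw => ?_, fun x h => (hx x h).2, hz.one⟩
  · rcases mem_union.1 hx with hx | hx
    · exact (mQ.1 hx).1
    · exact (hH x hx u hu).2.1
  · obtain ⟨h1, h2⟩ := hx x hq
    obtain ⟨k, hk⟩ := hb.typ x hq fun e => hz.nr (e ▸ hq)
    obtain ⟨l, hl⟩ := h2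
    have hc := hz.card
    have hs : (s.Q κ ∪ D).erase x ⊆ N s.G x := fun y hy =>
      mN.2 (adj x (mem_union_left _ hq) y (mem_erase.1 hy).2 (mem_erase.1 hy).1.symm)
    have he := eq_of_subset_of_card_le hs (by
      rw [card_erase_of_mem (mem_union_left _ hq), card_union_of_disjoint (disjoint_left.2 dis)]
      change dg s.G x ≤ _
      omega)
    have := mN.2 hw
    rw [← he] at this
    exact (mem_erase.1 this).2

theorem Kq.cu (h : Kq s κ D c) : #(s.Q κ ∪ D) + 2 = 2 * #(s.Q κ) := by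
  rw [card_union_of_disjoint (disjoint_left.2 h.dis)]
  have := h.card
  omega

theorem Kq.sub (h : Kq s κ D c) (hx : x ∈ s.Q κ ∪ D) : (s.Q κ ∪ D).erase x ⊆ N s.G x :=
  fun y hy => mN.2 (h.adj x hx y (mem_erase.1 hy).2 (mem_erase.1 hy).1.symm)

theorem Kq.n4 (h : Kq s κ D c) (hx : x ∈ s.Q κ ∪ D) : dg s.G x ≠ 4 := by
  have h1 := card_le_card (h.sub hx)
  rw [card_erase_of_mem hx] at h1
  have := h.cu
  have := h.four
  unfold dg
  omega

theorem case1 (hT : Tl3) (ho : s.Ok) (hz : s.Zs j κ D) (h : Kq s κ D c) (hg : g ∈ D)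
    (hw : Hc s.G κ g w) (hwK : w ∉ s.Q κ ∪ D) : s.Trs j := by
  have hb := hT.1.2 V s j κ ho hz.st
  have h4 := h.four
  have hc := h.card
  obtain ⟨u, hu⟩ : (s.Q κ).Nonempty := card_pos.1 (by omega)
  obtain ⟨v, hv, hvu, -⟩ := other h4 u u
  obtain ⟨st', q'⟩ := pfQ hb hz hu hv hvu.symm
  have huD := h.dis u hu
  have hq : #(s.Q (flp κ {u, v})) = #D + 2 := by
    rw [q', card_insert_of_notMem (by simp [hvu.symm, huD]), card_insert_of_notMem (h.dis v hv)]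
  have hD : ∀ x ∈ D, x ∉ ({u, v} : Finset V) := fun x hx e => by
    rcases mem_insert.1 e with e | e
    · exact huD (e ▸ hx)
    · exact h.dis v hv (mem_singleton.1 e ▸ hx)
  refine ⟨_, st', by omega, .inr (.inr (trail (w := w) hT.2.2.2 (insert u D) (s.Q κ \ {u, v}) g u
    (fun x hx => ?_) ?_ ?_ (mem_insert_of_mem hg) (mem_insert_self _ _)
    (fun e => huD (e ▸ hg)) (fun a ha x hx => ?_)
    (fun a ha => h.n4 (mem_union_left _ (mem_sdiff.1 ha).1)) ?_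
    (fun e => hwK (mem_union_left _ (mem_sdiff.1 e).1)) (h.odd u hu) fun e => h.nr (e ▸ hu)))⟩
  · rw [q']
    rcases mem_insert.1 hx with e | e <;> simp [e]
  · rw [hq, card_insert_of_notMem huD]
  · rw [card_insert_of_notMem huD, card_sdiff_of_subset (by simp [insert_subset_iff, hu, hv]),
      card_pair hvu.symm]
    omega
  · obtain ⟨a1, a2⟩ := mem_sdiff.1 ha
    have hxK : x ∈ s.Q κ ∪ D := by
      rcases mem_insert.1 hx with e | e <;> simp [e, hu]
    have hne : flp κ {u, v} a ≠ flp κ {u, v} x := by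
      rw [fout a2, h.cq a a1]
      rcases mem_insert.1 hx with e | e
      · rw [e, fin_ (by simp), h.cq u hu]
        exact z1 c
      · rw [fout (hD x e), h.cd x e]
        exact z1 c
    exact ⟨h.adj a (mem_union_left _ a1) x hxK fun e => hne (by rw [e]),
      h.co a (mem_union_left _ a1), h.co x hxK, hne⟩
  · refine ⟨hw.1.symm, hw.2.2.1, hw.2.1, ?_⟩
    rw [fout (hD g hg), fout (A := {u, v}) (v := w) fun e => hwK ?_]
    · exact hw.2.2.2.symm
    · rcases mem_insert.1 e with e | e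
      · simp [e, hu]
      · simp [mem_singleton.1 e, hv]

theorem cnt (p : V → Prop) (a b : V) (ha : p a) (hb : ¬p b) :
    #(({a, b} : Finset V).filter p) = 1 ∧ #(({b, a} : Finset V).filter p) = 1 := by
  simp [filter_insert, filter_singleton, ha, hb]

theorem case2 (hT : Tl3) (ho : s.Ok) (hz : s.Zs j κ D) (h : Kq s κ D c) (hg : g ∈ D)
    (hρ : g ≠ s.ρ) (hw : Fc s.G κ g w) (hwK : w ∉ s.Q κ ∪ D) : s.Trs j := by
  have hb := hT.1.2 V s j κ ho hz.st
  have h4 := h.four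
  have hc := h.card
  obtain ⟨u, hu⟩ : (s.Q κ).Nonempty := card_pos.1 (by omega)
  obtain ⟨v, hv, hvu, -⟩ := other h4 u u
  obtain ⟨y, hy, hyu, hyv⟩ := other h4 u v
  have uL := fun {x} (hx : x ∈ s.Q κ) => mem_union_left D hx
  have uR := fun {x} (hx : x ∈ D) => mem_union_right (s.Q κ) hx
  have hH : ∀ a ∈ D, ∀ x ∈ s.Q κ, Hc s.G κ a x ∧ Hc s.G κ x a ∧ ¬Fc s.G κ x a ∧ ¬Fc s.G κ a x :=
    fun a ha x hx => by
      have e : κ a ≠ κ x := by
        rw [h.cd a ha, h.cq x hx]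
        exact (z1 c).symm
      have e' := h.adj a (uR ha) x (uL hx) fun e' => e (by rw [e'])
      exact ⟨⟨e', h.co a (uR ha), h.co x (uL hx), e⟩, ⟨e'.symm, h.co x (uL hx), h.co a (uR ha),
        e.symm⟩, fun f => e f.2.2.2.symm, fun f => e f.2.2.2⟩
  obtain ⟨st', g1, v1⟩ := hb.sw v hv g (h.co g (uR hg)) (fun e => h.nr (e ▸ hv)) hρ
    (.inr ⟨h.one g hg, (hH g hg v hv).1⟩)
  have hb' := hT.1.2 V s j _ ho st'
  have hf := (hT.1.1 V s κ {v, g} ho (by
    simp [h.co v (uL hv), h.co g (uR hg)])).1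
  have hgQ : g ∉ s.Q κ := fun e => h.dis g e hg
  have keep : ∀ x ∈ s.Q κ, x ≠ v → x ∈ s.Q (flp κ {v, g}) := fun x hx e => by
    have hF := hb.clq x hx v hv e
    have h1 := hf x (h.co x (uL hx))
    rw [if_neg (by simp [e, ne_of_mem_of_not_mem hx hgQ]),
      (cnt _ v g hF (hH g hg x hx).2.2.1).1,
      (cnt _ g v (hH g hg x hx).2.1 fun f => f.2.2.2 hF.2.2.2).2] at h1
    have := (mQ.1 hx).2
    exact mQ.2 ⟨h.co x (uL hx), by omega⟩
  have q' : s.Q (flp κ {v, g}) = insert g ((s.Q κ).erase v) := by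
    ext x
    rw [mem_insert, mem_erase]
    refine ⟨fun hx => ?_, fun hx => hx.elim (fun e => e ▸ g1) fun e => keep x e.2 e.1⟩
    by_cases e : x = g
    · exact .inl e
    have hxK : x ∈ s.Q κ ∪ D := by
      by_cases e' : x = u
      · exact e' ▸ uL hu
      · exact h.nq u hu x (hb'.clq x hx u (keep u hu hvu.symm) e').1.symm
    have hxv : x ≠ v := fun e => v1 (e ▸ hx)
    refine .inr ⟨hxv, (mem_union.1 hxK).resolve_right fun hD => ?_⟩
    have hF : Fc s.G κ x g := ⟨h.adj x hxK g (uR hg) e, h.co x hxK, h.co g (uR hg), by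
      rw [h.cd x hD, h.cd g hg]⟩
    have h1 := hf x (h.co x hxK)
    rw [if_neg (by simp [e, hxv]), (cnt _ g v hF (hH x hD v hv).2.2.2).2,
      (cnt _ v g (hH x hD v hv).1 fun f => f.2.2.2 hF.2.2.2).1] at h1
    have := (mQ.1 hx).2
    have := h.one x hD
    omega
  have hq : #(s.Q (flp κ {v, g})) = #(s.Q κ) := by
    rw [q', card_insert_of_notMem (by simp [hgQ]), card_erase_add_one hv]
  have hM : #(insert g (((s.Q κ).erase v).erase y)) + 1 = #(s.Q κ) := by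
    rw [card_insert_of_notMem (by simp [hgQ]), card_erase_add_one (by simp [hy, hyv]),
      card_erase_add_one hv]
  refine ⟨_, st', by omega, .inr (.inr (trail (w := w) hT.2.2.2
    (insert g (((s.Q κ).erase v).erase y)) (insert v (D.erase g)) g u
    (by rw [q']; exact insert_subset_insert _ (erase_subset _ _)) (by rw [hq, hM]) ?_
    (mem_insert_self _ _) (by simp [hu, hvu.symm, hyu.symm])
    (ne_of_mem_of_not_mem hu hgQ).symm (fun a ha x hx => ?_) (fun a ha => h.n4 ?_) ?_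
    (fun e => hwK ?_) (h.odd u hu) fun e => h.nr (e ▸ hu)))⟩
  · rw [card_insert_of_notMem (a := v) (by simp [h.dis v hv]), card_erase_add_one hg]
    omega
  · have a1 : a ∈ s.Q κ ∪ D ∧ flp κ {v, g} a = c + 1 := by
      rcases mem_insert.1 ha with e | e
      · rw [e, fin_ (by simp), h.cq v hv]
        exact ⟨uL hv, rfl⟩
      · obtain ⟨e1, e2⟩ := mem_erase.1 e
        rw [fout (by simp [e1, (ne_of_mem_of_not_mem e2 (h.dis v hv))]), h.cd a e2]
        exact ⟨uR e2, rfl⟩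
    have x1 : x ∈ s.Q κ ∪ D ∧ flp κ {v, g} x = c := by
      rcases mem_insert.1 hx with e | e
      · rw [e, fin_ (by simp), h.cd g hg]
        exact ⟨uR hg, z2 c⟩
      · obtain ⟨e1, e2⟩ := mem_erase.1 (mem_erase.1 e).2
        rw [fout (by simp [e1, (ne_of_mem_of_not_mem e2 hgQ)]), h.cq x e2]
        exact ⟨uL e2, rfl⟩
    have hne : flp κ {v, g} a ≠ flp κ {v, g} x := by
      rw [a1.2, x1.2]
      exact (z1 c).symm
    exact ⟨h.adj a a1.1 x x1.1 fun e => hne (by rw [e]), h.co a a1.1, h.co x x1.1, hne⟩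
  · rcases mem_insert.1 ha with e | e
    · exact e ▸ uL hv
    · exact uR (mem_erase.1 e).2
  · refine ⟨hw.1.symm, hw.2.2.1, hw.2.1, ?_⟩
    rw [fin_ (v := g) (by simp), fout (v := w) (by
      simp [(ne_of_mem_of_not_mem (uL hv) hwK).symm, (ne_of_mem_of_not_mem (uR hg) hwK).symm]),
      hw.2.2.2]
    exact z1 _
  · rcases mem_insert.1 e with e | e
    · exact e ▸ uL hv
    · exact uR (mem_erase.1 e).2

theorem nbr (ho : s.Ok) (hw : s.G.Adj v w) : Co s.G w ∨ (w = s.z ∧ v = s.ρ) := by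
  have h1 : 1 ≤ dg s.G w := card_pos.2 ⟨v, mN.2 hw.symm⟩
  rcases ho.deg w with h | h
  · have e := ho.leaf w (by omega)
    rcases ho.root with r | r
    · have := mN.2 hw.symm
      rw [e, r.1] at this
      exact .inr ⟨e, mem_singleton.1 this⟩
    · have := ho.iso
      rw [e, r.1] at h1
      omega
  · exact .inl h

theorem case3 (hT : Tl3) (ho : s.Ok) (hz : s.Zs j κ D) (h : Kq s κ D c)
    (h1 : ∀ g ∈ D, ∀ w, Hc s.G κ g w → w ∈ s.Q κ ∪ D)
    (h2 : ∀ g ∈ D, g ≠ s.ρ → ∀ w, Fc s.G κ g w → w ∈ s.Q κ ∪ D) : Kv2 s.G ∨ Kve s.G := by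
  have hb := hT.1.2 V s j κ ho hz.st
  have h4 := h.four
  have hc := h.cu
  have ev : Even #(s.Q κ ∪ D) := ⟨#(s.Q κ) - 1, by omega⟩
  have hN : ∀ v ∈ s.Q κ ∪ D, v ≠ s.ρ → N s.G v ⊆ s.Q κ ∪ D := fun v hv e w hw => by
    have hw := mN.1 hw
    rcases mem_union.1 hv with a | a
    · exact h.nq v a w hw
    · have cw := (nbr ho hw).resolve_right fun f => e f.2
      by_cases k : κ v = κ w
      · exact h2 v a e w ⟨hw, h.co v hv, cw, k⟩
      · exact h1 v a w ⟨hw, h.co v hv, cw, k⟩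
  have ck : ∀ v ∈ s.Q κ ∪ D, K s.G v := fun v hv => le_trans (by norm_num) (h.co v hv)
  by_cases hall : ∀ w, K s.G w → w ∈ s.Q κ ∪ D
  · have e : univ.filter (K s.G) = s.Q κ ∪ D := by
      ext w
      rw [mem_filter, and_iff_right (mem_univ _)]
      exact ⟨hall w, ck w⟩
    exact .inr ⟨fun u w a b => h.adj u (hall u a) w (hall w b), e ▸ ev, by rw [e]; omega⟩
  push Not at hall
  obtain ⟨w, kw, hw⟩ := hall
  obtain ⟨u, hu⟩ : (s.Q κ).Nonempty := card_pos.1 (by omega)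
  have hu' := mem_union_left D hu
  have two := ho.two _ u w hu' hw (ck u hu') kw
  have z0 : ∀ v ∈ s.Q κ ∪ D, v ≠ s.ρ →
      #((N (core s.G) v).filter fun w => w ∉ s.Q κ ∪ D) = 0 := fun v hv e => by
    rw [card_eq_zero, filter_eq_empty_iff]
    exact fun w hw f => f (hN v hv e (mN.2 (mN.1 hw).1))
  by_cases hr : s.ρ ∈ s.Q κ ∪ D
  swap
  · rw [cut, sum_eq_zero fun v hv => z0 v hv fun e => hr (e ▸ hv)] at two
    omega
  rw [cut, sum_eq_single_of_mem _ hr z0] at two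
  have rD := (mem_union.1 hr).resolve_left h.nr
  have cr := h.co _ hr
  have hzr : N s.G s.z = {s.ρ} := by
    rcases ho.root with r | r
    · exact r.1
    · have := ho.iso
      rw [Co, r.2.1] at cr
      omega
  have dz : dg s.G s.z = 1 := by rw [dg, hzr, card_singleton]
  have az : s.G.Adj s.ρ s.z := (mN.1 (by rw [hzr]; exact mem_singleton_self _)).symm
  have nz : ¬K s.G s.z := by
    rw [K, dz]
    norm_num
  have lo : #((N (core s.G) s.ρ).filter fun w => w ∉ s.Q κ ∪ D) + 1 ≤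
      #(N s.G s.ρ \ (s.Q κ ∪ D)) := by
    have nz' : s.z ∉ (N (core s.G) s.ρ).filter fun w => w ∉ s.Q κ ∪ D := fun f =>
      nz (mN.1 (mem_filter.1 f).1).2.2
    rw [← card_insert_of_notMem nz']
    refine card_le_card fun x hx => mem_sdiff.2 ?_
    rcases mem_insert.1 hx with e | e
    · exact e ▸ ⟨mN.2 az, fun f => nz (ck _ f)⟩
    · exact ⟨mN.2 (mN.1 (mem_filter.1 e).1).1, (mem_filter.1 e).2⟩
  have d1 : #(N s.G s.ρ \ (s.Q κ ∪ D)) + #((s.Q κ ∪ D).erase s.ρ) ≤ dg s.G s.ρ := by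
    rw [← card_union_of_disjoint
      (disjoint_left.2 fun x a b => (mem_sdiff.1 a).2 (mem_erase.1 b).2)]
    exact card_le_card (union_subset sdiff_subset (h.sub hr))
  rw [card_erase_of_mem hr] at d1
  have d2 : dh s.G κ s.ρ ≤ #(s.Q κ) := card_le_card fun x hx => by
    have hx := (mem_filter.1 hx).2
    refine (mem_union.1 (h1 _ rD x hx)).resolve_right fun f => hx.2.2.2 ?_
    rw [h.cd _ rD, h.cd x f]
  have d3 := hb.sum _ cr
  rw [if_pos rfl] at d3
  have d4 := h.one _ rD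
  unfold Sg.t tau at d4
  refine .inl ⟨_, s.ρ, hr, ev, by omega, h.adj, hN, ?_⟩
  split_ifs at d4 <;> omega

end Zc

open Zc in
theorem zc : SZc := by
  intro hT V _ s j κ D ho hz h4 hx
  obtain ⟨c, h⟩ := kq hT.1 ho hz h4 hx
  by_cases h1 : ∃ g ∈ D, ∃ w, Hc s.G κ g w ∧ w ∉ s.Q κ ∪ D
  · obtain ⟨g, hg, w, a, b⟩ := h1
    exact .inl (case1 hT ho hz h hg a b)
  by_cases h2 : ∃ g ∈ D, g ≠ s.ρ ∧ ∃ w, Fc s.G κ g w ∧ w ∉ s.Q κ ∪ D
  · obtain ⟨g, hg, e, w, a, b⟩ := h2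
    exact .inl (case2 hT ho hz h hg e a b)
  push Not at h1 h2
  exact .inr (.inr (.inr (case3 hT ho hz h h1 h2)))

end Pool.Agent.MP_d1f1f3_co.H2
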