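import Pool.Agent.MP_d1f1f3_co.H2.Spec4

/-! Row ZN: a trail after the flip of two vertices in debt. -/

namespace Pool.Agent.MP_d1f1f3_co.H2

open Finset Relation H47
open scoped Classical

namespace Zn

variable {V : Type} [Fintype V] {s : Sg V} {j : ZMod 2} {κ : V → ZMod 2} {D : Finset V} {u v : V}

theorem co {x : V} (h : x ∈ s.Q κ) : Co s.G x := (mem_filter.1 h).2.1

theorem nonneg {x : V} (c : Co s.G x) (h : x ∉ s.Q κ) : 0 ≤ s.t κ x :=
  not_lt.1 fun k => h (mem_filter.2 ⟨mem_univ _, c, k⟩)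

omit [Fintype V] in
theorem flp_in {A : Finset V} {x : V} (h : x ∈ A) : flp κ A x = κ x + 1 := if_pos h

omit [Fintype V] in
theorem flp_out {A : Finset V} {x : V} (h : x ∉ A) : flp κ A x = κ x := if_neg h

theorem hc_flip {A : Finset V} {x w : V} (h : Fc s.G κ x w) (hx : x ∈ A) (hw : w ∉ A) :
    Hc s.G (flp κ A) w x :=
  ⟨h.1.symm, h.2.2.1, h.2.1, by
    rw [flp_in hx, flp_out hw, h.2.2.2]
    generalize κ w = a
    revert a
    decide⟩

/-- An even member with few donors has an unseparated neighbour outside. -/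
theorem even (B : s.Bas j κ) (Z : s.Zs j κ D) (hu : u ∈ s.Q κ) (hd : dh s.G κ u = #D)
    (he : Even (dg s.G u)) {A : Finset V} (hA : u ∈ A) (h2 : #A = 2) :
    (∃ w, Fc s.G κ u w ∧ w ∉ s.Q κ) ∧ #D + 1 ≤ dh s.G (flp κ A) u := by
  have c := Z.card
  have h1 : (s.Q κ).erase u ⊆ univ.filter (Fc s.G κ u) := fun x hx =>
    mem_filter.2 ⟨mem_univ _, B.clq u hu x (mem_of_mem_erase hx) (ne_of_mem_erase hx).symm⟩
  have h3 := card_le_card h1
  have h4 := card_erase_add_one hu
  have h5 : #(univ.filter (Fc s.G κ u)) = #D + 2 := by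
    obtain ⟨k, hk⟩ := B.typ u hu fun e => Z.nr (e ▸ hu)
    obtain ⟨l, hl⟩ := he
    change #(erase _ _) ≤ df s.G κ u at h3
    show df s.G κ u = _
    omega
  refine ⟨by_contra fun k => ?_, ?_⟩
  · have : univ.filter (Fc s.G κ u) ⊆ (s.Q κ).erase u := fun x hx => by
      have a := (mem_filter.1 hx).2
      exact mem_erase.2 ⟨a.1.ne', by_contra fun b => k ⟨x, a, b⟩⟩
    have := card_le_card this
    omega
  · have a : univ.filter (Fc s.G κ u) \ A.erase u ⊆ univ.filter (Hc s.G (flp κ A) u) :=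
      fun x hx => by
        have a := (mem_filter.1 (mem_sdiff.1 hx).1).2
        have b := hc_flip a hA fun e => (mem_sdiff.1 hx).2 (mem_erase.2 ⟨a.1.ne', e⟩)
        exact mem_filter.2 ⟨mem_univ _, b.1.symm, b.2.2.1, b.2.1, b.2.2.2.symm⟩
    have b := card_le_card a
    have d := le_card_sdiff (A.erase u) (univ.filter (Fc s.G κ u))
    have e := card_erase_add_one hA
    change _ ≤ dh s.G (flp κ A) u at b
    omega

theorem two (hf : SFlip) (ho : s.Ok) (hu : u ∈ s.Q κ) (hv : v ∈ s.Q κ) (huv : u ≠ v) {w : V}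
    (hw : w ∉ s.Q κ) (a : Fc s.G κ w u) (b : Fc s.G κ w v) : 2 ≤ s.t (flp κ {u, v}) w := by
  have h := (hf V s κ {u, v} ho (by simp [co hu, co hv])).1 w a.2.1
  rw [if_neg (by simp [a.1.ne, b.1.ne]), filter_true_of_mem (by simp [a, b]),
    filter_false_of_mem (by
      simp only [mem_insert, mem_singleton, forall_eq_or_imp, forall_eq]
      exact ⟨fun k => k.2.2.2 a.2.2.2, fun k => k.2.2.2 b.2.2.2⟩), card_pair huv] at h
  have := nonneg a.2.1 hw
  simp only [card_empty] at h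
  omega

end Zn

open Zn

theorem zn : SZn := by
  rintro ⟨⟨hf, hB⟩, -, -, hE⟩ V _ s j κ D u v ho Z hu hv huv du dv eu hyp
  have B := hB V s j κ ho Z.st
  have ru : u ≠ s.ρ := fun e => Z.nr (e ▸ hu)
  have rv : v ≠ s.ρ := fun e => Z.nr (e ▸ hv)
  obtain ⟨st, hQ⟩ := B.pf u hu v hv huv ru rv
  rw [Z.cm u hu v hv huv, filter_true_of_mem Z.one] at hQ
  have c := Z.card
  have c3 := Z.three
  have hD : ∀ g ∈ s.Q κ, ∀ x ∈ D, Hc s.G κ x g := fun g hg x hx => by
    rcases eq_or_ne g u with rfl | e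
    · exact (mem_filter.1 (Z.cm g hg v hv huv ▸ hx)).2.1
    · exact (mem_filter.1 (Z.cm g hg u hu e ▸ hx)).2.1
  have uD : u ∉ D := fun k => (hD u hu u k).1.ne rfl
  have vD : v ∉ D := fun k => (hD v hv v k).1.ne rfl
  obtain ⟨y, y1, y2⟩ : ∃ y ∈ D, s.ρ ∉ D.erase y := by
    by_cases e : s.ρ ∈ D
    · exact ⟨_, e, notMem_erase _ _⟩
    · obtain ⟨y, k⟩ := card_pos.1 (show 0 < #D by omega)
      exact ⟨y, k, fun a => e (mem_of_mem_erase a)⟩
  have c1 : #(insert u (insert v (D.erase y))) = #D + 1 := by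
    rw [card_insert_of_notMem (by simp [huv, uD]), card_insert_of_notMem (by simp [vD]),
      card_erase_add_one y1]
  have c2 : #(s.Q (flp κ {u, v})) = #D + 2 := by
    rw [hQ, card_insert_of_notMem (by simp [huv, uD]), card_insert_of_notMem vD]
  obtain ⟨⟨wu, w1, w2⟩, d1⟩ := even B Z hu du eu (A := {u, v}) (by simp) (card_pair huv)
  obtain ⟨x, z, x1, xm, xq, xi, zi, zc, z0, -⟩ := hE V (insert u (insert v (D.erase y)))
    (fun _ _ => s.Q κ \ {u, v}) u v wu (by simp) (by simp) huv fun _ _ _ _ _ => by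
      have := le_card_sdiff {u, v} (s.Q κ)
      rw [card_pair huv] at this
      omega
  rw [c1] at xm xq xi zi zc
  have xr : ∀ i, 1 ≤ i → i ≤ #D + 1 → x i ≠ s.ρ := fun i a b e => by
    have := xq i a b
    rw [e] at this
    simp only [mem_insert] at this
    exact this.elim ru.symm fun k => k.elim rv.symm y2
  have hH : ∀ g ∈ s.Q κ \ {u, v}, ∀ a ∈ insert u (insert v (D.erase y)),
      Hc s.G (flp κ {u, v}) g a := fun g hg a ha => by
    obtain ⟨g1, g2⟩ := mem_sdiff.1 hg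
    simp only [mem_insert] at ha
    rcases ha with rfl | rfl | ha
    · exact hc_flip (B.clq _ hu g g1 fun e => g2 (by simp [e])) (by simp) g2
    · exact hc_flip (B.clq _ hv g g1 fun e => g2 (by simp [e])) (by simp) g2
    · have a1 := mem_of_mem_erase ha
      have k := hD g g1 a a1
      refine ⟨k.1.symm, k.2.2.1, k.2.1, ?_⟩
      rw [flp_out g2, flp_out (by simpa using ⟨fun e => uD (e ▸ a1), fun e => vD (e ▸ a1)⟩)]
      exact k.2.2.2.symm
  have nq : ∀ w, w ∉ s.Q κ → w ∉ ({u, v} : Finset V) := fun w a => by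
    simpa using ⟨fun e => a (e ▸ hu), fun e => a (e ▸ hv)⟩
  have key : ∀ wv, s.G.Adj wv u ∨ s.G.Adj wv v → ∃ z' : ℕ → V, z' 0 = wu ∧ z' (#D + 1) = wv ∧
      (∀ i, 1 ≤ i → i < #D + 1 → z' i ∈ s.Q κ) ∧ s.Trl (flp κ {u, v}) (#D + 1) x z' := by
    intro wv hw
    have e : ∀ i, i < #D + 1 → Function.update z (#D + 1) wv i = z i := fun i a =>
      Function.update_of_ne a.ne _ _
    refine ⟨Function.update z (#D + 1) wv, (e 0 (by omega)).trans z0, Function.update_self .., 
      fun i a b => e i b ▸ (mem_sdiff.1 (zc i a b)).1, fun i a b => ?_, xi,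
      fun i k a b a' b' => e i b ▸ e k b' ▸ zi i k a b a' b', fun i a b => e i b ▸
        ⟨hH _ (zc i a b) _ (xq i a b.le), hH _ (zc i a b) _ (xq _ (by omega) b)⟩,
      fun i a b => ?_⟩
    · rw [hQ]
      exact insert_subset_insert _ (insert_subset_insert _ (erase_subset _ _)) (xq i a b)
    · rw [e i b]
      have hg := zc i a b
      generalize z i = g at hg
      obtain ⟨g1, g2⟩ := mem_sdiff.1 hg
      intro p1 p2 _ w p4 p5
      have n : w ∉ ({u, v} : Finset V) := fun k => (hH g hg w (by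
        simp only [mem_insert, mem_singleton] at k ⊢
        exact k.imp_right Or.inl)).2.2.2 p4.2.2.2
      rw [flp_out g2] at p2
      have p6 : Fc s.G κ g w := ⟨p4.1, p4.2.1, p4.2.2.1, by
        simpa only [flp_out g2, flp_out n] using p4.2.2.2⟩
      simp only [mem_insert, mem_singleton, not_or] at g2 n
      have p7 : w ∉ s.Q κ := fun k => by
        have a1 : #({u, v, g, w} : Finset V) ≤ #(s.Q κ) :=
          card_le_card (by simp [insert_subset_iff, hu, hv, g1, k])
        rw [card_insert_of_notMem (by simp [huv, Ne.symm g2.1, Ne.symm n.1]),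
          card_insert_of_notMem (by simp [Ne.symm g2.2, Ne.symm n.2]), card_pair p4.1.ne] at a1
        have a2 : #D ≤ dh s.G κ g := card_le_card fun a ha => by
          have k := hD g g1 a ha
          exact mem_filter.2 ⟨mem_univ _, k.1.symm, k.2.2.1, k.2.1, k.2.2.2.symm⟩
        obtain ⟨l, h | h | h⟩ := B.typ g g1 fun e => Z.nr (e ▸ g1)
        · omega
        · omega
        · obtain rfl : l = 2 := by omega
          exact absurd (p2.symm.trans h.2.1) (by decide)
      rcases hyp g g1 g2.1 g2.2 p1 p2 w p6 p7 p5 with ⟨a1, a2, a3⟩ | ⟨a1, a2⟩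
      · have h := (hf V s κ {u, v} ho (by simp [co hu, co hv])).1 w p6.2.2.1
        rw [if_neg (nq w p7), filter_false_of_mem (by simp [Fc, a2, a3]),
          filter_false_of_mem (by simp [Hc, a2, a3])] at h
        refine Or.inl ⟨by simpa [h] using a1, ?_⟩
        rintro ⟨k, k1, rfl⟩
        rcases k1.eq_or_lt with rfl | k1
        · rw [Function.update_self] at a2 a3
          exact hw.elim a2 a3
        · rw [e k k1] at a2 p7
          rcases k.eq_zero_or_pos with rfl | k2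
          · exact a2 (z0 ▸ w1.1.symm)
          · exact p7 (mem_sdiff.1 (zc k k2 k1)).1
      · exact Or.inr (Or.inl (two hf ho hu hv huv p7
          ⟨a1, p6.2.2.1, co hu, p6.2.2.2.symm.trans (B.clq g g1 u hu g2.1).2.2.2⟩
          ⟨a2, p6.2.2.1, co hv, p6.2.2.2.symm.trans (B.clq g g1 v hv g2.2).2.2.2⟩))
  have h0 : Hc s.G (flp κ {u, v}) wu u := hc_flip w1 (by simp) (nq _ w2)
  refine ⟨_, st, by omega, Or.inr ?_⟩
  rcases Nat.even_or_odd (dg s.G v) with ev | ov
  · obtain ⟨⟨wv, w3, w4⟩, d2⟩ := even B Z hv dv ev (A := {u, v}) (by simp) (card_pair huv)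
    obtain ⟨z', a1, a2, a3, a4⟩ := key wv (Or.inr w3.1.symm)
    refine Or.inl ⟨#D + 1, x, z', c2.symm, a4, xr, by rwa [a1, x1], ?_, fun i a b => ?_,
      by rwa [x1], by rwa [xm], fun e p1 p2 p3 => ?_⟩
    · rw [a2, xm]
      exact hc_flip w3 (by simp) (nq _ w4)
    · rw [a1, a2]
      exact ⟨fun e => w2 (e ▸ a3 i a b), fun e => w4 (e ▸ a3 i a b)⟩
    · rw [a1, a2] at e
      rw [a1] at p1 p2 p3
      subst e
      have h := two hf ho hu hv huv w2 ⟨w1.1.symm, w1.2.2.1, w1.2.1, w1.2.2.2.symm⟩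
        ⟨w3.1.symm, w3.2.2.1, w3.2.1, w3.2.2.2.symm⟩
      simp only [Sg.t, tau, p1, p3] at h
      split_ifs at h <;> omega
  · obtain ⟨z', a1, -, a3, a4⟩ := key wu (Or.inl w1.1.symm)
    exact Or.inr ⟨#D + 1, x, z', c2.symm, a4, by rwa [a1, x1],
      fun i a b e => w2 (a1 ▸ e ▸ a3 i a b), by rwa [x1], by rwa [xm], by rwa [xm]⟩

end Pool.Agent.MP_d1f1f3_co.H2
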