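import Pool.Agent.MP_d1f1f3_co.H2.Top1a
import Pool.Agent.MP_d1f1f3_co.H2.Ori3
import Pool.Agent.MP_d1f1f3_co.H2.Nat
import Pool.Agent.MP_d1f1f3_co.H2.Flip
import Pool.Agent.MP_d1f1f3_co.H2.Cj
import Pool.Agent.MP_d1f1f3_co.H2.Jhub
import Pool.Agent.MP_d1f1f3_co.H2.Jpair
import Pool.Agent.MP_d1f1f3_co.H2.Jlink
import Pool.Agent.MP_d1f1f3_co.H2.Jbig
import Pool.Agent.MP_d1f1f3_co.H2.Jt1
import Pool.Agent.MP_d1f1f3_co.H2.Jt2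
import Pool.Agent.MP_d1f1f3_co.H2.Jt3
import Pool.Agent.MP_d1f1f3_co.H2.Bas
import Pool.Agent.MP_d1f1f3_co.H2.Noe
import Pool.Agent.MP_d1f1f3_co.H2.Nb1
import Pool.Agent.MP_d1f1f3_co.H2.Sdr
import Pool.Agent.MP_d1f1f3_co.H2.Tree2
import Pool.Agent.MP_d1f1f3_co.H2.Cb
import Pool.Agent.MP_d1f1f3_co.H2.Br
import Pool.Agent.MP_d1f1f3_co.H2.Hs
import Pool.Agent.MP_d1f1f3_co.H2.Zn
import Pool.Agent.MP_d1f1f3_co.H2.Zc
import Pool.Agent.MP_d1f1f3_co.H2.Ca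

/-!
The case tree, apart from the rich states.
-/

namespace Pool.Agent.MP_d1f1f3_co.H2

theorem top1 (nj : SNj) : STop1 :=
  top1_of ori3 nat flip exist cj nj j1 jhub jpair jlink jbig jt1 jt2 jt3 bas noe nb1 sdr enum
    tree2 cb br hs zn zc ca

end Pool.Agent.MP_d1f1f3_co.H2
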