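import Pool.Agent.MP_d1f1f3_co.H2.Spec4

/-!
The case tree for graphs without vertices of degree two.
-/

namespace Pool.Agent.MP_d1f1f3_co.H2

open Finset Relation H47
open scoped Classical

theorem top1_of (ori3 : SOri3) (nat : SNat) (flip : SFlip) (exist : SExist) (cj : SCj) (nj : SNj)
    (j1 : SJ1) (jhub : SJhub) (jpair : SJpair) (jlink : SJlink) (jbig : SJbig) (jt1 : SJt1)
    (jt2 : SJt2) (jt3 : SJt3) (bas : SBas) (noe : SNoE) (nb1 : SNb1) (sdr : SSdr) (enum : SEnum)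
    (tree2 : STree2) (cb : SCb) (br : SBr) (hs : SHs) (zn : SZn) (zc : SZc) (ca : SCa) :
    STop1 := by
  intro V _ s h
  have tl : Tools := ⟨ori3, nat, cj⟩
  have ba : Base := ⟨flip, bas flip⟩
  have t3 : Tl3 := ⟨ba, nb1, sdr, enum⟩
  rcases exist V s h with ⟨j, hj⟩ | ⟨κ, hκ⟩
  · have fin : s.Fin3 j → s.Fin := by
      rintro (⟨κ, h1, h2, h3⟩ | h1)
      · have e := noe ba V s j κ h h1 (Or.inl h2)
        rcases h3 with h3 | h3 | h3
        exacts [Or.inl (jt1 tl V s j κ h h1 h2 e h3), Or.inl (jt2 tl V s j κ h h1 h2 e h3),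
          Or.inl (jt3 tl V s j κ h h1 h2 e h3)]
      · exact Or.inr h1
    rcases tree2 ba noe tl j1 jhub jpair jlink jbig V s j h hj with h1 | ⟨m, h1 | h1⟩
    exacts [Or.inl h1, fin (ca t3 br hs zn zc V s j m h h1), fin (cb t3 V s j m h h1)]
  · exact Or.inl (nj ori3 nat flip V s κ h hκ)

end Pool.Agent.MP_d1f1f3_co.H2
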